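import Mathlib

/-!
# Batch lemma: choice of sparse centres with large groups
-/

namespace H167BF

open Finset

variable {V : Type*} [DecidableEq V]

theorem card_inter_insert (T C : Finset V) (v : V) (hv : v ∉ C) :
    ((T ∩ insert v C).card : ℝ) = (T ∩ C).card + (if v ∈ T then 1 else 0) := by
  by_cases h : v ∈ T
  · rw [Finset.inter_insert_of_mem h, Finset.card_insert_of_notMem (by simp [hv])]
    simp [h]
  · rw [Finset.inter_insert_of_notMem h]
    simp [h]

/-- Derandomised second moment: a subset `C` of `F` of density `p` meeting all `T j` in about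
`p |T j ∩ F|` elements on (weighted quadratic) average. -/
theorem balanced_choice {J : Type*} (S : Finset J) (T : J → Finset V) (w : J → ℝ) (p : ℝ)
    (hp0 : 0 ≤ p) (hp1 : p ≤ 1) (F : Finset V) :
    ∃ C ⊆ F, ∑ j ∈ S, w j * (((T j ∩ C).card : ℝ) - p * (T j ∩ F).card) ^ 2 ≤
      ∑ j ∈ S, w j * (p * (1 - p) * (T j ∩ F).card) := by
  induction F using Finset.induction_on with
  | empty => exact ⟨∅, by simp, by simp⟩
  | insert v F hv ih =>
    obtain ⟨C, hCF, hC⟩ := ih
    have hvC : v ∉ C := fun h => hv (hCF h)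
    by_contra hcon
    push Not at hcon
    have h1 := hcon (insert v C) (Finset.insert_subset_insert _ hCF)
    have h2 := hcon C (hCF.trans (Finset.subset_insert _ _))
    simp only [card_inter_insert _ _ _ hv, card_inter_insert _ _ _ hvC] at h1 h2
    have key : p * (∑ j ∈ S, w j * (((T j ∩ C).card + (if v ∈ T j then (1:ℝ) else 0)) -
          p * ((T j ∩ F).card + (if v ∈ T j then (1:ℝ) else 0))) ^ 2) +
        (1 - p) * (∑ j ∈ S, w j * (((T j ∩ C).card : ℝ) -
          p * ((T j ∩ F).card + (if v ∈ T j then (1:ℝ) else 0))) ^ 2) =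
        ∑ j ∈ S, w j * (((T j ∩ C).card : ℝ) - p * (T j ∩ F).card) ^ 2 +
        ∑ j ∈ S, w j * (p * (1 - p) * (if v ∈ T j then (1:ℝ) else 0)) := by
      rw [Finset.mul_sum, Finset.mul_sum, ← Finset.sum_add_distrib, ← Finset.sum_add_distrib]
      apply Finset.sum_congr rfl
      intro j _
      split_ifs <;> ring
    have h3 : ∑ j ∈ S, w j * (p * (1 - p) * ((T j ∩ F).card + (if v ∈ T j then (1:ℝ) else 0))) =
        ∑ j ∈ S, w j * (p * (1 - p) * (T j ∩ F).card) +
        ∑ j ∈ S, w j * (p * (1 - p) * (if v ∈ T j then (1:ℝ) else 0)) := by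
      rw [← Finset.sum_add_distrib]
      apply Finset.sum_congr rfl
      intro j _
      ring
    rw [h3] at h1 h2
    rcases hp0.lt_or_eq with hp | hp
    · have h4 := mul_lt_mul_of_pos_left h1 hp
      have h5 := mul_le_mul_of_nonneg_left h2.le (sub_nonneg.mpr hp1)
      nlinarith
    · subst hp
      nlinarith

/-- Double counting of incidences. -/
theorem sum_card_filter {ι : Type*} [DecidableEq ι] (A : ι → Finset V) (P : Finset ι)
    (C : Finset V) :
    ∑ i ∈ P, ((A i ∩ C).card : ℝ) = ∑ c ∈ C, ((P.filter (fun i => c ∈ A i)).card : ℝ) := by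
  have h1 : ∀ i ∈ P, ((A i ∩ C).card : ℝ) = ∑ c ∈ C, if c ∈ A i then (1:ℝ) else 0 := by
    intro i _
    rw [Finset.sum_ite, Finset.sum_const_zero, add_zero, Finset.sum_const, nsmul_eq_mul, mul_one]
    congr 2
    ext c
    simp [and_comm]
  have h2 : ∀ c ∈ C, ((P.filter (fun i => c ∈ A i)).card : ℝ) =
      ∑ i ∈ P, if c ∈ A i then (1:ℝ) else 0 := by
    intro c _
    rw [Finset.sum_ite, Finset.sum_const_zero, add_zero, Finset.sum_const, nsmul_eq_mul, mul_one]
  rw [Finset.sum_congr rfl h1, Finset.sum_congr rfl h2, Finset.sum_comm]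

/-- The batch lemma. -/
theorem batch {ι : Type*} [DecidableEq ι] (A : ι → Finset V) (W : Finset ι) (F : Finset V)
    (t L H p δ d D g c0 m ω : ℝ) (ht : 0 < t) (hL : 0 < L)
    (hdeg : ∀ v ∈ F, ((W.filter (fun i => v ∈ A i)).card : ℝ) ≤ t)
    (hWL : ∀ i ∈ W, L ≤ ((A i ∩ F).card : ℝ)) (hWH : ∀ i ∈ W, ((A i ∩ F).card : ℝ) ≤ H)
    (hp0 : 0 < p) (hp1 : p ≤ 1) (hδ : 0 < δ) (hm : m ≤ p * L - δ) (hdm : d < m)
    (hD : p * H + δ ≤ D) (hg : 0 < g) (hc0 : 1 ≤ c0) (hc : 2 ≤ (c0 - 1) ^ 2 * (p * L))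
    (hω : 2 * p * t / δ ^ 2 + g * c0 * p / (m - d) ≤ ω) :
    ∃ P ⊆ W, ∃ C ⊆ F, (∀ i ∈ P, d ≤ ((A i ∩ C).card : ℝ) ∧ ((A i ∩ C).card : ℝ) ≤ D) ∧
      (∀ c ∈ C, g ≤ ((P.filter (fun i => c ∈ A i)).card : ℝ)) ∧
      ((W \ P).card : ℝ) ≤ ω * F.card := by
  classical
  have hdmpos : 0 < m - d := by linarith
  have hω0 : 0 ≤ ω := by
    refine le_trans ?_ hω
    positivity
  rcases W.eq_empty_or_nonempty with hWe | ⟨i0, hi0⟩
  · subst hWe
    refine ⟨∅, by simp, ∅, by simp, by simp, by simp, ?_⟩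
    simp
    positivity
  have hFL : L ≤ F.card := by
    refine (hWL i0 hi0).trans ?_
    exact_mod_cast Finset.card_le_card Finset.inter_subset_right
  have hsumW : ∑ i ∈ W, ((A i ∩ F).card : ℝ) ≤ t * F.card := by
    rw [sum_card_filter]
    calc ∑ c ∈ F, ((W.filter (fun i => c ∈ A i)).card : ℝ) ≤ ∑ c ∈ F, t :=
          Finset.sum_le_sum hdeg
      _ = t * F.card := by rw [Finset.sum_const, nsmul_eq_mul, mul_comm]
  obtain ⟨C0, hC0F, hC0⟩ := balanced_choice (insertNone W)
    (fun j => j.elim F A) (fun j => j.elim t (fun _ => 1)) p hp0.le hp1 F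
  simp only [Finset.sum_insertNone, Option.elim_none, Option.elim_some, Finset.inter_self,
    one_mul] at hC0
  rw [Finset.inter_eq_right.mpr hC0F] at hC0
  have hrhs : t * (p * (1 - p) * F.card) + ∑ i ∈ W, p * (1 - p) * ((A i ∩ F).card : ℝ) ≤
      2 * p * t * F.card := by
    rw [← Finset.mul_sum]
    have h1 : p * (1 - p) * ∑ i ∈ W, ((A i ∩ F).card : ℝ) ≤ p * (1 - p) * (t * F.card) :=
      mul_le_mul_of_nonneg_left hsumW (mul_nonneg hp0.le (sub_nonneg.mpr hp1))
    have h2 : 0 ≤ p * p * t * F.card := by positivity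
    nlinarith
  have hboth := hC0.trans hrhs
  have hsq0 : 0 ≤ ∑ i ∈ W, (((A i ∩ C0).card : ℝ) - p * (A i ∩ F).card) ^ 2 :=
    Finset.sum_nonneg (fun _ _ => sq_nonneg _)
  have hFpos : (0:ℝ) < F.card := lt_of_lt_of_le hL hFL
  -- size of C0
  have hC0card : (C0.card : ℝ) ≤ c0 * p * F.card := by
    have h1 : t * ((C0.card : ℝ) - p * F.card) ^ 2 ≤ 2 * p * t * F.card := by linarith
    have h2 : ((C0.card : ℝ) - p * F.card) ^ 2 ≤ 2 * p * F.card := by
      have : t * ((C0.card : ℝ) - p * F.card) ^ 2 ≤ t * (2 * p * F.card) := by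
        nlinarith
      exact le_of_mul_le_mul_left this ht
    have h3 : ((C0.card : ℝ) - p * F.card) ^ 2 ≤ ((c0 - 1) * p * F.card) ^ 2 := by
      refine h2.trans ?_
      have h4 : 2 * (p * F.card) ≤ (c0 - 1) ^ 2 * (p * L) * (p * F.card) :=
        mul_le_mul_of_nonneg_right hc (by positivity)
      have h5 : (c0 - 1) ^ 2 * (p * L) * (p * F.card) ≤
          (c0 - 1) ^ 2 * (p * F.card) * (p * F.card) := by
        gcongr
      nlinarith
    have h6 := abs_le_of_sq_le_sq h3 (by have := sub_nonneg.mpr hc0; positivity)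
    have h7 := (abs_le.mp h6).2
    nlinarith
  -- balanced sets
  set P0 := W.filter (fun i => |((A i ∩ C0).card : ℝ) - p * (A i ∩ F).card| ≤ δ) with hP0
  have hunb : ((W \ P0).card : ℝ) * δ ^ 2 ≤ 2 * p * t * F.card := by
    have h1 : ((W \ P0).card : ℝ) * δ ^ 2 ≤
        ∑ i ∈ W \ P0, (((A i ∩ C0).card : ℝ) - p * (A i ∩ F).card) ^ 2 := by
      rw [← nsmul_eq_mul, ← Finset.sum_const]
      apply Finset.sum_le_sum
      intro i hi
      simp only [hP0, Finset.mem_sdiff, Finset.mem_filter, not_and, not_le] at hi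
      have := hi.2 hi.1
      rw [← sq_abs (((A i ∩ C0).card : ℝ) - p * (A i ∩ F).card)]
      gcongr
    have h2 : ∑ i ∈ W \ P0, (((A i ∩ C0).card : ℝ) - p * (A i ∩ F).card) ^ 2 ≤
        ∑ i ∈ W, (((A i ∩ C0).card : ℝ) - p * (A i ∩ F).card) ^ 2 :=
      Finset.sum_le_sum_of_subset_of_nonneg Finset.sdiff_subset (fun _ _ _ => sq_nonneg _)
    have h3 : 0 ≤ t * ((C0.card : ℝ) - p * F.card) ^ 2 := by positivity
    linarith
  have hP0low : ∀ i ∈ P0, m ≤ ((A i ∩ C0).card : ℝ) := by
    intro i hi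
    rw [hP0, Finset.mem_filter] at hi
    have h1 := (abs_le.mp hi.2).1
    have h2 := mul_le_mul_of_nonneg_left (hWL i hi.1) hp0.le
    linarith
  have hP0up : ∀ i ∈ P0, ((A i ∩ C0).card : ℝ) ≤ D := by
    intro i hi
    rw [hP0, Finset.mem_filter] at hi
    have h1 := (abs_le.mp hi.2).2
    have h2 := mul_le_mul_of_nonneg_left (hWH i hi.1) hp0.le
    linarith
  -- maximising pair
  obtain ⟨⟨P, C⟩, hPC, hmax⟩ := Finset.exists_max_image (P0.powerset ×ˢ C0.powerset)
    (fun q => (∑ i ∈ q.1, (((A i ∩ q.2).card : ℝ) - d)) - g * q.2.card)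
    ⟨(∅, ∅), by simp⟩
  simp only [Finset.mem_product, Finset.mem_powerset] at hPC
  obtain ⟨hPP0, hCC0⟩ := hPC
  refine ⟨P, hPP0.trans (Finset.filter_subset _ _), C, hCC0.trans hC0F, ?_, ?_, ?_⟩
  · intro i hi
    constructor
    · have h1 := hmax (P.erase i, C) (by
        simp only [Finset.mem_product, Finset.mem_powerset]
        exact ⟨(Finset.erase_subset _ _).trans hPP0, hCC0⟩)
      simp only at h1
      rw [← Finset.add_sum_erase P _ hi] at h1
      linarith
    · refine le_trans ?_ (hP0up i (hPP0 hi))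
      exact_mod_cast Finset.card_le_card (Finset.inter_subset_inter_left hCC0)
  · intro c hc
    have h1 := hmax (P, C.erase c) (by
      simp only [Finset.mem_product, Finset.mem_powerset]
      exact ⟨hPP0, (Finset.erase_subset _ _).trans hCC0⟩)
    simp only [Finset.sum_sub_distrib, sum_card_filter] at h1
    rw [← Finset.add_sum_erase C _ hc, Finset.card_erase_of_mem hc] at h1
    have h2 : 1 ≤ C.card := Finset.card_pos.mpr ⟨c, hc⟩
    push_cast [Nat.cast_sub h2] at h1
    linarith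
  · have h1 := hmax (P0, C0) (by simp)
    simp only at h1
    have h2 : ∑ i ∈ P0, (((A i ∩ C0).card : ℝ) - d) ≥
        ∑ i ∈ P, (((A i ∩ C).card : ℝ) - d) + (m - d) * (P0 \ P).card := by
      rw [← Finset.sum_sdiff hPP0, add_comm]
      apply add_le_add
      · apply Finset.sum_le_sum
        intro i _
        have : ((A i ∩ C).card : ℝ) ≤ (A i ∩ C0).card := by
          exact_mod_cast Finset.card_le_card (Finset.inter_subset_inter_left hCC0)
        linarith
      · calc (m - d) * (P0 \ P).card = ∑ i ∈ P0 \ P, (m - d) := by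
              rw [Finset.sum_const, nsmul_eq_mul, mul_comm]
          _ ≤ _ := by
              apply Finset.sum_le_sum
              intro i hi
              have := hP0low i (Finset.sdiff_subset hi)
              linarith
    have h3 : (m - d) * (P0 \ P).card ≤ g * (c0 * p * F.card) := by
      have h4 : 0 ≤ g * (C.card : ℝ) := by positivity
      have h5 : g * (C0.card : ℝ) ≤ g * (c0 * p * F.card) := by gcongr
      linarith
    have h4 : ((P0 \ P).card : ℝ) ≤ g * c0 * p / (m - d) * F.card := by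
      rw [div_mul_eq_mul_div, le_div_iff₀ hdmpos]
      nlinarith
    have h5 : ((W \ P0).card : ℝ) ≤ 2 * p * t / δ ^ 2 * F.card := by
      rw [div_mul_eq_mul_div, le_div_iff₀ (by positivity)]
      exact hunb
    have h6 : ((W \ P).card : ℝ) ≤ (W \ P0).card + (P0 \ P).card := by
      have : W \ P ⊆ (W \ P0) ∪ (P0 \ P) := by
        intro i hi
        simp only [Finset.mem_union, Finset.mem_sdiff] at hi ⊢
        tauto
      have := (Finset.card_le_card this).trans (Finset.card_union_le _ _)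
      exact_mod_cast this
    calc ((W \ P).card : ℝ) ≤ 2 * p * t / δ ^ 2 * F.card + g * c0 * p / (m - d) * F.card := by
          linarith
      _ = (2 * p * t / δ ^ 2 + g * c0 * p / (m - d)) * F.card := by ring
      _ ≤ ω * F.card := by gcongr

end H167BF
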