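import Mathlib

/-!
# Stable pairs of sets and groups
-/

namespace H167BF

open Finset

variable {V ι : Type*} [DecidableEq V] [DecidableEq ι]

set_option linter.unusedSectionVars false
set_option linter.unusedVariables false

/-- groups of `Γ` that contain `i` -/
def gat (Γ : Finset (V × Finset ι)) (i : ι) : Finset (V × Finset ι) :=
  Γ.filter (fun γ => i ∈ γ.2)

/-- Stable pairs: sets `P'` (inside `U`) and groups `Γ'` (inside the alive groups `Γa`), where
each set of `P'` keeps a proportion `α` of all its groups in `Γ'`, and each group of `Γ'` keeps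
half of its members in `P'`. -/
structure Stable (α : ℝ) (Γ Γa : Finset (V × Finset ι)) (U P' : Finset ι)
    (Γ' : Finset (V × Finset ι)) : Prop where
  subP : P' ⊆ U
  subG : Γ' ⊆ Γa
  sP : ∀ i ∈ P', α * ((gat Γ i).card : ℝ) ≤ (gat Γ' i).card
  sG : ∀ γ ∈ Γ', (γ.2.card : ℝ) ≤ 2 * (γ.2 ∩ P').card

open scoped Classical in
/-- union of all stable `P'` -/
noncomputable def coreP (α : ℝ) (Γ Γa : Finset (V × Finset ι)) (U : Finset ι) : Finset ι :=
  U.filter (fun i => ∃ P' Γ', Stable α Γ Γa U P' Γ' ∧ i ∈ P')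

open scoped Classical in
/-- union of all stable `Γ'` -/
noncomputable def coreG (α : ℝ) (Γ Γa : Finset (V × Finset ι)) (U : Finset ι) :
    Finset (V × Finset ι) :=
  Γa.filter (fun γ => ∃ P' Γ', Stable α Γ Γa U P' Γ' ∧ γ ∈ Γ')

theorem Stable.le_coreP {α : ℝ} {Γ Γa : Finset (V × Finset ι)} {U P' : Finset ι}
    {Γ' : Finset (V × Finset ι)} (h : Stable α Γ Γa U P' Γ') : P' ⊆ coreP α Γ Γa U := by
  classical
  intro i hi
  simp only [coreP, Finset.mem_filter]
  exact ⟨h.subP hi, P', Γ', h, hi⟩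

theorem Stable.le_coreG {α : ℝ} {Γ Γa : Finset (V × Finset ι)} {U P' : Finset ι}
    {Γ' : Finset (V × Finset ι)} (h : Stable α Γ Γa U P' Γ') : Γ' ⊆ coreG α Γ Γa U := by
  classical
  intro γ hγ
  simp only [coreG, Finset.mem_filter]
  exact ⟨h.subG hγ, P', Γ', h, hγ⟩

theorem core_stable (α : ℝ) (Γ Γa : Finset (V × Finset ι)) (U : Finset ι) :
    Stable α Γ Γa U (coreP α Γ Γa U) (coreG α Γ Γa U) := by
  classical
  refine ⟨Finset.filter_subset _ _, Finset.filter_subset _ _, ?_, ?_⟩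
  · intro i hi
    simp only [coreP, Finset.mem_filter] at hi
    obtain ⟨_, P', Γ', h, hi'⟩ := hi
    refine (h.sP i hi').trans ?_
    have : gat Γ' i ⊆ gat (coreG α Γ Γa U) i := Finset.filter_subset_filter _ h.le_coreG
    exact_mod_cast Finset.card_le_card this
  · intro γ hγ
    simp only [coreG, Finset.mem_filter] at hγ
    obtain ⟨_, P', Γ', h, hγ'⟩ := hγ
    refine (h.sG γ hγ').trans ?_
    have : γ.2 ∩ P' ⊆ γ.2 ∩ coreP α Γ Γa U := Finset.inter_subset_inter_left h.le_coreP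
    have h2 : ((γ.2 ∩ P').card : ℝ) ≤ (γ.2 ∩ coreP α Γ Γa U).card := by
      exact_mod_cast Finset.card_le_card this
    linarith

theorem sum_gat (Γ' : Finset (V × Finset ι)) (P : Finset ι) :
    ∑ i ∈ P, ((gat Γ' i).card : ℝ) = ∑ γ ∈ Γ', ((γ.2 ∩ P).card : ℝ) := by
  have h1 : ∀ i ∈ P, ((gat Γ' i).card : ℝ) = ∑ γ ∈ Γ', if i ∈ γ.2 then (1:ℝ) else 0 := by
    intro i _
    rw [Finset.sum_ite, Finset.sum_const_zero, add_zero, Finset.sum_const, nsmul_eq_mul, mul_one]
    rfl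
  have h2 : ∀ γ ∈ Γ', ((γ.2 ∩ P).card : ℝ) = ∑ i ∈ P, if i ∈ γ.2 then (1:ℝ) else 0 := by
    intro γ _
    rw [Finset.sum_ite, Finset.sum_const_zero, add_zero, Finset.sum_const, nsmul_eq_mul, mul_one]
    congr 2
    ext i
    simp [and_comm]
  rw [Finset.sum_congr rfl h1, Finset.sum_congr rfl h2, Finset.sum_comm]

/-- number of groups in a stable pair -/
theorem Stable.card_groups {α : ℝ} {Γ Γa : Finset (V × Finset ι)} {U P' : Finset ι}
    {Γ' : Finset (V × Finset ι)} (h : Stable α Γ Γa U P' Γ') {g D : ℝ}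
    (hsub : Γa ⊆ Γ) (hg : ∀ γ ∈ Γ', g ≤ (γ.2.card : ℝ)) (hD : ∀ i ∈ P', ((gat Γ i).card : ℝ) ≤ D) :
    g * Γ'.card ≤ 2 * D * P'.card := by
  have h1 : g * Γ'.card ≤ ∑ γ ∈ Γ', (γ.2.card : ℝ) := by
    rw [mul_comm, ← nsmul_eq_mul, ← Finset.sum_const]
    exact Finset.sum_le_sum hg
  have h2 : ∑ γ ∈ Γ', (γ.2.card : ℝ) ≤ ∑ γ ∈ Γ', 2 * ((γ.2 ∩ P').card : ℝ) :=
    Finset.sum_le_sum h.sG
  have h3 : ∑ γ ∈ Γ', 2 * ((γ.2 ∩ P').card : ℝ) ≤ 2 * D * P'.card := by
    rw [← Finset.mul_sum, ← sum_gat, mul_assoc]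
    apply mul_le_mul_of_nonneg_left _ (by norm_num)
    rw [mul_comm, ← nsmul_eq_mul, ← Finset.sum_const]
    apply Finset.sum_le_sum
    intro i hi
    refine le_trans ?_ (hD i hi)
    exact_mod_cast Finset.card_le_card (Finset.filter_subset_filter _ (h.subG.trans hsub))
  linarith

/-- number of rich sets in a stable pair -/
theorem Stable.card_rich {α : ℝ} {Γ Γa : Finset (V × Finset ι)} {U P' : Finset ι}
    {Γ' : Finset (V × Finset ι)} (h : Stable α Γ Γa U P' Γ') {d D K : ℝ} (hα : 0 ≤ α) (hK : 0 < K)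
    (hsub : Γa ⊆ Γ) (hd : ∀ i ∈ P', d ≤ ((gat Γ i).card : ℝ))
    (hD : ∀ i ∈ P', ((gat Γ i).card : ℝ) ≤ D) (R : Finset ι) (hR : R ⊆ P')
    (hRγ : ∀ γ ∈ Γ', K * ((γ.2 ∩ R).card : ℝ) ≤ γ.2.card) :
    K * (α * d) * R.card ≤ 2 * D * P'.card := by
  have h1 : α * d * R.card ≤ ∑ γ ∈ Γ', ((γ.2 ∩ R).card : ℝ) := by
    rw [← sum_gat, mul_comm, ← nsmul_eq_mul, ← Finset.sum_const]
    apply Finset.sum_le_sum
    intro i hi
    refine le_trans ?_ (h.sP i (hR hi))
    exact mul_le_mul_of_nonneg_left (hd i (hR hi)) hα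
  have h1' : K * (∑ γ ∈ Γ', ((γ.2 ∩ R).card : ℝ)) ≤ ∑ γ ∈ Γ', (γ.2.card : ℝ) := by
    rw [Finset.mul_sum]
    exact Finset.sum_le_sum hRγ
  have h2 : ∑ γ ∈ Γ', (γ.2.card : ℝ) ≤ ∑ γ ∈ Γ', 2 * ((γ.2 ∩ P').card : ℝ) :=
    Finset.sum_le_sum h.sG
  have h3 : ∑ γ ∈ Γ', 2 * ((γ.2 ∩ P').card : ℝ) ≤ 2 * D * P'.card := by
    rw [← Finset.mul_sum, ← sum_gat, mul_assoc]
    apply mul_le_mul_of_nonneg_left _ (by norm_num)
    rw [mul_comm, ← nsmul_eq_mul, ← Finset.sum_const]
    apply Finset.sum_le_sum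
    intro i hi
    refine le_trans ?_ (hD i hi)
    exact_mod_cast Finset.card_le_card (Finset.filter_subset_filter _ (h.subG.trans hsub))
  have h4 := mul_le_mul_of_nonneg_left h1 hK.le
  nlinarith

/-- Existence of a stable pair missing few sets of `U`. -/
theorem exists_stable {α d ℓ lam : ℝ} (hlam : 0 ≤ lam) {Γ Γa : Finset (V × Finset ι)}
    {U : Finset ι} (hα : 2 * α ≤ 1)
    (hd : ∀ i ∈ U, d ≤ ((gat Γ i).card : ℝ))
    (hlost : ∀ i ∈ U, ((gat Γ i).card : ℝ) ≤ (gat Γa i).card + ℓ)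
    (hcond : ℓ + lam ≤ (1 - 2 * α) * d) :
    ∃ P' Γ', Stable α Γ Γa U P' Γ' ∧
      lam * ((U \ P').card : ℝ) ≤ ∑ γ ∈ Γa, ((γ.2 \ U).card : ℝ) := by
  classical
  obtain ⟨⟨P', Γ'⟩, hmem, hmin⟩ := Finset.exists_min_image (U.powerset ×ˢ Γa.powerset)
    (fun q => (∑ γ ∈ Γa, (if γ ∈ q.2 then ((γ.2 \ q.1).card : ℝ) else ((γ.2 ∩ q.1).card : ℝ)))
      + lam * ((U \ q.1).card : ℝ)) ⟨(∅, ∅), by simp⟩
  simp only [Finset.mem_product, Finset.mem_powerset] at hmem
  obtain ⟨hP'U, hΓ'⟩ := hmem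
  refine ⟨P', Γ', ⟨hP'U, hΓ', ?_, ?_⟩, ?_⟩
  · intro i hi
    have h1 := hmin (P'.erase i, Γ') (by
      simp only [Finset.mem_product, Finset.mem_powerset]
      exact ⟨(Finset.erase_subset _ _).trans hP'U, hΓ'⟩)
    simp only at h1
    have h2 : ∀ γ ∈ Γa, (if γ ∈ Γ' then ((γ.2 \ P'.erase i).card : ℝ)
        else ((γ.2 ∩ P'.erase i).card : ℝ)) =
        (if γ ∈ Γ' then ((γ.2 \ P').card : ℝ) else ((γ.2 ∩ P').card : ℝ)) +
        ((if γ ∈ Γ' then (if i ∈ γ.2 then 2 else 0) else 0) - (if i ∈ γ.2 then (1:ℝ) else 0)) := by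
      intro γ _
      have ha : ((γ.2 \ P'.erase i).card : ℝ) = (γ.2 \ P').card + (if i ∈ γ.2 then (1:ℝ) else 0) := by
        by_cases hiγ : i ∈ γ.2
        · have : γ.2 \ P'.erase i = insert i (γ.2 \ P') := by
            ext j
            simp only [Finset.mem_sdiff, Finset.mem_erase, Finset.mem_insert]
            by_cases hj : j = i
            · subst hj; simp [hiγ]
            · simp [hj]
          rw [this, Finset.card_insert_of_notMem (by simp [hi])]
          simp [hiγ]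
        · have : γ.2 \ P'.erase i = γ.2 \ P' := by
            ext j
            simp only [Finset.mem_sdiff, Finset.mem_erase]
            by_cases hj : j = i
            · subst hj; simp [hiγ]
            · simp [hj]
          rw [this]
          simp [hiγ]
      have hb : ((γ.2 ∩ P'.erase i).card : ℝ) = (γ.2 ∩ P').card - (if i ∈ γ.2 then (1:ℝ) else 0) := by
        by_cases hiγ : i ∈ γ.2
        · have h3 : γ.2 ∩ P'.erase i = (γ.2 ∩ P').erase i := by
            ext j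
            simp only [Finset.mem_inter, Finset.mem_erase]
            tauto
          have h4 : i ∈ γ.2 ∩ P' := by simp [hi, hiγ]
          rw [h3, Finset.card_erase_of_mem h4]
          have h5 : 1 ≤ (γ.2 ∩ P').card := Finset.card_pos.mpr ⟨i, h4⟩
          push_cast [Nat.cast_sub h5]
          simp [hiγ]
        · have h3 : γ.2 ∩ P'.erase i = γ.2 ∩ P' := by
            ext j
            simp only [Finset.mem_inter, Finset.mem_erase]
            constructor
            · tauto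
            · intro h
              refine ⟨h.1, ?_, h.2⟩
              rintro rfl
              exact hiγ h.1
          rw [h3]
          simp [hiγ]
      split_ifs with h6 h7 h7
      · rw [ha]; simp [h7]; ring
      · rw [ha]; simp [h7]
      · rw [hb]; simp [h7]; ring
      · rw [hb]; simp [h7]
    rw [Finset.sum_congr rfl h2, Finset.sum_add_distrib, Finset.sum_sub_distrib] at h1
    have h3 : ∑ γ ∈ Γa, (if γ ∈ Γ' then (if i ∈ γ.2 then (2:ℝ) else 0) else 0) =
        2 * (gat Γ' i).card := by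
      rw [← Finset.sum_filter, Finset.filter_mem_eq_inter, Finset.inter_eq_right.mpr hΓ',
        Finset.sum_ite, Finset.sum_const_zero, add_zero, Finset.sum_const, nsmul_eq_mul]
      rw [gat]; ring
    have h4 : ∑ γ ∈ Γa, (if i ∈ γ.2 then (1:ℝ) else 0) = (gat Γa i).card := by
      rw [Finset.sum_ite, Finset.sum_const_zero, add_zero, Finset.sum_const, nsmul_eq_mul, mul_one]
      rfl
    rw [h3, h4] at h1
    have h5 : ((U \ P'.erase i).card : ℝ) = (U \ P').card + 1 := by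
      have : U \ P'.erase i = insert i (U \ P') := by
        ext j
        simp only [Finset.mem_sdiff, Finset.mem_erase, Finset.mem_insert]
        by_cases hj : j = i
        · subst hj; simp [hP'U hi]
        · simp [hj]
      rw [this, Finset.card_insert_of_notMem (by simp [hi])]
      push_cast
      ring
    rw [h5] at h1
    have h6 := hlost i (hP'U hi)
    have h7 := hd i (hP'U hi)
    have h8 : (1 - 2 * α) * d ≤ (1 - 2 * α) * ((gat Γ i).card : ℝ) :=
      mul_le_mul_of_nonneg_left h7 (by linarith)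
    nlinarith
  · intro γ0 hγ0
    have h1 := hmin (P', Γ'.erase γ0) (by
      simp only [Finset.mem_product, Finset.mem_powerset]
      exact ⟨hP'U, (Finset.erase_subset _ _).trans hΓ'⟩)
    simp only at h1
    rw [← Finset.add_sum_erase Γa _ (hΓ' hγ0), ← Finset.add_sum_erase Γa _ (hΓ' hγ0)] at h1
    have h2 : ∑ γ ∈ Γa.erase γ0, (if γ ∈ Γ'.erase γ0 then ((γ.2 \ P').card : ℝ)
        else ((γ.2 ∩ P').card : ℝ)) = ∑ γ ∈ Γa.erase γ0, (if γ ∈ Γ' then ((γ.2 \ P').card : ℝ)
        else ((γ.2 ∩ P').card : ℝ)) := by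
      apply Finset.sum_congr rfl
      intro γ hγ
      have : γ ≠ γ0 := (Finset.mem_erase.mp hγ).1
      simp [Finset.mem_erase, this]
    rw [h2] at h1
    simp only [hγ0, if_true, Finset.mem_erase, ne_eq, not_true_eq_false, false_and, if_false] at h1
    have h3 : ((γ0.2.card : ℕ) : ℝ) = (γ0.2 ∩ P').card + (γ0.2 \ P').card := by
      have := Finset.card_inter_add_card_sdiff γ0.2 P'
      exact_mod_cast this.symm
    linarith
  · have h1 := hmin (U, Γa) (by simp)
    simp only [Finset.sdiff_self, Finset.card_empty, Nat.cast_zero, mul_zero, add_zero] at h1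
    have h2 : ∑ γ ∈ Γa, (if γ ∈ Γa then ((γ.2 \ U).card : ℝ) else ((γ.2 ∩ U).card : ℝ)) =
        ∑ γ ∈ Γa, ((γ.2 \ U).card : ℝ) := by
      apply Finset.sum_congr rfl
      intro γ hγ
      simp [hγ]
    rw [h2] at h1
    have h3 : 0 ≤ ∑ γ ∈ Γa, (if γ ∈ Γ' then ((γ.2 \ P').card : ℝ)
        else ((γ.2 ∩ P').card : ℝ)) := by
      apply Finset.sum_nonneg
      intro γ _
      split_ifs <;> positivity
    linarith

end H167BF
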