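import Mathlib

/-!
# Linear algebra step for the improved Beck-Fiala bound
-/

namespace H167BF

open Finset

/-- Ray lemma: finitely many upper constraints `u k + s * w k ≤ c k`, satisfied at `s = 0`,
some `w k > 0`: there is `s ≥ 0` at which all hold and a growing one is tight. -/
theorem ray_lemma {K : Type*} (S : Finset K) (u w c : K → ℝ) (h0 : ∀ k ∈ S, u k ≤ c k)
    (hw : ∃ k ∈ S, 0 < w k) :
    ∃ s : ℝ, 0 ≤ s ∧ (∀ k ∈ S, u k + s * w k ≤ c k) ∧ ∃ k ∈ S, 0 < w k ∧ u k + s * w k = c k := by
  classical
  obtain ⟨k0, hk0, hk0w⟩ := hw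
  have hne : (S.filter (fun k => 0 < w k)).Nonempty := ⟨k0, by simp [hk0, hk0w]⟩
  obtain ⟨k1, hk1, hmin⟩ := Finset.exists_min_image (S.filter (fun k => 0 < w k))
    (fun k => (c k - u k) / w k) hne
  rw [Finset.mem_filter] at hk1
  refine ⟨(c k1 - u k1) / w k1, div_nonneg (sub_nonneg.mpr (h0 k1 hk1.1)) hk1.2.le, ?_, ?_⟩
  · intro k hk
    rcases lt_or_ge 0 (w k) with hpos | hneg
    · have h1 := hmin k (by simp [hk, hpos])
      have h2 : (c k1 - u k1) / w k1 * w k ≤ (c k - u k) / w k * w k :=
        mul_le_mul_of_nonneg_right h1 hpos.le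
      rw [div_mul_cancel₀ _ hpos.ne'] at h2
      linarith
    · have h1 : 0 ≤ (c k1 - u k1) / w k1 := div_nonneg (sub_nonneg.mpr (h0 k1 hk1.1)) hk1.2.le
      have h2 : (c k1 - u k1) / w k1 * w k ≤ 0 := mul_nonpos_of_nonneg_of_nonpos h1 hneg
      have := h0 k hk
      linarith
  · refine ⟨k1, hk1.1, hk1.2, ?_⟩
    rw [div_mul_cancel₀ _ hk1.2.ne']
    ring

variable {V : Type*} [Fintype V] [DecidableEq V]

/-- Fewer than `|F|` functionals have a common nonzero kernel vector supported on `F`. -/
theorem exists_direction {J : Type*} (F : Finset V) (EJ : Finset J) (c : J → (V → ℝ) →ₗ[ℝ] ℝ)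
    (hcard : EJ.card < F.card) :
    ∃ y : V → ℝ, (∀ v ∉ F, y v = 0) ∧ (∃ v ∈ F, y v ≠ 0) ∧ ∀ j ∈ EJ, c j y = 0 := by
  classical
  let ext : (F → ℝ) →ₗ[ℝ] (V → ℝ) :=
    { toFun := fun z v => if h : v ∈ F then z ⟨v, h⟩ else 0
      map_add' := by
        intro z1 z2
        funext v
        by_cases h : v ∈ F <;> simp [h]
      map_smul' := by
        intro r z
        funext v
        by_cases h : v ∈ F <;> simp [h] }
  let f : (F → ℝ) →ₗ[ℝ] (EJ → ℝ) := LinearMap.pi (fun j => (c j).comp ext)
  have hker : LinearMap.ker f ≠ ⊥ := by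
    apply LinearMap.ker_ne_bot_of_finrank_lt
    simpa using hcard
  obtain ⟨z, hz, hz0⟩ := Submodule.exists_mem_ne_zero_of_ne_bot hker
  refine ⟨ext z, ?_, ?_, ?_⟩
  · intro v hv
    simp [ext, hv]
  · by_contra hcon
    push Not at hcon
    apply hz0
    funext v
    have := hcon v.1 v.2
    simpa [ext] using this
  · intro j hj
    have h1 : f z = 0 := hz
    have h2 := congrFun h1 ⟨j, hj⟩
    simpa [f] using h2

/-- LP step: move inside the polytope given by the box on `F`, equalities `EJ` and
inequalities `ER` until a coordinate in `F` is tight or the number of equalities and tight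
inequalities is at least `|F|`. -/
theorem lp_step {J R : Type*} (F : Finset V) (EJ : Finset J) (ER : Finset R)
    (c : J → (V → ℝ) →ₗ[ℝ] ℝ) (r : R → (V → ℝ) →ₗ[ℝ] ℝ) (m : ℝ) :
    ∀ (n : ℕ) (x : V → ℝ), (∀ v, |x v| ≤ 1) → (∀ k ∈ ER, m ≤ r k x) →
    (ER.filter (fun k => r k x ≠ m)).card ≤ n →
    ∃ x' : V → ℝ, (∀ v ∉ F, x' v = x v) ∧ (∀ v, |x' v| ≤ 1) ∧ (∀ j ∈ EJ, c j x' = c j x) ∧
      (∀ k ∈ ER, m ≤ r k x') ∧
      ((∃ v ∈ F, |x' v| = 1) ∨ F.card ≤ EJ.card + (ER.filter (fun k => r k x' = m)).card) := by
  classical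
  intro n
  induction n with
  | zero =>
    intro x hx hr hn
    -- all inequalities tight
    by_cases hc : F.card ≤ EJ.card + (ER.filter (fun k => r k x = m)).card
    · exact ⟨x, fun _ _ => rfl, hx, fun _ _ => rfl, hr, Or.inr hc⟩
    by_cases hv : ∃ v ∈ F, |x v| = 1
    · exact ⟨x, fun _ _ => rfl, hx, fun _ _ => rfl, hr, Or.inl hv⟩
    push Not at hc
    obtain ⟨y, hyF, ⟨v0, hv0, hyv0⟩, hy⟩ := exists_direction F
      (EJ.disjSum (ER.filter (fun k => r k x = m)))
      (fun s => Sum.elim c r s) (by simpa using hc)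
    obtain ⟨s, hs0, hs1, k, hk, hkw, hkt⟩ := ray_lemma (Finset.univ : Finset (V × Bool))
      (fun q => if q.2 then x q.1 else - x q.1) (fun q => if q.2 then y q.1 else - y q.1)
      (fun _ => 1)
      (by
        rintro ⟨v, b⟩ -
        have := abs_le.mp (hx v)
        cases b <;> simp <;> linarith)
      (by
        rcases lt_or_gt_of_ne hyv0 with h | h
        · exact ⟨(v0, false), by simp, by simpa using h⟩
        · exact ⟨(v0, true), by simp, by simpa using h⟩)
    refine ⟨x + s • y, ?_, ?_, ?_, ?_, Or.inl ?_⟩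
    · intro v hv
      simp [hyF v hv]
    · intro v
      rw [abs_le]
      have h1 := hs1 (v, true) (by simp)
      have h2 := hs1 (v, false) (by simp)
      simp at h1 h2
      constructor <;> simp <;> linarith
    · intro j hj
      have : c j y = 0 := hy (Sum.inl j) (by simp [hj])
      simp [this]
    · intro k hk
      have htight : r k x = m := by
        by_contra hne
        have : k ∈ ER.filter (fun k => r k x ≠ m) := by simp [hk, hne]
        have := Finset.card_pos.mpr ⟨k, this⟩
        omega
      have : r k y = 0 := hy (Sum.inr k) (by simp [hk, htight])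
      simp [this, htight]
    · obtain ⟨v, b⟩ := k
      have hvF : v ∈ F := by
        by_contra hvF
        have := hyF v hvF
        cases b <;> simp [this] at hkw
      refine ⟨v, hvF, ?_⟩
      cases b
      · simp at hkt
        have : x v + s * y v = -1 := by linarith
        simp [this]
      · simp at hkt
        simp [hkt]
  | succ n ih =>
    intro x hx hr hn
    by_cases hc : F.card ≤ EJ.card + (ER.filter (fun k => r k x = m)).card
    · exact ⟨x, fun _ _ => rfl, hx, fun _ _ => rfl, hr, Or.inr hc⟩
    by_cases hv : ∃ v ∈ F, |x v| = 1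
    · exact ⟨x, fun _ _ => rfl, hx, fun _ _ => rfl, hr, Or.inl hv⟩
    push Not at hc
    obtain ⟨y, hyF, ⟨v0, hv0, hyv0⟩, hy⟩ := exists_direction F
      (EJ.disjSum (ER.filter (fun k => r k x = m)))
      (fun s => Sum.elim c r s) (by simpa using hc)
    obtain ⟨s, hs0, hs1, k, hk, hkw, hkt⟩ := ray_lemma
      ((Finset.univ : Finset (V × Bool)).disjSum ER)
      (Sum.elim (fun q => if q.2 then x q.1 else - x q.1) (fun k => - r k x))
      (Sum.elim (fun q => if q.2 then y q.1 else - y q.1) (fun k => - r k y))
      (Sum.elim (fun _ => 1) (fun _ => -m))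
      (by
        intro q hq
        rw [Finset.mem_disjSum] at hq
        rcases hq with ⟨⟨v, b⟩, -, rfl⟩ | ⟨k, hk, rfl⟩
        · have := abs_le.mp (hx v)
          cases b <;> simp <;> linarith
        · have := hr k hk
          simp
          linarith)
      (by
        rcases lt_or_gt_of_ne hyv0 with h | h
        · exact ⟨Sum.inl (v0, false), by simp, by simpa using h⟩
        · exact ⟨Sum.inl (v0, true), by simp, by simpa using h⟩)
    have hx1 : ∀ v, |(x + s • y) v| ≤ 1 := by
      intro v
      rw [abs_le]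
      have h1 := hs1 (Sum.inl (v, true)) (by simp)
      have h2 := hs1 (Sum.inl (v, false)) (by simp)
      simp at h1 h2
      constructor <;> simp <;> linarith
    have hc1 : ∀ j ∈ EJ, c j (x + s • y) = c j x := by
      intro j hj
      have : c j y = 0 := hy (Sum.inl j) (by simp [hj])
      simp [this]
    have hr1 : ∀ k ∈ ER, m ≤ r k (x + s • y) := by
      intro k hk
      have h1 := hs1 (Sum.inr k) (by simp [hk])
      simp at h1
      simp
      linarith
    have hoff : ∀ v ∉ F, (x + s • y) v = x v := by
      intro v hv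
      simp [hyF v hv]
    rw [Finset.mem_disjSum] at hk
    rcases hk with ⟨⟨v, b⟩, -, rfl⟩ | ⟨k, hk, rfl⟩
    · refine ⟨x + s • y, hoff, hx1, hc1, hr1, Or.inl ?_⟩
      have hvF : v ∈ F := by
        by_contra hvF
        have := hyF v hvF
        cases b <;> simp [this] at hkw
      refine ⟨v, hvF, ?_⟩
      cases b
      · simp at hkt
        have : x v + s * y v = -1 := by linarith
        simp [this]
      · simp at hkt
        simp [hkt]
    · -- a new inequality is tight
      simp only [Sum.elim_inr] at hkw hkt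
      have hkx : r k x ≠ m := by
        intro h
        have : r k y = 0 := hy (Sum.inr k) (by simp [hk, h])
        rw [this] at hkw
        simp at hkw
      have hlt : (ER.filter (fun k => r k (x + s • y) ≠ m)).card ≤ n := by
        have hss : ER.filter (fun k => r k (x + s • y) ≠ m) ⊂ ER.filter (fun k => r k x ≠ m) := by
          rw [Finset.ssubset_iff_of_subset]
          · refine ⟨k, by simp [hk, hkx], ?_⟩
            simp only [Finset.mem_filter, not_and, not_not]
            intro _
            simp
            linarith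
          · intro k' hk'
            rw [Finset.mem_filter] at hk' ⊢
            refine ⟨hk'.1, ?_⟩
            intro h
            apply hk'.2
            have : r k' y = 0 := hy (Sum.inr k') (by simp [hk'.1, h])
            simp [this, h]
        have := Finset.card_lt_card hss
        omega
      obtain ⟨x', h1, h2, h3, h4, h5⟩ := ih (x + s • y) hx1 hr1 hlt
      exact ⟨x', fun v hv => (h1 v hv).trans (hoff v hv), h2,
        fun j hj => (h3 j hj).trans (hc1 j hj), h4, h5⟩

end H167BF
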