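import Mathlib
import Pool.Agent.H167R2.BFLin
import Pool.Agent.H167R2.BFBatch
import Pool.Agent.H167R2.BFCore

/-!
# State, invariants and the counting lemma
-/

namespace H167BF

open Finset

set_option linter.unusedSectionVars false
set_option linter.unusedVariables false

/-- Parameters. -/
structure Par where
  t : ℝ
  a : ℝ
  K : ℝ
  lam : ℝ
  d : ℝ
  D : ℝ
  g : ℝ
  α : ℝ
  p : ℝ
  δ : ℝ
  c0 : ℝ
  m : ℝ
  ω : ℝ
  ha : 0 < a
  hta : 3 * a + 1 ≤ t
  hK : 1 ≤ K
  hKt : (2 * K - 1) * a ≤ t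
  hlam : 2 * K * a ≤ lam
  hd : 2 * K * a + lam ≤ (1 - 2 * α) * d
  hd0 : 0 < d
  hα : 0 < α
  hα2 : 2 * α ≤ 1
  hg : 0 < g
  hσ : (2 * D / g + 2 * D / (K * (α * d))) * (t + a) + (2 * K - 1) * a ≤ t
  hp0 : 0 < p
  hp1 : p ≤ 1
  hδ : 0 < δ
  hm : m ≤ p * (t - a) - δ
  hdm : d < m
  hD : p * (t + a) + δ ≤ D
  hc0 : 1 ≤ c0
  hc : 2 ≤ (c0 - 1) ^ 2 * (p * (t - a))
  hω : 2 * p * t / δ ^ 2 + g * c0 * p / (m - d) ≤ ω
  hω2 : 2 * ω < 1

/-- lower bound `-M` for grouped sets -/
noncomputable def Par.M (q : Par) : ℝ := 4 * (q.K - 1) * q.a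

variable {V ι : Type*} [Fintype V] [DecidableEq V] [Fintype ι] [DecidableEq ι]
  (A : ι → Finset V)

/-- frozen sum -/
noncomputable def fx (F : Finset V) (x : V → ℝ) (i : ι) : ℝ := ∑ v ∈ A i \ F, x v

/-- number of floating elements -/
noncomputable def sz (F : Finset V) (i : ι) : ℝ := ((A i ∩ F).card : ℝ)

/-- current sum -/
noncomputable def ex (x : V → ℝ) (i : ι) : ℝ := ∑ v ∈ A i, x v

/-- unreleased sets -/
noncomputable def Unr (q : Par) (F : Finset V) (x : V → ℝ) : Finset ι :=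
  univ.filter (fun i => 2 * q.t - 2 * q.a < |fx A F x i| + sz A F i)

/-- unreleased grouped sets -/
noncomputable def Ug (q : Par) (F : Finset V) (x : V → ℝ) (P : Finset ι) : Finset ι :=
  Unr A q F x ∩ P

/-- alive groups -/
def alive (F : Finset V) (Γ : Finset (V × Finset ι)) : Finset (V × Finset ι) :=
  Γ.filter (fun γ => γ.1 ∈ F)

/-- core sets -/
noncomputable def cP (q : Par) (F : Finset V) (x : V → ℝ) (P : Finset ι)
    (Γ : Finset (V × Finset ι)) : Finset ι :=
  coreP q.α Γ (alive F Γ) (Ug A q F x P)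

/-- core groups -/
noncomputable def cG (q : Par) (F : Finset V) (x : V → ℝ) (P : Finset ι)
    (Γ : Finset (V × Finset ι)) : Finset (V × Finset ι) :=
  coreG q.α Γ (alive F Γ) (Ug A q F x P)

/-- The invariants. -/
structure Inv (q : Par) (F : Finset V) (x : V → ℝ) (P : Finset ι) (τ : ι → ℝ)
    (Γ : Finset (V × Finset ι)) : Prop where
  box : ∀ v, |x v| ≤ 1
  off : ∀ v ∉ F, |x v| = 1
  tau : ∀ i, τ i = 1 ∨ τ i = -1
  ung : ∀ i ∈ Unr A q F x, i ∉ P → ex A x i = 0
  sgn : ∀ i ∈ Ug A q F x P, τ i * fx A F x i < 0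
  low : ∀ i ∈ Ug A q F x P, -q.M ≤ τ i * ex A x i
  mem : ∀ γ ∈ Γ, ∀ i ∈ γ.2, γ.1 ∈ A i ∧ i ∈ P
  big : ∀ γ ∈ Γ, q.g ≤ (γ.2.card : ℝ)
  deg : ∀ i ∈ P, q.d ≤ ((gat Γ i).card : ℝ) ∧ ((gat Γ i).card : ℝ) ≤ q.D
  inj : ∀ i, ∀ γ ∈ Γ, ∀ γ' ∈ Γ, i ∈ γ.2 → i ∈ γ'.2 → γ.1 = γ'.1 → γ = γ'
  six : ∀ i ∈ Ug A q F x P,
    (((gat Γ i).filter (fun γ => γ.1 ∉ F)).card : ℝ) + sz A F i ≤ q.t + q.a
  seven : ∀ γ ∈ cG A q F x P Γ,
    ∑ i ∈ γ.2 ∩ Ug A q F x P, (2 * q.a - τ i * ex A x i / 2) ≤ 2 * q.a * γ.2.card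

variable {A}

theorem ex_eq (F : Finset V) (x : V → ℝ) (i : ι) :
    ex A x i = fx A F x i + ∑ v ∈ A i ∩ F, x v := by
  unfold ex fx
  rw [add_comm]
  exact (Finset.sum_inter_add_sum_sdiff (A i) F x).symm

theorem abs_float_le (F : Finset V) (x : V → ℝ) (hx : ∀ v, |x v| ≤ 1) (i : ι) :
    |∑ v ∈ A i ∩ F, x v| ≤ sz A F i := by
  refine (Finset.abs_sum_le_sum_abs _ _).trans ?_
  unfold sz
  calc ∑ v ∈ A i ∩ F, |x v| ≤ ∑ v ∈ A i ∩ F, (1:ℝ) := Finset.sum_le_sum (fun v _ => hx v)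
    _ = _ := by simp

theorem mem_Unr {q : Par} {F : Finset V} {x : V → ℝ} {i : ι} :
    i ∈ Unr A q F x ↔ 2 * q.t - 2 * q.a < |fx A F x i| + sz A F i := by
  simp [Unr]

/-- ungrouped unreleased sets have `s > t - a` -/
theorem Inv.sz_ung {q : Par} {F : Finset V} {x : V → ℝ} {P : Finset ι} {τ : ι → ℝ}
    {Γ : Finset (V × Finset ι)} (h : Inv A q F x P τ Γ) {i : ι} (hi : i ∈ Unr A q F x)
    (hiP : i ∉ P) : q.t - q.a < sz A F i := by
  have h1 := h.ung i hi hiP
  rw [ex_eq F x i] at h1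
  have h2 := abs_float_le F x h.box i (A := A)
  have h3 : fx A F x i = -(∑ v ∈ A i ∩ F, x v) := by linarith
  have h4 := mem_Unr.mp hi
  rw [h3, abs_neg] at h4
  linarith

/-- facts on grouped unreleased sets -/
theorem Inv.facts {q : Par} {F : Finset V} {x : V → ℝ} {P : Finset ι} {τ : ι → ℝ}
    {Γ : Finset (V × Finset ι)} (h : Inv A q F x P τ Γ) {i : ι} (hi : i ∈ Ug A q F x P) :
    sz A F i ≤ q.t + q.a ∧ q.t - (2 * q.K - 1) * q.a < sz A F i ∧ τ i * ex A x i < 4 * q.a ∧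
      q.t - 3 * q.a < |fx A F x i| := by
  have hU := mem_Unr.mp (Finset.mem_inter.mp hi).1
  have hs := h.sgn i hi
  have hl := h.low i hi
  have h6 := h.six i hi
  have h7 : (0:ℝ) ≤ (((gat Γ i).filter (fun γ => γ.1 ∉ F)).card : ℝ) := by positivity
  have hf := abs_le.mp (abs_float_le F x h.box i (A := A))
  have habs : |fx A F x i| = - (τ i * fx A F x i) := by
    rcases h.tau i with h1 | h1 <;> rw [h1] at hs ⊢
    · rw [abs_of_neg (by linarith)]; ring
    · rw [abs_of_pos (by linarith)]; ring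
  have hex : τ i * ex A x i ≤ τ i * fx A F x i + sz A F i := by
    rw [ex_eq F x i]
    rcases h.tau i with h1 | h1 <;> rw [h1]
    · linarith [hf.2]
    · linarith [hf.1]
  unfold Par.M at hl
  refine ⟨by linarith, ?_, ?_, ?_⟩
  · nlinarith
  · nlinarith
  · nlinarith

theorem count_arith (t a K lam ω σ n W B b c G R S : ℝ) (ha : 0 < a) (ht : 0 < t)
    (hlam : 2 * K * a ≤ lam) (hσ : σ * (t + a) + (2 * K - 1) * a ≤ t) (hω : 2 * ω < 1)
    (hn : 0 < n) (hW0 : 0 ≤ W) (hB0 : 0 ≤ B) (hb0 : 0 ≤ b) (hc0 : 0 ≤ c)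
    (hW : W ≤ ω * n) (hbad : lam * b ≤ S) (hGR : G + R ≤ σ * c)
    (htot : S + ((t - a) * W + (t + a) * B + ((t - (2 * K - 1) * a) * b +
      (t - (2 * K - 1) * a) * c)) ≤ t * n)
    (hcon : n ≤ W + B + b + G + R) : False := by
  have e1 : n ≤ W + B + b + σ * c := by linarith
  have e2 : t * n ≤ t * (W + B + b + σ * c) := mul_le_mul_of_nonneg_left e1 ht.le
  have e3 : (σ * a) * c ≤ (t - (2 * K - 1) * a - σ * t) * c :=
    mul_le_mul_of_nonneg_right (by linarith) hc0
  have e4 : a * b ≤ (lam - (2 * K - 1) * a) * b :=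
    mul_le_mul_of_nonneg_right (by linarith) hb0
  have e5 : a * (b + B + σ * c) ≤ a * W := by nlinarith
  have e6 : b + B + σ * c ≤ W := le_of_mul_le_mul_left e5 ha
  nlinarith

/-- The counting lemma. -/
theorem count {q : Par} {F : Finset V} {x : V → ℝ} {P : Finset ι} {τ : ι → ℝ}
    {Γ : Finset (V × Finset ι)} (h : Inv A q F x P τ Γ)
    (hdeg : ∀ v, ((univ.filter (fun i => v ∈ A i)).card : ℝ) ≤ q.t) (hF : F.Nonempty)
    (hW : (((Unr A q F x \ P).filter (fun i => sz A F i ≤ q.t + q.a)).card : ℝ) ≤ q.ω * F.card) :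
    (((Unr A q F x \ cP A q F x P Γ).card : ℝ) + (cG A q F x P Γ).card +
      ((cP A q F x P Γ).filter (fun i => τ i * ex A x i = -q.M)).card) < F.card := by
  classical
  have hst : Stable q.α Γ (alive F Γ) (Ug A q F x P) (cP A q F x P Γ) (cG A q F x P Γ) :=
    core_stable _ _ _ _
  set U := Ug A q F x P with hU
  set C := cP A q F x P Γ with hC
  set G := cG A q F x P Γ with hG
  set R := C.filter (fun i => τ i * ex A x i = -q.M) with hR
  set Un := Unr A q F x with hUn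
  set W := (Un \ P).filter (fun i => sz A F i ≤ q.t + q.a) with hWdef
  set Bg := (Un \ P).filter (fun i => ¬ sz A F i ≤ q.t + q.a) with hBg
  have hUP : U ⊆ P := Finset.inter_subset_right
  have hUUn : U ⊆ Un := Finset.inter_subset_left
  have hCU : C ⊆ U := hst.subP
  have halive : alive F Γ ⊆ Γ := Finset.filter_subset _ _
  have hGΓ : G ⊆ Γ := hst.subG.trans halive
  have ha := q.ha
  -- number of released incidences
  have hRel : ∑ γ ∈ alive F Γ, ((γ.2 \ U).card : ℝ) ≤ ∑ i ∈ univ \ Un, sz A F i := by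
    have h1 : ∀ γ ∈ alive F Γ, ((γ.2 \ U).card : ℝ) = ((γ.2 ∩ (univ \ Un)).card : ℝ) := by
      intro γ hγ
      congr 2
      ext i
      simp only [Finset.mem_sdiff, Finset.mem_inter, Finset.mem_univ, true_and]
      constructor
      · rintro ⟨h1, h2⟩
        refine ⟨h1, fun h3 => h2 ?_⟩
        rw [hU]
        exact Finset.mem_inter.mpr ⟨h3, (h.mem γ (halive hγ) i h1).2⟩
      · rintro ⟨h1, h2⟩
        exact ⟨h1, fun h3 => h2 (hUUn h3)⟩
    rw [Finset.sum_congr rfl h1, ← sum_gat]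
    apply Finset.sum_le_sum
    intro i _
    unfold sz
    have : (gat (alive F Γ) i).card ≤ (A i ∩ F).card := by
      apply Finset.card_le_card_of_injOn Prod.fst
      · intro γ hγ
        simp only [gat, alive, Finset.coe_filter, Finset.mem_filter, Set.mem_ofPred_eq] at hγ
        simp only [Finset.coe_inter, Set.mem_inter_iff, Finset.mem_coe]
        exact ⟨(h.mem γ hγ.1.1 i hγ.2).1, hγ.1.2⟩
      · intro γ hγ γ' hγ' he
        simp only [gat, alive, Finset.coe_filter, Finset.mem_filter, Set.mem_ofPred_eq] at hγ hγ'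
        exact h.inj i γ hγ.1.1 γ' hγ'.1.1 hγ.2 hγ'.2 he
    exact_mod_cast this
  -- bad sets
  obtain ⟨P', Γ', hst', hbad'⟩ := exists_stable (α := q.α) (d := q.d) (ℓ := 2 * q.K * q.a)
    (lam := q.lam) (by have := q.hlam; have := q.hK; nlinarith) (Γ := Γ) (Γa := alive F Γ)
    (U := U) q.hα2
    (fun i hi => (h.deg i (hUP hi)).1)
    (by
      intro i hi
      have h6 := h.six i hi
      have hf := h.facts hi
      have h8 : ((gat Γ i).card : ℝ) = (gat (alive F Γ) i).card +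
          ((gat Γ i).filter (fun γ => γ.1 ∉ F)).card := by
        have h9 : gat (alive F Γ) i = (gat Γ i).filter (fun γ => γ.1 ∈ F) := by
          ext γ
          simp only [gat, alive, Finset.mem_filter]
          tauto
        rw [h9]
        have := Finset.card_filter_add_card_filter_not (s := gat Γ i) (fun γ => γ.1 ∈ F)
        exact_mod_cast this.symm
      rw [h8]
      nlinarith [hf.2.1])
    q.hd
  have hbad : q.lam * ((U \ C).card : ℝ) ≤ ∑ i ∈ univ \ Un, sz A F i := by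
    have h1 : ((U \ C).card : ℝ) ≤ (U \ P').card := by
      have : U \ C ⊆ U \ P' := Finset.sdiff_subset_sdiff (Finset.Subset.refl _) hst'.le_coreP
      exact_mod_cast Finset.card_le_card this
    have h2 : 0 ≤ q.lam := by have := q.hlam; have := q.hK; nlinarith
    have h3 := mul_le_mul_of_nonneg_left h1 h2
    linarith
  -- groups and rich sets
  have hgr : q.g * G.card ≤ 2 * q.D * C.card :=
    hst.card_groups halive (fun γ hγ => h.big γ (hGΓ hγ)) (fun i hi => (h.deg i (hUP (hCU hi))).2)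
  have hri : q.K * (q.α * q.d) * R.card ≤ 2 * q.D * C.card := by
    refine hst.card_rich q.hα.le (by have := q.hK; linarith) halive
      (fun i hi => (h.deg i (hUP (hCU hi))).1) (fun i hi => (h.deg i (hUP (hCU hi))).2) R
      (Finset.filter_subset _ _) ?_
    intro γ hγ
    have h7 := h.seven γ hγ
    have h8 : ∑ i ∈ γ.2 ∩ R, (2 * q.a - τ i * ex A x i / 2) ≤
        ∑ i ∈ γ.2 ∩ U, (2 * q.a - τ i * ex A x i / 2) := by
      apply Finset.sum_le_sum_of_subset_of_nonneg
      · apply Finset.inter_subset_inter_left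
        exact (Finset.filter_subset _ _).trans hCU
      · intro i hi _
        have := (h.facts (Finset.mem_inter.mp hi).2).2.2.1
        linarith
    have h9 : ∑ i ∈ γ.2 ∩ R, (2 * q.a - τ i * ex A x i / 2) =
        2 * q.a * q.K * (γ.2 ∩ R).card := by
      rw [Finset.sum_congr rfl (g := fun _ => 2 * q.a * q.K), Finset.sum_const, nsmul_eq_mul,
        mul_comm]
      intro i hi
      have := (Finset.mem_filter.mp (Finset.mem_inter.mp hi).2).2
      rw [this]
      unfold Par.M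
      ring
    have h10 : 2 * q.a * (q.K * (γ.2 ∩ R).card) ≤ 2 * q.a * γ.2.card := by
      have h11 := h8.trans h7
      rw [h9] at h11
      linarith
    exact le_of_mul_le_mul_left h10 (by linarith)
  have hσ : (G.card : ℝ) + R.card ≤
      (2 * q.D / q.g + 2 * q.D / (q.K * (q.α * q.d))) * C.card := by
    have hKad : 0 < q.K * (q.α * q.d) := by
      have := q.hK; have := q.hα; have := q.hd0; positivity
    have h1 : (G.card : ℝ) ≤ 2 * q.D / q.g * C.card := by
      rw [div_mul_eq_mul_div, le_div_iff₀ q.hg]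
      linarith
    have h2 : (R.card : ℝ) ≤ 2 * q.D / (q.K * (q.α * q.d)) * C.card := by
      rw [div_mul_eq_mul_div, le_div_iff₀ hKad]
      linarith
    linarith
  -- sums of sizes
  have htot : ∑ i ∈ (univ : Finset ι), sz A F i ≤ q.t * F.card := by
    unfold sz
    rw [sum_card_filter]
    calc ∑ c ∈ F, ((univ.filter (fun i => c ∈ A i)).card : ℝ) ≤ ∑ c ∈ F, q.t :=
          Finset.sum_le_sum (fun v _ => hdeg v)
      _ = q.t * F.card := by rw [Finset.sum_const, nsmul_eq_mul, mul_comm]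
  have hsplit1 : ∑ i ∈ (univ : Finset ι), sz A F i =
      ∑ i ∈ univ \ Un, sz A F i + ∑ i ∈ Un, sz A F i :=
    (Finset.sum_sdiff (Finset.subset_univ _)).symm
  have hsplit2 : ∑ i ∈ Un, sz A F i = ∑ i ∈ Un \ P, sz A F i + ∑ i ∈ U, sz A F i := by
    rw [hU, Ug, ← hUn, add_comm]
    exact (Finset.sum_inter_add_sum_sdiff Un P _).symm
  have hsplit3 : ∑ i ∈ Un \ P, sz A F i = ∑ i ∈ W, sz A F i + ∑ i ∈ Bg, sz A F i :=
    (Finset.sum_filter_add_sum_filter_not _ _ _).symm
  have hsplit4 : ∑ i ∈ U, sz A F i = ∑ i ∈ U \ C, sz A F i + ∑ i ∈ C, sz A F i :=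
    (Finset.sum_sdiff hCU).symm
  have hWs : (q.t - q.a) * W.card ≤ ∑ i ∈ W, sz A F i := by
    rw [mul_comm, ← nsmul_eq_mul, ← Finset.sum_const]
    apply Finset.sum_le_sum
    intro i hi
    rw [hWdef, Finset.mem_filter, Finset.mem_sdiff] at hi
    exact (h.sz_ung hi.1.1 hi.1.2).le
  have hBs : (q.t + q.a) * Bg.card ≤ ∑ i ∈ Bg, sz A F i := by
    rw [mul_comm, ← nsmul_eq_mul, ← Finset.sum_const]
    apply Finset.sum_le_sum
    intro i hi
    rw [hBg, Finset.mem_filter] at hi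
    exact (not_le.mp hi.2).le
  have hbs : (q.t - (2 * q.K - 1) * q.a) * (U \ C).card ≤ ∑ i ∈ U \ C, sz A F i := by
    rw [mul_comm, ← nsmul_eq_mul, ← Finset.sum_const]
    apply Finset.sum_le_sum
    intro i hi
    exact (h.facts (Finset.mem_sdiff.mp hi).1).2.1.le
  have hcs : (q.t - (2 * q.K - 1) * q.a) * C.card ≤ ∑ i ∈ C, sz A F i := by
    rw [mul_comm, ← nsmul_eq_mul, ← Finset.sum_const]
    apply Finset.sum_le_sum
    intro i hi
    exact (h.facts (hCU hi)).2.1.le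
  have hcard : ((Un \ C).card : ℝ) = W.card + Bg.card + (U \ C).card := by
    have h1 : Un \ C = (Un \ P) ∪ (U \ C) := by
      ext i
      simp only [Finset.mem_sdiff, Finset.mem_union]
      constructor
      · rintro ⟨h1, h2⟩
        by_cases hiP : i ∈ P
        · right
          exact ⟨Finset.mem_inter.mpr ⟨h1, hiP⟩, h2⟩
        · left
          exact ⟨h1, hiP⟩
      · rintro (⟨h1, h2⟩ | ⟨h1, h2⟩)
        · exact ⟨h1, fun h3 => h2 (hUP (hCU h3))⟩
        · exact ⟨hUUn h1, h2⟩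
    have h2 : Disjoint (Un \ P) (U \ C) := by
      rw [Finset.disjoint_left]
      intro i hi hi'
      exact (Finset.mem_sdiff.mp hi).2 (hUP (Finset.mem_sdiff.mp hi').1)
    rw [h1, Finset.card_union_of_disjoint h2]
    have h3 := Finset.card_filter_add_card_filter_not (s := Un \ P)
      (fun i => sz A F i ≤ q.t + q.a)
    have h4 : (Un \ P).card = W.card + Bg.card := h3.symm
    rw [h4]
    push_cast
    ring
  -- final computation
  by_contra hcon
  push Not at hcon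
  rw [hcard] at hcon
  have hn : (0:ℝ) < F.card := by exact_mod_cast Finset.card_pos.mpr hF
  have ht0 : 0 < q.t := by have := q.hta; linarith
  exact count_arith q.t q.a q.K q.lam q.ω
    (2 * q.D / q.g + 2 * q.D / (q.K * (q.α * q.d))) F.card W.card Bg.card (U \ C).card C.card
    G.card R.card (∑ i ∈ univ \ Un, sz A F i) ha ht0 q.hlam q.hσ q.hω2 hn (by positivity)
    (by positivity) (by positivity) (by positivity) hW hbad hσ
    (by rw [hsplit1, hsplit2, hsplit3, hsplit4] at htot; linarith) hcon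

end H167BF
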