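import Mathlib
import Pool.Agent.H167R2.BFState

/-!
# Moves, erasing an element, adding a batch, and the main induction
-/

namespace H167BF

open Finset

set_option linter.unusedSectionVars false
set_option linter.unusedVariables false

variable {V ι : Type*} [Fintype V] [DecidableEq V] [Fintype ι] [DecidableEq ι]
  {A : ι → Finset V}

theorem fx_congr {F : Finset V} {x x' : V → ℝ} (hx : ∀ v ∉ F, x' v = x v) (i : ι) :
    fx A F x' i = fx A F x i := by
  unfold fx
  apply Finset.sum_congr rfl
  intro v hv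
  exact hx v (Finset.mem_sdiff.mp hv).2

theorem Unr_congr {q : Par} {F : Finset V} {x x' : V → ℝ} (hx : ∀ v ∉ F, x' v = x v) :
    Unr A q F x' = Unr A q F x := by
  ext i
  rw [mem_Unr, mem_Unr, fx_congr hx]

theorem Ug_congr {q : Par} {F : Finset V} {x x' : V → ℝ} (hx : ∀ v ∉ F, x' v = x v)
    (P : Finset ι) : Ug A q F x' P = Ug A q F x P := by
  unfold Ug
  rw [Unr_congr hx]

/-- the linear functional `ex` -/
noncomputable def eL (A : ι → Finset V) (i : ι) : (V → ℝ) →ₗ[ℝ] ℝ := ∑ v ∈ A i, LinearMap.proj v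

theorem eL_apply (i : ι) (x : V → ℝ) : eL A i x = ex A x i := by
  simp [eL, ex]

theorem move {q : Par} {F : Finset V} {x : V → ℝ} {P : Finset ι} {τ : ι → ℝ}
    {Γ : Finset (V × Finset ι)} (h : Inv A q F x P τ Γ)
    (hdeg : ∀ v, ((univ.filter (fun i => v ∈ A i)).card : ℝ) ≤ q.t) (hF : F.Nonempty)
    (hW : (((Unr A q F x \ P).filter (fun i => sz A F i ≤ q.t + q.a)).card : ℝ) ≤ q.ω * F.card) :
    ∃ x' : V → ℝ, Inv A q F x' P τ Γ ∧ ∃ v ∈ F, |x' v| = 1 := by
  classical
  have hCU : cP A q F x P Γ ⊆ Ug A q F x P := (core_stable _ _ _ _).subP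
  have hUP : Ug A q F x P ⊆ P := Finset.inter_subset_right
  have hUUn : Ug A q F x P ⊆ Unr A q F x := Finset.inter_subset_left
  obtain ⟨x', h1, h2, h3, h4, h5⟩ := lp_step F
    ((Unr A q F x \ cP A q F x P Γ).disjSum (cG A q F x P Γ)) (cP A q F x P Γ)
    (Sum.elim (fun i => eL A i) (fun γ => ∑ i ∈ γ.2 ∩ Ug A q F x P, τ i • eL A i))
    (fun k => τ k • eL A k) (-q.M) _ x h.box
    (by
      intro k hk
      simp only [LinearMap.smul_apply, eL_apply, smul_eq_mul]
      exact h.low k (hCU hk)) le_rfl
  have hUn := Unr_congr (A := A) (q := q) h1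
  have hUg := Ug_congr (A := A) (q := q) h1 P
  have hcP : cP A q F x' P Γ = cP A q F x P Γ := by unfold cP; rw [hUg]
  have hcG : cG A q F x' P Γ = cG A q F x P Γ := by unfold cG; rw [hUg]
  have hInv : Inv A q F x' P τ Γ := by
    refine ⟨h2, ?_, h.tau, ?_, ?_, ?_, h.mem, h.big, h.deg, h.inj, ?_, ?_⟩
    · intro v hv
      rw [h1 v hv]
      exact h.off v hv
    · intro i hi hiP
      rw [hUn] at hi
      have h6 := h3 (Sum.inl i) (by
        simp only [Finset.inl_mem_disjSum, Finset.mem_sdiff]
        exact ⟨hi, fun h7 => hiP (hUP (hCU h7))⟩)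
      simp only [Sum.elim_inl, eL_apply] at h6
      rw [h6]
      exact h.ung i hi hiP
    · intro i hi
      rw [hUg] at hi
      rw [fx_congr h1]
      exact h.sgn i hi
    · intro i hi
      rw [hUg] at hi
      by_cases hiC : i ∈ cP A q F x P Γ
      · have h6 := h4 i hiC
        simpa only [LinearMap.smul_apply, eL_apply, smul_eq_mul] using h6
      · have h6 := h3 (Sum.inl i) (by
          simp only [Finset.inl_mem_disjSum, Finset.mem_sdiff]
          exact ⟨hUUn hi, hiC⟩)
        simp only [Sum.elim_inl, eL_apply] at h6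
        rw [h6]
        exact h.low i hi
    · intro i hi
      rw [hUg] at hi
      exact h.six i hi
    · intro γ hγ
      rw [hcG] at hγ
      rw [hUg]
      have h6 := h3 (Sum.inr γ) (by simp only [Finset.inr_mem_disjSum]; exact hγ)
      simp only [Sum.elim_inr, LinearMap.sum_apply, LinearMap.smul_apply, eL_apply,
        smul_eq_mul] at h6
      have h7 := h.seven γ hγ
      rw [Finset.sum_sub_distrib, ← Finset.sum_div] at h7 ⊢
      rw [h6]
      exact h7
  refine ⟨x', hInv, ?_⟩
  rcases h5 with h5 | h5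
  · exact h5
  · exfalso
    have hc := count hInv hdeg hF (by rw [hUn]; exact hW)
    rw [hUn, hcP, hcG] at hc
    rw [Finset.card_disjSum] at h5
    simp only [LinearMap.smul_apply, eL_apply, smul_eq_mul] at h5
    have h6 : (F.card : ℝ) ≤ ((Unr A q F x \ cP A q F x P Γ).card : ℝ) + (cG A q F x P Γ).card +
      ((cP A q F x P Γ).filter (fun i => τ i * ex A x' i = -q.M)).card := by
      exact_mod_cast h5
    linarith

theorem fx_erase {F : Finset V} {x : V → ℝ} {v : V} (hv : v ∈ F) (i : ι) :
    fx A (F.erase v) x i = fx A F x i + (if v ∈ A i then x v else 0) := by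
  unfold fx
  by_cases h : v ∈ A i
  · have : A i \ F.erase v = insert v (A i \ F) := by
      ext w
      simp only [Finset.mem_sdiff, Finset.mem_erase, Finset.mem_insert]
      by_cases hw : w = v
      · subst hw; simp [h]
      · simp [hw]
    rw [this, Finset.sum_insert (by simp [hv])]
    simp [h, add_comm]
  · have : A i \ F.erase v = A i \ F := by
      ext w
      simp only [Finset.mem_sdiff, Finset.mem_erase]
      by_cases hw : w = v
      · subst hw; simp [h]
      · simp [hw]
    rw [this]
    simp [h]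

theorem sz_erase {F : Finset V} {v : V} (hv : v ∈ F) (i : ι) :
    sz A (F.erase v) i = sz A F i - (if v ∈ A i then 1 else 0) := by
  unfold sz
  by_cases h : v ∈ A i
  · have h1 : A i ∩ F.erase v = (A i ∩ F).erase v := by
      ext w
      simp only [Finset.mem_inter, Finset.mem_erase]
      tauto
    have h2 : v ∈ A i ∩ F := by simp [h, hv]
    rw [h1, Finset.card_erase_of_mem h2]
    have h3 : 1 ≤ (A i ∩ F).card := Finset.card_pos.mpr ⟨v, h2⟩
    push_cast [Nat.cast_sub h3]
    simp [h]
  · have h1 : A i ∩ F.erase v = A i ∩ F := by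
      ext w
      simp only [Finset.mem_inter, Finset.mem_erase]
      constructor
      · tauto
      · rintro ⟨h3, h4⟩
        refine ⟨h3, ?_, h4⟩
        rintro rfl
        exact h h3
    rw [h1]
    simp [h]

theorem Unr_erase {q : Par} {F : Finset V} {x : V → ℝ} {v : V} (hv : v ∈ F) (hx : |x v| = 1) :
    Unr A q (F.erase v) x ⊆ Unr A q F x := by
  intro i hi
  rw [mem_Unr] at hi ⊢
  rw [fx_erase hv, sz_erase hv] at hi
  by_cases h : v ∈ A i
  · simp only [h, if_true] at hi
    have := abs_add_le (fx A F x i) (x v)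
    linarith
  · simp only [h, if_false, add_zero, sub_zero] at hi
    exact hi

theorem Stable.mono {α : ℝ} {Γ Γa Γa' : Finset (V × Finset ι)} {U U' P' : Finset ι}
    {Γ' : Finset (V × Finset ι)} (h : Stable α Γ Γa' U' P' Γ') (h1 : Γa' ⊆ Γa) (h2 : U' ⊆ U) :
    Stable α Γ Γa U P' Γ' :=
  ⟨h.subP.trans h2, h.subG.trans h1, h.sP, h.sG⟩

theorem Inv.erase {q : Par} {F : Finset V} {x : V → ℝ} {P : Finset ι} {τ : ι → ℝ}
    {Γ : Finset (V × Finset ι)} (h : Inv A q F x P τ Γ) {v : V} (hv : v ∈ F) (hx : |x v| = 1) :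
    Inv A q (F.erase v) x P τ Γ := by
  classical
  have hUn := Unr_erase (A := A) (q := q) hv hx
  have hUg : Ug A q (F.erase v) x P ⊆ Ug A q F x P := Finset.inter_subset_inter_right hUn
  refine ⟨h.box, ?_, h.tau, ?_, ?_, ?_, h.mem, h.big, h.deg, h.inj, ?_, ?_⟩
  · intro w hw
    by_cases hwv : w = v
    · rw [hwv]; exact hx
    · exact h.off w (fun hwF => hw (Finset.mem_erase.mpr ⟨hwv, hwF⟩))
  · intro i hi hiP
    exact h.ung i (hUn hi) hiP
  · intro i hi
    have h1 := h.sgn i (hUg hi)
    have h2 := (h.facts (hUg hi)).2.2.2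
    have h3 := q.hta
    have h4 : τ i * (if v ∈ A i then x v else 0) ≤ 1 := by
      have h5 := abs_le.mp hx.le
      split_ifs
      · rcases h.tau i with h6 | h6 <;> rw [h6] <;> linarith
      · simp
    have h5 : |fx A F x i| = -(τ i * fx A F x i) := by
      rcases h.tau i with h6 | h6 <;> rw [h6] at h1 ⊢
      · rw [abs_of_neg (by linarith)]; ring
      · rw [abs_of_pos (by linarith)]; ring
    rw [fx_erase hv, mul_add]
    linarith
  · intro i hi
    exact h.low i (hUg hi)
  · intro i hi
    have h1 := h.six i (hUg hi)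
    rw [sz_erase hv]
    have h2 : (((gat Γ i).filter (fun γ => γ.1 ∉ F.erase v)).card : ℝ) ≤
        ((gat Γ i).filter (fun γ => γ.1 ∉ F)).card + (if v ∈ A i then 1 else 0) := by
      have hsub : (gat Γ i).filter (fun γ => γ.1 ∉ F.erase v) ⊆
          (gat Γ i).filter (fun γ => γ.1 ∉ F) ∪ (gat Γ i).filter (fun γ => γ.1 = v) := by
        intro γ hγ
        simp only [Finset.mem_filter, Finset.mem_union, Finset.mem_erase, not_and] at hγ ⊢
        by_cases hγv : γ.1 = v
        · right; exact ⟨hγ.1, hγv⟩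
        · left; exact ⟨hγ.1, hγ.2 hγv⟩
      have h3 := (Finset.card_le_card hsub).trans (Finset.card_union_le _ _)
      by_cases hvi : v ∈ A i
      · simp only [hvi, if_true]
        have h4 : ((gat Γ i).filter (fun γ => γ.1 = v)).card ≤ 1 := by
          rw [Finset.card_le_one]
          intro γ hγ γ' hγ'
          simp only [gat, Finset.mem_filter] at hγ hγ'
          exact h.inj i γ hγ.1.1 γ' hγ'.1.1 hγ.1.2 hγ'.1.2 (hγ.2.trans hγ'.2.symm)
        have h5 := h3.trans (Nat.add_le_add_left h4 _)
        exact_mod_cast h5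
      · simp only [hvi, if_false, add_zero]
        have h4 : (gat Γ i).filter (fun γ => γ.1 = v) = ∅ := by
          rw [Finset.filter_eq_empty_iff]
          intro γ hγ he
          simp only [gat, Finset.mem_filter] at hγ
          apply hvi
          rw [← he]
          exact (h.mem γ hγ.1 i hγ.2).1
        rw [h4, Finset.card_empty, add_zero] at h3
        exact_mod_cast h3
    linarith
  · intro γ hγ
    have h1 : γ ∈ cG A q F x P Γ := by
      have h2 : Stable q.α Γ (alive F Γ) (Ug A q F x P) (cP A q (F.erase v) x P Γ)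
          (cG A q (F.erase v) x P Γ) := by
        refine Stable.mono (core_stable _ _ _ _) ?_ hUg
        intro γ hγ
        simp only [alive, Finset.mem_filter] at hγ ⊢
        exact ⟨hγ.1, Finset.mem_of_mem_erase hγ.2⟩
      exact h2.le_coreG hγ
    refine le_trans ?_ (h.seven γ h1)
    apply Finset.sum_le_sum_of_subset_of_nonneg (Finset.inter_subset_inter_left hUg)
    intro i hi _
    have := (h.facts (Finset.mem_inter.mp hi).2).2.2.1
    linarith

end H167BF
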