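import Mathlib
import Pool.Agent.H167R2.BFStep

/-!
# Adding a batch and the main induction
-/

namespace H167BF

open Finset

set_option linter.unusedSectionVars false
set_option linter.unusedVariables false

variable {V ι : Type*} [Fintype V] [DecidableEq V] [Fintype ι] [DecidableEq ι]
  {A : ι → Finset V}

theorem add_batch {q : Par} {F : Finset V} {x : V → ℝ} {P : Finset ι} {τ : ι → ℝ}
    {Γ : Finset (V × Finset ι)} (h : Inv A q F x P τ Γ)
    (hdeg : ∀ v, ((univ.filter (fun i => v ∈ A i)).card : ℝ) ≤ q.t) :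
    ∃ (P' : Finset ι) (τ' : ι → ℝ) (Γ' : Finset (V × Finset ι)), Inv A q F x P' τ' Γ' ∧
      (((Unr A q F x \ P').filter (fun i => sz A F i ≤ q.t + q.a)).card : ℝ) ≤
        q.ω * F.card := by
  classical
  have hta := q.hta
  have hqa := q.ha
  obtain ⟨P1, hP1, C1, hC1, hdD, hgg, hcard⟩ := batch A
    ((Unr A q F x \ P).filter (fun i => sz A F i ≤ q.t + q.a)) F q.t (q.t - q.a) (q.t + q.a)
    q.p q.δ q.d q.D q.g q.c0 q.m q.ω (by linarith) (by linarith)
    (by
      intro v _
      refine le_trans ?_ (hdeg v)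
      exact_mod_cast Finset.card_le_card
        (Finset.filter_subset_filter _ (Finset.subset_univ _)))
    (by
      intro i hi
      rw [Finset.mem_filter, Finset.mem_sdiff] at hi
      exact (h.sz_ung hi.1.1 hi.1.2).le)
    (by
      intro i hi
      rw [Finset.mem_filter] at hi
      exact hi.2)
    q.hp0 q.hp1 q.hδ q.hm q.hdm q.hD q.hg q.hc0 q.hc q.hω
  have hP1' : ∀ i ∈ P1, i ∈ Unr A q F x ∧ i ∉ P ∧ sz A F i ≤ q.t + q.a := by
    intro i hi
    have := hP1 hi
    rw [Finset.mem_filter, Finset.mem_sdiff] at this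
    exact ⟨this.1.1, this.1.2, this.2⟩
  have hex0 : ∀ i ∈ P1, ex A x i = 0 := fun i hi => h.ung i (hP1' i hi).1 (hP1' i hi).2.1
  set N : Finset (V × Finset ι) := C1.image (fun c => (c, P1.filter (fun i => c ∈ A i))) with hN
  have hNmem : ∀ γ ∈ N, γ.1 ∈ C1 ∧ γ.2 = P1.filter (fun i => γ.1 ∈ A i) := by
    intro γ hγ
    rw [hN, Finset.mem_image] at hγ
    obtain ⟨c, hc, rfl⟩ := hγ
    exact ⟨hc, rfl⟩
  have hNP : ∀ γ ∈ N, ∀ i ∈ γ.2, i ∈ P1 ∧ γ.1 ∈ A i := by
    intro γ hγ i hi
    rw [(hNmem γ hγ).2, Finset.mem_filter] at hi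
    exact hi
  have hgat0 : ∀ i ∉ P1, gat N i = ∅ := by
    intro i hi
    rw [gat, Finset.filter_eq_empty_iff]
    intro γ hγ hiγ
    exact hi (hNP γ hγ i hiγ).1
  have hgatΓ0 : ∀ i ∉ P, gat Γ i = ∅ := by
    intro i hi
    rw [gat, Finset.filter_eq_empty_iff]
    intro γ hγ hiγ
    exact hi (h.mem γ hγ i hiγ).2
  have hgatU : ∀ i, gat (Γ ∪ N) i = gat Γ i ∪ gat N i := by
    intro i
    exact Finset.filter_union _ _ _
  have hgatP : ∀ i ∈ P, gat (Γ ∪ N) i = gat Γ i := by
    intro i hi
    rw [hgatU, hgat0 i (fun h1 => (hP1' i h1).2.1 hi), Finset.union_empty]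
  have hgatP1 : ∀ i ∈ P1, gat (Γ ∪ N) i = gat N i := by
    intro i hi
    rw [hgatU, hgatΓ0 i (hP1' i hi).2.1, Finset.empty_union]
  have hgatN : ∀ i ∈ P1, (gat N i).card = (A i ∩ C1).card := by
    intro i hi
    have h1 : gat N i = (A i ∩ C1).image (fun c => (c, P1.filter (fun i => c ∈ A i))) := by
      ext γ
      simp only [gat, hN, Finset.mem_filter, Finset.mem_image, Finset.mem_inter]
      constructor
      · rintro ⟨⟨c, hc, rfl⟩, h2⟩
        simp only [Finset.mem_filter] at h2
        exact ⟨c, ⟨h2.2, hc⟩, rfl⟩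
      · rintro ⟨c, ⟨hc1, hc2⟩, rfl⟩
        refine ⟨⟨c, hc2, rfl⟩, ?_⟩
        simp only [Finset.mem_filter]
        exact ⟨hi, hc1⟩
    rw [h1, Finset.card_image_of_injective]
    intro c c' hcc
    exact (Prod.mk.inj hcc).1
  set τ' : ι → ℝ := fun i => if i ∈ P1 then (if fx A F x i < 0 then 1 else -1) else τ i with hτ'
  have hτP : ∀ i ∈ P, τ' i = τ i := by
    intro i hi
    have : i ∉ P1 := fun h1 => (hP1' i h1).2.1 hi
    simp [hτ', this]
  have hUg : Ug A q F x (P ∪ P1) = Ug A q F x P ∪ P1 := by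
    ext i
    simp only [Ug, Finset.mem_inter, Finset.mem_union]
    constructor
    · rintro ⟨h1, h2 | h2⟩
      · left; exact ⟨h1, h2⟩
      · right; exact h2
    · rintro (⟨h1, h2⟩ | h2)
      · exact ⟨h1, Or.inl h2⟩
      · exact ⟨(hP1' i h2).1, Or.inr h2⟩
  refine ⟨P ∪ P1, τ', Γ ∪ N, ⟨h.box, h.off, ?_, ?_, ?_, ?_, ?_, ?_, ?_, ?_, ?_, ?_⟩, ?_⟩
  · -- tau
    intro i
    simp only [hτ']
    split_ifs
    · left; rfl
    · right; rfl
    · exact h.tau i
  · -- ung
    intro i hi hiP
    exact h.ung i hi (fun h1 => hiP (Finset.mem_union_left _ h1))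
  · -- sgn
    intro i hi
    rw [hUg, Finset.mem_union] at hi
    rcases hi with hi | hi
    · rw [hτP i (Finset.mem_inter.mp hi).2]
      exact h.sgn i hi
    · have h1 := mem_Unr.mp (hP1' i hi).1
      have h2 := (hP1' i hi).2.2
      have h3 : 1 ≤ |fx A F x i| := by linarith
      simp only [hτ', hi, if_true]
      split_ifs with h4
      · linarith
      · rw [not_lt] at h4
        rw [abs_of_nonneg h4] at h3
        linarith
  · -- low
    intro i hi
    rw [hUg, Finset.mem_union] at hi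
    rcases hi with hi | hi
    · rw [hτP i (Finset.mem_inter.mp hi).2]
      exact h.low i hi
    · rw [hex0 i hi]
      have h1 : 0 ≤ q.M := by
        unfold Par.M
        have := q.hK
        have h2 : 0 ≤ q.K - 1 := by linarith
        positivity
      linarith
  · -- mem
    intro γ hγ i hi
    rw [Finset.mem_union] at hγ
    rcases hγ with hγ | hγ
    · have := h.mem γ hγ i hi
      exact ⟨this.1, Finset.mem_union_left _ this.2⟩
    · have := hNP γ hγ i hi
      exact ⟨this.2, Finset.mem_union_right _ this.1⟩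
  · -- big
    intro γ hγ
    rw [Finset.mem_union] at hγ
    rcases hγ with hγ | hγ
    · exact h.big γ hγ
    · rw [(hNmem γ hγ).2]
      exact hgg γ.1 (hNmem γ hγ).1
  · -- deg
    intro i hi
    rw [Finset.mem_union] at hi
    rcases hi with hi | hi
    · rw [hgatP i hi]
      exact h.deg i hi
    · rw [hgatP1 i hi, hgatN i hi]
      exact hdD i hi
  · -- inj
    intro i γ hγ γ' hγ' hi hi' he
    by_cases hiP : i ∈ P
    · have hnot : ∀ γ ∈ Γ ∪ N, i ∈ γ.2 → γ ∈ Γ := by
        intro γ hγ hi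
        rw [Finset.mem_union] at hγ
        rcases hγ with hγ | hγ
        · exact hγ
        · exact absurd hiP (hP1' i (hNP γ hγ i hi).1).2.1
      exact h.inj i γ (hnot γ hγ hi) γ' (hnot γ' hγ' hi') hi hi' he
    · have hnot : ∀ γ ∈ Γ ∪ N, i ∈ γ.2 → γ ∈ N := by
        intro γ hγ hi
        rw [Finset.mem_union] at hγ
        rcases hγ with hγ | hγ
        · exact absurd (h.mem γ hγ i hi).2 hiP
        · exact hγ
      have h1 := hNmem γ (hnot γ hγ hi)
      have h2 := hNmem γ' (hnot γ' hγ' hi')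
      refine Prod.ext he ?_
      rw [h1.2, h2.2, he]
  · -- six
    intro i hi
    rw [hUg, Finset.mem_union] at hi
    rcases hi with hi | hi
    · rw [hgatP i (Finset.mem_inter.mp hi).2]
      exact h.six i hi
    · have h1 : (gat (Γ ∪ N) i).filter (fun γ => γ.1 ∉ F) = ∅ := by
        rw [hgatP1 i hi, Finset.filter_eq_empty_iff]
        intro γ hγ
        rw [not_not]
        simp only [gat, Finset.mem_filter] at hγ
        exact hC1 (hNmem γ hγ.1).1
      rw [h1, Finset.card_empty, Nat.cast_zero, zero_add]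
      exact (hP1' i hi).2.2
  · -- seven
    intro γ hγ
    have hst : Stable q.α (Γ ∪ N) (alive F (Γ ∪ N)) (Ug A q F x (P ∪ P1))
        (cP A q F x (P ∪ P1) (Γ ∪ N)) (cG A q F x (P ∪ P1) (Γ ∪ N)) := core_stable _ _ _ _
    have hγ' : γ ∈ Γ ∪ N := (Finset.filter_subset _ _) (hst.subG hγ)
    rw [Finset.mem_union] at hγ'
    rcases hγ' with hγΓ | hγN
    · -- old group: it is in the old core
      have hst2 : Stable q.α Γ (alive F Γ) (Ug A q F x P)
          (cP A q F x (P ∪ P1) (Γ ∪ N) ∩ P) (cG A q F x (P ∪ P1) (Γ ∪ N) ∩ Γ) := by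
        refine ⟨?_, ?_, ?_, ?_⟩
        · intro i hi
          rw [Finset.mem_inter] at hi
          have h1 := hst.subP hi.1
          simp only [Ug, Finset.mem_inter] at h1 ⊢
          exact ⟨h1.1, hi.2⟩
        · intro γ hγ
          rw [Finset.mem_inter] at hγ
          have h1 := hst.subG hγ.1
          simp only [alive, Finset.mem_filter] at h1 ⊢
          exact ⟨hγ.2, h1.2⟩
        · intro i hi
          rw [Finset.mem_inter] at hi
          have h1 := hst.sP i hi.1
          rw [hgatP i hi.2] at h1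
          refine h1.trans ?_
          have h2 : gat (cG A q F x (P ∪ P1) (Γ ∪ N)) i ⊆
              gat (cG A q F x (P ∪ P1) (Γ ∪ N) ∩ Γ) i := by
            intro γ hγ
            have hγ1 := Finset.mem_filter.mp hγ
            have h3 : γ ∈ gat (Γ ∪ N) i := by
              rw [gat, Finset.mem_filter]
              exact ⟨(Finset.filter_subset _ _) (hst.subG hγ1.1), hγ1.2⟩
            rw [hgatP i hi.2] at h3
            rw [gat, Finset.mem_filter, Finset.mem_inter]
            exact ⟨⟨hγ1.1, (Finset.mem_filter.mp h3).1⟩, hγ1.2⟩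
          exact_mod_cast Finset.card_le_card h2
        · intro γ hγ
          rw [Finset.mem_inter] at hγ
          refine (hst.sG γ hγ.1).trans ?_
          have h2 : γ.2 ∩ cP A q F x (P ∪ P1) (Γ ∪ N) ⊆
              γ.2 ∩ (cP A q F x (P ∪ P1) (Γ ∪ N) ∩ P) := by
            intro i hi
            rw [Finset.mem_inter] at hi
            rw [Finset.mem_inter, Finset.mem_inter]
            exact ⟨hi.1, hi.2, (h.mem γ hγ.2 i hi.1).2⟩
          have h3 : ((γ.2 ∩ cP A q F x (P ∪ P1) (Γ ∪ N)).card : ℝ) ≤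
              (γ.2 ∩ (cP A q F x (P ∪ P1) (Γ ∪ N) ∩ P)).card := by
            exact_mod_cast Finset.card_le_card h2
          linarith
      have hγc : γ ∈ cG A q F x P Γ := hst2.le_coreG (Finset.mem_inter.mpr ⟨hγ, hγΓ⟩)
      have h1 := h.seven γ hγc
      have h2 : γ.2 ∩ Ug A q F x (P ∪ P1) = γ.2 ∩ Ug A q F x P := by
        ext i
        simp only [Ug, Finset.mem_inter, Finset.mem_union]
        constructor
        · rintro ⟨h3, h4, h5⟩
          exact ⟨h3, h4, (h.mem γ hγΓ i h3).2⟩
        · rintro ⟨h3, h4, h5⟩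
          exact ⟨h3, h4, Or.inl h5⟩
      rw [h2]
      refine le_trans (le_of_eq ?_) h1
      apply Finset.sum_congr rfl
      intro i hi
      rw [hτP i (h.mem γ hγΓ i (Finset.mem_inter.mp hi).1).2]
    · have h1 : ∑ i ∈ γ.2 ∩ Ug A q F x (P ∪ P1), (2 * q.a - τ' i * ex A x i / 2) =
          ∑ i ∈ γ.2 ∩ Ug A q F x (P ∪ P1), 2 * q.a := by
        apply Finset.sum_congr rfl
        intro i hi
        rw [hex0 i (hNP γ hγN i (Finset.mem_inter.mp hi).1).1]
        ring
      rw [h1, Finset.sum_const, nsmul_eq_mul, mul_comm]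
      have h2 : ((γ.2 ∩ Ug A q F x (P ∪ P1)).card : ℝ) ≤ γ.2.card := by
        exact_mod_cast Finset.card_le_card Finset.inter_subset_left
      have := q.ha
      gcongr
  · -- bound on W'
    refine le_trans ?_ hcard
    have : (Unr A q F x \ (P ∪ P1)).filter (fun i => sz A F i ≤ q.t + q.a) ⊆
        ((Unr A q F x \ P).filter (fun i => sz A F i ≤ q.t + q.a)) \ P1 := by
      intro i hi
      simp only [Finset.mem_filter, Finset.mem_sdiff, Finset.mem_union, not_or] at hi ⊢
      exact ⟨⟨⟨hi.1.1, hi.1.2.1⟩, hi.2⟩, hi.1.2.2⟩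
    exact_mod_cast Finset.card_le_card this

theorem main_induction {q : Par}
    (hdeg : ∀ v, ((univ.filter (fun i => v ∈ A i)).card : ℝ) ≤ q.t) :
    ∀ (n : ℕ) (F : Finset V) (x : V → ℝ) (P : Finset ι) (τ : ι → ℝ)
      (Γ : Finset (V × Finset ι)), F.card = n → Inv A q F x P τ Γ →
      ∃ y : V → ℝ, (∀ v, |y v| = 1) ∧ ∀ i, |ex A y i| ≤ 2 * q.t - 2 * q.a := by
  intro n
  induction n with
  | zero =>
    intro F x P τ Γ hF h
    rw [Finset.card_eq_zero] at hF
    subst hF
    refine ⟨x, fun v => h.off v (Finset.notMem_empty v), ?_⟩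
    intro i
    by_contra hcon
    push Not at hcon
    have hsz : sz A ∅ i = 0 := by simp [sz]
    have hfx : fx A ∅ x i = ex A x i := by simp [fx, ex]
    have hi : i ∈ Unr A q ∅ x := by
      rw [mem_Unr, hsz, hfx]
      linarith
    have hta := q.hta
    have ha := q.ha
    by_cases hiP : i ∈ P
    · have h1 := (h.facts (Finset.mem_inter.mpr ⟨hi, hiP⟩)).2.1
      have h2 := q.hKt
      rw [hsz] at h1
      linarith
    · have h1 := h.sz_ung hi hiP
      rw [hsz] at h1
      linarith
  | succ n ih =>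
    intro F x P τ Γ hF h
    have hFne : F.Nonempty := by
      rw [← Finset.card_pos]
      omega
    obtain ⟨P', τ', Γ', h1, hW⟩ := add_batch h hdeg
    obtain ⟨x', h2, v, hv, hxv⟩ := move h1 hdeg hFne hW
    exact ih (F.erase v) x' P' τ' Γ' (by rw [Finset.card_erase_of_mem hv]; omega) (h2.erase hv hxv)

/-- Main theorem with abstract parameters. -/
theorem main (q : Par) (A : ι → Finset V)
    (hdeg : ∀ v, ((univ.filter (fun i => v ∈ A i)).card : ℝ) ≤ q.t) :
    ∃ y : V → ℝ, (∀ v, |y v| = 1) ∧ ∀ i, |ex A y i| ≤ 2 * q.t - 2 * q.a := by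
  classical
  apply main_induction hdeg _ univ 0 ∅ (fun _ => 1) ∅ rfl
  have hUg : Ug A q univ 0 ∅ = ∅ := by simp [Ug]
  refine ⟨by simp, by simp, by simp, ?_, ?_, ?_, by simp, by simp, by simp, by simp, ?_, ?_⟩
  · intro i _ _
    simp [ex]
  · intro i hi
    rw [hUg] at hi
    simp at hi
  · intro i hi
    rw [hUg] at hi
    simp at hi
  · intro i hi
    rw [hUg] at hi
    simp at hi
  · intro γ hγ
    have h1 : γ ∈ alive (univ : Finset V) (∅ : Finset (V × Finset ι)) :=
      (core_stable _ _ _ _).subG hγ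
    simp [alive] at h1

end H167BF
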