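import Mathlib
import Pool.Agent.H167R2.BFMain

/-!
# The classical bound `2t - 1` and the improved bound
-/

namespace H167BF

open Finset

set_option linter.unusedSectionVars false
set_option linter.unusedVariables false

variable {V ι : Type*} [Fintype V] [DecidableEq V] [Fintype ι] [DecidableEq ι]
  {A : ι → Finset V}

/-- Classical Beck-Fiala induction. -/
theorem classic_induction {t : ℝ} (ht : 0 < t)
    (hdeg : ∀ v, ((univ.filter (fun i => v ∈ A i)).card : ℝ) ≤ t) :
    ∀ (n : ℕ) (F : Finset V) (x : V → ℝ), F.card = n → (∀ v, |x v| ≤ 1) →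
      (∀ v ∉ F, |x v| = 1) →
      (∀ i, 2 * t ≤ |fx A F x i| + sz A F i → ex A x i = 0) →
      ∃ y : V → ℝ, (∀ v, |y v| = 1) ∧ ∀ i, |ex A y i| < 2 * t := by
  classical
  intro n
  induction n with
  | zero =>
    intro F x hF hbox hoff h
    rw [Finset.card_eq_zero] at hF
    subst hF
    refine ⟨x, fun v => hoff v (Finset.notMem_empty v), ?_⟩
    intro i
    by_contra hcon
    push Not at hcon
    have hsz : sz A ∅ i = 0 := by simp [sz]
    have hfx : fx A ∅ x i = ex A x i := by simp [fx, ex]
    have h1 := h i (by rw [hsz, hfx]; linarith)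
    rw [h1, abs_zero] at hcon
    linarith
  | succ n ih =>
    intro F x hF hbox hoff h
    have hFne : F.Nonempty := by
      rw [← Finset.card_pos]
      omega
    have herase : ∀ x' : V → ℝ, (∀ v, |x' v| ≤ 1) → (∀ v ∉ F, |x' v| = 1) →
        (∀ i, 2 * t ≤ |fx A F x' i| + sz A F i → ex A x' i = 0) → (∃ v ∈ F, |x' v| = 1) →
        ∃ y : V → ℝ, (∀ v, |y v| = 1) ∧ ∀ i, |ex A y i| < 2 * t := by
      intro x' hbox' hoff' h' hv'
      obtain ⟨v, hv, hxv⟩ := hv'
      apply ih (F.erase v) x' (by rw [Finset.card_erase_of_mem hv]; omega) hbox'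
      · intro w hw
        by_cases hwv : w = v
        · rw [hwv]; exact hxv
        · exact hoff' w (fun hwF => hw (Finset.mem_erase.mpr ⟨hwv, hwF⟩))
      · intro i hi
        apply h' i
        rw [fx_erase hv, sz_erase hv] at hi
        by_cases hvi : v ∈ A i
        · simp only [hvi, if_true] at hi
          have := abs_add_le (fx A F x' i) (x' v)
          linarith
        · simpa only [hvi, if_false, add_zero, sub_zero] using hi
    by_cases hv : ∃ v ∈ F, |x v| = 1
    · exact herase x hbox hoff h hv
    · push Not at hv
      set Un := univ.filter (fun i => 2 * t ≤ |fx A F x i| + sz A F i) with hUn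
      obtain ⟨x', h1, h2, h3, h4, h5⟩ := lp_step F Un (∅ : Finset Unit) (fun i => eL A i)
        (fun _ => 0) 0 _ x hbox (by simp) le_rfl
      apply herase x' h2 (fun v hv => by rw [h1 v hv]; exact hoff v hv)
      · intro i hi
        rw [fx_congr h1] at hi
        have h6 := h3 i (by simp [hUn, hi])
        rw [eL_apply, eL_apply] at h6
        rw [h6]
        exact h i hi
      · rcases h5 with h5 | h5
        · exact h5
        · exfalso
          simp only [Finset.filter_empty, Finset.card_empty, add_zero] at h5
          have hUne : Un.Nonempty := by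
            rw [← Finset.card_pos]
            omega
          have hbig : ∀ i ∈ Un, t < sz A F i := by
            intro i hi
            have hi' : 2 * t ≤ |fx A F x i| + sz A F i := by simpa [hUn] using hi
            have h6 := h i hi'
            rw [ex_eq F x i] at h6
            have h7 : fx A F x i = -(∑ v ∈ A i ∩ F, x v) := by linarith
            rw [h7, abs_neg] at hi'
            have hne : (A i ∩ F).Nonempty := by
              by_contra hne
              rw [Finset.not_nonempty_iff_eq_empty] at hne
              unfold sz at hi'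
              rw [hne] at hi'
              simp at hi'
              linarith
            have h8 : |∑ v ∈ A i ∩ F, x v| < sz A F i := by
              refine (Finset.abs_sum_le_sum_abs _ _).trans_lt ?_
              unfold sz
              calc ∑ v ∈ A i ∩ F, |x v| < ∑ v ∈ A i ∩ F, (1:ℝ) := by
                    apply Finset.sum_lt_sum_of_nonempty hne
                    intro v hv'
                    exact lt_of_le_of_ne (hbox v) (hv v (Finset.mem_inter.mp hv').2)
                _ = _ := by simp
            linarith
          have hsum : ∑ i ∈ Un, sz A F i ≤ t * F.card := by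
            calc ∑ i ∈ Un, sz A F i ≤ ∑ i ∈ (univ : Finset ι), sz A F i := by
                  apply Finset.sum_le_sum_of_subset_of_nonneg (Finset.subset_univ _)
                  intro i _ _
                  unfold sz
                  positivity
              _ ≤ t * F.card := by
                  unfold sz
                  rw [sum_card_filter]
                  calc ∑ c ∈ F, ((univ.filter (fun i => c ∈ A i)).card : ℝ) ≤ ∑ c ∈ F, t :=
                        Finset.sum_le_sum (fun v _ => hdeg v)
                    _ = t * F.card := by rw [Finset.sum_const, nsmul_eq_mul, mul_comm]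
          have hlt : ∑ i ∈ Un, t < ∑ i ∈ Un, sz A F i :=
            Finset.sum_lt_sum_of_nonempty hUne hbig
          rw [Finset.sum_const, nsmul_eq_mul] at hlt
          have h6 : (F.card : ℝ) ≤ Un.card := by exact_mod_cast h5
          nlinarith

/-- Classical Beck-Fiala bound. -/
theorem classic (A : ι → Finset V) {t : ℝ} (ht : 0 < t)
    (hdeg : ∀ v, ((univ.filter (fun i => v ∈ A i)).card : ℝ) ≤ t) :
    ∃ y : V → ℝ, (∀ v, |y v| = 1) ∧ ∀ i, |ex A y i| < 2 * t := by
  refine classic_induction ht hdeg _ univ 0 rfl (by simp) (by simp) ?_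
  intro i _
  simp [ex]

theorem to_int (y : V → ℝ) (hy : ∀ v, |y v| = 1) :
    ∃ χ : V → ℤ, (∀ v, χ v = 1 ∨ χ v = -1) ∧ ∀ v, (χ v : ℝ) = y v := by
  refine ⟨fun v => if y v = 1 then 1 else -1, ?_, ?_⟩
  · intro v
    by_cases h : y v = 1 <;> simp [h]
  · intro v
    rcases eq_or_eq_neg_of_abs_eq (hy v) with h | h
    · simp [h]
    · simp only [h]
      norm_num

/-- the parameters used -/
noncomputable def par1 (t a : ℝ) (ha : 1 ≤ a) (hta : 25000 * a ≤ t) : Par where
  t := t
  a := a
  K := 46
  lam := 92 * a
  d := t / 60
  D := (t + a) / 30 + t / 200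
  g := 13 * t / 100
  α := 279 / 1000
  p := 1 / 30
  δ := t / 200
  c0 := 105 / 100
  m := (t - a) / 30 - t / 200
  ω := 4999 / 10000
  ha := by linarith
  hta := by linarith
  hK := by norm_num
  hKt := by linarith
  hlam := by linarith
  hd := by norm_num; linarith
  hd0 := by linarith
  hα := by norm_num
  hα2 := by norm_num
  hg := by linarith
  hσ := by
    have ht : 0 < t := by linarith
    have h1 : 2 * ((t + a) / 30 + t / 200) / (13 * t / 100) ≤ 590 / 1000 := by
      rw [div_le_iff₀ (by linarith)]
      linarith
    have h2 : 2 * ((t + a) / 30 + t / 200) / (46 * (279 / 1000 * (t / 60))) ≤ 359 / 1000 := by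
      rw [div_le_iff₀ (by linarith)]
      linarith
    have h3 : (2 * ((t + a) / 30 + t / 200) / (13 * t / 100) +
        2 * ((t + a) / 30 + t / 200) / (46 * (279 / 1000 * (t / 60)))) * (t + a) ≤
        (949 / 1000) * (t + a) :=
      mul_le_mul_of_nonneg_right (by linarith) (by linarith)
    linarith
  hp0 := by norm_num
  hp1 := by norm_num
  hδ := by linarith
  hm := by linarith
  hdm := by linarith
  hD := by linarith
  hc0 := by norm_num
  hc := by norm_num; linarith
  hω := by
    have ht : 0 < t := by linarith
    have h1 : 2 * (1 / 30) * t / (t / 200) ^ 2 ≤ 1067 / 10000 := by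
      rw [div_le_iff₀ (by positivity)]
      nlinarith
    have h2 : 13 * t / 100 * (105 / 100) * (1 / 30) / ((t - a) / 30 - t / 200 - t / 60) ≤
        3901 / 10000 := by
      rw [div_le_iff₀ (by linarith)]
      linarith
    linarith
  hω2 := by norm_num

theorem improved (A : ι → Finset V) {t a : ℝ} (ha : 1 ≤ a) (hta : 25000 * a ≤ t)
    (hdeg : ∀ v, ((univ.filter (fun i => v ∈ A i)).card : ℝ) ≤ t) :
    ∃ y : V → ℝ, (∀ v, |y v| = 1) ∧ ∀ i, |ex A y i| ≤ 2 * t - 2 * a :=
  main (par1 t a ha hta) A hdeg

end H167BF
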