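import Pool.Agent.H167R2.FKMove

/-!
# The block lemma
-/

namespace H167FK

open Finset Real

variable {I J : Type*} [Fintype I] [Fintype J]

namespace Sys

variable (P : Sys I J)

open Classical in
/-- The invariant of the process. -/
structure Inv (η : ℝ) (x : J → ℝ) : Prop where
  box : ∀ j, |x j| ≤ 1
  zero : ∀ i ∈ P.I0, ∑ j, P.a i j * x j = 0
  un : ∀ i ∈ P.unrel (alive x), ∑ j, P.s i j * x j = 0 ∧ ∑ j, P.b i j * x j = 0
  small : ∀ i ∈ P.I1, |∑ j, P.s i j * x j| ≤ P.T i
  large : ∀ i ∈ P.rel (alive x),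
    |∑ j, if j ∈ alive x then 0 else P.b i j * x j| + ∑ j, (if j ∈ alive x then |P.b i j| else 0)
      ≤ 640 * P.lam * P.τ i
  pot : P.f (P.rel (alive x)) η x + ∑ i ∈ P.unrel (alive x), P.c i * P.g i
      ≤ ∑ i ∈ P.I1, P.c i * P.g i + η * Fintype.card J

theorem rel_add_unrel (A : Finset J) (h : I → ℝ) :
    ∑ i ∈ P.rel A, h i + ∑ i ∈ P.unrel A, h i = ∑ i ∈ P.I1, h i := by
  classical
  unfold rel unrel
  rw [Finset.sum_filter_add_sum_filter_not]

omit [Fintype I] in
theorem abs_eq_one {x : J → ℝ} (hx : ∀ j, |x j| ≤ 1) {j : J} (hj : j ∉ alive x) : |x j| = 1 := by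
  classical
  unfold alive at hj
  rw [Finset.mem_filter] at hj
  push Not at hj
  exact le_antisymm (hx j) (hj (Finset.mem_univ j))

open Classical in
theorem large_of_zero {A : Finset J} {i : I} (hi : i ∈ P.I1) (hm : P.mass A i ≤ 20 * P.τ i ^ 4)
    {y : J → ℝ} (hy : ∀ j, |y j| ≤ 1) (h0 : ∑ j, P.b i j * y j = 0) :
    |∑ j, if j ∈ A then 0 else P.b i j * y j| + ∑ j, (if j ∈ A then |P.b i j| else 0)
      ≤ 640 * P.lam * P.τ i := by
  have h1 : ∑ j, (if j ∈ A then |P.b i j| else 0) = ∑ j ∈ A, |P.b i j| := by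
    rw [Finset.sum_ite_mem, Finset.univ_inter]
  have h2 : ∑ j, P.b i j * y j = (∑ j, if j ∈ A then 0 else P.b i j * y j)
      + ∑ j ∈ A, P.b i j * y j := by
    rw [← Finset.univ_inter A, ← Finset.sum_ite_mem, Finset.univ_inter, ← Finset.sum_add_distrib]
    refine Finset.sum_congr rfl fun j _ => ?_
    by_cases hj : j ∈ A <;> simp [hj]
  have h3 : |∑ j, if j ∈ A then 0 else P.b i j * y j| ≤ ∑ j ∈ A, |P.b i j| := by
    have h4 : (∑ j, if j ∈ A then 0 else P.b i j * y j) = -∑ j ∈ A, P.b i j * y j := by linarith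
    rw [h4, abs_neg]
    refine (Finset.abs_sum_le_sum_abs _ _).trans (Finset.sum_le_sum fun j _ => ?_)
    rw [abs_mul]
    have := hy j
    have := abs_nonneg (P.b i j)
    nlinarith
  have h5 := P.b_sum_le hi hm
  rw [h1]
  linarith

theorem step (η : ℝ) (hη : 0 < η) (x : J → ℝ) (hx : P.Inv η x)
    (hbig : 2 * (P.I0.card : ℝ) + 4 * (∑ i ∈ P.I1, P.c i * P.g i + η * Fintype.card J)
      < (alive x).card) :
    ∃ y : J → ℝ, P.Inv η y ∧ (alive y).card < (alive x).card := by
  classical
  set A : Finset J := alive x with hA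
  have hxA : ∀ j, j ∉ A → |x j| = 1 := fun j hj => abs_eq_one hx.box hj
  have hxF : x ∈ P.F A x := ⟨fun j _ => rfl, hx.box, hx.zero, hx.un, hx.small⟩
  obtain ⟨y, hyF, hymin⟩ := (P.isCompact_F A x).exists_isMinOn ⟨x, hxF⟩
    (P.continuous_f (P.rel A) η).continuousOn
  have hfy : P.f (P.rel A) η y ≤ P.f (P.rel A) η x := hymin hxF
  have hg0 : ∀ i, 0 < P.c i * P.g i := fun i => mul_pos (P.c_pos i) (exp_pos _)
  have hpot := hx.pot
  have hun0 : 0 ≤ ∑ i ∈ P.unrel A, P.c i * P.g i := Finset.sum_nonneg fun i _ => (hg0 i).le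
  -- some coordinate gets frozen
  have hfrozen : ∃ j ∈ A, |y j| = 1 := by
    by_contra hcon
    push Not at hcon
    have hlt : ∀ j ∈ A, |y j| < 1 := fun j hj => lt_of_le_of_ne (hyF.2.1 j) (hcon j hj)
    obtain ⟨z, hzF, hz⟩ := P.exists_better A x y η hη hyF hlt (by
      rw [← hA] at hpot
      linarith)
    have := hymin hzF
    simp only [Set.mem_ofPred_eq] at this
    linarith
  have hyA : ∀ j ∉ A, |y j| = 1 := fun j hj => by rw [hyF.1 j hj]; exact hxA j hj
  have hsub : alive y ⊆ A := by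
    intro j hj
    by_contra hjA
    unfold alive at hj
    rw [Finset.mem_filter] at hj
    have := hyA j hjA
    linarith [hj.2]
  have hy1 : ∀ j ∉ alive y, |y j| = 1 := fun j hj => abs_eq_one hyF.2.1 hj
  have hmono : ∀ i, P.mass (alive y) i ≤ P.mass A i := by
    intro i
    unfold mass
    exact Finset.sum_le_sum_of_subset_of_nonneg hsub (fun j _ _ => sq_nonneg _)
  have hrelsub : P.rel A ⊆ P.rel (alive y) := by
    intro i hi
    unfold rel at hi ⊢
    rw [Finset.mem_filter] at hi ⊢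
    exact ⟨hi.1, (hmono i).trans hi.2⟩
  have hunsub : P.unrel (alive y) ⊆ P.unrel A := by
    intro i hi
    unfold unrel at hi ⊢
    rw [Finset.mem_filter] at hi ⊢
    exact ⟨hi.1, fun hcon => hi.2 ((hmono i).trans hcon)⟩
  have hnotrel : ∀ i ∈ P.rel (alive y), i ∉ P.rel A → i ∈ P.unrel A := by
    intro i hi hi2
    unfold rel at hi hi2
    unfold unrel
    rw [Finset.mem_filter] at hi hi2 ⊢
    exact ⟨hi.1, fun hcon => hi2 ⟨hi.1, hcon⟩⟩
  refine ⟨y, ⟨hyF.2.1, hyF.2.2.1, fun i hi => hyF.2.2.2.1 i (hunsub hi), hyF.2.2.2.2, ?_, ?_⟩, ?_⟩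
  · intro i hi
    have hiI1 : i ∈ P.I1 := (Finset.mem_filter.mp hi).1
    have him : P.mass (alive y) i ≤ 20 * P.τ i ^ 4 := (Finset.mem_filter.mp hi).2
    by_cases hr : i ∈ P.rel A
    · have h1 := hx.large i hr
      rw [← hA] at h1
      refine le_trans ?_ h1
      -- monotonicity of the completion bound
      have h2 : (∑ j, if j ∈ alive y then 0 else P.b i j * y j)
          = (∑ j, if j ∈ A then 0 else P.b i j * x j)
            + ∑ j, (if j ∈ A ∧ j ∉ alive y then P.b i j * y j else 0) := by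
        rw [← Finset.sum_add_distrib]
        refine Finset.sum_congr rfl fun j _ => ?_
        by_cases hj : j ∈ A
        · by_cases hj2 : j ∈ alive y <;> simp [hj, hj2]
        · have hj2 : j ∉ alive y := fun h => hj (hsub h)
          simp [hj, hj2, hyF.1 j hj]
      have h3 : ∑ j, (if j ∈ A then |P.b i j| else 0)
          = ∑ j, (if j ∈ alive y then |P.b i j| else 0)
            + ∑ j, (if j ∈ A ∧ j ∉ alive y then |P.b i j| else 0) := by
        rw [← Finset.sum_add_distrib]
        refine Finset.sum_congr rfl fun j _ => ?_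
        by_cases hj : j ∈ A
        · by_cases hj2 : j ∈ alive y <;> simp [hj, hj2]
        · have hj2 : j ∉ alive y := fun h => hj (hsub h)
          simp [hj, hj2]
      have h4 : |∑ j, (if j ∈ A ∧ j ∉ alive y then P.b i j * y j else 0)|
          ≤ ∑ j, (if j ∈ A ∧ j ∉ alive y then |P.b i j| else 0) := by
        refine (Finset.abs_sum_le_sum_abs _ _).trans (Finset.sum_le_sum fun j _ => ?_)
        by_cases hj : j ∈ A ∧ j ∉ alive y
        · simp only [hj, if_true, and_self, not_false_eq_true, abs_mul]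
          rw [hy1 j hj.2, mul_one]
        · simp [hj]
      rw [h2, h3]
      have h5 := abs_add_le (∑ j, if j ∈ A then 0 else P.b i j * x j)
        (∑ j, (if j ∈ A ∧ j ∉ alive y then P.b i j * y j else 0))
      linarith
    · have hun := hnotrel i hi hr
      exact P.large_of_zero hiI1 him hyF.2.1 (hyF.2.2.2.1 i hun).2
  · -- potential
    have h1 : P.f (P.rel (alive y)) η y = P.f (P.rel A) η y
        + ∑ i ∈ P.rel (alive y) \ P.rel A, P.c i * P.φ i y := by
      unfold f
      rw [← Finset.sum_sdiff hrelsub]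
      ring
    have h2 : ∑ i ∈ P.rel (alive y) \ P.rel A, P.c i * P.φ i y
        ≤ ∑ i ∈ P.rel (alive y) \ P.rel A, P.c i * P.g i := by
      refine Finset.sum_le_sum fun i hi => ?_
      rw [Finset.mem_sdiff] at hi
      have hun := hnotrel i hi.1 hi.2
      have hiI1 : i ∈ P.I1 := (Finset.mem_filter.mp hi.1).1
      have him : P.mass (alive y) i ≤ 20 * P.τ i ^ 4 := (Finset.mem_filter.mp hi.1).2
      exact mul_le_mul_of_nonneg_left
        (P.φ_le_g hiI1 him hyF.2.1 hy1 (hyF.2.2.2.1 i hun).1) (P.c_pos i).le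
    have h3 : ∑ i ∈ P.rel (alive y) \ P.rel A, P.c i * P.g i
        = ∑ i ∈ P.rel (alive y), P.c i * P.g i - ∑ i ∈ P.rel A, P.c i * P.g i := by
      rw [← Finset.sum_sdiff hrelsub]; ring
    have h4 := P.rel_add_unrel (alive y) (fun i => P.c i * P.g i)
    have h5 := P.rel_add_unrel A (fun i => P.c i * P.g i)
    rw [← hA] at hpot
    linarith
  · obtain ⟨j, hjA, hj1⟩ := hfrozen
    apply Finset.card_lt_card
    refine ⟨hsub, fun hcon => ?_⟩
    have := hcon hjA
    unfold alive at this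
    rw [Finset.mem_filter] at this
    linarith [this.2]

theorem inv_zero (η : ℝ) : P.Inv η (fun _ => (0 : ℝ)) := by
  classical
  have halive : alive (fun _ : J => (0 : ℝ)) = Finset.univ := by
    unfold alive
    ext j; simp
  refine ⟨fun j => by simp, fun i _ => by simp, fun i _ => by simp, fun i hi => ?_,
    fun i hi => ?_, ?_⟩
  · simp only [mul_zero, Finset.sum_const_zero, abs_zero]
    exact (P.T_pos hi).le
  · have hiI1 : i ∈ P.I1 := (Finset.mem_filter.mp hi).1
    have him := (Finset.mem_filter.mp hi).2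
    have h1 := P.large_of_zero hiI1 him (y := fun _ => (0 : ℝ)) (fun j => by simp) (by simp)
    exact h1
  · have h1 := P.rel_add_unrel (alive (fun _ : J => (0 : ℝ))) (fun i => P.c i * P.g i)
    have h2 : ∑ i ∈ P.rel (alive (fun _ : J => (0 : ℝ))), P.c i * P.φ i (fun _ => 0)
        ≤ ∑ i ∈ P.rel (alive (fun _ : J => (0 : ℝ))), P.c i * P.g i := by
      refine Finset.sum_le_sum fun i hi => ?_
      have hiI1 : i ∈ P.I1 := (Finset.mem_filter.mp hi).1
      have him := (Finset.mem_filter.mp hi).2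
      refine mul_le_mul_of_nonneg_left
        (P.φ_le_g hiI1 him (fun j => by simp) (fun j hj => ?_) (by simp)) (P.c_pos i).le
      exact absurd (halive ▸ Finset.mem_univ j) hj
    have h3 : P.f (P.rel (alive (fun _ : J => (0 : ℝ)))) η (fun _ => 0)
        = ∑ i ∈ P.rel (alive (fun _ : J => (0 : ℝ))), P.c i * P.φ i (fun _ => 0)
          + η * Fintype.card J := by
      unfold f
      simp
    rw [h3]
    linarith

/-- **Block lemma.** -/
theorem block : ∃ x : J → ℝ, (∀ j, |x j| ≤ 1) ∧ (∀ i ∈ P.I0, ∑ j, P.a i j * x j = 0) ∧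
    (∀ i ∈ P.I1, |∑ j, P.a i j * x j| ≤ 800 * P.lam * P.τ i) ∧
    ((alive x).card : ℝ) ≤ 2 * P.I0.card
      + 4 * exp (-(80 * P.lam ^ 2)) * (∑ i ∈ P.I1, P.τ i ^ 4 + Fintype.card J) := by
  classical
  set η : ℝ := exp (-(80 * P.lam ^ 2)) with hη
  have hη0 : 0 < η := exp_pos _
  -- minimal number of alive coordinates
  have hex : ∃ k : ℕ, ∃ x : J → ℝ, P.Inv η x ∧ (alive x).card = k :=
    ⟨_, _, P.inv_zero η, rfl⟩
  obtain ⟨x, hx, hxk⟩ := Nat.find_spec hex
  have hcard : ((alive x).card : ℝ) ≤ 2 * (P.I0.card : ℝ)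
      + 4 * (∑ i ∈ P.I1, P.c i * P.g i + η * Fintype.card J) := by
    by_contra hcon
    push Not at hcon
    obtain ⟨y, hy, hyc⟩ := P.step η hη0 x hx hcon
    exact Nat.find_min hex (m := (alive y).card) (by rw [← hxk]; exact hyc) ⟨y, hy, rfl⟩
  refine ⟨x, hx.box, hx.zero, ?_, ?_⟩
  · intro i hi
    have hsplit : ∑ j, P.a i j * x j = ∑ j, P.s i j * x j + ∑ j, P.b i j * x j := by
      rw [← Finset.sum_add_distrib]
      refine Finset.sum_congr rfl fun j _ => ?_
      unfold b; ring
    have hτ := P.τ_pos i hi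
    have hlam := P.lam_pos
    by_cases hr : i ∈ P.rel (alive x)
    · have h1 := hx.small i hi
      have h2 := hx.large i hr
      have h3 : |∑ j, P.b i j * x j| ≤ 640 * P.lam * P.τ i := by
        refine le_trans ?_ h2
        have h4 : ∑ j, P.b i j * x j = (∑ j, if j ∈ alive x then 0 else P.b i j * x j)
            + ∑ j, (if j ∈ alive x then P.b i j * x j else 0) := by
          rw [← Finset.sum_add_distrib]
          refine Finset.sum_congr rfl fun j _ => ?_
          by_cases hj : j ∈ alive x <;> simp [hj]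
        rw [h4]
        refine (abs_add_le _ _).trans (add_le_add le_rfl ?_)
        refine (Finset.abs_sum_le_sum_abs _ _).trans (Finset.sum_le_sum fun j _ => ?_)
        by_cases hj : j ∈ alive x
        · simp only [hj, if_true, abs_mul]
          have := hx.box j
          have := abs_nonneg (P.b i j)
          nlinarith
        · simp [hj]
      rw [hsplit]
      have h5 := abs_add_le (∑ j, P.s i j * x j) (∑ j, P.b i j * x j)
      have h6 : P.T i = 160 * P.lam * P.τ i := rfl
      rw [h6] at h1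
      linarith
    · have hun : i ∈ P.unrel (alive x) := by
        unfold unrel
        rw [Finset.mem_filter]
        refine ⟨hi, fun hcon => hr ?_⟩
        unfold rel
        rw [Finset.mem_filter]
        exact ⟨hi, hcon⟩
      rw [hsplit, (hx.un i hun).1, (hx.un i hun).2]
      simp
      positivity
  · have h1 : ∑ i ∈ P.I1, P.c i * P.g i ≤ (∑ i ∈ P.I1, P.τ i ^ 4) * η := by
      rw [Finset.sum_mul]
      exact Finset.sum_le_sum fun i hi => P.cg_le hi
    have h2 : 4 * η * (∑ i ∈ P.I1, P.τ i ^ 4 + Fintype.card J)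
        = 4 * ((∑ i ∈ P.I1, P.τ i ^ 4) * η + η * Fintype.card J) := by ring
    rw [h2]
    linarith

end Sys

end H167FK
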