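import Pool.Agent.H167R2.BJStep
import Pool.Agent.H167R2.FKBlock

/-!
# The block lemma for the dimension-free Beck–Fiala theorem
-/

namespace H167BJ

open Finset Real

variable {I J : Type*} [Fintype I] [Fintype J]

namespace Sys

variable (P : Sys I J)

theorem isCompact_Fs (F : Finset J) (x : J → ℝ) : IsCompact (P.Fs F x) := by
  have hK : IsCompact (Set.pi Set.univ (fun _ : J => Set.Icc (-1 : ℝ) 1)) :=
    isCompact_univ_pi fun _ => isCompact_Icc
  refine hK.of_isClosed_subset ?_ ?_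
  · have h1 : IsClosed {y : J → ℝ | ∀ j ∉ F, y j = x j} := by
      simp only [Set.ofPred_forall]
      exact isClosed_iInter fun j => isClosed_iInter fun _ =>
        isClosed_eq (continuous_apply j) continuous_const
    have h2 : IsClosed {y : J → ℝ | ∀ j, |y j| ≤ 1} := by
      simp only [Set.ofPred_forall]
      exact isClosed_iInter fun j => isClosed_le (by fun_prop) continuous_const
    have h3 : IsClosed {y : J → ℝ | ∀ i ∈ P.I0, ∑ j, P.a i j * y j = 0} := by
      simp only [Set.ofPred_forall]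
      exact isClosed_iInter fun j => isClosed_iInter fun _ =>
        isClosed_eq (by fun_prop) continuous_const
    have h4 : IsClosed {y : J → ℝ | ∀ i ∈ P.big F, ∑ j, P.a i j * y j = 0} := by
      simp only [Set.ofPred_forall]
      exact isClosed_iInter fun j => isClosed_iInter fun _ =>
        isClosed_eq (by fun_prop) continuous_const
    have h5 : IsClosed {y : J → ℝ | ∀ i ∈ P.med F, |∑ j, P.a i j * y j| ≤ P.Tp (P.lev F i + 1)} := by
      simp only [Set.ofPred_forall]
      exact isClosed_iInter fun j => isClosed_iInter fun _ =>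
        isClosed_le (by fun_prop) continuous_const
    exact h1.inter (h2.inter (h3.inter (h4.inter h5)))
  · intro y hy j _
    exact abs_le.mp (hy.2.1 j)

theorem continuous_f (F : Finset J) : Continuous (P.f F) := by
  have h : P.f F = fun y => ∑ j ∈ F, exp (P.η *
      (∑ i ∈ P.med F, |P.a i j| * (16 ^ P.lev F i * P.φ (P.lev F i) i y)
      - (∑ i ∈ P.med F, |P.a i j| * (1 / 10000 * (1 - (1 / 2) ^ (P.lev F i + 1)))
        + ∑ i ∈ P.sml F, |P.a i j| * (1 / 10000)))) + ∑ j, (1 - y j ^ 2) := by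
    funext y
    unfold f
    simp only [P.Th_eq]
  rw [h]
  unfold φ
  fun_prop

open Classical in
/-- The invariant of the process. -/
structure Inv (x : J → ℝ) : Prop where
  box : ∀ j, |x j| ≤ 1
  zero : ∀ i ∈ P.I0, ∑ j, P.a i j * x j = 0
  bigz : ∀ i ∈ P.big (H167FK.Sys.alive x), ∑ j, P.a i j * x j = 0
  medb : ∀ i ∈ P.med (H167FK.Sys.alive x),
    |∑ j, P.a i j * x j| ≤ P.Tp (P.lev (H167FK.Sys.alive x) i + 1)
  smlb : ∀ i ∈ P.sml (H167FK.Sys.alive x),
    |∑ j, if j ∈ H167FK.Sys.alive x then 0 else P.a i j * x j| + P.mass (H167FK.Sys.alive x) i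
      ≤ 80 * Real.sqrt P.t + 2 * P.c0
  pot : P.f (H167FK.Sys.alive x) x ≤ 2 * Fintype.card J

open Classical in
/-- Releasing a row. -/
theorem release {F : Finset J} {i : I} {y : J → ℝ} (hy : ∀ j, |y j| ≤ 1) :
    |∑ j, if j ∈ F then 0 else P.a i j * y j| ≤ |∑ j, P.a i j * y j| + P.mass F i := by
  have h2 : ∑ j, P.a i j * y j = (∑ j, if j ∈ F then 0 else P.a i j * y j)
      + ∑ j ∈ F, P.a i j * y j := by
    have h3 : ∑ j ∈ F, P.a i j * y j = ∑ j, if j ∈ F then P.a i j * y j else 0 :=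
      (sum_restrict F _ _ (fun j hj => if_pos hj) (fun j hj => if_neg hj)).symm
    rw [h3, ← Finset.sum_add_distrib]
    refine Finset.sum_congr rfl fun j _ => ?_
    by_cases hj : j ∈ F <;> simp [hj]
  have h3 : |∑ j ∈ F, P.a i j * y j| ≤ P.mass F i := by
    refine (Finset.abs_sum_le_sum_abs _ _).trans (Finset.sum_le_sum fun j _ => ?_)
    rw [abs_mul]
    have := hy j
    have := abs_nonneg (P.a i j)
    nlinarith
  have h4 : (∑ j, if j ∈ F then 0 else P.a i j * y j)
      = ∑ j, P.a i j * y j - ∑ j ∈ F, P.a i j * y j := by linarith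
  rw [h4]
  exact (abs_sub _ _).trans (by linarith)

theorem trichotomy {F : Finset J} {i : I} (hi : i ∈ P.I1) :
    i ∈ P.big F ∨ i ∈ P.med F ∨ i ∈ P.sml F := by
  rw [P.mem_big, P.mem_med, P.mem_sml]
  rcases lt_or_ge (10 * P.t) (P.mass F i) with h | h
  · exact Or.inl ⟨hi, h⟩
  · rcases lt_or_ge P.c0 (P.mass F i) with h2 | h2
    · exact Or.inr (Or.inl ⟨hi, h2, h⟩)
    · exact Or.inr (Or.inr ⟨hi, h2, h⟩)

theorem step (x : J → ℝ) (hx : P.Inv x) (hn : 0 < (H167FK.Sys.alive x).card)
    (hI0 : 10 * (P.I0.card : ℝ) ≤ (H167FK.Sys.alive x).card)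
    (hbig : 2 * (Fintype.card J : ℝ) * exp (-(P.c0 / 100)) ≤ (H167FK.Sys.alive x).card) :
    ∃ y : J → ℝ, P.Inv y ∧ (H167FK.Sys.alive y).card < (H167FK.Sys.alive x).card := by
  classical
  set A : Finset J := H167FK.Sys.alive x with hA
  have hxA : ∀ j, j ∉ A → |x j| = 1 := fun j hj => H167FK.Sys.abs_eq_one hx.box hj
  have hxF : x ∈ P.Fs A x := ⟨fun j _ => rfl, hx.box, hx.zero, hx.bigz, hx.medb⟩
  obtain ⟨y, hyF, hymin⟩ := (P.isCompact_Fs A x).exists_isMinOn ⟨x, hxF⟩
    (P.continuous_f A).continuousOn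
  have hfy : P.f A y ≤ P.f A x := hymin hxF
  have hfy2 : P.f A y ≤ 2 * Fintype.card J := hfy.trans hx.pot
  -- some coordinate gets frozen
  have hfrozen : ∃ j ∈ A, |y j| = 1 := by
    by_contra hcon
    push Not at hcon
    have hlt : ∀ j ∈ A, |y j| < 1 := fun j hj => lt_of_le_of_ne (hyF.2.1 j) (hcon j hj)
    exact P.no_min A x y hyF hlt hn hI0 hfy2 hbig (fun z hz => hymin hz)
  have hyA : ∀ j ∉ A, |y j| = 1 := fun j hj => by rw [hyF.1 j hj]; exact hxA j hj
  have hsub : H167FK.Sys.alive y ⊆ A := by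
    intro j hj
    by_contra hjA
    unfold H167FK.Sys.alive at hj
    rw [Finset.mem_filter] at hj
    have := hyA j hjA
    linarith [hj.2]
  have hy1 : ∀ j ∉ H167FK.Sys.alive y, |y j| = 1 := fun j hj => H167FK.Sys.abs_eq_one hyF.2.1 hj
  set A' : Finset J := H167FK.Sys.alive y with hA'
  have hmono : ∀ i, P.mass A' i ≤ P.mass A i := fun i => P.mass_mono hsub i
  have hbigsub : ∀ i ∈ P.big A', i ∈ P.big A := by
    intro i hi
    rw [P.mem_big] at hi ⊢
    exact ⟨hi.1, hi.2.trans_le (hmono i)⟩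
  refine ⟨y, ⟨hyF.2.1, hyF.2.2.1, fun i hi => hyF.2.2.2.1 i (hbigsub i hi), ?_, ?_, ?_⟩, ?_⟩
  · -- medium rows
    intro i hi
    rw [← hA'] at hi ⊢
    have hiI1 := (P.mem_med.mp hi).1
    rcases P.trichotomy (F := A) hiI1 with h | h | h
    · rw [hyF.2.2.2.1 i h, abs_zero]
      exact P.Tp_nonneg _
    · refine (hyF.2.2.2.2 i h).trans (P.Tp_mono ?_)
      have := P.lev_mono hsub (P.med_mass_pos hi)
      omega
    · exfalso
      have h1 := (P.mem_sml.mp h).2.1
      have h2 := (P.mem_med.mp hi).2.1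
      have h3 := hmono i
      linarith
  · -- small rows
    intro i hi
    rw [← hA'] at hi ⊢
    have hiI1 := (P.mem_sml.mp hi).1
    have him := (P.mem_sml.mp hi).2.1
    have hs := P.sqrt_ge
    rcases P.trichotomy (F := A) hiI1 with h | h | h
    · have h1 := P.release (F := A') (i := i) hyF.2.1
      rw [hyF.2.2.2.1 i h, abs_zero, zero_add] at h1
      linarith
    · have h1 := P.release (F := A') (i := i) hyF.2.1
      have h2 := hyF.2.2.2.2 i h
      have h3 := P.Tp_le (P.lev A i + 1)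
      linarith
    · have h1 := hx.smlb i h
      rw [← hA] at h1
      refine le_trans ?_ h1
      have h2 : (∑ j, if j ∈ A' then 0 else P.a i j * y j)
          = (∑ j, if j ∈ A then 0 else P.a i j * x j)
            + ∑ j, (if j ∈ A ∧ j ∉ A' then P.a i j * y j else 0) := by
        rw [← Finset.sum_add_distrib]
        refine Finset.sum_congr rfl fun j _ => ?_
        by_cases hj : j ∈ A
        · by_cases hj2 : j ∈ A' <;> simp [hj, hj2]
        · have hj2 : j ∉ A' := fun h => hj (hsub h)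
          simp [hj, hj2, hyF.1 j hj]
      have h3 : P.mass A i = P.mass A' i + ∑ j, (if j ∈ A ∧ j ∉ A' then |P.a i j| else 0) := by
        have h4 : P.mass A i = ∑ j, (if j ∈ A then |P.a i j| else 0) :=
          (sum_restrict A _ _ (fun j hj => if_pos hj) (fun j hj => if_neg hj)).symm
        have h5 : P.mass A' i = ∑ j, (if j ∈ A' then |P.a i j| else 0) :=
          (sum_restrict A' _ _ (fun j hj => if_pos hj) (fun j hj => if_neg hj)).symm
        rw [h4, h5, ← Finset.sum_add_distrib]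
        refine Finset.sum_congr rfl fun j _ => ?_
        by_cases hj : j ∈ A
        · by_cases hj2 : j ∈ A' <;> simp [hj, hj2]
        · have hj2 : j ∉ A' := fun h => hj (hsub h)
          simp [hj, hj2]
      have h4 : |∑ j, (if j ∈ A ∧ j ∉ A' then P.a i j * y j else 0)|
          ≤ ∑ j, (if j ∈ A ∧ j ∉ A' then |P.a i j| else 0) := by
        refine (Finset.abs_sum_le_sum_abs _ _).trans (Finset.sum_le_sum fun j _ => ?_)
        by_cases hj : j ∈ A ∧ j ∉ A'
        · simp only [hj, if_true, and_self, not_false_eq_true, abs_mul]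
          rw [hy1 j hj.2, mul_one]
        · simp [hj]
      rw [h2, h3]
      have h5 := abs_add_le (∑ j, if j ∈ A then 0 else P.a i j * x j)
        (∑ j, (if j ∈ A ∧ j ∉ A' then P.a i j * y j else 0))
      linarith
  · -- potential
    refine le_trans ?_ hfy2
    unfold f
    have hη := P.η_pos
    have h1 : ∑ j ∈ A', exp (P.η * P.Th A' j y) ≤ ∑ j ∈ A', exp (P.η * P.Th A j y) := by
      refine Finset.sum_le_sum fun j _ => exp_le_exp.mpr ?_
      apply mul_le_mul_of_nonneg_left _ hη.le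
      refine Finset.sum_le_sum fun i hi => mul_le_mul_of_nonneg_left ?_ (abs_nonneg _)
      exact P.th_mono hsub hi hyF.2.1 hy1 (fun h => hyF.2.2.2.1 i h) (fun h => hyF.2.2.2.2 i h)
    have h2 : ∑ j ∈ A', exp (P.η * P.Th A j y) ≤ ∑ j ∈ A, exp (P.η * P.Th A j y) :=
      Finset.sum_le_sum_of_subset_of_nonneg hsub (fun _ _ _ => (exp_pos _).le)
    rw [← hA']
    linarith
  · obtain ⟨j, hjA, hj1⟩ := hfrozen
    apply Finset.card_lt_card
    refine ⟨hsub, fun hcon => ?_⟩
    have := hcon hjA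
    unfold H167FK.Sys.alive at this
    rw [Finset.mem_filter] at this
    linarith [this.2]

theorem inv_zero : P.Inv (fun _ => (0 : ℝ)) := by
  classical
  have halive : H167FK.Sys.alive (fun _ : J => (0 : ℝ)) = Finset.univ := by
    unfold H167FK.Sys.alive
    ext j; simp
  have hs := P.sqrt_ge
  have hc0 := P.c0_pos
  refine ⟨fun j => by simp, fun i _ => by simp, fun i _ => by simp, fun i hi => ?_,
    fun i hi => ?_, ?_⟩
  · simp only [mul_zero, Finset.sum_const_zero, abs_zero]
    exact P.Tp_nonneg _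
  · have := (P.mem_sml.mp hi).2.1
    simp only [mul_zero, ite_self, Finset.sum_const_zero, abs_zero, zero_add]
    linarith
  · rw [halive]
    unfold f
    have h1 : ∑ j : J, exp (P.η * P.Th Finset.univ j (fun _ => 0)) ≤ ∑ j : J, (1 : ℝ) := by
      refine Finset.sum_le_sum fun j _ => ?_
      rw [Real.exp_le_one_iff]
      exact mul_nonpos_of_nonneg_of_nonpos P.η_pos.le (P.Th_zero j)
    have h2 : ∑ j : J, (1 : ℝ) = (Fintype.card J : ℝ) := by simp
    have h3 : ∑ j : J, (1 - (fun _ : J => (0 : ℝ)) j ^ 2) = (Fintype.card J : ℝ) := by simp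
    rw [h3]
    linarith

/-- **Block lemma.** -/
theorem block : ∃ x : J → ℝ, (∀ j, |x j| ≤ 1) ∧ (∀ i ∈ P.I0, ∑ j, P.a i j * x j = 0) ∧
    (∀ i ∈ P.I1, |∑ j, P.a i j * x j| ≤ 80 * Real.sqrt P.t + 2 * P.c0) ∧
    ((H167FK.Sys.alive x).card : ℝ) ≤ 10 * P.I0.card
      + 2 * Fintype.card J * exp (-(P.c0 / 100)) := by
  classical
  have hex : ∃ k : ℕ, ∃ x : J → ℝ, P.Inv x ∧ (H167FK.Sys.alive x).card = k :=
    ⟨_, _, P.inv_zero, rfl⟩
  obtain ⟨x, hx, hxk⟩ := Nat.find_spec hex
  have hcard : ((H167FK.Sys.alive x).card : ℝ) ≤ 10 * P.I0.card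
      + 2 * Fintype.card J * exp (-(P.c0 / 100)) := by
    by_contra hcon
    push Not at hcon
    have h1 : (0 : ℝ) ≤ P.I0.card := Nat.cast_nonneg _
    have h2 : (0 : ℝ) ≤ 2 * (Fintype.card J : ℝ) * exp (-(P.c0 / 100)) := by positivity
    have hpos : (0 : ℝ) < (H167FK.Sys.alive x).card := by linarith
    obtain ⟨y, hy, hyc⟩ := P.step x hx (by exact_mod_cast hpos) (by linarith) (by linarith)
    exact Nat.find_min hex (m := (H167FK.Sys.alive y).card) (by rw [← hxk]; exact hyc) ⟨y, hy, rfl⟩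
  refine ⟨x, hx.box, hx.zero, ?_, hcard⟩
  intro i hi
  have hs := P.sqrt_ge
  have hc0 := P.c0_pos
  rcases P.trichotomy (F := H167FK.Sys.alive x) hi with h | h | h
  · rw [hx.bigz i h, abs_zero]; positivity
  · refine (hx.medb i h).trans ((P.Tp_le _).trans ?_)
    linarith
  · have h1 := hx.smlb i h
    refine le_trans ?_ h1
    have h4 : ∑ j, P.a i j * x j = (∑ j, if j ∈ H167FK.Sys.alive x then 0 else P.a i j * x j)
        + ∑ j ∈ H167FK.Sys.alive x, P.a i j * x j := by
      have h3 : ∑ j ∈ H167FK.Sys.alive x, P.a i j * x j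
          = ∑ j, if j ∈ H167FK.Sys.alive x then P.a i j * x j else 0 :=
        (sum_restrict _ _ _ (fun j hj => if_pos hj) (fun j hj => if_neg hj)).symm
      rw [h3, ← Finset.sum_add_distrib]
      refine Finset.sum_congr rfl fun j _ => ?_
      by_cases hj : j ∈ H167FK.Sys.alive x <;> simp [hj]
    rw [h4]
    refine (abs_add_le _ _).trans (add_le_add le_rfl ?_)
    refine (Finset.abs_sum_le_sum_abs _ _).trans (Finset.sum_le_sum fun j _ => ?_)
    rw [abs_mul]
    have := hx.box j
    have := abs_nonneg (P.a i j)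
    nlinarith

end Sys

end H167BJ
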