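import Mathlib

/-!
# Second order condition for the dimension-free Beck–Fiala theorem
-/

namespace H167BJ

open Finset Real Filter Topology

/-- Second order necessary condition at a local minimum. -/
theorem second_order (h h1 : ℝ → ℝ) (h2 : ℝ) (hd : ∀ s, HasDerivAt h (h1 s) s)
    (hd2 : HasDerivAt h1 h2 0) (hmin : IsLocalMin h 0) : 0 ≤ h2 := by
  by_contra hcon
  push Not at hcon
  have hz : h1 0 = 0 := hmin.hasDerivAt_eq_zero (hd 0)
  have hderiv : deriv h = h1 := funext fun s => (hd s).deriv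
  -- `h1 s < 0` for small positive `s`
  have hlt : ∀ᶠ s in 𝓝[>] (0 : ℝ), h1 s < 0 := by
    have h3 := (hasDerivAt_iff_tendsto_slope.mp hd2).eventually_lt_const hcon
    have h4 : ∀ᶠ s in 𝓝[>] (0 : ℝ), slope h1 0 s < 0 :=
      h3.filter_mono (nhdsWithin_mono _ (fun s hs => ne_of_gt hs))
    filter_upwards [h4, self_mem_nhdsWithin] with s hs1 hs2
    rw [slope_def_field, hz, sub_zero, sub_zero] at hs1
    have hs3 : (0 : ℝ) < s := hs2
    by_contra hcon2
    push Not at hcon2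
    exact absurd (div_nonneg hcon2 hs3.le) (not_le.mpr hs1)
  obtain ⟨r, hr0, hr⟩ := mem_nhdsGT_iff_exists_Ioo_subset.mp hlt
  have hmin' : ∀ᶠ s in 𝓝[>] (0 : ℝ), h 0 ≤ h s := hmin.filter_mono nhdsWithin_le_nhds
  have hlt' : ∀ᶠ s in 𝓝[>] (0 : ℝ), s ∈ Set.Ioo (0 : ℝ) r := Ioo_mem_nhdsGT hr0
  obtain ⟨s, hs1, hs2⟩ := (hmin'.and hlt').exists
  obtain ⟨c, hc, hc2⟩ := exists_hasDerivAt_eq_slope h h1 hs2.1
    (fun x _ => (hd x).continuousAt.continuousWithinAt) (fun x _ => hd x)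
  have h5 : h1 c < 0 := hr ⟨hc.1, hc.2.trans hs2.2⟩
  rw [hc2] at h5
  have h6 : 0 ≤ (h s - h 0) / (s - 0) := by
    apply div_nonneg <;> linarith [hs2.1]
  linarith

/-- A row potential along a line. -/
noncomputable def rp (C l α β m γ q s : ℝ) : ℝ :=
  C * cosh (l * (α + s * β)) * exp (4 * l ^ 2 * (m - 2 * s * γ - s ^ 2 * q))

/-- Its first derivative. -/
noncomputable def rp1 (C l α β m γ q s : ℝ) : ℝ :=
  C * (l * β * sinh (l * (α + s * β)) - 8 * l ^ 2 * (γ + s * q) * cosh (l * (α + s * β)))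
    * exp (4 * l ^ 2 * (m - 2 * s * γ - s ^ 2 * q))

theorem rp_deriv (C l α β m γ q s : ℝ) :
    HasDerivAt (rp C l α β m γ q) (rp1 C l α β m γ q s) s := by
  have h1 : HasDerivAt (fun s : ℝ => l * (α + s * β)) (l * β) s := by
    have := ((hasDerivAt_id s).mul_const β).const_add α |>.const_mul l
    simpa using this
  have h2 : HasDerivAt (fun s : ℝ => 4 * l ^ 2 * (m - 2 * s * γ - s ^ 2 * q))
      (4 * l ^ 2 * (-(2 * γ) - 2 * s * q)) s := by
    have e1 : HasDerivAt (fun s : ℝ => 2 * s * γ) (2 * γ) s := by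
      have := ((hasDerivAt_id s).const_mul 2).mul_const γ
      simpa using this
    have e2 : HasDerivAt (fun s : ℝ => s ^ 2 * q) (2 * s * q) s := by
      have := ((hasDerivAt_id s).pow 2).mul_const q
      simpa using this
    exact ((e1.const_sub m).fun_sub e2).const_mul (4 * l ^ 2)
  have h3 := (h1.cosh.const_mul C).fun_mul h2.exp
  refine HasDerivAt.congr_deriv h3 ?_
  unfold rp1
  ring

/-- Second derivative of a row potential at `0`. -/
theorem rp1_deriv (C l α β m γ q : ℝ) :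
    HasDerivAt (rp1 C l α β m γ q)
      (C * exp (4 * l ^ 2 * m) * ((l ^ 2 * β ^ 2 - 8 * l ^ 2 * q + 64 * l ^ 4 * γ ^ 2)
        * cosh (l * α) - 16 * l ^ 3 * β * γ * sinh (l * α))) 0 := by
  have h1 : HasDerivAt (fun s : ℝ => l * (α + s * β)) (l * β) 0 := by
    have := ((hasDerivAt_id (0 : ℝ)).mul_const β).const_add α |>.const_mul l
    simpa using this
  have h2 : HasDerivAt (fun s : ℝ => 4 * l ^ 2 * (m - 2 * s * γ - s ^ 2 * q))
      (4 * l ^ 2 * (-(2 * γ) - 2 * 0 * q)) 0 := by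
    have e1 : HasDerivAt (fun s : ℝ => 2 * s * γ) (2 * γ) 0 := by
      have := ((hasDerivAt_id (0 : ℝ)).const_mul 2).mul_const γ
      simpa using this
    have e2 : HasDerivAt (fun s : ℝ => s ^ 2 * q) (2 * 0 * q) 0 := by
      have := ((hasDerivAt_id (0 : ℝ)).pow 2).mul_const q
      simpa using this
    exact ((e1.const_sub m).fun_sub e2).const_mul (4 * l ^ 2)
  have h4 : HasDerivAt (fun s : ℝ => 8 * l ^ 2 * (γ + s * q)) (8 * l ^ 2 * q) 0 := by
    have := ((hasDerivAt_id (0 : ℝ)).mul_const q).const_add γ |>.const_mul (8 * l ^ 2)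
    simpa using this
  have h5 := (((h1.sinh.const_mul (l * β)).fun_sub (h4.fun_mul h1.cosh)).const_mul C).fun_mul
    h2.exp
  refine HasDerivAt.congr_deriv h5 ?_
  simp only [zero_mul, mul_zero, add_zero, sub_zero, ne_eq, OfNat.ofNat_ne_zero,
    not_false_eq_true, zero_pow]
  ring

/-- Second order condition for the objective function along a line. -/
theorem calc_main {I J : Type*} (R : Finset I) (F : Finset J) (a : I → J → ℝ)
    (C l α β m γ q : I → ℝ) (k : J → ℝ) (η A B Q : ℝ)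
    (hmin : IsLocalMin (fun s : ℝ => ∑ j ∈ F,
      exp (η * (∑ i ∈ R, a i j * rp (C i) (l i) (α i) (β i) (m i) (γ i) (q i) s - k j))
      + (A - 2 * s * B - s ^ 2 * Q)) 0) :
    0 ≤ ∑ j ∈ F, exp (η * (∑ i ∈ R, a i j * rp (C i) (l i) (α i) (β i) (m i) (γ i) (q i) 0 - k j))
      * ((η * ∑ i ∈ R, a i j * rp1 (C i) (l i) (α i) (β i) (m i) (γ i) (q i) 0) ^ 2
        + η * ∑ i ∈ R, a i j * (C i * exp (4 * l i ^ 2 * m i) *
          ((l i ^ 2 * β i ^ 2 - 8 * l i ^ 2 * q i + 64 * l i ^ 4 * γ i ^ 2)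
        * cosh (l i * α i) - 16 * l i ^ 3 * β i * γ i * sinh (l i * α i)))) - 2 * Q := by
  classical
  set E : J → ℝ → ℝ := fun j s =>
    exp (η * (∑ i ∈ R, a i j * rp (C i) (l i) (α i) (β i) (m i) (γ i) (q i) s - k j)) with hE
  set G : J → ℝ → ℝ := fun j s =>
    η * ∑ i ∈ R, a i j * rp1 (C i) (l i) (α i) (β i) (m i) (γ i) (q i) s with hG
  have hEd : ∀ j s, HasDerivAt (E j) (E j s * G j s) s := by
    intro j s
    have h1 : HasDerivAt (fun s => ∑ i ∈ R, a i j * rp (C i) (l i) (α i) (β i) (m i) (γ i) (q i) s)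
        (∑ i ∈ R, a i j * rp1 (C i) (l i) (α i) (β i) (m i) (γ i) (q i) s) s :=
      HasDerivAt.fun_sum fun i _ => (rp_deriv _ _ _ _ _ _ _ s).const_mul (a i j)
    have h2 := ((h1.sub_const (k j)).const_mul η).exp
    exact h2
  have hGd : ∀ j, HasDerivAt (G j) (η * ∑ i ∈ R, a i j * (C i * exp (4 * l i ^ 2 * m i) *
          ((l i ^ 2 * β i ^ 2 - 8 * l i ^ 2 * q i + 64 * l i ^ 4 * γ i ^ 2)
        * cosh (l i * α i) - 16 * l i ^ 3 * β i * γ i * sinh (l i * α i)))) 0 := by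
    intro j
    exact (HasDerivAt.fun_sum fun i _ => (rp1_deriv _ _ _ _ _ _ _).const_mul (a i j)).const_mul η
  have hlast : ∀ s, HasDerivAt (fun s : ℝ => A - 2 * s * B - s ^ 2 * Q) (-(2 * B) - 2 * s * Q) s := by
    intro s
    have e1 : HasDerivAt (fun s : ℝ => 2 * s * B) (2 * B) s := by
      have := ((hasDerivAt_id s).const_mul 2).mul_const B
      simpa using this
    have e2 : HasDerivAt (fun s : ℝ => s ^ 2 * Q) (2 * s * Q) s := by
      have := ((hasDerivAt_id s).pow 2).mul_const Q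
      simpa using this
    exact (e1.const_sub A).fun_sub e2
  have hd : ∀ s, HasDerivAt (fun s : ℝ => ∑ j ∈ F, E j s + (A - 2 * s * B - s ^ 2 * Q))
      (∑ j ∈ F, E j s * G j s + (-(2 * B) - 2 * s * Q)) s := by
    intro s
    exact (HasDerivAt.fun_sum fun j _ => hEd j s).fun_add (hlast s)
  have hlast2 : HasDerivAt (fun s : ℝ => -(2 * B) - 2 * s * Q) (-(2 * Q)) 0 := by
    have e1 : HasDerivAt (fun s : ℝ => 2 * s * Q) (2 * Q) 0 := by
      have := ((hasDerivAt_id (0 : ℝ)).const_mul 2).mul_const Q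
      simpa using this
    exact (e1.const_sub (-(2 * B)))
  have hd2 := (HasDerivAt.fun_sum (u := F) fun j (_ : j ∈ F) => (hEd j 0).fun_mul (hGd j)).fun_add hlast2
  have key := second_order _ _ _ hd hd2 hmin
  refine key.trans (le_of_eq ?_)
  rw [← sub_eq_add_neg]
  congr 1
  refine Finset.sum_congr rfl fun j _ => ?_
  simp only [hE, hG]
  ring

end H167BJ
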