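import Pool.Agent.H167R2.FKComb

/-!
# The weighted statement
-/

namespace H167FK

open Finset Real

variable {I : Type*} [Fintype I] {n : ℕ}

theorem card_B_ge {M : ℕ} (hM : 2 ≤ M) (k : ℕ) (j : Fin n) (hj : j ∈ B n M (k + 1)) :
    (M : ℝ) ^ (k + 1) / 2 ≤ ((B n M k).card : ℝ) := by
  classical
  unfold B at hj
  rw [Finset.mem_filter] at hj
  have hj0 : (j : ℕ) ≠ 0 := by
    intro h
    have := hj.2
    rw [h] at this
    simp at this
  have hjM : M ^ (k + 1) ≤ j := by
    rw [← hj.2]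
    exact Nat.pow_log_le_self M hj0
  have hsub : Finset.Ico (M ^ k) (M ^ (k + 1)) ⊆ (B n M k).map Fin.valEmbedding := by
    intro i hi
    rw [Finset.mem_Ico] at hi
    rw [Finset.mem_map]
    have hin : i < n := by have := j.2; omega
    refine ⟨⟨i, hin⟩, ?_, rfl⟩
    unfold B
    rw [Finset.mem_filter]
    refine ⟨Finset.mem_univ _, ?_⟩
    exact Nat.log_eq_of_pow_le_of_lt_pow hi.1 hi.2
  have h1 := Finset.card_le_card hsub
  rw [Finset.card_map, Nat.card_Ico] at h1
  have h2 : (M : ℝ) ^ (k + 1) - (M : ℝ) ^ k ≤ ((B n M k).card : ℝ) := by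
    have h3 : M ^ (k + 1) ≤ (B n M k).card + M ^ k := by omega
    have h4 : ((M ^ (k + 1) : ℕ) : ℝ) ≤ (((B n M k).card + M ^ k : ℕ) : ℝ) := by
      exact_mod_cast h3
    push_cast at h4
    linarith
  have hMR : (2 : ℝ) ≤ M := by exact_mod_cast hM
  have h5 : (M : ℝ) ^ k ≤ (M : ℝ) ^ (k + 1) / 2 := by
    rw [pow_succ]
    have : (0 : ℝ) < (M : ℝ) ^ k := by positivity
    nlinarith
  linarith

/-- Weighted statement for sorted weights, with abstract parameters. -/
theorem weighted_aux (a : I → Fin n → ℝ) (hcol : ∀ j, ∑ i, a i j ^ 2 ≤ 1) (s : ℕ) (hs : 2 ≤ s)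
    (lam : ℝ) (hlam : 0 < lam) (hlam2 : 2 ≤ 80 * lam ^ 2) (ε : ℝ) (hε0 : 0 < ε) (hε1 : ε ≤ 1)
    (h1 : 16 ≤ ε * s) (h2 : 48 * (s : ℝ) ^ 8 * exp (-(80 * lam ^ 2)) ≤ ε)
    (p : Fin n → ℝ) (hp0 : ∀ j, 0 ≤ p j) (hp : Antitone p) :
    ∃ x : Fin n → ℝ, (∀ j, |x j| ≤ 1) ∧ (∀ i, |∑ j, a i j * x j| ≤ 4000 * lam) ∧
      ∑ j, (if |x j| < 1 then p j else 0) ≤ ε * ∑ j, p j := by
  classical
  set M : ℕ := s ^ 8 with hM
  have hM2 : 2 ≤ M := by
    calc 2 ≤ s := hs
      _ ≤ s ^ 8 := Nat.le_self_pow (by norm_num) s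
  choose X hX1 hX2 hX3 using block_k a hcol s hs lam hlam hlam2 ε h1 h2
  have hsR : (2 : ℝ) ≤ s := by exact_mod_cast hs
  let x : Fin n → ℝ := fun j => X (Nat.log M j) j
  have hxB : ∀ k, ∀ j ∈ B n M k, x j = X k j := by
    intro k j hj
    unfold B at hj
    rw [Finset.mem_filter] at hj
    simp only [x]
    rw [hj.2]
  have hmaps : ∀ j ∈ (Finset.univ : Finset (Fin n)), Nat.log M j ∈ Finset.range n := by
    intro j _
    rw [Finset.mem_range]
    exact lt_of_le_of_lt (Nat.log_le_self M j) j.2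
  have hfib : ∀ h : Fin n → ℝ, ∑ j, h j = ∑ k ∈ Finset.range n, ∑ j ∈ B n M k, h j := by
    intro h
    rw [← Finset.sum_fiberwise_of_maps_to hmaps]
    rfl
  refine ⟨x, fun j => hX1 _ j, ?_, ?_⟩
  · intro i
    rw [hfib]
    refine (Finset.abs_sum_le_sum_abs _ _).trans ?_
    have h3 : ∀ k ∈ Finset.range n, |∑ j ∈ B n M k, a i j * x j| ≤ 800 * lam *
        (if rt a M (s ^ 4) i k ≤ (s : ℝ) ^ 3 then min 1 (rt a M (s ^ 4) i k) else 0) := by
      intro k _
      have h4 : ∑ j ∈ B n M k, a i j * x j = ∑ j ∈ B n M k, a i j * X k j :=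
        Finset.sum_congr rfl fun j hj => by rw [hxB k j hj]
      rw [h4]
      exact hX2 k i
    refine (Finset.sum_le_sum h3).trans ?_
    rw [← Finset.mul_sum]
    have h5 := sum_le_five (s : ℝ) hsR (fun k => rt a M (s ^ 4) i k)
      (fun k => rt_nonneg _ _ _ _ _) (fun k => rt_succ a M s i k) n
    calc _ ≤ 800 * lam * 5 := mul_le_mul_of_nonneg_left h5 (by positivity)
      _ = 4000 * lam := by ring
  · -- weights
    have hzero : ∑ j ∈ B n M 0, (if |x j| < 1 then p j else 0) ≤ 0 := by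
      have h3 := hX3 0
      have h4 : ((B n M 0).filter (fun j => |X 0 j| < 1)).card = 0 := by
        have h5 : ((((B n M 0).filter (fun j => |X 0 j| < 1)).card : ℕ) : ℝ) < 1 := by
          refine lt_of_le_of_lt h3 ?_
          rw [pow_zero, one_mul]; linarith
        have h6 : ((B n M 0).filter (fun j => |X 0 j| < 1)).card < 1 := by exact_mod_cast h5
        omega
      rw [Finset.card_eq_zero] at h4
      apply le_of_eq
      refine Finset.sum_eq_zero fun j hj => ?_
      rw [hxB 0 j hj, if_neg]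
      intro h5
      have : j ∈ (B n M 0).filter (fun j => |X 0 j| < 1) := Finset.mem_filter.mpr ⟨hj, h5⟩
      rw [h4] at this
      exact absurd this (Finset.notMem_empty j)
    have hsucc : ∀ k, ∑ j ∈ B n M (k + 1), (if |x j| < 1 then p j else 0)
        ≤ ε * ∑ j ∈ B n M k, p j := by
      intro k
      set PB : ℝ := ∑ j ∈ B n M k, p j with hPB
      have hPB0 : 0 ≤ PB := Finset.sum_nonneg fun j _ => hp0 j
      have hMk : (0 : ℝ) < (M : ℝ) ^ (k + 1) := by
        have : (0 : ℝ) < M := by exact_mod_cast (by omega : 0 < M)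
        positivity
      have hpj : ∀ j ∈ B n M (k + 1), p j ≤ 2 / (M : ℝ) ^ (k + 1) * PB := by
        intro j hj
        have h3 := card_B_ge hM2 k j hj
        have h4 : ((B n M k).card : ℝ) * p j ≤ PB := by
          have h5 := Finset.card_nsmul_le_sum (B n M k) p (p j) (by
            intro i hi
            apply hp
            unfold B at hi hj
            rw [Finset.mem_filter] at hi hj
            have : Nat.log M i < Nat.log M j := by omega
            have h6 : (i : ℕ) < j := by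
              by_contra hcon
              push Not at hcon
              have := Nat.log_mono_right (b := M) hcon
              omega
            exact h6.le)
          rwa [nsmul_eq_mul] at h5
        have h5 : (M : ℝ) ^ (k + 1) / 2 * p j ≤ PB :=
          (mul_le_mul_of_nonneg_right h3 (hp0 j)).trans h4
        rw [div_mul_eq_mul_div, le_div_iff₀ hMk]
        linarith
      have h3 : ∑ j ∈ B n M (k + 1), (if |x j| < 1 then p j else 0)
          = ∑ j ∈ (B n M (k + 1)).filter (fun j => |X (k + 1) j| < 1), p j := by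
        rw [Finset.sum_filter]
        refine Finset.sum_congr rfl fun j hj => ?_
        rw [hxB (k + 1) j hj]
      rw [h3]
      have h4 : ∑ j ∈ (B n M (k + 1)).filter (fun j => |X (k + 1) j| < 1), p j
          ≤ (((B n M (k + 1)).filter (fun j => |X (k + 1) j| < 1)).card : ℝ)
            * (2 / (M : ℝ) ^ (k + 1) * PB) := by
        have := Finset.sum_le_card_nsmul
          ((B n M (k + 1)).filter (fun j => |X (k + 1) j| < 1)) p
          (2 / (M : ℝ) ^ (k + 1) * PB) (fun j hj => hpj j (Finset.mem_filter.mp hj).1)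
        rwa [nsmul_eq_mul] at this
      refine h4.trans ?_
      have h5 := hX3 (k + 1)
      calc _ ≤ ((M : ℝ) ^ (k + 1) * (ε / 2)) * (2 / (M : ℝ) ^ (k + 1) * PB) :=
            mul_le_mul_of_nonneg_right h5 (by positivity)
        _ = ε * PB := by field_simp
    rw [hfib, hfib p]
    cases n with
    | zero => simp
    | succ m =>
      rw [Finset.sum_range_succ', Finset.mul_sum]
      have h3 : ∑ k ∈ Finset.range m, ∑ j ∈ B (m + 1) M (k + 1), (if |x j| < 1 then p j else 0)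
          ≤ ∑ k ∈ Finset.range m, ε * ∑ j ∈ B (m + 1) M k, p j :=
        Finset.sum_le_sum fun k _ => hsucc k
      have h4 : 0 ≤ ε * ∑ j ∈ B (m + 1) M m, p j :=
        mul_nonneg hε0.le (Finset.sum_nonneg fun j _ => hp0 j)
      rw [Finset.sum_range_succ (fun k => ε * ∑ j ∈ B (m + 1) M k, p j)]
      linarith

/-- Existence of the parameters. -/
theorem exists_params (ε : ℝ) (hε0 : 0 < ε) (hε2 : ε ≤ 1 / 2) :
    ∃ (s : ℕ) (lam : ℝ), 2 ≤ s ∧ 0 < lam ∧ 2 ≤ 80 * lam ^ 2 ∧ 16 ≤ ε * s ∧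
      48 * (s : ℝ) ^ 8 * exp (-(80 * lam ^ 2)) ≤ ε ∧ 4000 * lam ≤ 3100 * Real.sqrt (log (1 / ε)) := by
  set s : ℕ := ⌈16 / ε⌉₊ with hs
  have hs1 : 16 / ε ≤ s := Nat.le_ceil _
  have hs2 : (s : ℝ) < 16 / ε + 1 := Nat.ceil_lt_add_one (by positivity)
  have hs3 : 16 ≤ ε * s := by
    rw [div_le_iff₀ hε0] at hs1; linarith
  have hs4 : (32 : ℝ) ≤ s := by
    refine le_trans ?_ hs1
    rw [le_div_iff₀ hε0]; linarith
  have hs5 : 2 ≤ s := by
    have : (2 : ℝ) ≤ s := by linarith
    exact_mod_cast this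
  have hs6 : (s : ℝ) ≤ 17 / ε := by
    refine hs2.le.trans ?_
    rw [div_add_one hε0.ne']
    apply div_le_div_of_nonneg_right _ hε0.le
    linarith
  set K : ℝ := 48 * (s : ℝ) ^ 8 / ε with hK
  have hsR0 : (0 : ℝ) < s := by linarith
  have hKpos : 0 < K := by positivity
  have hK8 : exp 2 ≤ K := by
    have h1 : exp 2 ≤ 9 := by
      have h2 : exp 2 = exp 1 * exp 1 := by rw [← exp_add]; norm_num
      have h3 := Real.exp_one_lt_d9
      have h4 : 0 < exp 1 := exp_pos 1
      rw [h2]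
      nlinarith
    refine h1.trans ?_
    rw [hK, le_div_iff₀ hε0]
    have h2 : (1 : ℝ) ≤ (s : ℝ) ^ 8 := one_le_pow₀ (by linarith)
    nlinarith
  set S : ℝ := log K with hS
  have hS2 : 2 ≤ S := by
    rw [hS, Real.le_log_iff_exp_le hKpos]; exact hK8
  have hexpS : exp (-S) = 1 / K := by
    rw [exp_neg, hS, exp_log hKpos, one_div]
  -- upper bound for S
  have hL0 : 0 < log (1 / ε) := by
    apply Real.log_pos
    rw [lt_div_iff₀ hε0]; linarith
  have hSL : S ≤ 48 * log (1 / ε) := by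
    have h1 : K ≤ (1 / ε) ^ 48 := by
      have h2 : (s : ℝ) ^ 8 ≤ (17 / ε) ^ 8 := by gcongr
      have h3 : (2 : ℝ) ≤ 1 / ε := by
        rw [le_div_iff₀ hε0]; linarith
      have h4 : (2 : ℝ) ^ 39 ≤ (1 / ε) ^ 39 := by gcongr
      calc K = 48 * (s : ℝ) ^ 8 * (1 / ε) := by rw [hK]; ring
        _ ≤ 48 * (17 / ε) ^ 8 * (1 / ε) := by gcongr
        _ = (48 * 17 ^ 8) * (1 / ε) ^ 9 := by ring
        _ ≤ (1 / ε) ^ 39 * (1 / ε) ^ 9 := by
            apply mul_le_mul_of_nonneg_right _ (by positivity)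
            refine le_trans ?_ h4
            norm_num
        _ = (1 / ε) ^ 48 := by ring
    have h5 := Real.log_le_log hKpos h1
    rw [Real.log_pow] at h5
    push_cast at h5
    exact h5
  set lam : ℝ := Real.sqrt (S / 80) with hlam
  have hlam2 : 80 * lam ^ 2 = S := by
    rw [hlam, Real.sq_sqrt (by linarith)]; ring
  have hlam0 : 0 < lam := Real.sqrt_pos.mpr (by linarith)
  refine ⟨s, lam, hs5, hlam0, by rw [hlam2]; exact hS2, hs3, ?_, ?_⟩
  · rw [hlam2, hexpS, hK]
    apply le_of_eq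
    field_simp
  · have h1 : (4000 * lam) ^ 2 ≤ (3100 * Real.sqrt (log (1 / ε))) ^ 2 := by
      rw [mul_pow, mul_pow, Real.sq_sqrt hL0.le]
      nlinarith
    exact le_of_pow_le_pow_left₀ two_ne_zero (by positivity) h1

/-- Weighted statement for arbitrary weights. -/
theorem weighted (a : I → Fin n → ℝ) (hcol : ∀ j, ∑ i, a i j ^ 2 ≤ 1) (ε : ℝ) (hε0 : 0 < ε)
    (hε2 : ε ≤ 1 / 2) (p : Fin n → ℝ) (hp0 : ∀ j, 0 ≤ p j) :
    ∃ x : Fin n → ℝ, (∀ j, |x j| ≤ 1) ∧
      (∀ i, |∑ j, a i j * x j| ≤ 3100 * Real.sqrt (log (1 / ε))) ∧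
      ∑ j, (if |x j| < 1 then p j else 0) ≤ ε * ∑ j, p j := by
  classical
  obtain ⟨s, lam, h1, h2, h3, h4, h5, h6⟩ := exists_params ε hε0 hε2
  -- sort the weights
  let σ : Equiv.Perm (Fin n) := Tuple.sort (fun j => -p j)
  have hσ : Antitone (p ∘ σ) := by
    have h7 : Monotone ((fun j => -p j) ∘ σ) := Tuple.monotone_sort _
    intro i j hij
    have := h7 hij
    simp only [Function.comp_apply] at this ⊢
    linarith
  obtain ⟨x, hx1, hx2, hx3⟩ := weighted_aux (fun i j => a i (σ j)) (fun j => hcol (σ j)) s h1 lam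
    h2 h3 ε hε0 (by linarith) h4 h5 (p ∘ σ) (fun j => hp0 _) hσ
  refine ⟨fun j => x (σ.symm j), fun j => hx1 _, ?_, ?_⟩
  · intro i
    have h7 : ∑ j, a i j * x (σ.symm j) = ∑ j, a i (σ j) * x j := by
      rw [← Equiv.sum_comp σ]
      refine Finset.sum_congr rfl fun j _ => ?_
      rw [Equiv.symm_apply_apply]
    rw [h7]
    exact (hx2 i).trans h6
  · have h7 : ∑ j, (if |x (σ.symm j)| < 1 then p j else 0)
        = ∑ j, (if |x j| < 1 then p (σ j) else 0) := by
      rw [← Equiv.sum_comp σ]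
      refine Finset.sum_congr rfl fun j _ => ?_
      rw [Equiv.symm_apply_apply]
    have h8 : ∑ j, (p ∘ σ) j = ∑ j, p j := by
      simp only [Function.comp_apply]
      exact Equiv.sum_comp σ p
    rw [h7]
    rw [h8] at hx3
    exact hx3

end H167FK
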