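import Pool.Agent.H167R2.BJBlock
import Pool.Agent.H167R2.FKWeight

/-!
# Combining the blocks for the dimension-free Beck–Fiala theorem
-/

namespace H167BJ

open Finset Real H167FK

/-- Contribution of a row in one block. -/
noncomputable def wt (s Λ t : ℝ) : ℝ := if t ≤ s ^ 3 then (if t ≤ 1 then t else Λ) else 0

theorem sum_w_le (s Λ : ℝ) (hs : 2 ≤ s) (hΛ : 1 ≤ Λ) (t : ℕ → ℝ) (h0 : ∀ k, 0 ≤ t k)
    (h : ∀ k, s * t k ≤ t (k + 1)) (j : ℕ) :
    ∀ m : ℕ, t m ≤ s ^ j → ∑ k ∈ range (m + 1), (if t k ≤ 1 then t k else Λ) ≤ j * Λ + 2 := by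
  induction j with
  | zero =>
    intro m hm
    rw [pow_zero] at hm
    have hmono : ∀ d : ℕ, ∀ k, k + d = m → t k ≤ 1 := by
      intro d
      induction d with
      | zero => intro k hk; rw [add_zero] at hk; rw [hk]; exact hm
      | succ d ih =>
        intro k hk
        have h1 := ih (k + 1) (by omega)
        have h2 := h k
        have h3 := h0 k
        nlinarith
    have h1 : ∑ k ∈ range (m + 1), (if t k ≤ 1 then t k else Λ) = ∑ k ∈ range (m + 1), t k := by
      refine Finset.sum_congr rfl fun k hk => ?_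
      rw [if_pos]
      rw [Finset.mem_range] at hk
      exact hmono (m - k) k (by omega)
    rw [h1]
    have h2 := sum_le_two s hs t h0 h m
    push_cast
    linarith
  | succ j ih =>
    intro m hm
    have hw : ∀ k, (if t k ≤ 1 then t k else Λ) ≤ Λ := by
      intro k
      split_ifs with h1
      · linarith
      · exact le_rfl
    cases m with
    | zero =>
      rw [Finset.sum_range_succ, Finset.sum_range_zero, zero_add]
      have h1 := hw 0
      push_cast
      have : (0 : ℝ) ≤ j := Nat.cast_nonneg j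
      nlinarith
    | succ m =>
      have h1 : t m ≤ s ^ j := by
        have h2 := h m
        have h3 : s * t m ≤ s * s ^ j := by
          calc s * t m ≤ t (m + 1) := h2
            _ ≤ s ^ (j + 1) := hm
            _ = s * s ^ j := by ring
        exact le_of_mul_le_mul_left h3 (by linarith)
      have h2 := ih m h1
      rw [Finset.sum_range_succ]
      have h3 := hw (m + 1)
      push_cast
      linarith

theorem sum_wt_le (s Λ : ℝ) (hs : 2 ≤ s) (hΛ : 1 ≤ Λ) (t : ℕ → ℝ) (h0 : ∀ k, 0 ≤ t k)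
    (h : ∀ k, s * t k ≤ t (k + 1)) (m : ℕ) : ∑ k ∈ range m, wt s Λ (t k) ≤ 3 * Λ + 2 := by
  induction m with
  | zero => simp; linarith
  | succ m ih =>
    by_cases hm : t m ≤ s ^ 3
    · have h1 : ∑ k ∈ range (m + 1), wt s Λ (t k)
          ≤ ∑ k ∈ range (m + 1), (if t k ≤ 1 then t k else Λ) := by
        refine Finset.sum_le_sum fun k _ => ?_
        unfold wt
        split_ifs
        · exact le_rfl
        · exact le_rfl
        · exact h0 k
        · linarith
      have h2 := sum_w_le s Λ hs hΛ t h0 h 3 m hm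
      push_cast at h2
      exact h1.trans h2
    · rw [Finset.sum_range_succ]
      have : wt s Λ (t m) = 0 := by unfold wt; rw [if_neg hm]
      rw [this, add_zero]
      exact ih

section Blocks

variable {I : Type*} [Fintype I] {n : ℕ}

/-- Discounted `ℓ₁` mass. -/
noncomputable def R (a : I → Fin n → ℝ) (M σ : ℕ) (i : I) (k : ℕ) : ℝ :=
  r (fun i j => Real.sqrt |a i j|) M σ i k

theorem sqrt_abs_sq (x : ℝ) : Real.sqrt |x| ^ 2 = |x| := Real.sq_sqrt (abs_nonneg x)

theorem block_le_R (a : I → Fin n → ℝ) (M σ : ℕ) (i : I) (k : ℕ) :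
    ∑ j ∈ B n M k, |a i j| ≤ R a M σ i k := by
  have h := block_le_r (fun i j => Real.sqrt |a i j|) M σ i k
  simp only [sqrt_abs_sq] at h
  exact h

theorem sum_R_le (a : I → Fin n → ℝ) (t : ℝ) (ht : 0 ≤ t) (hcol : ∀ j, ∑ i, |a i j| ≤ t)
    (M σ : ℕ) (hM : 2 ≤ M) (hσ : 2 * σ ≤ M) (k : ℕ) :
    ∑ i, R a M σ i k ≤ t * (2 * (M : ℝ) ^ (k + 1)) := by
  unfold R r
  rw [Finset.sum_comm]
  refine le_trans ?_ (mul_le_mul_of_nonneg_left (count_le n M σ hM hσ k) ht)
  rw [Finset.mul_sum]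
  refine Finset.sum_le_sum fun j _ => ?_
  by_cases h : Nat.log M j ≤ k
  · simp only [h, if_true, sqrt_abs_sq]
    rw [← Finset.mul_sum, mul_comm]
    exact mul_le_mul_of_nonneg_right (hcol j) (by positivity)
  · simp [h]

/-- One block. -/
theorem block_k (a : I → Fin n → ℝ) (ha1 : ∀ i j, |a i j| ≤ 1) (t : ℝ) (ht : 1 ≤ t)
    (hcol : ∀ j, ∑ i, |a i j| ≤ t) (σ : ℕ) (hσ : 2 ≤ σ)
    (c0 : ℝ) (hc0 : 80 * Real.sqrt t ≤ c0) (ε : ℝ) (h1 : 80 * t ≤ ε * σ)
    (h2 : 8 * ((σ ^ 2 : ℕ) : ℝ) * exp (-(c0 / 100)) ≤ ε) (k : ℕ) :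
    ∃ x : Fin n → ℝ, (∀ j, |x j| ≤ 1) ∧
      (∀ i, |∑ j ∈ B n (σ ^ 2) k, a i j * x j| ≤
        wt σ (80 * Real.sqrt t + 2 * c0) (R a (σ ^ 2) σ i k)) ∧
      (((B n (σ ^ 2) k).filter (fun j => |x j| < 1)).card : ℝ)
        ≤ ((σ ^ 2 : ℕ) : ℝ) ^ k * (ε / 2) := by
  classical
  set M : ℕ := σ ^ 2 with hM
  have hM2σ : 2 * σ ≤ M := by
    rw [hM, pow_two]
    exact Nat.mul_le_mul_right _ hσ
  have hM2 : 2 ≤ M := by omega
  have hMR : (M : ℝ) = (σ : ℝ) ^ 2 := by rw [hM]; push_cast; ring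
  have hσR : (2 : ℝ) ≤ σ := by exact_mod_cast hσ
  have ht0 : 0 < t := by linarith
  have hs1 : 1 ≤ Real.sqrt t := Real.one_le_sqrt.mpr ht
  have hR0 : ∀ i, 0 ≤ R a M σ i k := fun i => r_nonneg _ _ _ _ _
  let P : Sys I (B n M k) :=
    { a := fun i j => a i j
      I0 := Finset.univ.filter (fun i => (σ : ℝ) ^ 3 < R a M σ i k)
      I1 := Finset.univ.filter (fun i => R a M σ i k ≤ (σ : ℝ) ^ 3)
      t := t
      c0 := c0
      ht := ht
      hc0 := hc0
      a1 := fun i j => ha1 i j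
      col := fun j => hcol j }
  obtain ⟨x, hx1, hx0, hxI1, hxal⟩ := P.block
  let X : Fin n → ℝ := fun j => if h : j ∈ B n M k then x ⟨j, h⟩ else 1
  have hXsum : ∀ i, ∑ j ∈ B n M k, a i j * X j = ∑ j : B n M k, a i j * x j := by
    intro i
    rw [← Finset.sum_coe_sort (B n M k) (fun j => a i j * X j)]
    refine Finset.sum_congr rfl fun j _ => ?_
    simp [X, j.2]
  have hXabs : ∀ j, |X j| ≤ 1 := by
    intro j
    by_cases h : j ∈ B n M k
    · simp only [X, h, dif_pos]; exact hx1 _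
    · simp [X, h]
  refine ⟨X, hXabs, ?_, ?_⟩
  · intro i
    unfold wt
    by_cases h : R a M σ i k ≤ (σ : ℝ) ^ 3
    · rw [if_pos h]
      by_cases h3 : R a M σ i k ≤ 1
      · rw [if_pos h3]
        refine le_trans ?_ (block_le_R a M σ i k)
        refine (Finset.abs_sum_le_sum_abs _ _).trans (Finset.sum_le_sum fun j _ => ?_)
        rw [abs_mul]
        have := hXabs j
        have := abs_nonneg (a i j)
        nlinarith
      · rw [if_neg h3, hXsum]
        exact hxI1 i (Finset.mem_filter.mpr ⟨Finset.mem_univ i, h⟩)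
    · rw [if_neg h, hXsum]
      push Not at h
      have h7 : ∑ j : B n M k, a i j * x j = 0 :=
        hx0 i (Finset.mem_filter.mpr ⟨Finset.mem_univ i, h⟩)
      rw [h7]; simp
  · -- counting
    have hcard : ((B n M k).filter (fun j => |X j| < 1)).card = (H167FK.Sys.alive x).card := by
      rw [← Finset.card_map (Function.Embedding.subtype (fun j => j ∈ B n M k))]
      congr 1
      ext j
      simp only [Finset.mem_filter, Finset.mem_map, H167FK.Sys.alive, Finset.mem_univ, true_and,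
        Function.Embedding.coe_subtype]
      constructor
      · rintro ⟨hj, hj2⟩
        refine ⟨⟨j, hj⟩, ?_, rfl⟩
        simpa [X, hj] using hj2
      · rintro ⟨⟨j', hj'⟩, hj2, rfl⟩
        refine ⟨hj', ?_⟩
        simpa [X, hj'] using hj2
    rw [hcard]
    refine hxal.trans ?_
    have hrsum := sum_R_le a t ht0.le hcol M σ hM2 hM2σ k
    have hcardB : ((Fintype.card (B n M k) : ℕ) : ℝ) ≤ (M : ℝ) ^ (k + 1) := by
      rw [Fintype.card_coe]
      exact_mod_cast card_B_le (n := n) M k hM2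
    have hI0 : (P.I0.card : ℝ) * (σ : ℝ) ^ 3 ≤ t * (2 * (M : ℝ) ^ (k + 1)) := by
      have h3 := Finset.card_nsmul_le_sum P.I0 (fun i => R a M σ i k) ((σ : ℝ) ^ 3) (by
        intro i hi
        exact (Finset.mem_filter.mp hi).2.le)
      rw [nsmul_eq_mul] at h3
      refine h3.trans (le_trans ?_ hrsum)
      exact Finset.sum_le_sum_of_subset_of_nonneg (Finset.subset_univ _)
        (fun i _ _ => hR0 i)
    have hMk : (0 : ℝ) < (M : ℝ) ^ k := by
      have : (0 : ℝ) < M := by exact_mod_cast (by omega : 0 < M)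
      positivity
    have hMk1 : (M : ℝ) ^ (k + 1) = (M : ℝ) ^ k * (σ : ℝ) ^ 2 := by rw [pow_succ, hMR]
    have hσ0 : (0 : ℝ) < σ := by linarith
    have hI0' : 10 * (P.I0.card : ℝ) ≤ (M : ℝ) ^ k * (ε / 4) := by
      rw [hMk1] at hI0
      have h3 : (10 * (P.I0.card : ℝ)) * (σ : ℝ) ^ 3 ≤ ((M : ℝ) ^ k * (ε / 4)) * (σ : ℝ) ^ 3 := by
        have h4 : 0 < (M : ℝ) ^ k * (σ : ℝ) ^ 2 := by positivity
        calc (10 * (P.I0.card : ℝ)) * (σ : ℝ) ^ 3 = 10 * ((P.I0.card : ℝ) * (σ : ℝ) ^ 3) := by ring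
          _ ≤ 10 * (t * (2 * ((M : ℝ) ^ k * (σ : ℝ) ^ 2))) :=
              mul_le_mul_of_nonneg_left hI0 (by norm_num)
          _ = ((M : ℝ) ^ k * (σ : ℝ) ^ 2) * (80 * t / 4) := by ring
          _ ≤ ((M : ℝ) ^ k * (σ : ℝ) ^ 2) * (ε * σ / 4) := by
              apply mul_le_mul_of_nonneg_left _ h4.le
              linarith
          _ = _ := by ring
      exact le_of_mul_le_mul_right h3 (by positivity)
    have hlast : 2 * (Fintype.card (B n M k) : ℝ) * exp (-(P.c0 / 100))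
        ≤ (M : ℝ) ^ k * (ε / 4) := by
      have hexp : 0 < exp (-(c0 / 100)) := exp_pos _
      calc 2 * (Fintype.card (B n M k) : ℝ) * exp (-(P.c0 / 100))
          ≤ 2 * (M : ℝ) ^ (k + 1) * exp (-(c0 / 100)) := by
            apply mul_le_mul_of_nonneg_right _ hexp.le
            linarith
        _ = (M : ℝ) ^ k * ((8 * (M : ℝ) * exp (-(c0 / 100))) / 4) := by rw [pow_succ]; ring
        _ ≤ (M : ℝ) ^ k * (ε / 4) := by
            apply mul_le_mul_of_nonneg_left _ hMk.le
            linarith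
    linarith

/-- Weighted statement for sorted weights, with abstract parameters. -/
theorem weighted_aux (a : I → Fin n → ℝ) (ha1 : ∀ i j, |a i j| ≤ 1) (t : ℝ) (ht : 1 ≤ t)
    (hcol : ∀ j, ∑ i, |a i j| ≤ t) (σ : ℕ) (hσ : 2 ≤ σ)
    (c0 : ℝ) (hc0 : 80 * Real.sqrt t ≤ c0) (ε : ℝ) (hε0 : 0 < ε) (hε1 : ε ≤ 1)
    (h1 : 80 * t ≤ ε * σ) (h2 : 8 * ((σ ^ 2 : ℕ) : ℝ) * exp (-(c0 / 100)) ≤ ε)
    (p : Fin n → ℝ) (hp0 : ∀ j, 0 ≤ p j) (hp : Antitone p) :
    ∃ x : Fin n → ℝ, (∀ j, |x j| ≤ 1) ∧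
      (∀ i, |∑ j, a i j * x j| ≤ 3 * (80 * Real.sqrt t + 2 * c0) + 2) ∧
      ∑ j, (if |x j| < 1 then p j else 0) ≤ ε * ∑ j, p j := by
  classical
  set M : ℕ := σ ^ 2 with hM
  have hM2 : 2 ≤ M := by
    rw [hM, pow_two]; nlinarith
  choose X hX1 hX2 hX3 using block_k a ha1 t ht hcol σ hσ c0 hc0 ε h1 h2
  have hσR : (2 : ℝ) ≤ σ := by exact_mod_cast hσ
  have hs1 : 1 ≤ Real.sqrt t := Real.one_le_sqrt.mpr ht
  let x : Fin n → ℝ := fun j => X (Nat.log M j) j
  have hxB : ∀ k, ∀ j ∈ B n M k, x j = X k j := by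
    intro k j hj
    unfold B at hj
    rw [Finset.mem_filter] at hj
    simp only [x]
    rw [hj.2]
  have hmaps : ∀ j ∈ (Finset.univ : Finset (Fin n)), Nat.log M j ∈ Finset.range n := by
    intro j _
    rw [Finset.mem_range]
    exact lt_of_le_of_lt (Nat.log_le_self M j) j.2
  have hfib : ∀ h : Fin n → ℝ, ∑ j, h j = ∑ k ∈ Finset.range n, ∑ j ∈ B n M k, h j := by
    intro h
    rw [← Finset.sum_fiberwise_of_maps_to hmaps]
    rfl
  refine ⟨x, fun j => hX1 _ j, ?_, ?_⟩
  · intro i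
    rw [hfib]
    refine (Finset.abs_sum_le_sum_abs _ _).trans ?_
    have h3 : ∀ k ∈ Finset.range n, |∑ j ∈ B n M k, a i j * x j| ≤
        wt σ (80 * Real.sqrt t + 2 * c0) (R a M σ i k) := by
      intro k _
      have h4 : ∑ j ∈ B n M k, a i j * x j = ∑ j ∈ B n M k, a i j * X k j :=
        Finset.sum_congr rfl fun j hj => by rw [hxB k j hj]
      rw [h4]
      exact hX2 k i
    refine (Finset.sum_le_sum h3).trans ?_
    exact sum_wt_le (σ : ℝ) _ hσR (by linarith) (fun k => R a M σ i k)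
      (fun k => r_nonneg _ _ _ _ _) (fun k => r_succ _ M σ i k) n
  · -- weights
    have hzero : ∑ j ∈ B n M 0, (if |x j| < 1 then p j else 0) ≤ 0 := by
      have h3 := hX3 0
      have h4 : ((B n M 0).filter (fun j => |X 0 j| < 1)).card = 0 := by
        have h5 : ((((B n M 0).filter (fun j => |X 0 j| < 1)).card : ℕ) : ℝ) < 1 := by
          refine lt_of_le_of_lt h3 ?_
          rw [pow_zero, one_mul]; linarith
        have h6 : ((B n M 0).filter (fun j => |X 0 j| < 1)).card < 1 := by exact_mod_cast h5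
        omega
      rw [Finset.card_eq_zero] at h4
      apply le_of_eq
      refine Finset.sum_eq_zero fun j hj => ?_
      rw [hxB 0 j hj, if_neg]
      intro h5
      have : j ∈ (B n M 0).filter (fun j => |X 0 j| < 1) := Finset.mem_filter.mpr ⟨hj, h5⟩
      rw [h4] at this
      exact absurd this (Finset.notMem_empty j)
    have hsucc : ∀ k, ∑ j ∈ B n M (k + 1), (if |x j| < 1 then p j else 0)
        ≤ ε * ∑ j ∈ B n M k, p j := by
      intro k
      set PB : ℝ := ∑ j ∈ B n M k, p j with hPB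
      have hPB0 : 0 ≤ PB := Finset.sum_nonneg fun j _ => hp0 j
      have hMk : (0 : ℝ) < (M : ℝ) ^ (k + 1) := by
        have : (0 : ℝ) < M := by exact_mod_cast (by omega : 0 < M)
        positivity
      have hpj : ∀ j ∈ B n M (k + 1), p j ≤ 2 / (M : ℝ) ^ (k + 1) * PB := by
        intro j hj
        have h3 := card_B_ge hM2 k j hj
        have h4 : ((B n M k).card : ℝ) * p j ≤ PB := by
          have h5 := Finset.card_nsmul_le_sum (B n M k) p (p j) (by
            intro i hi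
            apply hp
            unfold B at hi hj
            rw [Finset.mem_filter] at hi hj
            have : Nat.log M i < Nat.log M j := by omega
            have h6 : (i : ℕ) < j := by
              by_contra hcon
              push Not at hcon
              have := Nat.log_mono_right (b := M) hcon
              omega
            exact h6.le)
          rwa [nsmul_eq_mul] at h5
        have h5 : (M : ℝ) ^ (k + 1) / 2 * p j ≤ PB :=
          (mul_le_mul_of_nonneg_right h3 (hp0 j)).trans h4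
        rw [div_mul_eq_mul_div, le_div_iff₀ hMk]
        linarith
      have h3 : ∑ j ∈ B n M (k + 1), (if |x j| < 1 then p j else 0)
          = ∑ j ∈ (B n M (k + 1)).filter (fun j => |X (k + 1) j| < 1), p j := by
        rw [Finset.sum_filter]
        refine Finset.sum_congr rfl fun j hj => ?_
        rw [hxB (k + 1) j hj]
      rw [h3]
      have h4 : ∑ j ∈ (B n M (k + 1)).filter (fun j => |X (k + 1) j| < 1), p j
          ≤ (((B n M (k + 1)).filter (fun j => |X (k + 1) j| < 1)).card : ℝ)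
            * (2 / (M : ℝ) ^ (k + 1) * PB) := by
        have := Finset.sum_le_card_nsmul
          ((B n M (k + 1)).filter (fun j => |X (k + 1) j| < 1)) p
          (2 / (M : ℝ) ^ (k + 1) * PB) (fun j hj => hpj j (Finset.mem_filter.mp hj).1)
        rwa [nsmul_eq_mul] at this
      refine h4.trans ?_
      have h5 := hX3 (k + 1)
      calc _ ≤ ((M : ℝ) ^ (k + 1) * (ε / 2)) * (2 / (M : ℝ) ^ (k + 1) * PB) :=
            mul_le_mul_of_nonneg_right h5 (by positivity)
        _ = ε * PB := by field_simp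
    rw [hfib, hfib p]
    cases n with
    | zero => simp
    | succ m =>
      rw [Finset.sum_range_succ', Finset.mul_sum]
      have h3 : ∑ k ∈ Finset.range m, ∑ j ∈ B (m + 1) M (k + 1), (if |x j| < 1 then p j else 0)
          ≤ ∑ k ∈ Finset.range m, ε * ∑ j ∈ B (m + 1) M k, p j :=
        Finset.sum_le_sum fun k _ => hsucc k
      have h4 : 0 ≤ ε * ∑ j ∈ B (m + 1) M m, p j :=
        mul_nonneg hε0.le (Finset.sum_nonneg fun j _ => hp0 j)
      rw [Finset.sum_range_succ (fun k => ε * ∑ j ∈ B (m + 1) M k, p j)]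
      linarith

end Blocks

/-- Existence of the parameters. -/
theorem exists_params (t : ℝ) (ht : 1 ≤ t) (ε : ℝ) (hε0 : 0 < ε) (hε2 : ε ≤ 1 / 2) :
    ∃ (σ : ℕ) (c0 : ℝ), 2 ≤ σ ∧ 80 * Real.sqrt t ≤ c0 ∧ 80 * t ≤ ε * σ ∧
      8 * ((σ ^ 2 : ℕ) : ℝ) * exp (-(c0 / 100)) ≤ ε ∧
      3 * (80 * Real.sqrt t + 2 * c0) + 2 ≤ 7400 * Real.sqrt t + 1800 * log (1 / ε) := by
  set σ : ℕ := ⌈80 * t / ε⌉₊ with hσ
  have hs1 : 1 ≤ Real.sqrt t := Real.one_le_sqrt.mpr ht
  have hs2 : Real.sqrt t ^ 2 = t := Real.sq_sqrt (by linarith)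
  have ht0 : 0 < t := by linarith
  have hσ1 : 80 * t / ε ≤ σ := Nat.le_ceil _
  have hσ2 : (σ : ℝ) < 80 * t / ε + 1 := Nat.ceil_lt_add_one (by positivity)
  have hσ3 : 80 * t ≤ ε * σ := by
    rw [div_le_iff₀ hε0] at hσ1; linarith
  have hσ4 : (160 : ℝ) ≤ σ := by
    refine le_trans ?_ hσ1
    rw [le_div_iff₀ hε0]; nlinarith
  have hσ5 : 2 ≤ σ := by
    have : (2 : ℝ) ≤ σ := by linarith
    exact_mod_cast this
  have hσ6 : (σ : ℝ) ≤ 81 * t / ε := by
    refine hσ2.le.trans ?_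
    rw [div_add_one hε0.ne']
    apply div_le_div_of_nonneg_right _ hε0.le
    linarith
  have hσ0 : (0 : ℝ) < σ := by linarith
  set K : ℝ := 8 * (σ : ℝ) ^ 2 / ε with hK
  have hKpos : 0 < K := by positivity
  set L : ℝ := log (1 / ε) with hL
  have hL0 : 0 < L := by
    apply Real.log_pos
    rw [lt_div_iff₀ hε0]; linarith
  have hKlog : log K ≤ 11 + 2 * log t + 3 * L := by
    have h1 : K ≤ 52488 * t ^ 2 * (1 / ε) ^ 3 := by
      have h2 : (σ : ℝ) ^ 2 ≤ (81 * t / ε) ^ 2 := by gcongr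
      calc K = 8 * (σ : ℝ) ^ 2 * (1 / ε) := by rw [hK]; ring
        _ ≤ 8 * (81 * t / ε) ^ 2 * (1 / ε) := by gcongr
        _ = _ := by ring
    have h2 := Real.log_le_log hKpos h1
    rw [Real.log_mul (by positivity) (by positivity), Real.log_mul (by norm_num) (by positivity),
      Real.log_pow, Real.log_pow] at h2
    have h3 : log (52488 : ℝ) ≤ 11 := by
      rw [Real.log_le_iff_le_exp (by norm_num)]
      have h1 : exp 11 = exp 1 ^ 11 := by rw [← exp_nat_mul]; norm_num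
      rw [h1]
      have h2 := Real.exp_one_gt_d9
      have h3 : (2.718 : ℝ) ^ 11 ≤ exp 1 ^ 11 := by
        apply pow_le_pow_left₀ (by norm_num); linarith
      refine le_trans ?_ h3
      norm_num
    push_cast at h2
    linarith
  have hlogt : log t ≤ 2 * Real.sqrt t - 2 := by
    have h1 : log t = 2 * log (Real.sqrt t) := by
      rw [← hs2, Real.log_pow, hs2]; push_cast; ring
    have h2 := Real.log_le_sub_one_of_pos (show 0 < Real.sqrt t by linarith)
    linarith
  refine ⟨σ, 80 * Real.sqrt t + 100 * log K, hσ5, ?_, hσ3, ?_, ?_⟩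
  · have : 0 ≤ log K := by
      apply Real.log_nonneg
      rw [hK, le_div_iff₀ hε0]
      nlinarith
    linarith
  · have h1 : exp (-((80 * Real.sqrt t + 100 * log K) / 100)) ≤ 1 / K := by
      rw [one_div, ← Real.exp_log hKpos, ← exp_neg]
      apply exp_le_exp.mpr
      rw [Real.exp_log hKpos]
      linarith
    have h2 : (((σ ^ 2 : ℕ) : ℝ)) = (σ : ℝ) ^ 2 := by push_cast; ring
    rw [h2]
    calc 8 * (σ : ℝ) ^ 2 * exp (-((80 * Real.sqrt t + 100 * log K) / 100))
        ≤ 8 * (σ : ℝ) ^ 2 * (1 / K) := mul_le_mul_of_nonneg_left h1 (by positivity)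
      _ = ε := by rw [hK]; field_simp
  · linarith

variable {I : Type*} [Fintype I] {n : ℕ}

/-- Weighted statement for arbitrary weights. -/
theorem weighted (a : I → Fin n → ℝ) (ha1 : ∀ i j, |a i j| ≤ 1) (t : ℝ) (ht : 1 ≤ t)
    (hcol : ∀ j, ∑ i, |a i j| ≤ t) (ε : ℝ) (hε0 : 0 < ε)
    (hε2 : ε ≤ 1 / 2) (p : Fin n → ℝ) (hp0 : ∀ j, 0 ≤ p j) :
    ∃ x : Fin n → ℝ, (∀ j, |x j| ≤ 1) ∧
      (∀ i, |∑ j, a i j * x j| ≤ 7400 * Real.sqrt t + 1800 * log (1 / ε)) ∧
      ∑ j, (if |x j| < 1 then p j else 0) ≤ ε * ∑ j, p j := by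
  classical
  obtain ⟨s, c0, h1, h2, h3, h4, h5⟩ := exists_params t ht ε hε0 hε2
  -- sort the weights
  let σ : Equiv.Perm (Fin n) := Tuple.sort (fun j => -p j)
  have hσ : Antitone (p ∘ σ) := by
    have h7 : Monotone ((fun j => -p j) ∘ σ) := Tuple.monotone_sort _
    intro i j hij
    have := h7 hij
    simp only [Function.comp_apply] at this ⊢
    linarith
  obtain ⟨x, hx1, hx2, hx3⟩ := weighted_aux (fun i j => a i (σ j)) (fun i j => ha1 i (σ j)) t ht
    (fun j => hcol (σ j)) s h1 c0 h2 ε hε0 (by linarith) h3 h4 (p ∘ σ) (fun j => hp0 _) hσ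
  refine ⟨fun j => x (σ.symm j), fun j => hx1 _, ?_, ?_⟩
  · intro i
    have h7 : ∑ j, a i j * x (σ.symm j) = ∑ j, a i (σ j) * x j := by
      rw [← Equiv.sum_comp σ]
      refine Finset.sum_congr rfl fun j _ => ?_
      rw [Equiv.symm_apply_apply]
    rw [h7]
    exact (hx2 i).trans h5
  · have h7 : ∑ j, (if |x (σ.symm j)| < 1 then p j else 0)
        = ∑ j, (if |x j| < 1 then p (σ j) else 0) := by
      rw [← Equiv.sum_comp σ]
      refine Finset.sum_congr rfl fun j _ => ?_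
      rw [Equiv.symm_apply_apply]
    have h8 : ∑ j, (p ∘ σ) j = ∑ j, p j := by
      simp only [Function.comp_apply]
      exact Equiv.sum_comp σ p
    rw [h7]
    rw [h8] at hx3
    exact hx3

end H167BJ
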