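import Mathlib

/-!
# Analytic inequalities for the fractional Komlós theorem
-/

namespace H167FK

open Real

/-- The averaged hyperbolic inequality. -/
theorem cosh_avg (a b c : ℝ) :
    (cosh (a + b) * exp (-c) + cosh (a - b) * exp c) / 2 ≤ cosh a * exp (b ^ 2 + c ^ 2) := by
  have h1 : cosh (a + b) = cosh a * cosh b + sinh a * sinh b := cosh_add a b
  have h2 : cosh (a - b) = cosh a * cosh b - sinh a * sinh b := cosh_sub a b
  have h3 : (cosh (a + b) * exp (-c) + cosh (a - b) * exp c) / 2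
      = cosh a * cosh b * cosh c - sinh a * sinh b * sinh c := by
    rw [h1, h2, cosh_eq c, sinh_eq c]; ring
  have h4 : |sinh a| ≤ cosh a := by
    rw [abs_le]
    constructor
    · have := cosh_add_sinh a
      have := exp_pos a
      linarith
    · exact (sinh_lt_cosh a).le
  have h5 : -(sinh a * sinh b * sinh c) ≤ cosh a * (|sinh b| * |sinh c|) := by
    calc -(sinh a * sinh b * sinh c) ≤ |sinh a * sinh b * sinh c| := neg_le_abs _
      _ = |sinh a| * (|sinh b| * |sinh c|) := by rw [abs_mul, abs_mul]; ring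
      _ ≤ cosh a * (|sinh b| * |sinh c|) := by
          apply mul_le_mul_of_nonneg_right h4 (by positivity)
  have h6 : cosh b * cosh c + |sinh b| * |sinh c| = cosh (|b| + |c|) := by
    rw [cosh_add, cosh_abs, cosh_abs, abs_sinh, abs_sinh]
  have h7 : cosh (|b| + |c|) ≤ exp (b ^ 2 + c ^ 2) := by
    refine (cosh_le_exp_half_sq _).trans (exp_le_exp.mpr ?_)
    have := sq_nonneg (|b| - |c|)
    have hb : |b| ^ 2 = b ^ 2 := sq_abs b
    have hc : |c| ^ 2 = c ^ 2 := sq_abs c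
    nlinarith
  have hcosh : 0 < cosh a := cosh_pos a
  calc (cosh (a + b) * exp (-c) + cosh (a - b) * exp c) / 2
      = cosh a * cosh b * cosh c - sinh a * sinh b * sinh c := h3
    _ ≤ cosh a * cosh b * cosh c + cosh a * (|sinh b| * |sinh c|) := by linarith
    _ = cosh a * cosh (|b| + |c|) := by rw [← h6]; ring
    _ ≤ cosh a * exp (b ^ 2 + c ^ 2) := mul_le_mul_of_nonneg_left h7 hcosh.le

/-- Potential of one row: averaging over `±t`. Here `α = ⟨s, y⟩`, `β = ⟨s, u⟩`,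
`m = Σ s²(1-y²)`, `γ = Σ s² y u`, `q = Σ s² u²`. -/
theorem row_avg (l t α β m γ q : ℝ) :
    (cosh (l * (α + t * β)) * exp (4 * l ^ 2 * (m - 2 * t * γ - t ^ 2 * q))
      + cosh (l * (α - t * β)) * exp (4 * l ^ 2 * (m + 2 * t * γ - t ^ 2 * q))) / 2
      ≤ cosh (l * α) * exp (4 * l ^ 2 * m) *
        exp (t ^ 2 * (l ^ 2 * β ^ 2 + 64 * l ^ 4 * γ ^ 2 - 4 * l ^ 2 * q)) := by
  have h := cosh_avg (l * α) (l * t * β) (8 * l ^ 2 * t * γ)
  have e1 : exp (4 * l ^ 2 * (m - 2 * t * γ - t ^ 2 * q))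
      = exp (4 * l ^ 2 * m - 4 * l ^ 2 * t ^ 2 * q) * exp (-(8 * l ^ 2 * t * γ)) := by
    rw [← exp_add]; ring_nf
  have e2 : exp (4 * l ^ 2 * (m + 2 * t * γ - t ^ 2 * q))
      = exp (4 * l ^ 2 * m - 4 * l ^ 2 * t ^ 2 * q) * exp (8 * l ^ 2 * t * γ) := by
    rw [← exp_add]; ring_nf
  have e3 : exp (4 * l ^ 2 * m) *
        exp (t ^ 2 * (l ^ 2 * β ^ 2 + 64 * l ^ 4 * γ ^ 2 - 4 * l ^ 2 * q))
      = exp (4 * l ^ 2 * m - 4 * l ^ 2 * t ^ 2 * q) *
        exp ((l * t * β) ^ 2 + (8 * l ^ 2 * t * γ) ^ 2) := by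
    rw [← exp_add, ← exp_add]; ring_nf
  rw [mul_assoc (cosh (l * α)), e3, e1, e2]
  have hp : 0 < exp (4 * l ^ 2 * m - 4 * l ^ 2 * t ^ 2 * q) := exp_pos _
  have e4 : l * (α + t * β) = l * α + l * t * β := by ring
  have e5 : l * (α - t * β) = l * α - l * t * β := by ring
  rw [e4, e5]
  calc _ = exp (4 * l ^ 2 * m - 4 * l ^ 2 * t ^ 2 * q) *
        ((cosh (l * α + l * t * β) * exp (-(8 * l ^ 2 * t * γ))
          + cosh (l * α - l * t * β) * exp (8 * l ^ 2 * t * γ)) / 2) := by ring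
    _ ≤ exp (4 * l ^ 2 * m - 4 * l ^ 2 * t ^ 2 * q) *
        (cosh (l * α) * exp ((l * t * β) ^ 2 + (8 * l ^ 2 * t * γ) ^ 2)) :=
          mul_le_mul_of_nonneg_left h hp.le
    _ = _ := by ring

/-- For small `t` the sum `Σ w_i exp(t² z_i) - c t²` is strictly below `Σ w_i` when
`Σ w_i z_i < c`. Here: existence of a positive radius. -/
theorem sum_exp_lt {ι : Type*} (S : Finset ι) (w z : ι → ℝ) (hw : ∀ i ∈ S, 0 ≤ w i) (c : ℝ)
    (hc : ∑ i ∈ S, w i * z i < c) :
    ∃ r : ℝ, 0 < r ∧ ∀ t : ℝ, 0 < t → t ≤ r →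
      ∑ i ∈ S, w i * exp (t ^ 2 * z i) - c * t ^ 2 < ∑ i ∈ S, w i := by
  set Z : ℝ := ∑ i ∈ S, w i * z i ^ 2 with hZ
  have hZ0 : 0 ≤ Z := Finset.sum_nonneg fun i hi => mul_nonneg (hw i hi) (sq_nonneg _)
  set B : ℝ := 1 + ∑ i ∈ S, |z i| with hB
  have hB1 : 1 ≤ B := by
    have : 0 ≤ ∑ i ∈ S, |z i| := Finset.sum_nonneg fun i _ => abs_nonneg _
    linarith
  have hzB : ∀ i ∈ S, |z i| ≤ B := by
    intro i hi
    have := Finset.single_le_sum (f := fun i => |z i|) (fun i _ => abs_nonneg _) hi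
    linarith
  set d : ℝ := c - ∑ i ∈ S, w i * z i with hd
  have hd0 : 0 < d := by linarith
  refine ⟨min (1 / B) (Real.sqrt (d / (2 * (Z + 1)))), ?_, ?_⟩
  · apply lt_min
    · positivity
    · apply Real.sqrt_pos.mpr; positivity
  · intro t ht htr
    have ht1 : t ≤ 1 / B := htr.trans (min_le_left _ _)
    have ht2 : t ≤ Real.sqrt (d / (2 * (Z + 1))) := htr.trans (min_le_right _ _)
    have ht3 : t ^ 2 ≤ d / (2 * (Z + 1)) := by
      have := mul_self_le_mul_self ht.le ht2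
      rw [Real.mul_self_sqrt (by positivity)] at this
      nlinarith
    have ht4 : t ^ 2 * B ≤ 1 := by
      have h1 : t * B ≤ 1 := by
        calc t * B ≤ 1 / B * B := by
              apply mul_le_mul_of_nonneg_right ht1; linarith
          _ = 1 := by field_simp
      have h2 : t ≤ 1 := by nlinarith
      nlinarith
    have hterm : ∀ i ∈ S, w i * exp (t ^ 2 * z i)
        ≤ w i + t ^ 2 * (w i * z i) + t ^ 4 * (w i * z i ^ 2) := by
      intro i hi
      have h1 : |t ^ 2 * z i| ≤ 1 := by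
        rw [abs_mul, abs_of_nonneg (sq_nonneg t)]
        calc t ^ 2 * |z i| ≤ t ^ 2 * B := mul_le_mul_of_nonneg_left (hzB i hi) (sq_nonneg t)
          _ ≤ 1 := ht4
      have h2 := Real.abs_exp_sub_one_sub_id_le h1
      have h3 : exp (t ^ 2 * z i) ≤ 1 + t ^ 2 * z i + (t ^ 2 * z i) ^ 2 := by
        have := le_abs_self (exp (t ^ 2 * z i) - 1 - t ^ 2 * z i)
        linarith
      calc w i * exp (t ^ 2 * z i) ≤ w i * (1 + t ^ 2 * z i + (t ^ 2 * z i) ^ 2) :=
            mul_le_mul_of_nonneg_left h3 (hw i hi)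
        _ = _ := by ring
    have hsum := Finset.sum_le_sum hterm
    rw [Finset.sum_add_distrib, Finset.sum_add_distrib, ← Finset.mul_sum, ← Finset.mul_sum,
      ← hZ] at hsum
    have h5 : t ^ 4 * Z < t ^ 2 * d := by
      have h6 : t ^ 2 * Z < d := by
        calc t ^ 2 * Z ≤ d / (2 * (Z + 1)) * Z := mul_le_mul_of_nonneg_right ht3 hZ0
          _ = d * (Z / (2 * (Z + 1))) := by ring
          _ < d * 1 := by
              apply mul_lt_mul_of_pos_left _ hd0
              rw [div_lt_one (by positivity)]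
              linarith
          _ = d := mul_one d
      have h7 : 0 < t ^ 2 := by positivity
      nlinarith
    have h8 : c * t ^ 2 = t ^ 2 * d + t ^ 2 * ∑ i ∈ S, w i * z i := by rw [hd]; ring
    linarith

/-- `exp(-S/τ²) ≤ τ⁴ exp(-S)` for `0 < τ ≤ 1`, `S ≥ 2`. -/
theorem exp_tau (S τ : ℝ) (hS : 2 ≤ S) (h0 : 0 < τ) (h1 : τ ≤ 1) :
    exp (-(S / τ ^ 2)) ≤ τ ^ 4 * exp (-S) := by
  set w : ℝ := 1 / τ ^ 2 with hw
  have hτ2 : 0 < τ ^ 2 := by positivity
  have hτ21 : τ ^ 2 ≤ 1 := by nlinarith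
  have hw1 : 1 ≤ w := by rw [hw, le_div_iff₀ hτ2]; linarith
  have h2 : w ≤ exp (w - 1) := by
    have := Real.add_one_le_exp (w - 1); linarith
  have h3 : w ^ 2 ≤ exp (S * (w - 1)) := by
    calc w ^ 2 ≤ (exp (w - 1)) ^ 2 := by gcongr
      _ = exp (2 * (w - 1)) := by rw [← Real.exp_nat_mul]; norm_num
      _ ≤ exp (S * (w - 1)) := by
          apply exp_le_exp.mpr
          apply mul_le_mul_of_nonneg_right hS; linarith
  have h4 : S / τ ^ 2 = S * w := by rw [hw]; ring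
  have h5 : τ ^ 4 * w ^ 2 = 1 := by rw [hw]; field_simp
  rw [h4]
  have h6 : exp (-(S * w)) * exp (S * (w - 1)) = exp (-S) := by rw [← exp_add]; ring_nf
  calc exp (-(S * w)) = τ ^ 4 * (exp (-(S * w)) * w ^ 2) := by
        rw [← mul_assoc, mul_comm (τ ^ 4), mul_assoc, h5, mul_one]
    _ ≤ τ ^ 4 * (exp (-(S * w)) * exp (S * (w - 1))) := by
        apply mul_le_mul_of_nonneg_left _ (by positivity)
        apply mul_le_mul_of_nonneg_left h3 (exp_pos _).le
    _ = τ ^ 4 * exp (-S) := by rw [h6]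

end H167FK
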