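import Pool.Agent.H167R2.FKLin
import Pool.Agent.H167R2.FKAvg

/-!
# The extremal step for the fractional Komlós theorem
-/

namespace H167FK

open Finset Real

/-- Data of one block. -/
structure Sys (I J : Type*) [Fintype I] [Fintype J] where
  a : I → J → ℝ
  I0 : Finset I
  I1 : Finset I
  τ : I → ℝ
  lam : ℝ
  lam_pos : 0 < lam
  lam_big : 2 ≤ 80 * lam ^ 2
  col : ∀ j, ∑ i, a i j ^ 2 ≤ 1
  τ_pos : ∀ i ∈ I1, 0 < τ i
  τ_le : ∀ i ∈ I1, τ i ≤ 1
  τ_mass : ∀ i ∈ I1, τ i = 1 ∨ ∑ j, a i j ^ 2 ≤ τ i ^ 4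

variable {I J : Type*} [Fintype I] [Fintype J]

namespace Sys

variable (P : Sys I J)

/-- Row parameter of the exponential potential. -/
noncomputable def l (i : I) : ℝ := P.lam / P.τ i ^ 3

/-- Threshold of the small part. -/
noncomputable def T (i : I) : ℝ := 160 * P.lam * P.τ i

open Classical in
/-- Small entries. -/
noncomputable def s (i : I) (j : J) : ℝ := if |P.a i j| * P.l i ≤ 1 / 16 then P.a i j else 0

/-- Large entries. -/
noncomputable def b (i : I) (j : J) : ℝ := P.a i j - P.s i j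

open Classical in
/-- Coordinates that are not yet `±1`. -/
noncomputable def alive (x : J → ℝ) : Finset J := Finset.univ.filter (fun j => |x j| < 1)

/-- Alive mass of a row. -/
noncomputable def mass (A : Finset J) (i : I) : ℝ := ∑ j ∈ A, P.a i j ^ 2

open Classical in
/-- Released rows. -/
noncomputable def rel (A : Finset J) : Finset I :=
  P.I1.filter (fun i => P.mass A i ≤ 20 * P.τ i ^ 4)

open Classical in
/-- Rows which are not released. -/
noncomputable def unrel (A : Finset J) : Finset I :=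
  P.I1.filter (fun i => ¬ P.mass A i ≤ 20 * P.τ i ^ 4)

/-- Normalising constant. -/
noncomputable def c (i : I) : ℝ := exp (-(P.l i * P.T i))

/-- Potential of a row. -/
noncomputable def φ (i : I) (y : J → ℝ) : ℝ :=
  cosh (P.l i * ∑ j, P.s i j * y j) * exp (4 * P.l i ^ 2 * ∑ j, P.s i j ^ 2 * (1 - y j ^ 2))

/-- Upper bound for the potential at release. -/
noncomputable def g (i : I) : ℝ := exp (80 * P.lam ^ 2 / P.τ i ^ 2)

/-- The objective function. -/
noncomputable def f (R : Finset I) (η : ℝ) (y : J → ℝ) : ℝ :=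
  ∑ i ∈ R, P.c i * P.φ i y + η * ∑ j, (1 - y j ^ 2)

theorem l_pos {i : I} (hi : i ∈ P.I1) : 0 < P.l i :=
  div_pos P.lam_pos (pow_pos (P.τ_pos i hi) 3)

theorem T_pos {i : I} (hi : i ∈ P.I1) : 0 < P.T i := by
  have := P.τ_pos i hi
  have := P.lam_pos
  unfold T; positivity

theorem c_pos (i : I) : 0 < P.c i := exp_pos _

theorem φ_pos (i : I) (y : J → ℝ) : 0 < P.φ i y := by
  unfold φ; have := cosh_pos (P.l i * ∑ j, P.s i j * y j); positivity

theorem s_sq_le (i : I) (j : J) : P.s i j ^ 2 ≤ P.a i j ^ 2 := by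
  classical
  unfold s
  split_ifs
  · exact le_rfl
  · simpa using sq_nonneg (P.a i j)

theorem s_small {i : I} (hi : i ∈ P.I1) (j : J) : 64 * P.l i ^ 2 * P.s i j ^ 2 ≤ 1 / 4 := by
  classical
  have hl := P.l_pos hi
  unfold s
  split_ifs with h
  · have h1 : (|P.a i j| * P.l i) ^ 2 ≤ (1 / 16) ^ 2 := by
      apply pow_le_pow_left₀ (by positivity) h
    rw [mul_pow, sq_abs] at h1
    nlinarith
  · norm_num

theorem b_abs_le {i : I} (hi : i ∈ P.I1) (j : J) : |P.b i j| ≤ 16 * P.l i * P.a i j ^ 2 := by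
  classical
  have hl := P.l_pos hi
  unfold b s
  split_ifs with h
  · simp; positivity
  · push Not at h
    rw [sub_zero]
    have h1 : 0 ≤ |P.a i j| := abs_nonneg _
    have h2 : |P.a i j| ^ 2 = P.a i j ^ 2 := sq_abs _
    nlinarith

/-- The `ℓ₁` mass of the large entries among few alive ones. -/
theorem b_sum_le {A : Finset J} {i : I} (hi : i ∈ P.I1) (hm : P.mass A i ≤ 20 * P.τ i ^ 4) :
    ∑ j ∈ A, |P.b i j| ≤ 320 * P.lam * P.τ i := by
  have hl := P.l_pos hi
  have hτ := P.τ_pos i hi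
  calc ∑ j ∈ A, |P.b i j| ≤ ∑ j ∈ A, 16 * P.l i * P.a i j ^ 2 :=
        Finset.sum_le_sum fun j _ => P.b_abs_le hi j
    _ = 16 * P.l i * P.mass A i := by rw [← Finset.mul_sum]; rfl
    _ ≤ 16 * P.l i * (20 * P.τ i ^ 4) := mul_le_mul_of_nonneg_left hm (by positivity)
    _ = 320 * P.lam * P.τ i := by unfold l; field_simp; ring

theorem lT {i : I} (hi : i ∈ P.I1) : P.l i * P.T i = 160 * P.lam ^ 2 / P.τ i ^ 2 := by
  have hτ := P.τ_pos i hi
  unfold l T; field_simp

theorem φ_le_g {A : Finset J} {i : I} (hi : i ∈ P.I1) (hm : P.mass A i ≤ 20 * P.τ i ^ 4)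
    {y : J → ℝ} (hy : ∀ j, |y j| ≤ 1) (hA : ∀ j ∉ A, |y j| = 1) (h0 : ∑ j, P.s i j * y j = 0) :
    P.φ i y ≤ P.g i := by
  have hl := P.l_pos hi
  have hτ := P.τ_pos i hi
  unfold φ g
  rw [h0, mul_zero, cosh_zero, one_mul]
  apply exp_le_exp.mpr
  have h1 : ∑ j, P.s i j ^ 2 * (1 - y j ^ 2) ≤ P.mass A i := by
    rw [← Finset.sum_subset (Finset.subset_univ A)]
    · refine Finset.sum_le_sum fun j _ => ?_
      have h2 := P.s_sq_le i j
      have h3 : 0 ≤ y j ^ 2 := sq_nonneg _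
      have h4 : 0 ≤ P.s i j ^ 2 := sq_nonneg _
      nlinarith
    · intro j _ hj
      have h2 : y j ^ 2 = 1 := by rw [← sq_abs, hA j hj]; norm_num
      rw [h2]; ring
  calc 4 * P.l i ^ 2 * ∑ j, P.s i j ^ 2 * (1 - y j ^ 2) ≤ 4 * P.l i ^ 2 * (20 * P.τ i ^ 4) := by
        apply mul_le_mul_of_nonneg_left (h1.trans hm) (by positivity)
    _ = 80 * P.lam ^ 2 / P.τ i ^ 2 := by unfold l; field_simp; ring

theorem cg_le {i : I} (hi : i ∈ P.I1) : P.c i * P.g i ≤ P.τ i ^ 4 * exp (-(80 * P.lam ^ 2)) := by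
  have h := exp_tau (80 * P.lam ^ 2) (P.τ i) P.lam_big (P.τ_pos i hi) (P.τ_le i hi)
  refine le_trans (le_of_eq ?_) h
  unfold c g
  rw [P.lT hi, ← exp_add]
  congr 1
  ring

/-- A tight row has large potential. -/
theorem tight_le {i : I} (hi : i ∈ P.I1) {y : J → ℝ} (hy : ∀ j, |y j| ≤ 1)
    (h : |∑ j, P.s i j * y j| = P.T i) : 1 / 2 ≤ P.c i * P.φ i y := by
  have hl := P.l_pos hi
  have hT := P.T_pos hi
  unfold c φ
  have h1 : cosh (P.l i * ∑ j, P.s i j * y j) = cosh (P.l i * P.T i) := by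
    rw [← cosh_abs, abs_mul, abs_of_pos hl, h]
  rw [h1]
  have h2 : 1 ≤ exp (4 * P.l i ^ 2 * ∑ j, P.s i j ^ 2 * (1 - y j ^ 2)) := by
    apply one_le_exp
    apply mul_nonneg (by positivity)
    refine Finset.sum_nonneg fun j _ => mul_nonneg (sq_nonneg _) ?_
    have := hy j
    have h3 : y j ^ 2 ≤ 1 := by
      rw [← sq_abs]; nlinarith [abs_nonneg (y j)]
    linarith
  have h3 : exp (P.l i * P.T i) / 2 ≤ cosh (P.l i * P.T i) := by
    rw [cosh_eq]
    have := exp_pos (-(P.l i * P.T i))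
    linarith
  have h4 : exp (-(P.l i * P.T i)) * exp (P.l i * P.T i) = 1 := by
    rw [← exp_add]; simp
  have h5 : 0 < exp (-(P.l i * P.T i)) := exp_pos _
  calc (1 : ℝ) / 2 = exp (-(P.l i * P.T i)) * (exp (P.l i * P.T i) / 2 * 1) := by
        rw [mul_one, ← mul_div_assoc, h4]
    _ ≤ _ := by
        apply mul_le_mul_of_nonneg_left _ h5.le
        apply mul_le_mul h3 h2 zero_le_one (cosh_pos _).le

/-- The feasible region of a step. -/
def F (A : Finset J) (x : J → ℝ) : Set (J → ℝ) :=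
  {y | (∀ j ∉ A, y j = x j) ∧ (∀ j, |y j| ≤ 1) ∧ (∀ i ∈ P.I0, ∑ j, P.a i j * y j = 0) ∧
    (∀ i ∈ P.unrel A, ∑ j, P.s i j * y j = 0 ∧ ∑ j, P.b i j * y j = 0) ∧
    ∀ i ∈ P.I1, |∑ j, P.s i j * y j| ≤ P.T i}

theorem unrel_card (A : Finset J) : 20 * ((P.unrel A).card : ℝ) ≤ A.card := by
  classical
  have h1 : ∀ i ∈ P.unrel A, 20 ≤ P.mass A i := by
    intro i hi
    rw [unrel, Finset.mem_filter] at hi
    obtain ⟨hi1, hi2⟩ := hi
    push Not at hi2
    rcases P.τ_mass i hi1 with h | h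
    · rw [h] at hi2; linarith
    · exfalso
      have h2 : P.mass A i ≤ ∑ j, P.a i j ^ 2 := by
        unfold mass
        exact Finset.sum_le_sum_of_subset_of_nonneg (Finset.subset_univ A)
          (fun j _ _ => sq_nonneg _)
      have h3 : 0 ≤ P.τ i ^ 4 := by have := P.τ_pos i hi1; positivity
      linarith
  have h2 : 20 * ((P.unrel A).card : ℝ) ≤ ∑ i ∈ P.unrel A, P.mass A i := by
    have := Finset.card_nsmul_le_sum (P.unrel A) (fun i => P.mass A i) 20 h1
    rw [nsmul_eq_mul] at this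
    linarith
  have h3 : ∑ i ∈ P.unrel A, P.mass A i ≤ ∑ i, P.mass A i := by
    apply Finset.sum_le_sum_of_subset_of_nonneg (Finset.subset_univ _)
    intro i _ _
    exact Finset.sum_nonneg fun j _ => sq_nonneg _
  have h4 : ∑ i, P.mass A i ≤ A.card := by
    unfold mass
    rw [Finset.sum_comm]
    calc ∑ j ∈ A, ∑ i, P.a i j ^ 2 ≤ ∑ j ∈ A, (1 : ℝ) := Finset.sum_le_sum fun j _ => P.col j
      _ = A.card := by simp
  linarith

/-- The linear functional `u ↦ ∑ r_j u_j`. -/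
noncomputable def lin (r : J → ℝ) : (J → ℝ) →ₗ[ℝ] ℝ := ∑ j, r j • LinearMap.proj j

omit [Fintype I] in
theorem lin_apply (r u : J → ℝ) : lin r u = ∑ j, r j * u j := by
  simp [lin, LinearMap.sum_apply]

end Sys

end H167FK
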