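import Pool.Agent.H167R2.FKLin

/-!
# Linear algebra for the dimension-free Beck–Fiala theorem

* `blocking`: if the (weighted) trace of a sum of squares of functionals is at most `(m+1) θ`, then
  on the common kernel of some `m` functionals the sum of squares is at most `θ` times the
  (weighted) squared norm.
* `exists_small_dir_w`: weighted version of `exists_small_dir`.
-/

namespace H167BJ

open Finset

variable {J : Type*} [Fintype J]

theorem cauchy (D : J → ℝ) (hD : ∀ j, 0 < D j) (g u : J → ℝ) :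
    (∑ j, g j * u j) ^ 2 ≤ (∑ j, g j ^ 2 / D j) * ∑ j, D j * u j ^ 2 := by
  refine Finset.sum_sq_le_sum_mul_sum_of_sq_le_mul Finset.univ
    (fun j _ => div_nonneg (sq_nonneg _) (hD j).le)
    (fun j _ => mul_nonneg (hD j).le (sq_nonneg _)) (fun j _ => le_of_eq ?_)
  have := (hD j).ne'
  field_simp

/-- Greedy blocking of the large directions. -/
theorem blocking {L : Type*} (S : Finset L) (c : L → ℝ) (hc : ∀ l ∈ S, 0 ≤ c l)
    (D : J → ℝ) (hD : ∀ j, 0 < D j) (θ : ℝ) (m : ℕ) :
    ∀ g : L → J → ℝ, ∑ l ∈ S, c l * ∑ j, g l j ^ 2 / D j ≤ (m + 1) * θ →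
    ∃ e : Fin m → J → ℝ, ∀ u : J → ℝ, (∀ k, ∑ j, e k j * u j = 0) →
      ∑ l ∈ S, c l * (∑ j, g l j * u j) ^ 2 ≤ θ * ∑ j, D j * u j ^ 2 := by
  induction m with
  | zero =>
    intro g hg
    refine ⟨Fin.elim0, fun u _ => ?_⟩
    have h0 : 0 ≤ ∑ j, D j * u j ^ 2 :=
      Finset.sum_nonneg fun j _ => mul_nonneg (hD j).le (sq_nonneg _)
    calc ∑ l ∈ S, c l * (∑ j, g l j * u j) ^ 2
        ≤ ∑ l ∈ S, c l * ((∑ j, g l j ^ 2 / D j) * ∑ j, D j * u j ^ 2) :=
          Finset.sum_le_sum fun l hl => mul_le_mul_of_nonneg_left (cauchy D hD (g l) u) (hc l hl)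
      _ = (∑ l ∈ S, c l * ∑ j, g l j ^ 2 / D j) * ∑ j, D j * u j ^ 2 := by
          rw [Finset.sum_mul]
          exact Finset.sum_congr rfl fun l _ => by ring
      _ ≤ θ * ∑ j, D j * u j ^ 2 := by
          apply mul_le_mul_of_nonneg_right _ h0
          simpa using hg
  | succ m ih =>
    intro g hg
    by_cases hcase : ∀ u : J → ℝ, ∑ l ∈ S, c l * (∑ j, g l j * u j) ^ 2
        ≤ θ * ∑ j, D j * u j ^ 2
    · exact ⟨fun _ _ => 0, fun u _ => hcase u⟩
    · push Not at hcase
      obtain ⟨v, hv⟩ := hcase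
      set s : ℝ := ∑ j, D j * v j ^ 2 with hs
      have hs0 : 0 < s := by
        rcases (Finset.sum_nonneg fun j _ => mul_nonneg (hD j).le (sq_nonneg (v j)) :
          (0 : ℝ) ≤ ∑ j, D j * v j ^ 2).lt_or_eq with h | h
        · exact h
        · exfalso
          have hv0 : ∀ j, v j = 0 := by
            intro j
            have h1 := (Finset.sum_eq_zero_iff_of_nonneg
              (fun j _ => mul_nonneg (hD j).le (sq_nonneg (v j)))).mp h.symm j (Finset.mem_univ j)
            rcases mul_eq_zero.mp h1 with h2 | h2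
            · exact absurd h2 (hD j).ne'
            · exact pow_eq_zero_iff two_ne_zero |>.mp h2
          have h1 : ∑ l ∈ S, c l * (∑ j, g l j * v j) ^ 2 = 0 := by
            refine Finset.sum_eq_zero fun l _ => ?_
            have : ∑ j, g l j * v j = 0 := Finset.sum_eq_zero fun j _ => by rw [hv0 j, mul_zero]
            rw [this]; ring
          have h2 : s = 0 := by rw [hs, ← h]
          rw [h1, h2, mul_zero] at hv
          exact lt_irrefl _ hv
      set p : L → ℝ := fun l => ∑ j, g l j * v j with hp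
      let g' : L → J → ℝ := fun l j => g l j - p l / s * (D j * v j)
      have hnorm : ∀ l, ∑ j, g' l j ^ 2 / D j = ∑ j, g l j ^ 2 / D j - p l ^ 2 / s := by
        intro l
        have h1 : ∀ j, g' l j ^ 2 / D j = g l j ^ 2 / D j - 2 * (p l / s) * (g l j * v j)
            + (p l / s) ^ 2 * (D j * v j ^ 2) := by
          intro j
          have := (hD j).ne'
          simp only [g']
          field_simp
          ring
        rw [Finset.sum_congr rfl fun j _ => h1 j, Finset.sum_add_distrib, Finset.sum_sub_distrib,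
          ← Finset.mul_sum, ← Finset.mul_sum, ← hs]
        have h2 : ∑ j, g l j * v j = p l := rfl
        rw [h2]
        field_simp
        ring
      have hg' : ∑ l ∈ S, c l * ∑ j, g' l j ^ 2 / D j ≤ (m + 1) * θ := by
        have h1 : ∑ l ∈ S, c l * ∑ j, g' l j ^ 2 / D j
            = ∑ l ∈ S, c l * ∑ j, g l j ^ 2 / D j - (∑ l ∈ S, c l * p l ^ 2) / s := by
          rw [Finset.sum_div, ← Finset.sum_sub_distrib]
          refine Finset.sum_congr rfl fun l _ => ?_
          rw [hnorm l]; ring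
        have h2 : θ < (∑ l ∈ S, c l * p l ^ 2) / s := by
          rw [lt_div_iff₀ hs0]; exact hv
        rw [h1]
        push_cast at hg
        linarith
      obtain ⟨e, he⟩ := ih g' hg'
      refine ⟨Fin.cons (fun j => D j * v j) e, fun u hu => ?_⟩
      have h0 : ∑ j, D j * v j * u j = 0 := by
        have := hu 0
        simpa using this
      have h1 : ∀ k, ∑ j, e k j * u j = 0 := by
        intro k
        have := hu k.succ
        simpa using this
      have h2 := he u h1
      refine le_trans (le_of_eq ?_) h2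
      refine Finset.sum_congr rfl fun l _ => ?_
      congr 2
      have h3 : ∀ j, g' l j * u j = g l j * u j - p l / s * (D j * v j * u j) := by
        intro j; simp only [g']; ring
      rw [Finset.sum_congr rfl fun j _ => h3 j, Finset.sum_sub_distrib, ← Finset.mul_sum, h0]
      ring

/-- Weighted version of `exists_small_dir`. -/
theorem exists_small_dir_w {L : Type*} (S : Finset L) (c : L → ℝ) (hc : ∀ l ∈ S, 0 ≤ c l)
    (V : Submodule ℝ (J → ℝ))
    (hV : 0 < Module.finrank ℝ V) (D : J → ℝ) (hD : ∀ j, 0 < D j) (g : L → J → ℝ) :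
    ∃ u ∈ V, ∑ j, D j * u j ^ 2 = 1 ∧
      (Module.finrank ℝ V : ℝ) * ∑ l ∈ S, c l * (∑ j, g l j * u j) ^ 2
        ≤ ∑ l ∈ S, c l * ∑ j, g l j ^ 2 / D j := by
  obtain ⟨u, hu, hu1, hu2⟩ := H167FK.exists_small_dir S V hV D hD
    (fun l j => Real.sqrt (c l) * g l j)
  refine ⟨u, hu, hu1, ?_⟩
  have h1 : ∑ l ∈ S, (∑ j, Real.sqrt (c l) * g l j * u j) ^ 2
      = ∑ l ∈ S, c l * (∑ j, g l j * u j) ^ 2 := by
    refine Finset.sum_congr rfl fun l hl => ?_
    have : ∑ j, Real.sqrt (c l) * g l j * u j = Real.sqrt (c l) * ∑ j, g l j * u j := by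
      rw [Finset.mul_sum]
      exact Finset.sum_congr rfl fun j _ => by ring
    rw [this, mul_pow, Real.sq_sqrt (hc l hl)]
  have h2 : ∑ l ∈ S, ∑ j, (Real.sqrt (c l) * g l j) ^ 2 / D j
      = ∑ l ∈ S, c l * ∑ j, g l j ^ 2 / D j := by
    refine Finset.sum_congr rfl fun l hl => ?_
    rw [Finset.mul_sum]
    refine Finset.sum_congr rfl fun j _ => ?_
    rw [mul_pow, Real.sq_sqrt (hc l hl)]; ring
  rw [h1, h2] at hu2
  exact hu2

end H167BJ
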