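import Pool.Agent.H167R2.BJSys

/-!
# The extremal step for the dimension-free Beck–Fiala theorem
-/

namespace H167BJ

open Finset Real Filter Topology

variable {I J : Type*} [Fintype I] [Fintype J]

namespace Sys

variable (P : Sys I J)

/-- The feasible region of a step. -/
def Fs (F : Finset J) (x : J → ℝ) : Set (J → ℝ) :=
  {y | (∀ j ∉ F, y j = x j) ∧ (∀ j, |y j| ≤ 1) ∧ (∀ i ∈ P.I0, ∑ v, P.a i v * y v = 0) ∧
    (∀ i ∈ P.big F, ∑ v, P.a i v * y v = 0) ∧
    ∀ i ∈ P.med F, |∑ v, P.a i v * y v| ≤ P.Tp (P.lev F i + 1)}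

/-- Weighted potential of a medium row. -/
noncomputable def W (F : Finset J) (y : J → ℝ) (i : I) : ℝ :=
  16 ^ P.lev F i * P.φ (P.lev F i) i y

/-- The constant factor of a row potential. -/
noncomputable def Cc (F : Finset J) (i : I) : ℝ :=
  16 ^ P.lev F i * exp (-(P.lam (P.lev F i) * P.Tp (P.lev F i + 1)))

theorem W_pos (F : Finset J) (y : J → ℝ) (i : I) : 0 < P.W F y i :=
  mul_pos (by positivity) (P.φ_pos _ _ _)

/-- Jensen: the average weighted potential is small. -/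
theorem jensen (F : Finset J) (y : J → ℝ) (hy : ∀ j, |y j| ≤ 1)
    (hf : P.f F y ≤ 2 * Fintype.card J)
    (hbig : 2 * (Fintype.card J : ℝ) * exp (-(P.c0 / 100)) ≤ F.card) :
    ∑ i ∈ P.med F, P.W F y i * P.mass F i ≤ P.t * F.card / 5000 := by
  classical
  have ht : 0 < P.t := by linarith [P.ht]
  have hη := P.η_pos
  set c : ℝ := P.c0 / 100 with hc
  have hηt : P.η * (P.t / 10000) = c := by
    rw [hc]; unfold η; field_simp; norm_num; ring
  set Ψ : J → ℝ := fun j => ∑ i ∈ P.med F, |P.a i j| * P.W F y i with hΨ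
  have h1 : ∀ j, exp c * (1 + P.η * Ψ j - 2 * c) ≤ exp (P.η * P.Th F j y) := by
    intro j
    have h2 : P.η * Ψ j - c ≤ P.η * P.Th F j y := by
      rw [P.Th_eq F j y]
      have h3 := P.corr_le F j
      have h4 : Ψ j = ∑ i ∈ P.med F, |P.a i j| * (16 ^ P.lev F i * P.φ (P.lev F i) i y) := rfl
      rw [← h4, ← hηt, ← mul_sub]
      apply mul_le_mul_of_nonneg_left _ hη.le
      linarith
    have h3 : exp (P.η * P.Th F j y) = exp c * exp (P.η * P.Th F j y - c) := by
      rw [← exp_add]; congr 1; ring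
    rw [h3]
    apply mul_le_mul_of_nonneg_left _ (exp_pos _).le
    have h4 := Real.add_one_le_exp (P.η * P.Th F j y - c)
    linarith
  have h2 : ∑ j ∈ F, exp c * (1 + P.η * Ψ j - 2 * c) ≤ 2 * Fintype.card J := by
    refine (Finset.sum_le_sum fun j _ => h1 j).trans ?_
    refine le_trans ?_ hf
    unfold f
    have h3 : 0 ≤ ∑ j, (1 - y j ^ 2) := by
      refine Finset.sum_nonneg fun j _ => ?_
      have := hy j
      have h4 : y j ^ 2 ≤ 1 := by
        rw [← sq_abs]; nlinarith [abs_nonneg (y j)]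
      linarith
    linarith
  have h3 : ∑ j ∈ F, exp c * (1 + P.η * Ψ j - 2 * c)
      = exp c * (F.card + P.η * ∑ j ∈ F, Ψ j - 2 * c * F.card) := by
    rw [← Finset.mul_sum]
    congr 1
    rw [Finset.sum_sub_distrib, Finset.sum_add_distrib, ← Finset.mul_sum]
    simp
    ring
  have h4 : 2 * (Fintype.card J : ℝ) ≤ exp c * F.card := by
    have h5 : exp c * (2 * (Fintype.card J : ℝ) * exp (-c)) ≤ exp c * F.card :=
      mul_le_mul_of_nonneg_left hbig (exp_pos _).le
    have h6 : exp c * (2 * (Fintype.card J : ℝ) * exp (-c)) = 2 * Fintype.card J := by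
      have : exp c * exp (-c) = 1 := by rw [← exp_add]; simp
      calc _ = (exp c * exp (-c)) * (2 * (Fintype.card J : ℝ)) := by ring
        _ = _ := by rw [this, one_mul]
    rwa [h6] at h5
  rw [h3] at h2
  have h5 : (F.card : ℝ) + P.η * ∑ j ∈ F, Ψ j - 2 * c * F.card ≤ F.card :=
    le_of_mul_le_mul_left (h2.trans h4) (exp_pos c)
  have h6 : P.η * ∑ j ∈ F, Ψ j ≤ P.η * (P.t * F.card / 5000) := by
    have h7 : P.η * (P.t * F.card / 5000) = 2 * (P.η * (P.t / 10000)) * F.card := by ring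
    rw [h7, hηt]
    linarith
  have h7 := le_of_mul_le_mul_left h6 hη
  refine le_trans (le_of_eq ?_) h7
  simp only [hΨ, mass, Finset.mul_sum]
  rw [Finset.sum_comm]
  exact Finset.sum_congr rfl fun j _ => Finset.sum_congr rfl fun i _ => by ring

theorem big_card (F : Finset J) : 10 * ((P.big F).card : ℝ) ≤ F.card := by
  classical
  have ht : 0 < P.t := by linarith [P.ht]
  have h1 := Finset.card_nsmul_le_sum (P.big F) (fun i => P.mass F i) (10 * P.t)
    (fun i hi => (P.mem_big.mp hi).2.le)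
  rw [nsmul_eq_mul] at h1
  have h2 : ∑ i ∈ P.big F, P.mass F i ≤ ∑ i, P.mass F i :=
    Finset.sum_le_sum_of_subset_of_nonneg (Finset.subset_univ _) (fun i _ _ => P.mass_nonneg F i)
  have h3 : ∑ i, P.mass F i ≤ P.t * F.card := by
    unfold mass
    rw [Finset.sum_comm]
    calc ∑ j ∈ F, ∑ i, |P.a i j| ≤ ∑ j ∈ F, P.t := Finset.sum_le_sum fun j _ => P.col j
      _ = P.t * F.card := by simp [mul_comm]
  have h4 : P.t * (10 * ((P.big F).card : ℝ)) ≤ P.t * F.card := by linarith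
  exact le_of_mul_le_mul_left h4 ht

/-- The objective along a line. -/
theorem f_line (F : Finset J) (y u : J → ℝ) (s : ℝ) :
    P.f F (fun j => y j + s * u j) = ∑ j ∈ F,
      exp (P.η * (∑ i ∈ P.med F, |P.a i j| *
        rp (P.Cc F i) (P.lam (P.lev F i)) (∑ v, P.a i v * y v) (∑ v, P.a i v * u v)
          (∑ v, P.a i v ^ 2 * (1 - y v ^ 2)) (∑ v, P.a i v ^ 2 * y v * u v)
          (∑ v, P.a i v ^ 2 * u v ^ 2) s
        - (∑ i ∈ P.med F, |P.a i j| * (1 / 10000 * (1 - (1 / 2) ^ (P.lev F i + 1)))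
          + ∑ i ∈ P.sml F, |P.a i j| * (1 / 10000))))
      + (∑ j, (1 - y j ^ 2) - 2 * s * (∑ j, y j * u j) - s ^ 2 * ∑ j, u j ^ 2) := by
  unfold f
  congr 1
  · refine Finset.sum_congr rfl fun j _ => ?_
    rw [P.Th_eq]
    congr 3
    refine Finset.sum_congr rfl fun i _ => ?_
    congr 1
    unfold φ rp Cc
    have e1 : ∑ v, P.a i v * (y v + s * u v)
        = ∑ v, P.a i v * y v + s * ∑ v, P.a i v * u v := by
      rw [Finset.mul_sum, ← Finset.sum_add_distrib]
      exact Finset.sum_congr rfl fun v _ => by ring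
    have e2 : ∑ v, P.a i v ^ 2 * (1 - (y v + s * u v) ^ 2)
        = ∑ v, P.a i v ^ 2 * (1 - y v ^ 2) - 2 * s * (∑ v, P.a i v ^ 2 * y v * u v)
          - s ^ 2 * ∑ v, P.a i v ^ 2 * u v ^ 2 := by
      rw [Finset.mul_sum, Finset.mul_sum, ← Finset.sum_sub_distrib, ← Finset.sum_sub_distrib]
      exact Finset.sum_congr rfl fun v _ => by ring
    rw [e1, e2]
    ring
  · rw [Finset.mul_sum, Finset.mul_sum, ← Finset.sum_sub_distrib, ← Finset.sum_sub_distrib]
    exact Finset.sum_congr rfl fun v _ => by ring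

/-- If all coordinates of `F` are alive at `y` and `F` is large, then `y` does not minimise
the objective on the feasible region. -/
theorem no_min (F : Finset J) (x y : J → ℝ) (hyF : y ∈ P.Fs F x) (hyA : ∀ j ∈ F, |y j| < 1)
    (hn : 0 < F.card) (hI0 : 10 * (P.I0.card : ℝ) ≤ F.card)
    (hf : P.f F y ≤ 2 * Fintype.card J)
    (hbig : 2 * (Fintype.card J : ℝ) * exp (-(P.c0 / 100)) ≤ F.card)
    (hmin : ∀ z ∈ P.Fs F x, P.f F y ≤ P.f F z) : False := by
  classical
  obtain ⟨hF1, hF2, hF3, hF4, hF5⟩ := hyF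
  have ht : 0 < P.t := by linarith [P.ht]
  have hc0 := P.c0_pos
  have hη := P.η_pos
  have hnR : (0 : ℝ) < F.card := by exact_mod_cast hn
  have hJ := P.jensen F y hF2 hf hbig
  -- total weighted potential
  have hsumW : 100 * P.η * ∑ i ∈ P.med F, P.W F y i ≤ 2 * (F.card : ℝ) := by
    have h1 : P.c0 * ∑ i ∈ P.med F, P.W F y i ≤ ∑ i ∈ P.med F, P.W F y i * P.mass F i := by
      rw [Finset.mul_sum]
      refine Finset.sum_le_sum fun i hi => ?_
      rw [mul_comm]
      exact mul_le_mul_of_nonneg_left (P.mem_med.mp hi).2.1.le (P.W_pos F y i).le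
    have h2 := h1.trans hJ
    have h3 : 100 * P.η * ∑ i ∈ P.med F, P.W F y i
        = 10000 / P.t * (P.c0 * ∑ i ∈ P.med F, P.W F y i) := by
      unfold η; field_simp; norm_num; ring
    rw [h3]
    calc 10000 / P.t * (P.c0 * ∑ i ∈ P.med F, P.W F y i)
        ≤ 10000 / P.t * (P.t * F.card / 5000) := mul_le_mul_of_nonneg_left h2 (by positivity)
      _ = 2 * (F.card : ℝ) := by field_simp; norm_num
  -- tight rows
  set Tt : Finset I := (P.med F).filter
    (fun i => |∑ v, P.a i v * y v| = P.Tp (P.lev F i + 1)) with hTt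
  have hTcard : 1000 * (Tt.card : ℝ) ≤ F.card := by
    have h1 : ∀ i ∈ Tt, 5 * P.t / 16 ≤ P.W F y i * P.mass F i := by
      intro i hi
      rw [hTt, Finset.mem_filter] at hi
      have h2 := P.tight_le (P.lev F i) i hF2 hi.2
      have h0 := P.med_mass_pos hi.1
      have h3 := P.lt_lev h0
      rw [pow_succ] at h3
      have h4 : 0 < (16 : ℝ) ^ P.lev F i * P.mass F i := by positivity
      calc 5 * P.t / 16 ≤ (16 ^ P.lev F i * P.mass F i) * (1 / 2) := by linarith
        _ ≤ (16 ^ P.lev F i * P.mass F i) * P.φ (P.lev F i) i y :=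
            mul_le_mul_of_nonneg_left h2 h4.le
        _ = P.W F y i * P.mass F i := by unfold W; ring
    have h2 := Finset.card_nsmul_le_sum Tt _ _ h1
    rw [nsmul_eq_mul] at h2
    have h3 : ∑ i ∈ Tt, P.W F y i * P.mass F i ≤ ∑ i ∈ P.med F, P.W F y i * P.mass F i :=
      Finset.sum_le_sum_of_subset_of_nonneg (Finset.filter_subset _ _)
        (fun i _ _ => mul_nonneg (P.W_pos F y i).le (P.mass_nonneg F i))
    have h4 := (h2.trans h3).trans hJ
    have h5 : P.t * (5 / 16 * (Tt.card : ℝ)) ≤ P.t * (F.card / 5000) := by linarith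
    have h6 := le_of_mul_le_mul_left h5 ht
    linarith
  have hBig := P.big_card F
  -- the direction
  have hK : 1000 * (((P.I0 ∪ P.big F) ∪ Tt).card : ℝ) ≤ 201 * F.card := by
    have h1 : ((P.I0 ∪ P.big F) ∪ Tt).card ≤ P.I0.card + (P.big F).card + Tt.card :=
      (Finset.card_union_le _ _).trans (Nat.add_le_add_right (Finset.card_union_le _ _) _)
    have h2 : (((P.I0 ∪ P.big F) ∪ Tt).card : ℝ) ≤ P.I0.card + (P.big F).card + Tt.card := by
      exact_mod_cast h1
    linarith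
  obtain ⟨u, huF, huK, hu⟩ := exists_dir P.a P.a1 F (P.med F) (P.W F y)
    (fun i => P.lam (P.lev F i)) (fun i => tanh (P.lam (P.lev F i) * ∑ v, P.a i v * y v))
    (fun i _ => P.W_pos F y i) (fun i _ => P.lam_pos _) (fun i hi => P.lam_le hi)
    (fun i _ => (abs_tanh_lt_one _).le) (fun j => exp (P.η * P.Th F j y)) (fun j => exp_pos _)
    P.η 1 hη one_pos y hF2 hn (fun i hi => P.med_mass_pos hi) hsumW
    ((P.I0 ∪ P.big F) ∪ Tt) (fun i => H167FK.Sys.lin (P.a i)) hK
  simp only [H167FK.Sys.lin_apply] at huK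
  -- feasibility for small `s`
  have ev1 : ∀ᶠ s : ℝ in 𝓝 0, ∀ j ∈ F, |y j + s * u j| < 1 := by
    rw [Filter.eventually_all_finset]
    intro j hj
    have c1 : Continuous (fun s : ℝ => |y j + s * u j|) := by fun_prop
    have h1 := c1.tendsto 0
    simp only [zero_mul, add_zero] at h1
    exact h1.eventually_lt_const (hyA j hj)
  have ev2 : ∀ᶠ s : ℝ in 𝓝 0, ∀ i ∈ (P.med F).filter
      (fun i => |∑ v, P.a i v * y v| ≠ P.Tp (P.lev F i + 1)),
      |∑ v, P.a i v * y v + s * ∑ v, P.a i v * u v| < P.Tp (P.lev F i + 1) := by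
    rw [Filter.eventually_all_finset]
    intro i hi
    rw [Finset.mem_filter] at hi
    have hlt : |∑ v, P.a i v * y v| < P.Tp (P.lev F i + 1) := lt_of_le_of_ne (hF5 i hi.1) hi.2
    have c1 : Continuous (fun s : ℝ => |∑ v, P.a i v * y v + s * ∑ v, P.a i v * u v|) := by
      fun_prop
    have h1 := c1.tendsto 0
    simp only [zero_mul, add_zero] at h1
    exact h1.eventually_lt_const hlt
  have hloc : IsLocalMin (fun s : ℝ => P.f F (fun j => y j + s * u j)) 0 := by
    have hy0 : P.f F (fun j => y j + 0 * u j) = P.f F y := by simp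
    filter_upwards [ev1, ev2] with s hs1 hs2
    rw [hy0]
    apply hmin
    have lin1 : ∀ r : J → ℝ, ∑ j, r j * (y j + s * u j)
        = ∑ j, r j * y j + s * ∑ j, r j * u j := by
      intro r
      rw [Finset.mul_sum, ← Finset.sum_add_distrib]
      exact Finset.sum_congr rfl fun j _ => by ring
    refine ⟨?_, ?_, ?_, ?_, ?_⟩
    · intro j hj
      simp only [huF j hj, mul_zero, add_zero, hF1 j hj]
    · intro j
      by_cases hj : j ∈ F
      · exact (hs1 j hj).le
      · simp only [huF j hj, mul_zero, add_zero]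
        exact hF2 j
    · intro i hi
      rw [lin1, hF3 i hi, huK i (Finset.mem_union_left _ (Finset.mem_union_left _ hi))]; simp
    · intro i hi
      rw [lin1, hF4 i hi, huK i (Finset.mem_union_left _ (Finset.mem_union_right _ hi))]; simp
    · intro i hi
      rw [lin1]
      by_cases htight : |∑ v, P.a i v * y v| = P.Tp (P.lev F i + 1)
      · rw [huK i (Finset.mem_union_right _ (Finset.mem_filter.mpr ⟨hi, htight⟩)), mul_zero,
          add_zero, htight]
      · exact (hs2 i (Finset.mem_filter.mpr ⟨hi, htight⟩)).le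
  simp only [P.f_line] at hloc
  have key := calc_main (P.med F) F (fun i j => |P.a i j|) _ _ _ _ _ _ _ _ _ _ _ _ hloc
  -- identify the terms
  have hC0 : ∀ i, 0 < P.Cc F i := fun i => by unfold Cc; positivity
  have hexp : ∀ j, exp (P.η * (∑ i ∈ P.med F, |P.a i j| *
        rp (P.Cc F i) (P.lam (P.lev F i)) (∑ v, P.a i v * y v) (∑ v, P.a i v * u v)
          (∑ v, P.a i v ^ 2 * (1 - y v ^ 2)) (∑ v, P.a i v ^ 2 * y v * u v)
          (∑ v, P.a i v ^ 2 * u v ^ 2) 0
        - (∑ i ∈ P.med F, |P.a i j| * (1 / 10000 * (1 - (1 / 2) ^ (P.lev F i + 1)))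
          + ∑ i ∈ P.sml F, |P.a i j| * (1 / 10000)))) = exp (P.η * P.Th F j y) := by
    intro j
    rw [P.Th_eq]
    congr 3
    refine Finset.sum_congr rfl fun i _ => ?_
    congr 1
    simp only [Cc, φ, rp, zero_mul, add_zero, mul_zero, sub_zero, ne_eq, OfNat.ofNat_ne_zero,
      not_false_eq_true, zero_pow]
    ring
  have hWC : ∀ i, P.W F y i = P.Cc F i * cosh (P.lam (P.lev F i) * ∑ v, P.a i v * y v)
      * exp (4 * P.lam (P.lev F i) ^ 2 * ∑ v, P.a i v ^ 2 * (1 - y v ^ 2)) := by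
    intro i
    simp only [W, φ, Cc]; ring
  have hrp1 : ∀ i, rp1 (P.Cc F i) (P.lam (P.lev F i)) (∑ v, P.a i v * y v) (∑ v, P.a i v * u v)
          (∑ v, P.a i v ^ 2 * (1 - y v ^ 2)) (∑ v, P.a i v ^ 2 * y v * u v)
          (∑ v, P.a i v ^ 2 * u v ^ 2) 0
        = P.W F y i * P.lam (P.lev F i) *
          (tanh (P.lam (P.lev F i) * ∑ v, P.a i v * y v) * (∑ v, P.a i v * u v)
            - 8 * P.lam (P.lev F i) * ∑ v, P.a i v ^ 2 * y v * u v) := by
    intro i
    have hch := (cosh_pos (P.lam (P.lev F i) * ∑ v, P.a i v * y v)).ne'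
    rw [hWC, tanh_eq_sinh_div_cosh]
    simp only [rp1, zero_mul, add_zero, mul_zero, sub_zero, ne_eq, OfNat.ofNat_ne_zero,
      not_false_eq_true, zero_pow]
    field_simp
  have hsecond : ∀ i, P.Cc F i * exp (4 * P.lam (P.lev F i) ^ 2 * ∑ v, P.a i v ^ 2 * (1 - y v ^ 2)) *
      ((P.lam (P.lev F i) ^ 2 * (∑ v, P.a i v * u v) ^ 2
          - 8 * P.lam (P.lev F i) ^ 2 * (∑ v, P.a i v ^ 2 * u v ^ 2)
          + 64 * P.lam (P.lev F i) ^ 4 * (∑ v, P.a i v ^ 2 * y v * u v) ^ 2)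
        * cosh (P.lam (P.lev F i) * ∑ v, P.a i v * y v)
        - 16 * P.lam (P.lev F i) ^ 3 * (∑ v, P.a i v * u v) * (∑ v, P.a i v ^ 2 * y v * u v)
          * sinh (P.lam (P.lev F i) * ∑ v, P.a i v * y v))
      ≤ P.W F y i * (P.lam (P.lev F i) ^ 2 * (2 * (∑ v, P.a i v * u v) ^ 2
          + 128 * P.lam (P.lev F i) ^ 2 * (∑ v, P.a i v ^ 2 * y v * u v) ^ 2
          - 8 * ∑ v, P.a i v ^ 2 * u v ^ 2)) := by
    intro i
    rw [hWC]
    set l := P.lam (P.lev F i)
    set β := ∑ v, P.a i v * u v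
    set γ := ∑ v, P.a i v ^ 2 * y v * u v
    set q := ∑ v, P.a i v ^ 2 * u v ^ 2
    set X := l * ∑ v, P.a i v * y v
    set E := exp (4 * l ^ 2 * ∑ v, P.a i v ^ 2 * (1 - y v ^ 2))
    have hE : 0 < E := exp_pos _
    have hsc : |sinh X| ≤ cosh X := by
      rw [abs_le]
      constructor
      · have := cosh_add_sinh X
        have := exp_pos X
        linarith
      · exact (sinh_lt_cosh X).le
    have hcross : -(16 * l ^ 3 * β * γ * sinh X) ≤ (l ^ 2 * β ^ 2 + 64 * l ^ 4 * γ ^ 2) * cosh X := by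
      calc -(16 * l ^ 3 * β * γ * sinh X) ≤ |16 * l ^ 3 * β * γ * sinh X| := neg_le_abs _
        _ = |2 * (l * β) * (8 * l ^ 2 * γ)| * |sinh X| := by
            rw [← abs_mul]; congr 1; ring
        _ ≤ ((l * β) ^ 2 + (8 * l ^ 2 * γ) ^ 2) * cosh X := by
            apply mul_le_mul _ hsc (abs_nonneg _) (by positivity)
            rw [abs_le]
            constructor
            · nlinarith [sq_nonneg (l * β + 8 * l ^ 2 * γ)]
            · nlinarith [sq_nonneg (l * β - 8 * l ^ 2 * γ)]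
        _ = _ := by ring
    have hCE : 0 < P.Cc F i * E := mul_pos (hC0 i) hE
    calc P.Cc F i * E * ((l ^ 2 * β ^ 2 - 8 * l ^ 2 * q + 64 * l ^ 4 * γ ^ 2) * cosh X
          - 16 * l ^ 3 * β * γ * sinh X)
        ≤ P.Cc F i * E * ((l ^ 2 * β ^ 2 - 8 * l ^ 2 * q + 64 * l ^ 4 * γ ^ 2) * cosh X
          + (l ^ 2 * β ^ 2 + 64 * l ^ 4 * γ ^ 2) * cosh X) := by
          apply mul_le_mul_of_nonneg_left _ hCE.le
          linarith
      _ = _ := by ring
  simp only [hexp, hrp1] at key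
  have hfinal : ∑ j ∈ F, exp (P.η * P.Th F j y) *
      ((P.η * ∑ i ∈ P.med F, |P.a i j| * (P.W F y i * P.lam (P.lev F i) *
          (tanh (P.lam (P.lev F i) * ∑ v, P.a i v * y v) * (∑ v, P.a i v * u v)
            - 8 * P.lam (P.lev F i) * ∑ v, P.a i v ^ 2 * y v * u v))) ^ 2
        + P.η * ∑ i ∈ P.med F, |P.a i j| * (P.Cc F i *
          exp (4 * P.lam (P.lev F i) ^ 2 * ∑ v, P.a i v ^ 2 * (1 - y v ^ 2)) *
      ((P.lam (P.lev F i) ^ 2 * (∑ v, P.a i v * u v) ^ 2
          - 8 * P.lam (P.lev F i) ^ 2 * (∑ v, P.a i v ^ 2 * u v ^ 2)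
          + 64 * P.lam (P.lev F i) ^ 4 * (∑ v, P.a i v ^ 2 * y v * u v) ^ 2)
        * cosh (P.lam (P.lev F i) * ∑ v, P.a i v * y v)
        - 16 * P.lam (P.lev F i) ^ 3 * (∑ v, P.a i v * u v) * (∑ v, P.a i v ^ 2 * y v * u v)
          * sinh (P.lam (P.lev F i) * ∑ v, P.a i v * y v))))
      ≤ P.η ^ 2 * ∑ j ∈ F, exp (P.η * P.Th F j y) * (∑ i ∈ P.med F, |P.a i j| *
          (P.W F y i * P.lam (P.lev F i) *
          (tanh (P.lam (P.lev F i) * ∑ v, P.a i v * y v) * (∑ v, P.a i v * u v)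
            - 8 * P.lam (P.lev F i) * ∑ v, P.a i v ^ 2 * y v * u v))) ^ 2
      + P.η * ∑ j ∈ F, exp (P.η * P.Th F j y) * ∑ i ∈ P.med F, |P.a i j| *
          (P.W F y i * (P.lam (P.lev F i) ^ 2 * (2 * (∑ v, P.a i v * u v) ^ 2
          + 128 * P.lam (P.lev F i) ^ 2 * (∑ v, P.a i v ^ 2 * y v * u v) ^ 2
          - 8 * ∑ v, P.a i v ^ 2 * u v ^ 2))) := by
    rw [Finset.mul_sum, Finset.mul_sum, ← Finset.sum_add_distrib]
    refine Finset.sum_le_sum fun j _ => ?_
    have h1 : ∑ i ∈ P.med F, |P.a i j| * (P.Cc F i *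
          exp (4 * P.lam (P.lev F i) ^ 2 * ∑ v, P.a i v ^ 2 * (1 - y v ^ 2)) *
      ((P.lam (P.lev F i) ^ 2 * (∑ v, P.a i v * u v) ^ 2
          - 8 * P.lam (P.lev F i) ^ 2 * (∑ v, P.a i v ^ 2 * u v ^ 2)
          + 64 * P.lam (P.lev F i) ^ 4 * (∑ v, P.a i v ^ 2 * y v * u v) ^ 2)
        * cosh (P.lam (P.lev F i) * ∑ v, P.a i v * y v)
        - 16 * P.lam (P.lev F i) ^ 3 * (∑ v, P.a i v * u v) * (∑ v, P.a i v ^ 2 * y v * u v)
          * sinh (P.lam (P.lev F i) * ∑ v, P.a i v * y v)))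
        ≤ ∑ i ∈ P.med F, |P.a i j| *
          (P.W F y i * (P.lam (P.lev F i) ^ 2 * (2 * (∑ v, P.a i v * u v) ^ 2
          + 128 * P.lam (P.lev F i) ^ 2 * (∑ v, P.a i v ^ 2 * y v * u v) ^ 2
          - 8 * ∑ v, P.a i v ^ 2 * u v ^ 2))) :=
      Finset.sum_le_sum fun i _ => mul_le_mul_of_nonneg_left (hsecond i) (abs_nonneg _)
    have h2 := mul_le_mul_of_nonneg_left h1 hη.le
    have h3 := mul_le_mul_of_nonneg_left h2 (exp_pos (P.η * P.Th F j y)).le
    linarith
  linarith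

end Sys

end H167BJ
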