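import Pool.Agent.H167R2.BJDir
import Pool.Agent.H167R2.BJCalc

/-!
# Potentials for the dimension-free Beck–Fiala theorem
-/

namespace H167BJ

open Finset Real

variable {I J : Type*} [Fintype I] [Fintype J]

theorem cosh_le_exp_abs (x : ℝ) : cosh x ≤ exp |x| := by
  rw [← cosh_abs, ← cosh_add_sinh |x|]
  have : 0 ≤ sinh |x| := sinh_nonneg_iff.mpr (abs_nonneg x)
  linarith

theorem four_pow_ge (k : ℕ) : 1 + 3 * (k : ℝ) ≤ 4 ^ k := by
  have := one_add_mul_le_pow (a := (3 : ℝ)) (by norm_num) k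
  norm_num at this
  linarith

/-- The reset values are summable with a small sum. -/
theorem reset_sum (k : ℕ) :
    (16 : ℝ) ^ k * exp (-(10 * 4 ^ k)) ≤ 1 / 10000 * (1 / 2) ^ (k + 1) := by
  have h10 : exp (-10) ≤ 1 / 20000 := by
    rw [exp_neg, one_div]
    apply inv_anti₀ (by norm_num)
    have h1 : exp 10 = exp 1 ^ 10 := by rw [← exp_nat_mul]; norm_num
    rw [h1]
    have h2 := Real.exp_one_gt_d9
    have h3 : (2.7 : ℝ) ^ 10 ≤ exp 1 ^ 10 := by
      apply pow_le_pow_left₀ (by norm_num); linarith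
    refine le_trans ?_ h3
    norm_num
  have h30 : exp (-30) ≤ 1 / 32 := by
    have h1 : exp (-30) ≤ exp (-10) := exp_le_exp.mpr (by norm_num)
    refine h1.trans (h10.trans ?_)
    norm_num
  have h1 : exp (-(10 * 4 ^ k)) ≤ exp (-10) * exp (-30) ^ k := by
    rw [← exp_nat_mul, ← exp_add]
    apply exp_le_exp.mpr
    have := four_pow_ge k
    linarith
  have h2 : exp (-10) * exp (-30) ^ k ≤ 1 / 20000 * (1 / 32) ^ k := by
    apply mul_le_mul h10 _ (by positivity) (by norm_num)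
    exact pow_le_pow_left₀ (exp_pos _).le h30 k
  calc (16 : ℝ) ^ k * exp (-(10 * 4 ^ k)) ≤ 16 ^ k * (1 / 20000 * (1 / 32) ^ k) :=
        mul_le_mul_of_nonneg_left (h1.trans h2) (by positivity)
    _ = 1 / 20000 * (16 * (1 / 32)) ^ k := by rw [mul_pow]; ring
    _ = 1 / 10000 * (1 / 2) ^ (k + 1) := by
        rw [pow_succ]; norm_num; ring

/-- Data of one block. -/
structure Sys (I J : Type*) [Fintype I] [Fintype J] where
  a : I → J → ℝ
  I0 : Finset I
  I1 : Finset I
  t : ℝ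
  c0 : ℝ
  ht : 1 ≤ t
  hc0 : 80 * Real.sqrt t ≤ c0
  a1 : ∀ i j, |a i j| ≤ 1
  col : ∀ j, ∑ i, |a i j| ≤ t

namespace Sys

variable (P : Sys I J)

theorem sqrt_ge : 1 ≤ Real.sqrt P.t := Real.one_le_sqrt.mpr P.ht

theorem sq_sqrt_t : Real.sqrt P.t ^ 2 = P.t := Real.sq_sqrt (by linarith [P.ht])

theorem c0_pos : 0 < P.c0 := by
  have := P.sqrt_ge
  have := P.hc0
  linarith

/-- Alive mass of a row. -/
noncomputable def mass (F : Finset J) (i : I) : ℝ := ∑ v ∈ F, |P.a i v|

open Classical in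
/-- Rows with large alive mass. -/
noncomputable def big (F : Finset J) : Finset I :=
  P.I1.filter (fun i => 10 * P.t < P.mass F i)

open Classical in
/-- Rows with medium alive mass. -/
noncomputable def med (F : Finset J) : Finset I :=
  P.I1.filter (fun i => P.c0 < P.mass F i ∧ P.mass F i ≤ 10 * P.t)

open Classical in
/-- Rows with small alive mass. -/
noncomputable def sml (F : Finset J) : Finset I :=
  P.I1.filter (fun i => P.mass F i ≤ P.c0 ∧ P.mass F i ≤ 10 * P.t)

/-- The level of a row. -/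
noncomputable def lev (F : Finset J) (i : I) : ℕ := Nat.log 16 ⌊10 * P.t / P.mass F i⌋₊

/-- Exponents. -/
noncomputable def lam (k : ℕ) : ℝ := 8 ^ k / (2 * Real.sqrt P.t)

/-- Thresholds. -/
noncomputable def Tp (k : ℕ) : ℝ := 80 * Real.sqrt P.t * (1 - (1 / 2) ^ k)

/-- The row potential at level `k`. -/
noncomputable def φ (k : ℕ) (i : I) (y : J → ℝ) : ℝ :=
  exp (-(P.lam k * P.Tp (k + 1))) * cosh (P.lam k * ∑ v, P.a i v * y v)
    * exp (4 * P.lam k ^ 2 * ∑ v, P.a i v ^ 2 * (1 - y v ^ 2))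

theorem mass_nonneg (F : Finset J) (i : I) : 0 ≤ P.mass F i :=
  Finset.sum_nonneg fun _ _ => abs_nonneg _

theorem mass_mono {F F' : Finset J} (h : F' ⊆ F) (i : I) : P.mass F' i ≤ P.mass F i :=
  Finset.sum_le_sum_of_subset_of_nonneg h (fun _ _ _ => abs_nonneg _)

theorem lam_pos (k : ℕ) : 0 < P.lam k := by
  have := P.sqrt_ge
  unfold lam; positivity

theorem half_pow_le (k : ℕ) : ((1 : ℝ) / 2) ^ k ≤ 1 := pow_le_one₀ (by norm_num) (by norm_num)

theorem Tp_nonneg (k : ℕ) : 0 ≤ P.Tp k := by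
  have := P.sqrt_ge
  have := half_pow_le k
  unfold Tp
  apply mul_nonneg (by positivity) (by linarith)

theorem Tp_pos (k : ℕ) : 0 < P.Tp (k + 1) := by
  have h1 := P.sqrt_ge
  have h2 := half_pow_le k
  unfold Tp
  apply mul_pos (by positivity)
  rw [pow_succ]; linarith

theorem Tp_le (k : ℕ) : P.Tp k ≤ 80 * Real.sqrt P.t := by
  have h1 := P.sqrt_ge
  have h2 : (0 : ℝ) ≤ (1 / 2) ^ k := by positivity
  unfold Tp
  have h3 : 80 * Real.sqrt P.t * (1 - (1 / 2) ^ k) ≤ 80 * Real.sqrt P.t * 1 := by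
    apply mul_le_mul_of_nonneg_left _ (by positivity); linarith
  linarith

theorem Tp_mono {k k' : ℕ} (h : k ≤ k') : P.Tp k ≤ P.Tp k' := by
  have h1 := P.sqrt_ge
  have h2 : ((1 : ℝ) / 2) ^ k' ≤ (1 / 2) ^ k :=
    pow_le_pow_of_le_one (by norm_num) (by norm_num) h
  unfold Tp
  apply mul_le_mul_of_nonneg_left _ (by positivity); linarith

theorem φ_pos (k : ℕ) (i : I) (y : J → ℝ) : 0 < P.φ k i y := by
  unfold φ
  have := cosh_pos (P.lam k * ∑ v, P.a i v * y v)
  positivity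

theorem lev_le {F : Finset J} {i : I} (h0 : 0 < P.mass F i) (h : P.mass F i ≤ 10 * P.t) :
    16 ^ P.lev F i * P.mass F i ≤ 10 * P.t := by
  have h1 : 1 ≤ 10 * P.t / P.mass F i := by rw [le_div_iff₀ h0]; linarith
  have h2 : 1 ≤ ⌊10 * P.t / P.mass F i⌋₊ := (Nat.one_le_floor_iff _).mpr h1
  have h3 : 16 ^ P.lev F i ≤ ⌊10 * P.t / P.mass F i⌋₊ := Nat.pow_log_le_self 16 (by omega)
  have h4 : ((16 : ℝ) ^ P.lev F i) ≤ 10 * P.t / P.mass F i := by
    have h5 : ((16 ^ P.lev F i : ℕ) : ℝ) ≤ (⌊10 * P.t / P.mass F i⌋₊ : ℝ) := by exact_mod_cast h3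
    have h6 : (⌊10 * P.t / P.mass F i⌋₊ : ℝ) ≤ 10 * P.t / P.mass F i :=
      Nat.floor_le (by linarith)
    push_cast at h5
    exact h5.trans h6
  rwa [le_div_iff₀ h0] at h4

theorem lt_lev {F : Finset J} {i : I} (h0 : 0 < P.mass F i) :
    10 * P.t < 16 ^ (P.lev F i + 1) * P.mass F i := by
  have h3 : ⌊10 * P.t / P.mass F i⌋₊ < 16 ^ (P.lev F i + 1) :=
    Nat.lt_pow_succ_log_self (by norm_num) _
  have h4 : 10 * P.t / P.mass F i < (16 : ℝ) ^ (P.lev F i + 1) := by
    have h5 : 10 * P.t / P.mass F i < (⌊10 * P.t / P.mass F i⌋₊ : ℝ) + 1 :=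
      Nat.lt_floor_add_one _
    have h6 : ((⌊10 * P.t / P.mass F i⌋₊ + 1 : ℕ) : ℝ) ≤ ((16 ^ (P.lev F i + 1) : ℕ) : ℝ) := by
      exact_mod_cast h3
    push_cast at h6
    linarith
  rwa [div_lt_iff₀ h0] at h4

theorem lev_mono {F F' : Finset J} (h : F' ⊆ F) {i : I} (h0 : 0 < P.mass F' i) :
    P.lev F i ≤ P.lev F' i := by
  unfold lev
  apply Nat.log_mono_right
  apply Nat.floor_mono
  have := P.ht
  exact div_le_div_of_nonneg_left (by linarith) h0 (P.mass_mono h i)

theorem mem_med {F : Finset J} {i : I} :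
    i ∈ P.med F ↔ i ∈ P.I1 ∧ P.c0 < P.mass F i ∧ P.mass F i ≤ 10 * P.t := by
  classical
  unfold med; rw [Finset.mem_filter]

theorem mem_sml {F : Finset J} {i : I} :
    i ∈ P.sml F ↔ i ∈ P.I1 ∧ P.mass F i ≤ P.c0 ∧ P.mass F i ≤ 10 * P.t := by
  classical
  unfold sml; rw [Finset.mem_filter]

theorem mem_big {F : Finset J} {i : I} :
    i ∈ P.big F ↔ i ∈ P.I1 ∧ 10 * P.t < P.mass F i := by
  classical
  unfold big; rw [Finset.mem_filter]

theorem med_mass_pos {F : Finset J} {i : I} (hi : i ∈ P.med F) : 0 < P.mass F i :=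
  P.c0_pos.trans (P.mem_med.mp hi).2.1

/-- On medium rows the exponent is small. -/
theorem lam_le {F : Finset J} {i : I} (hi : i ∈ P.med F) : P.lam (P.lev F i) ≤ 1 / 16 := by
  have h0 := P.med_mass_pos hi
  obtain ⟨-, h1, h2⟩ := P.mem_med.mp hi
  have h3 := P.lev_le h0 h2
  have hs := P.sqrt_ge
  have hs2 := P.sq_sqrt_t
  set s := Real.sqrt P.t with hsdef
  have h4 : (16 : ℝ) ^ P.lev F i * (80 * s) ≤ 10 * s ^ 2 := by
    rw [hs2]
    refine le_trans ?_ h3
    apply mul_le_mul_of_nonneg_left _ (by positivity)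
    have := P.hc0
    linarith
  have h5 : (16 : ℝ) ^ P.lev F i ≤ s / 8 := by
    have h6 : (16 : ℝ) ^ P.lev F i * (80 * s) ≤ s / 8 * (80 * s) := by
      refine h4.trans (le_of_eq ?_); ring
    exact le_of_mul_le_mul_right h6 (by positivity)
  have h6 : (8 : ℝ) ^ P.lev F i ≤ 16 ^ P.lev F i :=
    pow_le_pow_left₀ (by norm_num) (by norm_num) _
  unfold lam
  rw [div_le_iff₀ (by positivity), ← hsdef]
  linarith

/-- The value of the potential right after a change of level. -/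
theorem φ_reset (k : ℕ) (i : I) (y : J → ℝ) (hα : |∑ v, P.a i v * y v| ≤ P.Tp k)
    (hm : 16 ^ k * ∑ v, P.a i v ^ 2 * (1 - y v ^ 2) ≤ 10 * P.t) :
    P.φ k i y ≤ exp (-(10 * 4 ^ k)) := by
  have hl := P.lam_pos k
  have hs := P.sqrt_ge
  have hs2 := P.sq_sqrt_t
  set s := Real.sqrt P.t with hsdef
  have hs0 : s ≠ 0 := by linarith
  have h1 : cosh (P.lam k * ∑ v, P.a i v * y v) ≤ exp (P.lam k * P.Tp k) := by
    refine (cosh_le_exp_abs _).trans (exp_le_exp.mpr ?_)
    rw [abs_mul, abs_of_pos hl]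
    exact mul_le_mul_of_nonneg_left hα hl.le
  have h2 : P.lam k * P.Tp (k + 1) = P.lam k * P.Tp k + 20 * 4 ^ k := by
    have h3 : (8 : ℝ) ^ k * (1 / 2) ^ k = 4 ^ k := by rw [← mul_pow]; norm_num
    unfold lam Tp
    rw [← hsdef, pow_succ ((1 : ℝ) / 2), ← h3]
    field_simp
    ring
  have h3 : 4 * P.lam k ^ 2 * ∑ v, P.a i v ^ 2 * (1 - y v ^ 2) ≤ 10 * 4 ^ k := by
    have h4 : P.lam k ^ 2 = 16 ^ k * 4 ^ k / (4 * P.t) := by
      unfold lam
      rw [← hsdef, div_pow, mul_pow, hs2, ← mul_pow, ← pow_mul, mul_comm k 2, pow_mul]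
      norm_num
    have ht : 0 < P.t := by linarith [P.ht]
    rw [h4]
    calc 4 * (16 ^ k * 4 ^ k / (4 * P.t)) * ∑ v, P.a i v ^ 2 * (1 - y v ^ 2)
        = 4 ^ k / P.t * (16 ^ k * ∑ v, P.a i v ^ 2 * (1 - y v ^ 2)) := by field_simp
      _ ≤ 4 ^ k / P.t * (10 * P.t) := mul_le_mul_of_nonneg_left hm (by positivity)
      _ = 10 * 4 ^ k := by field_simp
  unfold φ
  rw [h2]
  calc _ ≤ exp (-(P.lam k * P.Tp k + 20 * 4 ^ k)) * exp (P.lam k * P.Tp k)
        * exp (10 * 4 ^ k) := by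
        apply mul_le_mul _ (exp_le_exp.mpr h3) (exp_pos _).le (by positivity)
        exact mul_le_mul_of_nonneg_left h1 (exp_pos _).le
    _ = exp (-(10 * 4 ^ k)) := by
        rw [← exp_add, ← exp_add]
        congr 1
        ring

theorem energy_le_mass {F : Finset J} (i : I) {y : J → ℝ} (_hy : ∀ j, |y j| ≤ 1)
    (hF : ∀ j ∉ F, |y j| = 1) : ∑ v, P.a i v ^ 2 * (1 - y v ^ 2) ≤ P.mass F i := by
  classical
  unfold mass
  rw [← Finset.sum_subset (Finset.subset_univ F)]
  · refine Finset.sum_le_sum fun v _ => ?_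
    have h1 := P.a1 i v
    have h2 := abs_nonneg (P.a i v)
    have h3 : P.a i v ^ 2 ≤ |P.a i v| := by
      rw [← sq_abs]; nlinarith
    have h4 : 0 ≤ y v ^ 2 := sq_nonneg _
    have h5 : 0 ≤ P.a i v ^ 2 := sq_nonneg _
    nlinarith
  · intro v _ hv
    have h2 : y v ^ 2 = 1 := by rw [← sq_abs, hF v hv]; norm_num
    rw [h2]; ring

/-- A tight row has large potential. -/
theorem tight_le (k : ℕ) (i : I) {y : J → ℝ} (hy : ∀ j, |y j| ≤ 1)
    (h : |∑ v, P.a i v * y v| = P.Tp (k + 1)) : 1 / 2 ≤ P.φ k i y := by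
  have hl := P.lam_pos k
  unfold φ
  have h1 : cosh (P.lam k * ∑ v, P.a i v * y v) = cosh (P.lam k * P.Tp (k + 1)) := by
    rw [← cosh_abs, abs_mul, abs_of_pos hl, h]
  rw [h1]
  have h2 : 1 ≤ exp (4 * P.lam k ^ 2 * ∑ v, P.a i v ^ 2 * (1 - y v ^ 2)) := by
    apply one_le_exp
    apply mul_nonneg (by positivity)
    refine Finset.sum_nonneg fun j _ => mul_nonneg (sq_nonneg _) ?_
    have := hy j
    have h3 : y j ^ 2 ≤ 1 := by
      rw [← sq_abs]; nlinarith [abs_nonneg (y j)]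
    linarith
  have h3 : exp (P.lam k * P.Tp (k + 1)) / 2 ≤ cosh (P.lam k * P.Tp (k + 1)) := by
    rw [cosh_eq]
    have := exp_pos (-(P.lam k * P.Tp (k + 1)))
    linarith
  have h4 : exp (-(P.lam k * P.Tp (k + 1))) * exp (P.lam k * P.Tp (k + 1)) = 1 := by
    rw [← exp_add]; simp
  have h5 : 0 < exp (-(P.lam k * P.Tp (k + 1))) := exp_pos _
  calc (1 : ℝ) / 2 = exp (-(P.lam k * P.Tp (k + 1))) * (exp (P.lam k * P.Tp (k + 1)) / 2) * 1 := by
        rw [mul_one, ← mul_div_assoc, h4]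
    _ ≤ _ := by
        apply mul_le_mul _ h2 zero_le_one
        · have := cosh_pos (P.lam k * P.Tp (k + 1)); positivity
        · exact mul_le_mul_of_nonneg_left h3 h5.le

open Classical in
/-- Contribution of a row to the exponents. -/
noncomputable def th (F : Finset J) (i : I) (y : J → ℝ) : ℝ :=
  if i ∈ P.med F then
    16 ^ P.lev F i * P.φ (P.lev F i) i y - 1 / 10000 * (1 - (1 / 2) ^ (P.lev F i + 1))
  else if i ∈ P.sml F then -(1 / 10000) else 0

/-- Exponent of an element. -/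
noncomputable def Th (F : Finset J) (j : J) (y : J → ℝ) : ℝ :=
  ∑ i ∈ P.I1, |P.a i j| * P.th F i y

/-- The scale of the exponents. -/
noncomputable def η : ℝ := 100 * P.c0 / P.t

/-- The objective function. -/
noncomputable def f (F : Finset J) (y : J → ℝ) : ℝ :=
  ∑ j ∈ F, exp (P.η * P.Th F j y) + ∑ j, (1 - y j ^ 2)

theorem η_pos : 0 < P.η := by
  have := P.c0_pos
  have := P.ht
  unfold η
  have : 0 < P.t := by linarith
  positivity

/-- The contributions at a fixed point decrease when the alive set shrinks. -/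
theorem th_mono {F F' : Finset J} (hFF : F' ⊆ F) {i : I} (hi : i ∈ P.I1) {y : J → ℝ}
    (hy : ∀ j, |y j| ≤ 1) (hF' : ∀ j ∉ F', |y j| = 1)
    (hbig : i ∈ P.big F → ∑ v, P.a i v * y v = 0)
    (hmed : i ∈ P.med F → |∑ v, P.a i v * y v| ≤ P.Tp (P.lev F i + 1)) :
    P.th F' i y ≤ P.th F i y := by
  classical
  have hmono := P.mass_mono hFF i
  have hG : ∀ k : ℕ, (1 : ℝ) / 10000 * (1 - (1 / 2) ^ (k + 1)) ≤ 1 / 10000 := by
    intro k
    have : (0 : ℝ) < (1 / 2) ^ (k + 1) := by positivity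
    linarith
  -- lower bound for the old value
  by_cases h1 : i ∈ P.med F
  · by_cases h2 : i ∈ P.med F'
    · have hm' := P.mem_med.mp h2
      have h0' := P.med_mass_pos h2
      have hlev := P.lev_mono hFF h0'
      rw [th, if_pos h2, th, if_pos h1]
      rcases hlev.lt_or_eq with hlt | heq
      · -- level increases
        have hα : |∑ v, P.a i v * y v| ≤ P.Tp (P.lev F' i) :=
          (hmed h1).trans (P.Tp_mono hlt)
        have hmass : 16 ^ P.lev F' i * ∑ v, P.a i v ^ 2 * (1 - y v ^ 2) ≤ 10 * P.t := by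
          refine le_trans ?_ (P.lev_le h0' hm'.2.2)
          exact mul_le_mul_of_nonneg_left (P.energy_le_mass i hy hF') (by positivity)
        have h3 := P.φ_reset (P.lev F' i) i y hα hmass
        have h4 := reset_sum (P.lev F' i)
        have h5 : (16 : ℝ) ^ P.lev F' i * P.φ (P.lev F' i) i y
            ≤ 1 / 10000 * (1 / 2) ^ (P.lev F' i + 1) :=
          (mul_le_mul_of_nonneg_left h3 (by positivity)).trans h4
        have h6 : ((1 : ℝ) / 2) ^ (P.lev F' i) ≤ (1 / 2) ^ (P.lev F i + 1) :=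
          pow_le_pow_of_le_one (by norm_num) (by norm_num) hlt
        have h7 : ((1 : ℝ) / 2) ^ (P.lev F' i + 1) = (1 / 2) ^ (P.lev F' i) * (1 / 2) := pow_succ _ _
        have h8 : 0 < (16 : ℝ) ^ P.lev F i * P.φ (P.lev F i) i y :=
          mul_pos (by positivity) (P.φ_pos _ _ _)
        rw [h7] at h5 ⊢
        linarith
      · rw [heq]
    · -- leaves the medium class: becomes small
      rw [th, if_neg h2, th, if_pos h1]
      have hm := P.mem_med.mp h1
      have h3 : i ∈ P.sml F' := by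
        rw [P.mem_sml]
        refine ⟨hi, ?_, hmono.trans hm.2.2⟩
        by_contra hcon
        push Not at hcon
        exact h2 (P.mem_med.mpr ⟨hi, hcon, hmono.trans hm.2.2⟩)
      rw [if_pos h3]
      have h8 : 0 < (16 : ℝ) ^ P.lev F i * P.φ (P.lev F i) i y :=
        mul_pos (by positivity) (P.φ_pos _ _ _)
      have := hG (P.lev F i)
      linarith
  · by_cases h1s : i ∈ P.sml F
    · have hm := P.mem_sml.mp h1s
      have h2 : i ∉ P.med F' := by
        rw [P.mem_med]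
        rintro ⟨-, h3, -⟩
        linarith [hm.2.1]
      have h3 : i ∈ P.sml F' := P.mem_sml.mpr ⟨hi, hmono.trans hm.2.1, hmono.trans hm.2.2⟩
      rw [th, if_neg h2, if_pos h3, th, if_neg h1, if_pos h1s]
    · -- big before
      have hb : i ∈ P.big F := by
        rw [P.mem_big]
        refine ⟨hi, ?_⟩
        by_contra hcon
        push Not at hcon
        by_cases h3 : P.mass F i ≤ P.c0
        · exact h1s (P.mem_sml.mpr ⟨hi, h3, hcon⟩)
        · push Not at h3
          exact h1 (P.mem_med.mpr ⟨hi, h3, hcon⟩)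
      have hα0 := hbig hb
      have hold : P.th F i y = 0 := by rw [th, if_neg h1, if_neg h1s]
      rw [hold]
      by_cases h2 : i ∈ P.med F'
      · have hm' := P.mem_med.mp h2
        have h0' := P.med_mass_pos h2
        rw [th, if_pos h2]
        have hα : |∑ v, P.a i v * y v| ≤ P.Tp (P.lev F' i) := by
          rw [hα0, abs_zero]; exact P.Tp_nonneg _
        have hmass : 16 ^ P.lev F' i * ∑ v, P.a i v ^ 2 * (1 - y v ^ 2) ≤ 10 * P.t := by
          refine le_trans ?_ (P.lev_le h0' hm'.2.2)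
          exact mul_le_mul_of_nonneg_left (P.energy_le_mass i hy hF') (by positivity)
        have h3 := P.φ_reset (P.lev F' i) i y hα hmass
        have h4 := reset_sum (P.lev F' i)
        have h5 : (16 : ℝ) ^ P.lev F' i * P.φ (P.lev F' i) i y
            ≤ 1 / 10000 * (1 / 2) ^ (P.lev F' i + 1) :=
          (mul_le_mul_of_nonneg_left h3 (by positivity)).trans h4
        have h6 : ((1 : ℝ) / 2) ^ (P.lev F' i) ≤ 1 := half_pow_le _
        have h7 : ((1 : ℝ) / 2) ^ (P.lev F' i + 1) = (1 / 2) ^ (P.lev F' i) * (1 / 2) := pow_succ _ _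
        rw [h7] at h5 ⊢
        linarith
      · rw [th, if_neg h2]
        split_ifs <;> norm_num

/-- At the origin all exponents are nonpositive. -/
theorem Th_zero (j : J) : P.Th Finset.univ j (fun _ => 0) ≤ 0 := by
  classical
  refine Finset.sum_nonpos fun i _ => ?_
  have h1 : P.th Finset.univ i (fun _ => (0 : ℝ)) ≤ 0 := by
    unfold th
    split_ifs with h2 h3
    · have hm' := P.mem_med.mp h2
      have h0' := P.med_mass_pos h2
      have hα : |∑ v, P.a i v * (fun _ : J => (0 : ℝ)) v| ≤ P.Tp (P.lev Finset.univ i) := by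
        simp only [mul_zero, Finset.sum_const_zero, abs_zero]
        exact P.Tp_nonneg _
      have hmass : 16 ^ P.lev Finset.univ i *
          ∑ v, P.a i v ^ 2 * (1 - (fun _ : J => (0 : ℝ)) v ^ 2) ≤ 10 * P.t := by
        refine le_trans ?_ (P.lev_le h0' hm'.2.2)
        refine mul_le_mul_of_nonneg_left (P.energy_le_mass i (fun j => by simp) ?_) (by positivity)
        intro j hj
        exact absurd (Finset.mem_univ j) hj
      have h3 := P.φ_reset (P.lev Finset.univ i) i _ hα hmass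
      have h4 := reset_sum (P.lev Finset.univ i)
      have h5 : (16 : ℝ) ^ P.lev Finset.univ i * P.φ (P.lev Finset.univ i) i (fun _ => 0)
          ≤ 1 / 10000 * (1 / 2) ^ (P.lev Finset.univ i + 1) :=
        (mul_le_mul_of_nonneg_left h3 (by positivity)).trans h4
      have h6 : ((1 : ℝ) / 2) ^ (P.lev Finset.univ i) ≤ 1 := half_pow_le _
      have h7 : ((1 : ℝ) / 2) ^ (P.lev Finset.univ i + 1)
          = (1 / 2) ^ (P.lev Finset.univ i) * (1 / 2) := pow_succ _ _
      rw [h7] at h5 ⊢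
      linarith
    · norm_num
    · exact le_rfl
  have h2 := abs_nonneg (P.a i j)
  nlinarith

/-- Split form of the exponents. -/
theorem Th_eq (F : Finset J) (j : J) (y : J → ℝ) :
    P.Th F j y = ∑ i ∈ P.med F, |P.a i j| * (16 ^ P.lev F i * P.φ (P.lev F i) i y)
      - (∑ i ∈ P.med F, |P.a i j| * (1 / 10000 * (1 - (1 / 2) ^ (P.lev F i + 1)))
        + ∑ i ∈ P.sml F, |P.a i j| * (1 / 10000)) := by
  classical
  have hdisj : Disjoint (P.med F) (P.sml F) := by
    rw [Finset.disjoint_left]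
    intro i h1 h2
    have := (P.mem_med.mp h1).2.1
    have := (P.mem_sml.mp h2).2.1
    linarith
  have hsub : P.med F ∪ P.sml F ⊆ P.I1 := by
    intro i hi
    rcases Finset.mem_union.mp hi with h | h
    · exact (P.mem_med.mp h).1
    · exact (P.mem_sml.mp h).1
  unfold Th
  rw [← Finset.sum_subset hsub, Finset.sum_union hdisj]
  · have h1 : ∑ i ∈ P.med F, |P.a i j| * P.th F i y
        = ∑ i ∈ P.med F, |P.a i j| * (16 ^ P.lev F i * P.φ (P.lev F i) i y)
          - ∑ i ∈ P.med F, |P.a i j| * (1 / 10000 * (1 - (1 / 2) ^ (P.lev F i + 1))) := by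
      rw [← Finset.sum_sub_distrib]
      refine Finset.sum_congr rfl fun i hi => ?_
      rw [th, if_pos hi]; ring
    have h2 : ∑ i ∈ P.sml F, |P.a i j| * P.th F i y = -∑ i ∈ P.sml F, |P.a i j| * (1 / 10000) := by
      rw [← Finset.sum_neg_distrib]
      refine Finset.sum_congr rfl fun i hi => ?_
      have h3 : i ∉ P.med F := fun h => Finset.disjoint_left.mp hdisj h hi
      rw [th, if_neg h3, if_pos hi]; ring
    rw [h1, h2]; ring
  · intro i hi hi2
    rw [Finset.mem_union] at hi2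
    push Not at hi2
    rw [th, if_neg hi2.1, if_neg hi2.2, mul_zero]

/-- The correction term is small. -/
theorem corr_le (F : Finset J) (j : J) :
    ∑ i ∈ P.med F, |P.a i j| * (1 / 10000 * (1 - (1 / 2) ^ (P.lev F i + 1)))
        + ∑ i ∈ P.sml F, |P.a i j| * (1 / 10000) ≤ P.t / 10000 := by
  classical
  have hdisj : Disjoint (P.med F) (P.sml F) := by
    rw [Finset.disjoint_left]
    intro i h1 h2
    have := (P.mem_med.mp h1).2.1
    have := (P.mem_sml.mp h2).2.1
    linarith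
  have h1 : ∑ i ∈ P.med F, |P.a i j| * (1 / 10000 * (1 - (1 / 2) ^ (P.lev F i + 1)))
      ≤ ∑ i ∈ P.med F, |P.a i j| * (1 / 10000) := by
    refine Finset.sum_le_sum fun i _ => mul_le_mul_of_nonneg_left ?_ (abs_nonneg _)
    have : (0 : ℝ) < (1 / 2) ^ (P.lev F i + 1) := by positivity
    linarith
  have h2 : ∑ i ∈ P.med F, |P.a i j| * (1 / 10000) + ∑ i ∈ P.sml F, |P.a i j| * (1 / 10000)
      = ∑ i ∈ P.med F ∪ P.sml F, |P.a i j| * (1 / 10000) := (Finset.sum_union hdisj).symm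
  have h3 : ∑ i ∈ P.med F ∪ P.sml F, |P.a i j| * (1 / 10000) ≤ ∑ i, |P.a i j| * (1 / 10000) :=
    Finset.sum_le_sum_of_subset_of_nonneg (Finset.subset_univ _)
      (fun i _ _ => mul_nonneg (abs_nonneg _) (by norm_num))
  have h4 : ∑ i, |P.a i j| * (1 / 10000) = (∑ i, |P.a i j|) * (1 / 10000) := by
    rw [Finset.sum_mul]
  have h5 := P.col j
  linarith

end Sys

end H167BJ
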