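import Pool.Agent.H167R2.BKStep
import Pool.Agent.H167R2.FKBlock

/-!
# The abstract stage lemma
-/

namespace H167BK

open Finset Real H167BJ

variable {I J T : Type*} [Fintype I] [Fintype J]

/-- Two alive elements are adjacent if they share a row of alive mass more than `c0`. -/
def adj (a : I → J → ℝ) (c0 : ℝ) (F : Finset J) (v w : J) : Prop :=
  v ∈ F ∧ w ∈ F ∧ ∃ i, c0 < ∑ u ∈ F, |a i u| ∧ a i v ≠ 0 ∧ a i w ≠ 0

open Classical in
/-- The component of `v`. -/
noncomputable def comp (a : I → J → ℝ) (c0 : ℝ) (F : Finset J) (v : J) : Finset J :=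
  F.filter (fun w => Relation.ReflTransGen (adj a c0 F) v w)

omit [Fintype I] [Fintype J] in
theorem adj_symm {a : I → J → ℝ} {c0 : ℝ} {F : Finset J} {v w : J} (h : adj a c0 F v w) :
    adj a c0 F w v := by
  obtain ⟨h1, h2, i, h3, h4, h5⟩ := h
  exact ⟨h2, h1, i, h3, h5, h4⟩

omit [Fintype I] [Fintype J] in
theorem comp_sub (a : I → J → ℝ) (c0 : ℝ) (F : Finset J) (v : J) : comp a c0 F v ⊆ F := by
  classical
  exact Finset.filter_subset _ _

omit [Fintype I] [Fintype J] in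
theorem mem_comp {a : I → J → ℝ} {c0 : ℝ} {F : Finset J} {v w : J} :
    w ∈ comp a c0 F v ↔ w ∈ F ∧ Relation.ReflTransGen (adj a c0 F) v w := by
  classical
  unfold comp; rw [Finset.mem_filter]

omit [Fintype I] [Fintype J] in
theorem comp_closed {a : I → J → ℝ} {c0 : ℝ} {F : Finset J} {v w w' : J}
    (h : w ∈ comp a c0 F v) (h2 : adj a c0 F w w') : w' ∈ comp a c0 F v := by
  rw [mem_comp] at h ⊢
  exact ⟨h2.2.1, h.2.tail h2⟩

omit [Fintype I] [Fintype J] in
theorem comp_rows {a : I → J → ℝ} {c0 : ℝ} {F : Finset J} {v : J} {i : I}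
    (hi : c0 < ∑ u ∈ F, |a i u|) (hm : ∃ u ∈ comp a c0 F v, a i u ≠ 0) :
    ∀ w ∈ F, a i w ≠ 0 → w ∈ comp a c0 F v := by
  intro w hw hw2
  obtain ⟨u, hu, hu2⟩ := hm
  exact comp_closed hu ⟨comp_sub _ _ _ _ hu, hw, i, hi, hu2, hw2⟩

namespace Sys

variable (P : Sys I J T)

theorem isCompact_Fs (F F' : Finset J) (x : J → ℝ) : IsCompact (P.Fs F F' x) := by
  have hK : IsCompact (Set.pi Set.univ (fun _ : J => Set.Icc (-1 : ℝ) 1)) :=
    isCompact_univ_pi fun _ => isCompact_Icc
  refine hK.of_isClosed_subset ?_ ?_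
  · have h1 : IsClosed {y : J → ℝ | ∀ j ∉ F', y j = x j} := by
      simp only [Set.ofPred_forall]
      exact isClosed_iInter fun j => isClosed_iInter fun _ =>
        isClosed_eq (continuous_apply j) continuous_const
    have h2 : IsClosed {y : J → ℝ | ∀ j, |y j| ≤ 1} := by
      simp only [Set.ofPred_forall]
      exact isClosed_iInter fun j => isClosed_le (by fun_prop) continuous_const
    have h4 : IsClosed {y : J → ℝ | ∀ i ∈ P.big F, P.A i y = 0} := by
      simp only [Set.ofPred_forall]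
      exact isClosed_iInter fun j => isClosed_iInter fun _ =>
        isClosed_eq (by unfold A; fun_prop) continuous_const
    have h5 : IsClosed {y : J → ℝ | ∀ i ∈ P.med F, |P.A i y| ≤ P.Tp (P.lev F i + 1)} := by
      simp only [Set.ofPred_forall]
      exact isClosed_iInter fun j => isClosed_iInter fun _ =>
        isClosed_le (by unfold A; fun_prop) continuous_const
    exact h1.inter (h2.inter (h4.inter h5))
  · intro y hy j _
    exact abs_le.mp (hy.2.1 j)

theorem continuous_f (F : Finset J) : Continuous (P.f F) := by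
  have h : P.f F = fun y => ∑ τ ∈ P.S, P.wt τ * exp (
      (∑ i ∈ P.med F, P.b τ i (P.lev F i) * (P.w (P.lev F i) * P.φ (P.lev F i) i y)
      - P.off F τ)) + ∑ j, (1 - y j ^ 2) := by
    funext y
    unfold f
    simp only [P.Th_eq]
  rw [h]
  unfold φ A
  fun_prop

open Classical in
/-- The colour sum of the frozen part, relative to the base point. -/
noncomputable def Bq (F : Finset J) (i : I) (y : J → ℝ) : ℝ :=
  (∑ v, if v ∈ F then 0 else P.a i v * y v) - ∑ v, P.a i v * P.x0 v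

/-- The invariant of the process. -/
structure Inv (x : J → ℝ) : Prop where
  box : ∀ j, |x j| ≤ 1
  froz : ∀ j, |P.x0 j| = 1 → x j = P.x0 j
  bigz : ∀ i ∈ P.big (H167FK.Sys.alive x), P.A i x = 0
  medb : ∀ i ∈ P.med (H167FK.Sys.alive x),
    |P.A i x| ≤ P.Tp (P.lev (H167FK.Sys.alive x) i + 1)
  smlb : ∀ i, P.mass (H167FK.Sys.alive x) i ≤ P.c0 →
    |P.Bq (H167FK.Sys.alive x) i x| + P.mass (H167FK.Sys.alive x) i
      ≤ 80 * Real.sqrt P.t + 2 * P.c0
  pot : P.f (H167FK.Sys.alive x) x ≤ 2 * P.N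

theorem A_eq (F : Finset J) (i : I) (y : J → ℝ) :
    P.A i y = P.Bq F i y + ∑ v ∈ F, P.a i v * y v := by
  classical
  have h3 : ∑ j ∈ F, P.a i j * y j = ∑ j, if j ∈ F then P.a i j * y j else 0 :=
    (sum_restrict F _ _ (fun j hj => if_pos hj) (fun j hj => if_neg hj)).symm
  unfold A Bq
  rw [h3]
  have h4 : ∑ v, P.a i v * (y v - P.x0 v) = ∑ v, P.a i v * y v - ∑ v, P.a i v * P.x0 v := by
    rw [← Finset.sum_sub_distrib]
    exact Finset.sum_congr rfl fun v _ => by ring
  have h5 : ∑ v, P.a i v * y v = (∑ v, if v ∈ F then 0 else P.a i v * y v)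
      + ∑ v, (if v ∈ F then P.a i v * y v else 0) := by
    rw [← Finset.sum_add_distrib]
    refine Finset.sum_congr rfl fun j _ => ?_
    by_cases hj : j ∈ F <;> simp [hj]
  rw [h4, h5]
  ring

theorem abs_sum_le (F : Finset J) (i : I) {y : J → ℝ} (hy : ∀ j, |y j| ≤ 1) :
    |∑ v ∈ F, P.a i v * y v| ≤ P.mass F i := by
  refine (Finset.abs_sum_le_sum_abs _ _).trans (Finset.sum_le_sum fun j _ => ?_)
  rw [abs_mul]
  have := hy j
  have := abs_nonneg (P.a i j)
  nlinarith

/-- Releasing a row. -/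
theorem release (F : Finset J) (i : I) {y : J → ℝ} (hy : ∀ j, |y j| ≤ 1) :
    |P.Bq F i y| ≤ |P.A i y| + P.mass F i := by
  have h1 := P.A_eq F i y
  have h2 := P.abs_sum_le F i hy
  have h3 : P.Bq F i y = P.A i y - ∑ v ∈ F, P.a i v * y v := by linarith
  rw [h3]
  exact (abs_sub _ _).trans (by linarith)

theorem finish (F : Finset J) (i : I) {y : J → ℝ} (hy : ∀ j, |y j| ≤ 1) :
    |P.A i y| ≤ |P.Bq F i y| + P.mass F i := by
  rw [P.A_eq F i y]
  exact (abs_add_le _ _).trans (add_le_add le_rfl (P.abs_sum_le F i hy))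

theorem trichotomy (F : Finset J) (i : I) :
    i ∈ P.big F ∨ i ∈ P.med F ∨ P.mass F i ≤ P.c0 := by
  rw [P.mem_big, P.mem_med]
  rcases lt_or_ge P.c0 (P.mass F i) with h | h
  · rcases lt_or_ge (10 * P.t) (P.mass F i) with h2 | h2
    · exact Or.inl ⟨h, h2⟩
    · exact Or.inr (Or.inl ⟨h, h2⟩)
  · exact Or.inr (Or.inr h)

/-- The potentials on large components are under control. -/
def Good (k : ℕ) : Prop :=
  ∀ (F : Finset J) (v : J) (y : J → ℝ), F ⊆ H167FK.Sys.alive P.x0 → v ∈ F →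
    k ≤ (comp P.a P.c0 F v).card → (∀ j, |y j| ≤ 1) → P.f F y ≤ 2 * P.N →
    100 * ∑ i ∈ P.R F (comp P.a P.c0 F v), P.W F y i ≤ 2 * ((comp P.a P.c0 F v).card : ℝ) ∧
    ∀ Tt : Finset I, (∀ i ∈ Tt, i ∈ P.R F (comp P.a P.c0 F v) ∧
      |P.A i y| = P.Tp (P.lev F i + 1)) → 10 * (Tt.card : ℝ) ≤ (comp P.a P.c0 F v).card

/-- Every medium row is seen by some test. -/
def Seen : Prop :=
  ∀ (F F' : Finset J), F ⊆ H167FK.Sys.alive P.x0 → ∀ i ∈ P.R F F', ∃ τ ∈ P.S,
    0 < P.b τ i (P.lev F i)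

theorem Inv.alive_sub {P : Sys I J T} {x : J → ℝ} (hx : P.Inv x) :
    H167FK.Sys.alive x ⊆ H167FK.Sys.alive P.x0 := by
  classical
  intro j hj
  by_contra hcon
  have h1 := H167FK.Sys.abs_eq_one P.hx0 hcon
  have h2 := hx.froz j h1
  unfold H167FK.Sys.alive at hj
  rw [Finset.mem_filter, h2, h1] at hj
  exact lt_irrefl _ hj.2

theorem step (k : ℕ) (hgood : P.Good k) (hW : P.Seen)
    (x : J → ℝ) (hx : P.Inv x) (v0 : J) (hv0 : v0 ∈ H167FK.Sys.alive x)
    (hk : k ≤ (comp P.a P.c0 (H167FK.Sys.alive x) v0).card) :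
    ∃ y : J → ℝ, P.Inv y ∧ (H167FK.Sys.alive y).card < (H167FK.Sys.alive x).card := by
  classical
  set A : Finset J := H167FK.Sys.alive x with hA
  set F' : Finset J := comp P.a P.c0 A v0 with hF'
  have hF'A : F' ⊆ A := comp_sub _ _ _ _
  have hv0F' : v0 ∈ F' := by
    rw [hF', mem_comp]
    exact ⟨hv0, Relation.ReflTransGen.refl⟩
  have hn : 0 < F'.card := Finset.card_pos.mpr ⟨v0, hv0F'⟩
  have hcl : ∀ i, P.c0 < P.mass A i → (∃ v ∈ F', P.a i v ≠ 0) →
      ∀ v ∈ A, P.a i v ≠ 0 → v ∈ F' := fun i hi hm => comp_rows hi hm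
  have hxA : ∀ j, j ∉ A → |x j| = 1 := fun j hj => H167FK.Sys.abs_eq_one hx.box hj
  have hxF : x ∈ P.Fs A F' x := ⟨fun j _ => rfl, hx.box, hx.bigz, hx.medb⟩
  obtain ⟨y, hyF, hymin⟩ := (P.isCompact_Fs A F' x).exists_isMinOn ⟨x, hxF⟩
    (P.continuous_f A).continuousOn
  have hfy : P.f A y ≤ P.f A x := hymin hxF
  have hfy2 : P.f A y ≤ 2 * P.N := hfy.trans hx.pot
  -- some coordinate gets frozen
  have hfrozen : ∃ j ∈ F', |y j| = 1 := by
    by_contra hcon
    push Not at hcon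
    have hlt : ∀ j ∈ F', |y j| < 1 := fun j hj => lt_of_le_of_ne (hyF.2.1 j) (hcon j hj)
    obtain ⟨hg1, hg2⟩ := hgood A v0 y hx.alive_sub hv0 hk hyF.2.1 hfy2
    exact P.no_min A F' x y hyF hlt hn hF'A hcl hg1
      (hg2 _ (fun i hi => Finset.mem_filter.mp hi)) (hW A F' hx.alive_sub)
      (fun z hz => hymin hz)
  have hyA : ∀ j ∉ A, |y j| = 1 := fun j hj => by
    rw [hyF.1 j (fun h => hj (hF'A h))]; exact hxA j hj
  have hsub : H167FK.Sys.alive y ⊆ A := by
    intro j hj
    by_contra hjA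
    unfold H167FK.Sys.alive at hj
    rw [Finset.mem_filter] at hj
    have := hyA j hjA
    linarith [hj.2]
  have hy1 : ∀ j ∉ H167FK.Sys.alive y, |y j| = 1 := fun j hj => H167FK.Sys.abs_eq_one hyF.2.1 hj
  set A' : Finset J := H167FK.Sys.alive y with hA'
  have hmono : ∀ i, P.mass A' i ≤ P.mass A i := fun i => P.mass_mono hsub i
  have hbigsub : ∀ i ∈ P.big A', i ∈ P.big A := by
    intro i hi
    rw [P.mem_big] at hi ⊢
    exact ⟨hi.1.trans_le (hmono i), hi.2.trans_le (hmono i)⟩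
  have hxy : ∀ j ∉ A, y j = x j := fun j hj => hyF.1 j (fun h => hj (hF'A h))
  refine ⟨y, ⟨hyF.2.1, ?_, fun i hi => hyF.2.2.1 i (hbigsub i hi), ?_, ?_, ?_⟩, ?_⟩
  · intro j hj
    have h1 := hx.froz j hj
    have h2 : j ∉ A := by
      rw [hA]
      unfold H167FK.Sys.alive
      rw [Finset.mem_filter, h1, hj]
      simp
    rw [hxy j h2, h1]
  · -- medium rows
    intro i hi
    rw [← hA'] at hi ⊢
    rcases P.trichotomy A i with h | h | h
    · rw [hyF.2.2.1 i h, abs_zero]
      exact P.Tp_nonneg _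
    · refine (hyF.2.2.2 i h).trans (P.Tp_mono ?_)
      have := P.lev_mono hsub (P.med_mass_pos hi)
      omega
    · exfalso
      have h2 := (P.mem_med.mp hi).1
      have h3 := hmono i
      linarith
  · -- small rows
    intro i him
    rw [← hA'] at him ⊢
    have hs := P.sqrt_ge
    rcases P.trichotomy A i with h | h | h
    · have h1 := P.release A' i hyF.2.1
      rw [hyF.2.2.1 i h, abs_zero, zero_add] at h1
      linarith
    · have h1 := P.release A' i hyF.2.1
      have h2 := hyF.2.2.2 i h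
      have h3 := P.Tp_le (P.lev A i + 1)
      linarith
    · have h1 := hx.smlb i h
      rw [← hA] at h1
      refine le_trans ?_ h1
      have h2 : P.Bq A' i y = P.Bq A i x
            + ∑ j, (if j ∈ A ∧ j ∉ A' then P.a i j * y j else 0) := by
        unfold Bq
        have h3 : (∑ j, if j ∈ A' then 0 else P.a i j * y j)
            = (∑ j, if j ∈ A then 0 else P.a i j * x j)
            + ∑ j, (if j ∈ A ∧ j ∉ A' then P.a i j * y j else 0) := by
          rw [← Finset.sum_add_distrib]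
          refine Finset.sum_congr rfl fun j _ => ?_
          by_cases hj : j ∈ A
          · by_cases hj2 : j ∈ A' <;> simp [hj, hj2]
          · have hj2 : j ∉ A' := fun h => hj (hsub h)
            simp [hj, hj2, hxy j hj]
        rw [h3]; ring
      have h3 : P.mass A i = P.mass A' i + ∑ j, (if j ∈ A ∧ j ∉ A' then |P.a i j| else 0) := by
        have h4 : P.mass A i = ∑ j, (if j ∈ A then |P.a i j| else 0) :=
          (sum_restrict A _ _ (fun j hj => if_pos hj) (fun j hj => if_neg hj)).symm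
        have h5 : P.mass A' i = ∑ j, (if j ∈ A' then |P.a i j| else 0) :=
          (sum_restrict A' _ _ (fun j hj => if_pos hj) (fun j hj => if_neg hj)).symm
        rw [h4, h5, ← Finset.sum_add_distrib]
        refine Finset.sum_congr rfl fun j _ => ?_
        by_cases hj : j ∈ A
        · by_cases hj2 : j ∈ A' <;> simp [hj, hj2]
        · have hj2 : j ∉ A' := fun h => hj (hsub h)
          simp [hj, hj2]
      have h4 : |∑ j, (if j ∈ A ∧ j ∉ A' then P.a i j * y j else 0)|
          ≤ ∑ j, (if j ∈ A ∧ j ∉ A' then |P.a i j| else 0) := by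
        refine (Finset.abs_sum_le_sum_abs _ _).trans (Finset.sum_le_sum fun j _ => ?_)
        by_cases hj : j ∈ A ∧ j ∉ A'
        · simp only [hj, if_true, and_self, not_false_eq_true, abs_mul]
          rw [hy1 j hj.2, mul_one]
        · simp [hj]
      rw [h2, h3]
      have h5 := abs_add_le (P.Bq A i x) (∑ j, (if j ∈ A ∧ j ∉ A' then P.a i j * y j else 0))
      linarith
  · -- potential
    refine le_trans ?_ hfy2
    unfold f
    rw [← hA']
    have h1 : ∑ τ ∈ P.S, P.wt τ * exp (P.Th A' τ y) ≤ ∑ τ ∈ P.S, P.wt τ * exp (P.Th A τ y) := by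
      refine Finset.sum_le_sum fun τ hτ => mul_le_mul_of_nonneg_left ?_ (P.hwt τ hτ).le
      apply exp_le_exp.mpr
      unfold Th
      refine Finset.sum_le_sum fun i _ => Finset.sum_le_sum fun l _ =>
        mul_le_mul_of_nonneg_left ?_ (P.hb0 τ hτ i l)
      exact P.th_mono hsub i l hy1 (fun h => hyF.2.2.1 i h) (fun h => hyF.2.2.2 i h)
    linarith
  · obtain ⟨j, hjA, hj1⟩ := hfrozen
    apply Finset.card_lt_card
    refine ⟨hsub, fun hcon => ?_⟩
    have := hcon (hF'A hjA)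
    unfold H167FK.Sys.alive at this
    rw [Finset.mem_filter] at this
    linarith [this.2]

theorem inv_base : P.Inv P.x0 := by
  classical
  have hs := P.sqrt_ge
  have hc0 := P.c0_pos
  have hA : ∀ i, P.A i P.x0 = 0 := fun i => by unfold A; simp
  have hfr : ∀ j ∉ H167FK.Sys.alive P.x0, |P.x0 j| = 1 :=
    fun j hj => H167FK.Sys.abs_eq_one P.hx0 hj
  refine ⟨P.hx0, fun j _ => rfl, fun i _ => hA i, fun i hi => ?_, fun i hi => ?_, ?_⟩
  · rw [hA i, abs_zero]
    exact P.Tp_nonneg _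
  · have h1 := P.release (H167FK.Sys.alive P.x0) i P.hx0
    rw [hA i, abs_zero, zero_add] at h1
    linarith
  · unfold f
    have h1 : ∑ τ ∈ P.S, P.wt τ * exp (P.Th (H167FK.Sys.alive P.x0) τ P.x0)
        ≤ ∑ τ ∈ P.S, P.wt τ := by
      refine Finset.sum_le_sum fun τ hτ => ?_
      have h2 : exp (P.Th (H167FK.Sys.alive P.x0) τ P.x0) ≤ 1 := by
        rw [Real.exp_le_one_iff]
        unfold Th
        refine Finset.sum_nonpos fun i _ => Finset.sum_nonpos fun l _ =>
          mul_nonpos_of_nonneg_of_nonpos (P.hb0 τ hτ i l) (P.th_base _ i l hfr)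
      have := mul_le_mul_of_nonneg_left h2 (P.hwt τ hτ).le
      linarith
    have h2 : ∑ j, (1 - P.x0 j ^ 2) ≤ ((H167FK.Sys.alive P.x0).card : ℝ) := by
      have h3 : ∑ j, (1 - P.x0 j ^ 2) = ∑ j ∈ H167FK.Sys.alive P.x0, (1 - P.x0 j ^ 2) := by
        symm
        refine Finset.sum_subset (Finset.subset_univ _) fun j _ hj => ?_
        have h4 : P.x0 j ^ 2 = 1 := by rw [← sq_abs, hfr j hj]; norm_num
        rw [h4]; ring
      rw [h3]
      calc ∑ j ∈ H167FK.Sys.alive P.x0, (1 - P.x0 j ^ 2)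
          ≤ ∑ j ∈ H167FK.Sys.alive P.x0, (1 : ℝ) :=
            Finset.sum_le_sum fun j _ => by linarith [sq_nonneg (P.x0 j)]
        _ = _ := by simp
    have h3 := P.hN
    have h4 := P.hwtN
    linarith

/-- The frozen part does not see the alive part. -/
theorem Bq_ext (F : Finset J) (i : I) {x z : J → ℝ} (h : ∀ j ∉ F, z j = x j) :
    P.Bq F i z = P.Bq F i x := by
  classical
  unfold Bq
  congr 1
  refine Finset.sum_congr rfl fun j _ => ?_
  by_cases hj : j ∈ F
  · simp [hj]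
  · simp [hj, h j hj]

/-- **Stage lemma**, abstract form. -/
theorem stage (k : ℕ) (hgood : P.Good k) (hW : P.Seen) :
    ∃ y : J → ℝ, (∀ j, |y j| ≤ 1) ∧ (∀ j, |P.x0 j| = 1 → y j = P.x0 j) ∧
      (∀ i, |∑ v, P.a i v * (y v - P.x0 v)| ≤ 80 * Real.sqrt P.t ∨
        ∀ z : J → ℝ, (∀ j, |z j| ≤ 1) → (∀ j, |y j| = 1 → z j = y j) →
          |∑ v, P.a i v * (z v - P.x0 v)| ≤ 80 * Real.sqrt P.t + 2 * P.c0) ∧
      ∀ v ∈ H167FK.Sys.alive y, (comp P.a P.c0 (H167FK.Sys.alive y) v).card < k := by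
  classical
  have hex : ∃ k : ℕ, ∃ x : J → ℝ, P.Inv x ∧ (H167FK.Sys.alive x).card = k :=
    ⟨_, _, P.inv_base, rfl⟩
  obtain ⟨x, hx, hxk⟩ := Nat.find_spec hex
  refine ⟨x, hx.box, hx.froz, ?_, ?_⟩
  · intro i
    have hs := P.sqrt_ge
    have hc0 := P.c0_pos
    rcases P.trichotomy (H167FK.Sys.alive x) i with h | h | h
    · left
      show |P.A i x| ≤ _
      rw [hx.bigz i h, abs_zero]; positivity
    · left
      show |P.A i x| ≤ _
      exact (hx.medb i h).trans (P.Tp_le _)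
    · right
      intro z hz hzx
      show |P.A i z| ≤ _
      have h1 := P.finish (H167FK.Sys.alive x) i hz
      rw [P.Bq_ext (H167FK.Sys.alive x) i (x := x) (z := z) (fun j hj =>
        hzx j (H167FK.Sys.abs_eq_one hx.box hj))] at h1
      exact h1.trans (hx.smlb i h)
  · intro v hv
    by_contra hcon
    push Not at hcon
    obtain ⟨y, hy, hyc⟩ := P.step k hgood hW x hx v hv hcon
    exact Nat.find_min hex (m := (H167FK.Sys.alive y).card) (by rw [← hxk]; exact hyc) ⟨y, hy, rfl⟩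

end Sys

end H167BK
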