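import Pool.Agent.H167R2.BJDir

/-!
# A good direction, for general families of test exponents
-/

namespace H167BK

open Finset Real H167BJ

variable {I J T : Type*} [Fintype I] [Fintype J]

/-- Weighted mass of a row. -/
noncomputable def Wt (b : T → I → ℝ) (S : Finset T) (ω : T → ℝ) (i : I) : ℝ :=
  ∑ τ ∈ S, ω τ * b τ i

omit [Fintype I] [Fintype J] in
theorem swap_rows (b : T → I → ℝ) (S : Finset T) (R : Finset I) (P l : I → ℝ) (ω : T → ℝ)
    (X : I → ℝ) : ∑ τ ∈ S, ω τ * ∑ i ∈ R, b τ i * (P i * (l i ^ 2 * X i))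
      = ∑ i ∈ R, P i * l i ^ 2 * Wt b S ω i * X i := by
  simp only [Finset.mul_sum]
  rw [Finset.sum_comm]
  refine Finset.sum_congr rfl fun i _ => ?_
  simp only [Wt, Finset.mul_sum, Finset.sum_mul]
  exact Finset.sum_congr rfl fun j _ => by ring

/-- Two-sided blocking of the coupling form. -/
theorem coupling_block (a : I → J → ℝ) (S : Finset T) (b : T → I → ℝ) (F : Finset J)
    (R : Finset I) (hb0 : ∀ τ ∈ S, ∀ i ∈ R, 0 ≤ b τ i) (hb1 : ∀ τ ∈ S, ∀ i ∈ R, b τ i ≤ 1)
    (κ : I → ℝ) (hκ : ∀ i ∈ R, 0 < κ i) (z : I → J → ℝ)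
    (hz : ∀ i ∈ R, ∀ v, |z i v| ≤ 3 / 2 * |a i v|) (ω : T → ℝ) (hω : ∀ τ ∈ S, 0 < ω τ)
    (D : J → ℝ) (hD : ∀ v, 0 < D v) (hW0 : ∀ i ∈ R, 0 < Wt b S ω i)
    (hE0 : ∀ i ∈ R, 0 < En a F D i)
    (hn : 0 < F.card) (m : ℕ) (hm : 3 / 20 * (F.card : ℝ) ≤ m + 1) :
    ∃ e : Fin m ⊕ Fin m → J → ℝ, ∀ u : J → ℝ, (∀ v ∉ F, u v = 0) →
      (∀ k, ∑ v, e k v * u v = 0) →
      ∑ τ ∈ S, ω τ * (∑ i ∈ R, b τ i * (κ i * ∑ v, z i v * u v)) ^ 2
        ≤ 100 * (∑ i ∈ R, Real.sqrt (Wt b S ω i * En a F D i) * κ i) ^ 2 / (F.card : ℝ) ^ 2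
          * ∑ v, D v * u v ^ 2 := by
  classical
  set W : I → ℝ := Wt b S ω with hW
  set E : I → ℝ := En a F D with hE
  set r : I → ℝ := fun i => Real.sqrt (W i * E i) with hr
  set Γ : ℝ := ∑ i ∈ R, r i * κ i with hΓ
  have hr0 : ∀ i ∈ R, 0 < r i := fun i hi =>
    Real.sqrt_pos.mpr (mul_pos (hW0 i hi) (hE0 i hi))
  have hr2 : ∀ i ∈ R, r i ^ 2 = W i * E i := fun i hi =>
    Real.sq_sqrt (mul_pos (hW0 i hi) (hE0 i hi)).le
  have hΓ0 : 0 ≤ Γ := Finset.sum_nonneg fun i hi => (mul_pos (hr0 i hi) (hκ i hi)).le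
  let δ : I → ℝ := fun i => if i ∈ R then W i / (r i * κ i) else 1
  have hδR : ∀ i ∈ R, δ i = W i / (r i * κ i) := fun i hi => if_pos hi
  have hδ : ∀ i, 0 < δ i := by
    intro i
    by_cases hi : i ∈ R
    · rw [hδR i hi]
      exact div_pos (hW0 i hi) (mul_pos (hr0 i hi) (hκ i hi))
    · simp [δ, hi]
  have hnR : (0 : ℝ) < F.card := by exact_mod_cast hn
  -- blocking on the left
  obtain ⟨eX, hX⟩ := blocking (J := I) S ω (fun τ hτ => (hω τ hτ).le) δ hδ
    (20 / 3 * Γ / (F.card : ℝ)) m (fun τ i => if i ∈ R then b τ i else 0) (by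
      have h1 : ∑ τ ∈ S, ω τ * ∑ i, (if i ∈ R then b τ i else 0) ^ 2 / δ i ≤ Γ := by
        calc ∑ τ ∈ S, ω τ * ∑ i, (if i ∈ R then b τ i else 0) ^ 2 / δ i
            = ∑ τ ∈ S, ω τ * ∑ i ∈ R, b τ i ^ 2 / δ i := by
              refine Finset.sum_congr rfl fun τ _ => ?_
              congr 1
              exact sum_restrict R _ _ (fun i hi => by rw [if_pos hi])
                (fun i hi => by rw [if_neg hi, zero_pow two_ne_zero, zero_div])
          _ ≤ ∑ τ ∈ S, ω τ * ∑ i ∈ R, b τ i / δ i := by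
              refine Finset.sum_le_sum fun τ hτ => mul_le_mul_of_nonneg_left ?_ (hω τ hτ).le
              refine Finset.sum_le_sum fun i hi => div_le_div_of_nonneg_right ?_ (hδ i).le
              have := hb1 τ hτ i hi
              have := hb0 τ hτ i hi
              nlinarith
          _ = ∑ i ∈ R, W i / δ i := by
              simp_rw [Finset.mul_sum]
              rw [Finset.sum_comm]
              refine Finset.sum_congr rfl fun i _ => ?_
              rw [hW, Wt, Finset.sum_div]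
              exact Finset.sum_congr rfl fun j _ => by ring
          _ = Γ := by
              refine Finset.sum_congr rfl fun i hi => ?_
              rw [hδR i hi]
              have h2 := (hW0 i hi).ne'
              have h3 := (hr0 i hi).ne'
              have h4 := (hκ i hi).ne'
              field_simp
      refine h1.trans ?_
      have h2 : 3 / 20 * (F.card : ℝ) * (20 / 3 * Γ / (F.card : ℝ)) = Γ := by
        field_simp
      calc Γ = 3 / 20 * (F.card : ℝ) * (20 / 3 * Γ / (F.card : ℝ)) := h2.symm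
        _ ≤ _ := mul_le_mul_of_nonneg_right hm (by positivity))
  -- blocking on the right
  obtain ⟨eY, hY⟩ := blocking R (fun i => δ i * κ i ^ 2)
    (fun i _ => mul_nonneg (hδ i).le (sq_nonneg _)) D hD (15 * Γ / (F.card : ℝ)) m
    (fun i v => if v ∈ F then z i v else 0) (by
      have h1 : ∑ i ∈ R, δ i * κ i ^ 2 * ∑ v, (if v ∈ F then z i v else 0) ^ 2 / D v
          ≤ 9 / 4 * Γ := by
        calc ∑ i ∈ R, δ i * κ i ^ 2 * ∑ v, (if v ∈ F then z i v else 0) ^ 2 / D v
            ≤ ∑ i ∈ R, δ i * κ i ^ 2 * (9 / 4 * E i) := by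
              refine Finset.sum_le_sum fun i hi => mul_le_mul_of_nonneg_left ?_
                (mul_nonneg (hδ i).le (sq_nonneg _))
              rw [hE, En, Finset.mul_sum]
              have h2 : ∑ v, (if v ∈ F then z i v else 0) ^ 2 / D v
                  = ∑ v ∈ F, z i v ^ 2 / D v :=
                sum_restrict F _ _ (fun v hv => by rw [if_pos hv])
                  (fun v hv => by rw [if_neg hv, zero_pow two_ne_zero, zero_div])
              rw [h2]
              refine Finset.sum_le_sum fun v _ => ?_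
              rw [← mul_div_assoc]
              apply div_le_div_of_nonneg_right _ (hD v).le
              have h3 := hz i hi v
              have h4 : |z i v| ^ 2 ≤ (3 / 2 * |a i v|) ^ 2 :=
                pow_le_pow_left₀ (abs_nonneg _) h3 2
              rw [sq_abs, mul_pow, sq_abs] at h4
              linarith
          _ = 9 / 4 * Γ := by
              rw [hΓ, Finset.mul_sum]
              refine Finset.sum_congr rfl fun i hi => ?_
              rw [hδR i hi]
              have h2 := (hW0 i hi).ne'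
              have h3 := (hr0 i hi).ne'
              have h4 := (hκ i hi).ne'
              have h5 := hr2 i hi
              have h6 : W i / (r i * κ i) * κ i ^ 2 * (9 / 4 * E i)
                  = 9 / 4 * κ i * (W i * E i) / r i := by
                field_simp
              rw [h6, ← h5]
              field_simp
      refine h1.trans ?_
      have h2 : 3 / 20 * (F.card : ℝ) * (15 * Γ / (F.card : ℝ)) = 9 / 4 * Γ := by
        field_simp
        ring
      calc 9 / 4 * Γ = 3 / 20 * (F.card : ℝ) * (15 * Γ / (F.card : ℝ)) := h2.symm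
        _ ≤ _ := mul_le_mul_of_nonneg_right hm (by positivity))
  refine ⟨Sum.elim (fun k v => ∑ i ∈ R, eX k i * (κ i * z i v)) eY, fun u hu hk => ?_⟩
  -- the vector `w = Y u`
  let w : I → ℝ := fun i => if i ∈ R then κ i * ∑ v, z i v * u v else 0
  have hwX : ∀ k, ∑ i, eX k i * w i = 0 := by
    intro k
    have h1 := hk (Sum.inl k)
    simp only [Sum.elim_inl] at h1
    rw [← h1]
    have h2 : ∑ i, eX k i * w i = ∑ i ∈ R, eX k i * (κ i * ∑ v, z i v * u v) :=
      sum_restrict R _ _ (fun i hi => by simp only [w, if_pos hi])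
        (fun i hi => by simp only [w, if_neg hi, mul_zero])
    rw [h2]
    simp_rw [Finset.sum_mul]
    rw [Finset.sum_comm]
    refine Finset.sum_congr rfl fun i _ => ?_
    rw [Finset.mul_sum, Finset.mul_sum]
    exact Finset.sum_congr rfl fun v _ => by ring
  have h1 := hX w hwX
  have h2 : ∑ τ ∈ S, ω τ * (∑ i, (if i ∈ R then b τ i else 0) * w i) ^ 2
      = ∑ τ ∈ S, ω τ * (∑ i ∈ R, b τ i * (κ i * ∑ v, z i v * u v)) ^ 2 := by
    refine Finset.sum_congr rfl fun j _ => ?_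
    congr 2
    exact sum_restrict R _ _ (fun i hi => by simp only [w, if_pos hi])
      (fun i hi => by simp only [if_neg hi, zero_mul])
  rw [h2] at h1
  refine h1.trans ?_
  have h3 : ∑ i, δ i * w i ^ 2 = ∑ i ∈ R, δ i * κ i ^ 2 *
      (∑ v, (if v ∈ F then z i v else 0) * u v) ^ 2 := by
    refine sum_restrict R _ _ (fun i hi => ?_) (fun i hi => ?_)
    · simp only [w, if_pos hi]
      have h4 : ∑ v, (if v ∈ F then z i v else 0) * u v = ∑ v, z i v * u v := by
        refine Finset.sum_congr rfl fun v _ => ?_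
        by_cases hv : v ∈ F
        · simp [hv]
        · simp [hv, hu v hv]
      rw [h4]; ring
    · simp [w, hi]
  have h4 := hY u (fun k => hk (Sum.inr k))
  rw [← h3] at h4
  calc 20 / 3 * Γ / (F.card : ℝ) * ∑ i, δ i * w i ^ 2
      ≤ 20 / 3 * Γ / (F.card : ℝ) * (15 * Γ / (F.card : ℝ) * ∑ v, D v * u v ^ 2) :=
        mul_le_mul_of_nonneg_left h4 (by positivity)
    _ = 100 * Γ ^ 2 / (F.card : ℝ) ^ 2 * ∑ v, D v * u v ^ 2 := by
        field_simp
        ring

/-- The main direction lemma. -/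
theorem exists_dir {ι : Type*} (a : I → J → ℝ) (ha1 : ∀ i j, |a i j| ≤ 1) (S : Finset T)
    (b : T → I → ℝ) (F : Finset J)
    (R : Finset I) (hb0 : ∀ τ ∈ S, ∀ i ∈ R, 0 ≤ b τ i) (hb1 : ∀ τ ∈ S, ∀ i ∈ R, b τ i ≤ 1)
    (P l th : I → ℝ) (hP : ∀ i ∈ R, 0 < P i) (hl0 : ∀ i ∈ R, 0 < l i)
    (hl : ∀ i ∈ R, l i ≤ 1 / 16) (hth : ∀ i ∈ R, |th i| ≤ 1) (ω : T → ℝ)
    (hω : ∀ τ ∈ S, 0 < ω τ)
    (η0 : ℝ) (hη0 : 0 < η0) (y : J → ℝ) (hy : ∀ j, |y j| ≤ 1)
    (hn : 0 < F.card) (hmass : ∀ i ∈ R, 0 < ∑ v ∈ F, |a i v|)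
    (hW0 : ∀ i ∈ R, 0 < Wt b S ω i)
    (hPs : 100 * ∑ i ∈ R, P i ≤ 2 * (F.card : ℝ))
    (K : Finset ι) (c : ι → (J → ℝ) →ₗ[ℝ] ℝ) (hK : 1000 * (K.card : ℝ) ≤ 201 * F.card) :
    ∃ u : J → ℝ, (∀ j ∉ F, u j = 0) ∧ (∀ k ∈ K, c k u = 0) ∧
      ∑ τ ∈ S, ω τ * (∑ i ∈ R, b τ i * (P i * l i *
          (th i * (∑ v, a i v * u v) - 8 * l i * ∑ v, a i v ^ 2 * y v * u v))) ^ 2
      + ∑ τ ∈ S, ω τ * ∑ i ∈ R, b τ i * (P i * (l i ^ 2 * (2 * (∑ v, a i v * u v) ^ 2
          + 128 * l i ^ 2 * (∑ v, a i v ^ 2 * y v * u v) ^ 2 - 8 * ∑ v, a i v ^ 2 * u v ^ 2)))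
      < 2 * η0 * ∑ v, u v ^ 2 := by
  classical
  have hnR : (0 : ℝ) < F.card := by exact_mod_cast hn
  set W : I → ℝ := Wt b S ω with hW
  set h : I → ℝ := fun i => P i * l i ^ 2 * W i with hh
  have hh0 : ∀ i ∈ R, 0 < h i := fun i hi =>
    mul_pos (mul_pos (hP i hi) (pow_pos (hl0 i hi) 2)) (hW0 i hi)
  set θ : ℝ := η0 / 6 with hθ
  have hθ0 : 0 < θ := by positivity
  set D0 : J → ℝ := fun v => ∑ i ∈ R, h i * a i v ^ 2 with hD0
  have hD0n : ∀ v, 0 ≤ D0 v := fun v =>
    Finset.sum_nonneg fun i hi => mul_nonneg (hh0 i hi).le (sq_nonneg _)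
  set D : J → ℝ := fun v => D0 v + θ with hD
  have hDpos : ∀ v, 0 < D v := fun v => by
    have := hD0n v
    simp only [hD]; linarith
  set E : I → ℝ := En a F D with hE
  have hE0 : ∀ i ∈ R, 0 < E i := fun i hi => En_pos hDpos (hmass i hi)
  -- total energy
  have hEn : ∑ i ∈ R, h i * E i ≤ F.card := by
    have h1 : ∑ i ∈ R, h i * E i = ∑ v ∈ F, D0 v / D v := by
      simp only [hE, En, Finset.mul_sum]
      rw [Finset.sum_comm]
      refine Finset.sum_congr rfl fun v _ => ?_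
      simp only [hD0]
      rw [Finset.sum_div]
      exact Finset.sum_congr rfl fun i _ => by ring
    rw [h1]
    calc ∑ v ∈ F, D0 v / D v ≤ ∑ v ∈ F, (1 : ℝ) := by
          refine Finset.sum_le_sum fun v _ => ?_
          rw [div_le_one (hDpos v)]
          simp only [hD]; linarith
      _ = F.card := by simp
  -- the coupling
  let z : I → J → ℝ := fun i v => a i v * (th i - 8 * l i * (a i v * y v))
  have hz : ∀ i ∈ R, ∀ v, |z i v| ≤ 3 / 2 * |a i v| := by
    intro i hi v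
    simp only [z, abs_mul]
    have h1 : |th i - 8 * l i * (a i v * y v)| ≤ 3 / 2 := by
      have h2 : |8 * l i * (a i v * y v)| ≤ 1 / 2 := by
        rw [abs_mul, abs_mul, abs_mul, abs_of_pos (hl0 i hi), abs_of_pos (by norm_num : (0:ℝ) < 8)]
        have h3 := ha1 i v
        have h4 := hy v
        have h5 := hl i hi
        have h6 := hl0 i hi
        have h7 : |a i v| * |y v| ≤ 1 := mul_le_one₀ h3 (abs_nonneg _) h4
        have h8 : 0 ≤ |a i v| * |y v| := by positivity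
        nlinarith
      have h3 := hth i hi
      have h4 := abs_sub (th i) (8 * l i * (a i v * y v))
      linarith
    have h2 := abs_nonneg (a i v)
    nlinarith
  have hzu : ∀ (i : I) (u : J → ℝ), ∑ v, z i v * u v
      = th i * (∑ v, a i v * u v) - 8 * l i * ∑ v, a i v ^ 2 * y v * u v := by
    intro i u
    rw [Finset.mul_sum, Finset.mul_sum, ← Finset.sum_sub_distrib]
    exact Finset.sum_congr rfl fun v _ => by simp only [z]; ring
  set m : ℕ := ⌊3 / 20 * (F.card : ℝ)⌋₊ with hm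
  have hm1 : 3 / 20 * (F.card : ℝ) ≤ m + 1 := (Nat.lt_floor_add_one _).le
  have hm2 : (m : ℝ) ≤ 3 / 20 * (F.card : ℝ) := Nat.floor_le (by positivity)
  obtain ⟨e, he⟩ := coupling_block a S b F R hb0 hb1 (fun i => P i * l i)
    (fun i hi => mul_pos (hP i hi) (hl0 i hi)) z hz ω hω D hDpos hW0 hE0 hn m hm1
  set Γ : ℝ := ∑ i ∈ R, Real.sqrt (W i * E i) * (P i * l i) with hΓ
  have hΓ2 : Γ ^ 2 ≤ (∑ i ∈ R, P i) * (F.card : ℝ) := by
    have h1 : Γ ^ 2 ≤ (∑ i ∈ R, P i) * ∑ i ∈ R, h i * E i := by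
      refine Finset.sum_sq_le_sum_mul_sum_of_sq_le_mul R (fun i hi => (hP i hi).le)
        (fun i hi => (mul_pos (hh0 i hi) (hE0 i hi)).le) (fun i hi => ?_)
      rw [mul_pow, Real.sq_sqrt (mul_pos (hW0 i hi) (hE0 i hi)).le]
      simp only [hh]
      apply le_of_eq; ring
    refine h1.trans (mul_le_mul_of_nonneg_left hEn ?_)
    exact Finset.sum_nonneg fun i hi => (hP i hi).le
  -- the space of admissible directions
  obtain ⟨V, hV, hVcard⟩ := H167FK.finrank_lower F
    (K.disjSum (Finset.univ : Finset (Fin m ⊕ Fin m)))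
    (Sum.elim c (fun k => H167FK.Sys.lin (e k)))
  rw [Finset.card_disjSum, Finset.card_univ, Fintype.card_sum, Fintype.card_fin] at hVcard
  have hVcard' : (F.card : ℝ) ≤ Module.finrank ℝ V + (K.card + (m + m)) := by
    exact_mod_cast hVcard
  have hdim : (499 / 1000 : ℝ) * F.card ≤ Module.finrank ℝ V := by linarith
  have hdim0 : 0 < Module.finrank ℝ V := by
    have : (0 : ℝ) < Module.finrank ℝ V := by linarith
    exact_mod_cast this
  -- the direction
  obtain ⟨u, huV, hu1, hu2⟩ := exists_small_dir_w (R.disjSum R)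
    (Sum.elim (fun i => 2 * h i) (fun i => 128 * l i ^ 2 * h i)) (by
      intro k hk
      rcases Finset.mem_disjSum.mp hk with ⟨i, hi, rfl⟩ | ⟨i, hi, rfl⟩
      · simp only [Sum.elim_inl]; have := hh0 i hi; positivity
      · simp only [Sum.elim_inr]; have := hh0 i hi; positivity)
    V hdim0 D hDpos
    (Sum.elim (fun i v => if v ∈ F then a i v else 0)
      (fun i v => if v ∈ F then a i v ^ 2 * y v else 0))
  obtain ⟨huF, huK⟩ := hV u huV
  rw [Finset.sum_disjSum, Finset.sum_disjSum] at hu2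
  simp only [Sum.elim_inl, Sum.elim_inr] at hu2
  have hs1 : ∀ i, ∑ v, (if v ∈ F then a i v else 0) * u v = ∑ v, a i v * u v := by
    intro i
    refine Finset.sum_congr rfl fun v _ => ?_
    by_cases hv : v ∈ F
    · simp [hv]
    · simp [hv, huF v hv]
  have hs2 : ∀ i, ∑ v, (if v ∈ F then a i v ^ 2 * y v else 0) * u v
      = ∑ v, a i v ^ 2 * y v * u v := by
    intro i
    refine Finset.sum_congr rfl fun v _ => ?_
    by_cases hv : v ∈ F
    · simp [hv]
    · simp [hv, huF v hv]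
  simp only [hs1, hs2] at hu2
  -- trace
  have htr : ∑ i ∈ R, 2 * h i * ∑ v, (if v ∈ F then a i v else 0) ^ 2 / D v
      + ∑ i ∈ R, 128 * l i ^ 2 * h i * ∑ v, (if v ∈ F then a i v ^ 2 * y v else 0) ^ 2 / D v
      ≤ 5 / 2 * F.card := by
    rw [← Finset.sum_add_distrib]
    have h1 : ∀ i ∈ R, 2 * h i * ∑ v, (if v ∈ F then a i v else 0) ^ 2 / D v
        + 128 * l i ^ 2 * h i * ∑ v, (if v ∈ F then a i v ^ 2 * y v else 0) ^ 2 / D v
        ≤ 5 / 2 * (h i * E i) := by
      intro i hi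
      have h2 : ∑ v, (if v ∈ F then a i v else 0) ^ 2 / D v = E i := by
        simp only [hE, En]
        exact sum_restrict F _ _ (fun v hv => by rw [if_pos hv])
          (fun v hv => by rw [if_neg hv, zero_pow two_ne_zero, zero_div])
      have h3 : 128 * l i ^ 2 * ∑ v, (if v ∈ F then a i v ^ 2 * y v else 0) ^ 2 / D v
          ≤ 1 / 2 * E i := by
        simp only [hE, En]
        have h4 : ∑ v, (if v ∈ F then a i v ^ 2 * y v else 0) ^ 2 / D v
            = ∑ v ∈ F, (a i v ^ 2 * y v) ^ 2 / D v :=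
          sum_restrict F _ _ (fun v hv => by rw [if_pos hv])
            (fun v hv => by rw [if_neg hv, zero_pow two_ne_zero, zero_div])
        rw [h4, Finset.mul_sum, Finset.mul_sum]
        refine Finset.sum_le_sum fun v _ => ?_
        rw [← mul_div_assoc, ← mul_div_assoc]
        apply div_le_div_of_nonneg_right _ (hDpos v).le
        have h5 : l i ^ 2 ≤ (1 / 16) ^ 2 := pow_le_pow_left₀ (hl0 i hi).le (hl i hi) 2
        have h6 : (a i v * y v) ^ 2 ≤ 1 := by
          rw [← sq_abs, abs_mul]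
          have h7 : |a i v| * |y v| ≤ 1 := mul_le_one₀ (ha1 i v) (abs_nonneg _) (hy v)
          have h8 : 0 ≤ |a i v| * |y v| := by positivity
          nlinarith
        have h7 : l i ^ 2 * (a i v * y v) ^ 2 ≤ (1 / 16) ^ 2 * 1 :=
          mul_le_mul h5 h6 (sq_nonneg _) (by positivity)
        have h8 : 0 ≤ a i v ^ 2 := sq_nonneg _
        calc 128 * l i ^ 2 * (a i v ^ 2 * y v) ^ 2
            = 128 * a i v ^ 2 * (l i ^ 2 * (a i v * y v) ^ 2) := by ring
          _ ≤ 128 * a i v ^ 2 * ((1 / 16) ^ 2 * 1) :=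
              mul_le_mul_of_nonneg_left h7 (by positivity)
          _ = 1 / 2 * a i v ^ 2 := by ring
      rw [h2]
      have h4 := hh0 i hi
      calc 2 * h i * E i
          + 128 * l i ^ 2 * h i * ∑ v, (if v ∈ F then a i v ^ 2 * y v else 0) ^ 2 / D v
          = 2 * h i * E i + h i *
            (128 * l i ^ 2 * ∑ v, (if v ∈ F then a i v ^ 2 * y v else 0) ^ 2 / D v) := by ring
        _ ≤ 2 * h i * E i + h i * (1 / 2 * E i) := by
            have := mul_le_mul_of_nonneg_left h3 h4.le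
            linarith
        _ = 5 / 2 * (h i * E i) := by ring
    refine (Finset.sum_le_sum h1).trans ?_
    rw [← Finset.mul_sum]
    linarith
  have hu3 := hu2.trans htr
  set Q : ℝ := ∑ i ∈ R, 2 * h i * (∑ v, a i v * u v) ^ 2
    + ∑ i ∈ R, 128 * l i ^ 2 * h i * (∑ v, a i v ^ 2 * y v * u v) ^ 2 with hQ
  have hQ0 : 0 ≤ Q := by
    apply add_nonneg
    · refine Finset.sum_nonneg fun i hi => ?_
      have := hh0 i hi
      positivity
    · refine Finset.sum_nonneg fun i hi => ?_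
      have := hh0 i hi
      positivity
  have hQle : Q ≤ 502 / 100 := by
    have h1 : (499 / 1000 : ℝ) * F.card * Q ≤ 5 / 2 * F.card :=
      (mul_le_mul_of_nonneg_right hdim hQ0).trans hu3
    have h2 : (F.card : ℝ) * (499 / 1000 * Q) ≤ F.card * (5 / 2) := by linarith
    have h3 := le_of_mul_le_mul_left h2 hnR
    linarith
  refine ⟨u, huF, fun k hk => ?_, ?_⟩
  · have := huK (Sum.inl k) (Finset.inl_mem_disjSum.mpr hk)
    simpa using this
  · -- coupling part
    have hc1 := he u huF (fun k => by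
      have := huK (Sum.inr k) (Finset.inr_mem_disjSum.mpr (Finset.mem_univ k))
      simpa [H167FK.Sys.lin_apply] using this)
    simp only [hzu] at hc1
    rw [hu1, mul_one] at hc1
    have hc2 : 100 * Γ ^ 2 / (F.card : ℝ) ^ 2 ≤ 2 := by
      have h1 : 100 * Γ ^ 2 / (F.card : ℝ) ^ 2 ≤ 100 * (∑ i ∈ R, P i) / (F.card : ℝ) := by
        rw [div_le_div_iff₀ (by positivity) hnR]
        nlinarith
      have h2 : 100 * (∑ i ∈ R, P i) / (F.card : ℝ) ≤ 2 := by
        rw [div_le_iff₀ hnR]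
        linarith
      exact h1.trans h2
    have hc3 := hc1.trans hc2
    -- row part
    have hr1 : ∑ τ ∈ S, ω τ * ∑ i ∈ R, b τ i * (P i * (l i ^ 2 * (2 * (∑ v, a i v * u v) ^ 2
          + 128 * l i ^ 2 * (∑ v, a i v ^ 2 * y v * u v) ^ 2 - 8 * ∑ v, a i v ^ 2 * u v ^ 2)))
        = Q - 8 * ∑ i ∈ R, h i * ∑ v, a i v ^ 2 * u v ^ 2 := by
      have h1 : ∑ τ ∈ S, ω τ * ∑ i ∈ R, b τ i * (P i * (l i ^ 2 * (2 * (∑ v, a i v * u v) ^ 2
          + 128 * l i ^ 2 * (∑ v, a i v ^ 2 * y v * u v) ^ 2 - 8 * ∑ v, a i v ^ 2 * u v ^ 2)))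
          = ∑ i ∈ R, h i * (2 * (∑ v, a i v * u v) ^ 2
          + 128 * l i ^ 2 * (∑ v, a i v ^ 2 * y v * u v) ^ 2 - 8 * ∑ v, a i v ^ 2 * u v ^ 2) := by
        exact swap_rows b S R P l ω _
      rw [h1, hQ, ← Finset.sum_add_distrib, Finset.mul_sum, ← Finset.sum_sub_distrib]
      exact Finset.sum_congr rfl fun i _ => by ring
    have hr2 : ∑ i ∈ R, h i * ∑ v, a i v ^ 2 * u v ^ 2 = 1 - θ * ∑ v, u v ^ 2 := by
      have h1 : ∑ v, D v * u v ^ 2 = ∑ i ∈ R, h i * ∑ v, a i v ^ 2 * u v ^ 2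
          + θ * ∑ v, u v ^ 2 := by
        simp only [hD, hD0, add_mul, Finset.sum_add_distrib, Finset.sum_mul, ← Finset.mul_sum]
        congr 1
        rw [Finset.sum_comm]
        refine Finset.sum_congr rfl fun i _ => ?_
        rw [Finset.mul_sum]
        exact Finset.sum_congr rfl fun v _ => by ring
      linarith
    rw [hr1, hr2]
    have hU : 0 ≤ ∑ v, u v ^ 2 := Finset.sum_nonneg fun v _ => sq_nonneg _
    have h12 : 0 ≤ η0 * ∑ v, u v ^ 2 := by positivity
    rw [hθ]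
    linarith

end H167BK
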