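import Pool.Agent.H167R2.BKGlue

/-!
# Numerical estimates and the matrix form of the theorem
-/

namespace H167BK

open Finset Real H167BJ

variable {I J : Type*} [Fintype I] [Fintype J]

/-- The shifted logarithm. -/
noncomputable def slog (x : ℝ) : ℝ := log (1 + x)

theorem slog_nonneg {x : ℝ} (hx : 0 ≤ x) : 0 ≤ slog x := Real.log_nonneg (by linarith)

theorem slog_iter_nonneg (r : ℕ) {x : ℝ} (hx : 0 ≤ x) : 0 ≤ slog^[r] x := by
  induction r generalizing x with
  | zero => exact hx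
  | succ r ih => rw [Function.iterate_succ_apply]; exact ih (slog_nonneg hx)

theorem log_50000 : log 50000 ≤ 11 := by
  have h1 : Real.exp 1 ≥ 2.7182818283 := Real.exp_one_gt_d9.le
  have h2 : (50000 : ℝ) ≤ Real.exp 11 := by
    have h3 : Real.exp 11 = Real.exp 1 ^ 11 := by rw [← Real.exp_nat_mul]; norm_num
    rw [h3]
    have h4 : (2.7182818283 : ℝ) ^ 11 ≤ Real.exp 1 ^ 11 := pow_le_pow_left₀ (by norm_num) h1 11
    have h5 : (50000 : ℝ) ≤ (2.7182818283 : ℝ) ^ 11 := by norm_num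
    linarith
  calc log 50000 ≤ log (Real.exp 11) := Real.log_le_log (by norm_num) h2
    _ = 11 := Real.log_exp 11

theorem fsz_mono {x y : ℝ} (hx : 0 < x) (h : x ≤ y) : fsz x ≤ fsz y := by
  unfold fsz
  have := Real.log_le_log (by linarith : 0 < 2 * x) (by linarith : 2 * x ≤ 2 * y)
  linarith

/-- Sizes of the components against iterated logarithms. -/
theorem fsz_iter (r : ℕ) : ∀ {x z : ℝ}, 1 ≤ x → 0 ≤ z → x ≤ 25000 * (1 + z) →
    fsz^[r] x ≤ 25000 * (1 + slog^[r] z) := by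
  induction r with
  | zero => intro x z _ _ h; exact h
  | succ r ih =>
    intro x z hx hz h
    rw [Function.iterate_succ_apply, Function.iterate_succ_apply]
    apply ih (fsz_one hx) (slog_nonneg hz)
    refine (fsz_mono (by linarith) h).trans ?_
    unfold fsz slog
    have h1 : 2 * (25000 * (1 + z)) = 50000 * (1 + z) := by ring
    rw [h1, Real.log_mul (by norm_num) (by linarith)]
    have h2 := log_50000
    have h3 : 0 ≤ log (1 + z) := Real.log_nonneg (by linarith)
    linarith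

/-- Matrix form. -/
theorem matrix_form (a : I → J → ℝ) (t : ℝ) (ht : 1 ≤ t) (a1 : ∀ i j, |a i j| ≤ 1)
    (col : ∀ j, ∑ i, |a i j| ≤ t) (Δ : ℕ) (hΔ1 : 1 ≤ Δ) (hΔ : ∀ v, (nb a v).card ≤ Δ)
    (r : ℕ) (B : ℝ) (hB : log (2 * (Δ : ℝ) ^ 5 * t) ≤ B) :
    ∃ y : J → ℝ, (∀ j, |y j| = 1) ∧ ∀ i, |∑ v, a i v * y v| ≤
      (r : ℝ) * (80 * Real.sqrt t) + 2500 * Real.sqrt t + 80000 * B
        + 200 * slog^[r + 1] (Fintype.card J) := by
  classical
  have hs : 1 ≤ Real.sqrt t := Real.one_le_sqrt.mpr ht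
  have hΔR : (1 : ℝ) ≤ Δ := by exact_mod_cast hΔ1
  have hΔ5 : (1 : ℝ) ≤ (Δ : ℝ) ^ 5 := one_le_pow₀ hΔR
  have hB0 : 0 ≤ B := by
    refine le_trans (Real.log_nonneg ?_) hB
    nlinarith
  set c0 : ℝ := 80 * Real.sqrt t + 40000 * B with hc0
  have H : Hyp a t c0 Δ := ⟨ht, by linarith, a1, col, hΔ1, hΔ, by linarith⟩
  set n : ℝ := (Fintype.card J : ℝ) with hn
  have hn0 : 0 ≤ n := Nat.cast_nonneg _
  set m : ℝ := 1 + n with hm
  have hsm : Small a c0 m (fun _ => 0) := by
    intro v _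
    have h1 : (comp a c0 (H167FK.Sys.alive (fun _ : J => (0 : ℝ))) v).card ≤ Fintype.card J :=
      Finset.card_le_univ _
    have h2 : ((comp a c0 (H167FK.Sys.alive (fun _ : J => (0 : ℝ))) v).card : ℝ) ≤ n := by
      rw [hn]; exact_mod_cast h1
    linarith
  obtain ⟨x, hx1, hx2, hx3⟩ := stages H r (fun _ => 0) (fun _ => by simp) m (by linarith) hsm
  have hfs : fsz^[r] m ≤ 25000 * (1 + slog^[r] n) :=
    fsz_iter r (by linarith) hn0 (by rw [hm]; nlinarith)
  have hl0 : 0 ≤ slog^[r] n := slog_iter_nonneg r hn0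
  set c1 : ℝ := c0 + 100 * log (50000 * (1 + slog^[r] n)) with hc1
  have hl1 : 0 ≤ log (50000 * (1 + slog^[r] n)) := Real.log_nonneg (by nlinarith)
  have hc01 : c0 ≤ c1 := by linarith
  have hsm1 : Small a c1 (25000 * (1 + slog^[r] n)) x := by
    intro v hv
    have h1 := Finset.card_le_card (comp_anti hc01 (H167FK.Sys.alive x) v (a := a))
    have h2 : ((comp a c1 (H167FK.Sys.alive x) v).card : ℝ)
        ≤ ((comp a c0 (H167FK.Sys.alive x) v).card : ℝ) := by exact_mod_cast h1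
    linarith [hx3 v hv]
  obtain ⟨y, hy1, hy2, hy3⟩ := last_glued ht (by linarith : 80 * Real.sqrt t ≤ c1) a1 col x hx1.1
    (25000 * (1 + slog^[r] n)) (by
      have h1 : 2 * (25000 * (1 + slog^[r] n)) = exp (log (50000 * (1 + slog^[r] n))) := by
        rw [Real.exp_log (by linarith)]; ring
      rw [h1]
      apply exp_le_exp.mpr
      rw [hc1]
      have : 0 ≤ c0 := by linarith
      linarith) hsm1
  have hlast : log (50000 * (1 + slog^[r] n)) ≤ 11 + slog^[r + 1] n := by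
    rw [Real.log_mul (by norm_num) (by linarith), Function.iterate_succ_apply']
    have := log_50000
    unfold slog at *
    linarith
  refine ⟨y, hy2, fun i => ?_⟩
  have hsum0 : ∑ v, a i v * y v = ∑ v, a i v * (y v - (fun _ : J => (0 : ℝ)) v) := by simp
  have hsum : ∑ v, a i v * (y v - (fun _ : J => (0 : ℝ)) v)
      = ∑ v, a i v * (x v - (fun _ : J => (0 : ℝ)) v) + ∑ v, a i v * (y v - x v) := by
    rw [← Finset.sum_add_distrib]
    exact Finset.sum_congr rfl fun v _ => by ring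
  have hr0 : 0 ≤ (r : ℝ) * (80 * Real.sqrt t) := by positivity
  rw [hsum0]
  rcases hx2 i with h | h
  · rw [hsum]
    have h5 := abs_add_le (∑ v, a i v * (x v - (fun _ : J => (0 : ℝ)) v))
      (∑ v, a i v * (y v - x v))
    have h6 := hy3 i
    linarith
  · have h5 := h y hy1
    have h7 : 0 ≤ slog^[r + 1] n := slog_iter_nonneg _ hn0
    linarith

end H167BK
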