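import Pool.Agent.H167R2.BKGood

/-!
# Gluing the stages over the components, iteration, last stage
-/

namespace H167BK

open Finset Real H167BJ

variable {I J : Type*} [Fintype I] [Fintype J]

theorem mem_alive {x : J → ℝ} {v : J} : v ∈ H167FK.Sys.alive x ↔ |x v| < 1 := by
  classical
  unfold H167FK.Sys.alive
  rw [Finset.mem_filter]
  exact ⟨fun h => h.2, fun h => ⟨Finset.mem_univ _, h⟩⟩

omit [Fintype J] in
/-- `z` is a point of the cube that agrees with `y` wherever `y` is integral. -/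
def Ext (y z : J → ℝ) : Prop := (∀ j, |z j| ≤ 1) ∧ ∀ j, |y j| = 1 → z j = y j

/-- Row bounds of a stage. -/
def RowOK (a : I → J → ℝ) (T D : ℝ) (x y : J → ℝ) : Prop :=
  ∀ i, |∑ v, a i v * (y v - x v)| ≤ T ∨
    ∀ z, Ext y z → |∑ v, a i v * (z v - x v)| ≤ T + D

/-- All components of the alive part have at most `m` elements. -/
def Small (a : I → J → ℝ) (c0 m : ℝ) (x : J → ℝ) : Prop :=
  ∀ v ∈ H167FK.Sys.alive x, ((comp a c0 (H167FK.Sys.alive x) v).card : ℝ) ≤ m

omit [Fintype J] in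
theorem Ext.trans {x y z : J → ℝ} (h1 : Ext x y) (h2 : Ext y z) : Ext x z := by
  refine ⟨h2.1, fun j hj => ?_⟩
  have h3 := h1.2 j hj
  rw [h2.2 j (by rw [h3]; exact hj), h3]

omit [Fintype I] in
theorem RowOK.trans {a : I → J → ℝ} {T1 T2 D : ℝ} {x y w : J → ℝ} (hT2 : 0 ≤ T2)
    (h1 : RowOK a T1 D x y) (h2 : RowOK a T2 D y w) (he : Ext y w) :
    RowOK a (T1 + T2) D x w := by
  have hsum : ∀ (i : I) (z : J → ℝ), ∑ v, a i v * (z v - x v)
      = ∑ v, a i v * (y v - x v) + ∑ v, a i v * (z v - y v) := by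
    intro i z
    rw [← Finset.sum_add_distrib]
    exact Finset.sum_congr rfl fun v _ => by ring
  intro i
  rcases h1 i with h3 | h3
  · rcases h2 i with h4 | h4
    · left
      rw [hsum i w]
      exact (abs_add_le _ _).trans (add_le_add h3 h4)
    · right
      intro z hz
      rw [hsum i z]
      have h5 := abs_add_le (∑ v, a i v * (y v - x v)) (∑ v, a i v * (z v - y v))
      have h6 := h4 z hz
      linarith
  · right
    intro z hz
    have h5 := h3 z (he.trans hz)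
    linarith

omit [Fintype I] [Fintype J] in
theorem comp_eq {a : I → J → ℝ} {c0 : ℝ} {F : Finset J} {u v : J}
    (h : u ∈ comp a c0 F v) : comp a c0 F u = comp a c0 F v := by
  ext w
  have h1 := (mem_comp.mp h).2
  rw [mem_comp, mem_comp]
  exact ⟨fun h2 => ⟨h2.1, h1.trans h2.2⟩, fun h2 => ⟨h2.1, (conn_symm h1).trans h2.2⟩⟩

omit [Fintype I] [Fintype J] in
theorem self_mem_comp {a : I → J → ℝ} {c0 : ℝ} {F : Finset J} {v : J} (h : v ∈ F) :
    v ∈ comp a c0 F v := mem_comp.mpr ⟨h, Relation.ReflTransGen.refl⟩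

open Classical in
/-- Restriction to `K`, equal to one elsewhere. -/
noncomputable def restr (x : J → ℝ) (K : Finset J) (u : J) : ℝ := if u ∈ K then x u else 1

omit [Fintype J] in
theorem restr_in {x : J → ℝ} {K : Finset J} {u : J} (h : u ∈ K) : restr x K u = x u := if_pos h

omit [Fintype J] in
theorem restr_out {x : J → ℝ} {K : Finset J} {u : J} (h : u ∉ K) : restr x K u = 1 := if_neg h

omit [Fintype J] in
theorem restr_box {x : J → ℝ} (K : Finset J) (hx : ∀ j, |x j| ≤ 1) (u : J) :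
    |restr x K u| ≤ 1 := by
  by_cases h : u ∈ K
  · rw [restr_in h]; exact hx u
  · rw [restr_out h, abs_one]

theorem alive_restr {x : J → ℝ} {K : Finset J} (hK : K ⊆ H167FK.Sys.alive x) :
    H167FK.Sys.alive (restr x K) = K := by
  ext u
  rw [mem_alive]
  by_cases h : u ∈ K
  · rw [restr_in h]
    exact ⟨fun _ => h, fun _ => mem_alive.mp (hK h)⟩
  · rw [restr_out h, abs_one]
    exact ⟨fun h2 => absurd h2 (lt_irrefl _), fun h2 => absurd h2 h⟩

open Classical in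
/-- The glued vector. -/
noncomputable def glued (a : I → J → ℝ) (c0 : ℝ) (x0 : J → ℝ) (Y : Finset J → J → ℝ) (u : J) : ℝ :=
  if u ∈ H167FK.Sys.alive x0 then Y (comp a c0 (H167FK.Sys.alive x0) u) u else x0 u

section glue

variable (a : I → J → ℝ) (c0 : ℝ) (x0 : J → ℝ) (Y : Finset J → J → ℝ)

omit [Fintype I] in
theorem glued_comp {v u : J} (h : u ∈ comp a c0 (H167FK.Sys.alive x0) v) :
    glued a c0 x0 Y u = Y (comp a c0 (H167FK.Sys.alive x0) v) u := by
  unfold glued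
  rw [if_pos (comp_sub _ _ _ _ h), comp_eq h]

variable (hY : ∀ v ∈ H167FK.Sys.alive x0,
  Ext (restr x0 (comp a c0 (H167FK.Sys.alive x0) v)) (Y (comp a c0 (H167FK.Sys.alive x0) v)))

include hY

omit [Fintype I] in
theorem glued_ext (hx0 : ∀ j, |x0 j| ≤ 1) : Ext x0 (glued a c0 x0 Y) := by
  refine ⟨fun j => ?_, fun j hj => ?_⟩
  · by_cases h : j ∈ H167FK.Sys.alive x0
    · rw [glued_comp a c0 x0 Y (self_mem_comp h)]
      exact (hY j h).1 j
    · unfold glued
      rw [if_neg h]; exact hx0 j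
  · have h : j ∉ H167FK.Sys.alive x0 := fun h => by
      have := mem_alive.mp h
      rw [hj] at this
      exact lt_irrefl _ this
    unfold glued
    rw [if_neg h]

omit [Fintype I] in
/-- Outside its component the vector is one. -/
theorem Y_out {v u : J} (hv : v ∈ H167FK.Sys.alive x0)
    (h : u ∉ comp a c0 (H167FK.Sys.alive x0) v) :
    Y (comp a c0 (H167FK.Sys.alive x0) v) u = 1 := by
  rw [(hY v hv).2 u (by rw [restr_out h, abs_one]), restr_out h]

omit [Fintype I] in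
theorem glued_row (hx0 : ∀ j, |x0 j| ≤ 1) (hc0 : 0 ≤ c0) (T D : ℝ) (hD : 2 * c0 ≤ T + D)
    (hR : ∀ v ∈ H167FK.Sys.alive x0,
      RowOK a T D (restr x0 (comp a c0 (H167FK.Sys.alive x0) v))
        (Y (comp a c0 (H167FK.Sys.alive x0) v))) :
    RowOK a T D x0 (glued a c0 x0 Y) := by
  classical
  have hge := glued_ext a c0 x0 Y hY hx0
  have hout : ∀ j ∉ H167FK.Sys.alive x0, |x0 j| = 1 := fun j hj => H167FK.Sys.abs_eq_one hx0 hj
  have hgout : ∀ j ∉ H167FK.Sys.alive x0, glued a c0 x0 Y j = x0 j := fun j hj =>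
    hge.2 j (hout j hj)
  have hzout : ∀ z, Ext (glued a c0 x0 Y) z → ∀ j ∉ H167FK.Sys.alive x0, z j = x0 j := by
    intro z hz j hj
    rw [hz.2 j (by rw [hgout j hj]; exact hout j hj), hgout j hj]
  intro i
  rcases lt_or_ge c0 (∑ u ∈ H167FK.Sys.alive x0, |a i u|) with hmass | hmass
  · have h0 : 0 < ∑ u ∈ H167FK.Sys.alive x0, |a i u| := hc0.trans_lt hmass
    obtain ⟨v, hv, hv2⟩ := Finset.exists_ne_zero_of_sum_ne_zero h0.ne'
    have hv3 : a i v ≠ 0 := fun h => hv2 (by rw [h, abs_zero])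
    set K : Finset J := comp a c0 (H167FK.Sys.alive x0) v with hK
    have hrow : ∀ w ∈ H167FK.Sys.alive x0, a i w ≠ 0 → w ∈ K :=
      comp_rows hmass ⟨v, self_mem_comp hv, hv3⟩
    have hsum : ∀ z : J → ℝ, (∀ j ∉ H167FK.Sys.alive x0, z j = x0 j) →
        ∑ u, a i u * (z u - x0 u) = ∑ u, a i u * (restr z K u - restr x0 K u) := by
      intro z hz
      refine Finset.sum_congr rfl fun u _ => ?_
      by_cases hu : u ∈ K
      · rw [restr_in hu, restr_in hu]
      · rw [restr_out hu, restr_out hu, sub_self, mul_zero]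
        by_cases hu2 : u ∈ H167FK.Sys.alive x0
        · have : a i u = 0 := by
            by_contra hne
            exact hu (hrow u hu2 hne)
          rw [this, zero_mul]
        · rw [hz u hu2, sub_self, mul_zero]
    have hgK : restr (glued a c0 x0 Y) K = Y K := by
      funext u
      by_cases hu : u ∈ K
      · rw [restr_in hu]
        exact glued_comp a c0 x0 Y hu
      · rw [restr_out hu]
        exact (Y_out a c0 x0 Y hY hv hu).symm
    rcases hR v hv i with h | h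
    · left
      rw [hsum _ hgout, hgK]
      exact h
    · right
      intro z hz
      rw [hsum z (hzout z hz)]
      refine h (restr z K) ⟨restr_box K hz.1, fun u hu => ?_⟩
      by_cases huK : u ∈ K
      · rw [restr_in huK]
        have h1 : glued a c0 x0 Y u = Y K u := glued_comp a c0 x0 Y huK
        have h2 := hz.2 u (by rw [h1]; exact hu)
        rw [h2, h1]
      · rw [restr_out huK]
        exact (Y_out a c0 x0 Y hY hv huK).symm
  · right
    intro z hz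
    have h1 : ∑ v, a i v * (z v - x0 v) = ∑ v ∈ H167FK.Sys.alive x0, a i v * (z v - x0 v) := by
      symm
      refine Finset.sum_subset (Finset.subset_univ _) fun j _ hj => ?_
      rw [hzout z hz j hj, sub_self, mul_zero]
    rw [h1]
    calc |∑ v ∈ H167FK.Sys.alive x0, a i v * (z v - x0 v)|
        ≤ ∑ v ∈ H167FK.Sys.alive x0, |a i v * (z v - x0 v)| := Finset.abs_sum_le_sum_abs _ _
      _ ≤ ∑ v ∈ H167FK.Sys.alive x0, 2 * |a i v| := by
          refine Finset.sum_le_sum fun v _ => ?_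
          rw [abs_mul]
          have h2 : |z v - x0 v| ≤ 2 := by
            have h3 := abs_sub (z v) (x0 v)
            have h4 := hz.1 v
            have h5 := hx0 v
            linarith
          nlinarith [abs_nonneg (a i v)]
      _ = 2 * ∑ v ∈ H167FK.Sys.alive x0, |a i v| := by rw [Finset.mul_sum]
      _ ≤ T + D := by linarith

omit [Fintype I] in
theorem glued_comps (hx0 : ∀ j, |x0 j| ≤ 1) {v : J}
    (hv : v ∈ H167FK.Sys.alive (glued a c0 x0 Y)) :
    v ∈ H167FK.Sys.alive x0 ∧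
    v ∈ H167FK.Sys.alive (Y (comp a c0 (H167FK.Sys.alive x0) v)) ∧
    comp a c0 (H167FK.Sys.alive (glued a c0 x0 Y)) v ⊆
      comp a c0 (H167FK.Sys.alive (Y (comp a c0 (H167FK.Sys.alive x0) v))) v := by
  classical
  have hge := glued_ext a c0 x0 Y hY hx0
  have hsub : H167FK.Sys.alive (glued a c0 x0 Y) ⊆ H167FK.Sys.alive x0 := by
    intro j hj
    by_contra hcon
    have h1 := H167FK.Sys.abs_eq_one hx0 hcon
    have h2 := mem_alive.mp hj
    rw [hge.2 j h1, h1] at h2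
    exact lt_irrefl _ h2
  have hvF := hsub hv
  set K : Finset J := comp a c0 (H167FK.Sys.alive x0) v with hK
  have hKal : ∀ u ∈ H167FK.Sys.alive (glued a c0 x0 Y), u ∈ K → u ∈ H167FK.Sys.alive (Y K) := by
    intro u hu huK
    rw [mem_alive] at hu ⊢
    rwa [glued_comp a c0 x0 Y huK] at hu
  have hvY : v ∈ H167FK.Sys.alive (Y K) := hKal v hv (self_mem_comp hvF)
  refine ⟨hvF, hvY, ?_⟩
  intro w hw
  have h1 := (mem_comp.mp hw).2
  have h2 : w ∈ K ∧ w ∈ H167FK.Sys.alive (Y K) ∧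
      Relation.ReflTransGen (adj a c0 (H167FK.Sys.alive (Y K))) v w := by
    clear hw
    induction h1 with
    | refl => exact ⟨self_mem_comp hvF, hvY, Relation.ReflTransGen.refl⟩
    | @tail b c hbv hbc ih =>
      obtain ⟨ih1, ih2, ih3⟩ := ih
      obtain ⟨hb, hc, i, hi, hib, hic⟩ := hbc
      have hmono : ∑ u ∈ H167FK.Sys.alive (glued a c0 x0 Y), |a i u|
          ≤ ∑ u ∈ H167FK.Sys.alive x0, |a i u| :=
        Finset.sum_le_sum_of_subset_of_nonneg hsub (fun _ _ _ => abs_nonneg _)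
      have hrow : ∀ u ∈ H167FK.Sys.alive x0, a i u ≠ 0 → u ∈ K :=
        comp_rows (hi.trans_le hmono) ⟨b, ih1, hib⟩
      have hcK : c ∈ K := hrow c (hsub hc) hic
      have hcY : c ∈ H167FK.Sys.alive (Y K) := hKal c hc hcK
      have hm2 : ∑ u ∈ H167FK.Sys.alive (glued a c0 x0 Y), |a i u|
          ≤ ∑ u ∈ H167FK.Sys.alive (Y K), |a i u| := by
        rw [← Finset.sum_filter_ne_zero]
        refine Finset.sum_le_sum_of_subset_of_nonneg ?_ (fun _ _ _ => abs_nonneg _)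
        intro u hu
        rw [Finset.mem_filter] at hu
        exact hKal u hu.1 (hrow u (hsub hu.1) (fun h => hu.2 (by rw [h, abs_zero])))
      exact ⟨hcK, hcY, ih3.tail ⟨ih2, hcY, i, hi.trans_le hm2, hib, hic⟩⟩
  exact mem_comp.mpr ⟨h2.2.1, h2.2.2⟩

end glue

/-- Hypotheses shared by all the stages. -/
structure Hyp (a : I → J → ℝ) (t c0 : ℝ) (Δ : ℕ) : Prop where
  ht : 1 ≤ t
  hc0 : 80 * Real.sqrt t ≤ c0
  a1 : ∀ i j, |a i j| ≤ 1
  col : ∀ j, ∑ i, |a i j| ≤ t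
  hΔ1 : 1 ≤ Δ
  hΔ : ∀ v, (nb a v).card ≤ Δ
  hc1 : 40000 * log (2 * (Δ : ℝ) ^ 5 * t) ≤ c0

/-- One stage on all components. -/
theorem stage_glued {a : I → J → ℝ} {t c0 : ℝ} {Δ : ℕ} (H : Hyp a t c0 Δ) (x0 : J → ℝ)
    (hx0 : ∀ j, |x0 j| ≤ 1) (m : ℝ) (hm : 1 ≤ m) (hsm : Small a c0 m x0) :
    ∃ y, Ext x0 y ∧ RowOK a (80 * Real.sqrt t) (2 * c0) x0 y ∧
      Small a c0 (2000 * log (2 * m)) y := by
  classical
  have hs : 1 ≤ Real.sqrt t := Real.one_le_sqrt.mpr H.ht
  have hc00 : 0 ≤ c0 := by linarith [H.hc0]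
  have hlog : 0 ≤ log (2 * m) := Real.log_nonneg (by linarith)
  set k : ℕ := ⌊2000 * log (2 * m)⌋₊ + 1 with hk
  have hk2 : 2000 * log (2 * m) < k := by rw [hk]; push_cast; exact Nat.lt_floor_add_one _
  have hex : ∀ K : Finset J, ∃ y : J → ℝ, (K ⊆ H167FK.Sys.alive x0 ∧ (K.card : ℝ) ≤ m) →
      Ext (restr x0 K) y ∧ RowOK a (80 * Real.sqrt t) (2 * c0) (restr x0 K) y ∧
      ∀ v ∈ H167FK.Sys.alive y, (comp a c0 (H167FK.Sys.alive y) v).card < k := by
    intro K
    by_cases hK : K ⊆ H167FK.Sys.alive x0 ∧ (K.card : ℝ) ≤ m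
    · obtain ⟨y, h1, h2, h3, h4⟩ := walk_stage a t c0 H.ht H.hc0 H.a1 H.col Δ H.hΔ1 H.hΔ H.hc1
        (restr x0 K) (restr_box K hx0) m hm (by rw [alive_restr hK.1]; exact hK.2) k hk2
      refine ⟨y, fun _ => ⟨⟨h1, h2⟩, fun i => ?_, h4⟩⟩
      rcases h3 i with h | h
      · exact Or.inl h
      · exact Or.inr fun z hz => h z hz.1 hz.2
    · exact ⟨fun _ => 0, fun h => absurd h hK⟩
  choose Y hY using hex
  have hcK : ∀ v ∈ H167FK.Sys.alive x0, comp a c0 (H167FK.Sys.alive x0) v ⊆ H167FK.Sys.alive x0 ∧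
      ((comp a c0 (H167FK.Sys.alive x0) v).card : ℝ) ≤ m := fun v hv =>
    ⟨comp_sub _ _ _ _, hsm v hv⟩
  have hYe := fun v hv => (hY _ (hcK v hv)).1
  refine ⟨glued a c0 x0 Y, glued_ext a c0 x0 Y hYe hx0,
    glued_row a c0 x0 Y hYe hx0 hc00 _ _ (by linarith) (fun v hv => (hY _ (hcK v hv)).2.1),
    fun v hv => ?_⟩
  obtain ⟨h1, h2, h3⟩ := glued_comps a c0 x0 Y hYe hx0 hv
  have h4 := (hY _ (hcK v h1)).2.2 v h2
  have h5 := Finset.card_le_card h3
  have h6 : (comp a c0 (H167FK.Sys.alive (glued a c0 x0 Y)) v).card ≤ ⌊2000 * log (2 * m)⌋₊ := by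
    omega
  calc ((comp a c0 (H167FK.Sys.alive (glued a c0 x0 Y)) v).card : ℝ)
      ≤ (⌊2000 * log (2 * m)⌋₊ : ℝ) := by exact_mod_cast h6
    _ ≤ 2000 * log (2 * m) := Nat.floor_le (by positivity)

/-- The size of the components after several stages. -/
noncomputable def fsz (m : ℝ) : ℝ := 2000 * log (2 * m)

theorem fsz_one {m : ℝ} (hm : 1 ≤ m) : 1 ≤ fsz m := by
  unfold fsz
  have h1 : log 2 ≤ log (2 * m) := Real.log_le_log (by norm_num) (by linarith)
  have h2 := Real.log_two_gt_d9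
  linarith

/-- Several stages. -/
theorem stages {a : I → J → ℝ} {t c0 : ℝ} {Δ : ℕ} (H : Hyp a t c0 Δ) (r : ℕ) :
    ∀ (x0 : J → ℝ), (∀ j, |x0 j| ≤ 1) → ∀ (m : ℝ), 1 ≤ m → Small a c0 m x0 →
    ∃ y, Ext x0 y ∧ RowOK a (r * (80 * Real.sqrt t)) (2 * c0) x0 y ∧
      Small a c0 (fsz^[r] m) y := by
  induction r with
  | zero =>
    intro x0 hx0 m hm hsm
    refine ⟨x0, ⟨hx0, fun _ _ => rfl⟩, fun i => Or.inl ?_, hsm⟩
    simp
  | succ r ih =>
    intro x0 hx0 m hm hsm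
    obtain ⟨y, h1, h2, h3⟩ := stage_glued H x0 hx0 m hm hsm
    obtain ⟨w, h4, h5, h6⟩ := ih y h1.1 (fsz m) (fsz_one hm) h3
    refine ⟨w, h1.trans h4, ?_, ?_⟩
    · have h7 := RowOK.trans (by positivity) h2 h5 h4
      have h8 : 80 * Real.sqrt t + (r : ℝ) * (80 * Real.sqrt t)
          = ((r + 1 : ℕ) : ℝ) * (80 * Real.sqrt t) := by push_cast; ring
      rw [h8] at h7
      exact h7
    · rw [Function.iterate_succ_apply]
      exact h6

omit [Fintype I] in
theorem comp_anti {a : I → J → ℝ} {c0 c0' : ℝ} (h : c0 ≤ c0') (F : Finset J) (v : J) :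
    comp a c0' F v ⊆ comp a c0 F v := by
  intro w hw
  rw [mem_comp] at hw ⊢
  have hmono : ∀ u u', adj a c0' F u u' → adj a c0 F u u' := by
    rintro u u' ⟨h1, h2, i, h3, h4, h5⟩
    exact ⟨h1, h2, i, h.trans_lt h3, h4, h5⟩
  exact ⟨hw.1, Relation.ReflTransGen.mono hmono _ _ hw.2⟩

/-- The last stage on all components. -/
theorem last_glued {a : I → J → ℝ} {t c0 : ℝ} (ht : 1 ≤ t) (hc0 : 80 * Real.sqrt t ≤ c0)
    (a1 : ∀ i j, |a i j| ≤ 1) (col : ∀ j, ∑ i, |a i j| ≤ t) (x0 : J → ℝ)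
    (hx0 : ∀ j, |x0 j| ≤ 1) (m : ℝ) (hm : 2 * m ≤ exp (c0 / 100)) (hsm : Small a c0 m x0) :
    ∃ y, Ext x0 y ∧ (∀ j, |y j| = 1) ∧
      ∀ i, |∑ v, a i v * (y v - x0 v)| ≤ 80 * Real.sqrt t + 2 * c0 := by
  classical
  have hs : 1 ≤ Real.sqrt t := Real.one_le_sqrt.mpr ht
  have hc00 : 0 ≤ c0 := by linarith
  have hex : ∀ K : Finset J, ∃ y : J → ℝ, (K ⊆ H167FK.Sys.alive x0 ∧ (K.card : ℝ) ≤ m) →
      Ext (restr x0 K) y ∧ (∀ j, |y j| = 1) ∧
      RowOK a (80 * Real.sqrt t + 2 * c0) 0 (restr x0 K) y := by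
    intro K
    by_cases hK : K ⊆ H167FK.Sys.alive x0 ∧ (K.card : ℝ) ≤ m
    · obtain ⟨y, h1, h2, h3⟩ := last_stage a t c0 ht hc0 a1 col (restr x0 K) (restr_box K hx0)
        (by rw [alive_restr hK.1]; linarith [hK.2])
      exact ⟨y, fun _ => ⟨⟨fun j => (h1 j).le, h2⟩, h1, fun i => Or.inl (h3 i)⟩⟩
    · exact ⟨fun _ => 0, fun h => absurd h hK⟩
  choose Y hY using hex
  have hcK : ∀ v ∈ H167FK.Sys.alive x0, comp a c0 (H167FK.Sys.alive x0) v ⊆ H167FK.Sys.alive x0 ∧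
      ((comp a c0 (H167FK.Sys.alive x0) v).card : ℝ) ≤ m := fun v hv =>
    ⟨comp_sub _ _ _ _, hsm v hv⟩
  have hYe := fun v hv => (hY _ (hcK v hv)).1
  have hge := glued_ext a c0 x0 Y hYe hx0
  have hgr := glued_row a c0 x0 Y hYe hx0 hc00 (80 * Real.sqrt t + 2 * c0) 0 (by linarith)
    (fun v hv => (hY _ (hcK v hv)).2.2)
  refine ⟨glued a c0 x0 Y, hge, fun j => ?_, fun i => ?_⟩
  · by_cases hj : j ∈ H167FK.Sys.alive x0
    · rw [glued_comp a c0 x0 Y (self_mem_comp hj)]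
      exact (hY _ (hcK j hj)).2.1 j
    · have h1 := H167FK.Sys.abs_eq_one hx0 hj
      rw [hge.2 j h1]; exact h1
  · rcases hgr i with h | h
    · exact h
    · have := h _ ⟨hge.1, fun _ _ => rfl⟩
      linarith

end H167BK
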