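import Mathlib

/-!
# Labelled walks: counting and covering
-/

namespace H167BK

open Finset

variable {I J : Type*} [Fintype J]

/-- Equal or sharing a row. -/
def near (a : I → J → ℝ) (v w : J) : Prop := w = v ∨ ∃ i, a i v ≠ 0 ∧ a i w ≠ 0

omit [Fintype J] in
theorem near_symm {a : I → J → ℝ} {v w : J} (h : near a v w) : near a w v := by
  rcases h with h | ⟨i, h1, h2⟩
  · exact Or.inl h.symm
  · exact Or.inr ⟨i, h2, h1⟩

omit [Fintype J] in
theorem near_refl (a : I → J → ℝ) (v : J) : near a v v := Or.inl rfl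

/-- At distance at most five. -/
def far5 (a : I → J → ℝ) (v w : J) : Prop :=
  ∃ x1 x2 x3 x4, near a v x1 ∧ near a x1 x2 ∧ near a x2 x3 ∧ near a x3 x4 ∧ near a x4 w

omit [Fintype J] in
theorem far5_symm {a : I → J → ℝ} {v w : J} (h : far5 a v w) : far5 a w v := by
  obtain ⟨x1, x2, x3, x4, h1, h2, h3, h4, h5⟩ := h
  exact ⟨x4, x3, x2, x1, near_symm h5, near_symm h4, near_symm h3, near_symm h2, near_symm h1⟩

open Classical in
/-- Neighbourhood. -/
noncomputable def nb (a : I → J → ℝ) (v : J) : Finset J := Finset.univ.filter (fun w => near a v w)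

open Classical in
/-- Neighbourhood of radius five. -/
noncomputable def nb5 (a : I → J → ℝ) (v : J) : Finset J :=
  Finset.univ.filter (fun w => far5 a v w)

theorem mem_nb5 {a : I → J → ℝ} {v w : J} : w ∈ nb5 a v ↔ far5 a v w := by
  classical
  unfold nb5; simp

theorem card_nb5 (a : I → J → ℝ) (Δ : ℕ) (h : ∀ v, (nb a v).card ≤ Δ) (v : J) :
    (nb5 a v).card ≤ Δ ^ 5 := by
  classical
  have h1 : nb5 a v ⊆ ((((nb a v).biUnion (nb a)).biUnion (nb a)).biUnion (nb a)).biUnion
      (nb a) := by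
    intro w hw
    obtain ⟨x1, x2, x3, x4, h1, h2, h3, h4, h5⟩ := mem_nb5.mp hw
    simp only [Finset.mem_biUnion, nb, Finset.mem_filter, Finset.mem_univ, true_and]
    exact ⟨x4, ⟨x3, ⟨x2, ⟨x1, h1, h2⟩, h3⟩, h4⟩, h5⟩
  have hstep : ∀ (A : Finset J) (m : ℕ), A.card ≤ m → (A.biUnion (nb a)).card ≤ m * Δ := by
    intro A m hA
    refine (Finset.card_biUnion_le_card_mul A (nb a) Δ (fun v _ => h v)).trans ?_
    exact Nat.mul_le_mul_right _ hA
  refine (Finset.card_le_card h1).trans ?_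
  have := hstep _ _ (hstep _ _ (hstep _ _ (hstep _ _ (h v))))
  calc _ ≤ Δ * Δ * Δ * Δ * Δ := this
    _ = Δ ^ 5 := by ring

open Classical in
/-- Extensions of a labelled walk. -/
noncomputable def ext (a : I → J → ℝ) (Lb : Finset (Finset ℕ)) :
    List (J × Finset ℕ) → Finset (List (J × Finset ℕ))
  | [] => ∅
  | p :: l => ((nb5 a p.1) ×ˢ Lb).image (fun p' => p' :: p :: l)

open Classical in
/-- Labelled walks with `m + 1` vertices, starting in `F0`. -/
noncomputable def walks (a : I → J → ℝ) (Lb : Finset (Finset ℕ)) (F0 : Finset J) :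
    ℕ → Finset (List (J × Finset ℕ))
  | 0 => (F0 ×ˢ Lb).image (fun p => [p])
  | m + 1 => (walks a Lb F0 m).biUnion (ext a Lb)

theorem card_ext (a : I → J → ℝ) (Lb : Finset (Finset ℕ)) (Δ : ℕ)
    (h : ∀ v, (nb a v).card ≤ Δ) (l : List (J × Finset ℕ)) :
    (ext a Lb l).card ≤ Δ ^ 5 * Lb.card := by
  classical
  cases l with
  | nil => simp [ext]
  | cons p l =>
    unfold ext
    refine Finset.card_image_le.trans ?_
    rw [Finset.card_product]
    exact Nat.mul_le_mul_right _ (card_nb5 a Δ h p.1)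

theorem card_walks (a : I → J → ℝ) (Lb : Finset (Finset ℕ)) (F0 : Finset J) (Δ : ℕ)
    (h : ∀ v, (nb a v).card ≤ Δ) (m : ℕ) :
    (walks a Lb F0 m).card ≤ F0.card * Lb.card * (Δ ^ 5 * Lb.card) ^ m := by
  classical
  induction m with
  | zero =>
    unfold walks
    refine Finset.card_image_le.trans ?_
    rw [Finset.card_product]; simp
  | succ m ih =>
    unfold walks
    refine (Finset.card_biUnion_le_card_mul _ _ (Δ ^ 5 * Lb.card)
      (fun l _ => card_ext a Lb Δ h l)).trans ?_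
    calc _ ≤ F0.card * Lb.card * (Δ ^ 5 * Lb.card) ^ m * (Δ ^ 5 * Lb.card) :=
          Nat.mul_le_mul_right _ ih
      _ = _ := by ring

theorem mem_walks (a : I → J → ℝ) (Lb : Finset (Finset ℕ)) (F0 : Finset J)
    (τ : List (J × Finset ℕ)) (h0 : τ ≠ [])
    (hchain : τ.IsChain (fun p p' => far5 a p.1 p'.1))
    (hlab : ∀ p ∈ τ, p.1 ∈ F0 ∧ p.2 ∈ Lb) : τ ∈ walks a Lb F0 (τ.length - 1) := by
  classical
  induction τ with
  | nil => exact absurd rfl h0
  | cons p τ ih =>
    cases τ with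
    | nil =>
      simp only [List.length_singleton, Nat.sub_self]
      unfold walks
      rw [Finset.mem_image]
      exact ⟨p, Finset.mem_product.mpr (hlab p (by simp)), rfl⟩
    | cons p' τ =>
      rw [List.isChain_cons_cons] at hchain
      have h1 := ih (by simp) hchain.2 (fun x hx => hlab x (List.mem_cons_of_mem _ hx))
      have h2 : (p :: p' :: τ).length - 1 = ((p' :: τ).length - 1) + 1 := by simp
      rw [h2]
      show p :: p' :: τ ∈ (walks a Lb F0 ((p' :: τ).length - 1)).biUnion (ext a Lb)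
      rw [Finset.mem_biUnion]
      refine ⟨p' :: τ, h1, ?_⟩
      show p :: p' :: τ ∈ ((nb5 a p'.1) ×ˢ Lb).image (fun q => q :: p' :: τ)
      rw [Finset.mem_image]
      refine ⟨p, Finset.mem_product.mpr ⟨?_, (hlab p (by simp)).2⟩, rfl⟩
      exact mem_nb5.mpr (far5_symm hchain.1)

omit [Fintype J] in
/-- A covering labelled walk. -/
theorem cover (Rl : J → J → Prop) (hsymm : ∀ v w, Rl v w → Rl w v) (Q : Finset J)
    (hQ : Q.Nonempty)
    (hcut : ∀ Y ⊆ Q, Y.Nonempty → Y ≠ Q → ∃ y ∈ Y, ∃ z ∈ Q, z ∉ Y ∧ Rl y z)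
    (Λ : J → Finset ℕ) :
    ∃ τ : List (J × Finset ℕ), τ ≠ [] ∧ τ.IsChain (fun p p' => Rl p.1 p'.1) ∧
      τ.length + 1 ≤ 2 * Q.card ∧ (∀ p ∈ τ, p.1 ∈ Q ∧ (p.2 = ∅ ∨ p.2 = Λ p.1)) ∧
      ∀ g : J → Finset ℕ → ℝ, (∀ v, g v ∅ = 0) →
        (τ.map (fun p => g p.1 p.2)).sum = ∑ v ∈ Q, g v (Λ v) := by
  classical
  have key : ∀ k : ℕ, 1 ≤ k → k ≤ Q.card → ∃ Y ⊆ Q, Y.card = k ∧
      ∃ τ : List (J × Finset ℕ), τ ≠ [] ∧ τ.IsChain (fun p p' => Rl p.1 p'.1) ∧
      τ.length + 1 ≤ 2 * Y.card ∧ (∀ p ∈ τ, p.1 ∈ Y ∧ (p.2 = ∅ ∨ p.2 = Λ p.1)) ∧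
      (∀ v ∈ Y, ∃ p ∈ τ, p.1 = v) ∧
      ∀ g : J → Finset ℕ → ℝ, (∀ v, g v ∅ = 0) →
        (τ.map (fun p => g p.1 p.2)).sum = ∑ v ∈ Y, g v (Λ v) := by
    intro k hk
    induction k, hk using Nat.le_induction with
    | base =>
      intro _
      obtain ⟨q, hq⟩ := hQ
      refine ⟨{q}, by simpa using hq, by simp, [(q, Λ q)], by simp, by simp, by simp, ?_, ?_, ?_⟩
      · intro p hp
        rw [List.mem_singleton] at hp
        rw [hp]; simp
      · intro v hv
        rw [Finset.mem_singleton] at hv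
        exact ⟨(q, Λ q), by simp, hv.symm⟩
      · intro g _; simp
    | succ k hk ih =>
      intro hk2
      obtain ⟨Y, hYQ, hYk, τ, h1, h2, h3, h4, h5, h6⟩ := ih (by omega)
      have hYne : Y.Nonempty := Finset.card_pos.mp (by omega)
      have hYQ' : Y ≠ Q := by
        intro h; rw [h] at hYk; omega
      obtain ⟨y, hy, z, hz, hzY, hR⟩ := hcut Y hYQ hYne hYQ'
      obtain ⟨p, hp, hpy⟩ := h5 y hy
      obtain ⟨l1, l2, hl⟩ := List.append_of_mem hp
      refine ⟨insert z Y, Finset.insert_subset hz hYQ, by rw [Finset.card_insert_of_notMem hzY, hYk],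
        l1 ++ p :: (z, Λ z) :: (p.1, ∅) :: l2, by simp, ?_, ?_, ?_, ?_, ?_⟩
      · rw [hl] at h2
        rw [List.isChain_append] at h2 ⊢
        obtain ⟨c1, c2, c3⟩ := h2
        refine ⟨c1, ?_, ?_⟩
        · rw [List.isChain_cons_cons, List.isChain_cons_cons]
          refine ⟨by simpa [hpy] using hR, by simpa [hpy] using hsymm _ _ hR, ?_⟩
          rw [List.isChain_cons] at c2 ⊢
          exact ⟨fun b hb => c2.1 b hb, c2.2⟩
        · intro b hb c hc
          apply c3 b hb c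
          simpa using hc
      · rw [Finset.card_insert_of_notMem hzY]
        rw [hl] at h3
        simp only [List.length_append, List.length_cons] at h3 ⊢
        omega
      · intro q hq
        have hq' : q ∈ τ ∨ q = (z, Λ z) ∨ q = (p.1, ∅) := by
          rw [hl]
          simp only [List.mem_append, List.mem_cons] at hq ⊢
          tauto
        rcases hq' with h | h | h
        · obtain ⟨h7, h8⟩ := h4 q h
          exact ⟨Finset.mem_insert_of_mem h7, h8⟩
        · rw [h]; exact ⟨Finset.mem_insert_self _ _, Or.inr rfl⟩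
        · rw [h]
          exact ⟨Finset.mem_insert_of_mem (h4 p hp).1, Or.inl rfl⟩
      · intro v hv
        rcases Finset.mem_insert.mp hv with h | h
        · exact ⟨(z, Λ z), by simp, h.symm⟩
        · obtain ⟨q, hq, hqv⟩ := h5 v h
          refine ⟨q, ?_, hqv⟩
          rw [hl] at hq
          simp only [List.mem_append, List.mem_cons] at hq ⊢
          tauto
      · intro g hg
        have h7 := h6 g hg
        rw [Finset.sum_insert hzY, ← h7, hl]
        simp only [List.map_append, List.map_cons, List.sum_append, List.sum_cons, hg]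
        ring
  have hQ1 : 1 ≤ Q.card := Finset.card_pos.mpr hQ
  obtain ⟨Y, hYQ, hYk, τ, h1, h2, h3, h4, -, h6⟩ := key Q.card hQ1 le_rfl
  have hY : Y = Q := Finset.eq_of_subset_of_card_le hYQ (by omega)
  rw [hY] at h3 h4 h6
  exact ⟨τ, h1, h2, h3, h4, h6⟩

end H167BK
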