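import Pool.Agent.H167R2.BKBlock
import Pool.Agent.H167R2.BKWalk

/-!
# Nets in a component
-/

namespace H167BK

open Finset

variable {I J : Type*} [Fintype I] [Fintype J]

omit [Fintype I] [Fintype J] in
theorem adj_near {a : I → J → ℝ} {c0 : ℝ} {F : Finset J} {v w : J} (h : adj a c0 F v w) :
    near a v w := by
  obtain ⟨-, -, i, -, h4, h5⟩ := h
  exact Or.inr ⟨i, h4, h5⟩

omit [Fintype I] [Fintype J] in
theorem conn_symm {a : I → J → ℝ} {c0 : ℝ} {F : Finset J} {v w : J}
    (h : Relation.ReflTransGen (adj a c0 F) v w) : Relation.ReflTransGen (adj a c0 F) w v := by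
  induction h with
  | refl => exact Relation.ReflTransGen.refl
  | tail _ hbc ih => exact Relation.ReflTransGen.head (adj_symm hbc) ih

omit [Fintype I] [Fintype J] in
/-- A component has no proper closed subset. -/
theorem comp_cut (a : I → J → ℝ) (c0 : ℝ) (F : Finset J) (v : J) (X : Finset J)
    (hX : X ⊆ comp a c0 F v) (hne : X.Nonempty) (hneq : X ≠ comp a c0 F v) :
    ∃ x ∈ X, ∃ w ∈ comp a c0 F v, w ∉ X ∧ adj a c0 F x w := by
  classical
  by_contra hcon
  push Not at hcon
  obtain ⟨x, hx⟩ := hne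
  obtain ⟨w, hw, hwX⟩ : ∃ w ∈ comp a c0 F v, w ∉ X := by
    by_contra h
    push Not at h
    exact hneq (Finset.Subset.antisymm hX h)
  have h1 : Relation.ReflTransGen (adj a c0 F) x w :=
    (conn_symm (mem_comp.mp (hX hx)).2).trans (mem_comp.mp hw).2
  have h2 : ∀ z, Relation.ReflTransGen (adj a c0 F) x z → z ∈ X := by
    intro z hz
    induction hz with
    | refl => exact hx
    | tail _ hbc ih =>
      by_contra hc
      exact hcon _ ih _ (comp_closed (hX ih) hbc) hc hbc
  exact hwX (h2 w h1)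

open Classical in
/-- Closed neighbourhoods in a component. -/
noncomputable def Nb (a : I → J → ℝ) (c0 : ℝ) (F K : Finset J) (d : J) : Finset J :=
  K.filter (fun w => w = d ∨ adj a c0 F d w)

omit [Fintype I] [Fintype J] in
theorem Nb_near {a : I → J → ℝ} {c0 : ℝ} {F K : Finset J} {d w : J}
    (h : w ∈ Nb a c0 F K d) : near a d w := by
  classical
  unfold Nb at h
  rcases (Finset.mem_filter.mp h).2 with h1 | h1
  · exact Or.inl h1
  · exact adj_near h1

omit [Fintype I] [Fintype J] in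
theorem card_Nb (a : I → J → ℝ) (a1 : ∀ i j, |a i j| ≤ 1) (c0 : ℝ) (F : Finset J) (v : J)
    (hK : 2 ≤ (comp a c0 F v).card) (d : J) (hd : d ∈ comp a c0 F v) :
    c0 ≤ ((Nb a c0 F (comp a c0 F v) d).card : ℝ) := by
  classical
  have hneq : ({d} : Finset J) ≠ comp a c0 F v := by
    intro h
    rw [← h] at hK
    simp at hK
  obtain ⟨x, hx, w, hw, hwX, hadj⟩ := comp_cut a c0 F v {d} (by simpa using hd) (by simp) hneq
  rw [Finset.mem_singleton] at hx
  rw [hx] at hadj
  obtain ⟨h1, h2, i, h3, h4, h5⟩ := hadj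
  have hsub : F.filter (fun u => a i u ≠ 0) ⊆ Nb a c0 F (comp a c0 F v) d := by
    intro u hu
    rw [Finset.mem_filter] at hu
    have hadj' : adj a c0 F d u := ⟨h1, hu.1, i, h3, h4, hu.2⟩
    unfold Nb
    rw [Finset.mem_filter]
    exact ⟨comp_closed hd hadj', Or.inr hadj'⟩
  have hmass : ∑ u ∈ F, |a i u| ≤ ((F.filter (fun u => a i u ≠ 0)).card : ℝ) := by
    rw [← Finset.sum_filter_add_sum_filter_not F (fun u => a i u ≠ 0)]
    have e1 : ∑ u ∈ F.filter (fun u => ¬ a i u ≠ 0), |a i u| = 0 := by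
      refine Finset.sum_eq_zero fun u hu => ?_
      have := (Finset.mem_filter.mp hu).2
      push Not at this
      rw [this, abs_zero]
    rw [e1, add_zero]
    calc ∑ u ∈ F.filter (fun u => a i u ≠ 0), |a i u|
        ≤ ∑ u ∈ F.filter (fun u => a i u ≠ 0), (1 : ℝ) := Finset.sum_le_sum fun u _ => a1 i u
      _ = _ := by simp
  have hcard : ((F.filter (fun u => a i u ≠ 0)).card : ℝ)
      ≤ ((Nb a c0 F (comp a c0 F v) d).card : ℝ) := by
    exact_mod_cast Finset.card_le_card hsub
  linarith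

omit [Fintype I] [Fintype J] in
/-- A net in a component. -/
theorem exists_net (a : I → J → ℝ) (a1 : ∀ i j, |a i j| ≤ 1) (c0 : ℝ) (F : Finset J) (v : J)
    (hK : 2 ≤ (comp a c0 F v).card) :
    ∃ D ⊆ comp a c0 F v, c0 * (D.card : ℝ) ≤ ((comp a c0 F v).card : ℝ) ∧
      ∀ u ∈ comp a c0 F v, ∃ d ∈ D, ∃ z, near a u z ∧ near a d z := by
  classical
  set K := comp a c0 F v with hKdef
  let ok : Finset J → Prop := fun D => ∀ d ∈ D, ∀ d' ∈ D, d ≠ d' →
    Disjoint (Nb a c0 F K d) (Nb a c0 F K d')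
  obtain ⟨D, hD, hmax⟩ := Finset.exists_max_image (K.powerset.filter ok) Finset.card
    ⟨∅, by simp [ok]⟩
  rw [Finset.mem_filter, Finset.mem_powerset] at hD
  refine ⟨D, hD.1, ?_, ?_⟩
  · have h1 : ∑ d ∈ D, (Nb a c0 F K d).card ≤ K.card := by
      rw [← Finset.card_biUnion (fun d hd d' hd' hne => hD.2 d hd d' hd' hne)]
      refine Finset.card_le_card (Finset.biUnion_subset.mpr fun d _ => ?_)
      exact Finset.filter_subset _ _
    have h2 : ∑ d ∈ D, c0 ≤ ∑ d ∈ D, ((Nb a c0 F K d).card : ℝ) :=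
      Finset.sum_le_sum fun d hd => card_Nb a a1 c0 F v hK d (hD.1 hd)
    have h3 : ∑ d ∈ D, ((Nb a c0 F K d).card : ℝ) ≤ (K.card : ℝ) := by exact_mod_cast h1
    rw [Finset.sum_const, nsmul_eq_mul] at h2
    linarith
  · intro u hu
    by_contra hcon
    push Not at hcon
    have huself : u ∈ Nb a c0 F K u := by
      unfold Nb
      rw [Finset.mem_filter]
      exact ⟨hu, Or.inl rfl⟩
    have hdis : ∀ d ∈ D, Disjoint (Nb a c0 F K u) (Nb a c0 F K d) := by
      intro d hd
      rw [Finset.disjoint_left]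
      intro z hz1 hz2
      exact hcon d hd z (Nb_near hz1) (Nb_near hz2)
    have huD : u ∉ D := by
      intro h
      have := hdis u h
      rw [Finset.disjoint_left] at this
      exact this huself huself
    have hins : insert u D ∈ K.powerset.filter ok := by
      rw [Finset.mem_filter, Finset.mem_powerset]
      refine ⟨Finset.insert_subset hu hD.1, ?_⟩
      intro d hd d' hd' hne
      rcases Finset.mem_insert.mp hd with h | h
      · rcases Finset.mem_insert.mp hd' with h' | h'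
        · exact absurd (h.trans h'.symm) hne
        · rw [h]; exact hdis d' h'
      · rcases Finset.mem_insert.mp hd' with h' | h'
        · rw [h']; exact (hdis d h).symm
        · exact hD.2 d h d' h' hne
    have := hmax _ hins
    rw [Finset.card_insert_of_notMem huD] at this
    omega

omit [Fintype I] [Fintype J] in
/-- Supersets of a net are connected by jumps of length five. -/
theorem net_cut (a : I → J → ℝ) (c0 : ℝ) (F : Finset J) (v : J) (D Q : Finset J)
    (hcov : ∀ u ∈ comp a c0 F v, ∃ d ∈ D, ∃ z, near a u z ∧ near a d z)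
    (hDQ : D ⊆ Q) (hQ : Q ⊆ comp a c0 F v) :
    ∀ Y ⊆ Q, Y.Nonempty → Y ≠ Q → ∃ y ∈ Y, ∃ z ∈ Q, z ∉ Y ∧ far5 a y z := by
  classical
  intro Y hYQ hYne hYneq
  obtain ⟨q, hq, hqY⟩ : ∃ q ∈ Q, q ∉ Y := by
    by_contra h
    push Not at h
    exact hYneq (Finset.Subset.antisymm hYQ h)
  set K := comp a c0 F v with hK
  let X : Finset J := K.filter (fun u => ∃ y ∈ Y, ∃ z, near a y z ∧ near a z u)
  by_cases hcase : ∃ u ∈ X, ∃ z' ∈ Q, z' ∉ Y ∧ ∃ z, near a z' z ∧ near a z u
  · obtain ⟨u, hu, z', hz', hz'Y, z2, h3, h4⟩ := hcase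
    obtain ⟨y, hy, z1, h1, h2⟩ := (Finset.mem_filter.mp hu).2
    exact ⟨y, hy, z', hz', hz'Y, z1, u, z2, z', h1, h2, near_symm h4, near_symm h3,
      near_refl a z'⟩
  · push Not at hcase
    have hYX : Y ⊆ X := by
      intro y hy
      rw [Finset.mem_filter]
      exact ⟨hQ (hYQ hy), y, hy, y, near_refl a y, near_refl a y⟩
    have hXne : X.Nonempty := hYne.mono hYX
    have hXneq : X ≠ K := by
      intro h
      have hqX : q ∈ X := by rw [h]; exact hQ hq
      exact hcase q hqX q hq hqY q (near_refl a q) (near_refl a q)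
    obtain ⟨x, hx, w, hw, hwX, hadj⟩ := comp_cut a c0 F v X (Finset.filter_subset _ _) hXne hXneq
    obtain ⟨y, hy, z1, h1, h2⟩ := (Finset.mem_filter.mp hx).2
    obtain ⟨d, hd, z2, h3, h4⟩ := hcov w hw
    have hdY : d ∉ Y := by
      intro hdY
      apply hwX
      rw [Finset.mem_filter]
      exact ⟨hw, d, hdY, z2, h4, near_symm h3⟩
    exact ⟨y, hy, d, hDQ hd, hdY, z1, x, w, z2, h1, h2, adj_near hadj, h3, near_symm h4⟩

end H167BK
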