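import Mathlib

/-!
# Rounding of multilinear functions and multi-level sampling
-/

namespace H167BK

open Finset

/-- Rounding coordinate by coordinate. -/
theorem round {K : Type*} [DecidableEq K] (G : (K → ℝ) → ℝ)
    (hG : ∀ (q : K → ℝ) (k : K) (x : ℝ), 0 ≤ x → x ≤ 1 →
      G (Function.update q k x) = (1 - x) * G (Function.update q k 0)
        + x * G (Function.update q k 1)) (A : Finset K) :
    ∀ q : K → ℝ, (∀ k ∈ A, 0 ≤ q k ∧ q k ≤ 1) →
    ∃ q' : K → ℝ, (∀ k ∈ A, q' k = 0 ∨ q' k = 1) ∧ (∀ k ∉ A, q' k = q k) ∧ G q ≤ G q' := by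
  classical
  induction A using Finset.induction_on with
  | empty => exact fun q _ => ⟨q, by simp, fun _ _ => rfl, le_rfl⟩
  | insert k A hk ih =>
    intro q hq
    obtain ⟨q1, h1, h2, h3⟩ := ih q (fun k' hk' => hq k' (Finset.mem_insert_of_mem hk'))
    have hqk : q1 k = q k := h2 k hk
    have hk01 := hq k (Finset.mem_insert_self k A)
    have h4 := hG q1 k (q k) hk01.1 hk01.2
    have h5 : Function.update q1 k (q k) = q1 := by rw [← hqk]; exact Function.update_eq_self k q1
    rw [h5] at h4
    have h6 : ∀ x : ℝ, (x = 0 ∨ x = 1) → G q ≤ G (Function.update q1 k x) →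
        ∃ q' : K → ℝ, (∀ k' ∈ insert k A, q' k' = 0 ∨ q' k' = 1) ∧
          (∀ k' ∉ insert k A, q' k' = q k') ∧ G q ≤ G q' := by
      intro x hx hle
      refine ⟨Function.update q1 k x, ?_, ?_, hle⟩
      · intro k' hk'
        by_cases h : k' = k
        · rw [h, Function.update_self]; exact hx
        · rw [Function.update_of_ne h]
          exact h1 k' ((Finset.mem_insert.mp hk').resolve_left h)
      · intro k' hk'
        rw [Finset.mem_insert, not_or] at hk'
        rw [Function.update_of_ne hk'.1]
        exact h2 k' hk'.2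
    by_cases h7 : G (Function.update q1 k 0) ≤ G (Function.update q1 k 1)
    · refine h6 1 (Or.inr rfl) (h3.trans ?_)
      rw [h4]
      nlinarith [hk01.1, hk01.2]
    · push Not at h7
      refine h6 0 (Or.inl rfl) (h3.trans ?_)
      rw [h4]
      nlinarith [hk01.1, hk01.2]

variable {I J : Type*}

/-- Multi-level sampling. -/
theorem sampling [DecidableEq J] (R : Finset I) (K : Finset J) (L : ℕ) (a : I → J → ℝ)
    (a1 : ∀ i j, |a i j| ≤ 1) (le : I → ℕ) (φ : I → ℝ) (hφ : ∀ i ∈ R, 0 ≤ φ i)
    (M p : ℕ → ℝ) (hp0 : ∀ l ∈ range L, 0 ≤ p l) (hp1 : ∀ l ∈ range L, p l ≤ 1)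
    (hle : ∀ i ∈ R, le i ∈ range L)
    (hlow : ∀ i ∈ R, 1 / 16 ≤ p (le i) * ∑ v ∈ K, |a i v|)
    (hhigh : ∀ i ∈ R, p (le i) * ∑ v ∈ K, |a i v| ≤ 1) :
    ∃ Λ : J → Finset ℕ, (∀ v, Λ v ⊆ range L) ∧ (∀ v, v ∉ K → Λ v = ∅) ∧
      1 / 32 * ∑ i ∈ R, φ i - (K.card : ℝ) * ∑ l ∈ range L, M l * p l
        ≤ ∑ i ∈ R, φ i * min 1 (∑ v ∈ K, if le i ∈ Λ v then |a i v| else 0)
          - ∑ l ∈ range L, M l * ∑ v ∈ K, (if l ∈ Λ v then 1 else 0) := by
  classical
  let X : I → (J × ℕ → ℝ) → ℝ := fun i q => ∑ v ∈ K, |a i v| * q (v, le i)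
  let V : I → (J × ℕ → ℝ) → ℝ := fun i q =>
    ∑ v ∈ K, |a i v| ^ 2 * (q (v, le i) - q (v, le i) ^ 2)
  let Z : (J × ℕ → ℝ) → ℝ := fun q => ∑ l ∈ range L, M l * ∑ v ∈ K, q (v, l)
  let G : (J × ℕ → ℝ) → ℝ := fun q =>
    ∑ i ∈ R, φ i * (X i q - (X i q ^ 2 + V i q) / 4) - Z q
  -- affine in every coordinate
  have hG : ∀ (q : J × ℕ → ℝ) (k : J × ℕ) (x : ℝ), 0 ≤ x → x ≤ 1 →
      G (Function.update q k x) = (1 - x) * G (Function.update q k 0)
        + x * G (Function.update q k 1) := by
    intro q k x _ _
    have hupd : ∀ (x : ℝ) (v : J) (l : ℕ), Function.update q k x (v, l)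
        = (if (v, l) = k then x else q (v, l)) := by
      intro x v l
      by_cases h : (v, l) = k
      · rw [if_pos h, h, Function.update_self]
      · rw [if_neg h, Function.update_of_ne h]
    have hX : ∀ i, X i (Function.update q k x)
        = (1 - x) * X i (Function.update q k 0) + x * X i (Function.update q k 1) := by
      intro i
      simp only [X, hupd]
      rw [Finset.mul_sum, Finset.mul_sum, ← Finset.sum_add_distrib]
      refine Finset.sum_congr rfl fun v _ => ?_
      split_ifs <;> ring
    have hZ : Z (Function.update q k x)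
        = (1 - x) * Z (Function.update q k 0) + x * Z (Function.update q k 1) := by
      simp only [Z, hupd, Finset.mul_sum]
      rw [← Finset.sum_add_distrib]
      refine Finset.sum_congr rfl fun l _ => ?_
      rw [← Finset.sum_add_distrib]
      refine Finset.sum_congr rfl fun v _ => ?_
      split_ifs <;> ring
    have hV : ∀ i, V i (Function.update q k x)
        = V i (Function.update q k 0)
          + (X i (Function.update q k 1) - X i (Function.update q k 0)) ^ 2 * (x - x ^ 2)
        ∧ V i (Function.update q k 1) = V i (Function.update q k 0) := by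
      intro i
      by_cases hk : k.2 = le i ∧ k.1 ∈ K
      · have hk' : k = (k.1, le i) := by rw [← hk.1]
        have hiff : ∀ v, (v, le i) = k ↔ v = k.1 := by
          intro v
          rw [hk']
          simp
        have hdiff : X i (Function.update q k 1) - X i (Function.update q k 0) = |a i k.1| := by
          simp only [X, hupd, hiff]
          rw [← Finset.sum_sub_distrib, Finset.sum_eq_single k.1]
          · simp
          · intro v _ hv; rw [if_neg hv, if_neg hv]; ring
          · intro h; exact absurd hk.2 h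
        constructor
        · rw [hdiff]
          have h1 : V i (Function.update q k x) - V i (Function.update q k 0)
              = |a i k.1| ^ 2 * (x - x ^ 2) := by
            simp only [V, hupd, hiff]
            rw [← Finset.sum_sub_distrib, Finset.sum_eq_single k.1]
            · simp
            · intro v _ hv; rw [if_neg hv, if_neg hv]; ring
            · intro h; exact absurd hk.2 h
          linarith
        · simp only [V, hupd, hiff]
          refine Finset.sum_congr rfl fun v _ => ?_
          split_ifs <;> ring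
      · have hsame : ∀ v ∈ K, ∀ x : ℝ, (if (v, le i) = k then x else q (v, le i))
            = q (v, le i) := by
          intro v hv x
          rw [if_neg]
          intro h
          apply hk
          rw [← h]
          exact ⟨rfl, hv⟩
        have hX' : ∀ x : ℝ, X i (Function.update q k x) = X i q := by
          intro x
          simp only [X, hupd]
          exact Finset.sum_congr rfl fun v hv => by rw [hsame v hv]
        have hV' : ∀ x : ℝ, V i (Function.update q k x) = V i q := by
          intro x
          simp only [V, hupd]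
          exact Finset.sum_congr rfl fun v hv => by rw [hsame v hv]
        rw [hX', hX', hV', hV', hV']
        constructor
        · ring
        · rfl
    simp only [G]
    rw [hZ]
    have hterm : ∀ i, X i (Function.update q k x)
        - (X i (Function.update q k x) ^ 2 + V i (Function.update q k x)) / 4
        = (1 - x) * (X i (Function.update q k 0)
          - (X i (Function.update q k 0) ^ 2 + V i (Function.update q k 0)) / 4)
        + x * (X i (Function.update q k 1)
          - (X i (Function.update q k 1) ^ 2 + V i (Function.update q k 1)) / 4) := by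
      intro i
      rw [(hV i).1, hX i, (hV i).2]
      ring
    rw [Finset.sum_congr rfl fun i _ => by rw [hterm i]]
    have hsplit : ∀ (u w : I → ℝ), ∑ i ∈ R, φ i * ((1 - x) * u i + x * w i)
        = (1 - x) * ∑ i ∈ R, φ i * u i + x * ∑ i ∈ R, φ i * w i := by
      intro u w
      rw [Finset.mul_sum, Finset.mul_sum, ← Finset.sum_add_distrib]
      exact Finset.sum_congr rfl fun i _ => by ring
    rw [hsplit]
    ring
  -- start
  let q0 : J × ℕ → ℝ := fun k => if k.2 ∈ range L then p k.2 else 0
  obtain ⟨q', h1, h2, h3⟩ := round G hG (K ×ˢ range L) q0 (by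
    intro k hk
    rw [Finset.mem_product] at hk
    simp only [q0, if_pos hk.2]
    exact ⟨hp0 _ hk.2, hp1 _ hk.2⟩)
  have hq0X : ∀ i ∈ R, X i q0 = p (le i) * ∑ v ∈ K, |a i v| := by
    intro i hi
    simp only [X, q0, if_pos (hle i hi)]
    rw [Finset.mul_sum]
    exact Finset.sum_congr rfl fun v _ => by ring
  have hG0 : 1 / 32 * ∑ i ∈ R, φ i - (K.card : ℝ) * ∑ l ∈ range L, M l * p l ≤ G q0 := by
    have hZ0 : Z q0 = (K.card : ℝ) * ∑ l ∈ range L, M l * p l := by
      simp only [Z]
      rw [Finset.mul_sum]
      refine Finset.sum_congr rfl fun l hl => ?_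
      simp only [q0, if_pos hl, Finset.sum_const, nsmul_eq_mul]
      ring
    have hrow : ∀ i ∈ R, 1 / 32 * φ i ≤ φ i * (X i q0 - (X i q0 ^ 2 + V i q0) / 4) := by
      intro i hi
      have h4 : V i q0 ≤ X i q0 := by
        simp only [V, X]
        refine Finset.sum_le_sum fun v _ => ?_
        have h5 : q0 (v, le i) = p (le i) := if_pos (hle i hi)
        rw [h5]
        have h6 := hp0 _ (hle i hi)
        have h7 := a1 i v
        have h8 := abs_nonneg (a i v)
        have h9 : |a i v| ^ 2 ≤ |a i v| := by nlinarith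
        have h10 : p (le i) - p (le i) ^ 2 ≤ p (le i) := by nlinarith
        have h11 : |a i v| ^ 2 * (p (le i) - p (le i) ^ 2) ≤ |a i v| ^ 2 * p (le i) :=
          mul_le_mul_of_nonneg_left h10 (sq_nonneg _)
        have h12 : |a i v| ^ 2 * p (le i) ≤ |a i v| * p (le i) :=
          mul_le_mul_of_nonneg_right h9 h6
        linarith
      have h5 := hlow i hi
      have h6 := hhigh i hi
      rw [← hq0X i hi] at h5 h6
      have h7 : 1 / 32 ≤ X i q0 - (X i q0 ^ 2 + V i q0) / 4 := by nlinarith
      have := mul_le_mul_of_nonneg_left h7 (hφ i hi)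
      linarith
    simp only [G]
    rw [hZ0]
    have := Finset.sum_le_sum hrow
    rw [← Finset.mul_sum] at this
    linarith
  -- the labels
  let Λ : J → Finset ℕ := fun v => if v ∈ K then (range L).filter (fun l => q' (v, l) = 1) else ∅
  have hΛ : ∀ v ∈ K, ∀ l ∈ range L, q' (v, l) = if l ∈ Λ v then 1 else 0 := by
    intro v hv l hl
    have h4 := h1 (v, l) (Finset.mem_product.mpr ⟨hv, hl⟩)
    by_cases h5 : q' (v, l) = 1
    · rw [if_pos, h5]
      simp only [Λ, if_pos hv, Finset.mem_filter]
      exact ⟨hl, h5⟩
    · rw [if_neg]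
      · exact h4.resolve_right h5
      · simp only [Λ, if_pos hv, Finset.mem_filter]
        exact fun h => h5 h.2
  refine ⟨Λ, ?_, ?_, ?_⟩
  · intro v
    by_cases hv : v ∈ K
    · simp only [Λ, if_pos hv]; exact Finset.filter_subset _ _
    · simp only [Λ, if_neg hv]; exact Finset.empty_subset _
  · intro v hv
    simp only [Λ, if_neg hv]
  · refine (hG0.trans h3).trans ?_
    simp only [G]
    have hZ' : Z q' = ∑ l ∈ range L, M l * ∑ v ∈ K, (if l ∈ Λ v then 1 else 0) := by
      simp only [Z]
      refine Finset.sum_congr rfl fun l hl => ?_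
      congr 1
      exact Finset.sum_congr rfl fun v hv => hΛ v hv l hl
    rw [hZ']
    apply sub_le_sub_right
    refine Finset.sum_le_sum fun i hi => mul_le_mul_of_nonneg_left ?_ (hφ i hi)
    have hX' : X i q' = ∑ v ∈ K, (if le i ∈ Λ v then |a i v| else 0) := by
      simp only [X]
      refine Finset.sum_congr rfl fun v hv => ?_
      rw [hΛ v hv _ (hle i hi)]
      split_ifs <;> simp
    have hV' : V i q' = 0 := by
      simp only [V]
      refine Finset.sum_eq_zero fun v hv => ?_
      rw [hΛ v hv _ (hle i hi)]
      split_ifs <;> simp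
    rw [hV', ← hX']
    have hX0 : 0 ≤ X i q' := by
      rw [hX']
      refine Finset.sum_nonneg fun v _ => ?_
      split_ifs
      · exact abs_nonneg _
      · exact le_rfl
    apply le_min
    · nlinarith [sq_nonneg (X i q' - 2)]
    · nlinarith [sq_nonneg (X i q')]

end H167BK
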