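import Pool.Agent.H167R2.BKLast
import Pool.Agent.H167R2.BKNet
import Pool.Agent.H167R2.BKRound

/-!
# The stage with cluster potentials: only small components survive
-/

namespace H167BK

open Finset Real H167BJ

variable {I J : Type*} [Fintype I] [Fintype J]

theorem geom16 (n : ℕ) : 15 * ∑ l ∈ range n, (16 : ℝ) ^ l = 16 ^ n - 1 := by
  induction n with
  | zero => simp
  | succ n ih => rw [Finset.sum_range_succ, mul_add, ih, pow_succ]; ring

omit [Fintype J] in
/-- Swapping a list sum and a row sum. -/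
theorem list_row_sum (a : I → J → ℝ) (t : ℝ) (col : ∀ j, ∑ i, |a i j| ≤ t) (l : ℕ)
    (τ : List (J × Finset ℕ)) :
    ∑ i, (τ.map (fun p => if l ∈ p.2 then |a i p.1| else 0)).sum
      ≤ t * (τ.map (fun p => if l ∈ p.2 then (1 : ℝ) else 0)).sum := by
  induction τ with
  | nil => simp
  | cons p τ ih =>
    simp only [List.map_cons, List.sum_cons, Finset.sum_add_distrib, mul_add]
    refine add_le_add ?_ ih
    by_cases h : l ∈ p.2
    · simp only [h, if_true, mul_one]; exact col p.1
    · simp [h]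

/-- The stage with cluster potentials. -/
theorem walk_stage (a : I → J → ℝ) (t c0 : ℝ) (ht : 1 ≤ t) (hc0 : 80 * Real.sqrt t ≤ c0)
    (a1 : ∀ i j, |a i j| ≤ 1) (col : ∀ j, ∑ i, |a i j| ≤ t) (Δ : ℕ) (hΔ1 : 1 ≤ Δ)
    (hΔ : ∀ v, (nb a v).card ≤ Δ)
    (hc1 : 40000 * log (2 * (Δ : ℝ) ^ 5 * t) ≤ c0) (x0 : J → ℝ)
    (hx0 : ∀ j, |x0 j| ≤ 1) (N : ℝ) (hN1 : 1 ≤ N)
    (hN : ((H167FK.Sys.alive x0).card : ℝ) ≤ N) (k : ℕ) (hk : 2000 * log (2 * N) < k) :
    ∃ y : J → ℝ, (∀ j, |y j| ≤ 1) ∧ (∀ j, |x0 j| = 1 → y j = x0 j) ∧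
      (∀ i, |∑ v, a i v * (y v - x0 v)| ≤ 80 * Real.sqrt t ∨
        ∀ z : J → ℝ, (∀ j, |z j| ≤ 1) → (∀ j, |y j| = 1 → z j = y j) →
          |∑ v, a i v * (z v - x0 v)| ≤ 80 * Real.sqrt t + 2 * c0) ∧
      ∀ v ∈ H167FK.Sys.alive y, (comp a c0 (H167FK.Sys.alive y) v).card < k := by
  classical
  have hs : 1 ≤ Real.sqrt t := Real.one_le_sqrt.mpr ht
  have hs2 : Real.sqrt t ^ 2 = t := Real.sq_sqrt (by linarith)
  have ht0 : 0 < t := by linarith
  have hc80 : 80 ≤ c0 := by linarith
  have hc00 : 0 < c0 := by linarith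
  -- the number of levels
  have hexL := exists_level t c0 hc00
  set L : ℕ := Nat.find hexL with hLdef
  have hL : 10 * t ≤ c0 * 16 ^ L := Nat.find_spec hexL
  have hLmin : ∀ l, l < L → c0 * 16 ^ l < 10 * t := fun l hl => by
    have := Nat.find_min hexL hl
    push Not at this
    exact this
  have h2L : (2 : ℝ) ^ L ≤ t := by
    rcases Nat.eq_zero_or_pos L with h | h
    · rw [h, pow_zero]; exact ht
    · obtain ⟨m, hm⟩ : ∃ m, L = m + 1 := ⟨L - 1, by omega⟩
      have h1 := hLmin m (by omega)
      have h2 : (16 : ℝ) ^ m * (80 * Real.sqrt t) < 10 * t := by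
        refine lt_of_le_of_lt ?_ h1
        rw [mul_comm]
        exact mul_le_mul_of_nonneg_right hc0 (by positivity)
      have h3 : (16 : ℝ) ^ m < Real.sqrt t / 8 := by
        have h4 : (16 : ℝ) ^ m * (80 * Real.sqrt t) < Real.sqrt t / 8 * (80 * Real.sqrt t) := by
          refine lt_of_lt_of_le h2 (le_of_eq ?_)
          nlinarith
        exact lt_of_mul_lt_mul_right h4 (by positivity)
      have h4 : (2 : ℝ) ^ m ≤ 16 ^ m := pow_le_pow_left₀ (by norm_num) (by norm_num) m
      have h5 : Real.sqrt t ≤ t := by nlinarith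
      rw [hm, pow_succ]
      linarith
  -- weights of the walks
  have hΔR : (1 : ℝ) ≤ Δ := by exact_mod_cast hΔ1
  have hΔ5 : (1 : ℝ) ≤ (Δ : ℝ) ^ 5 := one_le_pow₀ hΔR
  set X : ℝ := (Δ : ℝ) ^ 5 * 2 ^ L with hX
  have h2L1 : (1 : ℝ) ≤ 2 ^ L := one_le_pow₀ (by norm_num)
  have hX1 : 1 ≤ X := by rw [hX]; nlinarith
  have hXL : (2 : ℝ) ^ L ≤ X := by rw [hX]; nlinarith
  set Kκ : ℝ := log (2 * X) with hKκ
  have hKκ0 : 0 < Kκ := Real.log_pos (by linarith)
  have hKκc : 40000 * Kκ ≤ c0 := by
    refine le_trans ?_ hc1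
    apply mul_le_mul_of_nonneg_left _ (by norm_num)
    apply Real.log_le_log (by linarith)
    rw [hX]
    nlinarith
  set κ : ℝ := 1 / (2 * X) with hκ
  have hκ0 : 0 < κ := by positivity
  have hlogκ : log κ = -Kκ := by rw [hκ, one_div, Real.log_inv]
  set F0 : Finset J := H167FK.Sys.alive x0 with hF0
  set Lb : Finset (Finset ℕ) := (range L).powerset with hLb
  have hLbc : Lb.card = 2 ^ L := by rw [hLb, Finset.card_powerset, Finset.card_range]
  let M : ℕ := 2 * Fintype.card J + 1
  have hwalkc : ∀ m, ((walks a Lb F0 m).card : ℝ) * κ ^ (m + 1) ≤ N * (1 / 2) ^ (m + 1) := by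
    intro m
    have h1 : ((walks a Lb F0 m).card : ℝ) ≤ F0.card * 2 ^ L * X ^ m := by
      have h2 := card_walks a Lb F0 Δ hΔ m
      rw [hLbc] at h2
      have h3 : ((walks a Lb F0 m).card : ℝ) ≤ ((F0.card * 2 ^ L * (Δ ^ 5 * 2 ^ L) ^ m : ℕ) : ℝ) := by
        exact_mod_cast h2
      refine h3.trans (le_of_eq ?_)
      push_cast
      rw [hX]
    have h4 : (F0.card : ℝ) * 2 ^ L * X ^ m ≤ N * X ^ (m + 1) := by
      rw [pow_succ]
      have h5 : (F0.card : ℝ) * 2 ^ L ≤ N * X := mul_le_mul hN hXL (by positivity) (by linarith)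
      calc (F0.card : ℝ) * 2 ^ L * X ^ m ≤ N * X * X ^ m :=
            mul_le_mul_of_nonneg_right h5 (by positivity)
        _ = N * (X ^ m * X) := by ring
    calc ((walks a Lb F0 m).card : ℝ) * κ ^ (m + 1) ≤ N * X ^ (m + 1) * κ ^ (m + 1) :=
          mul_le_mul_of_nonneg_right (h1.trans h4) (by positivity)
      _ = N * (X * κ) ^ (m + 1) := by rw [mul_pow]; ring
      _ = N * (1 / 2) ^ (m + 1) := by
          congr 2
          rw [hκ]; field_simp
  let P : Sys I J ((_ : ℕ) × List (J × Finset ℕ)) :=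
    { a := a
      t := t
      c0 := c0
      ht := ht
      hc0 := hc0
      a1 := a1
      col := col
      x0 := x0
      hx0 := hx0
      S := (range M).sigma (fun m => walks a Lb F0 m)
      wt := fun τ => κ ^ (τ.1 + 1)
      hwt := fun _ _ => pow_pos hκ0 _
      b := fun τ i l => min 1 ((τ.2.map (fun p => if l ∈ p.2 then |a i p.1| else 0)).sum)
      hb0 := fun τ _ i l => le_min zero_le_one (List.sum_nonneg (by
        intro x hx
        rw [List.mem_map] at hx
        obtain ⟨p, -, rfl⟩ := hx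
        split_ifs
        · exact abs_nonneg _
        · exact le_rfl))
      hb1 := fun τ _ i l => min_le_left _ _
      w := fun _ => 1
      hw := fun _ => one_pos
      N := N
      hN := hN
      hwtN := by
        rw [Finset.sum_sigma]
        calc ∑ m ∈ range M, ∑ τ ∈ walks a Lb F0 m, κ ^ (m + 1)
            = ∑ m ∈ range M, ((walks a Lb F0 m).card : ℝ) * κ ^ (m + 1) := by
              refine Finset.sum_congr rfl fun m _ => ?_
              rw [Finset.sum_const, nsmul_eq_mul]
          _ ≤ ∑ m ∈ range M, N * (1 / 2) ^ (m + 1) := Finset.sum_le_sum fun m _ => hwalkc m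
          _ = N * ∑ m ∈ range M, ((1 : ℝ) / 2) ^ (m + 1) := by rw [Finset.mul_sum]
          _ ≤ N * 1 := mul_le_mul_of_nonneg_left (geom_half_sum M) (by linarith)
          _ = N := mul_one N
      L := L
      hL := hL }
  -- every medium row is seen
  have hseen : P.Seen := by
    intro F F' hF i hi
    have h1 : i ∈ P.med F := (Finset.mem_filter.mp hi).1
    have h2 := P.med_mass_pos h1
    obtain ⟨v, hv, hv2⟩ := Finset.exists_ne_zero_of_sum_ne_zero h2.ne'
    have hlev : P.lev F i < L := P.lev_lt h1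
    refine ⟨⟨0, [(v, {P.lev F i})]⟩, ?_, ?_⟩
    · refine Finset.mem_sigma.mpr ⟨Finset.mem_range.mpr (Nat.succ_pos _), ?_⟩
      have := mem_walks a Lb F0 [(v, {P.lev F i})] (by simp) (by simp) (by
        intro p hp
        rw [List.mem_singleton] at hp
        rw [hp]
        refine ⟨hF hv, ?_⟩
        rw [hLb, Finset.mem_powerset]
        simpa using hlev)
      simpa using this
    · show 0 < min 1 _
      apply lt_min one_pos
      simp only [List.map_cons, List.map_nil, List.sum_cons, List.sum_nil, Finset.mem_singleton,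
        if_true, add_zero]
      exact lt_of_le_of_ne (abs_nonneg _) (Ne.symm hv2)
  have hgood : P.Good k := by
    intro F v y hF hv hkK hy hf
    set K : Finset J := comp a c0 F v with hK
    have hKF : K ⊆ F := comp_sub _ _ _ _
    set n : ℝ := (K.card : ℝ) with hn
    have hkn : (k : ℝ) ≤ n := by rw [hn]; exact_mod_cast hkK
    have hlogN : 0 < log (2 * N) := Real.log_pos (by linarith)
    have hlog2 : 1 / 2 ≤ log (2 * N) := by
      have h1 : log 2 ≤ log (2 * N) := Real.log_le_log (by norm_num) (by linarith)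
      have h2 := Real.log_two_gt_d9
      linarith
    have hn2 : (2 : ℝ) ≤ n := by linarith
    have hK2 : 2 ≤ (comp a c0 F v).card := by
      have : (2 : ℝ) ≤ ((comp a c0 F v).card : ℝ) := hn2
      exact_mod_cast this
    have hmain : ∑ i ∈ P.R F K, P.W F y i ≤ n / 50 := by
      by_contra hcon
      push Not at hcon
      -- sampling
      have hlevR : ∀ i ∈ P.R F K, i ∈ P.med F := fun i hi => (Finset.mem_filter.mp hi).1
      have hmassR : ∀ i ∈ P.R F K, ∑ u ∈ K, |a i u| = P.mass F i := fun i hi => comp_mass hi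
      have hp1 : ∀ l ∈ range L, (16 : ℝ) ^ l / (10 * t) ≤ 1 := by
        intro l hl
        rw [div_le_one (by positivity)]
        have h1 := hLmin l (Finset.mem_range.mp hl)
        have h2 : (0 : ℝ) < 16 ^ l := by positivity
        nlinarith
      obtain ⟨Λ, hΛ1, hΛ2, hΛ3⟩ := sampling (P.R F K) K L a a1 (P.lev F) (P.W F y)
        (fun i _ => (P.W_pos F y i).le) (fun l => 2 * Kκ + t * exp (-(10 * 4 ^ l)))
        (fun l => (16 : ℝ) ^ l / (10 * t)) (fun l _ => by positivity) hp1
        (fun i hi => Finset.mem_range.mpr (P.lev_lt (hlevR i hi)))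
        (fun i hi => by
          rw [hmassR i hi]
          have h0 := P.med_mass_pos (hlevR i hi)
          have h3 : 10 * t < 16 ^ (P.lev F i + 1) * P.mass F i := P.lt_lev h0
          rw [pow_succ] at h3
          rw [div_mul_eq_mul_div, div_le_div_iff₀ (by norm_num) (by positivity)]
          linarith)
        (fun i hi => by
          rw [hmassR i hi]
          have h0 := P.med_mass_pos (hlevR i hi)
          have h3 : 16 ^ P.lev F i * P.mass F i ≤ 10 * t :=
            P.lev_le h0 (P.mem_med.mp (hlevR i hi)).2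
          rw [div_mul_eq_mul_div, div_le_one (by positivity)]
          exact h3)
      set C : ℕ → ℝ := fun l => ∑ v ∈ K, (if l ∈ Λ v then 1 else 0) with hC
      have hC0 : ∀ l, 0 ≤ C l := fun l => Finset.sum_nonneg fun v _ => by
        split_ifs <;> norm_num
      -- the net
      obtain ⟨D, hDK, hDc, hDcov⟩ := exists_net a a1 c0 F v hK2
      set Sel : Finset J := K.filter (fun u => Λ u ≠ ∅) with hSel
      set Q : Finset J := D ∪ Sel with hQ
      have hQK : Q ⊆ K := Finset.union_subset hDK (Finset.filter_subset _ _)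
      have hQne : Q.Nonempty := by
        have hvK : v ∈ comp a c0 F v := mem_comp.mpr ⟨hv, Relation.ReflTransGen.refl⟩
        obtain ⟨d, hd, -⟩ := hDcov v hvK
        exact ⟨d, Finset.mem_union_left _ hd⟩
      obtain ⟨τ, hτ1, hτ2, hτ3, hτ4, hτ5⟩ := cover (far5 a) (fun _ _ h => far5_symm h) Q hQne
        (net_cut a c0 F v D Q hDcov Finset.subset_union_left hQK) Λ
      -- size of the walk
      have hSelc : (Sel.card : ℝ) ≤ ∑ l ∈ range L, C l := by
        have h1 : (Sel.card : ℝ) = ∑ u ∈ Sel, (1 : ℝ) := by simp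
        have h2 : ∑ u ∈ Sel, (1 : ℝ) ≤ ∑ u ∈ Sel, ∑ l ∈ range L, (if l ∈ Λ u then (1:ℝ) else 0) := by
          refine Finset.sum_le_sum fun u hu => ?_
          have hne := (Finset.mem_filter.mp hu).2
          obtain ⟨l, hl⟩ := Finset.nonempty_iff_ne_empty.mpr hne
          have h3 := Finset.single_le_sum (f := fun l => if l ∈ Λ u then (1 : ℝ) else 0)
            (fun l _ => by split_ifs <;> norm_num) (hΛ1 u hl)
          simp only [hl, if_true] at h3
          exact h3
        have h4 : ∑ u ∈ Sel, ∑ l ∈ range L, (if l ∈ Λ u then (1:ℝ) else 0)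
            ≤ ∑ u ∈ K, ∑ l ∈ range L, (if l ∈ Λ u then (1:ℝ) else 0) :=
          Finset.sum_le_sum_of_subset_of_nonneg (Finset.filter_subset _ _)
            (fun u _ _ => Finset.sum_nonneg fun l _ => by split_ifs <;> norm_num)
        have h5 : ∑ u ∈ K, ∑ l ∈ range L, (if l ∈ Λ u then (1:ℝ) else 0) = ∑ l ∈ range L, C l := by
          rw [Finset.sum_comm]
        linarith
      have hQc : (Q.card : ℝ) ≤ D.card + Sel.card := by
        exact_mod_cast Finset.card_union_le D Sel
      have hlen : (τ.length : ℝ) ≤ 2 * D.card + 2 * ∑ l ∈ range L, C l := by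
        have h1 : ((τ.length + 1 : ℕ) : ℝ) ≤ ((2 * Q.card : ℕ) : ℝ) := by exact_mod_cast hτ3
        push_cast at h1
        linarith
      have hlen1 : 1 ≤ τ.length := List.length_pos_iff.mpr hτ1
      -- the test
      let T0 : (_ : ℕ) × List (J × Finset ℕ) := ⟨τ.length - 1, τ⟩
      have hT0S : T0 ∈ P.S := by
        refine Finset.mem_sigma.mpr ⟨Finset.mem_range.mpr ?_, ?_⟩
        · show τ.length - 1 < M
          have h1 : Q.card ≤ Fintype.card J := Finset.card_le_univ Q
          simp only [M]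
          omega
        · refine mem_walks a Lb F0 τ hτ1 hτ2 fun p hp => ?_
          obtain ⟨h1, h2⟩ := hτ4 p hp
          refine ⟨hF (hKF (hQK h1)), ?_⟩
          rw [hLb, Finset.mem_powerset]
          rcases h2 with h2 | h2
          · rw [h2]; exact Finset.empty_subset _
          · rw [h2]; exact hΛ1 _
      -- sums over the walk
      have hsumQ : ∀ (h : J → ℝ) (l : ℕ),
          (τ.map (fun p => if l ∈ p.2 then h p.1 else 0)).sum
          = ∑ u ∈ K, (if l ∈ Λ u then h u else 0) := by
        intro h l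
        have h1 := hτ5 (fun u s => if l ∈ s then h u else 0) (fun u => by simp)
        rw [h1]
        refine Finset.sum_subset hQK fun u hu hu2 => ?_
        rw [if_neg]
        intro h2
        apply hu2
        rw [hQ]
        exact Finset.mem_union_right _ (Finset.mem_filter.mpr ⟨hu, Finset.ne_empty_of_mem h2⟩)
      have hbT : ∀ i l, P.b T0 i l = min 1 (∑ u ∈ K, if l ∈ Λ u then |a i u| else 0) := by
        intro i l
        show min 1 ((τ.map (fun p => if l ∈ p.2 then |a i p.1| else 0)).sum) = _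
        rw [hsumQ (fun u => |a i u|) l]
      have hbsum : ∀ l, ∑ i, P.b T0 i l ≤ t * C l := by
        intro l
        have h1 : ∑ i, P.b T0 i l ≤ ∑ i, (τ.map (fun p => if l ∈ p.2 then |a i p.1| else 0)).sum :=
          Finset.sum_le_sum fun i _ => min_le_right _ _
        have h2 := list_row_sum a t col l τ
        rw [hsumQ (fun _ => 1) l] at h2
        exact h1.trans h2
      -- the exponent
      have hTh : ∑ i ∈ P.R F K, P.W F y i *
          min 1 (∑ u ∈ K, if P.lev F i ∈ Λ u then |a i u| else 0)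
          - ∑ l ∈ range L, t * exp (-(10 * 4 ^ l)) * C l ≤ P.Th F T0 y := by
        rw [P.Th_eq]
        have h1 : ∑ i ∈ P.R F K, P.W F y i *
            min 1 (∑ u ∈ K, if P.lev F i ∈ Λ u then |a i u| else 0)
            ≤ ∑ i ∈ P.med F, P.b T0 i (P.lev F i) * (P.w (P.lev F i) * P.φ (P.lev F i) i y) := by
          have h2 : ∑ i ∈ P.R F K, P.W F y i *
            min 1 (∑ u ∈ K, if P.lev F i ∈ Λ u then |a i u| else 0)
            = ∑ i ∈ P.R F K, P.b T0 i (P.lev F i) *
              (P.w (P.lev F i) * P.φ (P.lev F i) i y) := by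
            refine Finset.sum_congr rfl fun i _ => ?_
            rw [hbT]
            unfold Sys.W
            ring
          rw [h2]
          apply Finset.sum_le_sum_of_subset_of_nonneg (Finset.filter_subset _ _)
          intro i _ _
          exact mul_nonneg (P.hb0 T0 hT0S i _) (mul_pos (P.hw _) (P.φ_pos _ _ _)).le
        have h3 := P.off_le F hT0S
        have h4 : ∑ l ∈ range P.L, P.w l * P.g l * ∑ i, P.b T0 i l
            ≤ ∑ l ∈ range L, t * exp (-(10 * 4 ^ l)) * C l := by
          refine Finset.sum_le_sum fun l _ => ?_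
          have h5 : 0 < P.w l * P.g l := mul_pos (P.hw l) (P.g_pos l)
          calc P.w l * P.g l * ∑ i, P.b T0 i l ≤ P.w l * P.g l * (t * C l) :=
                mul_le_mul_of_nonneg_left (hbsum l) h5.le
            _ = 1 * exp (-(10 * 4 ^ l)) * (t * C l) := rfl
            _ = _ := by ring
        linarith
      -- the potential bounds the exponent
      have hpot : P.Th F T0 y - (τ.length : ℝ) * Kκ ≤ log (2 * N) := by
        have h1 : P.wt T0 * exp (P.Th F T0 y) ≤ 2 * N := by
          have h2 := Finset.single_le_sum (f := fun τ => P.wt τ * exp (P.Th F τ y))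
            (fun τ hτ => mul_nonneg (P.hwt τ hτ).le (exp_pos _).le) hT0S
          have h3 : 0 ≤ ∑ j, (1 - y j ^ 2) := by
            refine Finset.sum_nonneg fun j _ => ?_
            have := hy j
            have h4 : y j ^ 2 ≤ 1 := by
              rw [← sq_abs]; nlinarith [abs_nonneg (y j)]
            linarith
          have h4 : P.f F y = ∑ τ ∈ P.S, P.wt τ * exp (P.Th F τ y) + ∑ j, (1 - y j ^ 2) := rfl
          have h5 : P.N = N := rfl
          rw [h5] at hf
          linarith
        have h2 : P.wt T0 = κ ^ τ.length := by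
          show κ ^ (τ.length - 1 + 1) = _
          congr 1
          omega
        rw [h2] at h1
        have h3 := Real.log_le_log (mul_pos (pow_pos hκ0 _) (exp_pos _)) h1
        rw [Real.log_mul (pow_pos hκ0 _).ne' (exp_pos _).ne', Real.log_exp, Real.log_pow,
          hlogκ] at h3
        linarith
      -- numerical estimates
      have hMp : ∑ l ∈ range L, (2 * Kκ + t * exp (-(10 * 4 ^ l))) * ((16 : ℝ) ^ l / (10 * t))
          ≤ 32 / 15 * Kκ / c0 + 1 / 100000 := by
        have h1 : ∀ l, (2 * Kκ + t * exp (-(10 * 4 ^ l))) * ((16 : ℝ) ^ l / (10 * t))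
            = 2 * Kκ / (10 * t) * 16 ^ l + 1 / 10 * ((16 : ℝ) ^ l * exp (-(10 * 4 ^ l))) := by
          intro l; field_simp
        rw [Finset.sum_congr rfl fun l _ => h1 l, Finset.sum_add_distrib, ← Finset.mul_sum,
          ← Finset.mul_sum]
        have h2 := reset_total L
        have h3 : 2 * Kκ / (10 * t) * ∑ l ∈ range L, (16 : ℝ) ^ l ≤ 32 / 15 * Kκ / c0 := by
          have h4 := geom16 L
          rcases Nat.eq_zero_or_pos L with h | h
          · rw [h]; simp; positivity
          · obtain ⟨m, hm⟩ : ∃ m, L = m + 1 := ⟨L - 1, by omega⟩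
            have h5 := hLmin m (by omega)
            have h6 : ∑ l ∈ range L, (16 : ℝ) ^ l ≤ 160 * t / (15 * c0) := by
              rw [le_div_iff₀ (by positivity)]
              rw [hm, pow_succ] at h4
              have h7 : 15 * ∑ l ∈ range L, (16 : ℝ) ^ l ≤ 16 * 16 ^ m := by rw [hm]; linarith
              calc (∑ l ∈ range L, (16 : ℝ) ^ l) * (15 * c0)
                  = (15 * ∑ l ∈ range L, (16 : ℝ) ^ l) * c0 := by ring
                _ ≤ (16 * 16 ^ m) * c0 := mul_le_mul_of_nonneg_right h7 hc00.le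
                _ ≤ 160 * t := by linarith
            calc 2 * Kκ / (10 * t) * ∑ l ∈ range L, (16 : ℝ) ^ l
                ≤ 2 * Kκ / (10 * t) * (160 * t / (15 * c0)) :=
                  mul_le_mul_of_nonneg_left h6 (by positivity)
              _ = 32 / 15 * Kκ / c0 := by field_simp; ring
        linarith
      have hratio : Kκ / c0 ≤ 1 / 40000 := by
        rw [div_le_div_iff₀ hc00 (by norm_num)]; linarith
      have hDn : (D.card : ℝ) * Kκ ≤ n * (1 / 40000) := by
        have h1 : (D.card : ℝ) ≤ n / c0 := by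
          rw [le_div_iff₀ hc00]
          have : c0 * (D.card : ℝ) ≤ n := hDc
          linarith
        calc (D.card : ℝ) * Kκ ≤ n / c0 * Kκ := mul_le_mul_of_nonneg_right h1 hKκ0.le
          _ = n * (Kκ / c0) := by ring
          _ ≤ n * (1 / 40000) := mul_le_mul_of_nonneg_left hratio (by linarith)
      have hMp2 : n * ∑ l ∈ range L, (2 * Kκ + t * exp (-(10 * 4 ^ l))) *
          ((16 : ℝ) ^ l / (10 * t)) ≤ n * (32 / 15 * (1 / 40000) + 1 / 100000) := by
        apply mul_le_mul_of_nonneg_left _ (by linarith)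
        refine hMp.trans ?_
        have : 32 / 15 * Kκ / c0 = 32 / 15 * (Kκ / c0) := by ring
        rw [this]
        linarith
      have hsplitC : ∑ l ∈ range L, (2 * Kκ + t * exp (-(10 * 4 ^ l))) * C l
          = 2 * Kκ * ∑ l ∈ range L, C l + ∑ l ∈ range L, t * exp (-(10 * 4 ^ l)) * C l := by
        rw [Finset.mul_sum, ← Finset.sum_add_distrib]
        exact Finset.sum_congr rfl fun l _ => by ring
      have hlenK : (τ.length : ℝ) * Kκ ≤ (2 * D.card + 2 * ∑ l ∈ range L, C l) * Kκ :=
        mul_le_mul_of_nonneg_right hlen hKκ0.le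
      have hΛ3' : 1 / 32 * ∑ i ∈ P.R F K, P.W F y i - n * ∑ l ∈ range L,
          (2 * Kκ + t * exp (-(10 * 4 ^ l))) * ((16 : ℝ) ^ l / (10 * t))
          ≤ ∑ i ∈ P.R F K, P.W F y i *
            min 1 (∑ u ∈ K, if P.lev F i ∈ Λ u then |a i u| else 0)
          - ∑ l ∈ range L, (2 * Kκ + t * exp (-(10 * 4 ^ l))) * C l := hΛ3
      rw [hsplitC] at hΛ3'
      have hfin : n / 2000 ≤ log (2 * N) := by nlinarith
      linarith
    refine ⟨by linarith, ?_⟩
    intro Tt hTt
    have h1 : ∀ i ∈ Tt, (1 : ℝ) / 2 ≤ P.W F y i := by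
      intro i hi
      obtain ⟨hiR, htight⟩ := hTt i hi
      have h2 := P.tight_le (P.lev F i) i hy htight
      show 1 / 2 ≤ 1 * P.φ (P.lev F i) i y
      linarith
    have h2 := Finset.card_nsmul_le_sum Tt _ _ h1
    rw [nsmul_eq_mul] at h2
    have h3 : ∑ i ∈ Tt, P.W F y i ≤ ∑ i ∈ P.R F K, P.W F y i :=
      Finset.sum_le_sum_of_subset_of_nonneg (fun i hi => (hTt i hi).1)
        (fun i _ _ => (P.W_pos F y i).le)
    linarith
  exact P.stage k hgood hseen

end H167BK
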