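import Pool.Agent.H167R2.BKBlock

/-!
# The last stage: small components are coloured completely
-/

namespace H167BK

open Finset Real H167BJ

variable {I J T : Type*} [Fintype I] [Fintype J]

theorem geom_half_sum (n : ℕ) : ∑ l ∈ range n, ((1 : ℝ) / 2) ^ (l + 1) ≤ 1 := by
  have h : ∑ l ∈ range n, ((1 : ℝ) / 2) ^ (l + 1) = 1 - (1 / 2) ^ n := by
    induction n with
    | zero => simp
    | succ n ih => rw [Finset.sum_range_succ, ih, pow_succ]; ring
  rw [h]
  have : (0 : ℝ) < (1 / 2) ^ n := by positivity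
  linarith

theorem reset_total (n : ℕ) :
    ∑ l ∈ range n, (16 : ℝ) ^ l * exp (-(10 * 4 ^ l)) ≤ 1 / 10000 := by
  calc ∑ l ∈ range n, (16 : ℝ) ^ l * exp (-(10 * 4 ^ l))
      ≤ ∑ l ∈ range n, 1 / 10000 * ((1 : ℝ) / 2) ^ (l + 1) :=
        Finset.sum_le_sum fun l _ => reset_sum l
    _ = 1 / 10000 * ∑ l ∈ range n, ((1 : ℝ) / 2) ^ (l + 1) := by rw [Finset.mul_sum]
    _ ≤ 1 / 10000 * 1 := mul_le_mul_of_nonneg_left (geom_half_sum n) (by norm_num)
    _ = 1 / 10000 := by ring

omit [Fintype I] [Fintype J] in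
theorem exists_level (t c0 : ℝ) (hc0 : 0 < c0) : ∃ L : ℕ, 10 * t ≤ c0 * 16 ^ L := by
  obtain ⟨L, hL⟩ := pow_unbounded_of_one_lt (10 * t / c0) (by norm_num : (1 : ℝ) < 16)
  refine ⟨L, ?_⟩
  rw [div_lt_iff₀ hc0] at hL
  linarith

/-- Mass of a row inside its component. -/
theorem comp_mass {P : Sys I J T} {F : Finset J} {v : J} {i : I}
    (hi : i ∈ P.R F (comp P.a P.c0 F v)) :
    ∑ u ∈ comp P.a P.c0 F v, |P.a i u| = P.mass F i := by
  classical
  have h1 := Finset.mem_filter.mp hi
  unfold Sys.mass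
  refine Finset.sum_subset (comp_sub _ _ _ _) fun u hu hu2 => ?_
  by_contra hne
  exact hu2 (comp_rows (P.mem_med.mp h1.1).1 h1.2 u hu (fun h => hne (by rw [h, abs_zero])))

/-- The last stage. -/
theorem last_stage (a : I → J → ℝ) (t c0 : ℝ) (ht : 1 ≤ t) (hc0 : 80 * Real.sqrt t ≤ c0)
    (a1 : ∀ i j, |a i j| ≤ 1) (col : ∀ j, ∑ i, |a i j| ≤ t) (x0 : J → ℝ)
    (hx0 : ∀ j, |x0 j| ≤ 1)
    (hN : 2 * ((H167FK.Sys.alive x0).card : ℝ) ≤ exp (c0 / 100)) :
    ∃ y : J → ℝ, (∀ j, |y j| = 1) ∧ (∀ j, |x0 j| = 1 → y j = x0 j) ∧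
      ∀ i, |∑ v, a i v * (y v - x0 v)| ≤ 80 * Real.sqrt t + 2 * c0 := by
  classical
  have hs : 1 ≤ Real.sqrt t := Real.one_le_sqrt.mpr ht
  have ht0 : 0 < t := by linarith
  have hc00 : 0 < c0 := by linarith
  obtain ⟨L, hL⟩ := exists_level t c0 hc00
  have hw0 : ∀ l : ℕ, 0 < 100 * c0 / t * (16 : ℝ) ^ l := fun l => by positivity
  let P : Sys I J J :=
    { a := a
      t := t
      c0 := c0
      ht := ht
      hc0 := hc0
      a1 := a1
      col := col
      x0 := x0
      hx0 := hx0
      S := H167FK.Sys.alive x0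
      wt := fun _ => 1
      hwt := fun _ _ => one_pos
      b := fun j i _ => |a i j|
      hb0 := fun _ _ _ _ => abs_nonneg _
      hb1 := fun j _ i _ => a1 i j
      w := fun l => 100 * c0 / t * (16 : ℝ) ^ l
      hw := hw0
      N := ((H167FK.Sys.alive x0).card : ℝ)
      hN := le_rfl
      hwtN := by simp
      L := L
      hL := hL }
  have hseen : P.Seen := by
    intro F F' hF i hi
    have h1 : i ∈ P.med F := (Finset.mem_filter.mp hi).1
    have h2 := P.med_mass_pos h1
    obtain ⟨v, hv, hv2⟩ := Finset.exists_ne_zero_of_sum_ne_zero h2.ne'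
    exact ⟨v, hF hv, lt_of_le_of_ne (abs_nonneg _) (Ne.symm hv2)⟩
  have hgood : P.Good 1 := by
    intro F v y hF hv hk hy hf
    set K : Finset J := comp P.a P.c0 F v with hK
    have hKF : K ⊆ F := comp_sub _ _ _ _
    -- pointwise bound of the exponents
    have hpt : ∀ j ∈ K, ∑ i ∈ P.med F, |a i j| * P.W F y i ≤ c0 / 50 := by
      intro j hj
      have hjS : j ∈ P.S := hF (hKF hj)
      have h1 : exp (P.Th F j y) ≤ exp (c0 / 100) := by
        have h2 : (1 : ℝ) * exp (P.Th F j y) ≤ ∑ τ ∈ P.S, P.wt τ * exp (P.Th F τ y) :=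
          Finset.single_le_sum (f := fun τ => P.wt τ * exp (P.Th F τ y))
            (fun τ _ => mul_nonneg zero_le_one (exp_pos _).le) hjS
        have h3 : 0 ≤ ∑ j, (1 - y j ^ 2) := by
          refine Finset.sum_nonneg fun j _ => ?_
          have := hy j
          have h4 : y j ^ 2 ≤ 1 := by
            rw [← sq_abs]; nlinarith [abs_nonneg (y j)]
          linarith
        have h4 : P.f F y = ∑ τ ∈ P.S, P.wt τ * exp (P.Th F τ y) + ∑ j, (1 - y j ^ 2) := rfl
        have h5 : P.N = ((H167FK.Sys.alive x0).card : ℝ) := rfl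
        rw [h5] at hf
        linarith
      have h2 : P.Th F j y ≤ c0 / 100 := exp_le_exp.mp h1
      rw [P.Th_eq] at h2
      have h3 := P.off_le F hjS
      have h4 : ∑ l ∈ range P.L, P.w l * P.g l * ∑ i, P.b j i l ≤ c0 / 100 := by
        have h5 : ∀ l ∈ range P.L, P.w l * P.g l * ∑ i, P.b j i l
            ≤ 100 * c0 * ((16 : ℝ) ^ l * exp (-(10 * 4 ^ l))) := by
          intro l _
          have h6 : ∑ i, P.b j i l ≤ t := col j
          have h7 : 0 < P.w l * P.g l := mul_pos (P.hw l) (P.g_pos l)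
          calc P.w l * P.g l * ∑ i, P.b j i l ≤ P.w l * P.g l * t :=
                mul_le_mul_of_nonneg_left h6 h7.le
            _ = 100 * c0 / t * (16 : ℝ) ^ l * exp (-(10 * 4 ^ l)) * t := rfl
            _ = 100 * c0 * ((16 : ℝ) ^ l * exp (-(10 * 4 ^ l))) := by field_simp
        refine (Finset.sum_le_sum h5).trans ?_
        rw [← Finset.mul_sum]
        calc 100 * c0 * ∑ l ∈ range P.L, (16 : ℝ) ^ l * exp (-(10 * 4 ^ l))
            ≤ 100 * c0 * (1 / 10000) :=
              mul_le_mul_of_nonneg_left (reset_total _) (by positivity)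
          _ = c0 / 100 := by ring
      have h5 : ∑ i ∈ P.med F, P.b j i (P.lev F i) * (P.w (P.lev F i) * P.φ (P.lev F i) i y)
          = ∑ i ∈ P.med F, |a i j| * P.W F y i := rfl
      rw [h5] at h2
      linarith
    -- sum over the component
    have hsum : ∑ i ∈ P.R F K, P.W F y i * P.mass F i ≤ c0 / 50 * (K.card : ℝ) := by
      calc ∑ i ∈ P.R F K, P.W F y i * P.mass F i
          = ∑ i ∈ P.R F K, P.W F y i * ∑ u ∈ K, |P.a i u| :=
            Finset.sum_congr rfl fun i hi => by rw [comp_mass hi]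
        _ ≤ ∑ i ∈ P.med F, P.W F y i * ∑ u ∈ K, |P.a i u| := by
            apply Finset.sum_le_sum_of_subset_of_nonneg (Finset.filter_subset _ _)
            intro i _ _
            exact mul_nonneg (P.W_pos F y i).le (Finset.sum_nonneg fun _ _ => abs_nonneg _)
        _ = ∑ u ∈ K, ∑ i ∈ P.med F, |a i u| * P.W F y i := by
            simp only [Finset.mul_sum]
            rw [Finset.sum_comm]
            exact Finset.sum_congr rfl fun u _ => Finset.sum_congr rfl fun i _ => by
              show P.W F y i * |a i u| = _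
              ring
        _ ≤ ∑ u ∈ K, c0 / 50 := Finset.sum_le_sum hpt
        _ = c0 / 50 * (K.card : ℝ) := by simp [mul_comm]
    refine ⟨?_, ?_⟩
    · have h1 : c0 * ∑ i ∈ P.R F K, P.W F y i ≤ c0 / 50 * (K.card : ℝ) := by
        refine le_trans ?_ hsum
        rw [Finset.mul_sum]
        refine Finset.sum_le_sum fun i hi => ?_
        rw [mul_comm]
        exact mul_le_mul_of_nonneg_left (P.mem_med.mp (Finset.mem_filter.mp hi).1).1.le
          (P.W_pos F y i).le
      have h2 : c0 * (100 * ∑ i ∈ P.R F K, P.W F y i) ≤ c0 * (2 * (K.card : ℝ)) := by linarith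
      exact le_of_mul_le_mul_left h2 hc00
    · intro Tt hTt
      have h1 : ∀ i ∈ Tt, 31 * c0 ≤ P.W F y i * P.mass F i := by
        intro i hi
        obtain ⟨hiR, htight⟩ := hTt i hi
        have him := (Finset.mem_filter.mp hiR).1
        have h2 := P.tight_le (P.lev F i) i hy htight
        have h0 := P.med_mass_pos him
        have h3 := P.lt_lev h0
        rw [pow_succ] at h3
        have h3' : 10 * t < 16 ^ P.lev F i * 16 * P.mass F i := h3
        have h4 : 0 < (16 : ℝ) ^ P.lev F i * P.mass F i := by positivity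
        calc 31 * c0 ≤ 100 * c0 / t * (10 * t / 16) * (1 / 2) := by
              have : 100 * c0 / t * (10 * t / 16) * (1 / 2) = 1000 / 32 * c0 := by field_simp; ring
              rw [this]; linarith
          _ ≤ 100 * c0 / t * (16 ^ P.lev F i * P.mass F i) * P.φ (P.lev F i) i y := by
              apply mul_le_mul _ h2 (by norm_num) (by positivity)
              apply mul_le_mul_of_nonneg_left _ (by positivity)
              linarith
          _ = P.W F y i * P.mass F i := by
              show _ = 100 * c0 / t * (16 : ℝ) ^ P.lev F i * P.φ (P.lev F i) i y * P.mass F i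
              ring
      have h2 := Finset.card_nsmul_le_sum Tt _ _ h1
      rw [nsmul_eq_mul] at h2
      have h3 : ∑ i ∈ Tt, P.W F y i * P.mass F i ≤ ∑ i ∈ P.R F K, P.W F y i * P.mass F i :=
        Finset.sum_le_sum_of_subset_of_nonneg (fun i hi => (hTt i hi).1)
          (fun i _ _ => mul_nonneg (P.W_pos F y i).le (P.mass_nonneg F i))
      have h4 := (h2.trans h3).trans hsum
      have h5 : c0 * (31 * (Tt.card : ℝ)) ≤ c0 * ((K.card : ℝ) / 50) := by linarith
      have h6 := le_of_mul_le_mul_left h5 hc00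
      have h7 : (0 : ℝ) ≤ K.card := Nat.cast_nonneg _
      linarith
  obtain ⟨y, hy1, hy2, hy3, hy4⟩ := P.stage 1 hgood hseen
  have halive : ∀ j, |y j| = 1 := by
    intro j
    by_contra hcon
    have hj : j ∈ H167FK.Sys.alive y := by
      unfold H167FK.Sys.alive
      rw [Finset.mem_filter]
      exact ⟨Finset.mem_univ _, lt_of_le_of_ne (hy1 j) hcon⟩
    have h1 := hy4 j hj
    have h2 : j ∈ comp P.a P.c0 (H167FK.Sys.alive y) j :=
      mem_comp.mpr ⟨hj, Relation.ReflTransGen.refl⟩
    have h3 := Finset.card_pos.mpr ⟨j, h2⟩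
    omega
  refine ⟨y, halive, hy2, fun i => ?_⟩
  rcases hy3 i with h | h
  · exact h.trans (by linarith)
  · exact h y hy1 (fun _ _ => rfl)

end H167BK
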