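import Pool.Agent.H167R2.BKDir
import Pool.Agent.H167R2.BJSys

/-!
# Potentials with a base point and general test families
-/

namespace H167BK

open Finset Real H167BJ

/-- Data of one stage. -/
structure Sys (I J T : Type*) [Fintype I] [Fintype J] where
  a : I → J → ℝ
  t : ℝ
  c0 : ℝ
  ht : 1 ≤ t
  hc0 : 80 * Real.sqrt t ≤ c0
  a1 : ∀ i j, |a i j| ≤ 1
  col : ∀ j, ∑ i, |a i j| ≤ t
  x0 : J → ℝ
  hx0 : ∀ j, |x0 j| ≤ 1
  S : Finset T
  wt : T → ℝ
  hwt : ∀ τ ∈ S, 0 < wt τ
  b : T → I → ℕ → ℝ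
  hb0 : ∀ τ ∈ S, ∀ i l, 0 ≤ b τ i l
  hb1 : ∀ τ ∈ S, ∀ i l, b τ i l ≤ 1
  w : ℕ → ℝ
  hw : ∀ l, 0 < w l
  N : ℝ
  hN : ((H167FK.Sys.alive x0).card : ℝ) ≤ N
  hwtN : ∑ τ ∈ S, wt τ ≤ N
  L : ℕ
  hL : 10 * t ≤ c0 * 16 ^ L

variable {I J T : Type*} [Fintype I] [Fintype J]

namespace Sys

variable (P : Sys I J T)

theorem sqrt_ge : 1 ≤ Real.sqrt P.t := Real.one_le_sqrt.mpr P.ht

theorem sq_sqrt_t : Real.sqrt P.t ^ 2 = P.t := Real.sq_sqrt (by linarith [P.ht])

theorem c0_pos : 0 < P.c0 := by
  have := P.sqrt_ge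
  have := P.hc0
  linarith

/-- Alive mass of a row. -/
noncomputable def mass (F : Finset J) (i : I) : ℝ := ∑ v ∈ F, |P.a i v|

open Classical in
/-- Rows with large alive mass. -/
noncomputable def big (F : Finset J) : Finset I :=
  Finset.univ.filter (fun i => P.c0 < P.mass F i ∧ 10 * P.t < P.mass F i)

open Classical in
/-- Rows with medium alive mass. -/
noncomputable def med (F : Finset J) : Finset I :=
  Finset.univ.filter (fun i => P.c0 < P.mass F i ∧ P.mass F i ≤ 10 * P.t)

/-- The level of a row. -/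
noncomputable def lev (F : Finset J) (i : I) : ℕ := Nat.log 16 ⌊10 * P.t / P.mass F i⌋₊

/-- Exponents. -/
noncomputable def lam (k : ℕ) : ℝ := 8 ^ k / (2 * Real.sqrt P.t)

/-- Thresholds. -/
noncomputable def Tp (k : ℕ) : ℝ := 80 * Real.sqrt P.t * (1 - (1 / 2) ^ k)

/-- Row sum relative to the base point. -/
noncomputable def A (i : I) (y : J → ℝ) : ℝ := ∑ v, P.a i v * (y v - P.x0 v)

/-- The row potential at level `k`. -/
noncomputable def φ (k : ℕ) (i : I) (y : J → ℝ) : ℝ :=
  exp (-(P.lam k * P.Tp (k + 1))) * cosh (P.lam k * P.A i y)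
    * exp (4 * P.lam k ^ 2 * ∑ v, P.a i v ^ 2 * (1 - y v ^ 2))

/-- Reset value. -/
noncomputable def g (_P : Sys I J T) (k : ℕ) : ℝ := exp (-(10 * 4 ^ k))

theorem g_pos (k : ℕ) : 0 < P.g k := exp_pos _

theorem mass_nonneg (F : Finset J) (i : I) : 0 ≤ P.mass F i :=
  Finset.sum_nonneg fun _ _ => abs_nonneg _

theorem mass_mono {F F' : Finset J} (h : F' ⊆ F) (i : I) : P.mass F' i ≤ P.mass F i :=
  Finset.sum_le_sum_of_subset_of_nonneg h (fun _ _ _ => abs_nonneg _)

theorem lam_pos (k : ℕ) : 0 < P.lam k := by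
  have := P.sqrt_ge
  unfold lam; positivity

theorem Tp_nonneg (k : ℕ) : 0 ≤ P.Tp k := by
  have := P.sqrt_ge
  have := H167BJ.Sys.half_pow_le k
  unfold Tp
  apply mul_nonneg (by positivity) (by linarith)

theorem Tp_le (k : ℕ) : P.Tp k ≤ 80 * Real.sqrt P.t := by
  have h1 := P.sqrt_ge
  have h2 : (0 : ℝ) ≤ (1 / 2) ^ k := by positivity
  unfold Tp
  have h3 : 80 * Real.sqrt P.t * (1 - (1 / 2) ^ k) ≤ 80 * Real.sqrt P.t * 1 := by
    apply mul_le_mul_of_nonneg_left _ (by positivity); linarith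
  linarith

theorem Tp_mono {k k' : ℕ} (h : k ≤ k') : P.Tp k ≤ P.Tp k' := by
  have h1 := P.sqrt_ge
  have h2 : ((1 : ℝ) / 2) ^ k' ≤ (1 / 2) ^ k :=
    pow_le_pow_of_le_one (by norm_num) (by norm_num) h
  unfold Tp
  apply mul_le_mul_of_nonneg_left _ (by positivity); linarith

theorem φ_pos (k : ℕ) (i : I) (y : J → ℝ) : 0 < P.φ k i y := by
  unfold φ
  have := cosh_pos (P.lam k * P.A i y)
  positivity

theorem lev_le {F : Finset J} {i : I} (h0 : 0 < P.mass F i) (h : P.mass F i ≤ 10 * P.t) :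
    16 ^ P.lev F i * P.mass F i ≤ 10 * P.t := by
  have h1 : 1 ≤ 10 * P.t / P.mass F i := by rw [le_div_iff₀ h0]; linarith
  have h2 : 1 ≤ ⌊10 * P.t / P.mass F i⌋₊ := (Nat.one_le_floor_iff _).mpr h1
  have h3 : 16 ^ P.lev F i ≤ ⌊10 * P.t / P.mass F i⌋₊ := Nat.pow_log_le_self 16 (by omega)
  have h4 : ((16 : ℝ) ^ P.lev F i) ≤ 10 * P.t / P.mass F i := by
    have h5 : ((16 ^ P.lev F i : ℕ) : ℝ) ≤ (⌊10 * P.t / P.mass F i⌋₊ : ℝ) := by exact_mod_cast h3
    have h6 : (⌊10 * P.t / P.mass F i⌋₊ : ℝ) ≤ 10 * P.t / P.mass F i :=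
      Nat.floor_le (by linarith)
    push_cast at h5
    exact h5.trans h6
  rwa [le_div_iff₀ h0] at h4

theorem lt_lev {F : Finset J} {i : I} (h0 : 0 < P.mass F i) :
    10 * P.t < 16 ^ (P.lev F i + 1) * P.mass F i := by
  have h3 : ⌊10 * P.t / P.mass F i⌋₊ < 16 ^ (P.lev F i + 1) :=
    Nat.lt_pow_succ_log_self (by norm_num) _
  have h4 : 10 * P.t / P.mass F i < (16 : ℝ) ^ (P.lev F i + 1) := by
    have h5 : 10 * P.t / P.mass F i < (⌊10 * P.t / P.mass F i⌋₊ : ℝ) + 1 :=
      Nat.lt_floor_add_one _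
    have h6 : ((⌊10 * P.t / P.mass F i⌋₊ + 1 : ℕ) : ℝ) ≤ ((16 ^ (P.lev F i + 1) : ℕ) : ℝ) := by
      exact_mod_cast h3
    push_cast at h6
    linarith
  rwa [div_lt_iff₀ h0] at h4

theorem lev_mono {F F' : Finset J} (h : F' ⊆ F) {i : I} (h0 : 0 < P.mass F' i) :
    P.lev F i ≤ P.lev F' i := by
  unfold lev
  apply Nat.log_mono_right
  apply Nat.floor_mono
  have := P.ht
  exact div_le_div_of_nonneg_left (by linarith) h0 (P.mass_mono h i)

theorem mem_med {F : Finset J} {i : I} :
    i ∈ P.med F ↔ P.c0 < P.mass F i ∧ P.mass F i ≤ 10 * P.t := by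
  classical
  unfold med; rw [Finset.mem_filter]; simp

theorem mem_big {F : Finset J} {i : I} :
    i ∈ P.big F ↔ P.c0 < P.mass F i ∧ 10 * P.t < P.mass F i := by
  classical
  unfold big; rw [Finset.mem_filter]; simp

theorem med_mass_pos {F : Finset J} {i : I} (hi : i ∈ P.med F) : 0 < P.mass F i :=
  P.c0_pos.trans (P.mem_med.mp hi).1

/-- Levels of medium rows are below `L`, and their masses are comparable with `10 t / 16^l`. -/
theorem lev_lt {F : Finset J} {i : I} (hi : i ∈ P.med F) : P.lev F i < P.L := by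
  have h0 := P.med_mass_pos hi
  obtain ⟨h1, h2⟩ := P.mem_med.mp hi
  have h3 := P.lev_le h0 h2
  have h4 : P.c0 * 16 ^ P.lev F i < P.c0 * 16 ^ P.L := by
    refine lt_of_lt_of_le ?_ P.hL
    refine lt_of_lt_of_le ?_ h3
    rw [mul_comm]
    exact mul_lt_mul_of_pos_left h1 (by positivity)
  have h5 := lt_of_mul_lt_mul_left h4 P.c0_pos.le
  exact (pow_lt_pow_iff_right₀ (by norm_num : (1 : ℝ) < 16)).mp h5

/-- On medium rows the exponent is small. -/
theorem lam_le {F : Finset J} {i : I} (hi : i ∈ P.med F) : P.lam (P.lev F i) ≤ 1 / 16 := by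
  have h0 := P.med_mass_pos hi
  obtain ⟨h1, h2⟩ := P.mem_med.mp hi
  have h3 := P.lev_le h0 h2
  have hs := P.sqrt_ge
  have hs2 := P.sq_sqrt_t
  set s := Real.sqrt P.t with hsdef
  have h4 : (16 : ℝ) ^ P.lev F i * (80 * s) ≤ 10 * s ^ 2 := by
    rw [hs2]
    refine le_trans ?_ h3
    apply mul_le_mul_of_nonneg_left _ (by positivity)
    have := P.hc0
    linarith
  have h5 : (16 : ℝ) ^ P.lev F i ≤ s / 8 := by
    have h6 : (16 : ℝ) ^ P.lev F i * (80 * s) ≤ s / 8 * (80 * s) := by
      refine h4.trans (le_of_eq ?_); ring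
    exact le_of_mul_le_mul_right h6 (by positivity)
  have h6 : (8 : ℝ) ^ P.lev F i ≤ 16 ^ P.lev F i :=
    pow_le_pow_left₀ (by norm_num) (by norm_num) _
  unfold lam
  rw [div_le_iff₀ (by positivity), ← hsdef]
  linarith

/-- The value of the potential right after a change of level. -/
theorem φ_reset (k : ℕ) (i : I) (y : J → ℝ) (hα : |P.A i y| ≤ P.Tp k)
    (hm : 16 ^ k * ∑ v, P.a i v ^ 2 * (1 - y v ^ 2) ≤ 10 * P.t) :
    P.φ k i y ≤ P.g k := by
  have hl := P.lam_pos k
  have hs := P.sqrt_ge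
  have hs2 := P.sq_sqrt_t
  set s := Real.sqrt P.t with hsdef
  have hs0 : s ≠ 0 := by linarith
  have h1 : cosh (P.lam k * P.A i y) ≤ exp (P.lam k * P.Tp k) := by
    refine (cosh_le_exp_abs _).trans (exp_le_exp.mpr ?_)
    rw [abs_mul, abs_of_pos hl]
    exact mul_le_mul_of_nonneg_left hα hl.le
  have h2 : P.lam k * P.Tp (k + 1) = P.lam k * P.Tp k + 20 * 4 ^ k := by
    have h3 : (8 : ℝ) ^ k * (1 / 2) ^ k = 4 ^ k := by rw [← mul_pow]; norm_num
    unfold lam Tp
    rw [← hsdef, pow_succ ((1 : ℝ) / 2), ← h3]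
    field_simp
    ring
  have h3 : 4 * P.lam k ^ 2 * ∑ v, P.a i v ^ 2 * (1 - y v ^ 2) ≤ 10 * 4 ^ k := by
    have h4 : P.lam k ^ 2 = 16 ^ k * 4 ^ k / (4 * P.t) := by
      unfold lam
      rw [← hsdef, div_pow, mul_pow, hs2, ← mul_pow, ← pow_mul, mul_comm k 2, pow_mul]
      norm_num
    have ht : 0 < P.t := by linarith [P.ht]
    rw [h4]
    calc 4 * (16 ^ k * 4 ^ k / (4 * P.t)) * ∑ v, P.a i v ^ 2 * (1 - y v ^ 2)
        = 4 ^ k / P.t * (16 ^ k * ∑ v, P.a i v ^ 2 * (1 - y v ^ 2)) := by field_simp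
      _ ≤ 4 ^ k / P.t * (10 * P.t) := mul_le_mul_of_nonneg_left hm (by positivity)
      _ = 10 * 4 ^ k := by field_simp
  unfold φ g
  rw [h2]
  calc _ ≤ exp (-(P.lam k * P.Tp k + 20 * 4 ^ k)) * exp (P.lam k * P.Tp k)
        * exp (10 * 4 ^ k) := by
        apply mul_le_mul _ (exp_le_exp.mpr h3) (exp_pos _).le (by positivity)
        exact mul_le_mul_of_nonneg_left h1 (exp_pos _).le
    _ = exp (-(10 * 4 ^ k)) := by
        rw [← exp_add, ← exp_add]
        congr 1
        ring

theorem energy_le_mass {F : Finset J} (i : I) {y : J → ℝ}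
    (hF : ∀ j ∉ F, |y j| = 1) : ∑ v, P.a i v ^ 2 * (1 - y v ^ 2) ≤ P.mass F i := by
  classical
  unfold mass
  rw [← Finset.sum_subset (Finset.subset_univ F)]
  · refine Finset.sum_le_sum fun v _ => ?_
    have h1 := P.a1 i v
    have h2 := abs_nonneg (P.a i v)
    have h3 : P.a i v ^ 2 ≤ |P.a i v| := by
      rw [← sq_abs]; nlinarith
    have h4 : 0 ≤ y v ^ 2 := sq_nonneg _
    have h5 : 0 ≤ P.a i v ^ 2 := sq_nonneg _
    nlinarith
  · intro v _ hv
    have h2 : y v ^ 2 = 1 := by rw [← sq_abs, hF v hv]; norm_num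
    rw [h2]; ring

/-- A tight row has large potential. -/
theorem tight_le (k : ℕ) (i : I) {y : J → ℝ} (hy : ∀ j, |y j| ≤ 1)
    (h : |P.A i y| = P.Tp (k + 1)) : 1 / 2 ≤ P.φ k i y := by
  have hl := P.lam_pos k
  unfold φ
  have h1 : cosh (P.lam k * P.A i y) = cosh (P.lam k * P.Tp (k + 1)) := by
    rw [← cosh_abs, abs_mul, abs_of_pos hl, h]
  rw [h1]
  have h2 : 1 ≤ exp (4 * P.lam k ^ 2 * ∑ v, P.a i v ^ 2 * (1 - y v ^ 2)) := by
    apply one_le_exp
    apply mul_nonneg (by positivity)
    refine Finset.sum_nonneg fun j _ => mul_nonneg (sq_nonneg _) ?_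
    have := hy j
    have h3 : y j ^ 2 ≤ 1 := by
      rw [← sq_abs]; nlinarith [abs_nonneg (y j)]
    linarith
  have h3 : exp (P.lam k * P.Tp (k + 1)) / 2 ≤ cosh (P.lam k * P.Tp (k + 1)) := by
    rw [cosh_eq]
    have := exp_pos (-(P.lam k * P.Tp (k + 1)))
    linarith
  have h4 : exp (-(P.lam k * P.Tp (k + 1))) * exp (P.lam k * P.Tp (k + 1)) = 1 := by
    rw [← exp_add]; simp
  have h5 : 0 < exp (-(P.lam k * P.Tp (k + 1))) := exp_pos _
  calc (1 : ℝ) / 2 = exp (-(P.lam k * P.Tp (k + 1))) * (exp (P.lam k * P.Tp (k + 1)) / 2) * 1 := by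
        rw [mul_one, ← mul_div_assoc, h4]
    _ ≤ _ := by
        apply mul_le_mul _ h2 zero_le_one
        · have := cosh_pos (P.lam k * P.Tp (k + 1)); positivity
        · exact mul_le_mul_of_nonneg_left h3 h5.le

open Classical in
/-- Correction of a row at level `l`. -/
noncomputable def offc (F : Finset J) (i : I) (l : ℕ) : ℝ :=
  if i ∈ P.big F ∨ (i ∈ P.med F ∧ P.lev F i < l) then 0 else P.w l * P.g l

open Classical in
/-- Contribution of a row at level `l` to the exponents. -/
noncomputable def th (F : Finset J) (i : I) (l : ℕ) (y : J → ℝ) : ℝ :=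
  (if i ∈ P.med F ∧ P.lev F i = l then P.w l * P.φ l i y else 0) - P.offc F i l

/-- Exponent of a test. -/
noncomputable def Th (F : Finset J) (τ : T) (y : J → ℝ) : ℝ :=
  ∑ i, ∑ l ∈ range P.L, P.b τ i l * P.th F i l y

/-- Correction term of a test. -/
noncomputable def off (F : Finset J) (τ : T) : ℝ :=
  ∑ i, ∑ l ∈ range P.L, P.b τ i l * P.offc F i l

/-- The objective function. -/
noncomputable def f (F : Finset J) (y : J → ℝ) : ℝ :=
  ∑ τ ∈ P.S, P.wt τ * exp (P.Th F τ y) + ∑ j, (1 - y j ^ 2)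

/-- The contributions at a fixed point decrease when the alive set shrinks. -/
theorem th_mono {F F' : Finset J} (hFF : F' ⊆ F) (i : I) (l : ℕ) {y : J → ℝ}
    (hF' : ∀ j ∉ F', |y j| = 1)
    (hbig : i ∈ P.big F → P.A i y = 0)
    (hmed : i ∈ P.med F → |P.A i y| ≤ P.Tp (P.lev F i + 1)) :
    P.th F' i l y ≤ P.th F i l y := by
  classical
  have hmono := P.mass_mono hFF i
  have hw := P.hw l
  have hg := P.g_pos l
  have hwg : 0 < P.w l * P.g l := mul_pos hw hg
  have hφ := P.φ_pos l i y
  have hbm : ∀ F'' : Finset J, i ∈ P.big F'' → i ∉ P.med F'' := by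
    intro F'' h1 h2
    have := (P.mem_big.mp h1).2
    have := (P.mem_med.mp h2).2
    linarith
  -- new row at level `l`
  have hreset : i ∈ P.med F' → P.lev F' i = l → |P.A i y| ≤ P.Tp l → P.φ l i y ≤ P.g l := by
    intro h1 h2 h3
    refine P.φ_reset l i y h3 ?_
    refine le_trans ?_ (P.lev_le (P.med_mass_pos h1) (P.mem_med.mp h1).2)
    rw [h2]
    exact mul_le_mul_of_nonneg_left (P.energy_le_mass i hF') (by positivity)
  by_cases hbF : i ∈ P.big F
  · -- big before: old value zero
    have hold : P.th F i l y = 0 := by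
      unfold th offc
      rw [if_neg (fun h => hbm F hbF h.1), if_pos (Or.inl hbF)]; ring
    rw [hold]
    unfold th offc
    by_cases h1 : i ∈ P.med F' ∧ P.lev F' i = l
    · rw [if_pos h1, if_neg]
      · have h2 := hreset h1.1 h1.2 (by rw [hbig hbF, abs_zero]; exact P.Tp_nonneg _)
        have := mul_le_mul_of_nonneg_left h2 hw.le
        linarith
      · rintro (h2 | h2)
        · exact hbm F' h2 h1.1
        · omega
    · rw [if_neg h1]
      split_ifs <;> linarith
  · by_cases hmF : i ∈ P.med F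
    · have hnb' : i ∉ P.big F' := by
        intro h
        have := (P.mem_big.mp h).2
        have := (P.mem_med.mp hmF).2
        linarith
      rcases lt_trichotomy (P.lev F i) l with hlt | heq | hgt
      · -- level below l : old value zero
        have hold : P.th F i l y = 0 := by
          unfold th offc
          rw [if_neg (fun h => by omega), if_pos (Or.inr ⟨hmF, hlt⟩)]; ring
        rw [hold]
        unfold th offc
        by_cases h1 : i ∈ P.med F' ∧ P.lev F' i = l
        · rw [if_pos h1, if_neg]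
          · have h2 := hreset h1.1 h1.2 ((hmed hmF).trans (P.Tp_mono hlt))
            have := mul_le_mul_of_nonneg_left h2 hw.le
            linarith
          · rintro (h2 | h2)
            · exact hnb' h2
            · omega
        · rw [if_neg h1]
          split_ifs <;> linarith
      · -- level l
        have hold : P.th F i l y = P.w l * P.φ l i y - P.w l * P.g l := by
          unfold th offc
          rw [if_pos ⟨hmF, heq⟩, if_neg]
          rintro (h2 | h2)
          · exact hbF h2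
          · omega
        rw [hold]
        unfold th offc
        have hnB : ¬ (i ∈ P.big F' ∨ (i ∈ P.med F' ∧ P.lev F' i < l)) := by
          rintro (h2 | h2)
          · exact hnb' h2
          · have := P.lev_mono hFF (P.med_mass_pos h2.1)
            omega
        rw [if_neg hnB]
        have hpos : 0 < P.w l * P.φ l i y := mul_pos hw hφ
        split_ifs <;> linarith
      · -- level above l
        have hold : P.th F i l y = - (P.w l * P.g l) := by
          unfold th offc
          rw [if_neg (fun h => by omega), if_neg]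
          · ring
          · rintro (h2 | h2)
            · exact hbF h2
            · omega
        rw [hold]
        unfold th offc
        have hnB : ¬ (i ∈ P.big F' ∨ (i ∈ P.med F' ∧ P.lev F' i < l)) := by
          rintro (h2 | h2)
          · exact hnb' h2
          · have := P.lev_mono hFF (P.med_mass_pos h2.1)
            omega
        have hnA : ¬ (i ∈ P.med F' ∧ P.lev F' i = l) := by
          rintro ⟨h2, h3⟩
          have := P.lev_mono hFF (P.med_mass_pos h2)
          omega
        rw [if_neg hnB, if_neg hnA]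
        linarith
    · -- small before
      have hsm : P.mass F i ≤ P.c0 := by
        by_contra hcon
        push Not at hcon
        rcases lt_or_ge (10 * P.t) (P.mass F i) with h | h
        · exact hbF (P.mem_big.mpr ⟨hcon, h⟩)
        · exact hmF (P.mem_med.mpr ⟨hcon, h⟩)
      have hnm' : i ∉ P.med F' := fun h => by
        have := (P.mem_med.mp h).1
        linarith
      have hnb' : i ∉ P.big F' := fun h => by
        have := (P.mem_big.mp h).1
        linarith
      have hold : P.th F i l y = - (P.w l * P.g l) := by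
        unfold th offc
        rw [if_neg (fun h => hmF h.1), if_neg]
        · ring
        · rintro (h2 | h2)
          · exact hbF h2
          · exact hmF h2.1
      rw [hold]
      unfold th offc
      rw [if_neg (fun h => hnm' h.1), if_neg]
      · linarith
      · rintro (h2 | h2)
        · exact hnb' h2
        · exact hnm' h2.1

/-- At the base point all contributions are nonpositive. -/
theorem th_base (F : Finset J) (i : I) (l : ℕ) (hF : ∀ j ∉ F, |P.x0 j| = 1) :
    P.th F i l P.x0 ≤ 0 := by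
  classical
  have hw := P.hw l
  have hg := P.g_pos l
  have hwg : 0 < P.w l * P.g l := mul_pos hw hg
  have hA : P.A i P.x0 = 0 := by unfold A; simp
  unfold th
  by_cases h1 : i ∈ P.med F ∧ P.lev F i = l
  · rw [if_pos h1]
    unfold offc
    rw [if_neg]
    · have h2 : P.φ l i P.x0 ≤ P.g l := by
        refine P.φ_reset l i P.x0 (by rw [hA, abs_zero]; exact P.Tp_nonneg _) ?_
        refine le_trans ?_ (P.lev_le (P.med_mass_pos h1.1) (P.mem_med.mp h1.1).2)
        rw [h1.2]
        exact mul_le_mul_of_nonneg_left (P.energy_le_mass i hF) (by positivity)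
      have := mul_le_mul_of_nonneg_left h2 hw.le
      linarith
    · rintro (h2 | h2)
      · have := (P.mem_big.mp h2).2
        have := (P.mem_med.mp h1.1).2
        linarith
      · omega
  · rw [if_neg h1]
    unfold offc
    split_ifs <;> linarith

/-- Split form of the exponents. -/
theorem Th_eq (F : Finset J) (τ : T) (y : J → ℝ) :
    P.Th F τ y = ∑ i ∈ P.med F, P.b τ i (P.lev F i) * (P.w (P.lev F i) * P.φ (P.lev F i) i y)
      - P.off F τ := by
  classical
  have h1 : ∀ i, ∑ l ∈ range P.L, P.b τ i l * P.th F i l y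
      = (if i ∈ P.med F then
          P.b τ i (P.lev F i) * (P.w (P.lev F i) * P.φ (P.lev F i) i y) else 0)
        - ∑ l ∈ range P.L, P.b τ i l * P.offc F i l := by
    intro i
    have h2 : ∀ l, P.b τ i l * P.th F i l y
        = (if i ∈ P.med F ∧ P.lev F i = l then P.b τ i l * (P.w l * P.φ l i y) else 0)
          - P.b τ i l * P.offc F i l := by
      intro l
      unfold th
      split_ifs <;> ring
    rw [Finset.sum_congr rfl fun l _ => h2 l, Finset.sum_sub_distrib]
    congr 1
    by_cases hi : i ∈ P.med F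
    · rw [if_pos hi]
      have h3 : ∀ l ∈ range P.L,
          (if i ∈ P.med F ∧ P.lev F i = l then P.b τ i l * (P.w l * P.φ l i y) else 0)
          = if P.lev F i = l then P.b τ i l * (P.w l * P.φ l i y) else 0 := by
        intro l _
        simp only [hi, true_and]
      rw [Finset.sum_congr rfl h3, Finset.sum_ite_eq, if_pos]
      rw [Finset.mem_range]
      exact P.lev_lt hi
    · rw [if_neg hi]
      refine Finset.sum_eq_zero fun l _ => ?_
      rw [if_neg (fun h => hi h.1)]
  unfold Th off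
  rw [Finset.sum_congr rfl fun i _ => h1 i, Finset.sum_sub_distrib]
  congr 1
  exact sum_restrict (P.med F) _ _ (fun i hi => if_pos hi) (fun i hi => if_neg hi)

theorem off_le (F : Finset J) {τ : T} (hτ : τ ∈ P.S) :
    P.off F τ ≤ ∑ l ∈ range P.L, P.w l * P.g l * ∑ i, P.b τ i l := by
  classical
  unfold off
  rw [Finset.sum_comm]
  refine Finset.sum_le_sum fun l _ => ?_
  rw [Finset.mul_sum]
  refine Finset.sum_le_sum fun i _ => ?_
  have h1 : P.offc F i l ≤ P.w l * P.g l := by
    unfold offc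
    have := mul_pos (P.hw l) (P.g_pos l)
    split_ifs <;> linarith
  have := mul_le_mul_of_nonneg_left h1 (P.hb0 τ hτ i l)
  linarith

end Sys

end H167BK
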