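import Pool.Agent.H167R2.FKBlock

/-!
# Combining the blocks: the weighted statement
-/

namespace H167FK

open Finset Real

/-- Geometric sequences: truncated sum. -/
theorem sum_le_two (s : ℝ) (hs : 2 ≤ s) (t : ℕ → ℝ) (h0 : ∀ k, 0 ≤ t k)
    (h : ∀ k, s * t k ≤ t (k + 1)) (m : ℕ) : ∑ k ∈ range (m + 1), t k ≤ 2 * t m := by
  induction m with
  | zero => simp; linarith [h0 0]
  | succ m ih =>
    rw [Finset.sum_range_succ]
    have := h m
    have := h0 m
    nlinarith

theorem sum_min_le (s : ℝ) (hs : 2 ≤ s) (t : ℕ → ℝ) (h0 : ∀ k, 0 ≤ t k)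
    (h : ∀ k, s * t k ≤ t (k + 1)) (j : ℕ) :
    ∀ m : ℕ, t m ≤ s ^ j → ∑ k ∈ range (m + 1), min 1 (t k) ≤ j + 2 := by
  induction j with
  | zero =>
    intro m hm
    have h1 : ∑ k ∈ range (m + 1), min 1 (t k) ≤ ∑ k ∈ range (m + 1), t k :=
      Finset.sum_le_sum fun k _ => min_le_right _ _
    have h2 := sum_le_two s hs t h0 h m
    rw [pow_zero] at hm
    push_cast
    linarith
  | succ j ih =>
    intro m hm
    cases m with
    | zero =>
      rw [Finset.sum_range_succ, Finset.sum_range_zero, zero_add]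
      have h1 : min 1 (t 0) ≤ 1 := min_le_left _ _
      push_cast
      have : (0 : ℝ) ≤ j := Nat.cast_nonneg j
      linarith
    | succ m =>
      have h1 : t m ≤ s ^ j := by
        have h2 := h m
        have h3 : s * t m ≤ s * s ^ j := by
          calc s * t m ≤ t (m + 1) := h2
            _ ≤ s ^ (j + 1) := hm
            _ = s * s ^ j := by ring
        exact le_of_mul_le_mul_left h3 (by linarith)
      have h2 := ih m h1
      rw [Finset.sum_range_succ]
      have h3 : min 1 (t (m + 1)) ≤ 1 := min_le_left _ _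
      push_cast
      linarith

theorem sum_le_five (s : ℝ) (hs : 2 ≤ s) (t : ℕ → ℝ) (h0 : ∀ k, 0 ≤ t k)
    (h : ∀ k, s * t k ≤ t (k + 1)) (m : ℕ) :
    ∑ k ∈ range m, (if t k ≤ s ^ 3 then min 1 (t k) else 0) ≤ 5 := by
  induction m with
  | zero => simp
  | succ m ih =>
    by_cases hm : t m ≤ s ^ 3
    · have h1 : ∑ k ∈ range (m + 1), (if t k ≤ s ^ 3 then min 1 (t k) else 0)
          ≤ ∑ k ∈ range (m + 1), min 1 (t k) := by
        refine Finset.sum_le_sum fun k _ => ?_
        split_ifs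
        · exact le_rfl
        · exact le_min zero_le_one (h0 k)
      have h2 := sum_min_le s hs t h0 h 3 m hm
      have h3 : ((3 : ℕ) : ℝ) + 2 = 5 := by norm_num
      rw [h3] at h2
      exact h1.trans h2
    · rw [Finset.sum_range_succ, if_neg hm, add_zero]
      exact ih

section Blocks

variable {I : Type*} [Fintype I] {n : ℕ}

/-- Block `k` of the columns. -/
def B (n M k : ℕ) : Finset (Fin n) := Finset.univ.filter (fun j => Nat.log M j = k)

/-- Discounted mass of a row up to block `k`. -/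
noncomputable def r (a : I → Fin n → ℝ) (M σ : ℕ) (i : I) (k : ℕ) : ℝ :=
  ∑ j : Fin n, if Nat.log M j ≤ k then (σ : ℝ) ^ (k - Nat.log M j) * a i j ^ 2 else 0

theorem r_nonneg (a : I → Fin n → ℝ) (M σ : ℕ) (i : I) (k : ℕ) : 0 ≤ r a M σ i k := by
  refine Finset.sum_nonneg fun j _ => ?_
  split_ifs
  · positivity
  · exact le_rfl

theorem r_succ (a : I → Fin n → ℝ) (M σ : ℕ) (i : I) (k : ℕ) :
    σ * r a M σ i k ≤ r a M σ i (k + 1) := by
  unfold r
  rw [Finset.mul_sum]
  refine Finset.sum_le_sum fun j _ => ?_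
  by_cases h : Nat.log M j ≤ k
  · have h2 : Nat.log M j ≤ k + 1 := by omega
    rw [if_pos h, if_pos h2]
    have h3 : k + 1 - Nat.log M j = (k - Nat.log M j) + 1 := by omega
    rw [h3, pow_succ]
    apply le_of_eq; ring
  · rw [if_neg h, mul_zero]
    split_ifs
    · positivity
    · exact le_rfl

theorem block_le_r (a : I → Fin n → ℝ) (M σ : ℕ) (i : I) (k : ℕ) :
    ∑ j ∈ B n M k, a i j ^ 2 ≤ r a M σ i k := by
  unfold r B
  rw [Finset.sum_filter]
  refine Finset.sum_le_sum fun j _ => ?_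
  by_cases h : Nat.log M j = k
  · rw [if_pos h, if_pos h.le, h]
    simp
  · rw [if_neg h]
    split_ifs
    · positivity
    · exact le_rfl

theorem card_B_le (M k : ℕ) (hM : 2 ≤ M) : (B n M k).card ≤ M ^ (k + 1) := by
  have h1 : (B n M k).map Fin.valEmbedding ⊆ Finset.range (M ^ (k + 1)) := by
    intro j hj
    rw [Finset.mem_map] at hj
    obtain ⟨j', hj', rfl⟩ := hj
    unfold B at hj'
    rw [Finset.mem_filter] at hj'
    rw [Finset.mem_range, ← hj'.2]
    exact Nat.lt_pow_succ_log_self (by omega) _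
  have := Finset.card_le_card h1
  rwa [Finset.card_map, Finset.card_range] at this

/-- Discounted number of columns up to block `k`. -/
theorem count_le (n M σ : ℕ) (hM : 2 ≤ M) (hσ : 2 * σ ≤ M) (k : ℕ) :
    ∑ j : Fin n, (if Nat.log M j ≤ k then (σ : ℝ) ^ (k - Nat.log M j) else 0)
      ≤ 2 * (M : ℝ) ^ (k + 1) := by
  have hB : ∀ k, ((B n M k).card : ℝ) ≤ (M : ℝ) ^ (k + 1) := by
    intro k
    exact_mod_cast card_B_le (n := n) M k hM
  have hM0 : (0 : ℝ) ≤ M := Nat.cast_nonneg M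
  have hσ' : 2 * (σ : ℝ) ≤ M := by exact_mod_cast hσ
  induction k with
  | zero =>
    have h1 : ∑ j : Fin n, (if Nat.log M j ≤ 0 then (σ : ℝ) ^ (0 - Nat.log M j) else 0)
        = ((B n M 0).card : ℝ) := by
      unfold B
      rw [Finset.card_filter]
      push_cast
      refine Finset.sum_congr rfl fun j _ => ?_
      by_cases h : Nat.log M j = 0
      · rw [if_pos h.le, if_pos h, h]; simp
      · rw [if_neg h, if_neg (by omega)]
    rw [h1]
    have := hB 0
    have h2 : (0 : ℝ) ≤ (M : ℝ) ^ (0 + 1) := by positivity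
    linarith
  | succ k ih =>
    have h1 : ∑ j : Fin n, (if Nat.log M j ≤ k + 1 then (σ : ℝ) ^ (k + 1 - Nat.log M j) else 0)
        = σ * ∑ j : Fin n, (if Nat.log M j ≤ k then (σ : ℝ) ^ (k - Nat.log M j) else 0)
          + ((B n M (k + 1)).card : ℝ) := by
      unfold B
      rw [Finset.card_filter]
      push_cast
      rw [Finset.mul_sum, ← Finset.sum_add_distrib]
      refine Finset.sum_congr rfl fun j _ => ?_
      rcases lt_trichotomy (Nat.log M j) (k + 1) with h | h | h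
      · have h3 : k + 1 - Nat.log M j = (k - Nat.log M j) + 1 := by omega
        rw [if_pos h.le, if_pos (by omega), if_neg (by omega), h3, pow_succ]
        ring
      · rw [if_pos h.le, if_neg (by omega), if_pos h, h]; simp
      · rw [if_neg (by omega), if_neg (by omega), if_neg (by omega)]; simp
    rw [h1]
    have h2 := hB (k + 1)
    have h3 : (σ : ℝ) * ∑ j : Fin n, (if Nat.log M j ≤ k then (σ : ℝ) ^ (k - Nat.log M j) else 0)
        ≤ σ * (2 * (M : ℝ) ^ (k + 1)) := mul_le_mul_of_nonneg_left ih (Nat.cast_nonneg σ)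
    have h4 : (0 : ℝ) ≤ (M : ℝ) ^ (k + 1) := by positivity
    have h5 : (M : ℝ) ^ (k + 1 + 1) = M * (M : ℝ) ^ (k + 1) := by ring
    rw [h5] at h2 ⊢
    nlinarith

theorem sum_r_le (a : I → Fin n → ℝ) (hcol : ∀ j, ∑ i, a i j ^ 2 ≤ 1) (M σ : ℕ) (hM : 2 ≤ M)
    (hσ : 2 * σ ≤ M) (k : ℕ) : ∑ i, r a M σ i k ≤ 2 * (M : ℝ) ^ (k + 1) := by
  unfold r
  rw [Finset.sum_comm]
  refine le_trans (Finset.sum_le_sum fun j _ => ?_) (count_le n M σ hM hσ k)
  by_cases h : Nat.log M j ≤ k
  · simp only [h, if_true]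
    rw [← Finset.mul_sum]
    calc (σ : ℝ) ^ (k - Nat.log M j) * ∑ i, a i j ^ 2 ≤ (σ : ℝ) ^ (k - Nat.log M j) * 1 :=
          mul_le_mul_of_nonneg_left (hcol j) (by positivity)
      _ = _ := mul_one _
  · simp [h]

/-- The fourth root of `r`. -/
noncomputable def rt (a : I → Fin n → ℝ) (M σ : ℕ) (i : I) (k : ℕ) : ℝ :=
  Real.sqrt (Real.sqrt (r a M σ i k))

theorem rt_nonneg (a : I → Fin n → ℝ) (M σ : ℕ) (i : I) (k : ℕ) : 0 ≤ rt a M σ i k :=
  Real.sqrt_nonneg _

theorem rt_pow (a : I → Fin n → ℝ) (M σ : ℕ) (i : I) (k : ℕ) :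
    rt a M σ i k ^ 4 = r a M σ i k := by
  unfold rt
  have h1 : Real.sqrt (Real.sqrt (r a M σ i k)) ^ 2 = Real.sqrt (r a M σ i k) :=
    Real.sq_sqrt (Real.sqrt_nonneg _)
  have h2 : Real.sqrt (r a M σ i k) ^ 2 = r a M σ i k := Real.sq_sqrt (r_nonneg a M σ i k)
  calc Real.sqrt (Real.sqrt (r a M σ i k)) ^ 4
      = (Real.sqrt (Real.sqrt (r a M σ i k)) ^ 2) ^ 2 := by ring
    _ = r a M σ i k := by rw [h1, h2]

theorem rt_succ (a : I → Fin n → ℝ) (M s : ℕ) (i : I) (k : ℕ) :
    s * rt a M (s ^ 4) i k ≤ rt a M (s ^ 4) i (k + 1) := by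
  have h1 := r_succ a M (s ^ 4) i k
  rw [← rt_pow, ← rt_pow] at h1
  have h2 : (s * rt a M (s ^ 4) i k) ^ 4 ≤ rt a M (s ^ 4) i (k + 1) ^ 4 := by
    refine le_trans (le_of_eq ?_) h1
    push_cast
    ring
  exact le_of_pow_le_pow_left₀ (by norm_num) (rt_nonneg _ _ _ _ _) h2

/-- One block. -/
theorem block_k (a : I → Fin n → ℝ) (hcol : ∀ j, ∑ i, a i j ^ 2 ≤ 1) (s : ℕ) (hs : 2 ≤ s)
    (lam : ℝ) (hlam : 0 < lam) (hlam2 : 2 ≤ 80 * lam ^ 2) (ε : ℝ)
    (h1 : 16 ≤ ε * s) (h2 : 48 * (s : ℝ) ^ 8 * exp (-(80 * lam ^ 2)) ≤ ε) (k : ℕ) :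
    ∃ x : Fin n → ℝ, (∀ j, |x j| ≤ 1) ∧
      (∀ i, |∑ j ∈ B n (s ^ 8) k, a i j * x j| ≤ 800 * lam *
        (if rt a (s ^ 8) (s ^ 4) i k ≤ (s : ℝ) ^ 3 then min 1 (rt a (s ^ 8) (s ^ 4) i k) else 0)) ∧
      (((B n (s ^ 8) k).filter (fun j => |x j| < 1)).card : ℝ)
        ≤ ((s ^ 8 : ℕ) : ℝ) ^ k * (ε / 2) := by
  classical
  set M : ℕ := s ^ 8 with hM
  set σ : ℕ := s ^ 4 with hσdef
  have hs4 : 2 ≤ s ^ 4 := by
    calc 2 ≤ s := hs
      _ ≤ s ^ 4 := Nat.le_self_pow (by norm_num) s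
  have hM2σ : 2 * σ ≤ M := by
    have : s ^ 8 = s ^ 4 * s ^ 4 := by ring
    rw [hM, this, hσdef]
    exact Nat.mul_le_mul_right _ hs4
  have hM2 : 2 ≤ M := by omega
  have hMR : (M : ℝ) = (s : ℝ) ^ 8 := by rw [hM]; push_cast; ring
  have hsR : (2 : ℝ) ≤ s := by exact_mod_cast hs
  set t : I → ℝ := fun i => rt a M σ i k with ht
  have ht0 : ∀ i, 0 ≤ t i := fun i => rt_nonneg _ _ _ _ _
  have ht4 : ∀ i, t i ^ 4 = r a M σ i k := fun i => rt_pow _ _ _ _ _
  -- masses on the block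
  have hmass : ∀ i, ∑ j : B n M k, a i j ^ 2 ≤ t i ^ 4 := by
    intro i
    rw [ht4, Finset.sum_coe_sort (B n M k) (fun j => a i j ^ 2)]
    exact block_le_r a M σ i k
  let P : Sys I (B n M k) :=
    { a := fun i j => a i j
      I0 := Finset.univ.filter (fun i => (s : ℝ) ^ 3 < t i)
      I1 := Finset.univ.filter (fun i => 0 < t i ∧ t i ≤ (s : ℝ) ^ 3)
      τ := fun i => min 1 (t i)
      lam := lam
      lam_pos := hlam
      lam_big := hlam2
      col := fun j => hcol j
      τ_pos := by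
        intro i hi
        rw [Finset.mem_filter] at hi
        exact lt_min zero_lt_one hi.2.1
      τ_le := fun i _ => min_le_left _ _
      τ_mass := by
        intro i _
        rcases le_total 1 (t i) with h | h
        · left; exact min_eq_left h
        · right
          rw [min_eq_right h]
          exact hmass i }
  obtain ⟨x, hx1, hx0, hxI1, hxal⟩ := P.block
  let X : Fin n → ℝ := fun j => if h : j ∈ B n M k then x ⟨j, h⟩ else 1
  have hXsum : ∀ i, ∑ j ∈ B n M k, a i j * X j = ∑ j : B n M k, a i j * x j := by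
    intro i
    rw [← Finset.sum_coe_sort (B n M k) (fun j => a i j * X j)]
    refine Finset.sum_congr rfl fun j _ => ?_
    simp [X, j.2]
  refine ⟨X, ?_, ?_, ?_⟩
  · intro j
    by_cases h : j ∈ B n M k
    · simp only [X, h, dif_pos]; exact hx1 _
    · simp [X, h]
  · intro i
    rw [hXsum]
    by_cases h : t i ≤ (s : ℝ) ^ 3
    · rw [if_pos h]
      rcases (ht0 i).lt_or_eq with hpos | hzero
      · exact hxI1 i (Finset.mem_filter.mpr ⟨Finset.mem_univ i, hpos, h⟩)
      · -- zero row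
        have hz : ∀ j : B n M k, a i j = 0 := by
          intro j
          have h3 := hmass i
          rw [← hzero] at h3
          have h4 := Finset.single_le_sum (f := fun j : B n M k => a i j ^ 2)
            (fun j _ => sq_nonneg _) (Finset.mem_univ j)
          have h5 : a i j ^ 2 ≤ 0 := by
            refine h4.trans (h3.trans ?_)
            norm_num
          have h6 := sq_nonneg (a i j)
          exact pow_eq_zero_iff (two_ne_zero) |>.mp (le_antisymm h5 h6)
        have h7 : ∑ j : B n M k, a i j * x j = 0 :=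
          Finset.sum_eq_zero fun j _ => by rw [hz j, zero_mul]
        rw [h7, abs_zero]
        have h8 : 0 ≤ min 1 (rt a M σ i k) := le_min zero_le_one (ht0 i)
        positivity
    · rw [if_neg h]
      push Not at h
      have h7 : ∑ j : B n M k, a i j * x j = 0 :=
        hx0 i (Finset.mem_filter.mpr ⟨Finset.mem_univ i, h⟩)
      rw [h7]; simp
  · -- counting
    have hcard : ((B n M k).filter (fun j => |X j| < 1)).card = (Sys.alive x).card := by
      rw [← Finset.card_map (Function.Embedding.subtype (fun j => j ∈ B n M k))]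
      congr 1
      ext j
      simp only [Finset.mem_filter, Finset.mem_map, Sys.alive, Finset.mem_univ, true_and,
        Function.Embedding.coe_subtype]
      constructor
      · rintro ⟨hj, hj2⟩
        refine ⟨⟨j, hj⟩, ?_, rfl⟩
        simpa [X, hj] using hj2
      · rintro ⟨⟨j', hj'⟩, hj2, rfl⟩
        refine ⟨hj', ?_⟩
        simpa [X, hj'] using hj2
    rw [hcard]
    refine hxal.trans ?_
    have hrsum := sum_r_le a hcol M σ hM2 hM2σ k
    have hcardB : ((Fintype.card (B n M k) : ℕ) : ℝ) ≤ (M : ℝ) ^ (k + 1) := by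
      rw [Fintype.card_coe]
      exact_mod_cast card_B_le (n := n) M k hM2
    have hI0 : (P.I0.card : ℝ) * (s : ℝ) ^ 12 ≤ 2 * (M : ℝ) ^ (k + 1) := by
      have h3 := Finset.card_nsmul_le_sum P.I0 (fun i => r a M σ i k) ((s : ℝ) ^ 12) (by
        intro i hi
        have hi' := (Finset.mem_filter.mp hi).2
        rw [← ht4]
        calc (s : ℝ) ^ 12 = ((s : ℝ) ^ 3) ^ 4 := by ring
          _ ≤ t i ^ 4 := by gcongr)
      rw [nsmul_eq_mul] at h3
      refine h3.trans (le_trans ?_ hrsum)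
      exact Finset.sum_le_sum_of_subset_of_nonneg (Finset.subset_univ _)
        (fun i _ _ => r_nonneg _ _ _ _ _)
    have hτ : ∑ i ∈ P.I1, P.τ i ^ 4 ≤ 2 * (M : ℝ) ^ (k + 1) := by
      refine le_trans ?_ hrsum
      refine le_trans (Finset.sum_le_sum fun i _ => ?_)
        (Finset.sum_le_sum_of_subset_of_nonneg (Finset.subset_univ P.I1)
        (fun i _ _ => r_nonneg _ _ _ _ _))
      rw [← ht4]
      have h3 : P.τ i ≤ t i := min_le_right _ _
      have h4 : 0 ≤ P.τ i := le_min zero_le_one (ht0 i)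
      gcongr
    have hMk : (0 : ℝ) < (M : ℝ) ^ k := by
      have : (0 : ℝ) < M := by exact_mod_cast (by omega : 0 < M)
      positivity
    have hMk1 : (M : ℝ) ^ (k + 1) = (M : ℝ) ^ k * (s : ℝ) ^ 8 := by rw [pow_succ, hMR]
    rw [hMk1] at hI0 hτ hcardB
    have hs0 : (0 : ℝ) < s := by linarith
    -- number of frozen rows
    have hI0' : (P.I0.card : ℝ) ≤ (M : ℝ) ^ k * (ε / 8) := by
      have h3 : (P.I0.card : ℝ) * (s : ℝ) ^ 12 ≤ ((M : ℝ) ^ k * (ε / 8)) * (s : ℝ) ^ 12 := by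
        refine hI0.trans ?_
        have h4 : 16 ≤ ε * (s : ℝ) ^ 4 := by
          calc 16 ≤ ε * s := h1
            _ ≤ ε * (s : ℝ) ^ 4 := by
              have hε : 0 < ε := by
                by_contra hcon
                push Not at hcon
                nlinarith
              apply mul_le_mul_of_nonneg_left _ hε.le
              calc (s : ℝ) = (s : ℝ) ^ 1 := (pow_one _).symm
                _ ≤ (s : ℝ) ^ 4 := pow_le_pow_right₀ (by linarith) (by norm_num)
        have h5 : 0 < (M : ℝ) ^ k * (s : ℝ) ^ 8 := by positivity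
        calc 2 * ((M : ℝ) ^ k * (s : ℝ) ^ 8) = ((M : ℝ) ^ k * (s : ℝ) ^ 8) * (16 / 8) := by ring
          _ ≤ ((M : ℝ) ^ k * (s : ℝ) ^ 8) * ((ε * (s : ℝ) ^ 4) / 8) := by
              apply mul_le_mul_of_nonneg_left _ h5.le
              linarith
          _ = _ := by ring
      exact le_of_mul_le_mul_right h3 (by positivity)
    have hexp : 0 < exp (-(80 * lam ^ 2)) := exp_pos _
    have hlast : 4 * exp (-(80 * P.lam ^ 2)) * (∑ i ∈ P.I1, P.τ i ^ 4 + Fintype.card (B n M k))
        ≤ (M : ℝ) ^ k * (ε / 4) := by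
      have h3 : ∑ i ∈ P.I1, P.τ i ^ 4 + Fintype.card (B n M k)
          ≤ 3 * ((M : ℝ) ^ k * (s : ℝ) ^ 8) := by linarith
      calc 4 * exp (-(80 * P.lam ^ 2)) * (∑ i ∈ P.I1, P.τ i ^ 4 + Fintype.card (B n M k))
          ≤ 4 * exp (-(80 * lam ^ 2)) * (3 * ((M : ℝ) ^ k * (s : ℝ) ^ 8)) :=
            mul_le_mul_of_nonneg_left h3 (by positivity)
        _ = (M : ℝ) ^ k * ((48 * (s : ℝ) ^ 8 * exp (-(80 * lam ^ 2))) / 4) := by ring
        _ ≤ (M : ℝ) ^ k * (ε / 4) := by
            apply mul_le_mul_of_nonneg_left _ hMk.le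
            linarith
    linarith

end Blocks

end H167FK
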