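import Mathlib

/-!
# Linear algebra for the fractional Komlós theorem

* `exists_small_dir`: in a subspace `V` of `ℝ^J` there is a `D`-unit vector on which a sum of
  squares of linear functionals is at most its `D`-trace divided by `dim V`.
* `finrank_lower`: a subspace of vectors supported on `A` killed by few functionals is large.
-/

namespace H167FK

open Finset

variable {J : Type*} [Fintype J]

/-- A sum of squares of functionals is on average small on a subspace (Bessel's inequality). -/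
theorem exists_small_dir_unit {L : Type*} (S : Finset L) (V : Submodule ℝ (EuclideanSpace ℝ J))
    (hV : 0 < Module.finrank ℝ V) (g : L → EuclideanSpace ℝ J) :
    ∃ u ∈ V, ‖u‖ = 1 ∧
      (Module.finrank ℝ V : ℝ) * ∑ l ∈ S, (inner ℝ (g l) u) ^ 2 ≤ ∑ l ∈ S, ‖g l‖ ^ 2 := by
  classical
  let b := stdOrthonormalBasis ℝ V
  have hne : (Finset.univ : Finset (Fin (Module.finrank ℝ V))).Nonempty :=
    ⟨⟨0, hV⟩, Finset.mem_univ _⟩
  obtain ⟨k0, -, hmin⟩ := Finset.exists_min_image (Finset.univ : Finset (Fin (Module.finrank ℝ V)))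
    (fun k => ∑ l ∈ S, (inner ℝ (g l) ((b k : V) : EuclideanSpace ℝ J)) ^ 2) hne
  refine ⟨(b k0 : V), (b k0).2, ?_, ?_⟩
  · exact b.orthonormal.1 k0
  · have h1 : (Module.finrank ℝ V : ℝ) * ∑ l ∈ S, (inner ℝ (g l) ((b k0 : V) : EuclideanSpace ℝ J)) ^ 2
        ≤ ∑ k : Fin (Module.finrank ℝ V),
            ∑ l ∈ S, (inner ℝ (g l) ((b k : V) : EuclideanSpace ℝ J)) ^ 2 := by
      have h2 := Finset.card_nsmul_le_sum (Finset.univ : Finset (Fin (Module.finrank ℝ V)))
        (fun k => ∑ l ∈ S, (inner ℝ (g l) ((b k : V) : EuclideanSpace ℝ J)) ^ 2)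
        (∑ l ∈ S, (inner ℝ (g l) ((b k0 : V) : EuclideanSpace ℝ J)) ^ 2)
        (fun k _ => hmin k (Finset.mem_univ k))
      simpa using h2
    refine h1.trans ?_
    rw [Finset.sum_comm]
    refine Finset.sum_le_sum fun l _ => ?_
    have horth : Orthonormal ℝ (fun k => ((b k : V) : EuclideanSpace ℝ J)) :=
      b.orthonormal.comp_linearIsometry V.subtypeₗᵢ
    have h3 := horth.sum_inner_products_le (g l) (s := Finset.univ)
    refine le_trans (le_of_eq ?_) h3
    refine Finset.sum_congr rfl fun k _ => ?_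
    rw [real_inner_comm, Real.norm_eq_abs, sq_abs]

/-- Weighted version of `exists_small_dir_unit` in coordinates. -/
theorem exists_small_dir {L : Type*} (S : Finset L) (V : Submodule ℝ (J → ℝ))
    (hV : 0 < Module.finrank ℝ V) (D : J → ℝ) (hD : ∀ j, 0 < D j) (g : L → J → ℝ) :
    ∃ u ∈ V, ∑ j, D j * u j ^ 2 = 1 ∧
      (Module.finrank ℝ V : ℝ) * ∑ l ∈ S, (∑ j, g l j * u j) ^ 2
        ≤ ∑ l ∈ S, ∑ j, g l j ^ 2 / D j := by
  classical
  -- the linear equivalence `u ↦ (√D_j u_j)_j`
  let e : (J → ℝ) ≃ₗ[ℝ] EuclideanSpace ℝ J :=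
    (LinearEquiv.piCongrRight (fun j =>
      LinearEquiv.smulOfNeZero ℝ ℝ (Real.sqrt (D j)) (Real.sqrt_ne_zero'.mpr (hD j)))).trans
      (WithLp.linearEquiv 2 ℝ (J → ℝ)).symm
  have he : ∀ u j, e u j = Real.sqrt (D j) * u j := by
    intro u j
    simp [e]
  let V' : Submodule ℝ (EuclideanSpace ℝ J) := V.map e.toLinearMap
  have hfin : Module.finrank ℝ V' = Module.finrank ℝ V := by
    exact LinearEquiv.finrank_map_eq e V
  obtain ⟨v, hvV, hv1, hv2⟩ := exists_small_dir_unit S V' (by rw [hfin]; exact hV)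
    (fun l => WithLp.toLp 2 (fun j => g l j / Real.sqrt (D j)))
  obtain ⟨u, huV, rfl⟩ := hvV
  refine ⟨u, huV, ?_, ?_⟩
  · have h1 : ‖e u‖ ^ 2 = 1 := by
      have : ‖e u‖ = 1 := hv1
      rw [this]; norm_num
    rw [EuclideanSpace.norm_sq_eq] at h1
    rw [← h1]
    refine Finset.sum_congr rfl fun j _ => ?_
    rw [he, Real.norm_eq_abs, sq_abs, mul_pow, Real.sq_sqrt (hD j).le]
  · rw [hfin] at hv2
    have h2 : ∀ l, inner ℝ (WithLp.toLp 2 (fun j => g l j / Real.sqrt (D j)) : EuclideanSpace ℝ J)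
        (e.toLinearMap u) = ∑ j, g l j * u j := by
      intro l
      rw [PiLp.inner_apply]
      refine Finset.sum_congr rfl fun j _ => ?_
      have hs : Real.sqrt (D j) ≠ 0 := Real.sqrt_ne_zero'.mpr (hD j)
      have : (e.toLinearMap u) j = Real.sqrt (D j) * u j := he u j
      rw [this]
      simp only [RCLike.inner_apply, conj_trivial]
      field_simp
    have h3 : ∀ l, ‖(WithLp.toLp 2 (fun j => g l j / Real.sqrt (D j)) : EuclideanSpace ℝ J)‖ ^ 2
        = ∑ j, g l j ^ 2 / D j := by
      intro l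
      rw [EuclideanSpace.norm_sq_eq]
      refine Finset.sum_congr rfl fun j _ => ?_
      rw [Real.norm_eq_abs, sq_abs]
      simp only []
      rw [div_pow, Real.sq_sqrt (hD j).le]
    simp only [h2, h3] at hv2
    exact hv2

/-- The subspace of vectors supported on `A` and killed by the functionals `c k`, `k ∈ K`, has
dimension at least `|A| - |K|`. -/
theorem finrank_lower {ι : Type*} (A : Finset J) (K : Finset ι)
    (c : ι → (J → ℝ) →ₗ[ℝ] ℝ) :
    ∃ V : Submodule ℝ (J → ℝ), (∀ u ∈ V, (∀ j ∉ A, u j = 0) ∧ ∀ k ∈ K, c k u = 0) ∧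
      A.card ≤ Module.finrank ℝ V + K.card := by
  classical
  let ext : (A → ℝ) →ₗ[ℝ] (J → ℝ) :=
    { toFun := fun z v => if h : v ∈ A then z ⟨v, h⟩ else 0
      map_add' := by
        intro z1 z2
        funext v
        by_cases h : v ∈ A <;> simp [h]
      map_smul' := by
        intro r z
        funext v
        by_cases h : v ∈ A <;> simp [h] }
  have hext : Function.Injective ext := by
    intro z1 z2 h
    funext ⟨v, hv⟩
    have := congrFun h v
    simpa [ext, hv] using this
  let f : (A → ℝ) →ₗ[ℝ] (K → ℝ) := LinearMap.pi (fun k => (c k).comp ext)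
  refine ⟨(LinearMap.ker f).map ext, ?_, ?_⟩
  · rintro u ⟨z, hz, rfl⟩
    refine ⟨fun j hj => by simp [ext, hj], fun k hk => ?_⟩
    have : f z = 0 := hz
    have := congrFun this ⟨k, hk⟩
    simpa [f] using this
  · have h1 : Module.finrank ℝ ((LinearMap.ker f).map ext) = Module.finrank ℝ (LinearMap.ker f) :=
      (Submodule.equivMapOfInjective ext hext (LinearMap.ker f)).finrank_eq.symm
    have h2 := LinearMap.finrank_range_add_finrank_ker f
    have h3 : Module.finrank ℝ (LinearMap.range f) ≤ K.card := by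
      have := Submodule.finrank_le (LinearMap.range f)
      simpa using this
    have h4 : Module.finrank ℝ (A → ℝ) = A.card := by simp
    rw [h1]
    omega

end H167FK
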