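import Mathlib

/-!
# A finite minimax lemma

If a nonempty finite family of points of `[0,∞)^n`-like vectors has the property that for every
nonnegative weight vector `p` some member `z` has `⟨p, z⟩ ≤ ε ∑ p`, then some convex combination
of the family is coordinatewise at most `ε`.
-/

namespace H167FK

open Finset

theorem minimax {n : ℕ} (Z : Finset (Fin n → ℝ)) (ε : ℝ)
    (h : ∀ p : Fin n → ℝ, (∀ j, 0 ≤ p j) → ∃ z ∈ Z, ∑ j, p j * z j ≤ ε * ∑ j, p j) :
    ∃ w : (Fin n → ℝ) → ℝ, (∀ z ∈ Z, 0 ≤ w z) ∧ ∑ z ∈ Z, w z = 1 ∧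
      ∀ j, ∑ z ∈ Z, w z * z j ≤ ε := by
  classical
  let S : Set (Fin n → ℝ) := convexHull ℝ (Z : Set (Fin n → ℝ))
  let T : Set (Fin n → ℝ) := {y | ∀ j, y j ≤ ε}
  by_contra hcon
  have hdisj : Disjoint S T := by
    rw [Set.disjoint_left]
    intro y hyS hyT
    apply hcon
    obtain ⟨w, hw0, hw1, hw2⟩ := Finset.mem_convexHull'.mp hyS
    refine ⟨w, hw0, hw1, fun j => ?_⟩
    have h1 : ∑ z ∈ Z, w z * z j = y j := by
      rw [← hw2]
      simp [Finset.sum_apply]
    rw [h1]
    exact hyT j
  have hSconv : Convex ℝ S := convex_convexHull ℝ _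
  have hScomp : IsCompact S := Z.finite_toSet.isCompact_convexHull ℝ
  have hTconv : Convex ℝ T := by
    intro x hx y hy a b ha hb hab j
    have h1 := hx j
    have h2 := hy j
    simp only [Pi.add_apply, Pi.smul_apply, smul_eq_mul]
    calc a * x j + b * y j ≤ a * ε + b * ε := by gcongr
      _ = ε := by rw [← add_mul, hab, one_mul]
  have hTclosed : IsClosed T := by
    have : T = ⋂ j, {y : Fin n → ℝ | y j ≤ ε} := by
      ext y; simp [T]
    rw [this]
    exact isClosed_iInter fun j => isClosed_le (continuous_apply j) continuous_const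
  obtain ⟨f, u, v, hu, huv, hv⟩ := geometric_hahn_banach_compact_closed hSconv hScomp hTconv
    hTclosed hdisj
  -- coefficients of f
  set q : Fin n → ℝ := fun j => f (Pi.single j 1) with hq
  have hfq : ∀ y : Fin n → ℝ, f y = ∑ j, q j * y j := by
    intro y
    have h1 : y = ∑ j, y j • (Pi.single j (1 : ℝ) : Fin n → ℝ) := by
      ext i
      simp [Finset.sum_apply, Pi.single_apply]
    conv_lhs => rw [h1]
    rw [map_sum]
    refine Finset.sum_congr rfl fun j _ => ?_
    rw [map_smul, smul_eq_mul, mul_comm]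
  have hqneg : ∀ j, q j ≤ 0 := by
    intro j
    by_contra hj
    push Not at hj
    -- go to minus infinity in direction j
    set y : Fin n → ℝ := fun i => ε - (if i = j then ((ε * ∑ i, q i - v) / q j) ⊔ 0 else 0) with hy
    have hyT : y ∈ T := by
      intro i
      simp only [hy]
      split_ifs
      · have : (0 : ℝ) ≤ ((ε * ∑ i, q i - v) / q j) ⊔ 0 := le_max_right _ _
        linarith
      · linarith
    have h1 := hv y hyT
    rw [hfq] at h1
    have h2 : ∑ i, q i * y i = ε * ∑ i, q i - q j * (((ε * ∑ i, q i - v) / q j) ⊔ 0) := by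
      simp only [hy, mul_sub, Finset.sum_sub_distrib, mul_ite, mul_zero, Finset.sum_ite_eq',
        Finset.mem_univ, if_true]
      rw [← Finset.sum_mul]; ring
    rw [h2] at h1
    have h3 : (ε * ∑ i, q i - v) ≤ q j * (((ε * ∑ i, q i - v) / q j) ⊔ 0) := by
      have h4 : (ε * ∑ i, q i - v) / q j ≤ ((ε * ∑ i, q i - v) / q j) ⊔ 0 := le_max_left _ _
      calc (ε * ∑ i, q i - v) = q j * ((ε * ∑ i, q i - v) / q j) := by field_simp
        _ ≤ _ := mul_le_mul_of_nonneg_left h4 hj.le
    linarith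
  obtain ⟨z, hz, hz2⟩ := h (fun j => -q j) (fun j => by linarith [hqneg j])
  have h1 := hu z (subset_convexHull ℝ _ hz)
  have h2 := hv (fun _ => ε) (fun j => le_rfl)
  rw [hfq] at h1 h2
  have h3 : ∑ j, q j * ε = ε * ∑ j, q j := by rw [← Finset.sum_mul]; ring
  have h4 : ∑ j, -q j * z j = -∑ j, q j * z j := by
    rw [← Finset.sum_neg_distrib]
    exact Finset.sum_congr rfl fun j _ => by ring
  have h5 : ∑ j, -q j = -∑ j, q j := by rw [Finset.sum_neg_distrib]
  rw [h4, h5] at hz2
  rw [h3] at h2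
  linarith

end H167FK
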