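import Pool.Agent.H167R2.FKPert

/-!
# Moving along a good direction decreases the objective
-/

namespace H167FK

open Finset Real Filter Topology

variable {I J : Type*} [Fintype I] [Fintype J]

namespace Sys

variable (P : Sys I J)

theorem f_avg (R : Finset I) (η : ℝ) (y u : J → ℝ) (t : ℝ) :
    (P.f R η (fun j => y j + t * u j) + P.f R η (fun j => y j - t * u j)) / 2
      ≤ ∑ i ∈ R, (P.c i * P.φ i y) * exp (t ^ 2 *
          (P.l i ^ 2 * (∑ j, P.s i j * u j) ^ 2
          + 64 * P.l i ^ 4 * (∑ j, P.s i j ^ 2 * y j * u j) ^ 2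
          - 4 * P.l i ^ 2 * ∑ j, P.s i j ^ 2 * u j ^ 2))
        + η * ∑ j, (1 - y j ^ 2) - η * (∑ j, u j ^ 2) * t ^ 2 := by
  have hrow : ∀ i, (P.φ i (fun j => y j + t * u j) + P.φ i (fun j => y j - t * u j)) / 2
      ≤ P.φ i y * exp (t ^ 2 *
          (P.l i ^ 2 * (∑ j, P.s i j * u j) ^ 2
          + 64 * P.l i ^ 4 * (∑ j, P.s i j ^ 2 * y j * u j) ^ 2
          - 4 * P.l i ^ 2 * ∑ j, P.s i j ^ 2 * u j ^ 2)) := by
    intro i
    have h := row_avg (P.l i) t (∑ j, P.s i j * y j) (∑ j, P.s i j * u j)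
      (∑ j, P.s i j ^ 2 * (1 - y j ^ 2)) (∑ j, P.s i j ^ 2 * y j * u j)
      (∑ j, P.s i j ^ 2 * u j ^ 2)
    have e1 : ∑ j, P.s i j * (y j + t * u j)
        = ∑ j, P.s i j * y j + t * ∑ j, P.s i j * u j := by
      rw [Finset.mul_sum, ← Finset.sum_add_distrib]
      exact Finset.sum_congr rfl fun j _ => by ring
    have e2 : ∑ j, P.s i j * (y j - t * u j)
        = ∑ j, P.s i j * y j - t * ∑ j, P.s i j * u j := by
      rw [Finset.mul_sum, ← Finset.sum_sub_distrib]
      exact Finset.sum_congr rfl fun j _ => by ring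
    have e3 : ∑ j, P.s i j ^ 2 * (1 - (y j + t * u j) ^ 2)
        = ∑ j, P.s i j ^ 2 * (1 - y j ^ 2) - 2 * t * (∑ j, P.s i j ^ 2 * y j * u j)
          - t ^ 2 * ∑ j, P.s i j ^ 2 * u j ^ 2 := by
      rw [Finset.mul_sum, Finset.mul_sum, ← Finset.sum_sub_distrib, ← Finset.sum_sub_distrib]
      exact Finset.sum_congr rfl fun j _ => by ring
    have e4 : ∑ j, P.s i j ^ 2 * (1 - (y j - t * u j) ^ 2)
        = ∑ j, P.s i j ^ 2 * (1 - y j ^ 2) + 2 * t * (∑ j, P.s i j ^ 2 * y j * u j)
          - t ^ 2 * ∑ j, P.s i j ^ 2 * u j ^ 2 := by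
      rw [Finset.mul_sum, Finset.mul_sum, ← Finset.sum_add_distrib, ← Finset.sum_sub_distrib]
      exact Finset.sum_congr rfl fun j _ => by ring
    unfold φ
    rw [e1, e2, e3, e4]
    exact h
  have hlast : ((∑ j, (1 - (y j + t * u j) ^ 2)) + ∑ j, (1 - (y j - t * u j) ^ 2)) / 2
      = ∑ j, (1 - y j ^ 2) - (∑ j, u j ^ 2) * t ^ 2 := by
    rw [← Finset.sum_add_distrib, Finset.sum_div, Finset.sum_mul, ← Finset.sum_sub_distrib]
    exact Finset.sum_congr rfl fun j _ => by ring
  have hsum : ∑ i ∈ R, P.c i * ((P.φ i (fun j => y j + t * u j)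
      + P.φ i (fun j => y j - t * u j)) / 2) ≤ ∑ i ∈ R, (P.c i * P.φ i y) * exp (t ^ 2 *
          (P.l i ^ 2 * (∑ j, P.s i j * u j) ^ 2
          + 64 * P.l i ^ 4 * (∑ j, P.s i j ^ 2 * y j * u j) ^ 2
          - 4 * P.l i ^ 2 * ∑ j, P.s i j ^ 2 * u j ^ 2)) := by
    refine Finset.sum_le_sum fun i _ => ?_
    rw [mul_assoc]
    exact mul_le_mul_of_nonneg_left (hrow i) (P.c_pos i).le
  have e5 : (P.f R η (fun j => y j + t * u j) + P.f R η (fun j => y j - t * u j)) / 2
      = ∑ i ∈ R, P.c i * ((P.φ i (fun j => y j + t * u j)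
      + P.φ i (fun j => y j - t * u j)) / 2)
        + η * (((∑ j, (1 - (y j + t * u j) ^ 2)) + ∑ j, (1 - (y j - t * u j) ^ 2)) / 2) := by
    unfold f
    have : ∑ i ∈ R, P.c i * ((P.φ i (fun j => y j + t * u j)
      + P.φ i (fun j => y j - t * u j)) / 2)
      = (∑ i ∈ R, P.c i * P.φ i (fun j => y j + t * u j)
        + ∑ i ∈ R, P.c i * P.φ i (fun j => y j - t * u j)) / 2 := by
      rw [← Finset.sum_add_distrib, Finset.sum_div]
      exact Finset.sum_congr rfl fun j _ => by ring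
    rw [this]
    ring
  rw [e5, hlast]
  linarith

/-- If all coordinates of `A` are alive at `y ∈ F` and `A` is large, then `y` does not minimise
the objective on `F`. -/
theorem exists_better (A : Finset J) (x y : J → ℝ) (η : ℝ) (hη : 0 < η)
    (hyF : y ∈ P.F A x) (hyA : ∀ j ∈ A, |y j| < 1)
    (hbig : 2 * (P.I0.card : ℝ) + 4 * P.f (P.rel A) η y < A.card) :
    ∃ z ∈ P.F A x, P.f (P.rel A) η z < P.f (P.rel A) η y := by
  classical
  obtain ⟨hF1, hF2, hF3, hF4, hF5⟩ := hyF
  obtain ⟨u, huA, hu0, hu1, hu2, hu3⟩ := P.exists_good_dir A y η hη hF2 hbig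
  have hc0 : ∀ i ∈ P.rel A, 0 ≤ P.c i * P.φ i y :=
    fun i _ => (mul_pos (P.c_pos i) (P.φ_pos i y)).le
  obtain ⟨r, hr, hr2⟩ := sum_exp_lt (P.rel A) (fun i => P.c i * P.φ i y)
    (fun i => P.l i ^ 2 * (∑ j, P.s i j * u j) ^ 2
          + 64 * P.l i ^ 4 * (∑ j, P.s i j ^ 2 * y j * u j) ^ 2
          - 4 * P.l i ^ 2 * ∑ j, P.s i j ^ 2 * u j ^ 2) hc0 _ hu3
  -- feasibility for small t
  have ev1 : ∀ᶠ t : ℝ in 𝓝 0, ∀ j ∈ A, |y j + t * u j| < 1 ∧ |y j - t * u j| < 1 := by
    rw [Filter.eventually_all_finset]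
    intro j hj
    have c1 : Continuous (fun t : ℝ => |y j + t * u j|) := by fun_prop
    have c2 : Continuous (fun t : ℝ => |y j - t * u j|) := by fun_prop
    have h1 := c1.tendsto 0
    have h2 := c2.tendsto 0
    simp only [zero_mul, add_zero, sub_zero] at h1 h2
    exact (h1.eventually_lt_const (hyA j hj)).and (h2.eventually_lt_const (hyA j hj))
  have ev2 : ∀ᶠ t : ℝ in 𝓝 0, ∀ i ∈ (P.rel A).filter (fun i => |∑ j, P.s i j * y j| ≠ P.T i),
      |∑ j, P.s i j * y j + t * ∑ j, P.s i j * u j| < P.T i ∧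
      |∑ j, P.s i j * y j - t * ∑ j, P.s i j * u j| < P.T i := by
    rw [Filter.eventually_all_finset]
    intro i hi
    rw [Finset.mem_filter] at hi
    have hlt : |∑ j, P.s i j * y j| < P.T i :=
      lt_of_le_of_ne (hF5 i (Finset.mem_filter.mp hi.1).1) hi.2
    have c1 : Continuous (fun t : ℝ => |∑ j, P.s i j * y j + t * ∑ j, P.s i j * u j|) := by
      fun_prop
    have c2 : Continuous (fun t : ℝ => |∑ j, P.s i j * y j - t * ∑ j, P.s i j * u j|) := by
      fun_prop
    have h1 := c1.tendsto 0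
    have h2 := c2.tendsto 0
    simp only [zero_mul, add_zero, sub_zero] at h1 h2
    exact (h1.eventually_lt_const hlt).and (h2.eventually_lt_const hlt)
  have ev3 : ∀ᶠ t : ℝ in 𝓝[>] 0, 0 < t ∧ t ≤ r := by
    have h1 : ∀ᶠ t : ℝ in 𝓝[>] 0, 0 < t := self_mem_nhdsWithin
    have h2 : ∀ᶠ t : ℝ in 𝓝[>] 0, t ≤ r := by
      have : ∀ᶠ t : ℝ in 𝓝 0, t < r := eventually_lt_nhds hr
      exact (this.filter_mono nhdsWithin_le_nhds).mono fun t ht => ht.le
    exact h1.and h2
  obtain ⟨t, ⟨ht1, ht2⟩, ht3, ht4⟩ := (((ev1.and ev2).filter_mono nhdsWithin_le_nhds).and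
    ev3).exists
  have key := P.f_avg (P.rel A) η y u t
  have key2 := hr2 t ht3 ht4
  have hfy : P.f (P.rel A) η y = ∑ i ∈ P.rel A, P.c i * P.φ i y + η * ∑ j, (1 - y j ^ 2) := rfl
  have key3 : (P.f (P.rel A) η (fun j => y j + t * u j)
      + P.f (P.rel A) η (fun j => y j - t * u j)) / 2 < P.f (P.rel A) η y := by
    rw [hfy]
    linarith
  -- feasibility
  have feas : ∀ σ : ℝ, (σ = t ∨ σ = -t) → (fun j => y j + σ * u j) ∈ P.F A x := by
    intro σ hσ
    have lin1 : ∀ r : J → ℝ, ∑ j, r j * (y j + σ * u j)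
        = ∑ j, r j * y j + σ * ∑ j, r j * u j := by
      intro r
      rw [Finset.mul_sum, ← Finset.sum_add_distrib]
      exact Finset.sum_congr rfl fun j _ => by ring
    refine ⟨?_, ?_, ?_, ?_, ?_⟩
    · intro j hj
      simp only [huA j hj, mul_zero, add_zero, hF1 j hj]
    · intro j
      by_cases hj : j ∈ A
      · rcases hσ with h | h
        · rw [h]; exact (ht1 j hj).1.le
        · rw [h]
          have := (ht1 j hj).2.le
          simpa [sub_eq_add_neg] using this
      · simp only [huA j hj, mul_zero, add_zero]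
        exact hF2 j
    · intro i hi
      rw [lin1, hF3 i hi, hu0 i hi]; simp
    · intro i hi
      rw [lin1, lin1, (hF4 i hi).1, (hF4 i hi).2, (hu1 i hi).1, (hu1 i hi).2]; simp
    · intro i hi
      rw [lin1]
      by_cases hrel : i ∈ P.rel A
      · by_cases htight : |∑ j, P.s i j * y j| = P.T i
        · rw [hu2 i hrel htight, mul_zero, add_zero, htight]
        · have h3 := ht2 i (Finset.mem_filter.mpr ⟨hrel, htight⟩)
          rcases hσ with h | h
          · rw [h]; exact h3.1.le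
          · rw [h]
            have := h3.2.le
            simpa [sub_eq_add_neg] using this
      · have hun : i ∈ P.unrel A := by
          rw [unrel, Finset.mem_filter]
          refine ⟨hi, fun hcon => hrel ?_⟩
          rw [rel, Finset.mem_filter]
          exact ⟨hi, hcon⟩
        rw [(hF4 i hun).1, (hu1 i hun).1]
        simp
        exact (P.T_pos hi).le
  have feas1 := feas t (Or.inl rfl)
  have feas2 := feas (-t) (Or.inr rfl)
  have e2 : (fun j => y j + -t * u j) = (fun j => y j - t * u j) := by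
    funext j; ring
  rw [e2] at feas2
  by_cases hc : P.f (P.rel A) η (fun j => y j + t * u j) < P.f (P.rel A) η y
  · exact ⟨_, feas1, hc⟩
  · refine ⟨_, feas2, ?_⟩
    linarith

theorem isCompact_F (A : Finset J) (x : J → ℝ) : IsCompact (P.F A x) := by
  have hK : IsCompact (Set.pi Set.univ (fun _ : J => Set.Icc (-1 : ℝ) 1)) :=
    isCompact_univ_pi fun _ => isCompact_Icc
  refine hK.of_isClosed_subset ?_ ?_
  · have h1 : IsClosed {y : J → ℝ | ∀ j ∉ A, y j = x j} := by
      simp only [Set.ofPred_forall]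
      exact isClosed_iInter fun j => isClosed_iInter fun _ =>
        isClosed_eq (continuous_apply j) continuous_const
    have h2 : IsClosed {y : J → ℝ | ∀ j, |y j| ≤ 1} := by
      simp only [Set.ofPred_forall]
      exact isClosed_iInter fun j => isClosed_le (by fun_prop) continuous_const
    have h3 : IsClosed {y : J → ℝ | ∀ i ∈ P.I0, ∑ j, P.a i j * y j = 0} := by
      simp only [Set.ofPred_forall]
      exact isClosed_iInter fun j => isClosed_iInter fun _ =>
        isClosed_eq (by fun_prop) continuous_const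
    have h4 : IsClosed {y : J → ℝ | ∀ i ∈ P.unrel A, ∑ j, P.s i j * y j = 0
        ∧ ∑ j, P.b i j * y j = 0} := by
      simp only [Set.ofPred_forall, Set.ofPred_and]
      exact isClosed_iInter fun j => isClosed_iInter fun _ =>
        (isClosed_eq (by fun_prop) continuous_const).inter
          (isClosed_eq (by fun_prop) continuous_const)
    have h5 : IsClosed {y : J → ℝ | ∀ i ∈ P.I1, |∑ j, P.s i j * y j| ≤ P.T i} := by
      simp only [Set.ofPred_forall]
      exact isClosed_iInter fun j => isClosed_iInter fun _ =>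
        isClosed_le (by fun_prop) continuous_const
    exact h1.inter (h2.inter (h3.inter (h4.inter h5)))
  · intro y hy j _
    exact abs_le.mp (hy.2.1 j)

theorem continuous_f (R : Finset I) (η : ℝ) : Continuous (P.f R η) := by
  unfold f φ
  fun_prop

end Sys

end H167FK
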