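import Pool.Agent.H167R2.FKStep

/-!
# The second order perturbation
-/

namespace H167FK

open Finset Real

variable {I J : Type*} [Fintype I] [Fintype J]

namespace Sys

variable (P : Sys I J)

/-- The quadratic estimate: a good direction exists when many coordinates are alive. -/
theorem exists_good_dir (A : Finset J) (y : J → ℝ) (η : ℝ) (hη : 0 < η)
    (hy : ∀ j, |y j| ≤ 1)
    (hbig : 2 * (P.I0.card : ℝ) + 4 * P.f (P.rel A) η y < A.card) :
    ∃ u : J → ℝ, (∀ j ∉ A, u j = 0) ∧ (∀ i ∈ P.I0, ∑ j, P.a i j * u j = 0) ∧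
      (∀ i ∈ P.unrel A, ∑ j, P.s i j * u j = 0 ∧ ∑ j, P.b i j * u j = 0) ∧
      (∀ i ∈ P.rel A, |∑ j, P.s i j * y j| = P.T i → ∑ j, P.s i j * u j = 0) ∧
      ∑ i ∈ P.rel A, (P.c i * P.φ i y) *
        (P.l i ^ 2 * (∑ j, P.s i j * u j) ^ 2
          + 64 * P.l i ^ 4 * (∑ j, P.s i j ^ 2 * y j * u j) ^ 2
          - 4 * P.l i ^ 2 * ∑ j, P.s i j ^ 2 * u j ^ 2) < η * ∑ j, u j ^ 2 := by
  classical
  set w : I → ℝ := fun i => P.c i * P.φ i y with hw
  have hw0 : ∀ i, 0 < w i := fun i => mul_pos (P.c_pos i) (P.φ_pos i y)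
  have hy2 : ∀ j, y j ^ 2 ≤ 1 := by
    intro j
    have := hy j
    rw [← sq_abs]; nlinarith [abs_nonneg (y j)]
  -- tight rows
  set Θ : Finset I := (P.rel A).filter (fun i => |∑ j, P.s i j * y j| = P.T i) with hΘ
  have hrelI1 : ∀ i ∈ P.rel A, i ∈ P.I1 := fun i hi => (Finset.mem_filter.mp hi).1
  have hΘcard : (Θ.card : ℝ) ≤ 2 * P.f (P.rel A) η y := by
    have h1 : ∀ i ∈ Θ, 1 / 2 ≤ w i := by
      intro i hi
      rw [hΘ, Finset.mem_filter] at hi
      exact P.tight_le (hrelI1 i hi.1) hy hi.2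
    have h2 := Finset.card_nsmul_le_sum Θ w (1 / 2) h1
    rw [nsmul_eq_mul] at h2
    have h3 : ∑ i ∈ Θ, w i ≤ ∑ i ∈ P.rel A, w i :=
      Finset.sum_le_sum_of_subset_of_nonneg (Finset.filter_subset _ _) (fun i _ _ => (hw0 i).le)
    have h4 : 0 ≤ η * ∑ j, (1 - y j ^ 2) := by
      apply mul_nonneg hη.le
      exact Finset.sum_nonneg fun j _ => by linarith [hy2 j]
    have h5 : P.f (P.rel A) η y = ∑ i ∈ P.rel A, w i + η * ∑ j, (1 - y j ^ 2) := rfl
    rw [h5]
    linarith
  -- the space of admissible directions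
  obtain ⟨V, hV, hVcard⟩ := finrank_lower A
    (P.I0.disjSum ((P.unrel A ∪ Θ).disjSum (P.unrel A)))
    (Sum.elim (fun i => lin (P.a i)) (Sum.elim (fun i => lin (P.s i)) (fun i => lin (P.b i))))
  rw [Finset.card_disjSum, Finset.card_disjSum] at hVcard
  have hVcard' : (A.card : ℝ) ≤ Module.finrank ℝ V + P.I0.card + 2 * (P.unrel A).card
      + Θ.card := by
    have h1 := Finset.card_union_le (P.unrel A) Θ
    have h2 : A.card ≤ Module.finrank ℝ V + P.I0.card + 2 * (P.unrel A).card + Θ.card := by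
      omega
    exact_mod_cast h2
  have hun := P.unrel_card A
  have hI0 : (0 : ℝ) ≤ P.I0.card := Nat.cast_nonneg _
  have hdim : (2 / 5 : ℝ) * A.card ≤ Module.finrank ℝ V := by linarith
  have hA0 : (0 : ℝ) < A.card := by
    have : (0 : ℝ) ≤ Θ.card := Nat.cast_nonneg _
    linarith
  have hdim0 : 0 < Module.finrank ℝ V := by
    have : (0 : ℝ) < Module.finrank ℝ V := by linarith
    exact_mod_cast this
  -- the weights
  set θ : ℝ := η / 8 with hθ
  have hθ0 : 0 < θ := by positivity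
  set D0 : J → ℝ := fun j => ∑ i ∈ P.rel A, w i * P.l i ^ 2 * P.s i j ^ 2 with hD0
  have hD0n : ∀ j, 0 ≤ D0 j := by
    intro j
    exact Finset.sum_nonneg fun i _ => by have := hw0 i; positivity
  set D : J → ℝ := fun j => D0 j + θ with hD
  have hDpos : ∀ j, 0 < D j := fun j => by have := hD0n j; simp only [hD]; linarith
  -- functionals
  let G : I ⊕ I → J → ℝ := Sum.elim
    (fun i j => if j ∈ A then Real.sqrt (w i) * P.l i * P.s i j else 0)
    (fun i j => if j ∈ A then Real.sqrt (w i) * 8 * P.l i ^ 2 * P.s i j ^ 2 * y j else 0)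
  obtain ⟨u, huV, hu1, hu2⟩ := exists_small_dir ((P.rel A).disjSum (P.rel A)) V hdim0 D hDpos G
  obtain ⟨huA, huK⟩ := hV u huV
  have hsqrt : ∀ i, Real.sqrt (w i) ^ 2 = w i := fun i => Real.sq_sqrt (hw0 i).le
  -- evaluate the functionals
  have hG1 : ∀ i, ∑ j, G (Sum.inl i) j * u j = Real.sqrt (w i) * P.l i * ∑ j, P.s i j * u j := by
    intro i
    rw [Finset.mul_sum]
    refine Finset.sum_congr rfl fun j _ => ?_
    by_cases hj : j ∈ A
    · simp only [G, Sum.elim_inl, hj, if_true]; ring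
    · simp [G, hj, huA j hj]
  have hG2 : ∀ i, ∑ j, G (Sum.inr i) j * u j
      = Real.sqrt (w i) * 8 * P.l i ^ 2 * ∑ j, P.s i j ^ 2 * y j * u j := by
    intro i
    rw [Finset.mul_sum]
    refine Finset.sum_congr rfl fun j _ => ?_
    by_cases hj : j ∈ A
    · simp only [G, Sum.elim_inr, hj, if_true]; ring
    · simp [G, hj, huA j hj]
  have hQ : ∑ l ∈ (P.rel A).disjSum (P.rel A), (∑ j, G l j * u j) ^ 2
      = ∑ i ∈ P.rel A, w i * (P.l i ^ 2 * (∑ j, P.s i j * u j) ^ 2
          + 64 * P.l i ^ 4 * (∑ j, P.s i j ^ 2 * y j * u j) ^ 2) := by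
    rw [Finset.sum_disjSum, ← Finset.sum_add_distrib]
    refine Finset.sum_congr rfl fun i _ => ?_
    rw [hG1, hG2]
    have := hsqrt i
    calc _ = Real.sqrt (w i) ^ 2 * (P.l i ^ 2 * (∑ j, P.s i j * u j) ^ 2
          + 64 * P.l i ^ 4 * (∑ j, P.s i j ^ 2 * y j * u j) ^ 2) := by ring
      _ = _ := by rw [this]
  have htr : ∑ l ∈ (P.rel A).disjSum (P.rel A), ∑ j, G l j ^ 2 / D j ≤ 5 / 4 * A.card := by
    rw [Finset.sum_comm]
    have h1 : ∀ j, ∑ l ∈ (P.rel A).disjSum (P.rel A), G l j ^ 2 / D j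
        ≤ if j ∈ A then 5 / 4 else 0 := by
      intro j
      rw [Finset.sum_disjSum]
      by_cases hj : j ∈ A
      · simp only [G, Sum.elim_inl, Sum.elim_inr, hj, if_true]
        rw [← Finset.sum_add_distrib]
        have h2 : ∀ i ∈ P.rel A, (Real.sqrt (w i) * P.l i * P.s i j) ^ 2 / D j
            + (Real.sqrt (w i) * 8 * P.l i ^ 2 * P.s i j ^ 2 * y j) ^ 2 / D j
            ≤ 5 / 4 * (w i * P.l i ^ 2 * P.s i j ^ 2) / D j := by
          intro i hi
          rw [← add_div]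
          apply div_le_div_of_nonneg_right _ (hDpos j).le
          have h3 := P.s_small (hrelI1 i hi) j
          have h4 := hsqrt i
          have h5 : 0 ≤ w i * P.l i ^ 2 * P.s i j ^ 2 := by have := hw0 i; positivity
          have h6 : 64 * P.l i ^ 2 * P.s i j ^ 2 * y j ^ 2 ≤ 1 / 4 := by
            have h7 : 0 ≤ 64 * P.l i ^ 2 * P.s i j ^ 2 := by positivity
            nlinarith [hy2 j, sq_nonneg (y j)]
          calc _ = Real.sqrt (w i) ^ 2 * P.l i ^ 2 * P.s i j ^ 2
                * (1 + 64 * P.l i ^ 2 * P.s i j ^ 2 * y j ^ 2) := by ring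
            _ = w i * P.l i ^ 2 * P.s i j ^ 2
                * (1 + 64 * P.l i ^ 2 * P.s i j ^ 2 * y j ^ 2) := by rw [h4]
            _ ≤ w i * P.l i ^ 2 * P.s i j ^ 2 * (1 + 1 / 4) := by
                apply mul_le_mul_of_nonneg_left _ h5; linarith
            _ = _ := by ring
        refine (Finset.sum_le_sum h2).trans ?_
        rw [← Finset.sum_div, ← Finset.mul_sum]
        rw [div_le_iff₀ (hDpos j)]
        apply mul_le_mul_of_nonneg_left _ (by norm_num)
        simp only [hD]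
        linarith
      · simp [G, hj]
    refine (Finset.sum_le_sum fun j _ => h1 j).trans ?_
    rw [Finset.sum_ite_mem]
    simp
    linarith
  rw [hQ] at hu2
  have hu3 := hu2.trans htr
  set Q : ℝ := ∑ i ∈ P.rel A, w i * (P.l i ^ 2 * (∑ j, P.s i j * u j) ^ 2
          + 64 * P.l i ^ 4 * (∑ j, P.s i j ^ 2 * y j * u j) ^ 2) with hQdef
  have hQ0 : 0 ≤ Q := by
    refine Finset.sum_nonneg fun i _ => ?_
    have := hw0 i
    positivity
  have hQle : Q ≤ 25 / 8 := by
    have h1 : (2 / 5 : ℝ) * A.card * Q ≤ 5 / 4 * A.card :=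
      (mul_le_mul_of_nonneg_right hdim hQ0).trans hu3
    have h2 : (A.card : ℝ) * (2 / 5 * Q) ≤ A.card * (5 / 4) := by linarith
    have h3 := le_of_mul_le_mul_left h2 hA0
    linarith
  refine ⟨u, huA, ?_, ?_, ?_, ?_⟩
  · intro i hi
    have := huK (Sum.inl i) (Finset.inl_mem_disjSum.mpr hi)
    simpa [lin_apply] using this
  · intro i hi
    constructor
    · have := huK (Sum.inr (Sum.inl i)) (Finset.inr_mem_disjSum.mpr
        (Finset.inl_mem_disjSum.mpr (Finset.mem_union_left _ hi)))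
      simpa [lin_apply] using this
    · have := huK (Sum.inr (Sum.inr i)) (Finset.inr_mem_disjSum.mpr
        (Finset.inr_mem_disjSum.mpr hi))
      simpa [lin_apply] using this
  · intro i hi hT
    have hmem : i ∈ P.unrel A ∪ Θ := Finset.mem_union_right _ (Finset.mem_filter.mpr ⟨hi, hT⟩)
    have := huK (Sum.inr (Sum.inl i)) (Finset.inr_mem_disjSum.mpr
        (Finset.inl_mem_disjSum.mpr hmem))
    simpa [lin_apply] using this
  · -- final inequality
    have hDsum : ∑ j, D j * u j ^ 2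
        = ∑ i ∈ P.rel A, w i * (P.l i ^ 2 * ∑ j, P.s i j ^ 2 * u j ^ 2) + θ * ∑ j, u j ^ 2 := by
      simp only [hD, hD0, add_mul, Finset.sum_add_distrib, Finset.sum_mul]
      congr 1
      · rw [Finset.sum_comm]
        refine Finset.sum_congr rfl fun i _ => ?_
        rw [Finset.mul_sum, Finset.mul_sum]
        refine Finset.sum_congr rfl fun j _ => ?_
        ring
      · rw [Finset.mul_sum]
    have hu0 : 0 < ∑ j, u j ^ 2 := by
      by_contra hcon
      push Not at hcon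
      have h1 : ∀ j, u j ^ 2 = 0 := by
        intro j
        have h2 := Finset.single_le_sum (f := fun j => u j ^ 2) (fun j _ => sq_nonneg (u j))
          (Finset.mem_univ j)
        have h3 := sq_nonneg (u j)
        exact le_antisymm (h2.trans hcon) h3
      have h2 : ∑ j, D j * u j ^ 2 = 0 := by
        refine Finset.sum_eq_zero fun j _ => ?_
        rw [h1 j, mul_zero]
      rw [hu1] at h2
      norm_num at h2
    have hsplit : ∑ i ∈ P.rel A, w i *
        (P.l i ^ 2 * (∑ j, P.s i j * u j) ^ 2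
          + 64 * P.l i ^ 4 * (∑ j, P.s i j ^ 2 * y j * u j) ^ 2
          - 4 * P.l i ^ 2 * ∑ j, P.s i j ^ 2 * u j ^ 2)
        = Q - 4 * ∑ i ∈ P.rel A, w i * (P.l i ^ 2 * ∑ j, P.s i j ^ 2 * u j ^ 2) := by
      rw [hQdef, Finset.mul_sum, ← Finset.sum_sub_distrib]
      refine Finset.sum_congr rfl fun i _ => ?_
      ring
    show ∑ i ∈ P.rel A, w i * _ < _
    rw [hsplit]
    rw [hDsum] at hu1
    have h9 : θ * ∑ j, u j ^ 2 = η * (∑ j, u j ^ 2) / 8 := by rw [hθ]; ring
    have h10 : 0 < η * ∑ j, u j ^ 2 := mul_pos hη hu0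
    linarith

end Sys

end H167FK
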