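import Pool.Agent.H167R2.KKProc

/-!
# The block lemma for the dimension-free Komlós theorem
-/

namespace H167KK

open Finset Real H167BJ H167BK

variable {I J : Type*} [Fintype I] [Fintype J]

/-- Block data. -/
structure Blk (I J : Type*) [Fintype I] [Fintype J] where
  a : I → J → ℝ
  I0 : Finset I
  I1 : Finset I
  Y : ℝ
  hY : 1 ≤ Y
  col : ∀ j, ∑ i, a i j ^ 2 ≤ 1
  τ : I → ℝ
  τ_pos : ∀ i ∈ I1, 0 < τ i
  τ_le : ∀ i ∈ I1, τ i ≤ 1
  τ_mass : ∀ i ∈ I1, τ i = 1 ∨ ∑ j, a i j ^ 2 ≤ τ i ^ 4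

namespace Blk

variable (Q : Blk I J)

theorem exists_l0 {i : I} (hi : i ∈ Q.I1) :
    ∃ l : ℕ, (1 / 2 : ℝ) ^ l < 2 * Q.τ i ∧ (l = 0 ∨ 16 ^ l * ∑ v, Q.a i v ^ 2 ≤ 10 * 1) := by
  have h1 := Q.τ_pos i hi
  have h2 := Q.τ_le i hi
  rcases Q.τ_mass i hi with h | h
  · exact ⟨0, by rw [pow_zero, h]; norm_num, Or.inl rfl⟩
  · obtain ⟨n, hn1, hn2⟩ := exists_nat_pow_near_of_lt_one h1 h2 (by norm_num : (0 : ℝ) < 1 / 2)
      (by norm_num)
    refine ⟨n, ?_, Or.inr ?_⟩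
    · rw [pow_succ] at hn1; linarith
    · have h3 : Q.τ i ^ 4 ≤ ((1 / 2 : ℝ) ^ n) ^ 4 := pow_le_pow_left₀ h1.le hn2 4
      have h4 : (16 : ℝ) ^ n * ((1 / 2 : ℝ) ^ n) ^ 4 = 1 := by
        rw [← pow_mul, mul_comm n 4, pow_mul, ← mul_pow]; norm_num
      calc (16 : ℝ) ^ n * ∑ v, Q.a i v ^ 2 ≤ 16 ^ n * ((1 / 2 : ℝ) ^ n) ^ 4 :=
            mul_le_mul_of_nonneg_left (h.trans h3) (by positivity)
        _ ≤ 10 * 1 := by rw [h4]; norm_num

open Classical in
noncomputable def l0 (i : I) : ℕ := if hi : i ∈ Q.I1 then (Q.exists_l0 hi).choose else 0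

theorem l0_spec {i : I} (hi : i ∈ Q.I1) :
    (1 / 2 : ℝ) ^ Q.l0 i < 2 * Q.τ i ∧ (Q.l0 i = 0 ∨ 16 ^ Q.l0 i * ∑ v, Q.a i v ^ 2 ≤ 10 * 1) := by
  unfold l0
  rw [dif_pos hi]
  exact (Q.exists_l0 hi).choose_spec

/-- Thresholds. -/
noncomputable def θ (k : ℕ) : ℝ := (1 / 8) ^ k / (8 * Real.sqrt Q.Y)

theorem sqrtY_ge : 1 ≤ Real.sqrt Q.Y := Real.one_le_sqrt.mpr Q.hY

theorem sqrtY_sq : Real.sqrt Q.Y ^ 2 = Q.Y := Real.sq_sqrt (by linarith [Q.hY])

theorem θ_pos (k : ℕ) : 0 < Q.θ k := by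
  have := Q.sqrtY_ge
  unfold θ; positivity

theorem θ_anti : Antitone Q.θ := by
  intro k k' h
  have := Q.sqrtY_ge
  unfold θ
  apply div_le_div_of_nonneg_right _ (by positivity)
  exact pow_le_pow_of_le_one (by norm_num) (by norm_num) h

theorem exists_L : ∃ L : ℕ, (∀ i ∈ Q.I1, Q.l0 i ≤ L) ∧ ∀ i v, Q.a i v ≠ 0 → Q.θ L < |Q.a i v| := by
  classical
  have h1 : ∀ i v, ∃ L : ℕ, Q.a i v ≠ 0 → Q.θ L < |Q.a i v| := by
    intro i v
    by_cases h : Q.a i v = 0
    · exact ⟨0, fun h' => absurd h h'⟩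
    · have h2 : 0 < |Q.a i v| := abs_pos.mpr h
      obtain ⟨n, hn⟩ := exists_pow_lt_of_lt_one h2 (by norm_num : (1 / 8 : ℝ) < 1)
      refine ⟨n, fun _ => lt_of_le_of_lt ?_ hn⟩
      have := Q.sqrtY_ge
      unfold θ
      rw [div_le_iff₀ (by positivity)]
      have h3 : (0 : ℝ) < (1 / 8) ^ n := by positivity
      nlinarith
  choose Lf hLf using h1
  refine ⟨∑ i, ∑ v, Lf i v + ∑ i, Q.l0 i, fun i _ => ?_, fun i v h => ?_⟩
  · have := Finset.single_le_sum (f := Q.l0) (fun i _ => Nat.zero_le _) (Finset.mem_univ i)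
    omega
  · refine lt_of_le_of_lt (Q.θ_anti ?_) (hLf i v h)
    have h2 := Finset.single_le_sum (f := fun v => Lf i v) (fun i _ => Nat.zero_le _)
      (Finset.mem_univ v)
    have h3 := Finset.single_le_sum (f := fun i => ∑ v, Lf i v) (fun i _ => Nat.zero_le _)
      (Finset.mem_univ i)
    omega

noncomputable def L : ℕ := Q.exists_L.choose

open Classical in
/-- The system of a block. -/
noncomputable def sys : Sys I J J where
  a := Q.a
  I0 := Q.I0
  I1 := Q.I1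
  t := 1
  Y := Q.Y
  g0 := 0
  ht := le_rfl
  hY := Q.hY
  hg0 := le_rfl
  a1 := by
    intro i j
    have h1 := Finset.single_le_sum (f := fun i => Q.a i j ^ 2) (fun i _ => sq_nonneg _)
      (Finset.mem_univ i)
    have h2 : Q.a i j ^ 2 ≤ 1 := h1.trans (Q.col j)
    rw [← sq_abs] at h2
    nlinarith [abs_nonneg (Q.a i j)]
  col := Q.col
  x0 := fun _ => 0
  hx0 := fun _ => by simp
  θ := Q.θ
  D := fun k => 80 * Real.sqrt Q.Y * (1 / 2) ^ k
  hθ0 := Q.θ_pos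
  hθa := Q.θ_anti
  hθl := by
    intro k
    have h1 := Q.sqrtY_ge
    have h2 := Q.sqrtY_sq
    have h3 := Q.θ_pos k
    have h4 : min 1 (Q.θ k) ≤ Q.θ k := min_le_right _ _
    have h5 : (8 : ℝ) ^ k * (1 / 8) ^ k = 1 := by rw [← mul_pow]; norm_num
    have hY := Q.hY
    rw [mul_one]
    calc 8 ^ k / (2 * Real.sqrt Q.Y) * Q.Y * min 1 (Q.θ k)
        ≤ 8 ^ k / (2 * Real.sqrt Q.Y) * Q.Y * Q.θ k :=
          mul_le_mul_of_nonneg_left h4 (by positivity)
      _ = ((8 : ℝ) ^ k * (1 / 8) ^ k) * Q.Y / (16 * Real.sqrt Q.Y ^ 2) := by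
          unfold θ
          field_simp
          ring
      _ ≤ 1 / 16 := by
          rw [h5, h2]
          apply le_of_eq
          field_simp
  hD0 := by intro k; positivity
  hθD := by
    intro k
    right
    have h1 := Q.sqrtY_ge
    have h5 : (16 : ℝ) ^ k * ((1 / 2) ^ k * (1 / 8) ^ k) = 1 := by
      rw [← mul_pow, ← mul_pow]; norm_num
    have h6 : (16 : ℝ) ^ k * (80 * Real.sqrt Q.Y * (1 / 2) ^ k * Q.θ k)
        = 10 * ((16 : ℝ) ^ k * ((1 / 2) ^ k * (1 / 8) ^ k)) := by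
      unfold θ
      field_simp
      ring
    rw [h6, h5]
  l0 := Q.l0
  hl0 := fun i hi => (Q.l0_spec hi).2
  L := Q.L
  hl0L := Q.exists_L.choose_spec.1
  hL := Q.exists_L.choose_spec.2
  S := Finset.univ
  wt := fun _ => 1
  hwt := fun _ _ => one_pos
  b := fun j i l => 64 * Q.Y * 64 ^ l * (if |Q.a i j| ≤ Q.θ l then Q.a i j else 0) ^ 2
  hb0 := by
    intro j _ i l
    have := Q.hY
    positivity
  hb1 := by
    intro j _ i l
    have hY := Q.hY
    have h1 := Q.sqrtY_ge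
    have h2 := Q.sqrtY_sq
    split_ifs with h
    · have h3 : Q.a i j ^ 2 ≤ Q.θ l ^ 2 := by
        rw [← sq_abs]; exact pow_le_pow_left₀ (abs_nonneg _) h 2
      have h4 : Q.θ l ^ 2 = (1 / 64) ^ l / (64 * Q.Y) := by
        unfold θ
        rw [div_pow, mul_pow, h2, ← pow_mul, mul_comm l 2, pow_mul]
        norm_num
      have h5 : (64 : ℝ) ^ l * (1 / 64) ^ l = 1 := by rw [← mul_pow]; norm_num
      calc 64 * Q.Y * 64 ^ l * Q.a i j ^ 2 ≤ 64 * Q.Y * 64 ^ l * ((1 / 64) ^ l / (64 * Q.Y)) := by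
            rw [← h4]; exact mul_le_mul_of_nonneg_left h3 (by positivity)
        _ = (64 : ℝ) ^ l * (1 / 64) ^ l := by field_simp
        _ = 1 := h5
    · rw [zero_pow two_ne_zero, mul_zero]; exact zero_le_one
  w := fun l => Q.Y * (1 / 4) ^ l
  hw := by
    intro l
    have := Q.hY
    positivity
  N := Fintype.card J
  hN := by
    exact_mod_cast Finset.card_le_univ _
  hwtN := by simp

theorem b_eq (j : J) (i : I) (l : ℕ) :
    Q.sys.b j i l = 64 * Q.Y * 64 ^ l * Q.sys.sm l i j ^ 2 := by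
  simp only [sys, Sys.sm]

theorem Tp_eq (k : ℕ) : Q.sys.Tp k = 720 * Real.sqrt Q.Y * (1 - (1 / 2) ^ k) := by
  induction k with
  | zero => simp [Sys.Tp]
  | succ k ih =>
    rw [Sys.Tp_succ, ih]
    have h1 : Q.sys.D k = 80 * Real.sqrt Q.Y * (1 / 2) ^ k := rfl
    have h2 : Q.sys.rt = Real.sqrt Q.Y := by
      unfold Sys.rt
      show Real.sqrt (Q.Y * 1) = _
      rw [mul_one]
    rw [h1, h2, pow_succ]
    ring

theorem off_small (F : Finset J) (j : J) : Q.sys.off F j ≤ 64 / 10000 * Q.Y ^ 2 := by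
  have hY := Q.hY
  refine (Q.sys.off_le F (τ := j) (Finset.mem_univ j)).trans ?_
  have h1 : ∀ l ∈ range Q.sys.L, Q.sys.w l * Q.sys.g l * ∑ i, Q.sys.b j i l
      ≤ 64 * Q.Y ^ 2 * (1 / 10000 * (1 / 2) ^ (l + 1)) := by
    intro l _
    have h2 : ∑ i, Q.sys.b j i l ≤ 64 * Q.Y * 64 ^ l := by
      simp only [Q.b_eq]
      rw [← Finset.mul_sum]
      have h3 : ∑ i, Q.sys.sm l i j ^ 2 ≤ 1 :=
        (Finset.sum_le_sum fun i _ => Q.sys.sm_sq_le l i j).trans (Q.sys.col j)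
      calc 64 * Q.Y * 64 ^ l * ∑ i, Q.sys.sm l i j ^ 2 ≤ 64 * Q.Y * 64 ^ l * 1 :=
            mul_le_mul_of_nonneg_left h3 (by positivity)
        _ = _ := by ring
    have h4 : Q.sys.w l = Q.Y * (1 / 4) ^ l := rfl
    have h5 : 0 < Q.sys.w l * Q.sys.g l := mul_pos (Q.sys.hw l) (Q.sys.g_pos l)
    have h6 := reset_sum l
    have h7 : (1 / 4 : ℝ) ^ l * 64 ^ l = 16 ^ l := by rw [← mul_pow]; norm_num
    calc Q.sys.w l * Q.sys.g l * ∑ i, Q.sys.b j i l
        ≤ Q.sys.w l * Q.sys.g l * (64 * Q.Y * 64 ^ l) := mul_le_mul_of_nonneg_left h2 h5.le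
      _ = 64 * Q.Y ^ 2 * (((1 / 4 : ℝ) ^ l * 64 ^ l) * exp (-(10 * 4 ^ l))) := by
          rw [h4]; unfold Sys.g; ring
      _ ≤ _ := by
          rw [h7]
          exact mul_le_mul_of_nonneg_left h6 (by positivity)
  refine (Finset.sum_le_sum h1).trans ?_
  rw [← Finset.mul_sum, ← Finset.mul_sum]
  have h2 : ∑ l ∈ range Q.sys.L, (1 / 2 : ℝ) ^ (l + 1) ≤ 1 := by
    have h3 : ∀ m : ℕ, ∑ l ∈ range m, (1 / 2 : ℝ) ^ (l + 1) = 1 - (1 / 2) ^ m := by
      intro m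
      induction m with
      | zero => simp
      | succ m ih => rw [Finset.sum_range_succ, ih, pow_succ]; ring
    rw [h3]
    have : (0 : ℝ) ≤ (1 / 2) ^ Q.sys.L := by positivity
    linarith
  calc 64 * Q.Y ^ 2 * (1 / 10000 * ∑ l ∈ range Q.sys.L, (1 / 2 : ℝ) ^ (l + 1))
      ≤ 64 * Q.Y ^ 2 * (1 / 10000 * 1) := by
        apply mul_le_mul_of_nonneg_left _ (by positivity)
        exact mul_le_mul_of_nonneg_left h2 (by norm_num)
    _ = _ := by ring

theorem good (F : Finset J) (hn : 2 * (Fintype.card J : ℝ) * exp (-(Q.Y ^ 2 / 2)) ≤ F.card)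
    (y : J → ℝ) (hy : ∀ j, |y j| ≤ 1) (hf : Q.sys.f F y ≤ 2 * Q.sys.N) :
    ∑ i ∈ Q.sys.med F, 40 * Q.Y * 4 ^ Q.sys.lev F i * Q.sys.W F y i
      ≤ 5064 / 10000 * Q.Y ^ 2 * F.card := by
  have hY := Q.hY
  -- sum of exponents
  have h1 : ∑ j ∈ F, exp (Q.sys.Th F j y) ≤ 2 * (Fintype.card J : ℝ) := by
    have h2 : ∑ j ∈ F, exp (Q.sys.Th F j y) ≤ ∑ j, exp (Q.sys.Th F j y) :=
      Finset.sum_le_sum_of_subset_of_nonneg (Finset.subset_univ _) (fun _ _ _ => (exp_pos _).le)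
    have h3 : 0 ≤ ∑ j, (1 - y j ^ 2) := by
      refine Finset.sum_nonneg fun j _ => ?_
      have := hy j
      have h3 : y j ^ 2 ≤ 1 := by
        rw [← sq_abs]; nlinarith [abs_nonneg (y j)]
      linarith
    have h4 : Q.sys.f F y = ∑ j, exp (Q.sys.Th F j y) + ∑ j, (1 - y j ^ 2) := by
      unfold Sys.f
      simp only [sys, one_mul]
    have h5 : Q.sys.N = Fintype.card J := rfl
    rw [h4, h5] at hf
    linarith
  have h2 : ∑ j ∈ F, Q.sys.Th F j y ≤ Q.Y ^ 2 / 2 * F.card := by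
    have h3 : ∀ j ∈ F, exp (Q.Y ^ 2 / 2) * (1 + Q.sys.Th F j y - Q.Y ^ 2 / 2)
        ≤ exp (Q.sys.Th F j y) := by
      intro j _
      have h4 := Real.add_one_le_exp (Q.sys.Th F j y - Q.Y ^ 2 / 2)
      have h5 : exp (Q.sys.Th F j y) = exp (Q.Y ^ 2 / 2) * exp (Q.sys.Th F j y - Q.Y ^ 2 / 2) := by
        rw [← exp_add]; congr 1; ring
      rw [h5]
      apply mul_le_mul_of_nonneg_left _ (exp_pos _).le
      linarith
    have h4 := Finset.sum_le_sum h3
    rw [← Finset.mul_sum, Finset.sum_sub_distrib, Finset.sum_add_distrib, Finset.sum_const,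
      Finset.sum_const, nsmul_eq_mul, nsmul_eq_mul, mul_one] at h4
    have h5 : 2 * (Fintype.card J : ℝ) ≤ exp (Q.Y ^ 2 / 2) * F.card := by
      have h6 := mul_le_mul_of_nonneg_left hn (exp_pos (Q.Y ^ 2 / 2)).le
      refine le_trans (le_of_eq ?_) h6
      rw [exp_neg]
      have := (exp_pos (Q.Y ^ 2 / 2)).ne'
      field_simp
    have h6 : exp (Q.Y ^ 2 / 2) * ((F.card : ℝ) + ∑ j ∈ F, Q.sys.Th F j y
        - F.card * (Q.Y ^ 2 / 2)) ≤ exp (Q.Y ^ 2 / 2) * F.card := by linarith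
    have h7 := le_of_mul_le_mul_left h6 (exp_pos _)
    linarith
  -- rows
  have h3 : ∑ j ∈ F, ∑ i ∈ Q.sys.med F, Q.sys.b j i (Q.sys.lev F i) * Q.sys.W F y i
      ≤ 5064 / 10000 * Q.Y ^ 2 * F.card := by
    have h4 : ∑ j ∈ F, ∑ i ∈ Q.sys.med F, Q.sys.b j i (Q.sys.lev F i) * Q.sys.W F y i
        = ∑ j ∈ F, Q.sys.Th F j y + ∑ j ∈ F, Q.sys.off F j := by
      rw [← Finset.sum_add_distrib]
      refine Finset.sum_congr rfl fun j _ => ?_
      rw [Q.sys.Th_eq]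
      unfold Sys.W
      ring
    have h5 : ∑ j ∈ F, Q.sys.off F j ≤ 64 / 10000 * Q.Y ^ 2 * F.card := by
      have := Finset.sum_le_sum (s := F) fun j _ => Q.off_small F j
      rw [Finset.sum_const, nsmul_eq_mul] at this
      linarith
    rw [h4]
    linarith
  refine le_trans ?_ h3
  rw [Finset.sum_comm]
  refine Finset.sum_le_sum fun i hi => ?_
  rw [← Finset.sum_mul]
  apply mul_le_mul_of_nonneg_right _ (Q.sys.W_pos F y i).le
  have h4 := Q.sys.lt_Es (Q.sys.mem_med.mp hi).2.2.2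
  have h5 : ∑ j ∈ F, Q.sys.b j i (Q.sys.lev F i)
      = 64 * Q.Y * 64 ^ Q.sys.lev F i * Q.sys.Es (Q.sys.lev F i) F i := by
    unfold Sys.Es
    rw [Finset.mul_sum]
    exact Finset.sum_congr rfl fun j _ => Q.b_eq j i _
  rw [h5]
  have h6 : Q.sys.e (Q.sys.lev F i + 1) = 10 / 16 ^ (Q.sys.lev F i + 1) := by
    unfold Sys.e
    show 10 * 1 / (16 : ℝ) ^ _ = _
    rw [mul_one]
  rw [h6] at h4
  have h7 : (64 : ℝ) ^ Q.sys.lev F i = 4 ^ Q.sys.lev F i * 16 ^ Q.sys.lev F i := by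
    rw [← mul_pow]; norm_num
  calc 40 * Q.Y * 4 ^ Q.sys.lev F i
      = 64 * Q.Y * 64 ^ Q.sys.lev F i * (10 / 16 ^ (Q.sys.lev F i + 1)) := by
        rw [h7, pow_succ]
        field_simp
        ring
    _ ≤ _ := mul_le_mul_of_nonneg_left h4.le (by positivity)

/-- **Block lemma.** -/
theorem block : ∃ x : J → ℝ, (∀ j, |x j| ≤ 1) ∧ (∀ i ∈ Q.I0, ∑ j, Q.a i j * x j = 0) ∧
    (∀ i ∈ Q.I1, |∑ j, Q.a i j * x j| ≤ 1440 * Real.sqrt Q.Y * Q.τ i) ∧
    ((H167FK.Sys.alive x).card : ℝ) ≤ 20 * Q.I0.card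
      + 2 * (Fintype.card J : ℝ) * exp (-(Q.Y ^ 2 / 2)) := by
  classical
  have hY := Q.hY
  have hex : ∃ k : ℕ, ∃ x : J → ℝ, Q.sys.Inv x ∧ (H167FK.Sys.alive x).card = k :=
    ⟨_, _, Q.sys.inv_base, rfl⟩
  obtain ⟨x, hx, hxk⟩ := Nat.find_spec hex
  have hAx : ∀ i, Q.sys.A i x = ∑ j, Q.a i j * x j := by
    intro i
    unfold Sys.A
    simp only [sys, sub_zero]
  refine ⟨x, hx.box, fun i hi => ?_, fun i hi => ?_, ?_⟩
  · rw [← hAx]; exact hx.zero i hi
  · rw [← hAx]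
    have h1 := hx.rows' hi
    have h2 : Q.sys.g0 = 0 := rfl
    rw [h2, mul_zero, add_zero] at h1
    refine h1.trans ?_
    unfold Sys.Bd
    rw [Q.Tp_eq, Q.Tp_eq]
    have h3 := (Q.l0_spec hi).1
    have h4 : Q.sys.l0 i = Q.l0 i := rfl
    rw [h4]
    have h5 : (0 : ℝ) ≤ (1 / 2) ^ (Q.sys.L + 1) := by positivity
    have h6 := Q.sqrtY_ge
    calc 720 * Real.sqrt Q.Y * (1 - (1 / 2) ^ (Q.sys.L + 1))
          - 720 * Real.sqrt Q.Y * (1 - (1 / 2) ^ Q.l0 i)
        = 720 * Real.sqrt Q.Y * ((1 / 2) ^ Q.l0 i - (1 / 2) ^ (Q.sys.L + 1)) := by ring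
      _ ≤ 720 * Real.sqrt Q.Y * (2 * Q.τ i) := by
          apply mul_le_mul_of_nonneg_left _ (by positivity)
          linarith
      _ = _ := by ring
  · by_contra hcon
    push Not at hcon
    set F := H167FK.Sys.alive x with hF
    have hexp : 0 < exp (-(Q.Y ^ 2 / 2)) := exp_pos _
    have hI0n : (0 : ℝ) ≤ Q.I0.card := Nat.cast_nonneg _
    have hJn : (0 : ℝ) ≤ 2 * (Fintype.card J : ℝ) * exp (-(Q.Y ^ 2 / 2)) := by positivity
    have hn : 0 < F.card := by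
      have : (0 : ℝ) < F.card := by linarith
      exact_mod_cast this
    obtain ⟨y, hy, hyc⟩ := Q.sys.step x hx F hn (Finset.Subset.refl _)
      (fun i _ _ v hv _ => hv) (by
        have : (Q.sys.I0.card : ℝ) = Q.I0.card := rfl
        rw [this]; linarith)
      (by
        intro y hy1 hy2
        have hg := Q.good F (by linarith) y hy1 hy2
        constructor
        · have h1 : ∑ i ∈ Q.sys.R F F, 40 * Q.Y * Q.sys.W F y i
              ≤ ∑ i ∈ Q.sys.med F, 40 * Q.Y * 4 ^ Q.sys.lev F i * Q.sys.W F y i := by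
            refine (Finset.sum_le_sum_of_subset_of_nonneg (f := fun i =>
              40 * Q.Y * Q.sys.W F y i) (Finset.filter_subset _ _) (fun i _ _ => ?_)).trans
              (Finset.sum_le_sum fun i _ => ?_)
            · have := Q.sys.W_pos F y i
              positivity
            · have h2 := Q.sys.W_pos F y i
              have h3 : (1 : ℝ) ≤ 4 ^ Q.sys.lev F i := one_le_pow₀ (by norm_num)
              apply mul_le_mul_of_nonneg_right _ h2.le
              nlinarith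
          rw [← Finset.mul_sum] at h1
          have h2 := h1.trans hg
          have h3 : Q.Y * (40 * ∑ i ∈ Q.sys.R F F, Q.sys.W F y i)
              ≤ Q.Y * (5064 / 10000 * Q.Y * F.card) := by
            calc _ = 40 * Q.Y * ∑ i ∈ Q.sys.R F F, Q.sys.W F y i := by ring
              _ ≤ _ := h2
              _ = _ := by ring
          have h4 := le_of_mul_le_mul_left h3 (by linarith)
          have h5 : Q.sys.Y = Q.Y := rfl
          rw [h5]
          have h6 : 0 ≤ Q.Y * (F.card : ℝ) := by positivity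
          nlinarith
        · intro Tt hTt
          have h1 : ∑ i ∈ Tt, 20 * Q.Y ^ 2
              ≤ ∑ i ∈ Q.sys.med F, 40 * Q.Y * 4 ^ Q.sys.lev F i * Q.sys.W F y i := by
            have hsub : Tt ⊆ Q.sys.med F := fun i hi =>
              Finset.filter_subset _ _ (hTt i hi).1
            refine (Finset.sum_le_sum fun i hi => ?_).trans
              (Finset.sum_le_sum_of_subset_of_nonneg hsub (f := fun i =>
              40 * Q.Y * 4 ^ Q.sys.lev F i * Q.sys.W F y i) (fun i _ _ => ?_))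
            · have h2 := Q.sys.tight_le (Q.sys.lev F i) i hy1 (hTt i hi).2
              have h3 : Q.sys.W F y i = Q.Y * (1 / 4) ^ Q.sys.lev F i
                  * Q.sys.φ (Q.sys.lev F i) F i y := rfl
              have h4 : (4 : ℝ) ^ Q.sys.lev F i * (1 / 4) ^ Q.sys.lev F i = 1 := by
                rw [← mul_pow]; norm_num
              rw [h3]
              calc 20 * Q.Y ^ 2 = 40 * Q.Y ^ 2 * (4 ^ Q.sys.lev F i * (1 / 4) ^ Q.sys.lev F i)
                    * (1 / 2) := by rw [h4]; ring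
                _ ≤ 40 * Q.Y ^ 2 * (4 ^ Q.sys.lev F i * (1 / 4) ^ Q.sys.lev F i)
                    * Q.sys.φ (Q.sys.lev F i) F i y :=
                    mul_le_mul_of_nonneg_left h2 (by positivity)
                _ = _ := by ring
            · have := Q.sys.W_pos F y i
              positivity
          rw [Finset.sum_const, nsmul_eq_mul] at h1
          have h2 := h1.trans hg
          have h3 : Q.Y ^ 2 * (20 * (Tt.card : ℝ)) ≤ Q.Y ^ 2 * (F.card : ℝ) := by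
            have h4 : 0 ≤ Q.Y ^ 2 * (F.card : ℝ) := by positivity
            nlinarith
          exact le_of_mul_le_mul_left h3 (by positivity))
      (by
        intro i hi
        obtain ⟨v, hv, hv2⟩ := (Finset.mem_filter.mp hi).2
        refine ⟨v, Finset.mem_univ v, ?_⟩
        rw [Q.b_eq]
        have h1 : 0 < Q.sys.sm (Q.sys.lev F i) i v ^ 2 := by
          have : Q.sys.sm (Q.sys.lev F i) i v ≠ 0 := hv2
          positivity
        positivity)
    exact Nat.find_min hex (m := (H167FK.Sys.alive y).card) (by rw [← hxk]; exact hyc) ⟨y, hy, rfl⟩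

end Blk

end H167KK
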