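import Pool.Agent.H167R2.BKDir

/-!
# A good direction, with a coupling parameter
-/

namespace H167KK

open Finset Real H167BJ H167BK

variable {I J T : Type*} [Fintype I] [Fintype J]

/-- The main direction lemma. -/
theorem exists_dir {ι : Type*} (a : I → J → ℝ) (Y : ℝ) (hY : 1 ≤ Y) (S : Finset T)
    (b : T → I → ℝ) (F : Finset J)
    (R : Finset I) (hb0 : ∀ τ ∈ S, ∀ i ∈ R, 0 ≤ b τ i) (hb1 : ∀ τ ∈ S, ∀ i ∈ R, b τ i ≤ 1)
    (P l th : I → ℝ) (hP : ∀ i ∈ R, 0 < P i) (hl0 : ∀ i ∈ R, 0 < l i)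
    (hl : ∀ i ∈ R, ∀ v, l i * Y * |a i v| ≤ 1 / 16) (hth : ∀ i ∈ R, |th i| ≤ 1) (ω : T → ℝ)
    (hω : ∀ τ ∈ S, 0 < ω τ)
    (η0 : ℝ) (hη0 : 0 < η0) (y : J → ℝ) (hy : ∀ j, |y j| ≤ 1)
    (hn : 0 < F.card) (hmass : ∀ i ∈ R, 0 < ∑ v ∈ F, |a i v|)
    (hW0 : ∀ i ∈ R, 0 < Wt b S ω i)
    (hPs : 100 * ∑ i ∈ R, P i ≤ 2 * Y * (F.card : ℝ))
    (K : Finset ι) (c : ι → (J → ℝ) →ₗ[ℝ] ℝ) (hK : 1000 * (K.card : ℝ) ≤ 201 * F.card) :
    ∃ u : J → ℝ, (∀ j ∉ F, u j = 0) ∧ (∀ k ∈ K, c k u = 0) ∧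
      ∑ τ ∈ S, ω τ * (∑ i ∈ R, b τ i * (P i * l i *
          (th i * (∑ v, a i v * u v) - 8 * l i * (Y * ∑ v, a i v ^ 2 * y v * u v)))) ^ 2
      + ∑ τ ∈ S, ω τ * ∑ i ∈ R, b τ i * (P i * (l i ^ 2 * (2 * (∑ v, a i v * u v) ^ 2
          + 128 * l i ^ 2 * (Y * ∑ v, a i v ^ 2 * y v * u v) ^ 2
          - 8 * (Y * ∑ v, a i v ^ 2 * u v ^ 2))))
      < 2 * η0 * ∑ v, u v ^ 2 := by
  classical
  have hnR : (0 : ℝ) < F.card := by exact_mod_cast hn
  set W : I → ℝ := Wt b S ω with hW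
  set h : I → ℝ := fun i => P i * l i ^ 2 * W i with hh
  have hh0 : ∀ i ∈ R, 0 < h i := fun i hi =>
    mul_pos (mul_pos (hP i hi) (pow_pos (hl0 i hi) 2)) (hW0 i hi)
  have hY0 : 0 < Y := by linarith
  set θ : ℝ := η0 / (6 * Y) with hθ
  have hθ0 : 0 < θ := by positivity
  have hYθ : Y * θ = η0 / 6 := by rw [hθ]; field_simp
  set D0 : J → ℝ := fun v => ∑ i ∈ R, h i * a i v ^ 2 with hD0
  have hD0n : ∀ v, 0 ≤ D0 v := fun v =>
    Finset.sum_nonneg fun i hi => mul_nonneg (hh0 i hi).le (sq_nonneg _)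
  set D : J → ℝ := fun v => D0 v + θ with hD
  have hDpos : ∀ v, 0 < D v := fun v => by
    have := hD0n v
    simp only [hD]; linarith
  set E : I → ℝ := En a F D with hE
  have hE0 : ∀ i ∈ R, 0 < E i := fun i hi => En_pos hDpos (hmass i hi)
  -- total energy
  have hEn : ∑ i ∈ R, h i * E i ≤ F.card := by
    have h1 : ∑ i ∈ R, h i * E i = ∑ v ∈ F, D0 v / D v := by
      simp only [hE, En, Finset.mul_sum]
      rw [Finset.sum_comm]
      refine Finset.sum_congr rfl fun v _ => ?_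
      simp only [hD0]
      rw [Finset.sum_div]
      exact Finset.sum_congr rfl fun i _ => by ring
    rw [h1]
    calc ∑ v ∈ F, D0 v / D v ≤ ∑ v ∈ F, (1 : ℝ) := by
          refine Finset.sum_le_sum fun v _ => ?_
          rw [div_le_one (hDpos v)]
          simp only [hD]; linarith
      _ = F.card := by simp
  -- the coupling
  have hY8 : ∀ i ∈ R, ∀ v, |8 * l i * Y * (a i v * y v)| ≤ 1 / 2 := by
    intro i hi v
    have h5 := hl i hi v
    have h6 := hl0 i hi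
    have h4 := hy v
    rw [abs_mul, abs_mul, abs_mul, abs_mul, abs_of_pos h6, abs_of_pos hY0,
      abs_of_pos (by norm_num : (0:ℝ) < 8)]
    have h7 : 0 ≤ l i * Y * |a i v| := by positivity
    have h8 : l i * Y * |a i v| * |y v| ≤ l i * Y * |a i v| * 1 :=
      mul_le_mul_of_nonneg_left h4 h7
    calc 8 * l i * Y * (|a i v| * |y v|) = 8 * (l i * Y * |a i v| * |y v|) := by ring
      _ ≤ 8 * (l i * Y * |a i v| * 1) := by linarith
      _ ≤ 1 / 2 := by linarith
  let z : I → J → ℝ := fun i v => a i v * (th i - 8 * l i * Y * (a i v * y v))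
  have hz : ∀ i ∈ R, ∀ v, |z i v| ≤ 3 / 2 * |a i v| := by
    intro i hi v
    simp only [z, abs_mul]
    have h1 : |th i - 8 * l i * Y * (a i v * y v)| ≤ 3 / 2 := by
      have h2 := hY8 i hi v
      have h3 := hth i hi
      have h4 := abs_sub (th i) (8 * l i * Y * (a i v * y v))
      linarith
    have h2 := abs_nonneg (a i v)
    calc |a i v| * |th i - 8 * l i * Y * (a i v * y v)| ≤ |a i v| * (3 / 2) :=
          mul_le_mul_of_nonneg_left h1 h2
      _ = 3 / 2 * |a i v| := by ring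
  have hzu : ∀ (i : I) (u : J → ℝ), ∑ v, z i v * u v
      = th i * (∑ v, a i v * u v) - 8 * l i * (Y * ∑ v, a i v ^ 2 * y v * u v) := by
    intro i u
    rw [Finset.mul_sum, Finset.mul_sum, Finset.mul_sum, ← Finset.sum_sub_distrib]
    exact Finset.sum_congr rfl fun v _ => by simp only [z]; ring
  set m : ℕ := ⌊3 / 20 * (F.card : ℝ)⌋₊ with hm
  have hm1 : 3 / 20 * (F.card : ℝ) ≤ m + 1 := (Nat.lt_floor_add_one _).le
  have hm2 : (m : ℝ) ≤ 3 / 20 * (F.card : ℝ) := Nat.floor_le (by positivity)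
  obtain ⟨e, he⟩ := coupling_block a S b F R hb0 hb1 (fun i => P i * l i)
    (fun i hi => mul_pos (hP i hi) (hl0 i hi)) z hz ω hω D hDpos hW0 hE0 hn m hm1
  set Γ : ℝ := ∑ i ∈ R, Real.sqrt (W i * E i) * (P i * l i) with hΓ
  have hΓ2 : Γ ^ 2 ≤ (∑ i ∈ R, P i) * (F.card : ℝ) := by
    have h1 : Γ ^ 2 ≤ (∑ i ∈ R, P i) * ∑ i ∈ R, h i * E i := by
      refine Finset.sum_sq_le_sum_mul_sum_of_sq_le_mul R (fun i hi => (hP i hi).le)
        (fun i hi => (mul_pos (hh0 i hi) (hE0 i hi)).le) (fun i hi => ?_)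
      rw [mul_pow, Real.sq_sqrt (mul_pos (hW0 i hi) (hE0 i hi)).le]
      simp only [hh]
      apply le_of_eq; ring
    refine h1.trans (mul_le_mul_of_nonneg_left hEn ?_)
    exact Finset.sum_nonneg fun i hi => (hP i hi).le
  -- the space of admissible directions
  obtain ⟨V, hV, hVcard⟩ := H167FK.finrank_lower F
    (K.disjSum (Finset.univ : Finset (Fin m ⊕ Fin m)))
    (Sum.elim c (fun k => H167FK.Sys.lin (e k)))
  rw [Finset.card_disjSum, Finset.card_univ, Fintype.card_sum, Fintype.card_fin] at hVcard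
  have hVcard' : (F.card : ℝ) ≤ Module.finrank ℝ V + (K.card + (m + m)) := by
    exact_mod_cast hVcard
  have hdim : (499 / 1000 : ℝ) * F.card ≤ Module.finrank ℝ V := by linarith
  have hdim0 : 0 < Module.finrank ℝ V := by
    have : (0 : ℝ) < Module.finrank ℝ V := by linarith
    exact_mod_cast this
  -- the direction
  obtain ⟨u, huV, hu1, hu2⟩ := exists_small_dir_w (R.disjSum R)
    (Sum.elim (fun i => 2 * h i) (fun i => 128 * l i ^ 2 * Y ^ 2 * h i)) (by
      intro k hk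
      rcases Finset.mem_disjSum.mp hk with ⟨i, hi, rfl⟩ | ⟨i, hi, rfl⟩
      · simp only [Sum.elim_inl]; have := hh0 i hi; positivity
      · simp only [Sum.elim_inr]; have := hh0 i hi; positivity)
    V hdim0 D hDpos
    (Sum.elim (fun i v => if v ∈ F then a i v else 0)
      (fun i v => if v ∈ F then a i v ^ 2 * y v else 0))
  obtain ⟨huF, huK⟩ := hV u huV
  rw [Finset.sum_disjSum, Finset.sum_disjSum] at hu2
  simp only [Sum.elim_inl, Sum.elim_inr] at hu2
  have hs1 : ∀ i, ∑ v, (if v ∈ F then a i v else 0) * u v = ∑ v, a i v * u v := by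
    intro i
    refine Finset.sum_congr rfl fun v _ => ?_
    by_cases hv : v ∈ F
    · simp [hv]
    · simp [hv, huF v hv]
  have hs2 : ∀ i, ∑ v, (if v ∈ F then a i v ^ 2 * y v else 0) * u v
      = ∑ v, a i v ^ 2 * y v * u v := by
    intro i
    refine Finset.sum_congr rfl fun v _ => ?_
    by_cases hv : v ∈ F
    · simp [hv]
    · simp [hv, huF v hv]
  simp only [hs1, hs2] at hu2
  -- trace
  have htr : ∑ i ∈ R, 2 * h i * ∑ v, (if v ∈ F then a i v else 0) ^ 2 / D v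
      + ∑ i ∈ R, 128 * l i ^ 2 * Y ^ 2 * h i
        * ∑ v, (if v ∈ F then a i v ^ 2 * y v else 0) ^ 2 / D v
      ≤ 5 / 2 * F.card := by
    rw [← Finset.sum_add_distrib]
    have h1 : ∀ i ∈ R, 2 * h i * ∑ v, (if v ∈ F then a i v else 0) ^ 2 / D v
        + 128 * l i ^ 2 * Y ^ 2 * h i * ∑ v, (if v ∈ F then a i v ^ 2 * y v else 0) ^ 2 / D v
        ≤ 5 / 2 * (h i * E i) := by
      intro i hi
      have h2 : ∑ v, (if v ∈ F then a i v else 0) ^ 2 / D v = E i := by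
        simp only [hE, En]
        exact sum_restrict F _ _ (fun v hv => by rw [if_pos hv])
          (fun v hv => by rw [if_neg hv, zero_pow two_ne_zero, zero_div])
      have h3 : 128 * l i ^ 2 * Y ^ 2 * ∑ v, (if v ∈ F then a i v ^ 2 * y v else 0) ^ 2 / D v
          ≤ 1 / 2 * E i := by
        simp only [hE, En]
        have h4 : ∑ v, (if v ∈ F then a i v ^ 2 * y v else 0) ^ 2 / D v
            = ∑ v ∈ F, (a i v ^ 2 * y v) ^ 2 / D v :=
          sum_restrict F _ _ (fun v hv => by rw [if_pos hv])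
            (fun v hv => by rw [if_neg hv, zero_pow two_ne_zero, zero_div])
        rw [h4, Finset.mul_sum, Finset.mul_sum]
        refine Finset.sum_le_sum fun v _ => ?_
        rw [← mul_div_assoc, ← mul_div_assoc]
        apply div_le_div_of_nonneg_right _ (hDpos v).le
        have h5 : (8 * l i * Y * (a i v * y v)) ^ 2 ≤ (1 / 2) ^ 2 := by
          rw [← sq_abs]
          exact pow_le_pow_left₀ (abs_nonneg _) (hY8 i hi v) 2
        have h8 : 0 ≤ a i v ^ 2 := sq_nonneg _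
        calc 128 * l i ^ 2 * Y ^ 2 * (a i v ^ 2 * y v) ^ 2
            = 2 * a i v ^ 2 * (8 * l i * Y * (a i v * y v)) ^ 2 := by ring
          _ ≤ 2 * a i v ^ 2 * (1 / 2) ^ 2 :=
              mul_le_mul_of_nonneg_left h5 (by positivity)
          _ = 1 / 2 * a i v ^ 2 := by ring
      rw [h2]
      have h4 := hh0 i hi
      calc 2 * h i * E i
          + 128 * l i ^ 2 * Y ^ 2 * h i * ∑ v, (if v ∈ F then a i v ^ 2 * y v else 0) ^ 2 / D v
          = 2 * h i * E i + h i *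
            (128 * l i ^ 2 * Y ^ 2 * ∑ v, (if v ∈ F then a i v ^ 2 * y v else 0) ^ 2 / D v) := by
            ring
        _ ≤ 2 * h i * E i + h i * (1 / 2 * E i) := by
            have := mul_le_mul_of_nonneg_left h3 h4.le
            linarith
        _ = 5 / 2 * (h i * E i) := by ring
    refine (Finset.sum_le_sum h1).trans ?_
    rw [← Finset.mul_sum]
    linarith
  have hu3 := hu2.trans htr
  set Q : ℝ := ∑ i ∈ R, 2 * h i * (∑ v, a i v * u v) ^ 2
    + ∑ i ∈ R, 128 * l i ^ 2 * Y ^ 2 * h i * (∑ v, a i v ^ 2 * y v * u v) ^ 2 with hQ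
  have hQ0 : 0 ≤ Q := by
    apply add_nonneg
    · refine Finset.sum_nonneg fun i hi => ?_
      have := hh0 i hi
      positivity
    · refine Finset.sum_nonneg fun i hi => ?_
      have := hh0 i hi
      positivity
  have hQle : Q ≤ 502 / 100 := by
    have h1 : (499 / 1000 : ℝ) * F.card * Q ≤ 5 / 2 * F.card :=
      (mul_le_mul_of_nonneg_right hdim hQ0).trans hu3
    have h2 : (F.card : ℝ) * (499 / 1000 * Q) ≤ F.card * (5 / 2) := by linarith
    have h3 := le_of_mul_le_mul_left h2 hnR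
    linarith
  refine ⟨u, huF, fun k hk => ?_, ?_⟩
  · have := huK (Sum.inl k) (Finset.inl_mem_disjSum.mpr hk)
    simpa using this
  · -- coupling part
    have hc1 := he u huF (fun k => by
      have := huK (Sum.inr k) (Finset.inr_mem_disjSum.mpr (Finset.mem_univ k))
      simpa [H167FK.Sys.lin_apply] using this)
    simp only [hzu] at hc1
    rw [hu1, mul_one] at hc1
    have hc2 : 100 * Γ ^ 2 / (F.card : ℝ) ^ 2 ≤ 2 * Y := by
      have h1 : 100 * Γ ^ 2 / (F.card : ℝ) ^ 2 ≤ 100 * (∑ i ∈ R, P i) / (F.card : ℝ) := by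
        rw [div_le_div_iff₀ (by positivity) hnR]
        nlinarith
      have h2 : 100 * (∑ i ∈ R, P i) / (F.card : ℝ) ≤ 2 * Y := by
        rw [div_le_iff₀ hnR]
        linarith
      exact h1.trans h2
    have hc3 := hc1.trans hc2
    -- row part
    have hr1 : ∑ τ ∈ S, ω τ * ∑ i ∈ R, b τ i * (P i * (l i ^ 2 * (2 * (∑ v, a i v * u v) ^ 2
          + 128 * l i ^ 2 * (Y * ∑ v, a i v ^ 2 * y v * u v) ^ 2
          - 8 * (Y * ∑ v, a i v ^ 2 * u v ^ 2))))
        = Q - 8 * Y * ∑ i ∈ R, h i * ∑ v, a i v ^ 2 * u v ^ 2 := by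
      have h1 : ∑ τ ∈ S, ω τ * ∑ i ∈ R, b τ i * (P i * (l i ^ 2 * (2 * (∑ v, a i v * u v) ^ 2
          + 128 * l i ^ 2 * (Y * ∑ v, a i v ^ 2 * y v * u v) ^ 2
          - 8 * (Y * ∑ v, a i v ^ 2 * u v ^ 2))))
          = ∑ i ∈ R, h i * (2 * (∑ v, a i v * u v) ^ 2
          + 128 * l i ^ 2 * (Y * ∑ v, a i v ^ 2 * y v * u v) ^ 2
          - 8 * (Y * ∑ v, a i v ^ 2 * u v ^ 2)) := by
        exact swap_rows b S R P l ω _
      rw [h1, hQ, ← Finset.sum_add_distrib, Finset.mul_sum, ← Finset.sum_sub_distrib]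
      exact Finset.sum_congr rfl fun i _ => by ring
    have hr2 : ∑ i ∈ R, h i * ∑ v, a i v ^ 2 * u v ^ 2 = 1 - θ * ∑ v, u v ^ 2 := by
      have h1 : ∑ v, D v * u v ^ 2 = ∑ i ∈ R, h i * ∑ v, a i v ^ 2 * u v ^ 2
          + θ * ∑ v, u v ^ 2 := by
        simp only [hD, hD0, add_mul, Finset.sum_add_distrib, Finset.sum_mul, ← Finset.mul_sum]
        congr 1
        rw [Finset.sum_comm]
        refine Finset.sum_congr rfl fun i _ => ?_
        rw [Finset.mul_sum]
        exact Finset.sum_congr rfl fun v _ => by ring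
      linarith
    rw [hr1, hr2]
    have hU : 0 ≤ ∑ v, u v ^ 2 := Finset.sum_nonneg fun v _ => sq_nonneg _
    have h12 : 0 ≤ η0 * ∑ v, u v ^ 2 := by positivity
    have h13 : 8 * Y * (1 - θ * ∑ v, u v ^ 2) = 8 * Y - 8 / 6 * (η0 * ∑ v, u v ^ 2) := by
      calc 8 * Y * (1 - θ * ∑ v, u v ^ 2) = 8 * Y - 8 * (Y * θ) * ∑ v, u v ^ 2 := by ring
        _ = _ := by rw [hYθ]; ring
    rw [h13]
    linarith

end H167KK
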