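import Pool.Agent.H167R2.KKDir
import Pool.Agent.H167R2.BJSys

/-!
# Potentials for matrices with bounded column norms
-/

namespace H167KK

open Finset Real H167BJ H167BK

/-- Data of one stage. -/
structure Sys (I J T : Type*) [Fintype I] [Fintype J] where
  a : I → J → ℝ
  I0 : Finset I
  I1 : Finset I
  t : ℝ
  Y : ℝ
  g0 : ℝ
  ht : 1 ≤ t
  hY : 1 ≤ Y
  hg0 : 0 ≤ g0
  a1 : ∀ i j, |a i j| ≤ 1
  col : ∀ j, ∑ i, a i j ^ 2 ≤ t
  x0 : J → ℝ
  hx0 : ∀ j, |x0 j| ≤ 1
  θ : ℕ → ℝ
  D : ℕ → ℝ
  hθ0 : ∀ k, 0 < θ k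
  hθa : Antitone θ
  hθl : ∀ k, 8 ^ k / (2 * Real.sqrt (Y * t)) * Y * min 1 (θ k) ≤ 1 / 16
  hD0 : ∀ k, 0 ≤ D k
  hθD : ∀ k, 1 ≤ θ k ∨ 10 * t ≤ 16 ^ k * (D k * θ k)
  l0 : I → ℕ
  hl0 : ∀ i ∈ I1, l0 i = 0 ∨ 16 ^ l0 i * ∑ v, a i v ^ 2 ≤ 10 * t
  L : ℕ
  hl0L : ∀ i ∈ I1, l0 i ≤ L
  hL : ∀ i v, a i v ≠ 0 → θ L < |a i v|
  S : Finset T
  wt : T → ℝ
  hwt : ∀ τ ∈ S, 0 < wt τ
  b : T → I → ℕ → ℝ
  hb0 : ∀ τ ∈ S, ∀ i l, 0 ≤ b τ i l
  hb1 : ∀ τ ∈ S, ∀ i l, b τ i l ≤ 1
  w : ℕ → ℝ
  hw : ∀ l, 0 < w l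
  N : ℝ
  hN : ((H167FK.Sys.alive x0).card : ℝ) ≤ N
  hwtN : ∑ τ ∈ S, wt τ ≤ N

variable {I J T : Type*} [Fintype I] [Fintype J]

namespace Sys

variable (P : Sys I J T)

/-- The square root of `Y t`. -/
noncomputable def rt : ℝ := Real.sqrt (P.Y * P.t)

theorem rt_ge : 1 ≤ P.rt := by
  have h1 := P.ht
  have h2 := P.hY
  unfold rt
  apply Real.one_le_sqrt.mpr
  nlinarith

theorem rt_sq : P.rt ^ 2 = P.Y * P.t := by
  have h1 := P.ht
  have h2 := P.hY
  exact Real.sq_sqrt (by positivity)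

/-- Energy scales. -/
noncomputable def e (k : ℕ) : ℝ := 10 * P.t / 16 ^ k

/-- Entries kept at level `k`. -/
noncomputable def sm (k : ℕ) (i : I) (v : J) : ℝ := if |P.a i v| ≤ P.θ k then P.a i v else 0

/-- Alive mass of a row. -/
noncomputable def mass (F : Finset J) (i : I) : ℝ := ∑ v ∈ F, |P.a i v|

/-- Alive energy of a row. -/
noncomputable def En (F : Finset J) (i : I) : ℝ := ∑ v ∈ F, P.a i v ^ 2

/-- Alive energy of the kept entries. -/
noncomputable def Es (k : ℕ) (F : Finset J) (i : I) : ℝ := ∑ v ∈ F, P.sm k i v ^ 2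

/-- Alive mass of the dropped entries. -/
noncomputable def dr (k : ℕ) (F : Finset J) (i : I) : ℝ := ∑ v ∈ F, |P.a i v - P.sm k i v|

/-- Levels reached by a row. -/
def Reach (F : Finset J) (i : I) (k : ℕ) : Prop := ∀ k' < k, P.Es k' F i ≤ P.e (k' + 1)

/-- The level of a row. -/
noncomputable def lev (F : Finset J) (i : I) : ℕ :=
  @Nat.findGreatest (P.Reach F i) (Classical.decPred _) P.L

open Classical in
/-- Rows with large alive energy. -/
noncomputable def big (F : Finset J) : Finset I :=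
  P.I1.filter (fun i => P.g0 < P.mass F i ∧ P.e 0 < P.En F i)

open Classical in
/-- Rows with medium alive energy. -/
noncomputable def med (F : Finset J) : Finset I :=
  P.I1.filter (fun i => P.g0 < P.mass F i ∧ P.En F i ≤ P.e 0 ∧ P.lev F i < P.L)

/-- Exponents. -/
noncomputable def lam (k : ℕ) : ℝ := 8 ^ k / (2 * P.rt)

/-- Thresholds. -/
noncomputable def Tp (k : ℕ) : ℝ := ∑ k' ∈ range k, (4 * P.D k' + 40 * P.rt * (1 / 2) ^ k')

/-- The budget of a row at level `k`. -/
noncomputable def Bd (k : ℕ) (i : I) : ℝ := P.Tp (k + 1) - P.Tp (P.l0 i)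

/-- Row sum relative to the base point. -/
noncomputable def A (i : I) (y : J → ℝ) : ℝ := ∑ v, P.a i v * (y v - P.x0 v)

/-- Row sum without the alive dropped entries. -/
noncomputable def B (k : ℕ) (F : Finset J) (i : I) (y : J → ℝ) : ℝ :=
  P.A i y - ∑ v ∈ F, (P.a i v - P.sm k i v) * (y v - P.x0 v)

/-- The controlled quantity. -/
noncomputable def V (k : ℕ) (F : Finset J) (i : I) (y : J → ℝ) : ℝ :=
  |P.B k F i y| + 2 * P.dr k F i

/-- The row potential at level `k`. -/
noncomputable def φ (k : ℕ) (F : Finset J) (i : I) (y : J → ℝ) : ℝ :=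
  exp (-(P.lam k * P.Bd k i)) * cosh (P.lam k * P.B k F i y) * exp (2 * P.lam k * P.dr k F i)
    * exp (4 * P.lam k ^ 2 * (P.Y * ∑ v, P.sm k i v ^ 2 * (1 - y v ^ 2)))

/-- Reset value. -/
noncomputable def g (_P : Sys I J T) (k : ℕ) : ℝ := exp (-(10 * 4 ^ k))

theorem g_pos (k : ℕ) : 0 < P.g k := exp_pos _

theorem Y_pos : 0 < P.Y := by linarith [P.hY]

theorem lam_pos (k : ℕ) : 0 < P.lam k := by
  have := P.rt_ge
  unfold lam; positivity

theorem mass_nonneg (F : Finset J) (i : I) : 0 ≤ P.mass F i :=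
  Finset.sum_nonneg fun _ _ => abs_nonneg _

theorem mass_mono {F F' : Finset J} (h : F' ⊆ F) (i : I) : P.mass F' i ≤ P.mass F i :=
  Finset.sum_le_sum_of_subset_of_nonneg h (fun _ _ _ => abs_nonneg _)

theorem En_mono {F F' : Finset J} (h : F' ⊆ F) (i : I) : P.En F' i ≤ P.En F i :=
  Finset.sum_le_sum_of_subset_of_nonneg h (fun _ _ _ => sq_nonneg _)

theorem Es_mono {F F' : Finset J} (h : F' ⊆ F) (k : ℕ) (i : I) : P.Es k F' i ≤ P.Es k F i :=
  Finset.sum_le_sum_of_subset_of_nonneg h (fun _ _ _ => sq_nonneg _)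

theorem dr_nonneg (k : ℕ) (F : Finset J) (i : I) : 0 ≤ P.dr k F i :=
  Finset.sum_nonneg fun _ _ => abs_nonneg _

theorem sm_abs (k : ℕ) (i : I) (v : J) : |P.sm k i v| ≤ min 1 (P.θ k) := by
  unfold sm
  have h1 := P.a1 i v
  have h2 := P.hθ0 k
  split_ifs with h
  · exact le_min h1 h
  · rw [abs_zero]
    exact le_min zero_le_one h2.le

theorem sm_sq_le (k : ℕ) (i : I) (v : J) : P.sm k i v ^ 2 ≤ P.a i v ^ 2 := by
  unfold sm
  split_ifs with h
  · exact le_rfl
  · rw [zero_pow two_ne_zero]; exact sq_nonneg _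

theorem sm_sq_anti {k k' : ℕ} (h : k ≤ k') (i : I) (v : J) :
    P.sm k' i v ^ 2 ≤ P.sm k i v ^ 2 := by
  unfold sm
  by_cases h1 : |P.a i v| ≤ P.θ k'
  · rw [if_pos h1, if_pos (h1.trans (P.hθa h))]
  · rw [if_neg h1, zero_pow two_ne_zero]; exact sq_nonneg _

theorem Es_le_En (k : ℕ) (F : Finset J) (i : I) : P.Es k F i ≤ P.En F i :=
  Finset.sum_le_sum fun v _ => P.sm_sq_le k i v

theorem Es_anti {k k' : ℕ} (h : k ≤ k') (F : Finset J) (i : I) : P.Es k' F i ≤ P.Es k F i :=
  Finset.sum_le_sum fun v _ => P.sm_sq_anti h i v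

theorem En_le_all (F : Finset J) (i : I) : P.En F i ≤ ∑ v, P.a i v ^ 2 :=
  Finset.sum_le_sum_of_subset_of_nonneg (Finset.subset_univ _) (fun _ _ _ => sq_nonneg _)

theorem e_pos (k : ℕ) : 0 < P.e k := by
  have := P.ht
  unfold e; positivity

theorem e_anti {k k' : ℕ} (h : k ≤ k') : P.e k' ≤ P.e k := by
  have := P.ht
  unfold e
  apply div_le_div_of_nonneg_left (by linarith) (by positivity)
  exact pow_le_pow_right₀ (by norm_num) h

/-! ### Levels -/

theorem lev_le_L (F : Finset J) (i : I) : P.lev F i ≤ P.L := by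
  unfold lev
  exact @Nat.findGreatest_le (P.Reach F i) (Classical.decPred _) P.L

theorem reach_lev (F : Finset J) (i : I) : P.Reach F i (P.lev F i) := by
  unfold lev
  exact @Nat.findGreatest_spec 0 (P.Reach F i) (Classical.decPred _) P.L (Nat.zero_le _)
    (fun k' h => absurd h (Nat.not_lt_zero _))

theorem le_lev {F : Finset J} {i : I} {k : ℕ} (h : k ≤ P.L) (h2 : P.Reach F i k) :
    k ≤ P.lev F i := by
  unfold lev
  exact @Nat.le_findGreatest k (P.Reach F i) (Classical.decPred _) P.L h h2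

theorem lt_Es {F : Finset J} {i : I} (h : P.lev F i < P.L) :
    P.e (P.lev F i + 1) < P.Es (P.lev F i) F i := by
  by_contra hcon
  push Not at hcon
  have h1 : P.Reach F i (P.lev F i + 1) := by
    intro k' hk'
    rcases Nat.lt_succ_iff_lt_or_eq.mp hk' with h2 | h2
    · exact P.reach_lev F i k' h2
    · rw [h2]; exact hcon
  have := P.le_lev (by omega) h1
  omega

theorem lev_mono {F F' : Finset J} (h : F' ⊆ F) (i : I) : P.lev F i ≤ P.lev F' i :=
  P.le_lev (P.lev_le_L F i) fun k' hk' => (P.Es_mono h k' i).trans (P.reach_lev F i k' hk')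

theorem En_le_l0 {F : Finset J} {i : I} (hi : i ∈ P.I1) (h0 : P.En F i ≤ P.e 0) :
    P.En F i ≤ P.e (P.l0 i) := by
  rcases P.hl0 i hi with h | h
  · rw [h]; exact h0
  · refine (P.En_le_all F i).trans ?_
    unfold e
    rw [le_div_iff₀ (by positivity)]
    linarith

theorem l0_le_lev {F : Finset J} {i : I} (hi : i ∈ P.I1) (h0 : P.En F i ≤ P.e 0) :
    P.l0 i ≤ P.lev F i := by
  refine P.le_lev (P.hl0L i hi) fun k' hk' => ?_
  exact (P.Es_le_En k' F i).trans ((P.En_le_l0 hi h0).trans (P.e_anti hk'))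

theorem Es_lev_le {F : Finset J} {i : I} (h0 : P.En F i ≤ P.e 0) :
    P.Es (P.lev F i) F i ≤ P.e (P.lev F i) := by
  rcases Nat.eq_zero_or_pos (P.lev F i) with h | h
  · rw [h]; exact (P.Es_le_En 0 F i).trans h0
  · obtain ⟨k, hk⟩ := Nat.exists_eq_succ_of_ne_zero h.ne'
    have h1 := P.reach_lev F i k (by omega)
    rw [hk]
    exact (P.Es_anti (Nat.le_succ k) F i).trans h1

/-! ### Dropped mass -/

theorem dr_first {F : Finset J} {i : I} (k : ℕ) (h : P.En F i ≤ P.e k) :
    P.dr k F i ≤ P.D k := by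
  rcases P.hθD k with h1 | h1
  · have h2 : P.dr k F i = 0 := by
      unfold dr
      refine Finset.sum_eq_zero fun v _ => ?_
      unfold sm
      rw [if_pos ((P.a1 i v).trans h1), sub_self, abs_zero]
    rw [h2]; exact P.hD0 k
  · have hθ := P.hθ0 k
    have h2 : P.dr k F i ≤ P.En F i / P.θ k := by
      unfold dr En
      rw [Finset.sum_div]
      refine Finset.sum_le_sum fun v _ => ?_
      unfold sm
      split_ifs with h3
      · rw [sub_self, abs_zero]; positivity
      · push Not at h3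
        rw [sub_zero, le_div_iff₀ hθ, ← sq_abs (P.a i v), pow_two]
        exact mul_le_mul_of_nonneg_left h3.le (abs_nonneg _)
    refine h2.trans ?_
    rw [div_le_iff₀ hθ]
    refine h.trans ?_
    unfold e
    rw [div_le_iff₀ (by positivity)]
    linarith

theorem dr_step {F : Finset J} {i : I} (k : ℕ) (h : P.Es k F i ≤ P.e (k + 1)) :
    P.dr (k + 1) F i ≤ P.dr k F i + P.D (k + 1) := by
  rcases P.hθD (k + 1) with h1 | h1
  · have h2 : P.dr (k + 1) F i = 0 := by
      unfold dr
      refine Finset.sum_eq_zero fun v _ => ?_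
      unfold sm
      rw [if_pos ((P.a1 i v).trans h1), sub_self, abs_zero]
    rw [h2]
    have := P.hD0 (k + 1)
    have := P.dr_nonneg k F i
    linarith
  · have hθ := P.hθ0 (k + 1)
    have h2 : P.dr (k + 1) F i ≤ P.dr k F i + P.Es k F i / P.θ (k + 1) := by
      unfold dr Es
      rw [Finset.sum_div, ← Finset.sum_add_distrib]
      refine Finset.sum_le_sum fun v _ => ?_
      unfold sm
      by_cases h3 : |P.a i v| ≤ P.θ (k + 1)
      · rw [if_pos h3, sub_self, abs_zero]
        positivity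
      · rw [if_neg h3]
        push Not at h3
        by_cases h4 : |P.a i v| ≤ P.θ k
        · rw [if_pos h4, sub_self, abs_zero, zero_add, sub_zero, le_div_iff₀ hθ,
            ← sq_abs (P.a i v), pow_two]
          exact mul_le_mul_of_nonneg_left h3.le (abs_nonneg _)
        · rw [if_neg h4]
          have : (0 : ℝ) ≤ 0 ^ 2 / P.θ (k + 1) := by positivity
          linarith
    have h3 : P.Es k F i / P.θ (k + 1) ≤ P.D (k + 1) := by
      rw [div_le_iff₀ hθ]
      refine h.trans ?_
      unfold e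
      rw [div_le_iff₀ (by positivity)]
      linarith
    linarith

/-! ### The quantities `B` and `V` -/

/-- Value of `B` for another set and another level. -/
theorem B_level (k k' : ℕ) (F : Finset J) (i : I) {y : J → ℝ} (hy : ∀ j, |y j| ≤ 1)
    (hk : k ≤ k') : |P.B k' F i y| ≤ |P.B k F i y| + 2 * (P.dr k' F i - P.dr k F i) := by
  have h1 : P.B k' F i y = P.B k F i y
      - ∑ v ∈ F, (P.sm k i v - P.sm k' i v) * (y v - P.x0 v) := by
    unfold B
    rw [sub_sub, ← Finset.sum_add_distrib]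
    congr 1
    exact Finset.sum_congr rfl fun v _ => by ring
  have h2 : |∑ v ∈ F, (P.sm k i v - P.sm k' i v) * (y v - P.x0 v)|
      ≤ 2 * (P.dr k' F i - P.dr k F i) := by
    refine (Finset.abs_sum_le_sum_abs _ _).trans ?_
    unfold dr
    rw [← Finset.sum_sub_distrib, Finset.mul_sum]
    refine Finset.sum_le_sum fun v _ => ?_
    rw [abs_mul]
    have h3 : |y v - P.x0 v| ≤ 2 := by
      have h4 := abs_le.mp (hy v)
      have h5 := abs_le.mp (P.hx0 v)
      rw [abs_le]; constructor <;> linarith [h4.1, h4.2, h5.1, h5.2]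
    have h4 : |P.sm k i v - P.sm k' i v|
        ≤ |P.a i v - P.sm k' i v| - |P.a i v - P.sm k i v| := by
      unfold sm
      by_cases h5 : |P.a i v| ≤ P.θ k'
      · rw [if_pos h5, if_pos (h5.trans (P.hθa hk))]; simp
      · rw [if_neg h5]
        by_cases h6 : |P.a i v| ≤ P.θ k
        · rw [if_pos h6]; simp
        · rw [if_neg h6]; simp
    have h5 : 0 ≤ |P.sm k i v - P.sm k' i v| := abs_nonneg _
    nlinarith [abs_nonneg (y v - P.x0 v)]
  rw [h1]
  exact (abs_sub _ _).trans (by linarith)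

theorem V_level (k k' : ℕ) (F : Finset J) (i : I) {y : J → ℝ} (hy : ∀ j, |y j| ≤ 1)
    (hk : k ≤ k') : P.V k' F i y ≤ P.V k F i y + 4 * (P.dr k' F i - P.dr k F i) := by
  have := P.B_level k k' F i hy hk
  unfold V
  linarith

/-- Value of `B` when the alive set shrinks. -/
theorem B_shrink (k : ℕ) {F F' : Finset J} (h : F' ⊆ F) (i : I) {y : J → ℝ}
    (hy : ∀ j, |y j| ≤ 1) :
    ∃ c : ℝ, P.B k F' i y = P.B k F i y + c ∧ |c| ≤ 2 * (P.dr k F i - P.dr k F' i) := by
  classical
  refine ⟨∑ v ∈ F \ F', (P.a i v - P.sm k i v) * (y v - P.x0 v), ?_, ?_⟩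
  · unfold B
    rw [← Finset.sum_sdiff h]
    ring
  · refine (Finset.abs_sum_le_sum_abs _ _).trans ?_
    have h1 : P.dr k F i - P.dr k F' i = ∑ v ∈ F \ F', |P.a i v - P.sm k i v| := by
      unfold dr
      rw [← Finset.sum_sdiff h]
      ring
    rw [h1, Finset.mul_sum]
    refine Finset.sum_le_sum fun v _ => ?_
    rw [abs_mul]
    have h3 : |y v - P.x0 v| ≤ 2 := by
      have h4 := abs_le.mp (hy v)
      have h5 := abs_le.mp (P.hx0 v)
      rw [abs_le]; constructor <;> linarith [h4.1, h4.2, h5.1, h5.2]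
    have h5 : 0 ≤ |P.a i v - P.sm k i v| := abs_nonneg _
    nlinarith [abs_nonneg (y v - P.x0 v)]

theorem V_shrink (k : ℕ) {F F' : Finset J} (h : F' ⊆ F) (i : I) {y : J → ℝ}
    (hy : ∀ j, |y j| ≤ 1) : P.V k F' i y ≤ P.V k F i y := by
  obtain ⟨c, hc1, hc2⟩ := P.B_shrink k h i hy
  unfold V
  rw [hc1]
  have := abs_add_le (P.B k F i y) c
  linarith

/-! ### Budgets -/

theorem Tp_succ (k : ℕ) : P.Tp (k + 1) = P.Tp k + (4 * P.D k + 40 * P.rt * (1 / 2) ^ k) := by
  unfold Tp
  rw [Finset.sum_range_succ]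

theorem Tp_mono {k k' : ℕ} (h : k ≤ k') : P.Tp k ≤ P.Tp k' := by
  have h1 := P.rt_ge
  unfold Tp
  refine Finset.sum_le_sum_of_subset_of_nonneg (by
    intro j hj
    rw [Finset.mem_range] at hj ⊢
    omega) fun j _ _ => ?_
  have := P.hD0 j
  positivity

theorem Bd_nonneg {k : ℕ} {i : I} (h : P.l0 i ≤ k) : 0 ≤ P.Bd k i := by
  have := P.Tp_mono (h.trans (Nat.le_succ k))
  unfold Bd
  linarith

theorem Bd_mono {k k' : ℕ} (h : k ≤ k') (i : I) : P.Bd k i ≤ P.Bd k' i := by
  have := P.Tp_mono (Nat.succ_le_succ h)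
  unfold Bd
  linarith

theorem Bd_succ (k : ℕ) (i : I) :
    P.Bd (k + 1) i = P.Bd k i + (4 * P.D (k + 1) + 40 * P.rt * (1 / 2) ^ (k + 1)) := by
  unfold Bd
  rw [P.Tp_succ (k + 1)]; ring

/-- Budget after a change of level. -/
theorem reset_lt {F : Finset J} {i : I} {k : ℕ} {y : J → ℝ} (hy : ∀ j, |y j| ≤ 1)
    (h : P.V k F i y ≤ P.Bd k i) :
    ∀ k', k < k' → k' ≤ P.lev F i → P.V k' F i y ≤ P.Bd k' i - 40 * P.rt * (1 / 2) ^ k' := by
  intro k' hk'
  induction k', hk' using Nat.le_induction with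
  | base =>
    intro h1
    have h2 := P.V_level k (k + 1) F i hy (Nat.le_succ k)
    have h3 := P.dr_step k (P.reach_lev F i k (by omega))
    have h4 := P.Bd_succ k i
    show P.V (k + 1) F i y ≤ P.Bd (k + 1) i - 40 * P.rt * (1 / 2) ^ (k + 1)
    linarith
  | succ n hn ih =>
    intro h1
    have h0 := ih (by omega)
    have h2 := P.V_level n (n + 1) F i hy (Nat.le_succ n)
    have h3 := P.dr_step n (P.reach_lev F i n (by omega))
    have h4 := P.Bd_succ n i
    have h5 : 0 ≤ 40 * P.rt * (1 / 2) ^ n := by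
      have := P.rt_ge
      positivity
    linarith

/-- Budget when the row sum vanishes. -/
theorem reset_zero {F : Finset J} {i : I} {y : J → ℝ} (hy : ∀ j, |y j| ≤ 1)
    (hA : P.A i y = 0) (hE : P.En F i ≤ P.e (P.l0 i)) (k' : ℕ) (hk : P.l0 i ≤ k')
    (hk' : k' ≤ P.lev F i) : P.V k' F i y ≤ P.Bd k' i - 40 * P.rt * (1 / 2) ^ k' := by
  have h1 : P.V (P.l0 i) F i y ≤ P.Bd (P.l0 i) i - 40 * P.rt * (1 / 2) ^ P.l0 i := by
    have h2 : |P.B (P.l0 i) F i y| ≤ 2 * P.dr (P.l0 i) F i := by
      unfold B dr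
      rw [hA, zero_sub, abs_neg, Finset.mul_sum]
      refine (Finset.abs_sum_le_sum_abs _ _).trans (Finset.sum_le_sum fun v _ => ?_)
      rw [abs_mul]
      have h3 : |y v - P.x0 v| ≤ 2 := by
        have h4 := abs_le.mp (hy v)
        have h5 := abs_le.mp (P.hx0 v)
        rw [abs_le]; constructor <;> linarith [h4.1, h4.2, h5.1, h5.2]
      have h5 : 0 ≤ |P.a i v - P.sm (P.l0 i) i v| := abs_nonneg _
      nlinarith [abs_nonneg (y v - P.x0 v)]
    have h3 := P.dr_first (P.l0 i) hE
    have h4 := P.Tp_succ (P.l0 i)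
    unfold V Bd
    linarith
  rcases hk.eq_or_lt with h | h
  · rw [← h]; exact h1
  · refine P.reset_lt hy (k := P.l0 i) ?_ k' h hk'
    have h5 : 0 ≤ 40 * P.rt * (1 / 2) ^ P.l0 i := by
      have := P.rt_ge
      positivity
    linarith

/-! ### Potentials -/

theorem φ_pos (k : ℕ) (F : Finset J) (i : I) (y : J → ℝ) : 0 < P.φ k F i y := by
  unfold φ
  have := cosh_pos (P.lam k * P.B k F i y)
  positivity

theorem lam_half (k : ℕ) : P.lam k * (40 * P.rt * (1 / 2) ^ k) = 20 * 4 ^ k := by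
  have hs := P.rt_ge
  have hs0 : P.rt ≠ 0 := by linarith
  have h3 : (8 : ℝ) ^ k * (1 / 2) ^ k = 4 ^ k := by rw [← mul_pow]; norm_num
  unfold lam
  rw [← h3]
  field_simp
  ring

theorem lam_sq (k : ℕ) : 4 * P.lam k ^ 2 * (P.Y * P.e k) = 10 * 4 ^ k := by
  have hs2 := P.rt_sq
  have ht : P.t ≠ 0 := by linarith [P.ht]
  have hY : P.Y ≠ 0 := P.Y_pos.ne'
  have h4 : P.lam k ^ 2 = 16 ^ k * 4 ^ k / (4 * (P.Y * P.t)) := by
    unfold lam
    rw [div_pow, mul_pow, hs2, ← mul_pow, ← pow_mul, mul_comm k 2, pow_mul]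
    norm_num
  rw [h4]
  unfold e
  field_simp

/-- The value of the potential right after a change of level. -/
theorem φ_reset (k : ℕ) {F : Finset J} (i : I) {y : J → ℝ}
    (hV : P.V k F i y ≤ P.Bd k i - 40 * P.rt * (1 / 2) ^ k)
    (hm : ∑ v, P.sm k i v ^ 2 * (1 - y v ^ 2) ≤ P.e k) :
    P.φ k F i y ≤ P.g k := by
  have hl := P.lam_pos k
  have hY := P.Y_pos
  have h1 : cosh (P.lam k * P.B k F i y) ≤ exp (P.lam k * |P.B k F i y|) := by
    refine (cosh_le_exp_abs _).trans (exp_le_exp.mpr ?_)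
    rw [abs_mul, abs_of_pos hl]
  have h2 : exp (4 * P.lam k ^ 2 * (P.Y * ∑ v, P.sm k i v ^ 2 * (1 - y v ^ 2)))
      ≤ exp (10 * 4 ^ k) := by
    rw [← P.lam_sq k]
    apply exp_le_exp.mpr
    apply mul_le_mul_of_nonneg_left _ (by positivity)
    exact mul_le_mul_of_nonneg_left hm hY.le
  unfold φ g
  calc _ ≤ exp (-(P.lam k * P.Bd k i)) * exp (P.lam k * |P.B k F i y|)
        * exp (2 * P.lam k * P.dr k F i) * exp (10 * 4 ^ k) := by
        apply mul_le_mul _ h2 (exp_pos _).le (by positivity)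
        apply mul_le_mul_of_nonneg_right _ (exp_pos _).le
        exact mul_le_mul_of_nonneg_left h1 (exp_pos _).le
    _ = exp (P.lam k * P.V k F i y - P.lam k * P.Bd k i + 10 * 4 ^ k) := by
        rw [← exp_add, ← exp_add, ← exp_add]
        congr 1
        unfold V
        ring
    _ ≤ exp (-(10 * 4 ^ k)) := by
        apply exp_le_exp.mpr
        have h3 := mul_le_mul_of_nonneg_left hV hl.le
        have h4 := P.lam_half k
        rw [mul_sub] at h3
        linarith

theorem energy_le {F : Finset J} (k : ℕ) (i : I) {y : J → ℝ}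
    (hF : ∀ j ∉ F, |y j| = 1) : ∑ v, P.sm k i v ^ 2 * (1 - y v ^ 2) ≤ P.Es k F i := by
  classical
  unfold Es
  rw [← Finset.sum_subset (Finset.subset_univ F)]
  · refine Finset.sum_le_sum fun v _ => ?_
    have h4 : 0 ≤ y v ^ 2 := sq_nonneg _
    have h5 : 0 ≤ P.sm k i v ^ 2 := sq_nonneg _
    nlinarith
  · intro v _ hv
    have h2 : y v ^ 2 = 1 := by rw [← sq_abs, hF v hv]; norm_num
    rw [h2]; ring

/-- A tight row has large potential. -/
theorem tight_le (k : ℕ) {F : Finset J} (i : I) {y : J → ℝ} (hy : ∀ j, |y j| ≤ 1)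
    (h : P.V k F i y = P.Bd k i) : 1 / 2 ≤ P.φ k F i y := by
  have hl := P.lam_pos k
  have hY := P.Y_pos
  unfold φ
  have h2 : 1 ≤ exp (4 * P.lam k ^ 2 * (P.Y * ∑ v, P.sm k i v ^ 2 * (1 - y v ^ 2))) := by
    apply one_le_exp
    apply mul_nonneg (by positivity)
    apply mul_nonneg hY.le
    refine Finset.sum_nonneg fun j _ => mul_nonneg (sq_nonneg _) ?_
    have := hy j
    have h3 : y j ^ 2 ≤ 1 := by
      rw [← sq_abs]; nlinarith [abs_nonneg (y j)]
    linarith
  have h3 : exp (P.lam k * |P.B k F i y|) / 2 ≤ cosh (P.lam k * P.B k F i y) := by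
    have h4 : cosh (P.lam k * P.B k F i y) = cosh (P.lam k * |P.B k F i y|) := by
      rw [← cosh_abs, abs_mul, abs_of_pos hl]
    rw [h4, cosh_eq]
    have := exp_pos (-(P.lam k * |P.B k F i y|))
    linarith
  have h4 : exp (-(P.lam k * P.Bd k i)) * exp (P.lam k * |P.B k F i y|)
      * exp (2 * P.lam k * P.dr k F i) = 1 := by
    rw [← exp_add, ← exp_add, ← h]
    unfold V
    rw [Real.exp_eq_one_iff]
    ring
  calc (1 : ℝ) / 2 = exp (-(P.lam k * P.Bd k i)) * (exp (P.lam k * |P.B k F i y|) / 2)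
        * exp (2 * P.lam k * P.dr k F i) * 1 := by
        have h5 : exp (-(P.lam k * P.Bd k i)) * (exp (P.lam k * |P.B k F i y|) / 2)
          * exp (2 * P.lam k * P.dr k F i) * 1 = (exp (-(P.lam k * P.Bd k i))
          * exp (P.lam k * |P.B k F i y|) * exp (2 * P.lam k * P.dr k F i)) / 2 := by ring
        rw [h5, h4]
    _ ≤ _ := by
        apply mul_le_mul _ h2 zero_le_one
        · have := cosh_pos (P.lam k * P.B k F i y); positivity
        · apply mul_le_mul_of_nonneg_right _ (exp_pos _).le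
          exact mul_le_mul_of_nonneg_left h3 (exp_pos _).le

theorem cosh_add_le (x c : ℝ) : cosh (x + c) ≤ cosh x * exp |c| := by
  rw [cosh_eq, cosh_eq]
  have h1 : exp (x + c) ≤ exp x * exp |c| := by
    rw [← exp_add]; exact exp_le_exp.mpr (by linarith [le_abs_self c])
  have h2 : exp (-(x + c)) ≤ exp (-x) * exp |c| := by
    rw [← exp_add]; exact exp_le_exp.mpr (by linarith [neg_abs_le c])
  calc (exp (x + c) + exp (-(x + c))) / 2 ≤ (exp x * exp |c| + exp (-x) * exp |c|) / 2 := by
        linarith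
    _ = _ := by ring

/-- Potentials at the same level decrease when the alive set shrinks. -/
theorem φ_shrink (k : ℕ) {F F' : Finset J} (h : F' ⊆ F) (i : I) {y : J → ℝ}
    (hy : ∀ j, |y j| ≤ 1) : P.φ k F' i y ≤ P.φ k F i y := by
  obtain ⟨c, hc1, hc2⟩ := P.B_shrink k h i hy
  have hl := P.lam_pos k
  unfold φ
  apply mul_le_mul_of_nonneg_right _ (exp_pos _).le
  rw [hc1]
  have h1 : cosh (P.lam k * (P.B k F i y + c)) ≤ cosh (P.lam k * P.B k F i y)
      * exp (P.lam k * |c|) := by
    have := cosh_add_le (P.lam k * P.B k F i y) (P.lam k * c)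
    rw [abs_mul, abs_of_pos hl] at this
    rwa [mul_add]
  calc exp (-(P.lam k * P.Bd k i)) * cosh (P.lam k * (P.B k F i y + c))
        * exp (2 * P.lam k * P.dr k F' i)
      ≤ exp (-(P.lam k * P.Bd k i)) * (cosh (P.lam k * P.B k F i y)
      * exp (P.lam k * |c|)) * exp (2 * P.lam k * P.dr k F' i) := by
        apply mul_le_mul_of_nonneg_right _ (exp_pos _).le
        exact mul_le_mul_of_nonneg_left h1 (exp_pos _).le
    _ = exp (-(P.lam k * P.Bd k i)) * cosh (P.lam k * P.B k F i y)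
      * exp (P.lam k * |c| + 2 * P.lam k * P.dr k F' i) := by
        rw [exp_add]; ring
    _ ≤ _ := by
        have hch := cosh_pos (P.lam k * P.B k F i y)
        apply mul_le_mul_of_nonneg_left _ (by positivity)
        apply exp_le_exp.mpr
        have := mul_le_mul_of_nonneg_left hc2 hl.le
        linarith

/-! ### Exponents of the tests -/

theorem mem_med {F : Finset J} {i : I} :
    i ∈ P.med F ↔ i ∈ P.I1 ∧ P.g0 < P.mass F i ∧ P.En F i ≤ P.e 0 ∧ P.lev F i < P.L := by
  classical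
  unfold med; rw [Finset.mem_filter]

theorem mem_big {F : Finset J} {i : I} :
    i ∈ P.big F ↔ i ∈ P.I1 ∧ P.g0 < P.mass F i ∧ P.e 0 < P.En F i := by
  classical
  unfold big; rw [Finset.mem_filter]

open Classical in
/-- Correction of a row at level `l`. -/
noncomputable def offc (F : Finset J) (i : I) (l : ℕ) : ℝ :=
  if i ∈ P.big F ∨ (i ∈ P.med F ∧ P.lev F i < l) then 0 else P.w l * P.g l

open Classical in
/-- Contribution of a row at level `l` to the exponents. -/
noncomputable def th (F : Finset J) (i : I) (l : ℕ) (y : J → ℝ) : ℝ :=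
  (if i ∈ P.med F ∧ P.lev F i = l then P.w l * P.φ l F i y else 0) - P.offc F i l

/-- Exponent of a test. -/
noncomputable def Th (F : Finset J) (τ : T) (y : J → ℝ) : ℝ :=
  ∑ i, ∑ l ∈ range P.L, P.b τ i l * P.th F i l y

/-- Correction term of a test. -/
noncomputable def off (F : Finset J) (τ : T) : ℝ :=
  ∑ i, ∑ l ∈ range P.L, P.b τ i l * P.offc F i l

/-- The objective function. -/
noncomputable def f (F : Finset J) (y : J → ℝ) : ℝ :=
  ∑ τ ∈ P.S, P.wt τ * exp (P.Th F τ y) + ∑ j, (1 - y j ^ 2)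

/-- The contributions at a fixed point decrease when the alive set shrinks. -/
theorem th_mono {F F' : Finset J} (hFF : F' ⊆ F) (i : I) (l : ℕ) {y : J → ℝ}
    (hy : ∀ j, |y j| ≤ 1) (hF' : ∀ j ∉ F', |y j| = 1)
    (hbig : i ∈ P.big F → P.A i y = 0)
    (hmed : i ∈ P.med F → P.V (P.lev F i) F i y ≤ P.Bd (P.lev F i) i) :
    P.th F' i l y ≤ P.th F i l y := by
  classical
  have hmono := P.mass_mono hFF i
  have hEmono := P.En_mono hFF i
  have hlmono := P.lev_mono hFF i
  have hw := P.hw l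
  have hg := P.g_pos l
  have hwg : 0 < P.w l * P.g l := mul_pos hw hg
  have hφ := P.φ_pos l F i y
  have hbm : ∀ F'' : Finset J, i ∈ P.big F'' → i ∉ P.med F'' := by
    intro F'' h1 h2
    have := (P.mem_big.mp h1).2.2
    have := (P.mem_med.mp h2).2.2.1
    linarith
  -- energy at the new level
  have hen : i ∈ P.med F' → P.lev F' i = l → ∑ v, P.sm l i v ^ 2 * (1 - y v ^ 2) ≤ P.e l := by
    intro h1 h2
    refine (P.energy_le l i hF').trans ?_
    have := P.Es_lev_le (P.mem_med.mp h1).2.2.1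
    rwa [h2] at this
  by_cases hbF : i ∈ P.big F
  · -- big before: old value zero
    have hold : P.th F i l y = 0 := by
      unfold th offc
      rw [if_neg (fun h => hbm F hbF h.1), if_pos (Or.inl hbF)]; ring
    rw [hold]
    unfold th offc
    by_cases h1 : i ∈ P.med F' ∧ P.lev F' i = l
    · rw [if_pos h1, if_neg]
      · obtain ⟨hi1, _, hE, _⟩ := P.mem_med.mp h1.1
        have h3 := P.l0_le_lev hi1 hE
        have h2 := P.φ_reset l i (P.reset_zero hy (hbig hbF) (P.En_le_l0 hi1 hE) l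
          (by rw [← h1.2]; exact h3) (by rw [h1.2])) (hen h1.1 h1.2)
        have := mul_le_mul_of_nonneg_left h2 hw.le
        linarith
      · rintro (h2 | h2)
        · exact hbm F' h2 h1.1
        · omega
    · rw [if_neg h1]
      split_ifs <;> linarith
  · by_cases hmF : i ∈ P.med F
    · obtain ⟨hi1, hm1, hE1, hlL⟩ := P.mem_med.mp hmF
      have hnb' : i ∉ P.big F' := by
        intro h
        have := (P.mem_big.mp h).2.2
        linarith
      rcases lt_trichotomy (P.lev F i) l with hlt | heq | hgt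
      · -- level below l : old value zero
        have hold : P.th F i l y = 0 := by
          unfold th offc
          rw [if_neg (fun h => by omega), if_pos (Or.inr ⟨hmF, hlt⟩)]; ring
        rw [hold]
        unfold th offc
        by_cases h1 : i ∈ P.med F' ∧ P.lev F' i = l
        · rw [if_pos h1, if_neg]
          · have h3 := (P.V_shrink (P.lev F i) hFF i hy).trans (hmed hmF)
            have h2 := P.φ_reset l i (P.reset_lt hy h3 l hlt (by rw [h1.2]))
              (hen h1.1 h1.2)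
            have := mul_le_mul_of_nonneg_left h2 hw.le
            linarith
          · rintro (h2 | h2)
            · exact hnb' h2
            · omega
        · rw [if_neg h1]
          split_ifs <;> linarith
      · -- level l
        have hold : P.th F i l y = P.w l * P.φ l F i y - P.w l * P.g l := by
          unfold th offc
          rw [if_pos ⟨hmF, heq⟩, if_neg]
          rintro (h2 | h2)
          · exact hbF h2
          · omega
        rw [hold]
        unfold th offc
        have hnB : ¬ (i ∈ P.big F' ∨ (i ∈ P.med F' ∧ P.lev F' i < l)) := by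
          rintro (h2 | h2)
          · exact hnb' h2
          · omega
        rw [if_neg hnB]
        have hpos : 0 < P.w l * P.φ l F i y := mul_pos hw hφ
        have hsh := mul_le_mul_of_nonneg_left (P.φ_shrink l hFF i hy) hw.le
        split_ifs <;> linarith
      · -- level above l
        have hold : P.th F i l y = - (P.w l * P.g l) := by
          unfold th offc
          rw [if_neg (fun h => by omega), if_neg]
          · ring
          · rintro (h2 | h2)
            · exact hbF h2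
            · omega
        rw [hold]
        unfold th offc
        have hnB : ¬ (i ∈ P.big F' ∨ (i ∈ P.med F' ∧ P.lev F' i < l)) := by
          rintro (h2 | h2)
          · exact hnb' h2
          · omega
        have hnA : ¬ (i ∈ P.med F' ∧ P.lev F' i = l) := by
          rintro ⟨h2, h3⟩
          omega
        rw [if_neg hnB, if_neg hnA]
        linarith
    · -- neither before
      have hnm' : i ∉ P.med F' := by
        intro h
        obtain ⟨h1, h2, h3, h4⟩ := P.mem_med.mp h
        apply hmF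
        rw [P.mem_med]
        refine ⟨h1, h2.trans_le hmono, ?_, lt_of_le_of_lt hlmono h4⟩
        by_contra hcon
        push Not at hcon
        exact hbF (P.mem_big.mpr ⟨h1, h2.trans_le hmono, hcon⟩)
      have hnb' : i ∉ P.big F' := by
        intro h
        obtain ⟨h1, h2, h3⟩ := P.mem_big.mp h
        exact hbF (P.mem_big.mpr ⟨h1, h2.trans_le hmono, h3.trans_le hEmono⟩)
      have hold : P.th F i l y = - (P.w l * P.g l) := by
        unfold th offc
        rw [if_neg (fun h => hmF h.1), if_neg]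
        · ring
        · rintro (h2 | h2)
          · exact hbF h2
          · exact hmF h2.1
      rw [hold]
      unfold th offc
      rw [if_neg (fun h => hnm' h.1), if_neg]
      · linarith
      · rintro (h2 | h2)
        · exact hnb' h2
        · exact hnm' h2.1

/-- At the base point all contributions are nonpositive. -/
theorem th_base (F : Finset J) (i : I) (l : ℕ) (hF : ∀ j ∉ F, |P.x0 j| = 1) :
    P.th F i l P.x0 ≤ 0 := by
  classical
  have hw := P.hw l
  have hg := P.g_pos l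
  have hwg : 0 < P.w l * P.g l := mul_pos hw hg
  have hA : P.A i P.x0 = 0 := by unfold A; simp
  unfold th
  by_cases h1 : i ∈ P.med F ∧ P.lev F i = l
  · rw [if_pos h1]
    unfold offc
    obtain ⟨hi1, _, hE, _⟩ := P.mem_med.mp h1.1
    rw [if_neg]
    · have hen : ∑ v, P.sm l i v ^ 2 * (1 - P.x0 v ^ 2) ≤ P.e l := by
        refine (P.energy_le l i hF).trans ?_
        have := P.Es_lev_le hE
        rwa [h1.2] at this
      have h3 := P.l0_le_lev hi1 hE
      have h2 := P.φ_reset l i (P.reset_zero P.hx0 hA (P.En_le_l0 hi1 hE) l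
          (by rw [← h1.2]; exact h3) (by rw [h1.2])) hen
      have := mul_le_mul_of_nonneg_left h2 hw.le
      linarith
    · rintro (h2 | h2)
      · have := (P.mem_big.mp h2).2.2
        linarith
      · omega
  · rw [if_neg h1]
    unfold offc
    split_ifs <;> linarith

/-- Split form of the exponents. -/
theorem Th_eq (F : Finset J) (τ : T) (y : J → ℝ) :
    P.Th F τ y = ∑ i ∈ P.med F, P.b τ i (P.lev F i) * (P.w (P.lev F i) * P.φ (P.lev F i) F i y)
      - P.off F τ := by
  classical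
  have h1 : ∀ i, ∑ l ∈ range P.L, P.b τ i l * P.th F i l y
      = (if i ∈ P.med F then
          P.b τ i (P.lev F i) * (P.w (P.lev F i) * P.φ (P.lev F i) F i y) else 0)
        - ∑ l ∈ range P.L, P.b τ i l * P.offc F i l := by
    intro i
    have h2 : ∀ l, P.b τ i l * P.th F i l y
        = (if i ∈ P.med F ∧ P.lev F i = l then P.b τ i l * (P.w l * P.φ l F i y) else 0)
          - P.b τ i l * P.offc F i l := by
      intro l
      unfold th
      split_ifs <;> ring
    rw [Finset.sum_congr rfl fun l _ => h2 l, Finset.sum_sub_distrib]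
    congr 1
    by_cases hi : i ∈ P.med F
    · rw [if_pos hi]
      have h3 : ∀ l ∈ range P.L,
          (if i ∈ P.med F ∧ P.lev F i = l then P.b τ i l * (P.w l * P.φ l F i y) else 0)
          = if P.lev F i = l then P.b τ i l * (P.w l * P.φ l F i y) else 0 := by
        intro l _
        simp only [hi, true_and]
      rw [Finset.sum_congr rfl h3, Finset.sum_ite_eq, if_pos]
      rw [Finset.mem_range]
      exact (P.mem_med.mp hi).2.2.2
    · rw [if_neg hi]
      refine Finset.sum_eq_zero fun l _ => ?_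
      rw [if_neg (fun h => hi h.1)]
  unfold Th off
  rw [Finset.sum_congr rfl fun i _ => h1 i, Finset.sum_sub_distrib]
  congr 1
  exact sum_restrict (P.med F) _ _ (fun i hi => if_pos hi) (fun i hi => if_neg hi)

theorem off_le (F : Finset J) {τ : T} (hτ : τ ∈ P.S) :
    P.off F τ ≤ ∑ l ∈ range P.L, P.w l * P.g l * ∑ i, P.b τ i l := by
  classical
  unfold off
  rw [Finset.sum_comm]
  refine Finset.sum_le_sum fun l _ => ?_
  rw [Finset.mul_sum]
  refine Finset.sum_le_sum fun i _ => ?_
  have h1 : P.offc F i l ≤ P.w l * P.g l := by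
    unfold offc
    have := mul_pos (P.hw l) (P.g_pos l)
    split_ifs <;> linarith
  have := mul_le_mul_of_nonneg_left h1 (P.hb0 τ hτ i l)
  linarith

end Sys

end H167KK
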