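import Pool.Agent.H167R2.KLBlock

/-!
# The block lemma
-/

namespace H167KL

open Finset Real H167BJ H167BK

variable {I J : Type*} [Fintype I] [Fintype J]

/-- Block data. -/
structure Blk (I J : Type*) [Fintype I] [Fintype J] where
  a : I → J → ℝ
  I0 : Finset I
  I1 : Finset I
  t : ℝ
  ht : 1 ≤ t
  M : ℝ
  hM : 1 ≤ M
  a1 : ∀ i j, |a i j| ≤ 1
  col : ∀ j, ∑ i, a i j ^ 2 ≤ t
  s : ℝ
  hs : 1 ≤ s
  hsM : 960 * M ≤ s ^ 4
  τ : I → ℝ
  τ_pos : ∀ i ∈ I1, 0 < τ i
  τ_le : ∀ i ∈ I1, τ i ≤ 1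
  τ_mass : ∀ i ∈ I1, τ i = 1 ∨ ∑ j, a i j ^ 2 ≤ t * (τ i / s) ^ 4

namespace Blk

variable (Q : Blk I J)

/-- The parameter `h`. -/
noncomputable def h : ℝ := Real.sqrt (960 * Q.M)

theorem h_sq : Q.h ^ 2 = 960 * Q.M := Real.sq_sqrt (by linarith [Q.hM])

theorem h_ge : 30 ≤ Q.h := by
  unfold h
  apply Real.le_sqrt_of_sq_le
  linarith [Q.hM]

theorem exists_l0 {i : I} (hi : i ∈ Q.I1) :
    ∃ l : ℕ, (Q.τ i = 1 → l = 0) ∧ (Q.τ i < 1 → (1 / 2 : ℝ) ^ l < 2 * (Q.τ i / Q.s)) ∧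
      (l = 0 ∨ 16 ^ l * ∑ v, Q.a i v ^ 2 ≤ 10 * Q.t) := by
  have h1 := Q.τ_pos i hi
  have h2 := Q.τ_le i hi
  have hs := Q.hs
  have ht := Q.ht
  rcases Q.τ_mass i hi with h | h
  · exact ⟨0, fun _ => rfl, fun h' => absurd h' (by rw [h]; exact lt_irrefl _), Or.inl rfl⟩
  · by_cases h3 : Q.τ i = 1
    · exact ⟨0, fun _ => rfl, fun h' => absurd h' (by rw [h3]; exact lt_irrefl _), Or.inl rfl⟩
    have hτs : 0 < Q.τ i / Q.s := by positivity
    have hτs1 : Q.τ i / Q.s ≤ 1 := by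
      rw [div_le_one (by positivity)]; linarith
    obtain ⟨n, hn1, hn2⟩ := exists_nat_pow_near_of_lt_one hτs hτs1 (by norm_num : (0 : ℝ) < 1 / 2)
      (by norm_num)
    refine ⟨n, fun h' => absurd h' h3, fun _ => ?_, Or.inr ?_⟩
    · rw [pow_succ] at hn1; linarith
    · have h3 : (Q.τ i / Q.s) ^ 4 ≤ ((1 / 2 : ℝ) ^ n) ^ 4 := pow_le_pow_left₀ hτs.le hn2 4
      have h4 : (16 : ℝ) ^ n * ((1 / 2 : ℝ) ^ n) ^ 4 = 1 := by
        rw [← pow_mul, mul_comm n 4, pow_mul, ← mul_pow]; norm_num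
      calc (16 : ℝ) ^ n * ∑ v, Q.a i v ^ 2 ≤ 16 ^ n * (Q.t * ((1 / 2 : ℝ) ^ n) ^ 4) := by
            apply mul_le_mul_of_nonneg_left _ (by positivity)
            exact h.trans (mul_le_mul_of_nonneg_left h3 (by linarith))
        _ = Q.t * (16 ^ n * ((1 / 2 : ℝ) ^ n) ^ 4) := by ring
        _ ≤ 10 * Q.t := by rw [h4]; linarith

open Classical in
noncomputable def l0 (i : I) : ℕ := if hi : i ∈ Q.I1 then (Q.exists_l0 hi).choose else 0

theorem l0_spec {i : I} (hi : i ∈ Q.I1) :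
    (Q.τ i = 1 → Q.l0 i = 0) ∧ (Q.τ i < 1 → (1 / 2 : ℝ) ^ Q.l0 i < 2 * (Q.τ i / Q.s)) ∧
      (Q.l0 i = 0 ∨ 16 ^ Q.l0 i * ∑ v, Q.a i v ^ 2 ≤ 10 * Q.t) := by
  unfold l0
  rw [dif_pos hi]
  exact (Q.exists_l0 hi).choose_spec

theorem exists_L : ∃ L : ℕ, (∀ i ∈ Q.I1, Q.l0 i ≤ L) ∧
    ∀ i v, Q.a i v ≠ 0 → θk Q.t Q.h L < |Q.a i v| := by
  classical
  have h1 : ∀ i v, ∃ L : ℕ, Q.a i v ≠ 0 → θk Q.t Q.h L < |Q.a i v| := by
    intro i v
    by_cases h : Q.a i v = 0
    · exact ⟨0, fun h' => absurd h h'⟩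
    · have h2 : 0 < |Q.a i v| := abs_pos.mpr h
      obtain ⟨n, hn⟩ := θk_tendsto Q.ht Q.h_ge _ h2
      exact ⟨n, fun _ => hn⟩
  choose Lf hLf using h1
  refine ⟨∑ i, ∑ v, Lf i v + ∑ i, Q.l0 i, fun i _ => ?_, fun i v h => ?_⟩
  · have := Finset.single_le_sum (f := Q.l0) (fun i _ => Nat.zero_le _) (Finset.mem_univ i)
    omega
  · refine lt_of_le_of_lt (θk_anti Q.ht Q.h_ge ?_) (hLf i v h)
    have h2 := Finset.single_le_sum (f := fun v => Lf i v) (fun i _ => Nat.zero_le _)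
      (Finset.mem_univ v)
    have h3 := Finset.single_le_sum (f := fun i => ∑ v, Lf i v) (fun i _ => Nat.zero_le _)
      (Finset.mem_univ i)
    omega

noncomputable def L : ℕ := Q.exists_L.choose

open Classical in
/-- The system of a block. -/
noncomputable def sys : Sys I J J where
  a := Q.a
  I0 := Q.I0
  I1 := Q.I1
  t := Q.t
  g0 := 0
  ht := Q.ht
  hg0 := le_rfl
  a1 := Q.a1
  col := Q.col
  x0 := fun _ => 0
  hx0 := fun _ => by simp
  θ := θk Q.t Q.h
  D := dk Q.t Q.h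
  hθ0 := θk_pos Q.ht Q.h_ge
  hθa := θk_anti Q.ht Q.h_ge
  Yl := yk Q.t Q.h
  hYl := yk_ge
  lam := lk Q.t Q.h
  hlam := lk_pos Q.ht
  Rb := rk Q.t Q.h
  hRb := fun k => by unfold rk; positivity
  g := fun k => exp (-Gk k)
  hg := fun k => le_of_eq (by rw [gap Q.ht])
  hθl := lam_small Q.ht Q.h_ge
  hD0 := dk_nonneg Q.ht Q.h_ge
  hθD := dk_spec Q.ht Q.h_ge
  l0 := Q.l0
  hl0 := fun i hi => (Q.l0_spec hi).2.2
  L := Q.L
  hl0L := Q.exists_L.choose_spec.1
  hL := Q.exists_L.choose_spec.2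
  S := Finset.univ
  wt := fun _ => 1
  hwt := fun _ _ => one_pos
  b := fun j i l => (if |Q.a i j| ≤ θk Q.t Q.h l then Q.a i j else 0) ^ 2 / θk Q.t Q.h l ^ 2
  hb0 := by
    intro j _ i l
    positivity
  hb1 := by
    intro j _ i l
    have h1 := θk_pos Q.ht Q.h_ge l
    rw [div_le_one (by positivity)]
    split_ifs with h
    · rw [← sq_abs]; exact pow_le_pow_left₀ (abs_nonneg _) h 2
    · rw [zero_pow two_ne_zero]; positivity
  w := wk Q.t Q.h
  hw := wk_pos Q.ht Q.h_ge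
  N := Fintype.card J
  hN := by
    exact_mod_cast Finset.card_le_univ _
  hwtN := by simp

theorem b_eq (j : J) (i : I) (l : ℕ) :
    Q.sys.b j i l = Q.sys.sm l i j ^ 2 / θk Q.t Q.h l ^ 2 := by
  simp only [sys, Sys.sm]

theorem off_small (F : Finset J) (j : J) : Q.sys.off F j ≤ 96 / 10000 * Q.M := by
  have hM := Q.hM
  have ht := Q.ht
  refine (Q.sys.off_le F (τ := j) (Finset.mem_univ j)).trans ?_
  have h1 : ∀ l ∈ range Q.sys.L, Q.sys.w l * Q.sys.g l * ∑ i, Q.sys.b j i l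
      ≤ 96 * Q.M * (1 / 10000 * (1 / 2) ^ (l + 1)) := by
    intro l _
    have hθ := θk_pos Q.ht Q.h_ge l
    have he := ek_pos Q.ht l
    have h2 : ∑ i, Q.sys.b j i l ≤ Q.t / θk Q.t Q.h l ^ 2 := by
      simp only [Q.b_eq]
      rw [← Finset.sum_div]
      apply div_le_div_of_nonneg_right _ (by positivity)
      exact (Finset.sum_le_sum fun i _ => Q.sys.sm_sq_le l i j).trans (Q.sys.col j)
    have h4 : Q.sys.w l = wk Q.t Q.h l := rfl
    have h4' : Q.sys.g l = exp (-Gk l) := rfl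
    have h5 : 0 < Q.sys.w l * Q.sys.g l := mul_pos (Q.sys.hw l) (Q.sys.g_pos l)
    have h6 := gap_sum l
    have h7 : Q.t / ek Q.t l = 16 ^ l / 10 := by
      unfold ek
      field_simp
    calc Q.sys.w l * Q.sys.g l * ∑ i, Q.sys.b j i l
        ≤ Q.sys.w l * Q.sys.g l * (Q.t / θk Q.t Q.h l ^ 2) := mul_le_mul_of_nonneg_left h2 h5.le
      _ = Q.h ^ 2 * (Q.t / ek Q.t l) * exp (-Gk l) := by
          rw [h4, h4']; unfold wk; field_simp
      _ = 96 * Q.M * ((16 : ℝ) ^ l * exp (-Gk l)) := by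
          rw [h7, Q.h_sq]; ring
      _ ≤ _ := mul_le_mul_of_nonneg_left h6 (by positivity)
  refine (Finset.sum_le_sum h1).trans ?_
  rw [← Finset.mul_sum, ← Finset.mul_sum]
  have h2 : ∑ l ∈ range Q.sys.L, (1 / 2 : ℝ) ^ (l + 1) ≤ 1 := by
    have h3 : ∀ m : ℕ, ∑ l ∈ range m, (1 / 2 : ℝ) ^ (l + 1) = 1 - (1 / 2) ^ m := by
      intro m
      induction m with
      | zero => simp
      | succ m ih => rw [Finset.sum_range_succ, ih, pow_succ]; ring
    rw [h3]
    have : (0 : ℝ) ≤ (1 / 2) ^ Q.sys.L := by positivity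
    linarith
  calc 96 * Q.M * (1 / 10000 * ∑ l ∈ range Q.sys.L, (1 / 2 : ℝ) ^ (l + 1))
      ≤ 96 * Q.M * (1 / 10000 * 1) := by
        apply mul_le_mul_of_nonneg_left _ (by positivity)
        exact mul_le_mul_of_nonneg_left h2 (by norm_num)
    _ = _ := by ring

theorem good (F : Finset J) (hn : 2 * (Fintype.card J : ℝ) * exp (-Q.M) ≤ F.card)
    (y : J → ℝ) (hy : ∀ j, |y j| ≤ 1) (hf : Q.sys.f F y ≤ 2 * Q.sys.N) :
    ∑ i ∈ Q.sys.med F, ek Q.t (Q.sys.lev F i) / (16 * θk Q.t Q.h (Q.sys.lev F i) ^ 2)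
      * Q.sys.W F y i ≤ 101 / 100 * Q.M * F.card := by
  have hM := Q.hM
  -- sum of exponents
  have h1 : ∑ j ∈ F, exp (Q.sys.Th F j y) ≤ 2 * (Fintype.card J : ℝ) := by
    have h2 : ∑ j ∈ F, exp (Q.sys.Th F j y) ≤ ∑ j, exp (Q.sys.Th F j y) :=
      Finset.sum_le_sum_of_subset_of_nonneg (Finset.subset_univ _) (fun _ _ _ => (exp_pos _).le)
    have h3 : 0 ≤ ∑ j, (1 - y j ^ 2) := by
      refine Finset.sum_nonneg fun j _ => ?_
      have := hy j
      have h3 : y j ^ 2 ≤ 1 := by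
        rw [← sq_abs]; nlinarith [abs_nonneg (y j)]
      linarith
    have h4 : Q.sys.f F y = ∑ j, exp (Q.sys.Th F j y) + ∑ j, (1 - y j ^ 2) := by
      unfold Sys.f
      simp only [sys, one_mul]
    have h5 : Q.sys.N = Fintype.card J := rfl
    rw [h4, h5] at hf
    linarith
  have h2 : ∑ j ∈ F, Q.sys.Th F j y ≤ Q.M * F.card := by
    have h3 : ∀ j ∈ F, exp Q.M * (1 + Q.sys.Th F j y - Q.M)
        ≤ exp (Q.sys.Th F j y) := by
      intro j _
      have h4 := Real.add_one_le_exp (Q.sys.Th F j y - Q.M)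
      have h5 : exp (Q.sys.Th F j y) = exp Q.M * exp (Q.sys.Th F j y - Q.M) := by
        rw [← exp_add]; congr 1; ring
      rw [h5]
      apply mul_le_mul_of_nonneg_left _ (exp_pos _).le
      linarith
    have h4 := Finset.sum_le_sum h3
    rw [← Finset.mul_sum, Finset.sum_sub_distrib, Finset.sum_add_distrib, Finset.sum_const,
      Finset.sum_const, nsmul_eq_mul, nsmul_eq_mul, mul_one] at h4
    have h5 : 2 * (Fintype.card J : ℝ) ≤ exp Q.M * F.card := by
      have h6 := mul_le_mul_of_nonneg_left hn (exp_pos Q.M).le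
      refine le_trans (le_of_eq ?_) h6
      rw [exp_neg]
      have := (exp_pos Q.M).ne'
      field_simp
    have h6 : exp Q.M * ((F.card : ℝ) + ∑ j ∈ F, Q.sys.Th F j y
        - F.card * Q.M) ≤ exp Q.M * F.card := by linarith
    have h7 := le_of_mul_le_mul_left h6 (exp_pos _)
    linarith
  -- rows
  have h3 : ∑ j ∈ F, ∑ i ∈ Q.sys.med F, Q.sys.b j i (Q.sys.lev F i) * Q.sys.W F y i
      ≤ 101 / 100 * Q.M * F.card := by
    have h4 : ∑ j ∈ F, ∑ i ∈ Q.sys.med F, Q.sys.b j i (Q.sys.lev F i) * Q.sys.W F y i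
        = ∑ j ∈ F, Q.sys.Th F j y + ∑ j ∈ F, Q.sys.off F j := by
      rw [← Finset.sum_add_distrib]
      refine Finset.sum_congr rfl fun j _ => ?_
      rw [Q.sys.Th_eq]
      unfold Sys.W
      ring
    have h5 : ∑ j ∈ F, Q.sys.off F j ≤ 96 / 10000 * Q.M * F.card := by
      have := Finset.sum_le_sum (s := F) fun j _ => Q.off_small F j
      rw [Finset.sum_const, nsmul_eq_mul] at this
      linarith
    have h6 : 0 ≤ Q.M * (F.card : ℝ) := by positivity
    rw [h4]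
    linarith
  refine le_trans ?_ h3
  rw [Finset.sum_comm]
  refine Finset.sum_le_sum fun i hi => ?_
  rw [← Finset.sum_mul]
  apply mul_le_mul_of_nonneg_right _ (Q.sys.W_pos F y i).le
  have h4 := Q.sys.lt_Es (Q.sys.mem_med.mp hi).2.2.2
  have hθ := θk_pos Q.ht Q.h_ge (Q.sys.lev F i)
  have h5 : ∑ j ∈ F, Q.sys.b j i (Q.sys.lev F i)
      = Q.sys.Es (Q.sys.lev F i) F i / θk Q.t Q.h (Q.sys.lev F i) ^ 2 := by
    unfold Sys.Es
    rw [Finset.sum_div]
    exact Finset.sum_congr rfl fun j _ => Q.b_eq j i _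
  rw [h5]
  have h6 : Q.sys.e (Q.sys.lev F i + 1) = ek Q.t (Q.sys.lev F i) / 16 := by
    rw [← ek_succ]
    rfl
  rw [h6] at h4
  rw [← div_div]
  exact div_le_div_of_nonneg_right h4.le (by positivity)

/-- The cost bound. -/
noncomputable def C0 : ℝ :=
  520 * Real.sqrt Q.t + 753 * Q.h * (1 + Real.log Q.t) ^ (3 / 2 : ℝ)

theorem Bd_le {i : I} (hi : i ∈ Q.I1) : Q.sys.Bd Q.sys.L i ≤ Q.C0 * Q.τ i := by
  have ht := Q.ht
  have hh := Q.h_ge
  have hst : 0 ≤ Real.sqrt Q.t := Real.sqrt_nonneg _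
  have hlog : 0 ≤ Real.log Q.t := Real.log_nonneg ht
  have hpow : 0 ≤ (1 + Real.log Q.t) ^ (3 / 2 : ℝ) := by positivity
  have hτ := Q.τ_pos i hi
  obtain ⟨h1, h2, -⟩ := Q.l0_spec hi
  have hTp : ∀ K, Q.sys.Tp K = ∑ k ∈ range K, (4 * dk Q.t Q.h k + rk Q.t Q.h k) := fun K => rfl
  have hl0 : Q.sys.l0 i = Q.l0 i := rfl
  unfold Sys.Bd
  rw [hTp, hTp, hl0]
  rcases (Q.τ_le i hi).eq_or_lt with h | h
  · rw [h1 h, h, mul_one, Finset.range_zero, Finset.sum_empty, sub_zero]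
    refine (total ht hh _).trans ?_
    unfold C0
    linarith
  · have h3 : Q.l0 i ≤ Q.sys.L + 1 := (Q.sys.hl0L i hi).trans (Nat.le_succ _)
    have h4 : ∑ k ∈ range (Q.sys.L + 1), (4 * dk Q.t Q.h k + rk Q.t Q.h k)
        - ∑ k ∈ range (Q.l0 i), (4 * dk Q.t Q.h k + rk Q.t Q.h k)
        = ∑ k ∈ Finset.Ico (Q.l0 i) (Q.sys.L + 1), (4 * dk Q.t Q.h k + rk Q.t Q.h k) := by
      rw [← Finset.sum_range_add_sum_Ico _ h3]; ring
    rw [h4]
    refine (tail_cost ht hh _ _ h3).trans ?_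
    have h5 := h2 h
    have hsh : Real.sqrt Q.h ≤ Q.s := by
      have h6 : Real.sqrt Q.h ^ 4 ≤ Q.s ^ 4 := by
        have h7 : Real.sqrt Q.h ^ 4 = Q.h ^ 2 := by
          have h8 : Real.sqrt Q.h ^ 2 = Q.h := Real.sq_sqrt (by linarith)
          calc Real.sqrt Q.h ^ 4 = (Real.sqrt Q.h ^ 2) ^ 2 := by ring
            _ = Q.h ^ 2 := by rw [h8]
        rw [h7, Q.h_sq]
        exact Q.hsM
      exact le_of_pow_le_pow_left₀ (by norm_num) (by linarith [Q.hs]) h6
    have hs := Q.hs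
    have h6 : Real.sqrt Q.h * (1 / 2) ^ Q.l0 i ≤ 2 * Q.τ i := by
      calc Real.sqrt Q.h * (1 / 2) ^ Q.l0 i ≤ Q.s * (2 * (Q.τ i / Q.s)) :=
            mul_le_mul hsh h5.le (by positivity) (by linarith)
        _ = 2 * Q.τ i := by field_simp
    calc 260 * Real.sqrt Q.h * Real.sqrt Q.t * (1 / 2) ^ Q.l0 i
        = 260 * Real.sqrt Q.t * (Real.sqrt Q.h * (1 / 2) ^ Q.l0 i) := by ring
      _ ≤ 260 * Real.sqrt Q.t * (2 * Q.τ i) := mul_le_mul_of_nonneg_left h6 (by positivity)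
      _ = 520 * Real.sqrt Q.t * Q.τ i := by ring
      _ ≤ Q.C0 * Q.τ i := by
          apply mul_le_mul_of_nonneg_right _ hτ.le
          unfold C0
          have : 0 ≤ 753 * Q.h * (1 + Real.log Q.t) ^ (3 / 2 : ℝ) := by positivity
          linarith

/-- **Block lemma.** -/
theorem block : ∃ x : J → ℝ, (∀ j, |x j| ≤ 1) ∧ (∀ i ∈ Q.I0, ∑ j, Q.a i j * x j = 0) ∧
    (∀ i ∈ Q.I1, |∑ j, Q.a i j * x j| ≤ Q.C0 * Q.τ i) ∧
    ((H167FK.Sys.alive x).card : ℝ) ≤ 20 * Q.I0.card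
      + 2 * (Fintype.card J : ℝ) * exp (-Q.M) := by
  classical
  have hM := Q.hM
  have hex : ∃ k : ℕ, ∃ x : J → ℝ, Q.sys.Inv x ∧ (H167FK.Sys.alive x).card = k :=
    ⟨_, _, Q.sys.inv_base, rfl⟩
  obtain ⟨x, hx, hxk⟩ := Nat.find_spec hex
  have hAx : ∀ i, Q.sys.A i x = ∑ j, Q.a i j * x j := by
    intro i
    unfold Sys.A
    simp only [sys, sub_zero]
  refine ⟨x, hx.box, fun i hi => ?_, fun i hi => ?_, ?_⟩
  · rw [← hAx]; exact hx.zero i hi
  · rw [← hAx]
    have h1 := hx.rows' hi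
    have h2 : Q.sys.g0 = 0 := rfl
    rw [h2, mul_zero, add_zero] at h1
    exact h1.trans (Q.Bd_le hi)
  · by_contra hcon
    push Not at hcon
    set F := H167FK.Sys.alive x with hF
    have hexp : 0 < exp (-Q.M) := exp_pos _
    have hI0n : (0 : ℝ) ≤ Q.I0.card := Nat.cast_nonneg _
    have hJn : (0 : ℝ) ≤ 2 * (Fintype.card J : ℝ) * exp (-Q.M) := by positivity
    have hn : 0 < F.card := by
      have : (0 : ℝ) < F.card := by linarith
      exact_mod_cast this
    have hnR : (0 : ℝ) < F.card := by exact_mod_cast hn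
    obtain ⟨y, hy, hyc⟩ := Q.sys.step x hx F hn (Finset.Subset.refl _)
      (fun i _ _ v hv _ => hv) (by
        have : (Q.sys.I0.card : ℝ) = Q.I0.card := rfl
        rw [this]; linarith)
      (by
        intro y hy1 hy2
        have hg := Q.good F (by linarith) y hy1 hy2
        constructor
        · have h1 : ∑ i ∈ Q.sys.R F F, Q.h ^ 2 / 16 * (Q.sys.W F y i / Q.sys.Yl (Q.sys.lev F i))
              ≤ ∑ i ∈ Q.sys.med F, ek Q.t (Q.sys.lev F i)
                / (16 * θk Q.t Q.h (Q.sys.lev F i) ^ 2) * Q.sys.W F y i := by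
            refine (Finset.sum_le_sum_of_subset_of_nonneg (f := fun i =>
              Q.h ^ 2 / 16 * (Q.sys.W F y i / Q.sys.Yl (Q.sys.lev F i)))
              (Finset.filter_subset _ _) (fun i _ _ => ?_)).trans
              (Finset.sum_le_sum fun i _ => ?_)
            · have h2 := Q.sys.W_pos F y i
              have h3 := Q.sys.Y_pos (Q.sys.lev F i)
              positivity
            · have h2 := Q.sys.W_pos F y i
              have h3 : 0 < wk Q.t Q.h (Q.sys.lev F i) := wk_pos Q.ht Q.h_ge _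
              have h4 : wk Q.t Q.h (Q.sys.lev F i) ≤ Q.sys.Yl (Q.sys.lev F i) := wk_le_yk _
              have hθ := θk_pos Q.ht Q.h_ge (Q.sys.lev F i)
              have he := ek_pos Q.ht (Q.sys.lev F i)
              have hh := Q.h_ge
              have h5 : Q.sys.W F y i / Q.sys.Yl (Q.sys.lev F i)
                  ≤ Q.sys.W F y i / wk Q.t Q.h (Q.sys.lev F i) :=
                div_le_div_of_nonneg_left h2.le h3 h4
              calc Q.h ^ 2 / 16 * (Q.sys.W F y i / Q.sys.Yl (Q.sys.lev F i))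
                  ≤ Q.h ^ 2 / 16 * (Q.sys.W F y i / wk Q.t Q.h (Q.sys.lev F i)) :=
                    mul_le_mul_of_nonneg_left h5 (by positivity)
                _ = _ := by
                    unfold wk
                    field_simp
          rw [← Finset.mul_sum] at h1
          have h2 := h1.trans hg
          rw [Q.h_sq] at h2
          have h3 : Q.M * (60 * ∑ i ∈ Q.sys.R F F, Q.sys.W F y i / Q.sys.Yl (Q.sys.lev F i))
              ≤ Q.M * (101 / 100 * F.card) := by linarith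
          have h4 := le_of_mul_le_mul_left h3 (by linarith)
          linarith
        · intro Tt hTt
          have h1 : ∑ i ∈ Tt, 30 * Q.M
              ≤ ∑ i ∈ Q.sys.med F, ek Q.t (Q.sys.lev F i)
                / (16 * θk Q.t Q.h (Q.sys.lev F i) ^ 2) * Q.sys.W F y i := by
            have hsub : Tt ⊆ Q.sys.med F := fun i hi =>
              Finset.filter_subset _ _ (hTt i hi).1
            refine (Finset.sum_le_sum fun i hi => ?_).trans
              (Finset.sum_le_sum_of_subset_of_nonneg hsub (f := fun i =>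
              ek Q.t (Q.sys.lev F i) / (16 * θk Q.t Q.h (Q.sys.lev F i) ^ 2) * Q.sys.W F y i)
              (fun i _ _ => ?_))
            · have h2 := Q.sys.tight_le (Q.sys.lev F i) i hy1 (hTt i hi).2
              have h3 : Q.sys.W F y i = wk Q.t Q.h (Q.sys.lev F i)
                  * Q.sys.φ (Q.sys.lev F i) F i y := rfl
              have hθ := θk_pos Q.ht Q.h_ge (Q.sys.lev F i)
              have he := ek_pos Q.ht (Q.sys.lev F i)
              have h4 : ek Q.t (Q.sys.lev F i) / (16 * θk Q.t Q.h (Q.sys.lev F i) ^ 2)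
                  * wk Q.t Q.h (Q.sys.lev F i) = 60 * Q.M := by
                unfold wk
                rw [Q.h_sq]
                field_simp
                norm_num
              rw [h3, ← mul_assoc, h4]
              nlinarith
            · have h2 := Q.sys.W_pos F y i
              have hθ := θk_pos Q.ht Q.h_ge (Q.sys.lev F i)
              have he := ek_pos Q.ht (Q.sys.lev F i)
              positivity
          rw [Finset.sum_const, nsmul_eq_mul] at h1
          have h2 := h1.trans hg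
          have h3 : Q.M * (20 * (Tt.card : ℝ)) ≤ Q.M * (F.card : ℝ) := by
            have h4 : 0 ≤ Q.M * (F.card : ℝ) := by positivity
            linarith
          exact le_of_mul_le_mul_left h3 (by positivity))
      (by
        intro i hi
        obtain ⟨v, hv, hv2⟩ := (Finset.mem_filter.mp hi).2
        refine ⟨v, Finset.mem_univ v, ?_⟩
        rw [Q.b_eq]
        have hθ := θk_pos Q.ht Q.h_ge (Q.sys.lev F i)
        have h1 : 0 < Q.sys.sm (Q.sys.lev F i) i v ^ 2 := by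
          have : Q.sys.sm (Q.sys.lev F i) i v ≠ 0 := hv2
          positivity
        positivity)
    exact Nat.find_min hex (m := (H167FK.Sys.alive y).card) (by rw [← hxk]; exact hyc) ⟨y, hy, rfl⟩

end Blk

end H167KL
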