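import Pool.Agent.H167R2.KLProc

/-!
# The block lemma with level dependent coupling
-/

namespace H167KL

open Finset Real H167BJ H167BK

variable {I J : Type*} [Fintype I] [Fintype J]

/-! ### Parameters -/

/-- Energy scales. -/
noncomputable def ek (t : ℝ) (k : ℕ) : ℝ := 10 * t / 16 ^ k

/-- Gaps. -/
noncomputable def Gk (k : ℕ) : ℝ := 10 + 4 * k

/-- Square of the uncapped cutoff. -/
noncomputable def qk (t h : ℝ) (k : ℕ) : ℝ := ek t k / (8 * h * Gk k)

/-- Cutoffs. -/
noncomputable def θk (t h : ℝ) (k : ℕ) : ℝ := min 1 (Real.sqrt (qk t h k))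

/-- Weights. -/
noncomputable def wk (t h : ℝ) (k : ℕ) : ℝ := h ^ 2 * θk t h k ^ 2 / ek t k

/-- Coupling parameters. -/
noncomputable def yk (t h : ℝ) (k : ℕ) : ℝ := max 1 (wk t h k)

/-- Reset budgets. -/
noncomputable def rk (t h : ℝ) (k : ℕ) : ℝ := 4 * Real.sqrt (yk t h k * ek t k * Gk k)

/-- Exponents. -/
noncomputable def lk (t h : ℝ) (k : ℕ) : ℝ :=
  Real.sqrt (Gk k) / (2 * Real.sqrt (yk t h k * ek t k))

/-- Dropped masses. -/
noncomputable def dk (t h : ℝ) (k : ℕ) : ℝ := if 1 ≤ θk t h k then 0 else ek t k / θk t h k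

section params

variable {t h : ℝ} (ht : 1 ≤ t) (hh : 30 ≤ h)

theorem Gk_ge (k : ℕ) : 10 ≤ Gk k := by
  unfold Gk
  have : (0 : ℝ) ≤ k := Nat.cast_nonneg k
  linarith

theorem Gk_succ (k : ℕ) : Gk (k + 1) = Gk k + 4 := by
  unfold Gk; push_cast; ring

theorem Gk_mono {k k' : ℕ} (h : k ≤ k') : Gk k ≤ Gk k' := by
  unfold Gk
  have : (k : ℝ) ≤ k' := by exact_mod_cast h
  linarith

include ht in
theorem ek_pos (k : ℕ) : 0 < ek t k := by unfold ek; positivity

include ht in
theorem ek_anti {k k' : ℕ} (h : k ≤ k') : ek t k' ≤ ek t k := by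
  unfold ek
  apply div_le_div_of_nonneg_left (by linarith) (by positivity)
  exact pow_le_pow_right₀ (by norm_num) h

theorem ek_succ (k : ℕ) : ek t (k + 1) = ek t k / 16 := by
  unfold ek
  rw [pow_succ]
  field_simp

include ht hh in
theorem qk_pos (k : ℕ) : 0 < qk t h k := by
  have h1 := ek_pos ht k
  have h2 := Gk_ge k
  unfold qk
  positivity

include ht hh in
theorem qk_anti {k k' : ℕ} (hk : k ≤ k') : qk t h k' ≤ qk t h k := by
  have h1 := ek_pos ht k
  have h2 := Gk_ge k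
  have h3 := Gk_mono hk
  unfold qk
  apply div_le_div₀ h1.le (ek_anti ht hk) (by positivity)
  apply mul_le_mul_of_nonneg_left h3 (by positivity)

include ht hh in
theorem θk_pos (k : ℕ) : 0 < θk t h k := by
  unfold θk
  exact lt_min one_pos (Real.sqrt_pos.mpr (qk_pos ht hh k))

theorem θk_le_one (k : ℕ) : θk t h k ≤ 1 := min_le_left _ _

include ht hh in
theorem θk_anti : Antitone (θk t h) := by
  intro k k' hk
  unfold θk
  exact min_le_min le_rfl (Real.sqrt_le_sqrt (qk_anti ht hh hk))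

include ht hh in
theorem θk_sq_le (k : ℕ) : θk t h k ^ 2 ≤ qk t h k := by
  have h1 : θk t h k ≤ Real.sqrt (qk t h k) := min_le_right _ _
  calc θk t h k ^ 2 ≤ Real.sqrt (qk t h k) ^ 2 :=
        pow_le_pow_left₀ (θk_pos ht hh k).le h1 2
    _ = qk t h k := Real.sq_sqrt (qk_pos ht hh k).le

include ht hh in
theorem θk_sq_eq {k : ℕ} (hk : θk t h k < 1) : θk t h k ^ 2 = qk t h k := by
  have h1 : θk t h k = Real.sqrt (qk t h k) := by
    unfold θk at hk ⊢
    rcases min_choice 1 (Real.sqrt (qk t h k)) with h | h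
    · rw [h] at hk; exact absurd hk (lt_irrefl _)
    · exact h
  rw [h1]
  exact Real.sq_sqrt (qk_pos ht hh k).le

include ht hh in
theorem wk_pos (k : ℕ) : 0 < wk t h k := by
  have h1 := ek_pos ht k
  have h2 := θk_pos ht hh k
  unfold wk
  positivity

theorem yk_ge (k : ℕ) : 1 ≤ yk t h k := le_max_left _ _

theorem wk_le_yk (k : ℕ) : wk t h k ≤ yk t h k := le_max_right _ _

include ht in
theorem ye_pos (k : ℕ) : 0 < yk t h k * ek t k :=
  mul_pos (by linarith [yk_ge (t := t) (h := h) k]) (ek_pos ht k)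

include ht in
theorem lk_pos (k : ℕ) : 0 < lk t h k := by
  have h1 := ye_pos (h := h) ht k
  have h2 := Gk_ge k
  unfold lk
  have h3 : 0 < Real.sqrt (Gk k) := Real.sqrt_pos.mpr (by linarith)
  have h4 : 0 < Real.sqrt (yk t h k * ek t k) := Real.sqrt_pos.mpr h1
  positivity

include ht in
theorem gap (k : ℕ) :
    4 * lk t h k ^ 2 * (yk t h k * (10 * t / 16 ^ k)) - lk t h k * rk t h k = -Gk k := by
  have h1 := ye_pos (h := h) ht k
  have h2 := Gk_ge k
  have h3 : 0 < Real.sqrt (yk t h k * ek t k) := Real.sqrt_pos.mpr h1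
  have e1 : (10 * t / 16 ^ k) = ek t k := rfl
  rw [e1]
  have e2 : rk t h k = 4 * (Real.sqrt (yk t h k * ek t k) * Real.sqrt (Gk k)) := by
    unfold rk
    rw [Real.sqrt_mul h1.le]
  have e3 : Real.sqrt (Gk k) * Real.sqrt (Gk k) = Gk k := Real.mul_self_sqrt (by linarith)
  have e4 : Real.sqrt (yk t h k * ek t k) ^ 2 = yk t h k * ek t k := Real.sq_sqrt h1.le
  have e5 : lk t h k ^ 2 = Gk k / (4 * (yk t h k * ek t k)) := by
    unfold lk
    rw [div_pow, mul_pow, e4, pow_two (Real.sqrt (Gk k)), e3]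
    norm_num
  have e6 : lk t h k * rk t h k = 2 * Gk k := by
    rw [e2]
    unfold lk
    have h5 : Real.sqrt (yk t h k * ek t k) ≠ 0 := h3.ne'
    calc Real.sqrt (Gk k) / (2 * Real.sqrt (yk t h k * ek t k))
          * (4 * (Real.sqrt (yk t h k * ek t k) * Real.sqrt (Gk k)))
        = 2 * (Real.sqrt (Gk k) * Real.sqrt (Gk k)) := by
          field_simp
          ring
      _ = 2 * Gk k := by rw [e3]
  rw [e5, e6]
  have h5 : yk t h k * ek t k ≠ 0 := h1.ne'
  have e7 : ∀ X : ℝ, X ≠ 0 → 4 * (Gk k / (4 * X)) * X = Gk k := fun X hX => by field_simp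
  rw [e7 _ h5]
  ring

include ht hh in
theorem lam_small (k : ℕ) : lk t h k * yk t h k * min 1 (θk t h k) ≤ 1 / 16 := by
  have h1 := ye_pos (h := h) ht k
  have h2 := Gk_ge k
  have h3 : 0 < Real.sqrt (yk t h k * ek t k) := Real.sqrt_pos.mpr h1
  have h4 := θk_pos ht hh k
  have h5 := yk_ge (t := t) (h := h) k
  have h6 := ek_pos ht k
  have hY0 : 0 < yk t h k := by linarith
  rw [min_eq_right (θk_le_one k)]
  -- square
  have key : Gk k * yk t h k * θk t h k ^ 2 ≤ ek t k / 64 := by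
    have h7 := θk_sq_le ht hh k
    unfold qk at h7
    rw [le_div_iff₀ (by positivity)] at h7
    unfold yk
    rcases max_choice 1 (wk t h k) with h8 | h8
    · rw [h8]
      nlinarith [sq_nonneg (θk t h k)]
    · rw [h8]
      unfold wk
      have h9 : Gk k * (h ^ 2 * θk t h k ^ 2 / ek t k) * θk t h k ^ 2
          = (θk t h k ^ 2 * (8 * h * Gk k)) ^ 2 / (64 * Gk k * ek t k) := by
        field_simp
        ring
      rw [h9, div_le_div_iff₀ (by positivity) (by norm_num)]
      have h10 : (θk t h k ^ 2 * (8 * h * Gk k)) ^ 2 ≤ ek t k ^ 2 :=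
        pow_le_pow_left₀ (by positivity) h7 2
      have h11 : ek t k ^ 2 * 64 ≤ ek t k * (64 * Gk k * ek t k) := by
        have : ek t k * (64 * Gk k * ek t k) = ek t k ^ 2 * 64 * Gk k := by ring
        rw [this]
        have h12 : 0 ≤ ek t k ^ 2 * 64 := by positivity
        nlinarith
      linarith [mul_le_mul_of_nonneg_right h10 (by norm_num : (0 : ℝ) ≤ 64)]
  have hsq : (lk t h k * yk t h k * θk t h k) ^ 2 ≤ (1 / 16) ^ 2 := by
    have e4 : Real.sqrt (yk t h k * ek t k) ^ 2 = yk t h k * ek t k := Real.sq_sqrt h1.le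
    have e5 : lk t h k ^ 2 = Gk k / (4 * (yk t h k * ek t k)) := by
      unfold lk
      rw [div_pow, mul_pow, e4, Real.sq_sqrt (by linarith)]
      norm_num
    calc (lk t h k * yk t h k * θk t h k) ^ 2
        = lk t h k ^ 2 * yk t h k ^ 2 * θk t h k ^ 2 := by ring
      _ = (Gk k * yk t h k * θk t h k ^ 2) / (4 * ek t k) := by
          rw [e5]
          field_simp
      _ ≤ (ek t k / 64) / (4 * ek t k) := by
          apply div_le_div_of_nonneg_right key (by positivity)
      _ = (1 / 16) ^ 2 := by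
          field_simp
          norm_num
  have h7 := lk_pos (h := h) ht k
  exact le_of_sq_le_sq hsq (by norm_num)
where
  le_of_sq_le_sq {x y : ℝ} (h : x ^ 2 ≤ y ^ 2) (hy : 0 ≤ y) : x ≤ y := by
    nlinarith [sq_nonneg (x - y), sq_nonneg (x + y), abs_le_of_sq_le_sq h hy, le_abs_self x]

include ht hh in
theorem dk_nonneg (k : ℕ) : 0 ≤ dk t h k := by
  have h1 := ek_pos ht k
  have h2 := θk_pos ht hh k
  unfold dk
  split_ifs <;> positivity

include ht hh in
theorem dk_spec (k : ℕ) : 1 ≤ θk t h k ∨ 10 * t ≤ 16 ^ k * (dk t h k * θk t h k) := by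
  have h2 := θk_pos ht hh k
  by_cases h : 1 ≤ θk t h k
  · exact Or.inl h
  · right
    unfold dk
    rw [if_neg h, div_mul_cancel₀ _ h2.ne']
    unfold ek
    rw [mul_div_cancel₀]
    positivity

/-! ### Sums of budgets -/

/-- Geometric scale. -/
noncomputable def xk (t : ℝ) (k : ℕ) : ℝ := Real.sqrt (ek t k * Gk k)

include ht in
theorem xk_succ (k : ℕ) : xk t (k + 1) ≤ xk t k / 2 := by
  have h1 := ek_pos ht k
  have h2 := Gk_ge k
  unfold xk
  have h3 : Real.sqrt (ek t k * Gk k) / 2 = Real.sqrt (ek t k * Gk k / 4) := by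
    rw [Real.sqrt_div (by positivity)]
    congr 1
    rw [show (4 : ℝ) = 2 ^ 2 by norm_num, Real.sqrt_sq (by norm_num)]
  rw [h3]
  apply Real.sqrt_le_sqrt
  rw [ek_succ, Gk_succ]
  have h4 : ek t k * (Gk k + 4) ≤ ek t k * (4 * Gk k) :=
    mul_le_mul_of_nonneg_left (by linarith) h1.le
  linarith

theorem xk_nonneg (k : ℕ) : 0 ≤ xk t k := Real.sqrt_nonneg _

theorem xk_zero : xk t 0 = 10 * Real.sqrt t := by
  unfold xk ek Gk
  simp only [pow_zero, div_one, Nat.cast_zero, mul_zero, add_zero]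
  rw [show 10 * t * 10 = 10 ^ 2 * t by ring, Real.sqrt_mul (by norm_num),
    Real.sqrt_sq (by norm_num)]

include ht in
theorem xk_le (k : ℕ) : xk t k ≤ 10 * Real.sqrt t * (1 / 2) ^ k := by
  induction k with
  | zero => rw [xk_zero]; simp
  | succ k ih =>
    have := xk_succ ht k
    rw [pow_succ]
    linarith

include ht in
/-- Tails of the geometric scale. -/
theorem xk_sum (k1 : ℕ) : ∀ K, k1 ≤ K → ∑ k ∈ Finset.Ico k1 K, xk t k + 2 * xk t K ≤ 2 * xk t k1 := by
  intro K hK
  induction K, hK using Nat.le_induction with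
  | base => simp
  | succ K hK ih =>
    rw [Finset.sum_Ico_succ_top hK]
    have := xk_succ ht K
    linarith

include ht hh in
/-- Cost of a level, crude form. -/
theorem cost_le (k : ℕ) : 4 * dk t h k + rk t h k ≤ 13 * Real.sqrt h * xk t k := by
  have he := ek_pos ht k
  have hG := Gk_ge k
  have hθ := θk_pos ht hh k
  have hx := xk_nonneg (t := t) k
  have hs0 : 0 ≤ h := by linarith
  have hsh : 5 ≤ Real.sqrt h := by
    apply Real.le_sqrt_of_sq_le; linarith
  have hsh2 : Real.sqrt h ^ 2 = h := Real.sq_sqrt hs0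
  have hx2 : xk t k ^ 2 = ek t k * Gk k := by
    unfold xk; exact Real.sq_sqrt (by positivity)
  -- budgets
  have hr : rk t h k ≤ 6 / 5 * Real.sqrt h * xk t k := by
    have h1 : yk t h k * ek t k * Gk k ≤ (3 / 10 * Real.sqrt h * xk t k) ^ 2 := by
      rw [mul_pow, mul_pow, hsh2, hx2]
      unfold yk
      rcases max_choice 1 (wk t h k) with h8 | h8
      · rw [h8]
        have h9 : 0 < ek t k * Gk k := by positivity
        nlinarith
      · rw [h8]
        unfold wk
        have h9 := θk_sq_le ht hh k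
        unfold qk at h9
        rw [le_div_iff₀ (by positivity)] at h9
        have h10 : h ^ 2 * θk t h k ^ 2 / ek t k * ek t k * Gk k
            = h / 8 * (θk t h k ^ 2 * (8 * h * Gk k)) := by
          field_simp
        rw [h10]
        have h11 : h / 8 * (θk t h k ^ 2 * (8 * h * Gk k)) ≤ h / 8 * ek t k :=
          mul_le_mul_of_nonneg_left h9 (by positivity)
        have h12 : h / 8 * ek t k ≤ (3 / 10) ^ 2 * h * (ek t k * Gk k) := by
          have h13 : 0 < h * ek t k := by positivity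
          have h14 : (3 / 10) ^ 2 * h * (ek t k * Gk k) = (h * ek t k) * ((9 / 100) * Gk k) := by
            ring
          rw [h14]
          have h15 : h / 8 * ek t k = (h * ek t k) * (1 / 8) := by ring
          rw [h15]
          apply mul_le_mul_of_nonneg_left _ h13.le
          linarith
        linarith
    unfold rk
    have h2 := Real.sqrt_le_sqrt h1
    rw [Real.sqrt_sq (by positivity)] at h2
    linarith
  -- dropped masses
  have hd : dk t h k ≤ 29 / 10 * Real.sqrt h * xk t k := by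
    unfold dk
    split_ifs with h1
    · positivity
    · push Not at h1
      have h2 := θk_sq_eq ht hh h1
      unfold qk at h2
      rw [div_le_iff₀ hθ]
      have h3 : ek t k ^ 2 ≤ (29 / 10 * Real.sqrt h * xk t k * θk t h k) ^ 2 := by
        rw [mul_pow, mul_pow, mul_pow, hsh2, hx2, h2]
        have h4 : (29 / 10) ^ 2 * h * (ek t k * Gk k) * (ek t k / (8 * h * Gk k))
            = (29 / 10) ^ 2 / 8 * ek t k ^ 2 := by
          field_simp
        rw [h4]
        nlinarith [sq_nonneg (ek t k)]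
      exact le_of_sq_le_sq' h3 (by positivity)
  nlinarith [mul_nonneg (Real.sqrt_nonneg h) hx]
where
  le_of_sq_le_sq' {x y : ℝ} (h : x ^ 2 ≤ y ^ 2) (hy : 0 ≤ y) : x ≤ y := by
    nlinarith [abs_le_of_sq_le_sq h hy, le_abs_self x]

include ht hh in
/-- Cost of a level without dropping. -/
theorem cost_le_one (k : ℕ) (hk : 1 ≤ θk t h k) :
    4 * dk t h k + rk t h k ≤ 4 * xk t k + 4 * h * Real.sqrt (Gk k) := by
  have he := ek_pos ht k
  have hG := Gk_ge k
  have hθ1 : θk t h k = 1 := le_antisymm (θk_le_one k) hk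
  have hd : dk t h k = 0 := by unfold dk; rw [if_pos hk]
  rw [hd, mul_zero, zero_add]
  unfold rk
  have h1 : yk t h k * ek t k * Gk k ≤ (xk t k + h * Real.sqrt (Gk k)) ^ 2 := by
    have hx2 : xk t k ^ 2 = ek t k * Gk k := by
      unfold xk; exact Real.sq_sqrt (by positivity)
    have hG2 : Real.sqrt (Gk k) ^ 2 = Gk k := Real.sq_sqrt (by linarith)
    have h2 : (xk t k + h * Real.sqrt (Gk k)) ^ 2
        = ek t k * Gk k + h ^ 2 * Gk k + 2 * (xk t k * (h * Real.sqrt (Gk k))) := by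
      rw [add_sq, hx2, mul_pow, hG2]; ring
    rw [h2]
    have h3 : 0 ≤ xk t k * (h * Real.sqrt (Gk k)) := by
      have := xk_nonneg (t := t) k
      positivity
    unfold yk
    rcases max_choice 1 (wk t h k) with h8 | h8
    · rw [h8]
      have : 0 ≤ h ^ 2 * Gk k := by positivity
      linarith
    · rw [h8]
      unfold wk
      rw [hθ1]
      have h9 : h ^ 2 * 1 ^ 2 / ek t k * ek t k * Gk k = h ^ 2 * Gk k := by
        field_simp
      rw [h9]
      have : 0 ≤ ek t k * Gk k := by positivity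
      linarith
  have h2 := Real.sqrt_le_sqrt h1
  have h3 : 0 ≤ xk t k + h * Real.sqrt (Gk k) := by
    have := xk_nonneg (t := t) k
    positivity
  rw [Real.sqrt_sq h3] at h2
  linarith

include ht hh in
theorem θk_tendsto (c : ℝ) (hc : 0 < c) : ∃ k, θk t h k < c := by
  obtain ⟨n, hn⟩ := exists_pow_lt_of_lt_one (show 0 < c ^ 2 / (10 * t) by positivity)
    (by norm_num : (1 / 16 : ℝ) < 1)
  refine ⟨n, ?_⟩
  have h1 : θk t h n ^ 2 < c ^ 2 := by
    refine lt_of_le_of_lt (θk_sq_le ht hh n) ?_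
    unfold qk
    have hG := Gk_ge n
    have he := ek_pos ht n
    rw [div_lt_iff₀ (by positivity)]
    have h2 : ek t n = 10 * t * (1 / 16) ^ n := by
      unfold ek
      rw [div_pow, one_pow]
      ring
    rw [lt_div_iff₀ (by positivity)] at hn
    have h3 : ek t n < c ^ 2 := by rw [h2]; linarith
    have h4 : (1 : ℝ) ≤ 8 * h * Gk n := by nlinarith
    have h5 : 0 < c ^ 2 := by positivity
    nlinarith
  exact lt_of_pow_lt_pow_left₀ 2 hc.le h1

include ht hh in
/-- Total cost. -/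
theorem total (K : ℕ) : ∑ k ∈ range K, (4 * dk t h k + rk t h k)
    ≤ 80 * Real.sqrt t + 753 * h * (1 + Real.log t) ^ (3 / 2 : ℝ) := by
  classical
  have hex := θk_tendsto (t := t) (h := h) ht hh 1 one_pos
  set k1 := Nat.find hex with hk1
  have hk1s : θk t h k1 < 1 := Nat.find_spec hex
  have hk1m : ∀ k, k < k1 → 1 ≤ θk t h k := fun k hk => by
    have := Nat.find_min hex hk
    push Not at this
    exact this
  -- bound on k1
  have h16 : (16 : ℝ) ^ k1 ≤ t := by
    rcases Nat.eq_zero_or_pos k1 with h0 | h0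
    · rw [h0, pow_zero]; exact ht
    · obtain ⟨m, hm⟩ := Nat.exists_eq_succ_of_ne_zero h0.ne'
      have h1 := hk1m m (by omega)
      have h2 := θk_sq_le ht hh m
      have h3 : (1 : ℝ) ≤ θk t h m ^ 2 := one_le_pow₀ h1
      have h4 : 1 ≤ qk t h m := h3.trans h2
      unfold qk at h4
      have hG := Gk_ge m
      rw [le_div_iff₀ (by positivity)] at h4
      unfold ek at h4
      rw [one_mul, le_div_iff₀ (by positivity)] at h4
      rw [hm, pow_succ]
      have h5 : (2400 : ℝ) * 16 ^ m ≤ 8 * h * Gk m * 16 ^ m := by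
        apply mul_le_mul_of_nonneg_right _ (by positivity)
        nlinarith
      have h6 : (0 : ℝ) < 16 ^ m := by positivity
      linarith
  have hlog0 : 0 ≤ Real.log t := Real.log_nonneg ht
  have hk1log : (k1 : ℝ) ≤ Real.log t := by
    have h1 := Real.log_le_log (by positivity) h16
    rw [Real.log_pow] at h1
    have h2 : (1 : ℝ) ≤ Real.log 16 := by
      rw [Real.le_log_iff_exp_le (by norm_num)]
      have := Real.exp_one_lt_d9
      linarith
    have h3 : (0 : ℝ) ≤ k1 := Nat.cast_nonneg _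
    nlinarith
  set ℓ : ℝ := 1 + Real.log t with hℓ
  have hℓ1 : 1 ≤ ℓ := by linarith
  have hG1 : Gk k1 ≤ 10 * ℓ := by
    unfold Gk; linarith
  have hG0 := Gk_ge k1
  -- split
  have hsplit : ∑ k ∈ range K, (4 * dk t h k + rk t h k)
      ≤ ∑ k ∈ range k1, (4 * dk t h k + rk t h k)
        + ∑ k ∈ Finset.Ico k1 (k1 + K), (4 * dk t h k + rk t h k) := by
    rw [Finset.sum_range_add_sum_Ico _ (Nat.le_add_right k1 K)]
    refine Finset.sum_le_sum_of_subset_of_nonneg (Finset.range_mono (Nat.le_add_left K k1))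
      fun k _ _ => ?_
    have h1 := dk_nonneg ht hh k
    have h2 : 0 ≤ rk t h k := by unfold rk; positivity
    positivity
  have hA : ∑ k ∈ range k1, (4 * dk t h k + rk t h k)
      ≤ 80 * Real.sqrt t + 4 * h * (k1 * Real.sqrt (Gk k1)) := by
    have h1 : ∑ k ∈ range k1, (4 * dk t h k + rk t h k)
        ≤ ∑ k ∈ range k1, (4 * xk t k + 4 * h * Real.sqrt (Gk k1)) := by
      refine Finset.sum_le_sum fun k hk => ?_
      rw [Finset.mem_range] at hk
      refine (cost_le_one ht hh k (hk1m k hk)).trans ?_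
      have h2 := Real.sqrt_le_sqrt (Gk_mono hk.le)
      have h3 : 4 * h * Real.sqrt (Gk k) ≤ 4 * h * Real.sqrt (Gk k1) :=
        mul_le_mul_of_nonneg_left h2 (by linarith)
      linarith
    have h1' : ∑ k ∈ range k1, (4 * xk t k + 4 * h * Real.sqrt (Gk k1))
        = 4 * ∑ k ∈ range k1, xk t k + (k1 : ℝ) * (4 * h * Real.sqrt (Gk k1)) := by
      rw [Finset.sum_add_distrib, Finset.sum_const, Finset.card_range, nsmul_eq_mul,
        ← Finset.mul_sum]
    rw [h1'] at h1
    have h2 := xk_sum ht 0 k1 (Nat.zero_le _)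
    rw [xk_zero, ← Finset.range_eq_Ico] at h2
    have h3 := xk_nonneg (t := t) k1
    have h4 : 4 * ∑ k ∈ range k1, xk t k ≤ 80 * Real.sqrt t := by linarith
    calc _ ≤ 4 * ∑ k ∈ range k1, xk t k + (k1 : ℝ) * (4 * h * Real.sqrt (Gk k1)) := h1
      _ ≤ 80 * Real.sqrt t + 4 * h * (k1 * Real.sqrt (Gk k1)) := by
          have : (k1 : ℝ) * (4 * h * Real.sqrt (Gk k1)) = 4 * h * (k1 * Real.sqrt (Gk k1)) := by
            ring
          linarith
  have hB : ∑ k ∈ Finset.Ico k1 (k1 + K), (4 * dk t h k + rk t h k) ≤ 74 * h * Gk k1 := by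
    have h1 : ∑ k ∈ Finset.Ico k1 (k1 + K), (4 * dk t h k + rk t h k)
        ≤ ∑ k ∈ Finset.Ico k1 (k1 + K), 13 * Real.sqrt h * xk t k :=
      Finset.sum_le_sum fun k _ => cost_le ht hh k
    rw [← Finset.mul_sum] at h1
    have h2 := xk_sum ht k1 (k1 + K) (Nat.le_add_right _ _)
    have h3 := xk_nonneg (t := t) (k1 + K)
    have h4 : ∑ k ∈ Finset.Ico k1 (k1 + K), xk t k ≤ 2 * xk t k1 := by linarith
    have hsh2 : Real.sqrt h ^ 2 = h := Real.sq_sqrt (by linarith)
    have h5 : xk t k1 ≤ 283 / 100 * Real.sqrt h * Gk k1 := by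
      have h6 := θk_sq_eq ht hh hk1s
      have h7 : θk t h k1 ^ 2 < 1 := by
        have := θk_pos ht hh k1
        nlinarith
      rw [h6] at h7
      unfold qk at h7
      rw [div_lt_one (by positivity)] at h7
      have h8 : xk t k1 ^ 2 ≤ (283 / 100 * Real.sqrt h * Gk k1) ^ 2 := by
        have hx2 : xk t k1 ^ 2 = ek t k1 * Gk k1 := by
          have := ek_pos ht k1
          unfold xk; exact Real.sq_sqrt (by positivity)
        rw [hx2, mul_pow, mul_pow, hsh2]
        have h9 : ek t k1 * Gk k1 ≤ 8 * h * Gk k1 * Gk k1 :=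
          mul_le_mul_of_nonneg_right h7.le (by linarith)
        have h10 : 0 ≤ h * Gk k1 ^ 2 := by positivity
        nlinarith
      exact cost_le.le_of_sq_le_sq' h8 (by positivity)
    calc _ ≤ 13 * Real.sqrt h * ∑ k ∈ Finset.Ico k1 (k1 + K), xk t k := h1
      _ ≤ 13 * Real.sqrt h * (2 * (283 / 100 * Real.sqrt h * Gk k1)) := by
          apply mul_le_mul_of_nonneg_left _ (by positivity)
          linarith
      _ = 13 * 2 * (283 / 100) * (Real.sqrt h ^ 2) * Gk k1 := by ring
      _ ≤ 74 * h * Gk k1 := by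
          rw [hsh2]
          have : 0 ≤ h * Gk k1 := by positivity
          nlinarith
  -- the powers
  have hpow : (1 + Real.log t) ^ (3 / 2 : ℝ) = ℓ * Real.sqrt ℓ := by
    rw [← hℓ, Real.sqrt_eq_rpow, ← Real.rpow_one_add' (by linarith) (by norm_num)]
    norm_num
  have hsℓ : 1 ≤ Real.sqrt ℓ := Real.one_le_sqrt.mpr hℓ1
  have hC : (k1 : ℝ) * Real.sqrt (Gk k1) ≤ 13 / 4 * (ℓ * Real.sqrt ℓ) := by
    have h1 : Real.sqrt (Gk k1) ≤ 13 / 4 * Real.sqrt ℓ := by
      have h2 : Gk k1 ≤ (13 / 4 * Real.sqrt ℓ) ^ 2 := by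
        rw [mul_pow, Real.sq_sqrt (by linarith)]
        nlinarith
      have h3 := Real.sqrt_le_sqrt h2
      rwa [Real.sqrt_sq (by positivity)] at h3
    have h2 : (k1 : ℝ) ≤ ℓ := by linarith
    calc (k1 : ℝ) * Real.sqrt (Gk k1) ≤ ℓ * (13 / 4 * Real.sqrt ℓ) :=
          mul_le_mul h2 h1 (Real.sqrt_nonneg _) (by linarith)
      _ = _ := by ring
  have hD : Gk k1 ≤ 10 * (ℓ * Real.sqrt ℓ) := by
    have : ℓ * 1 ≤ ℓ * Real.sqrt ℓ := mul_le_mul_of_nonneg_left hsℓ (by linarith)
    linarith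
  rw [hpow]
  have hE : 4 * h * (k1 * Real.sqrt (Gk k1)) ≤ 4 * h * (13 / 4 * (ℓ * Real.sqrt ℓ)) :=
    mul_le_mul_of_nonneg_left hC (by linarith)
  have hF : 74 * h * Gk k1 ≤ 74 * h * (10 * (ℓ * Real.sqrt ℓ)) :=
    mul_le_mul_of_nonneg_left hD (by linarith)
  have hG : 0 ≤ h * (ℓ * Real.sqrt ℓ) := by positivity
  linarith

include ht hh in
/-- Cost from a high level on. -/
theorem tail_cost (l K : ℕ) (hK : l ≤ K) :
    ∑ k ∈ Finset.Ico l K, (4 * dk t h k + rk t h k)
      ≤ 260 * Real.sqrt h * Real.sqrt t * (1 / 2) ^ l := by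
  have h1 : ∑ k ∈ Finset.Ico l K, (4 * dk t h k + rk t h k)
      ≤ ∑ k ∈ Finset.Ico l K, 13 * Real.sqrt h * xk t k :=
    Finset.sum_le_sum fun k _ => cost_le ht hh k
  rw [← Finset.mul_sum] at h1
  have h2 := xk_sum ht l K hK
  have h3 := xk_nonneg (t := t) K
  have h4 := xk_le ht l
  calc _ ≤ 13 * Real.sqrt h * ∑ k ∈ Finset.Ico l K, xk t k := h1
    _ ≤ 13 * Real.sqrt h * (2 * (10 * Real.sqrt t * (1 / 2) ^ l)) := by
        apply mul_le_mul_of_nonneg_left _ (by positivity)
        linarith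
    _ = _ := by ring

end params

/-- The gaps are summable. -/
theorem gap_sum (k : ℕ) : (16 : ℝ) ^ k * exp (-Gk k) ≤ 1 / 10000 * (1 / 2) ^ (k + 1) := by
  have h10 : exp (-10) ≤ 1 / 20000 := by
    rw [exp_neg, one_div]
    apply inv_anti₀ (by norm_num)
    have h1 : exp 10 = exp 1 ^ 10 := by rw [← exp_nat_mul]; norm_num
    rw [h1]
    have h2 := Real.exp_one_gt_d9
    have h3 : (2.7 : ℝ) ^ 10 ≤ exp 1 ^ 10 := by
      apply pow_le_pow_left₀ (by norm_num); linarith
    refine le_trans ?_ h3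
    norm_num
  have h4 : exp (-4) ≤ 1 / 32 := by
    rw [exp_neg, one_div]
    apply inv_anti₀ (by norm_num)
    have h1 : exp 4 = exp 1 ^ 4 := by rw [← exp_nat_mul]; norm_num
    rw [h1]
    have h2 := Real.exp_one_gt_d9
    have h3 : (2.7 : ℝ) ^ 4 ≤ exp 1 ^ 4 := by
      apply pow_le_pow_left₀ (by norm_num); linarith
    refine le_trans ?_ h3
    norm_num
  have h1 : exp (-Gk k) = exp (-10) * exp (-4) ^ k := by
    rw [← exp_nat_mul, ← exp_add]
    congr 1
    unfold Gk
    ring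
  rw [h1]
  have h2 : exp (-10) * exp (-4) ^ k ≤ 1 / 20000 * (1 / 32) ^ k := by
    apply mul_le_mul h10 _ (by positivity) (by norm_num)
    exact pow_le_pow_left₀ (exp_pos _).le h4 k
  calc (16 : ℝ) ^ k * (exp (-10) * exp (-4) ^ k) ≤ 16 ^ k * (1 / 20000 * (1 / 32) ^ k) :=
        mul_le_mul_of_nonneg_left h2 (by positivity)
    _ = 1 / 20000 * (16 * (1 / 32)) ^ k := by rw [mul_pow]; ring
    _ = 1 / 10000 * (1 / 2) ^ (k + 1) := by
        rw [pow_succ]; norm_num; ring

end H167KL
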