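import Pool.Agent.H167R2.KLWeight
import Pool.Agent.H167R2.FKMinimax

/-!
# From weighted statements to distributions, matrix form
-/

namespace H167KL

/-- A weighted statement with a uniform bound gives a distribution. -/
theorem distribution (m n : ℕ) (a : Fin m → Fin n → ℝ) (ε c : ℝ)
    (hw : ∀ p : Fin n → ℝ, (∀ j, 0 ≤ p j) →
      ∃ x : Fin n → ℝ, (∀ j, |x j| ≤ 1) ∧ (∀ i, |∑ j, a i j * x j| ≤ c) ∧
        ∑ j, (if |x j| < 1 then p j else 0) ≤ ε * ∑ j, p j) :
    ∃ (K : ℕ) (w : Fin K → ℝ) (y : Fin K → Fin n → ℝ),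
      (∀ k, 0 ≤ w k) ∧ ∑ k, w k = 1 ∧
      (∀ k j, -1 ≤ y k j ∧ y k j ≤ 1) ∧
      (∀ k i, |∑ j, a i j * y k j| ≤ c) ∧
      ∀ j, ∑ k ∈ Finset.univ.filter (fun k => ¬ (y k j = 1 ∨ y k j = -1)), w k ≤ ε := by
  classical
  -- choose, for every pattern of uncoloured coordinates that occurs, a representative
  let good : (Fin n → ℝ) → Prop := fun x => (∀ j, |x j| ≤ 1) ∧
    ∀ i, |∑ j, a i j * x j| ≤ c
  let pat : (Fin n → ℝ) → (Fin n → ℝ) := fun x j => if |x j| < 1 then 1 else 0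
  have hfin : (Set.range (fun U : Finset (Fin n) => fun j : Fin n =>
      if j ∈ U then (1 : ℝ) else 0)).Finite := Set.finite_range _
  have hpatfin : (pat '' {x | good x}).Finite := by
    refine hfin.subset ?_
    rintro z ⟨x, -, rfl⟩
    refine ⟨Finset.univ.filter (fun j => |x j| < 1), ?_⟩
    funext j
    simp [pat]
  set Z : Finset (Fin n → ℝ) := hpatfin.toFinset with hZ
  have hZmem : ∀ z ∈ Z, ∃ x, good x ∧ pat x = z := by
    intro z hz
    rw [hZ, Set.Finite.mem_toFinset] at hz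
    exact hz
  obtain ⟨w, hw0, hw1, hw2⟩ := H167FK.minimax Z ε (by
    intro p hp
    obtain ⟨x, hx1, hx2, hx3⟩ := hw p hp
    refine ⟨pat x, ?_, ?_⟩
    · rw [hZ, Set.Finite.mem_toFinset]
      exact ⟨x, ⟨hx1, hx2⟩, rfl⟩
    · refine le_trans (le_of_eq ?_) hx3
      refine Finset.sum_congr rfl fun j _ => ?_
      simp only [pat]
      split_ifs <;> simp)
  choose! x hx hxp using hZmem
  let e : Fin Z.card ≃ Z := Z.equivFin.symm
  refine ⟨Z.card, fun k => w (e k), fun k => x (e k), fun k => hw0 _ (e k).2, ?_, ?_, ?_, ?_⟩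
  · rw [Equiv.sum_comp e (fun z : Z => w z), Finset.sum_coe_sort Z w]
    exact hw1
  · intro k j
    exact abs_le.mp ((hx _ (e k).2).1 j)
  · intro k i
    exact (hx _ (e k).2).2 i
  · intro j
    refine le_trans (le_of_eq ?_) (hw2 j)
    rw [Finset.sum_filter, ← Finset.sum_coe_sort Z (fun z => w z * z j),
      ← Equiv.sum_comp e (fun z : Z => w z * (z : Fin n → ℝ) j)]
    refine Finset.sum_congr rfl fun k _ => ?_
    have h2 := hxp _ (e k).2
    have h3 : ((e k : Z) : Fin n → ℝ) j = if |x (e k) j| < 1 then 1 else 0 := by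
      conv_lhs => rw [← h2]
    have h4 := (hx _ (e k).2).1 j
    have h5 : (¬ (x (e k) j = 1 ∨ x (e k) j = -1)) ↔ |x (e k) j| < 1 := by
      constructor
      · intro h
        refine lt_of_le_of_ne h4 fun h6 => h ?_
        exact eq_or_eq_neg_of_abs_eq h6
      · intro h h6
        rcases h6 with h6 | h6 <;> rw [h6] at h <;> norm_num at h
    rw [h3]
    by_cases h6 : |x (e k) j| < 1
    · rw [if_pos (h5.mpr h6), if_pos h6, mul_one]
    · rw [if_neg (fun h => h6 (h5.mp h)), if_neg h6, mul_zero]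

end H167KL
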