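import Pool.Agent.H167R2.KMWalk

/-!
# The structure of a set without movable subsets
-/

namespace H167KM

open Finset H167BK

variable {I J : Type*} [Fintype I] [Fintype J]

omit [Fintype I] in
theorem exists_filter (s : Finset I) (p : I → Prop) :
    ∃ M1 : Finset I, ∀ i, i ∈ M1 ↔ i ∈ s ∧ p i := by
  classical
  exact ⟨s.filter p, fun i => Finset.mem_filter⟩

/-- Data of a region without movable subsets. -/
structure Stuck (I J : Type*) [Fintype I] [Fintype J] where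
  a : I → J → ℝ
  a01 : ∀ i v, a i v = 0 ∨ a i v = 1
  t : ℝ
  ht : 1 ≤ t
  col : ∀ v, ∑ i, a i v ≤ t
  K : Finset J
  M : Finset I
  Bg : Finset I
  L : ℕ
  le : I → ℕ
  hle : ∀ i ∈ M, le i < L
  φ : I → ℝ
  hφ : ∀ i, 0 ≤ φ i
  e : ℕ → ℝ
  he : ∀ l, 0 < e l
  w : ℕ → ℝ
  hw : ∀ l, 0 < w l
  c : ℝ
  hc : 0 < c
  ϑ : ℕ → ℝ
  hw2 : ∀ l, w l * (ϑ l * e l) = c
  hϑ : ∑ l ∈ range L, ϑ l ≤ 1 / 80000
  lowM : ∀ i ∈ M, e (le i) ≤ 16 * ∑ v ∈ K, a i v
  lowB : ∀ i ∈ Bg, 1000 * t ≤ ∑ v ∈ K, a i v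
  stuck : ∀ A' ⊆ K, A'.Nonempty → ∀ (M' Bg' : Finset I),
    (∀ i, i ∈ M' ↔ i ∈ M ∧ ∃ v ∈ A', a i v ≠ 0) → (∀ i, i ∈ Bg' ↔ i ∈ Bg ∧ ∃ v ∈ A', a i v ≠ 0) →
    (A'.card : ℝ) < 50 * ∑ i ∈ M', φ i + 10 * Bg'.card

namespace Stuck

variable (S : Stuck I J)

theorem a_nonneg (i : I) (v : J) : 0 ≤ S.a i v := by
  rcases S.a01 i v with h | h <;> rw [h] <;> norm_num

theorem greedy (l : ℕ) : ∃ X ⊆ S.K, (∀ H : Finset I, (∀ i, i ∈ H ↔ i ∈ S.M ∧ S.le i = l ∧
      ∃ v ∈ X, S.a i v ≠ 0) → S.c * (X.card : ℝ) ≤ ∑ i ∈ H, S.w l * S.φ i) ∧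
    ∀ u ∈ S.K, ∀ U : Finset I, (∀ i, i ∈ U ↔ i ∈ S.M ∧ S.le i = l ∧ S.a i u ≠ 0 ∧
      ¬ ∃ v ∈ X, S.a i v ≠ 0) → ∑ i ∈ U, S.w l * S.φ i ≤ S.c := by
  classical
  let hit : Finset J → Finset I := fun X => S.M.filter (fun i => S.le i = l ∧ ∃ v ∈ X, S.a i v ≠ 0)
  let ok : Finset J → Prop := fun X => S.c * (X.card : ℝ) ≤ ∑ i ∈ hit X, S.w l * S.φ i
  obtain ⟨X, hX, hmax⟩ := Finset.exists_max_image (S.K.powerset.filter ok) Finset.card
    ⟨∅, by simp [ok, hit]⟩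
  rw [Finset.mem_filter, Finset.mem_powerset] at hX
  refine ⟨X, hX.1, ?_, ?_⟩
  · intro H hH
    have : H = hit X := by
      ext i
      rw [hH, Finset.mem_filter]
    rw [this]
    exact hX.2
  · intro u hu U hU
    have hterm : ∀ i, 0 ≤ S.w l * S.φ i := fun i => mul_nonneg (S.hw l).le (S.hφ i)
    by_cases huX : u ∈ X
    · have : U = ∅ := by
        rw [Finset.eq_empty_iff_forall_notMem]
        intro i hi
        obtain ⟨-, -, h1, h2⟩ := (hU i).mp hi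
        exact h2 ⟨u, huX, h1⟩
      rw [this, Finset.sum_empty]
      exact S.hc.le
    · by_contra hcon
      push Not at hcon
      have hdisj : Disjoint (hit X) U := by
        rw [Finset.disjoint_left]
        intro i hi1 hi2
        exact ((hU i).mp hi2).2.2.2 (Finset.mem_filter.mp hi1).2.2
      have hsub : hit X ∪ U ⊆ hit (insert u X) := by
        intro i hi
        rcases Finset.mem_union.mp hi with h | h
        · obtain ⟨h1, h2, v, hv, hv2⟩ := Finset.mem_filter.mp h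
          exact Finset.mem_filter.mpr ⟨h1, h2, v, Finset.mem_insert_of_mem hv, hv2⟩
        · obtain ⟨h1, h2, h3, -⟩ := (hU i).mp h
          exact Finset.mem_filter.mpr ⟨h1, h2, u, Finset.mem_insert_self _ _, h3⟩
      have hins : insert u X ∈ S.K.powerset.filter ok := by
        rw [Finset.mem_filter, Finset.mem_powerset]
        refine ⟨Finset.insert_subset hu hX.1, ?_⟩
        have h1 := Finset.sum_le_sum_of_subset_of_nonneg hsub
          (f := fun i => S.w l * S.φ i) (fun i _ _ => hterm i)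
        rw [Finset.sum_union hdisj] at h1
        have h2 : S.c * (X.card : ℝ) ≤ ∑ i ∈ hit X, S.w l * S.φ i := hX.2
        show S.c * ((insert u X).card : ℝ) ≤ _
        rw [Finset.card_insert_of_notMem huX]
        push_cast
        linarith
      have := hmax _ hins
      rw [Finset.card_insert_of_notMem huX] at this
      omega

/-- The greedy sets. -/
noncomputable def X (l : ℕ) : Finset J := (S.greedy l).choose

theorem X_sub (l : ℕ) : S.X l ⊆ S.K := (S.greedy l).choose_spec.1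

/-- Hit rows. -/
def Hit (i : I) : Prop := ∃ v ∈ S.X (S.le i), S.a i v ≠ 0

theorem X_gain (l : ℕ) (H : Finset I) (hH : ∀ i, i ∈ H ↔ i ∈ S.M ∧ S.le i = l ∧ S.Hit i) :
    S.c * ((S.X l).card : ℝ) ≤ ∑ i ∈ H, S.w l * S.φ i := by
  refine (S.greedy l).choose_spec.2.1 H fun i => ?_
  rw [hH]
  constructor
  · rintro ⟨h1, h2, h3⟩
    refine ⟨h1, h2, ?_⟩
    unfold Hit at h3
    rw [h2] at h3
    exact h3
  · rintro ⟨h1, h2, h3⟩
    refine ⟨h1, h2, ?_⟩
    unfold Hit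
    rw [h2]
    exact h3

theorem X_unhit (l : ℕ) {u : J} (hu : u ∈ S.K) (U : Finset I)
    (hU : ∀ i, i ∈ U ↔ i ∈ S.M ∧ S.le i = l ∧ S.a i u ≠ 0 ∧ ¬ S.Hit i) :
    ∑ i ∈ U, S.w l * S.φ i ≤ S.c := by
  refine (S.greedy l).choose_spec.2.2 u hu U fun i => ?_
  rw [hU]
  constructor
  · rintro ⟨h1, h2, h3, h4⟩
    refine ⟨h1, h2, h3, ?_⟩
    unfold Hit at h4
    rw [h2] at h4
    exact h4
  · rintro ⟨h1, h2, h3, h4⟩
    refine ⟨h1, h2, h3, ?_⟩
    unfold Hit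
    rw [h2]
    exact h4

open Classical in
/-- Unhit rows dense in `B`. -/
noncomputable def U (B : Finset J) : Finset I :=
  S.M.filter (fun i => ¬ S.Hit i ∧ ∑ v ∈ S.K, S.a i v ≤ 2 * ∑ v ∈ B, S.a i v)

theorem ϑ_pos (l : ℕ) : 0 < S.ϑ l := by
  have h1 := S.hw2 l
  have h2 := S.hw l
  have h3 := S.he l
  have h4 := S.hc
  by_contra hcon
  push Not at hcon
  have h5 : S.w l * (S.ϑ l * S.e l) ≤ 0 :=
    mul_nonpos_of_nonneg_of_nonpos h2.le (mul_nonpos_of_nonpos_of_nonneg hcon h3.le)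
  linarith

theorem U_le (B : Finset J) (hB : B ⊆ S.K) : 50 * ∑ i ∈ S.U B, S.φ i ≤ (B.card : ℝ) / 50 := by
  classical
  set UH : Finset I := S.M.filter (fun i => ¬ S.Hit i) with hUH
  have hUsub : S.U B ⊆ UH := by
    intro i hi
    obtain ⟨h1, h2, -⟩ := Finset.mem_filter.mp hi
    exact Finset.mem_filter.mpr ⟨h1, h2⟩
  have h1 : ∑ i ∈ S.U B, S.φ i ≤ ∑ i ∈ UH, 32 / S.e (S.le i) * S.φ i * ∑ v ∈ B, S.a i v := by
    refine le_trans (Finset.sum_le_sum fun i hi => ?_)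
      (Finset.sum_le_sum_of_subset_of_nonneg hUsub fun i _ _ => ?_)
    · obtain ⟨h2, -, h3⟩ := Finset.mem_filter.mp hi
      have h4 := S.lowM i h2
      have h5 := S.he (S.le i)
      have h6 : 1 ≤ 32 / S.e (S.le i) * ∑ v ∈ B, S.a i v := by
        rw [div_mul_eq_mul_div, le_div_iff₀ h5]
        linarith
      have h7 := mul_le_mul_of_nonneg_left h6 (S.hφ i)
      linarith
    · have h5 := S.he (S.le i)
      have h6 := S.hφ i
      have h7 : 0 ≤ ∑ v ∈ B, S.a i v := Finset.sum_nonneg fun v _ => S.a_nonneg i v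
      positivity
  have h2 : ∑ i ∈ UH, 32 / S.e (S.le i) * S.φ i * ∑ v ∈ B, S.a i v
      = ∑ v ∈ B, ∑ i ∈ UH, 32 / S.e (S.le i) * S.φ i * S.a i v := by
    rw [Finset.sum_comm]
    exact Finset.sum_congr rfl fun i _ => by rw [Finset.mul_sum]
  have h3 : ∀ v ∈ B, ∑ i ∈ UH, 32 / S.e (S.le i) * S.φ i * S.a i v ≤ 32 * (1 / 80000) := by
    intro v hv
    have hmaps : ∀ i ∈ UH, S.le i ∈ range S.L := fun i hi =>
      Finset.mem_range.mpr (S.hle i (Finset.mem_filter.mp hi).1)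
    rw [← Finset.sum_fiberwise_of_maps_to hmaps]
    calc ∑ l ∈ range S.L, ∑ i ∈ UH with S.le i = l, 32 / S.e (S.le i) * S.φ i * S.a i v
        ≤ ∑ l ∈ range S.L, 32 * S.ϑ l := by
          refine Finset.sum_le_sum fun l _ => ?_
          have hw := S.hw l
          have he := S.he l
          have h4 : ∑ i ∈ UH with S.le i = l, 32 / S.e (S.le i) * S.φ i * S.a i v
              = 32 / (S.e l * S.w l) * ∑ i ∈ (UH.filter (fun i => S.le i = l)).filter
                (fun i => S.a i v ≠ 0), S.w l * S.φ i := by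
            rw [Finset.mul_sum, Finset.sum_filter (fun i => S.a i v ≠ 0)]
            refine Finset.sum_congr rfl fun i hi => ?_
            have h5 := (Finset.mem_filter.mp hi).2
            rw [h5]
            rcases S.a01 i v with h6 | h6
            · rw [h6]; simp
            · rw [h6]
              simp only [mul_one, ne_eq, one_ne_zero, not_false_eq_true, if_true]
              field_simp
          rw [h4]
          have h5 := S.X_unhit l (hB hv) ((UH.filter (fun i => S.le i = l)).filter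
                (fun i => S.a i v ≠ 0)) (by
            intro i
            rw [Finset.mem_filter, Finset.mem_filter, hUH, Finset.mem_filter]
            tauto)
          calc _ ≤ 32 / (S.e l * S.w l) * S.c := mul_le_mul_of_nonneg_left h5 (by positivity)
            _ = 32 * S.ϑ l := by
              rw [← S.hw2 l]
              field_simp
      _ = 32 * ∑ l ∈ range S.L, S.ϑ l := by rw [Finset.mul_sum]
      _ ≤ 32 * (1 / 80000) := mul_le_mul_of_nonneg_left S.hϑ (by norm_num)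
  have h4 := Finset.sum_le_sum h3
  rw [Finset.sum_const, nsmul_eq_mul] at h4
  linarith

open Classical in
/-- Big rows dense in `B`. -/
noncomputable def V (B : Finset J) : Finset I :=
  S.Bg.filter (fun i => ∑ v ∈ S.K, S.a i v ≤ 2 * ∑ v ∈ B, S.a i v)

theorem V_le (B : Finset J) : 10 * ((S.V B).card : ℝ) ≤ (B.card : ℝ) / 50 := by
  classical
  have ht := S.ht
  have h1 := Finset.card_nsmul_le_sum (S.V B) (fun i => ∑ v ∈ B, S.a i v) (500 * S.t) (by
    intro i hi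
    obtain ⟨h2, h3⟩ := Finset.mem_filter.mp hi
    have h4 := S.lowB i h2
    linarith)
  rw [nsmul_eq_mul] at h1
  have h2 : ∑ i ∈ S.V B, ∑ v ∈ B, S.a i v ≤ S.t * B.card := by
    rw [Finset.sum_comm]
    calc ∑ v ∈ B, ∑ i ∈ S.V B, S.a i v ≤ ∑ v ∈ B, S.t := by
          refine Finset.sum_le_sum fun v _ => ?_
          refine le_trans (Finset.sum_le_sum_of_subset_of_nonneg (Finset.subset_univ _)
            (fun i _ _ => S.a_nonneg i v)) (S.col v)
      _ = S.t * B.card := by simp [mul_comm]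
  have h3 : S.t * (500 * ((S.V B).card : ℝ)) ≤ S.t * B.card := by linarith
  have h4 := le_of_mul_le_mul_left h3 (by linarith)
  linarith

open Classical in
/-- The layers. -/
noncomputable def Z : ℕ → Finset J
  | 0 => S.K.filter (fun v => ∀ i ∈ S.M, S.a i v ≠ 0 → ¬ S.Hit i)
  | ρ + 1 => (Z ρ).filter (fun v => ∀ i ∈ S.M ∪ S.Bg, S.a i v ≠ 0 →
      ∑ u ∈ S.K, S.a i u ≤ 2 * ∑ u ∈ Z ρ, S.a i u)

theorem Z_sub (ρ : ℕ) : S.Z ρ ⊆ S.Z 0 := by
  classical
  induction ρ with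
  | zero => exact Finset.Subset.refl _
  | succ ρ ih =>
    refine Finset.Subset.trans ?_ ih
    show (S.Z ρ).filter _ ⊆ _
    exact Finset.filter_subset _ _

theorem Z_subK (ρ : ℕ) : S.Z ρ ⊆ S.K := by
  classical
  refine (S.Z_sub ρ).trans ?_
  show S.K.filter _ ⊆ _
  exact Finset.filter_subset _ _

theorem Z_step (ρ : ℕ) : 25 * ((S.Z (ρ + 1)).card : ℝ) ≤ (S.Z ρ).card := by
  classical
  rcases Finset.eq_empty_or_nonempty (S.Z (ρ + 1)) with h | h
  · rw [h]; simp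
  · have hdef : S.Z (ρ + 1) = (S.Z ρ).filter (fun v => ∀ i ∈ S.M ∪ S.Bg, S.a i v ≠ 0 →
      ∑ u ∈ S.K, S.a i u ≤ 2 * ∑ u ∈ S.Z ρ, S.a i u) := by
      simp only [Z]
    obtain ⟨M1, hM1⟩ := exists_filter S.M (fun i => ∃ v ∈ S.Z (ρ + 1), S.a i v ≠ 0)
    obtain ⟨B1, hB1⟩ := exists_filter S.Bg (fun i => ∃ v ∈ S.Z (ρ + 1), S.a i v ≠ 0)
    have h1 := S.stuck (S.Z (ρ + 1)) (S.Z_subK _) h M1 B1 hM1 hB1
    have h2 : ∑ i ∈ M1, S.φ i ≤ ∑ i ∈ S.U (S.Z ρ), S.φ i := by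
      refine Finset.sum_le_sum_of_subset_of_nonneg (fun i hi => ?_) (fun i _ _ => S.hφ i)
      obtain ⟨h3, v, hv, hv2⟩ := (hM1 i).mp hi
      refine Finset.mem_filter.mpr ⟨h3, ?_, ?_⟩
      · have h4 : v ∈ S.Z 0 := S.Z_sub _ hv
        exact (Finset.mem_filter.mp h4).2 i h3 hv2
      · rw [hdef] at hv
        exact (Finset.mem_filter.mp hv).2 i (Finset.mem_union_left _ h3) hv2
    have h3 : ((B1.card : ℕ) : ℝ) ≤ ((S.V (S.Z ρ)).card : ℝ) := by
      have : B1 ⊆ S.V (S.Z ρ) := by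
        intro i hi
        obtain ⟨h3, v, hv, hv2⟩ := (hB1 i).mp hi
        refine Finset.mem_filter.mpr ⟨h3, ?_⟩
        rw [hdef] at hv
        exact (Finset.mem_filter.mp hv).2 i (Finset.mem_union_right _ h3) hv2
      exact_mod_cast Finset.card_le_card this
    have h4 := S.U_le (S.Z ρ) (S.Z_subK ρ)
    have h5 := S.V_le (S.Z ρ)
    linarith

theorem Z_card (ρ : ℕ) : 25 ^ ρ * ((S.Z ρ).card : ℝ) ≤ S.K.card := by
  induction ρ with
  | zero =>
    rw [pow_zero, one_mul]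
    exact_mod_cast Finset.card_le_card (S.Z_subK 0)
  | succ ρ ih =>
    have h1 := S.Z_step ρ
    have h2 : (0 : ℝ) < 25 ^ ρ := by positivity
    calc (25 : ℝ) ^ (ρ + 1) * ((S.Z (ρ + 1)).card : ℝ)
        = 25 ^ ρ * (25 * ((S.Z (ρ + 1)).card : ℝ)) := by ring
      _ ≤ 25 ^ ρ * ((S.Z ρ).card : ℝ) := mul_le_mul_of_nonneg_left h1 h2.le
      _ ≤ _ := ih

/-- Every point outside `Z ρ` is close to a greedy set. -/
theorem cover (ρ : ℕ) : ∀ v ∈ S.K, v ∉ S.Z ρ → ∃ l < S.L, ∃ x ∈ S.X l, hop S.a (ρ + 1) x v := by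
  classical
  induction ρ with
  | zero =>
    intro v hv hvZ
    have h1 : ¬ ∀ i ∈ S.M, S.a i v ≠ 0 → ¬ S.Hit i := fun h => hvZ (Finset.mem_filter.mpr ⟨hv, h⟩)
    push Not at h1
    obtain ⟨i, hi, hiv, x, hx, hix⟩ := h1
    exact ⟨S.le i, S.hle i hi, x, hx, hop_one (Or.inr ⟨i, hix, hiv⟩)⟩
  | succ ρ ih =>
    intro v hv hvZ
    by_cases h1 : v ∈ S.Z ρ
    · have h2 : ¬ ∀ i ∈ S.M ∪ S.Bg, S.a i v ≠ 0 →
          ∑ u ∈ S.K, S.a i u ≤ 2 * ∑ u ∈ S.Z ρ, S.a i u := by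
        intro h
        apply hvZ
        show v ∈ (S.Z ρ).filter _
        exact Finset.mem_filter.mpr ⟨h1, h⟩
      push Not at h2
      obtain ⟨i, hi, hiv, hlt⟩ := h2
      have h3 : ∃ u ∈ S.K, u ∉ S.Z ρ ∧ S.a i u ≠ 0 := by
        by_contra hcon
        push Not at hcon
        have h4 : ∑ u ∈ S.K, S.a i u = ∑ u ∈ S.Z ρ, S.a i u := by
          symm
          refine Finset.sum_subset (S.Z_subK ρ) fun u hu hu2 => hcon u hu hu2
        have h5 : 0 ≤ ∑ u ∈ S.Z ρ, S.a i u := Finset.sum_nonneg fun u _ => S.a_nonneg i u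
        linarith
      obtain ⟨u, hu, huZ, hiu⟩ := h3
      obtain ⟨l, hl, x, hx, hxu⟩ := ih u hu huZ
      exact ⟨l, hl, x, hx, u, hxu, Or.inr ⟨i, hiu, hiv⟩⟩
    · obtain ⟨l, hl, x, hx, hxv⟩ := ih v hv h1
      exact ⟨l, hl, x, hx, hop_succ hxv⟩

/-- The hit rows carry most of the potential. -/
theorem hit_sum (hK : S.K.Nonempty) (H : Finset I) (hH : ∀ i, i ∈ H ↔ i ∈ S.M ∧ S.Hit i) :
    24 / 25 * (S.K.card : ℝ) ≤ 50 * ∑ i ∈ H, S.φ i := by
  classical
  obtain ⟨M1, hM1⟩ := exists_filter S.M (fun i => ∃ v ∈ S.K, S.a i v ≠ 0)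
  obtain ⟨B1, hB1⟩ := exists_filter S.Bg (fun i => ∃ v ∈ S.K, S.a i v ≠ 0)
  have h1 := S.stuck S.K (Finset.Subset.refl _) hK M1 B1 hM1 hB1
  have h0 : ∀ i, 0 ≤ ∑ v ∈ S.K, S.a i v := fun i => Finset.sum_nonneg fun v _ => S.a_nonneg i v
  have h2 : ∑ i ∈ M1, S.φ i ≤ ∑ i ∈ H, S.φ i + ∑ i ∈ S.U S.K, S.φ i := by
    have hsub : M1 ⊆ H ∪ S.U S.K := by
      intro i hi
      obtain ⟨h3, -⟩ := (hM1 i).mp hi
      by_cases h4 : S.Hit i
      · exact Finset.mem_union_left _ ((hH i).mpr ⟨h3, h4⟩)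
      · refine Finset.mem_union_right _ (Finset.mem_filter.mpr ⟨h3, h4, ?_⟩)
        have := h0 i
        linarith
    have h3 := Finset.sum_le_sum_of_subset_of_nonneg hsub (f := S.φ) (fun i _ _ => S.hφ i)
    refine h3.trans ?_
    rw [← Finset.sum_union_inter]
    have : 0 ≤ ∑ i ∈ H ∩ S.U S.K, S.φ i := Finset.sum_nonneg fun i _ => S.hφ i
    linarith
  have h3 : ((B1.card : ℕ) : ℝ) ≤ ((S.V S.K).card : ℝ) := by
    have : B1 ⊆ S.V S.K := by
      intro i hi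
      obtain ⟨h3, -⟩ := (hB1 i).mp hi
      refine Finset.mem_filter.mpr ⟨h3, ?_⟩
      have := h0 i
      linarith
    exact_mod_cast Finset.card_le_card this
  have h4 := S.U_le S.K (Finset.Subset.refl _)
  have h5 := S.V_le S.K
  linarith

end Stuck

end H167KM
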