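import Pool.Agent.H167R2.KMGood
import Pool.Agent.H167R2.BKFinal

/-!
# Gluing, iteration and the matrix form
-/

namespace H167KM

open Finset Real H167BJ H167BK

variable {I J : Type*} [Fintype I] [Fintype J]

/-- The cost constant of a stage. -/
noncomputable def c1 (d : ℝ) (Δ ρ0 : ℕ) : ℝ :=
  8 * log (2 * ((Δ : ℝ) ^ (2 * (ρ0 + 1) + 1) * (100 * d)))

/-- Sizes. -/
noncomputable def fz (d m : ℝ) : ℝ := 1 + d * log (2 * m)

theorem fz_one {d m : ℝ} (hd : 1 ≤ d) (hm : 1 ≤ m) : 1 ≤ fz d m := by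
  unfold fz
  have h1 : 0 ≤ log (2 * m) := Real.log_nonneg (by linarith)
  have : 0 ≤ d * log (2 * m) := by positivity
  linarith

/-- One stage on all components. -/
theorem stage_glued {a : I → J → ℝ} {d : ℝ} {Δ ρ0 : ℕ} (H : Hyp a d Δ ρ0) (x0 : J → ℝ)
    (hx0 : ∀ j, |x0 j| ≤ 1) (m : ℝ) (hm : 1 ≤ m) (hsm : Small a 0 m x0) :
    ∃ y, Ext x0 y ∧ RowOK a (cst d (c1 d Δ ρ0)) 0 x0 y ∧ Small a 0 (fz d m) y := by
  classical
  have hlog : 0 ≤ log (2 * m) := Real.log_nonneg (by linarith)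
  have hd0 : 0 ≤ d := by linarith [H.hd]
  set k : ℕ := ⌊d * log (2 * m)⌋₊ + 1 with hk
  have hk2 : d * log (2 * m) < k := by rw [hk]; push_cast; exact Nat.lt_floor_add_one _
  have hex : ∀ K : Finset J, ∃ y : J → ℝ, (K ⊆ H167FK.Sys.alive x0 ∧ (K.card : ℝ) ≤ m) →
      Ext (restr x0 K) y ∧ RowOK a (cst d (c1 d Δ ρ0)) 0 (restr x0 K) y ∧
      ∀ v ∈ H167FK.Sys.alive y, (comp a 0 (H167FK.Sys.alive y) v).card < k := by
    intro K
    by_cases hK : K ⊆ H167FK.Sys.alive x0 ∧ (K.card : ℝ) ≤ m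
    · obtain ⟨y, h1, h2, h3, h4⟩ := km_stage a d Δ ρ0 H (c1 d Δ ρ0) le_rfl
        (restr x0 K) (restr_box K hx0) m hm (by rw [alive_restr hK.1]; exact hK.2) k
        (by omega) (Or.inr hk2)
      refine ⟨y, fun _ => ⟨⟨h1, h2⟩, fun i => ?_, h4⟩⟩
      rcases h3 i with h | h
      · exact Or.inl h
      · refine Or.inr fun z hz => ?_
        rw [add_zero]
        exact h z hz.1 hz.2
    · exact ⟨fun _ => 0, fun h => absurd h hK⟩
  choose Y hY using hex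
  have hcK : ∀ v ∈ H167FK.Sys.alive x0, comp a 0 (H167FK.Sys.alive x0) v ⊆ H167FK.Sys.alive x0 ∧
      ((comp a 0 (H167FK.Sys.alive x0) v).card : ℝ) ≤ m := fun v hv =>
    ⟨comp_sub _ _ _ _, hsm v hv⟩
  have hYe := fun v hv => (hY _ (hcK v hv)).1
  have hcst := cst_nonneg d (c1 d Δ ρ0)
  refine ⟨glued a 0 x0 Y, glued_ext a 0 x0 Y hYe hx0,
    glued_row a 0 x0 Y hYe hx0 le_rfl _ _ (by linarith) (fun v hv => (hY _ (hcK v hv)).2.1),
    fun v hv => ?_⟩
  obtain ⟨h1, h2, h3⟩ := glued_comps a 0 x0 Y hYe hx0 hv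
  have h4 := (hY _ (hcK v h1)).2.2 v h2
  have h5 := Finset.card_le_card h3
  have h6 : (comp a 0 (H167FK.Sys.alive (glued a 0 x0 Y)) v).card ≤ ⌊d * log (2 * m)⌋₊ := by
    omega
  have h7 : ((comp a 0 (H167FK.Sys.alive (glued a 0 x0 Y)) v).card : ℝ)
      ≤ (⌊d * log (2 * m)⌋₊ : ℝ) := by exact_mod_cast h6
  have h8 : (⌊d * log (2 * m)⌋₊ : ℝ) ≤ d * log (2 * m) := Nat.floor_le (by positivity)
  unfold fz
  linarith

/-- Several stages. -/
theorem stages {a : I → J → ℝ} {d : ℝ} {Δ ρ0 : ℕ} (H : Hyp a d Δ ρ0) (r : ℕ) :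
    ∀ (x0 : J → ℝ), (∀ j, |x0 j| ≤ 1) → ∀ (m : ℝ), 1 ≤ m → Small a 0 m x0 →
    ∃ y, Ext x0 y ∧ RowOK a (r * cst d (c1 d Δ ρ0)) 0 x0 y ∧
      Small a 0 ((fz d)^[r] m) y := by
  induction r with
  | zero =>
    intro x0 hx0 m hm hsm
    refine ⟨x0, ⟨hx0, fun _ _ => rfl⟩, fun i => Or.inl ?_, hsm⟩
    simp
  | succ r ih =>
    intro x0 hx0 m hm hsm
    obtain ⟨y, h1, h2, h3⟩ := stage_glued H x0 hx0 m hm hsm
    obtain ⟨w, h4, h5, h6⟩ := ih y h1.1 (fz d m) (fz_one H.hd hm) h3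
    refine ⟨w, h1.trans h4, ?_, ?_⟩
    · have hcst := cst_nonneg d (c1 d Δ ρ0)
      have h7 := RowOK.trans (by positivity) h2 h5 h4
      have h8 : cst d (c1 d Δ ρ0) + (r : ℝ) * cst d (c1 d Δ ρ0)
          = ((r + 1 : ℕ) : ℝ) * cst d (c1 d Δ ρ0) := by push_cast; ring
      rw [h8] at h7
      exact h7
    · rw [Function.iterate_succ_apply]
      exact h6

/-- The last stage on all components. -/
theorem last_glued {a : I → J → ℝ} {d : ℝ} {Δ ρ0 : ℕ} (H : Hyp a d Δ ρ0) (x0 : J → ℝ)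
    (hx0 : ∀ j, |x0 j| ≤ 1) (m : ℝ) (hm : 1 ≤ m) (hsm : Small a 0 m x0) (c : ℝ)
    (hc : c1 d Δ ρ0 ≤ c) (hc2 : 2 * log (2 * m) < c) :
    ∃ y, Ext x0 y ∧ (∀ j, |y j| = 1) ∧ RowOK a (cst d c) 0 x0 y := by
  classical
  have hex : ∀ K : Finset J, ∃ y : J → ℝ, (K ⊆ H167FK.Sys.alive x0 ∧ (K.card : ℝ) ≤ m) →
      Ext (restr x0 K) y ∧ (∀ j, |y j| = 1) ∧ RowOK a (cst d c) 0 (restr x0 K) y := by
    intro K
    by_cases hK : K ⊆ H167FK.Sys.alive x0 ∧ (K.card : ℝ) ≤ m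
    · obtain ⟨y, h1, h2, h3, h4⟩ := km_stage a d Δ ρ0 H c hc
        (restr x0 K) (restr_box K hx0) m hm (by rw [alive_restr hK.1]; exact hK.2) 1
        le_rfl (Or.inl hc2)
      refine ⟨y, fun _ => ⟨⟨h1, h2⟩, fun j => ?_, fun i => ?_⟩⟩
      · by_contra hcon
        have hj : j ∈ H167FK.Sys.alive y := mem_alive.mpr (lt_of_le_of_ne (h1 j) hcon)
        have h5 := h4 j hj
        have h6 := Finset.card_pos.mpr ⟨j, self_mem_comp (a := a) (c0 := 0) hj⟩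
        omega
      · rcases h3 i with h | h
        · exact Or.inl h
        · refine Or.inr fun z hz => ?_
          rw [add_zero]
          exact h z hz.1 hz.2
    · exact ⟨fun _ => 0, fun h => absurd h hK⟩
  choose Y hY using hex
  have hcK : ∀ v ∈ H167FK.Sys.alive x0, comp a 0 (H167FK.Sys.alive x0) v ⊆ H167FK.Sys.alive x0 ∧
      ((comp a 0 (H167FK.Sys.alive x0) v).card : ℝ) ≤ m := fun v hv =>
    ⟨comp_sub _ _ _ _, hsm v hv⟩
  have hYe := fun v hv => (hY _ (hcK v hv)).1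
  have hge := glued_ext a 0 x0 Y hYe hx0
  have hcst := cst_nonneg d c
  refine ⟨glued a 0 x0 Y, hge, fun j => ?_,
    glued_row a 0 x0 Y hYe hx0 le_rfl _ _ (by linarith) (fun v hv => (hY _ (hcK v hv)).2.2)⟩
  by_cases hj : j ∈ H167FK.Sys.alive x0
  · rw [glued_comp a 0 x0 Y (self_mem_comp hj)]
    exact (hY _ (hcK j hj)).2.1 j
  · have h1 := H167FK.Sys.abs_eq_one hx0 hj
    rw [hge.2 j h1]; exact h1

theorem log_20 : log 20 ≤ 3 := by
  have h1 : Real.exp 1 ≥ 2.7182818283 := Real.exp_one_gt_d9.le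
  have h2 : (20 : ℝ) ≤ Real.exp 3 := by
    have h3 : Real.exp 3 = Real.exp 1 ^ 3 := by rw [← Real.exp_nat_mul]; norm_num
    rw [h3]
    have h4 : (2.7182818283 : ℝ) ^ 3 ≤ Real.exp 1 ^ 3 := pow_le_pow_left₀ (by norm_num) h1 3
    have h5 : (20 : ℝ) ≤ (2.7182818283 : ℝ) ^ 3 := by norm_num
    linarith
  calc log 20 ≤ log (Real.exp 3) := Real.log_le_log (by norm_num) h2
    _ = 3 := Real.log_exp 3

/-- Sizes of the components against iterated logarithms. -/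
theorem fz_iter {d : ℝ} (hd : 1 ≤ d) (r : ℕ) : ∀ {x z : ℝ}, 1 ≤ x → 0 ≤ z →
    x ≤ 10 * d ^ 2 * (1 + z) → (fz d)^[r] x ≤ 10 * d ^ 2 * (1 + slog^[r] z) := by
  induction r with
  | zero => intro x z _ _ h; exact h
  | succ r ih =>
    intro x z hx hz h
    rw [Function.iterate_succ_apply, Function.iterate_succ_apply]
    apply ih (fz_one hd hx) (slog_nonneg hz)
    unfold fz slog
    have hd0 : 0 < d := by linarith
    have h1 : log (2 * x) ≤ log (20 * d ^ 2 * (1 + z)) := by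
      apply Real.log_le_log (by linarith)
      linarith
    have h1' : log (20 * d ^ 2 * (1 + z)) = log 20 + 2 * log d + log (1 + z) := by
      rw [Real.log_mul (by positivity) (by linarith), Real.log_mul (by norm_num) (by positivity),
        Real.log_pow]
      push_cast
      ring
    rw [h1'] at h1
    have h2 := log_20
    have h3 : 0 ≤ log (1 + z) := Real.log_nonneg (by linarith)
    have h4 := Real.log_le_sub_one_of_pos hd0
    have h5 : log (2 * x) ≤ 1 + 2 * d + log (1 + z) := by linarith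
    have h6 : d * log (2 * x) ≤ d * (1 + 2 * d + log (1 + z)) :=
      mul_le_mul_of_nonneg_left h5 hd0.le
    have h7 : d ≤ d ^ 2 := by nlinarith
    have h8 : d * log (1 + z) ≤ d ^ 2 * log (1 + z) := mul_le_mul_of_nonneg_right h7 h3
    have h9 : 0 ≤ d ^ 2 * log (1 + z) := by positivity
    nlinarith

/-- Matrix form. -/
theorem matrix_form (a : I → J → ℝ) (d : ℝ) (Δ ρ0 : ℕ) (H : Hyp a d Δ ρ0) (r : ℕ) (c : ℝ)
    (hc : c1 d Δ ρ0 ≤ c)
    (hc2 : 2 * log (20 * d ^ 2 * (1 + slog^[r] (Fintype.card J))) < c) :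
    ∃ y : J → ℝ, (∀ j, |y j| = 1) ∧ ∀ i, |∑ v, a i v * y v| ≤
      (r : ℝ) * cst d (c1 d Δ ρ0) + cst d c := by
  classical
  set n : ℝ := (Fintype.card J : ℝ) with hn
  have hn0 : 0 ≤ n := Nat.cast_nonneg _
  have hd := H.hd
  set m : ℝ := 1 + n with hm
  have hsm : Small a 0 m (fun _ => 0) := by
    intro v _
    have h1 : (comp a 0 (H167FK.Sys.alive (fun _ : J => (0 : ℝ))) v).card ≤ Fintype.card J :=
      Finset.card_le_univ _
    have h2 : ((comp a 0 (H167FK.Sys.alive (fun _ : J => (0 : ℝ))) v).card : ℝ) ≤ n := by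
      rw [hn]; exact_mod_cast h1
    linarith
  obtain ⟨x, hx1, hx2, hx3⟩ := stages H r (fun _ => 0) (fun _ => by simp) m (by linarith) hsm
  have hl0 : 0 ≤ slog^[r] n := slog_iter_nonneg r hn0
  have hd2 : 1 ≤ d ^ 2 := one_le_pow₀ hd
  have hfs : (fz d)^[r] m ≤ 10 * d ^ 2 * (1 + slog^[r] n) :=
    fz_iter hd r (by linarith) hn0 (by
      rw [hm]
      have : 1 * (1 + n) ≤ 10 * d ^ 2 * (1 + n) :=
        mul_le_mul_of_nonneg_right (by linarith) (by linarith)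
      linarith)
  have hone : 1 ≤ 10 * d ^ 2 * (1 + slog^[r] n) := by
    have : 1 * (1 + slog^[r] n) ≤ 10 * d ^ 2 * (1 + slog^[r] n) :=
        mul_le_mul_of_nonneg_right (by linarith) (by linarith)
    linarith
  obtain ⟨y, hy1, hy2, hy3⟩ := last_glued H x hx1.1 (10 * d ^ 2 * (1 + slog^[r] n)) hone
    (fun v hv => (hx3 v hv).trans hfs) c hc (by
      have h1 : 2 * (10 * d ^ 2 * (1 + slog^[r] n)) = 20 * d ^ 2 * (1 + slog^[r] n) := by ring
      rw [h1]; exact hc2)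
  have hcst := cst_nonneg d c
  have h := RowOK.trans hcst hx2 hy3 hy1
  refine ⟨y, hy2, fun i => ?_⟩
  have hsum0 : ∑ v, a i v * y v = ∑ v, a i v * (y v - (fun _ : J => (0 : ℝ)) v) := by simp
  rw [hsum0]
  rcases h i with h | h
  · exact h
  · have := h y ⟨hy1.1, fun _ _ => rfl⟩
    linarith

end H167KM
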