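import Pool.Agent.H167R2.KMPar
import Pool.Agent.H167R2.KMComb
import Pool.Agent.H167R2.BKGood

/-!
# The stage: only small components survive
-/

namespace H167KM

open Finset Real H167BJ H167BK H167KL

variable {I J : Type*} [Fintype I] [Fintype J]

/-- Cost of a stage. -/
noncomputable def cst (d c : ℝ) : ℝ :=
  800 * Real.sqrt d + 301200 * (1 + log (100 * d)) ^ 2 * Real.sqrt c

theorem cst_nonneg (d c : ℝ) : 0 ≤ cst d c := by
  unfold cst; positivity

theorem total_cst (d c : ℝ) (hd : 1 ≤ d) (hc : 0 ≤ c) (hh : 30 ≤ Real.sqrt (160000 * (1 + log (100 * d)) * c)) (K : ℕ) :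
    ∑ k ∈ range K, (4 * dk (100 * d) (Real.sqrt (160000 * (1 + log (100 * d)) * c)) k
      + rk (100 * d) (Real.sqrt (160000 * (1 + log (100 * d)) * c)) k) ≤ cst d c := by
  have h1 := total (t := 100 * d) (by linarith) hh K
  refine h1.trans ?_
  set ν := 1 + log (100 * d) with hν
  have hlog : 0 ≤ log (100 * d) := Real.log_nonneg (by linarith)
  have hν1 : 1 ≤ ν := by linarith
  have h2 : Real.sqrt (100 * d) = 10 * Real.sqrt d := by
    rw [Real.sqrt_mul (by norm_num), show (100 : ℝ) = 10 ^ 2 by norm_num,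
      Real.sqrt_sq (by norm_num)]
  have h3 : Real.sqrt (160000 * ν * c) = 400 * (Real.sqrt ν * Real.sqrt c) := by
    rw [mul_assoc, Real.sqrt_mul (by norm_num), Real.sqrt_mul (by linarith),
      show (160000 : ℝ) = 400 ^ 2 by norm_num, Real.sqrt_sq (by norm_num)]
  have h4 : ν ^ (3 / 2 : ℝ) = ν * Real.sqrt ν := by
    rw [Real.sqrt_eq_rpow, ← Real.rpow_one_add' (by linarith) (by norm_num)]
    norm_num
  have h5 : Real.sqrt ν * Real.sqrt ν = ν := Real.mul_self_sqrt (by linarith)
  rw [h2, h3, h4]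
  unfold cst
  rw [← hν]
  have h6 : 753 * (400 * (Real.sqrt ν * Real.sqrt c)) * (ν * Real.sqrt ν)
      = 301200 * ν ^ 2 * Real.sqrt c := by
    calc 753 * (400 * (Real.sqrt ν * Real.sqrt c)) * (ν * Real.sqrt ν)
        = 301200 * (ν * (Real.sqrt ν * Real.sqrt ν)) * Real.sqrt c := by ring
      _ = _ := by rw [h5]; ring
  rw [h6]
  linarith

theorem numeric {c Kκ SC nd Γ len z Th lN : ℝ} (hc0 : 0 < c) (hK0 : 0 < Kκ) (hK : 8 * Kκ ≤ c)
    (hSC0 : 0 ≤ SC) (hnd : 0 ≤ nd) (hz : z ≤ nd) (hlen : len ≤ 2 * SC + 2 * z)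
    (hTh : Γ - 16 / 1000 * c * SC ≤ Th) (hpot : Th - len * Kκ ≤ lN) (hgain : c * SC ≤ Γ)
    (hΓn : 2 * c * nd ≤ Γ) : 3 / 5 * Γ ≤ lN := by
  have hlenK : len * Kκ ≤ (2 * SC + 2 * nd) * (c / 8) := by
    have h1 : len ≤ 2 * SC + 2 * nd := by linarith
    exact mul_le_mul h1 (by linarith) hK0.le (by positivity)
  have hcSC : 0 ≤ c * SC := by positivity
  have hcn : 0 ≤ c * nd := by positivity
  nlinarith

theorem numeric2 {c d SC n k Γ lN : ℝ} (hc5 : 5 ≤ c) (hd : 0 < d) (hSC1 : 1 ≤ SC) (hkn : k ≤ n)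
    (hmain : 3 / 5 * Γ ≤ lN) (hgain : c * SC ≤ Γ) (hΓn : 2 * c * (n / d) ≤ Γ)
    (hk : 2 * lN < c ∨ d * lN < k) : False := by
  rcases hk with hk | hk
  · have h1 : c * 1 ≤ c * SC := mul_le_mul_of_nonneg_left hSC1 (by linarith)
    linarith
  · have h1 : lN < n / d := by
      rw [lt_div_iff₀ hd]
      linarith
    have hΓ : 0 ≤ Γ := le_trans (by nlinarith) hgain
    have h0 : 0 ≤ n / d := by linarith
    have h2 : 5 * (n / d) ≤ c * (n / d) := mul_le_mul_of_nonneg_right hc5 h0
    nlinarith

/-- Hypotheses of a stage. -/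
structure Hyp (a : I → J → ℝ) (d : ℝ) (Δ ρ0 : ℕ) : Prop where
  a01 : ∀ i v, a i v = 0 ∨ a i v = 1
  hd : 1 ≤ d
  col : ∀ v, ∑ i, a i v ≤ d
  hΔ1 : 1 ≤ Δ
  hΔ : ∀ v, (nb a v).card ≤ Δ
  hρ : d ≤ 25 ^ ρ0

/-- **Stage.** -/
theorem km_stage (a : I → J → ℝ) (d : ℝ) (Δ ρ0 : ℕ) (H : Hyp a d Δ ρ0) (c : ℝ)
    (hc : 8 * log (2 * ((Δ : ℝ) ^ (2 * (ρ0 + 1) + 1) * (100 * d))) ≤ c)
    (x0 : J → ℝ) (hx0 : ∀ j, |x0 j| ≤ 1) (N : ℝ) (hN1 : 1 ≤ N)
    (hN : ((H167FK.Sys.alive x0).card : ℝ) ≤ N) (k : ℕ) (hk1 : 1 ≤ k)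
    (hk : 2 * log (2 * N) < c ∨ d * log (2 * N) < k) :
    ∃ y : J → ℝ, (∀ j, |y j| ≤ 1) ∧ (∀ j, |x0 j| = 1 → y j = x0 j) ∧
      (∀ i, |∑ v, a i v * (y v - x0 v)| ≤ cst d c ∨
        ∀ z : J → ℝ, (∀ j, |z j| ≤ 1) → (∀ j, |y j| = 1 → z j = y j) →
          |∑ v, a i v * (z v - x0 v)| ≤ cst d c) ∧
      ∀ v ∈ H167FK.Sys.alive y, (comp a 0 (H167FK.Sys.alive y) v).card < k := by
  classical
  have hd := H.hd
  have hd0 : 0 < d := by linarith
  have a01 := H.a01
  have ha0 : ∀ i v, 0 ≤ a i v := fun i v => by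
    rcases a01 i v with h | h <;> rw [h] <;> norm_num
  have ha1 : ∀ i v, |a i v| = a i v := fun i v => abs_of_nonneg (ha0 i v)
  have hsq : ∀ i v, a i v ^ 2 = a i v := fun i v => by
    rcases a01 i v with h | h <;> rw [h] <;> norm_num
  set t : ℝ := 100 * d with htd
  have ht : 1 ≤ t := by linarith
  set ν : ℝ := 1 + log t with hν
  have hlogt : 0 ≤ log t := Real.log_nonneg ht
  have hν1 : 1 ≤ ν := by linarith
  have hΔR : (1 : ℝ) ≤ Δ := by exact_mod_cast H.hΔ1
  set nn : ℕ := 2 * (ρ0 + 1) + 1 with hnn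
  have hΔn : (1 : ℝ) ≤ (Δ : ℝ) ^ nn := one_le_pow₀ hΔR
  -- size of `c`
  have hc5 : 5 ≤ c := by
    have h1 : log 2 ≤ log (2 * ((Δ : ℝ) ^ nn * t)) := by
      apply Real.log_le_log (by norm_num)
      nlinarith
    have h2 := Real.log_two_gt_d9
    linarith
  have hc0 : 0 < c := by linarith
  set h : ℝ := Real.sqrt (160000 * ν * c) with hh
  have hh2 : h ^ 2 = 160000 * ν * c := Real.sq_sqrt (by positivity)
  have hh30 : 30 ≤ h := by
    apply Real.le_sqrt_of_sq_le
    nlinarith
  obtain ⟨L, hL1, hL2, hL3, hL4⟩ := exists_lv t h ht hh30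
  have hLν : (L : ℝ) ≤ ν := by linarith
  -- weights of the walks
  set X : ℝ := (Δ : ℝ) ^ nn * 2 ^ L with hX
  have h2L1 : (1 : ℝ) ≤ 2 ^ L := one_le_pow₀ (by norm_num)
  have h2Lt : (2 : ℝ) ^ L ≤ t :=
    (pow_le_pow_left₀ (by norm_num) (by norm_num : (2 : ℝ) ≤ 16) L).trans hL3
  have hX1 : 1 ≤ X := by rw [hX]; nlinarith
  have hXL : (2 : ℝ) ^ L ≤ X := by rw [hX]; nlinarith
  set Kκ : ℝ := log (2 * X) with hKκ
  have hKκ0 : 0 < Kκ := Real.log_pos (by linarith)
  have hKκc : 8 * Kκ ≤ c := by
    refine le_trans ?_ hc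
    apply mul_le_mul_of_nonneg_left _ (by norm_num)
    apply Real.log_le_log (by linarith)
    rw [hX]
    have : (Δ : ℝ) ^ nn * 2 ^ L ≤ (Δ : ℝ) ^ nn * t := mul_le_mul_of_nonneg_left h2Lt (by linarith)
    linarith
  set κ : ℝ := 1 / (2 * X) with hκ
  have hκ0 : 0 < κ := by positivity
  have hlogκ : log κ = -Kκ := by rw [hκ, one_div, Real.log_inv]
  set F0 : Finset J := H167FK.Sys.alive x0 with hF0
  set Lb : Finset (Finset ℕ) := (range L).powerset with hLb
  have hLbc : Lb.card = 2 ^ L := by rw [hLb, Finset.card_powerset, Finset.card_range]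
  let M : ℕ := 2 * Fintype.card J + 1
  have hwalkc : ∀ m, ((walks a nn Lb F0 m).card : ℝ) * κ ^ (m + 1) ≤ N * (1 / 2) ^ (m + 1) := by
    intro m
    have h1 : ((walks a nn Lb F0 m).card : ℝ) ≤ F0.card * 2 ^ L * X ^ m := by
      have h2 := card_walks a nn Lb F0 Δ H.hΔ m
      rw [hLbc] at h2
      have h3 : ((walks a nn Lb F0 m).card : ℝ)
          ≤ ((F0.card * 2 ^ L * (Δ ^ nn * 2 ^ L) ^ m : ℕ) : ℝ) := by
        exact_mod_cast h2
      refine h3.trans (le_of_eq ?_)
      push_cast
      rw [hX]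
    have h4 : (F0.card : ℝ) * 2 ^ L * X ^ m ≤ N * X ^ (m + 1) := by
      rw [pow_succ]
      have h5 : (F0.card : ℝ) * 2 ^ L ≤ N * X := mul_le_mul hN hXL (by positivity) (by linarith)
      calc (F0.card : ℝ) * 2 ^ L * X ^ m ≤ N * X * X ^ m :=
            mul_le_mul_of_nonneg_right h5 (by positivity)
        _ = N * (X ^ m * X) := by ring
    calc ((walks a nn Lb F0 m).card : ℝ) * κ ^ (m + 1) ≤ N * X ^ (m + 1) * κ ^ (m + 1) :=
          mul_le_mul_of_nonneg_right (h1.trans h4) (by positivity)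
      _ = N * (X * κ) ^ (m + 1) := by rw [mul_pow]; ring
      _ = N * (1 / 2) ^ (m + 1) := by
          congr 2
          rw [hκ]; field_simp
  let P : H167KL.Sys I J ((_ : ℕ) × List (J × Finset ℕ)) :=
    { a := a
      I0 := ∅
      I1 := Finset.univ
      t := t
      g0 := 0
      ht := ht
      hg0 := le_rfl
      a1 := fun i v => by rcases a01 i v with h | h <;> rw [h] <;> norm_num
      col := fun v => by
        have h1 := H.col v
        simp only [hsq]
        linarith
      x0 := x0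
      hx0 := hx0
      θ := θk t h
      D := dk t h
      hθ0 := θk_pos ht hh30
      hθa := θk_anti ht hh30
      Yl := yk t h
      hYl := yk_ge
      lam := lk t h
      hlam := lk_pos ht
      Rb := rk t h
      hRb := fun k => by unfold rk; positivity
      g := fun l => exp (-Gk l)
      hg := fun l => by rw [gap ht l]
      hθl := lam_small ht hh30
      hD0 := dk_nonneg ht hh30
      hθD := dk_spec ht hh30
      l0 := fun _ => 0
      hl0 := fun _ _ => Or.inl rfl
      L := L
      hl0L := fun _ _ => Nat.zero_le _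
      hL := fun i v hiv => by
        rcases a01 i v with h | h
        · exact absurd h hiv
        · rw [h, abs_one]; exact hL1
      S := (range M).sigma (fun m => walks a nn Lb F0 m)
      wt := fun τ => κ ^ (τ.1 + 1)
      hwt := fun _ _ => pow_pos hκ0 _
      b := fun τ i l => min 1 ((τ.2.map (fun p => if l ∈ p.2 then |a i p.1| else 0)).sum)
      hb0 := fun τ _ i l => le_min zero_le_one (List.sum_nonneg (by
        intro x hx
        rw [List.mem_map] at hx
        obtain ⟨p, -, rfl⟩ := hx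
        split_ifs
        · exact abs_nonneg _
        · exact le_rfl))
      hb1 := fun τ _ i l => min_le_left _ _
      w := wt t c ν
      hw := wt_pos ht hc0 hν1
      N := N
      hN := hN
      hwtN := by
        rw [Finset.sum_sigma]
        calc ∑ m ∈ range M, ∑ τ ∈ walks a nn Lb F0 m, κ ^ (m + 1)
            = ∑ m ∈ range M, ((walks a nn Lb F0 m).card : ℝ) * κ ^ (m + 1) := by
              refine Finset.sum_congr rfl fun m _ => ?_
              rw [Finset.sum_const, nsmul_eq_mul]
          _ ≤ ∑ m ∈ range M, N * (1 / 2) ^ (m + 1) := Finset.sum_le_sum fun m _ => hwalkc m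
          _ = N * ∑ m ∈ range M, ((1 : ℝ) / 2) ^ (m + 1) := by rw [Finset.mul_sum]
          _ ≤ N * 1 := mul_le_mul_of_nonneg_left (geom_half_sum M) (by linarith)
          _ = N := mul_one N }
  have hwY : ∀ l < P.L, P.w l ≤ P.Yl l := by
    intro l hl
    have h1 : θk t h l = 1 := le_antisymm (θk_le_one l) (hL2 l hl)
    refine le_trans ?_ (wk_le_yk l)
    show wt t c ν l ≤ wk t h l
    unfold wk
    rw [h1, hh2, one_pow, mul_one]
    exact wt_le ht hc0 hν1 l
  -- kept entries
  have ham : ∀ F, ∀ i ∈ P.med F, ∀ v, P.am F i v = a i v := by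
    intro F i hi v
    have h1 : P.lev F i < L := (P.mem_med.mp hi).2.2.2
    have h2 := hL2 _ h1
    have h3 : |a i v| ≤ 1 := P.a1 i v
    show (if |a i v| ≤ θk t h (P.lev F i) then a i v else 0) = a i v
    rw [if_pos (h3.trans h2)]
  -- every medium row is seen
  have hseen : P.Seen := by
    intro F F' hF i hi
    have h1 : i ∈ P.med F := (Finset.mem_filter.mp hi).1
    have h2 : 0 < P.mass F i := (P.mem_med.mp h1).2.1
    obtain ⟨v, hv, hv2⟩ := Finset.exists_ne_zero_of_sum_ne_zero h2.ne'
    have hlev : P.lev F i < L := (P.mem_med.mp h1).2.2.2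
    refine ⟨⟨0, [(v, {P.lev F i})]⟩, ?_, ?_⟩
    · refine Finset.mem_sigma.mpr ⟨Finset.mem_range.mpr (Nat.succ_pos _), ?_⟩
      have := mem_walks a nn Lb F0 [(v, {P.lev F i})] (by simp) (by simp) (by
        intro p hp
        rw [List.mem_singleton] at hp
        rw [hp]
        refine ⟨hF hv, ?_⟩
        rw [hLb, Finset.mem_powerset]
        simpa using hlev)
      simpa using this
    · show 0 < min 1 _
      apply lt_min one_pos
      simp only [List.map_cons, List.map_nil, List.sum_cons, List.sum_nil, Finset.mem_singleton,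
        if_true, add_zero]
      exact lt_of_le_of_ne (abs_nonneg _) (Ne.symm hv2)
  have hgood : ∀ (F : Finset J) (v : J) (y : J → ℝ), F ⊆ H167FK.Sys.alive P.x0 → v ∈ F →
      k ≤ (comp P.a 0 F v).card → (∀ j, |y j| ≤ 1) → P.f F y ≤ 2 * P.N →
      ∃ A' ⊆ comp P.a 0 F v, A'.Nonempty ∧ P.Mov F A' y := by
    intro F v y hF hv hkK hy hf
    by_contra hno
    push Not at hno
    set K : Finset J := comp a 0 F v with hK
    have hKF : K ⊆ F := comp_sub _ _ _ _
    have hvK : v ∈ K := mem_comp.mpr ⟨hv, Relation.ReflTransGen.refl⟩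
    have hKne : K.Nonempty := ⟨v, hvK⟩
    -- rows meeting `K` live in `K`
    have hrowK : ∀ i, (∃ u ∈ K, a i u ≠ 0) → ∑ u ∈ F, a i u = ∑ u ∈ K, a i u := by
      intro i hi
      symm
      refine Finset.sum_subset hKF fun u hu hu2 => ?_
      by_contra hne
      apply hu2
      refine comp_rows (a := a) (c0 := 0) (F := F) (v := v) (i := i) ?_ hi u hu hne
      obtain ⟨u', hu', hne'⟩ := hi
      exact Finset.sum_pos' (fun _ _ => abs_nonneg _) ⟨u', hKF hu', abs_pos.mpr hne'⟩
    have hek : ∀ l, P.e l = ek t l := fun l => rfl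
    let S : Stuck I J :=
      { a := a
        a01 := a01
        t := d
        ht := hd
        col := H.col
        K := K
        M := P.R F K
        Bg := (P.big F).filter (fun i => ∃ u ∈ K, a i u ≠ 0)
        L := L
        le := P.lev F
        hle := fun i hi => (P.mem_med.mp (Finset.mem_filter.mp hi).1).2.2.2
        φ := fun i => P.φ (P.lev F i) F i y
        hφ := fun i => (P.φ_pos _ _ _ _).le
        e := ek t
        he := ek_pos ht
        w := wt t c ν
        hw := wt_pos ht hc0 hν1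
        c := c
        hc := hc0
        ϑ := tv ν
        hw2 := wt_mul ht hc0 hν1
        hϑ := tv_sum hν1 L hLν
        lowM := by
          intro i hi
          obtain ⟨h1, u, hu, hu2⟩ := Finset.mem_filter.mp hi
          have h2 := P.lt_Es (P.mem_med.mp h1).2.2.2
          have h3 : P.Es (P.lev F i) F i ≤ ∑ u ∈ K, a i u := by
            rw [← hrowK i ⟨u, hu, by rw [← ham F i h1 u]; exact hu2⟩]
            refine (P.Es_le_En _ F i).trans (le_of_eq ?_)
            exact Finset.sum_congr rfl fun v _ => hsq i v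
          rw [hek, ek_succ] at h2
          linarith
        lowB := by
          intro i hi
          obtain ⟨h1, h4⟩ := Finset.mem_filter.mp hi
          have h2 := (P.mem_big.mp h1).2.2
          have h3 : P.En F i = ∑ u ∈ K, a i u := by
            rw [← hrowK i h4]
            exact Finset.sum_congr rfl fun v _ => hsq i v
          rw [hek, h3] at h2
          have h5 : ek t 0 = 1000 * d := by unfold ek; rw [htd]; simp; ring
          linarith
        stuck := by
          intro A' hA' hne M' Bg' hM' hBg'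
          have h1 := hno A' hA' hne
          have e1 : M' = P.R F A' := by
            ext i
            rw [hM']
            constructor
            · rintro ⟨h2, u, hu, hu2⟩
              have h3 := (Finset.mem_filter.mp h2).1
              exact Finset.mem_filter.mpr ⟨h3, u, hu, by rw [ham F i h3 u]; exact hu2⟩
            · intro h2
              obtain ⟨h3, u, hu, hu2⟩ := Finset.mem_filter.mp h2
              exact ⟨Finset.mem_filter.mpr ⟨h3, u, hA' hu, hu2⟩, u, hu,
                by rw [← ham F i h3 u]; exact hu2⟩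
          have e2 : Bg'.card ≥ ((P.big F).filter (fun i => ∃ u ∈ A', a i u ≠ 0)).card := by
            apply Finset.card_le_card
            intro i hi
            obtain ⟨h3, u, hu, hu2⟩ := Finset.mem_filter.mp hi
            exact (hBg' i).mpr ⟨Finset.mem_filter.mpr ⟨h3, u, hA' hu, hu2⟩, u, hu, hu2⟩
          have e2' : (((P.big F).filter (fun i => ∃ u ∈ A', a i u ≠ 0)).card : ℝ) ≤ Bg'.card := by
            exact_mod_cast e2
          by_contra hcon
          push Not at hcon
          rw [e1] at hcon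
          have h5 : 0 ≤ ∑ i ∈ P.R F A', P.φ (P.lev F i) F i y :=
            Finset.sum_nonneg fun i _ => (P.φ_pos _ _ _ _).le
          have h6 : (0 : ℝ) ≤ Bg'.card := Nat.cast_nonneg _
          apply h1
          refine ⟨by linarith, ?_⟩
          refine le_trans (le_of_eq ?_) (show 10 * (((P.big F).filter
            (fun i => ∃ u ∈ A', a i u ≠ 0)).card : ℝ) ≤ A'.card by linarith)
          congr! }
    have hKS : S.K = K := rfl
    -- hit rows
    set Hs : Finset I := S.M.filter (fun i => S.Hit i) with hHs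
    set C : ℕ → ℝ := fun l => ((S.X l).card : ℝ) with hC
    have hC0 : ∀ l, 0 ≤ C l := fun l => Nat.cast_nonneg _
    set XX : Finset J := (range L).biUnion S.X with hXX
    set Q : Finset J := XX ∪ S.Z ρ0 with hQ
    have hXK : ∀ l, S.X l ⊆ K := S.X_sub
    have hQK : Q ⊆ K := Finset.union_subset (Finset.biUnion_subset.mpr fun l _ => hXK l)
      (S.Z_subK ρ0)
    have hcov : ∀ u ∈ comp a 0 F v, ∃ q ∈ Q, hop a (ρ0 + 1) q u := by
      intro u hu
      by_cases huZ : u ∈ S.Z ρ0
      · exact ⟨u, Finset.mem_union_right _ huZ, hop_refl a _ u⟩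
      · obtain ⟨l, hl, x, hx, hxu⟩ := S.cover ρ0 u hu huZ
        exact ⟨x, Finset.mem_union_left _ (Finset.mem_biUnion.mpr ⟨l, Finset.mem_range.mpr hl, hx⟩),
          hxu⟩
    have hQne : Q.Nonempty := by
      obtain ⟨q, hq, -⟩ := hcov v hvK
      exact ⟨q, hq⟩
    let Λ : J → Finset ℕ := fun u => (range L).filter (fun l => u ∈ S.X l)
    obtain ⟨τ, hτ1, hτ2, hτ3, hτ4, hτ5⟩ := H167BK.cover (hop a nn) (fun _ _ h => hop_symm h) Q hQne
        (net_cut a 0 F v Q (ρ0 + 1) hcov hQK) Λ
    -- size of the walk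
    have hQc : (Q.card : ℝ) ≤ ∑ l ∈ range L, C l + ((S.Z ρ0).card : ℝ) := by
      have h1 : Q.card ≤ XX.card + (S.Z ρ0).card := Finset.card_union_le _ _
      have h2 : XX.card ≤ ∑ l ∈ range L, (S.X l).card := Finset.card_biUnion_le
      have h3 : (Q.card : ℝ) ≤ ((∑ l ∈ range L, (S.X l).card + (S.Z ρ0).card : ℕ) : ℝ) := by
        exact_mod_cast h1.trans (Nat.add_le_add_right h2 _)
      push_cast at h3
      exact h3
    have hlen : (τ.length : ℝ) ≤ 2 * ∑ l ∈ range L, C l + 2 * ((S.Z ρ0).card : ℝ) := by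
      have h1 : ((τ.length + 1 : ℕ) : ℝ) ≤ ((2 * Q.card : ℕ) : ℝ) := by exact_mod_cast hτ3
      push_cast at h1
      linarith
    have hlen1 : 1 ≤ τ.length := List.length_pos_iff.mpr hτ1
    -- the test
    let T0 : (_ : ℕ) × List (J × Finset ℕ) := ⟨τ.length - 1, τ⟩
    have hT0S : T0 ∈ P.S := by
      refine Finset.mem_sigma.mpr ⟨Finset.mem_range.mpr ?_, ?_⟩
      · show τ.length - 1 < M
        have h1 : Q.card ≤ Fintype.card J := Finset.card_le_univ Q
        simp only [M]
        omega
      · refine mem_walks a nn Lb F0 τ hτ1 hτ2 fun p hp => ?_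
        obtain ⟨h1, h2⟩ := hτ4 p hp
        refine ⟨hF (hKF (hQK h1)), ?_⟩
        rw [hLb, Finset.mem_powerset]
        rcases h2 with h2 | h2
        · rw [h2]; exact Finset.empty_subset _
        · rw [h2]; exact Finset.filter_subset _ _
    -- sums over the walk
    have hsumQ : ∀ (g : J → ℝ) (l : ℕ),
        (τ.map (fun p => if l ∈ p.2 then g p.1 else 0)).sum
        = ∑ u ∈ K, (if l ∈ Λ u then g u else 0) := by
      intro g l
      have h1 := hτ5 (fun u s => if l ∈ s then g u else 0) (fun u => by simp)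
      rw [h1]
      refine Finset.sum_subset hQK fun u hu hu2 => ?_
      rw [if_neg]
      intro h2
      apply hu2
      obtain ⟨h3, h4⟩ := Finset.mem_filter.mp h2
      exact Finset.mem_union_left _ (Finset.mem_biUnion.mpr ⟨l, h3, h4⟩)
    have hbT : ∀ i l, P.b T0 i l = min 1 (∑ u ∈ K, if l ∈ Λ u then |a i u| else 0) := by
      intro i l
      show min 1 ((τ.map (fun p => if l ∈ p.2 then |a i p.1| else 0)).sum) = _
      rw [hsumQ (fun u => |a i u|) l]
    have hb1 : ∀ i ∈ Hs, P.b T0 i (P.lev F i) = 1 := by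
      intro i hi
      obtain ⟨h1, u, hu, hu2⟩ := Finset.mem_filter.mp hi
      rw [hbT]
      apply min_eq_left
      have hlev : P.lev F i < L := S.hle i h1
      have huK : u ∈ K := hXK _ hu
      have h3 := Finset.single_le_sum (f := fun u => if P.lev F i ∈ Λ u then |a i u| else 0)
        (fun u _ => by
          by_cases h : P.lev F i ∈ Λ u
          · simp only [h, if_true]; exact abs_nonneg _
          · simp only [h, if_false]; exact le_rfl) huK
      have h4 : P.lev F i ∈ Λ u := Finset.mem_filter.mpr ⟨Finset.mem_range.mpr hlev, hu⟩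
      simp only [h4, if_true] at h3
      have h5 : |a i u| = 1 := by
        rcases a01 i u with h | h
        · exact absurd h hu2
        · rw [h, abs_one]
      rw [h5] at h3
      exact h3
    have hbsum : ∀ l ∈ range L, ∑ i, P.b T0 i l ≤ d * C l := by
      intro l hl
      have h1 : ∑ i, P.b T0 i l ≤ ∑ i, (τ.map (fun p => if l ∈ p.2 then |a i p.1| else 0)).sum :=
        Finset.sum_le_sum fun i _ => min_le_right _ _
      have h2 := list_row_sum a d (fun v => by
        have := H.col v
        simp only [ha1]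
        exact this) l τ
      rw [hsumQ (fun _ => 1) l] at h2
      have h3 : ∑ u ∈ K, (if l ∈ Λ u then (1 : ℝ) else 0) = C l := by
        have h4 : ∀ u ∈ K, (if l ∈ Λ u then (1 : ℝ) else 0) = if u ∈ S.X l then (1 : ℝ) else 0 := by
          intro u _
          have : l ∈ Λ u ↔ u ∈ S.X l :=
            ⟨fun h => (Finset.mem_filter.mp h).2, fun h => Finset.mem_filter.mpr ⟨hl, h⟩⟩
          simp only [this]
        rw [Finset.sum_congr rfl h4, ← Finset.sum_filter]
        have h5 : K.filter (fun u => u ∈ S.X l) = S.X l := by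
          ext u
          rw [Finset.mem_filter]
          exact ⟨fun h => h.2, fun h => ⟨hXK l h, h⟩⟩
        rw [h5]
        simp [hC]
      rw [h3] at h2
      exact h1.trans h2
    -- the exponent
    set Γ : ℝ := ∑ i ∈ Hs, wt t c ν (P.lev F i) * P.φ (P.lev F i) F i y with hΓ
    set SC : ℝ := ∑ l ∈ range L, C l with hSC
    have hSC0 : 0 ≤ SC := Finset.sum_nonneg fun l _ => hC0 l
    have hTh : Γ - 16 / 1000 * c * SC ≤ P.Th F T0 y := by
      rw [P.Th_eq]
      have h1 : Γ ≤ ∑ i ∈ P.med F, P.b T0 i (P.lev F i) *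
          (P.w (P.lev F i) * P.φ (P.lev F i) F i y) := by
        have h2 : Γ = ∑ i ∈ Hs, P.b T0 i (P.lev F i) *
            (P.w (P.lev F i) * P.φ (P.lev F i) F i y) := by
          refine Finset.sum_congr rfl fun i hi => ?_
          rw [hb1 i hi, one_mul]
        rw [h2]
        apply Finset.sum_le_sum_of_subset_of_nonneg
        · intro i hi
          exact (Finset.mem_filter.mp (Finset.mem_filter.mp hi).1).1
        · intro i _ _
          exact mul_nonneg (P.hb0 T0 hT0S i _) (mul_pos (P.hw _) (P.φ_pos _ _ _ _)).le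
      have h3 := P.off_le F hT0S
      have h4 : ∑ l ∈ range P.L, P.w l * P.g l * ∑ i, P.b T0 i l ≤ 16 / 1000 * c * SC := by
        rw [hSC, Finset.mul_sum]
        refine Finset.sum_le_sum fun l hl => ?_
        have h5 : 0 < P.w l * P.g l := mul_pos (P.hw l) (P.g_pos l)
        calc P.w l * P.g l * ∑ i, P.b T0 i l ≤ P.w l * P.g l * (d * C l) :=
              mul_le_mul_of_nonneg_left (hbsum l hl) h5.le
          _ = (wt t c ν l * exp (-Gk l) * d) * C l := by
              show wt t c ν l * exp (-Gk l) * (d * C l) = _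
              ring
          _ ≤ 16 / 1000 * c * C l :=
              mul_le_mul_of_nonneg_right (wt_gap ht hc0 hν1 hd0 htd l) (hC0 l)
      linarith
    -- the potential bounds the exponent
    have hpot : P.Th F T0 y - (τ.length : ℝ) * Kκ ≤ log (2 * N) := by
      have h1 : P.wt T0 * exp (P.Th F T0 y) ≤ 2 * N := by
        have h2 := Finset.single_le_sum (f := fun τ => P.wt τ * exp (P.Th F τ y))
          (fun τ hτ => mul_nonneg (P.hwt τ hτ).le (exp_pos _).le) hT0S
        have h3 : 0 ≤ ∑ j, (1 - y j ^ 2) := by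
          refine Finset.sum_nonneg fun j _ => ?_
          have := hy j
          have h4 : y j ^ 2 ≤ 1 := by
            rw [← sq_abs]; nlinarith [abs_nonneg (y j)]
          linarith
        have h4 : P.f F y = ∑ τ ∈ P.S, P.wt τ * exp (P.Th F τ y) + ∑ j, (1 - y j ^ 2) := rfl
        have h5 : P.N = N := rfl
        rw [h5] at hf
        linarith
      have h2 : P.wt T0 = κ ^ τ.length := by
        show κ ^ (τ.length - 1 + 1) = _
        congr 1
        omega
      rw [h2] at h1
      have h3 := Real.log_le_log (mul_pos (pow_pos hκ0 _) (exp_pos _)) h1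
      rw [Real.log_mul (pow_pos hκ0 _).ne' (exp_pos _).ne', Real.log_exp, Real.log_pow,
        hlogκ] at h3
      linarith
    -- gains
    have hgain : c * SC ≤ Γ := by
      have hmaps : ∀ i ∈ Hs, P.lev F i ∈ range L := fun i hi =>
        Finset.mem_range.mpr (S.hle i (Finset.mem_filter.mp hi).1)
      rw [hΓ, ← Finset.sum_fiberwise_of_maps_to hmaps, hSC, Finset.mul_sum]
      refine Finset.sum_le_sum fun l _ => ?_
      refine (S.X_gain l (Hs.filter (fun i => P.lev F i = l)) (fun i => by
        rw [Finset.mem_filter, hHs, Finset.mem_filter]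
        exact ⟨fun h => ⟨h.1.1, h.2, h.1.2⟩, fun h => ⟨⟨h.1, h.2.2⟩, h.2.1⟩⟩)).trans ?_
      refine le_of_eq (Finset.sum_congr rfl fun i hi => ?_)
      have h1 := (Finset.mem_filter.mp hi).2
      show wt t c ν l * P.φ (P.lev F i) F i y = _
      rw [h1]
    set n : ℝ := (K.card : ℝ) with hn
    have hn1 : 1 ≤ n := by
      have : 1 ≤ K.card := Finset.card_pos.mpr hKne
      rw [hn]; exact_mod_cast this
    have hΓn : 2 * c * (n / d) ≤ Γ := by
      have h1 := S.hit_sum hKne Hs (fun i => by rw [hHs, Finset.mem_filter])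
      have h2 : 105 * c / d * ∑ i ∈ Hs, S.φ i ≤ Γ := by
        rw [Finset.mul_sum]
        refine Finset.sum_le_sum fun i _ => ?_
        exact mul_le_mul_of_nonneg_right (wt_ge ht hc0 hν1 hd0 htd _) (S.hφ i)
      have h3 : 24 / 25 * n / 50 ≤ ∑ i ∈ Hs, S.φ i := by
        have h4 : 24 / 25 * n ≤ 50 * ∑ i ∈ Hs, S.φ i := h1
        linarith
      have h4 : 105 * c / d * (24 / 25 * n / 50) ≤ 105 * c / d * ∑ i ∈ Hs, S.φ i :=
        mul_le_mul_of_nonneg_left h3 (by positivity)
      have h5 : 2 * c * (n / d) ≤ 105 * c / d * (24 / 25 * n / 50) := by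
        have h6 : 105 * c / d * (24 / 25 * n / 50) = 2520 / 1250 * c * (n / d) := by ring
        rw [h6]
        apply mul_le_mul_of_nonneg_right _ (by positivity)
        linarith
      linarith
    have hnd : 0 < n / d := by positivity
    have hΓ0 : 0 < Γ := lt_of_lt_of_le (by positivity) hΓn
    -- the sets are not all empty
    have hSC1 : 1 ≤ SC := by
      by_contra hcon
      push Not at hcon
      have h1 : ∀ l ∈ range L, S.X l = ∅ := by
        intro l hl
        have h2 := Finset.single_le_sum (f := C) (fun l _ => hC0 l) hl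
        have h3 : ((S.X l).card : ℝ) < 1 := lt_of_le_of_lt h2 hcon
        have h4 : (S.X l).card < 1 := by exact_mod_cast h3
        rw [← Finset.card_eq_zero]
        omega
      have h2 : Hs = ∅ := by
        rw [Finset.eq_empty_iff_forall_notMem]
        intro i hi
        obtain ⟨h3, u, hu, -⟩ := Finset.mem_filter.mp hi
        rw [h1 (S.le i) (Finset.mem_range.mpr (S.hle i h3))] at hu
        exact absurd hu (Finset.notMem_empty u)
      rw [hΓ, h2, Finset.sum_empty] at hΓ0
      exact lt_irrefl _ hΓ0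
    -- the remainder is small
    have hZ : ((S.Z ρ0).card : ℝ) ≤ n / d := by
      have h1 := S.Z_card ρ0
      have h2 : d * ((S.Z ρ0).card : ℝ) ≤ n :=
        (mul_le_mul_of_nonneg_right H.hρ (Nat.cast_nonneg _)).trans h1
      rw [le_div_iff₀ hd0]
      linarith
    have hmain : 3 / 5 * Γ ≤ log (2 * N) :=
      numeric hc0 hKκ0 hKκc hSC0 hnd.le hZ hlen hTh hpot hgain hΓn
    have hkn : (k : ℝ) ≤ n := by rw [hn]; exact_mod_cast hkK
    exact numeric2 hc5 hd0 hSC1 hkn hmain hgain hΓn hk
  obtain ⟨y, hy1, hy2⟩ := P.stage' hwY rfl k hgood hseen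
  have hBd : ∀ i, P.Bd P.L i ≤ cst d c := by
    intro i
    have h1 := total_cst d c hd hc0.le hh30 (L + 1)
    have h2 : P.Bd P.L i = ∑ k ∈ range (L + 1), (4 * dk t h k + rk t h k) := by
      show P.Tp (L + 1) - P.Tp 0 = _
      unfold H167KL.Sys.Tp
      rw [Finset.range_zero, Finset.sum_empty, sub_zero]
    rw [h2]
    exact h1
  refine ⟨y, hy1.box, hy1.froz, fun i => ?_, hy2⟩
  rcases hy1.rows (Finset.mem_univ i) with h | h
  · exact Or.inl (h.trans (hBd i))
  · right
    intro z hz hzy
    have h1 := h z hz hzy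
    have h2 := hBd i
    have h3 : P.g0 = 0 := rfl
    rw [h3] at h1
    exact h1.trans (by linarith)

end H167KM
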