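import Pool.Agent.H167R2.KMFinal

/-!
# Numerical form
-/

namespace H167KM

open Finset Real H167BJ H167BK

theorem log_100 : log 100 ≤ 5 := by
  have h1 : Real.exp 1 ≥ 2.7182818283 := Real.exp_one_gt_d9.le
  have h2 : (100 : ℝ) ≤ Real.exp 5 := by
    have h3 : Real.exp 5 = Real.exp 1 ^ 5 := by rw [← Real.exp_nat_mul]; norm_num
    rw [h3]
    have h4 : (2.7182818283 : ℝ) ^ 5 ≤ Real.exp 1 ^ 5 := pow_le_pow_left₀ (by norm_num) h1 5
    have h5 : (100 : ℝ) ≤ (2.7182818283 : ℝ) ^ 5 := by norm_num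
    linarith
  calc log 100 ≤ log (Real.exp 5) := Real.log_le_log (by norm_num) h2
    _ = 5 := Real.log_exp 5

theorem log_200 : log 200 ≤ 6 := by
  have h1 : log 200 = log 100 + log 2 := by
    rw [← Real.log_mul (by norm_num) (by norm_num)]; norm_num
  have h2 := log_100
  have h3 := Real.log_two_lt_d9
  rw [h1]; linarith

/-- Cubes of logarithms against square roots. -/
theorem cube_le (t : ℝ) (ht : 1 ≤ t) : (1 + log t) ^ 3 ≤ 216 * Real.sqrt t := by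
  have ht0 : 0 < t := by linarith
  have hlog : 0 ≤ log t := Real.log_nonneg ht
  have h1 : 1 + log t ≤ 6 * exp (log t / 6) := by
    have h2 := Real.add_one_le_exp (log t / 6)
    linarith
  have h2 : (1 + log t) ^ 3 ≤ (6 * exp (log t / 6)) ^ 3 := pow_le_pow_left₀ (by linarith) h1 3
  have h3 : (6 * exp (log t / 6)) ^ 3 = 216 * Real.sqrt t := by
    rw [mul_pow, ← Real.exp_nat_mul]
    have h4 : Real.sqrt t = exp (log t / 2) := by
      rw [Real.sqrt_eq_rpow, Real.rpow_def_of_pos ht0]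
      congr 1
      ring
    rw [h4]
    have h5 : ((3 : ℕ) : ℝ) * (log t / 6) = log t / 2 := by push_cast; ring
    rw [h5]
    norm_num
  rw [← h3]; exact h2

/-- Bound of the cost constant. -/
theorem c1_le (t s : ℕ) (ht : 1 ≤ t) (hs : 1 ≤ s) :
    c1 (t : ℝ) (t * s) ⌈log (t : ℝ)⌉₊ ≤ 88 * (1 + log (t : ℝ)) ^ 2 + 40 * (1 + log (t : ℝ)) * log s := by
  have htR : (1 : ℝ) ≤ t := by exact_mod_cast ht
  have hsR : (1 : ℝ) ≤ s := by exact_mod_cast hs
  have ht0 : (0 : ℝ) < t := by linarith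
  have hs0 : (0 : ℝ) < s := by linarith
  have hlt : 0 ≤ log (t : ℝ) := Real.log_nonneg htR
  have hls : 0 ≤ log (s : ℝ) := Real.log_nonneg hsR
  set ρ0 : ℕ := ⌈log (t : ℝ)⌉₊ with hρ
  have hρ1 : (ρ0 : ℝ) ≤ log t + 1 := (Nat.ceil_lt_add_one hlt).le
  unfold c1
  have h1 : log (2 * ((((t * s : ℕ) : ℝ)) ^ (2 * (ρ0 + 1) + 1) * (100 * (t : ℝ))))
      = log 200 + log t + (2 * ρ0 + 3) * (log t + log s) := by
    push_cast
    have h2 : 2 * (((t : ℝ) * s) ^ (2 * (ρ0 + 1) + 1) * (100 * (t : ℝ)))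
        = 200 * t * ((t : ℝ) * s) ^ (2 * (ρ0 + 1) + 1) := by ring
    rw [h2, Real.log_mul (by positivity) (by positivity), Real.log_mul (by norm_num) (by positivity),
      Real.log_pow, Real.log_mul (by positivity) (by positivity)]
    push_cast
    ring
  rw [h1]
  set ℓ : ℝ := 1 + log (t : ℝ) with hℓ
  have h2 : (2 * (ρ0 : ℝ) + 3) ≤ 5 * ℓ := by linarith
  have h3 := log_200
  have h4 : (2 * (ρ0 : ℝ) + 3) * (log t + log s) ≤ 5 * ℓ * (log t + log s) :=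
    mul_le_mul_of_nonneg_right h2 (by linarith)
  have h5 : 5 * ℓ * (log t + log s) ≤ 5 * ℓ * (ℓ + log s) := by
    apply mul_le_mul_of_nonneg_left _ (by linarith)
    linarith
  have h6 : 6 + log (t : ℝ) ≤ 6 * ℓ ^ 2 := by nlinarith
  nlinarith

/-- Bound of the cost. -/
theorem cst_le (t : ℝ) (ht : 1 ≤ t) (c y z : ℝ) (hy : 0 ≤ y) (hz : 0 ≤ z)
    (hc : c ≤ 96 * (1 + log t) ^ 2 + 40 * (1 + log t) * y + 2 * z) :
    cst t c ≤ 30000000000 * (Real.sqrt t + (1 + log t) ^ (5 / 2 : ℝ) * Real.sqrt y)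
      + 30000000000 * (1 + log t) ^ 2 * Real.sqrt z := by
  have ht0 : 0 < t := by linarith
  have hlog : 0 ≤ log t := Real.log_nonneg ht
  have hcube := cube_le t ht
  have h100 : 1 + log (100 * t) ≤ 6 * (1 + log t) := by
    rw [Real.log_mul (by norm_num) ht0.ne']
    have := log_100
    linarith
  have h100' : 0 ≤ 1 + log (100 * t) := by
    have : 0 ≤ log (100 * t) := Real.log_nonneg (by linarith)
    linarith
  set ℓ : ℝ := 1 + log t with hℓ
  have hℓ1 : 1 ≤ ℓ := by linarith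
  have hℓ0 : 0 ≤ ℓ := by linarith
  have hsq : (1 + log (100 * t)) ^ 2 ≤ 36 * ℓ ^ 2 := by
    have := pow_le_pow_left₀ h100' h100 2
    linarith [mul_pow (6 : ℝ) ℓ 2]
  have hpow : ℓ ^ (5 / 2 : ℝ) = ℓ ^ 2 * Real.sqrt ℓ := by
    rw [Real.sqrt_eq_rpow, ← Real.rpow_natCast, ← Real.rpow_add (by linarith)]
    norm_num
  have hsc : Real.sqrt c ≤ 10 * ℓ + 7 * (Real.sqrt ℓ * Real.sqrt y) + 2 * Real.sqrt z := by
    have h1 : c ≤ (10 * ℓ + 7 * (Real.sqrt ℓ * Real.sqrt y) + 2 * Real.sqrt z) ^ 2 := by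
      have e1 : Real.sqrt ℓ ^ 2 = ℓ := Real.sq_sqrt hℓ0
      have e2 : Real.sqrt y ^ 2 = y := Real.sq_sqrt hy
      have e3 : Real.sqrt z ^ 2 = z := Real.sq_sqrt hz
      have p1 : 0 ≤ Real.sqrt ℓ * Real.sqrt y := by positivity
      have p2 : 0 ≤ Real.sqrt z := Real.sqrt_nonneg z
      have e4 : (Real.sqrt ℓ * Real.sqrt y) ^ 2 = ℓ * y := by rw [mul_pow, e1, e2]
      have h2 : (10 * ℓ + 7 * (Real.sqrt ℓ * Real.sqrt y) + 2 * Real.sqrt z) ^ 2
          = 100 * ℓ ^ 2 + 49 * (Real.sqrt ℓ * Real.sqrt y) ^ 2 + 4 * Real.sqrt z ^ 2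
            + 140 * (ℓ * (Real.sqrt ℓ * Real.sqrt y)) + 40 * (ℓ * Real.sqrt z)
            + 28 * ((Real.sqrt ℓ * Real.sqrt y) * Real.sqrt z) := by ring
      rw [h2, e4, e3]
      have q1 : 0 ≤ ℓ * (Real.sqrt ℓ * Real.sqrt y) := by positivity
      have q2 : 0 ≤ ℓ * Real.sqrt z := by positivity
      have q3 : 0 ≤ (Real.sqrt ℓ * Real.sqrt y) * Real.sqrt z := by positivity
      have q4 : 0 ≤ ℓ * y := by positivity
      have q5 : 0 ≤ ℓ ^ 2 := by positivity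
      linarith
    have h2 := Real.sqrt_le_sqrt h1
    rwa [Real.sqrt_sq (by positivity)] at h2
  unfold cst
  rw [hpow]
  have hB : 301200 * (1 + log (100 * t)) ^ 2 * Real.sqrt c
      ≤ 301200 * (36 * ℓ ^ 2) * (10 * ℓ + 7 * (Real.sqrt ℓ * Real.sqrt y) + 2 * Real.sqrt z) := by
    apply mul_le_mul _ hsc (Real.sqrt_nonneg _) (by positivity)
    apply mul_le_mul_of_nonneg_left hsq (by norm_num)
  have hE : 301200 * (36 * ℓ ^ 2) * (10 * ℓ + 7 * (Real.sqrt ℓ * Real.sqrt y) + 2 * Real.sqrt z)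
      = 108432000 * ℓ ^ 3 + 75902400 * (ℓ ^ 2 * Real.sqrt ℓ * Real.sqrt y)
        + 21686400 * (ℓ ^ 2 * Real.sqrt z) := by ring
  rw [hE] at hB
  have hp1 : 0 ≤ ℓ ^ 2 * Real.sqrt ℓ * Real.sqrt y := by positivity
  have hp2 : 0 ≤ ℓ ^ 2 * Real.sqrt z := by positivity
  have hp3 : 0 ≤ Real.sqrt t := Real.sqrt_nonneg t
  have hfin : 30000000000 * (Real.sqrt t + ℓ ^ 2 * Real.sqrt ℓ * Real.sqrt y)
      + 30000000000 * ℓ ^ 2 * Real.sqrt z = 30000000000 * Real.sqrt t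
      + 30000000000 * (ℓ ^ 2 * Real.sqrt ℓ * Real.sqrt y)
      + 30000000000 * (ℓ ^ 2 * Real.sqrt z) := by ring
  rw [hfin]
  linarith

end H167KM
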