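import Pool.Agent.H167R2.KMStep
import Pool.Agent.H167R2.KLBlock
import Pool.Agent.H167R2.BKLast

/-!
# Parameters of the stages
-/

namespace H167KM

open Finset Real H167BJ H167BK H167KL

/-- Number of levels. -/
theorem exists_lv (t h : ℝ) (ht : 1 ≤ t) (hh : 30 ≤ h) : ∃ L : ℕ, θk t h L < 1 ∧
    (∀ l < L, 1 ≤ θk t h l) ∧ (16 : ℝ) ^ L ≤ t ∧ (L : ℝ) ≤ log t := by
  classical
  have hex := θk_tendsto (t := t) (h := h) ht hh 1 one_pos
  set k1 := Nat.find hex with hk1
  have hk1s : θk t h k1 < 1 := Nat.find_spec hex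
  have hk1m : ∀ k, k < k1 → 1 ≤ θk t h k := fun k hk => by
    have := Nat.find_min hex hk
    push Not at this
    exact this
  have h16 : (16 : ℝ) ^ k1 ≤ t := by
    rcases Nat.eq_zero_or_pos k1 with h0 | h0
    · rw [h0, pow_zero]; exact ht
    · obtain ⟨m, hm⟩ := Nat.exists_eq_succ_of_ne_zero h0.ne'
      have h1 := hk1m m (by omega)
      have h2 := θk_sq_le ht hh m
      have h3 : (1 : ℝ) ≤ θk t h m ^ 2 := one_le_pow₀ h1
      have h4 : 1 ≤ qk t h m := h3.trans h2
      unfold qk at h4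
      have hG := Gk_ge m
      rw [le_div_iff₀ (by positivity)] at h4
      unfold ek at h4
      rw [one_mul, le_div_iff₀ (by positivity)] at h4
      rw [hm, pow_succ]
      have h5 : (2400 : ℝ) * 16 ^ m ≤ 8 * h * Gk m * 16 ^ m := by
        apply mul_le_mul_of_nonneg_right _ (by positivity)
        nlinarith
      have h6 : (0 : ℝ) < 16 ^ m := by positivity
      linarith
  have hlog0 : 0 ≤ Real.log t := Real.log_nonneg ht
  have hk1log : (k1 : ℝ) ≤ Real.log t := by
    have h1 := Real.log_le_log (by positivity) h16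
    rw [Real.log_pow] at h1
    have h2 : (1 : ℝ) ≤ Real.log 16 := by
      rw [Real.le_log_iff_exp_le (by norm_num)]
      have := Real.exp_one_lt_d9
      linarith
    have h3 : (0 : ℝ) ≤ k1 := Nat.cast_nonneg _
    nlinarith
  exact ⟨k1, hk1s, hk1m, h16, hk1log⟩

/-- Sparsity weights. -/
noncomputable def tv (ν : ℝ) (l : ℕ) : ℝ := 1 / 160000 * ((1 / 2) ^ (l + 1) + 1 / ν)

theorem tv_pos {ν : ℝ} (hν : 1 ≤ ν) (l : ℕ) : 0 < tv ν l := by
  have : 0 < ν := by linarith
  unfold tv; positivity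

theorem tv_sum {ν : ℝ} (hν : 1 ≤ ν) (L : ℕ) (hL : (L : ℝ) ≤ ν) :
    ∑ l ∈ range L, tv ν l ≤ 1 / 80000 := by
  have hν0 : 0 < ν := by linarith
  unfold tv
  rw [← Finset.mul_sum, Finset.sum_add_distrib, Finset.sum_const, Finset.card_range, nsmul_eq_mul]
  have h1 := geom_half_sum L
  have h2 : (L : ℝ) * (1 / ν) ≤ 1 := by
    rw [mul_one_div, div_le_one hν0]; exact hL
  linarith

theorem tv_ge1 {ν : ℝ} (hν : 1 ≤ ν) (l : ℕ) : 1 / (160000 * ν) ≤ tv ν l := by
  have hν0 : 0 < ν := by linarith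
  unfold tv
  have h1 : (0 : ℝ) < (1 / 2) ^ (l + 1) := by positivity
  have h2 : 1 / (160000 * ν) = 1 / 160000 * (1 / ν) := by field_simp
  rw [h2]
  apply mul_le_mul_of_nonneg_left _ (by norm_num)
  linarith

theorem tv_ge2 {ν : ℝ} (hν : 1 ≤ ν) (l : ℕ) : 1 / 160000 * (1 / 2) ^ (l + 1) ≤ tv ν l := by
  have hν0 : 0 < ν := by linarith
  unfold tv
  have h1 : (0 : ℝ) < 1 / ν := by positivity
  apply mul_le_mul_of_nonneg_left _ (by norm_num)
  linarith

theorem tv_le {ν : ℝ} (hν : 1 ≤ ν) (l : ℕ) : tv ν l ≤ 3 / 320000 := by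
  have hν0 : 0 < ν := by linarith
  unfold tv
  have h1 : ((1 : ℝ) / 2) ^ (l + 1) ≤ 1 / 2 := by
    rw [pow_succ]
    have : ((1 : ℝ) / 2) ^ l ≤ 1 := pow_le_one₀ (by norm_num) (by norm_num)
    linarith
  have h2 : 1 / ν ≤ 1 := by rw [div_le_one hν0]; exact hν
  linarith

/-- Potential weights. -/
noncomputable def wt (t c ν : ℝ) (l : ℕ) : ℝ := c / (tv ν l * ek t l)

section

variable {t c ν : ℝ} (ht : 1 ≤ t) (hc : 0 < c) (hν : 1 ≤ ν)

include ht hc hν

theorem wt_pos (l : ℕ) : 0 < wt t c ν l := by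
  have h1 := tv_pos hν l
  have h2 := ek_pos ht l
  unfold wt; positivity

theorem wt_mul (l : ℕ) : wt t c ν l * (tv ν l * ek t l) = c := by
  have h1 := tv_pos hν l
  have h2 := ek_pos ht l
  unfold wt
  rw [div_mul_cancel₀]
  positivity

theorem wt_le (l : ℕ) : wt t c ν l ≤ (160000 * ν * c) / ek t l := by
  have h1 := tv_pos hν l
  have h2 := ek_pos ht l
  have h3 := tv_ge1 hν l
  have hν0 : 0 < ν := by linarith
  unfold wt
  rw [div_le_div_iff₀ (by positivity) h2]
  have h4 : 1 ≤ 160000 * ν * tv ν l := by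
    rw [div_le_iff₀ (by positivity)] at h3
    linarith
  calc c * ek t l = c * ek t l * 1 := (mul_one _).symm
    _ ≤ c * ek t l * (160000 * ν * tv ν l) := mul_le_mul_of_nonneg_left h4 (by positivity)
    _ = _ := by ring

/-- Lower bound, with `t = 100 d`. -/
theorem wt_ge {d : ℝ} (hd : 0 < d) (htd : t = 100 * d) (l : ℕ) : 105 * c / d ≤ wt t c ν l := by
  have h1 := tv_pos hν l
  have h2 := ek_pos ht l
  have h3 := tv_le hν l
  have h4 : ek t l ≤ 1000 * d := by
    have := ek_anti ht (Nat.zero_le l)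
    have h5 : ek t 0 = 1000 * d := by unfold ek; rw [htd]; simp; ring
    linarith
  unfold wt
  rw [div_le_div_iff₀ hd (by positivity)]
  have h5 : tv ν l * ek t l ≤ 3 / 320000 * (1000 * d) := mul_le_mul h3 h4 h2.le (by norm_num)
  calc 105 * c * (tv ν l * ek t l) ≤ 105 * c * (3 / 320000 * (1000 * d)) :=
        mul_le_mul_of_nonneg_left h5 (by positivity)
    _ ≤ c * d := by
        have : 0 < c * d := by positivity
        nlinarith

theorem wt_gap {d : ℝ} (hd : 0 < d) (htd : t = 100 * d) (l : ℕ) :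
    wt t c ν l * exp (-Gk l) * d ≤ 16 / 1000 * c := by
  have h1 := tv_pos hν l
  have h2 := ek_pos ht l
  have h3 := tv_ge2 hν l
  have h4 := gap_sum l
  have h5 : ek t l = 1000 * d / 16 ^ l := by unfold ek; rw [htd]; ring
  have h6 : (0 : ℝ) < 16 ^ l := by positivity
  have h7 : wt t c ν l * exp (-Gk l) * d = c / (1000 * tv ν l) * (16 ^ l * exp (-Gk l)) := by
    unfold wt
    rw [h5]
    field_simp
  rw [h7]
  calc c / (1000 * tv ν l) * (16 ^ l * exp (-Gk l))
      ≤ c / (1000 * tv ν l) * (1 / 10000 * (1 / 2) ^ (l + 1)) :=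
        mul_le_mul_of_nonneg_left h4 (by positivity)
    _ ≤ c / (1000 * tv ν l) * (16 * tv ν l) := by
        apply mul_le_mul_of_nonneg_left _ (by positivity)
        linarith
    _ = 16 / 1000 * c := by field_simp

end

end H167KM
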