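import Pool.Agent.H167R2.BKNet

/-!
# Labelled walks with long jumps
-/

namespace H167KM

open Finset H167BK

variable {I J : Type*}

/-- At distance at most `n`. -/
def hop (a : I → J → ℝ) : ℕ → J → J → Prop
  | 0, v, w => w = v
  | n + 1, v, w => ∃ x, hop a n v x ∧ near a x w

theorem hop_succ {a : I → J → ℝ} {n : ℕ} {v w : J} (h : hop a n v w) : hop a (n + 1) v w :=
  ⟨w, h, near_refl a w⟩

theorem hop_le {a : I → J → ℝ} {n m : ℕ} (hnm : n ≤ m) {v w : J} (h : hop a n v w) :
    hop a m v w := by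
  induction m, hnm using Nat.le_induction with
  | base => exact h
  | succ m _ ih => exact hop_succ ih

theorem hop_refl (a : I → J → ℝ) (n : ℕ) (v : J) : hop a n v v :=
  hop_le (Nat.zero_le n) (show hop a 0 v v from rfl)

theorem hop_one {a : I → J → ℝ} {v w : J} (h : near a v w) : hop a 1 v w :=
  ⟨v, rfl, h⟩

theorem hop_trans {a : I → J → ℝ} {n m : ℕ} {u v w : J} (h1 : hop a n u v) (h2 : hop a m v w) :
    hop a (n + m) u w := by
  induction m generalizing w with
  | zero =>
    have : w = v := h2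
    rw [this]; exact h1
  | succ m ih =>
    obtain ⟨x, hx1, hx2⟩ := h2
    exact ⟨x, ih hx1, hx2⟩

theorem hop_symm {a : I → J → ℝ} {n : ℕ} {v w : J} (h : hop a n v w) : hop a n w v := by
  induction n generalizing w with
  | zero =>
    have h' : w = v := h
    rw [h']; exact hop_refl a 0 v
  | succ n ih =>
    obtain ⟨x, hx1, hx2⟩ := h
    have h3 := hop_trans (hop_one (near_symm hx2)) (ih hx1)
    rwa [Nat.add_comm] at h3

variable [Fintype J]

open Classical in
/-- Neighbourhood of radius `n`. -/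
noncomputable def nbn (a : I → J → ℝ) (n : ℕ) (v : J) : Finset J :=
  Finset.univ.filter (fun w => hop a n v w)

theorem mem_nbn {a : I → J → ℝ} {n : ℕ} {v w : J} : w ∈ nbn a n v ↔ hop a n v w := by
  classical
  unfold nbn; simp

theorem card_nbn (a : I → J → ℝ) (Δ : ℕ) (h : ∀ v, (nb a v).card ≤ Δ) (n : ℕ) (v : J) :
    (nbn a n v).card ≤ Δ ^ n := by
  classical
  induction n with
  | zero =>
    have h1 : nbn a 0 v ⊆ {v} := by
      intro w hw
      have : w = v := mem_nbn.mp hw
      simp [this]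
    refine (Finset.card_le_card h1).trans ?_
    simp
  | succ n ih =>
    have h1 : nbn a (n + 1) v ⊆ (nbn a n v).biUnion (nb a) := by
      intro w hw
      obtain ⟨x, hx1, hx2⟩ := mem_nbn.mp hw
      rw [Finset.mem_biUnion]
      refine ⟨x, mem_nbn.mpr hx1, ?_⟩
      unfold nb
      rw [Finset.mem_filter]
      exact ⟨Finset.mem_univ _, hx2⟩
    refine (Finset.card_le_card h1).trans ?_
    refine (Finset.card_biUnion_le_card_mul _ (nb a) Δ (fun v _ => h v)).trans ?_
    rw [pow_succ]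
    exact Nat.mul_le_mul_right _ ih

open Classical in
/-- Extensions of a labelled walk. -/
noncomputable def ext (a : I → J → ℝ) (n : ℕ) (Lb : Finset (Finset ℕ)) :
    List (J × Finset ℕ) → Finset (List (J × Finset ℕ))
  | [] => ∅
  | p :: l => ((nbn a n p.1) ×ˢ Lb).image (fun p' => p' :: p :: l)

open Classical in
/-- Labelled walks with `m + 1` vertices, starting in `F0`. -/
noncomputable def walks (a : I → J → ℝ) (n : ℕ) (Lb : Finset (Finset ℕ)) (F0 : Finset J) :
    ℕ → Finset (List (J × Finset ℕ))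
  | 0 => (F0 ×ˢ Lb).image (fun p => [p])
  | m + 1 => (walks a n Lb F0 m).biUnion (ext a n Lb)

theorem card_ext (a : I → J → ℝ) (n : ℕ) (Lb : Finset (Finset ℕ)) (Δ : ℕ)
    (h : ∀ v, (nb a v).card ≤ Δ) (l : List (J × Finset ℕ)) :
    (ext a n Lb l).card ≤ Δ ^ n * Lb.card := by
  classical
  cases l with
  | nil => simp [ext]
  | cons p l =>
    unfold ext
    refine Finset.card_image_le.trans ?_
    rw [Finset.card_product]
    exact Nat.mul_le_mul_right _ (card_nbn a Δ h n p.1)

theorem card_walks (a : I → J → ℝ) (n : ℕ) (Lb : Finset (Finset ℕ)) (F0 : Finset J) (Δ : ℕ)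
    (h : ∀ v, (nb a v).card ≤ Δ) (m : ℕ) :
    (walks a n Lb F0 m).card ≤ F0.card * Lb.card * (Δ ^ n * Lb.card) ^ m := by
  classical
  induction m with
  | zero =>
    unfold walks
    refine Finset.card_image_le.trans ?_
    rw [Finset.card_product]; simp
  | succ m ih =>
    unfold walks
    refine (Finset.card_biUnion_le_card_mul _ _ (Δ ^ n * Lb.card)
      (fun l _ => card_ext a n Lb Δ h l)).trans ?_
    calc _ ≤ F0.card * Lb.card * (Δ ^ n * Lb.card) ^ m * (Δ ^ n * Lb.card) :=
          Nat.mul_le_mul_right _ ih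
      _ = _ := by ring

theorem mem_walks (a : I → J → ℝ) (n : ℕ) (Lb : Finset (Finset ℕ)) (F0 : Finset J)
    (τ : List (J × Finset ℕ)) (h0 : τ ≠ [])
    (hchain : τ.IsChain (fun p p' => hop a n p.1 p'.1))
    (hlab : ∀ p ∈ τ, p.1 ∈ F0 ∧ p.2 ∈ Lb) : τ ∈ walks a n Lb F0 (τ.length - 1) := by
  classical
  induction τ with
  | nil => exact absurd rfl h0
  | cons p τ ih =>
    cases τ with
    | nil =>
      simp only [List.length_singleton, Nat.sub_self]
      unfold walks
      rw [Finset.mem_image]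
      exact ⟨p, Finset.mem_product.mpr (hlab p (by simp)), rfl⟩
    | cons p' τ =>
      rw [List.isChain_cons_cons] at hchain
      have h1 := ih (by simp) hchain.2 (fun x hx => hlab x (List.mem_cons_of_mem _ hx))
      have h2 : (p :: p' :: τ).length - 1 = ((p' :: τ).length - 1) + 1 := by simp
      rw [h2]
      show p :: p' :: τ ∈ (walks a n Lb F0 ((p' :: τ).length - 1)).biUnion (ext a n Lb)
      rw [Finset.mem_biUnion]
      refine ⟨p' :: τ, h1, ?_⟩
      show p :: p' :: τ ∈ ((nbn a n p'.1) ×ˢ Lb).image (fun q => q :: p' :: τ)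
      rw [Finset.mem_image]
      refine ⟨p, Finset.mem_product.mpr ⟨?_, (hlab p (by simp)).2⟩, rfl⟩
      exact mem_nbn.mpr (hop_symm hchain.1)

omit [Fintype J] in
/-- Coarse nets are connected by long jumps. -/
theorem net_cut (a : I → J → ℝ) (c0 : ℝ) (F : Finset J) (v : J) (Q : Finset J) (n : ℕ)
    (hcov : ∀ u ∈ comp a c0 F v, ∃ d ∈ Q, hop a n d u) (hQ : Q ⊆ comp a c0 F v) :
    ∀ Y ⊆ Q, Y.Nonempty → Y ≠ Q → ∃ y ∈ Y, ∃ z ∈ Q, z ∉ Y ∧ hop a (2 * n + 1) y z := by
  classical
  intro Y hYQ hYne hYneq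
  obtain ⟨q, hq, hqY⟩ : ∃ q ∈ Q, q ∉ Y := by
    by_contra h
    push Not at h
    exact hYneq (Finset.Subset.antisymm hYQ h)
  set K := comp a c0 F v with hK
  let X : Finset J := K.filter (fun u => ∃ y ∈ Y, hop a n y u)
  by_cases hcase : ∃ u ∈ X, ∃ z' ∈ Q, z' ∉ Y ∧ hop a n z' u
  · obtain ⟨u, hu, z', hz', hz'Y, h3⟩ := hcase
    obtain ⟨y, hy, h1⟩ := (Finset.mem_filter.mp hu).2
    refine ⟨y, hy, z', hz', hz'Y, hop_le (by omega) (hop_trans h1 (hop_symm h3))⟩
  · push Not at hcase
    have hYX : Y ⊆ X := by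
      intro y hy
      rw [Finset.mem_filter]
      exact ⟨hQ (hYQ hy), y, hy, hop_refl a n y⟩
    have hXne : X.Nonempty := hYne.mono hYX
    have hXneq : X ≠ K := by
      intro h
      have hqX : q ∈ X := by rw [h]; exact hQ hq
      exact hcase q hqX q hq hqY (hop_refl a n q)
    obtain ⟨x, hx, w, hw, hwX, hadj⟩ := comp_cut a c0 F v X (Finset.filter_subset _ _) hXne hXneq
    obtain ⟨y, hy, h1⟩ := (Finset.mem_filter.mp hx).2
    obtain ⟨d, hd, h3⟩ := hcov w hw
    have hdY : d ∉ Y := by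
      intro hdY
      apply hwX
      rw [Finset.mem_filter]
      exact ⟨hw, d, hdY, h3⟩
    have h4 := hop_trans (hop_trans h1 (hop_one (adj_near hadj))) (hop_symm h3)
    exact ⟨y, hy, d, hd, hdY, hop_le (by omega) h4⟩

end H167KM
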