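import Pool.Agent.H167R2.KMWalk

/-!
# The structure of a set without movable subsets, real entries
-/

namespace H167KN

open Finset H167BK H167KM

variable {I J : Type*} [Fintype I] [Fintype J]

omit [Fintype I] in
theorem exists_filter (s : Finset I) (p : I → Prop) :
    ∃ M1 : Finset I, ∀ i, i ∈ M1 ↔ i ∈ s ∧ p i := by
  classical
  exact ⟨s.filter p, fun i => Finset.mem_filter⟩

/-- Data of a region without movable subsets. -/
structure Stuck (I J : Type*) [Fintype I] [Fintype J] where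
  a : I → J → ℝ
  q : I → J → ℝ
  q0 : ∀ i v, 0 ≤ q i v
  q1 : ∀ i v, q i v ≤ 1
  qa : ∀ i v, q i v ≠ 0 → a i v ≠ 0
  p : I → J → ℝ
  p0 : ∀ i v, 0 ≤ p i v
  pa : ∀ i v, p i v ≠ 0 → a i v ≠ 0
  d : ℝ
  hd : 1 ≤ d
  col : ∀ v, ∑ i, p i v ≤ d
  K : Finset J
  M : Finset I
  Bg : Finset I
  φ : I → ℝ
  hφ : ∀ i, 0 ≤ φ i
  e : I → ℝ
  he : ∀ i, 0 < e i
  w : I → ℝ
  hw : ∀ i, 0 < w i
  c : ℝ
  hc : 0 < c
  hwe : ∀ i ∈ M, 160000 * c ≤ w i * e i
  wm : ℝ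
  hwm0 : 0 < wm
  hwm1 : wm ≤ 160 * c
  hwm : ∀ i ∈ M, wm ≤ w i
  lowM : ∀ i ∈ M, e i ≤ 16 * ∑ v ∈ K, q i v
  lowB : ∀ i ∈ Bg, 1000 * d ≤ ∑ v ∈ K, p i v
  stuck : ∀ A' ⊆ K, A'.Nonempty → ∀ (M' Bg' : Finset I),
    (∀ i, i ∈ M' ↔ i ∈ M ∧ ∃ v ∈ A', q i v ≠ 0) → (∀ i, i ∈ Bg' ↔ i ∈ Bg ∧ ∃ v ∈ A', p i v ≠ 0) →
    (A'.card : ℝ) < 50 * ∑ i ∈ M', φ i + 10 * Bg'.card

namespace Stuck

variable (S : Stuck I J)

theorem greedy : ∃ X ⊆ S.K, S.c * (X.card : ℝ)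
      ≤ ∑ i ∈ S.M, S.w i * S.φ i * min 1 (∑ v ∈ X, S.q i v) ∧
    ∀ u ∈ S.K, u ∉ X → ∀ U : Finset I, (∀ i, i ∈ U ↔ i ∈ S.M ∧ ∑ v ∈ X, S.q i v ≤ 1 / 2) →
      ∑ i ∈ U, S.w i * S.φ i * S.q i u ≤ 2 * S.c := by
  classical
  let G : Finset J → ℝ := fun X => ∑ i ∈ S.M, S.w i * S.φ i * min 1 (∑ v ∈ X, S.q i v)
  obtain ⟨X, hX, hmax⟩ := Finset.exists_max_image
    (S.K.powerset.filter (fun X => S.c * (X.card : ℝ) ≤ G X)) Finset.card
    ⟨∅, by simp [G]⟩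
  rw [Finset.mem_filter, Finset.mem_powerset] at hX
  refine ⟨X, hX.1, hX.2, ?_⟩
  intro u hu huX U hU
  by_contra hcon
  push Not at hcon
  have hterm : ∀ i, 0 ≤ S.w i * S.φ i := fun i => mul_nonneg (S.hw i).le (S.hφ i)
  have hins : insert u X ∈ S.K.powerset.filter (fun X => S.c * (X.card : ℝ) ≤ G X) := by
    rw [Finset.mem_filter, Finset.mem_powerset]
    refine ⟨Finset.insert_subset hu hX.1, ?_⟩
    have h1 : G X + 1 / 2 * ∑ i ∈ U, S.w i * S.φ i * S.q i u ≤ G (insert u X) := by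
      have hUM : U ⊆ S.M := fun i hi => ((hU i).mp hi).1
      have h2 : ∑ i ∈ U, S.w i * S.φ i * S.q i u
          = ∑ i ∈ S.M, if i ∈ U then S.w i * S.φ i * S.q i u else 0 := by
        rw [Finset.sum_ite_mem, Finset.inter_eq_right.mpr hUM]
      rw [h2, Finset.mul_sum]
      show ∑ i ∈ S.M, S.w i * S.φ i * min 1 (∑ v ∈ X, S.q i v) + _ ≤ _
      rw [← Finset.sum_add_distrib]
      refine Finset.sum_le_sum fun i hi => ?_
      rw [Finset.sum_insert huX]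
      have hq0 := S.q0 i u
      have hq1 := S.q1 i u
      have hw := hterm i
      by_cases hiU : i ∈ U
      · have h3 := ((hU i).mp hiU).2
        rw [if_pos hiU, min_eq_right (by linarith : ∑ v ∈ X, S.q i v ≤ 1)]
        have h4 : ∑ v ∈ X, S.q i v + 1 / 2 * S.q i u ≤ min 1 (S.q i u + ∑ v ∈ X, S.q i v) := by
          apply le_min <;> linarith
        calc S.w i * S.φ i * ∑ v ∈ X, S.q i v + 1 / 2 * (S.w i * S.φ i * S.q i u)
            = S.w i * S.φ i * (∑ v ∈ X, S.q i v + 1 / 2 * S.q i u) := by ring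
          _ ≤ _ := mul_le_mul_of_nonneg_left h4 hw
      · rw [if_neg hiU, mul_zero, add_zero]
        apply mul_le_mul_of_nonneg_left _ hw
        exact min_le_min le_rfl (by linarith)
    show S.c * ((insert u X).card : ℝ) ≤ _
    rw [Finset.card_insert_of_notMem huX]
    push_cast
    have h2 : S.c * (X.card : ℝ) ≤ G X := hX.2
    linarith
  have := hmax _ hins
  rw [Finset.card_insert_of_notMem huX] at this
  omega

/-- The greedy set. -/
noncomputable def X : Finset J := S.greedy.choose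

theorem X_sub : S.X ⊆ S.K := S.greedy.choose_spec.1

/-- The gain. -/
noncomputable def Γ : ℝ := ∑ i ∈ S.M, S.w i * S.φ i * min 1 (∑ v ∈ S.X, S.q i v)

theorem X_gain : S.c * (S.X.card : ℝ) ≤ S.Γ := S.greedy.choose_spec.2.1

/-- Hit rows. -/
def Hit (i : I) : Prop := 1 / 2 < ∑ v ∈ S.X, S.q i v

theorem X_unhit {u : J} (hu : u ∈ S.K) (huX : u ∉ S.X) (U : Finset I)
    (hU : ∀ i, i ∈ U ↔ i ∈ S.M ∧ ¬ S.Hit i) :
    ∑ i ∈ U, S.w i * S.φ i * S.q i u ≤ 2 * S.c := by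
  refine S.greedy.choose_spec.2.2 u hu huX U fun i => ?_
  rw [hU]
  unfold Hit
  rw [not_lt]
  rfl

open Classical in
/-- Unhit rows dense in `B`. -/
noncomputable def U (B : Finset J) : Finset I :=
  S.M.filter (fun i => ¬ S.Hit i ∧ ∑ v ∈ S.K, S.q i v ≤ 2 * ∑ v ∈ B, S.q i v)

theorem phi_le {i : I} (hi : i ∈ S.M) {x : ℝ} (h : S.e i ≤ 32 * x) :
    S.φ i ≤ 32 / (160000 * S.c) * (S.w i * S.φ i * x) := by
  have h1 := S.hwe i hi
  have h2 := S.hc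
  have h3 := S.hφ i
  have h4 := S.hw i
  have h5 := S.he i
  have h6 : 160000 * S.c ≤ 32 * (S.w i * x) := by
    have := mul_le_mul_of_nonneg_left h h4.le
    linarith
  have h7 : 1 ≤ 32 / (160000 * S.c) * (S.w i * x) := by
    rw [div_mul_eq_mul_div, le_div_iff₀ (by positivity)]
    linarith
  calc S.φ i = S.φ i * 1 := (mul_one _).symm
    _ ≤ S.φ i * (32 / (160000 * S.c) * (S.w i * x)) := mul_le_mul_of_nonneg_left h7 h3
    _ = _ := by ring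

theorem U_le (B : Finset J) (hB : B ⊆ S.K) (hBX : Disjoint B S.X) :
    50 * ∑ i ∈ S.U B, S.φ i ≤ (B.card : ℝ) / 50 := by
  classical
  set UH : Finset I := S.M.filter (fun i => ¬ S.Hit i) with hUH
  have hc := S.hc
  have hUsub : S.U B ⊆ UH := by
    intro i hi
    obtain ⟨h1, h2, -⟩ := Finset.mem_filter.mp hi
    exact Finset.mem_filter.mpr ⟨h1, h2⟩
  have h1 : ∑ i ∈ S.U B, S.φ i
      ≤ ∑ i ∈ UH, 32 / (160000 * S.c) * (S.w i * S.φ i * ∑ v ∈ B, S.q i v) := by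
    refine le_trans (Finset.sum_le_sum fun i hi => ?_)
      (Finset.sum_le_sum_of_subset_of_nonneg hUsub fun i _ _ => ?_)
    · obtain ⟨h2, -, h3⟩ := Finset.mem_filter.mp hi
      have h4 := S.lowM i h2
      exact S.phi_le h2 (by linarith)
    · have h5 := S.hw i
      have h6 := S.hφ i
      have h7 : 0 ≤ ∑ v ∈ B, S.q i v := Finset.sum_nonneg fun v _ => S.q0 i v
      positivity
  have h2 : ∑ i ∈ UH, 32 / (160000 * S.c) * (S.w i * S.φ i * ∑ v ∈ B, S.q i v)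
      = 32 / (160000 * S.c) * ∑ v ∈ B, ∑ i ∈ UH, S.w i * S.φ i * S.q i v := by
    rw [Finset.sum_comm, ← Finset.mul_sum]
    congr 1
    exact Finset.sum_congr rfl fun i _ => by rw [Finset.mul_sum]
  have h3 : ∑ v ∈ B, ∑ i ∈ UH, S.w i * S.φ i * S.q i v ≤ ∑ v ∈ B, 2 * S.c := by
    refine Finset.sum_le_sum fun v hv => ?_
    refine S.X_unhit (hB hv) (Finset.disjoint_left.mp hBX hv) UH fun i => ?_
    rw [hUH, Finset.mem_filter]
  rw [Finset.sum_const, nsmul_eq_mul] at h3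
  have h4 : 32 / (160000 * S.c) * ∑ v ∈ B, ∑ i ∈ UH, S.w i * S.φ i * S.q i v
      ≤ 32 / (160000 * S.c) * ((B.card : ℝ) * (2 * S.c)) :=
    mul_le_mul_of_nonneg_left h3 (by positivity)
  have h5 : 32 / (160000 * S.c) * ((B.card : ℝ) * (2 * S.c)) = (B.card : ℝ) / 2500 := by
    field_simp
    ring
  linarith

open Classical in
/-- Big rows dense in `B`. -/
noncomputable def V (B : Finset J) : Finset I :=
  S.Bg.filter (fun i => ∑ v ∈ S.K, S.p i v ≤ 2 * ∑ v ∈ B, S.p i v)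

theorem V_le (B : Finset J) : 10 * ((S.V B).card : ℝ) ≤ (B.card : ℝ) / 50 := by
  classical
  have ht := S.hd
  have h1 := Finset.card_nsmul_le_sum (S.V B) (fun i => ∑ v ∈ B, S.p i v) (500 * S.d) (by
    intro i hi
    obtain ⟨h2, h3⟩ := Finset.mem_filter.mp hi
    have h4 := S.lowB i h2
    linarith)
  rw [nsmul_eq_mul] at h1
  have h2 : ∑ i ∈ S.V B, ∑ v ∈ B, S.p i v ≤ S.d * B.card := by
    rw [Finset.sum_comm]
    calc ∑ v ∈ B, ∑ i ∈ S.V B, S.p i v ≤ ∑ v ∈ B, S.d := by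
          refine Finset.sum_le_sum fun v _ => ?_
          refine le_trans (Finset.sum_le_sum_of_subset_of_nonneg (Finset.subset_univ _)
            (fun i _ _ => S.p0 i v)) (S.col v)
      _ = S.d * B.card := by simp [mul_comm]
  have h3 : S.d * (500 * ((S.V B).card : ℝ)) ≤ S.d * B.card := by linarith
  have h4 := le_of_mul_le_mul_left h3 (by linarith)
  linarith

open Classical in
/-- The layers. -/
noncomputable def Z : ℕ → Finset J
  | 0 => (S.K \ S.X).filter (fun v => ∀ i ∈ S.M, S.q i v ≠ 0 → ¬ S.Hit i)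
  | ρ + 1 => (Z ρ).filter (fun v => (∀ i ∈ S.M, S.q i v ≠ 0 →
      ∑ u ∈ S.K, S.q i u ≤ 2 * ∑ u ∈ Z ρ, S.q i u) ∧ ∀ i ∈ S.Bg, S.p i v ≠ 0 →
      ∑ u ∈ S.K, S.p i u ≤ 2 * ∑ u ∈ Z ρ, S.p i u)

theorem Z_sub (ρ : ℕ) : S.Z ρ ⊆ S.Z 0 := by
  classical
  induction ρ with
  | zero => exact Finset.Subset.refl _
  | succ ρ ih =>
    refine Finset.Subset.trans ?_ ih
    show (S.Z ρ).filter _ ⊆ _
    exact Finset.filter_subset _ _

theorem Z_sub0 (ρ : ℕ) : ∀ v ∈ S.Z ρ, v ∈ S.K ∧ v ∉ S.X := by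
  classical
  intro v hv
  have h1 : v ∈ S.Z 0 := S.Z_sub ρ hv
  exact Finset.mem_sdiff.mp (Finset.mem_filter.mp h1).1

theorem Z_subK (ρ : ℕ) : S.Z ρ ⊆ S.K := fun v hv => (S.Z_sub0 ρ v hv).1

theorem Z_disj (ρ : ℕ) : Disjoint (S.Z ρ) S.X := by
  rw [Finset.disjoint_left]
  intro v hv
  exact (S.Z_sub0 ρ v hv).2

theorem Z_step (ρ : ℕ) : 25 * ((S.Z (ρ + 1)).card : ℝ) ≤ (S.Z ρ).card := by
  classical
  rcases Finset.eq_empty_or_nonempty (S.Z (ρ + 1)) with h | h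
  · rw [h]; simp
  · have hdef : S.Z (ρ + 1) = (S.Z ρ).filter (fun v => (∀ i ∈ S.M, S.q i v ≠ 0 →
      ∑ u ∈ S.K, S.q i u ≤ 2 * ∑ u ∈ S.Z ρ, S.q i u) ∧ ∀ i ∈ S.Bg, S.p i v ≠ 0 →
      ∑ u ∈ S.K, S.p i u ≤ 2 * ∑ u ∈ S.Z ρ, S.p i u) := by
      simp only [Z]
    obtain ⟨M1, hM1⟩ := exists_filter S.M (fun i => ∃ v ∈ S.Z (ρ + 1), S.q i v ≠ 0)
    obtain ⟨B1, hB1⟩ := exists_filter S.Bg (fun i => ∃ v ∈ S.Z (ρ + 1), S.p i v ≠ 0)
    have h1 := S.stuck (S.Z (ρ + 1)) (S.Z_subK _) h M1 B1 hM1 hB1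
    have h2 : ∑ i ∈ M1, S.φ i ≤ ∑ i ∈ S.U (S.Z ρ), S.φ i := by
      refine Finset.sum_le_sum_of_subset_of_nonneg (fun i hi => ?_) (fun i _ _ => S.hφ i)
      obtain ⟨h3, v, hv, hv2⟩ := (hM1 i).mp hi
      refine Finset.mem_filter.mpr ⟨h3, ?_, ?_⟩
      · have h4 : v ∈ S.Z 0 := S.Z_sub _ hv
        exact (Finset.mem_filter.mp h4).2 i h3 hv2
      · rw [hdef] at hv
        exact (Finset.mem_filter.mp hv).2.1 i h3 hv2
    have h3 : ((B1.card : ℕ) : ℝ) ≤ ((S.V (S.Z ρ)).card : ℝ) := by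
      have : B1 ⊆ S.V (S.Z ρ) := by
        intro i hi
        obtain ⟨h3, v, hv, hv2⟩ := (hB1 i).mp hi
        refine Finset.mem_filter.mpr ⟨h3, ?_⟩
        rw [hdef] at hv
        exact (Finset.mem_filter.mp hv).2.2 i h3 hv2
      exact_mod_cast Finset.card_le_card this
    have h4 := S.U_le (S.Z ρ) (S.Z_subK ρ) (S.Z_disj ρ)
    have h5 := S.V_le (S.Z ρ)
    linarith

theorem Z_card (ρ : ℕ) : 25 ^ ρ * ((S.Z ρ).card : ℝ) ≤ S.K.card := by
  induction ρ with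
  | zero =>
    rw [pow_zero, one_mul]
    exact_mod_cast Finset.card_le_card (S.Z_subK 0)
  | succ ρ ih =>
    have h1 := S.Z_step ρ
    have h2 : (0 : ℝ) < 25 ^ ρ := by positivity
    calc (25 : ℝ) ^ (ρ + 1) * ((S.Z (ρ + 1)).card : ℝ)
        = 25 ^ ρ * (25 * ((S.Z (ρ + 1)).card : ℝ)) := by ring
      _ ≤ 25 ^ ρ * ((S.Z ρ).card : ℝ) := mul_le_mul_of_nonneg_left h1 h2.le
      _ ≤ _ := ih

/-- Every point outside `Z ρ` is close to the greedy set. -/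
theorem cover (ρ : ℕ) : ∀ v ∈ S.K, v ∉ S.Z ρ → ∃ x ∈ S.X, hop S.a (ρ + 1) x v := by
  classical
  induction ρ with
  | zero =>
    intro v hv hvZ
    by_cases hvX : v ∈ S.X
    · exact ⟨v, hvX, hop_refl S.a _ v⟩
    · have h1 : ¬ ∀ i ∈ S.M, S.q i v ≠ 0 → ¬ S.Hit i := fun h =>
        hvZ (Finset.mem_filter.mpr ⟨Finset.mem_sdiff.mpr ⟨hv, hvX⟩, h⟩)
      push Not at h1
      obtain ⟨i, hi, hiv, hhit⟩ := h1
      have h2 : 0 < ∑ v ∈ S.X, S.q i v := by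
        have : 1 / 2 < ∑ v ∈ S.X, S.q i v := hhit
        linarith
      obtain ⟨x, hx, hxq⟩ := Finset.exists_ne_zero_of_sum_ne_zero h2.ne'
      exact ⟨x, hx, hop_one (Or.inr ⟨i, S.qa i x hxq, S.qa i v hiv⟩)⟩
  | succ ρ ih =>
    intro v hv hvZ
    by_cases h1 : v ∈ S.Z ρ
    · have hext : ∀ f : J → ℝ, (∀ u, 0 ≤ f u) → ¬ (∑ u ∈ S.K, f u ≤ 2 * ∑ u ∈ S.Z ρ, f u) →
          ∃ u ∈ S.K, u ∉ S.Z ρ ∧ f u ≠ 0 := by
        intro f hf hlt
        by_contra hcon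
        push Not at hcon
        have h4 : ∑ u ∈ S.K, f u = ∑ u ∈ S.Z ρ, f u := by
          symm
          refine Finset.sum_subset (S.Z_subK ρ) fun u hu hu2 => hcon u hu hu2
        have h5 : 0 ≤ ∑ u ∈ S.Z ρ, f u := Finset.sum_nonneg fun u _ => hf u
        apply hlt
        linarith
      have h3 : ∃ i u, u ∈ S.K ∧ u ∉ S.Z ρ ∧ S.a i u ≠ 0 ∧ S.a i v ≠ 0 := by
        by_contra hcon
        push Not at hcon
        apply hvZ
        show v ∈ (S.Z ρ).filter _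
        refine Finset.mem_filter.mpr ⟨h1, fun i hi hiv => ?_, fun i hi hiv => ?_⟩
        · by_contra hlt
          obtain ⟨u, hu, huZ, hiu⟩ := hext (S.q i) (S.q0 i) hlt
          exact S.qa i v hiv (hcon i u hu huZ (S.qa i u hiu))
        · by_contra hlt
          obtain ⟨u, hu, huZ, hiu⟩ := hext (S.p i) (S.p0 i) hlt
          exact S.pa i v hiv (hcon i u hu huZ (S.pa i u hiu))
      obtain ⟨i, u, hu, huZ, hiu, hiv⟩ := h3
      obtain ⟨x, hx, hxu⟩ := ih u hu huZ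
      exact ⟨x, hx, u, hxu, Or.inr ⟨i, hiu, hiv⟩⟩
    · obtain ⟨x, hx, hxv⟩ := ih v hv h1
      exact ⟨x, hx, hop_succ hxv⟩

/-- The gain is large. -/
theorem gain_ge (hK : S.K.Nonempty) : S.wm * (S.K.card : ℝ) ≤ 106 * S.Γ := by
  classical
  have hc := S.hc
  have hwm0 := S.hwm0
  obtain ⟨M1, hM1⟩ := exists_filter S.M (fun i => ∃ v ∈ S.K, S.q i v ≠ 0)
  obtain ⟨B1, hB1⟩ := exists_filter S.Bg (fun i => ∃ v ∈ S.K, S.p i v ≠ 0)
  have h1 := S.stuck S.K (Finset.Subset.refl _) hK M1 B1 hM1 hB1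
  have hterm : ∀ i, 0 ≤ S.w i * S.φ i * min 1 (∑ v ∈ S.X, S.q i v) := fun i => by
    have h2 := S.hw i
    have h3 := S.hφ i
    have h4 : 0 ≤ min 1 (∑ v ∈ S.X, S.q i v) :=
      le_min zero_le_one (Finset.sum_nonneg fun v _ => S.q0 i v)
    positivity
  have h2 : ∑ i ∈ M1, S.φ i ≤ ∑ i ∈ S.U (S.K \ S.X), S.φ i
      + (2 / S.wm + 32 / (160000 * S.c)) * S.Γ := by
    have hsub : M1 ⊆ S.M := fun i hi => ((hM1 i).mp hi).1
    have h3 : ∑ i ∈ M1, S.φ i ≤ ∑ i ∈ S.M, S.φ i :=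
      Finset.sum_le_sum_of_subset_of_nonneg hsub (fun i _ _ => S.hφ i)
    refine h3.trans ?_
    have h4 : ∑ i ∈ S.U (S.K \ S.X), S.φ i
        = ∑ i ∈ S.M, if i ∈ S.U (S.K \ S.X) then S.φ i else 0 := by
      have hUM : S.U (S.K \ S.X) ⊆ S.M := Finset.filter_subset _ _
      rw [Finset.sum_ite_mem, Finset.inter_eq_right.mpr hUM]
    rw [h4]
    unfold Γ
    rw [Finset.mul_sum, ← Finset.sum_add_distrib]
    refine Finset.sum_le_sum fun i hi => ?_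
    have ht := hterm i
    have hcoef1 : 0 ≤ 2 / S.wm := by positivity
    have hcoef2 : 0 ≤ 32 / (160000 * S.c) := by positivity
    by_cases hU : i ∈ S.U (S.K \ S.X)
    · rw [if_pos hU]
      have : 0 ≤ (2 / S.wm + 32 / (160000 * S.c))
          * (S.w i * S.φ i * min 1 (∑ v ∈ S.X, S.q i v)) := mul_nonneg (by linarith) ht
      linarith
    · rw [if_neg hU, zero_add]
      by_cases hHit : S.Hit i
      · have h5 : 1 / 2 ≤ min 1 (∑ v ∈ S.X, S.q i v) := le_min (by norm_num) (le_of_lt hHit)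
        have h6 := S.hwm i hi
        have h7 := S.hφ i
        have h8 : S.φ i ≤ 2 / S.wm * (S.w i * S.φ i * min 1 (∑ v ∈ S.X, S.q i v)) := by
          have h9 : S.wm * S.φ i * (1 / 2) ≤ S.w i * S.φ i * min 1 (∑ v ∈ S.X, S.q i v) := by
            apply mul_le_mul _ h5 (by norm_num) (by have := S.hw i; positivity)
            exact mul_le_mul_of_nonneg_right h6 h7
          calc S.φ i = 2 / S.wm * (S.wm * S.φ i * (1 / 2)) := by field_simp
            _ ≤ _ := mul_le_mul_of_nonneg_left h9 hcoef1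
        have h10 : 0 ≤ 32 / (160000 * S.c)
            * (S.w i * S.φ i * min 1 (∑ v ∈ S.X, S.q i v)) := mul_nonneg hcoef2 ht
        rw [add_mul]
        linarith
      · have hS : ∑ v ∈ S.X, S.q i v ≤ 1 / 2 := not_lt.mp hHit
        have h5 : ¬ (∑ v ∈ S.K, S.q i v ≤ 2 * ∑ v ∈ S.K \ S.X, S.q i v) := fun h =>
          hU (Finset.mem_filter.mpr ⟨hi, hHit, h⟩)
        push Not at h5
        have h6 : ∑ v ∈ S.K \ S.X, S.q i v + ∑ v ∈ S.X, S.q i v = ∑ v ∈ S.K, S.q i v :=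
          Finset.sum_sdiff S.X_sub
        have h7 := S.lowM i hi
        have h8 : S.φ i ≤ 32 / (160000 * S.c) * (S.w i * S.φ i * ∑ v ∈ S.X, S.q i v) :=
          S.phi_le hi (by linarith)
        rw [min_eq_right (by linarith : ∑ v ∈ S.X, S.q i v ≤ 1)]
        have h9 : 0 ≤ 2 / S.wm * (S.w i * S.φ i * ∑ v ∈ S.X, S.q i v) := by
          rw [min_eq_right (by linarith : ∑ v ∈ S.X, S.q i v ≤ 1)] at ht
          exact mul_nonneg hcoef1 ht
        rw [add_mul]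
        linarith
  have h3 : ((B1.card : ℕ) : ℝ) ≤ ((S.V S.K).card : ℝ) := by
    have : B1 ⊆ S.V S.K := by
      intro i hi
      obtain ⟨h3, -⟩ := (hB1 i).mp hi
      refine Finset.mem_filter.mpr ⟨h3, ?_⟩
      have : 0 ≤ ∑ v ∈ S.K, S.p i v := Finset.sum_nonneg fun v _ => S.p0 i v
      linarith
    exact_mod_cast Finset.card_le_card this
  have h4 := S.U_le (S.K \ S.X) Finset.sdiff_subset (Finset.sdiff_disjoint)
  have h5 := S.V_le S.K
  have h6 : (((S.K \ S.X).card : ℕ) : ℝ) ≤ (S.K.card : ℝ) := by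
    exact_mod_cast Finset.card_le_card Finset.sdiff_subset
  have hΓ0 : 0 ≤ S.Γ := Finset.sum_nonneg fun i _ => hterm i
  have h7 : 24 / 25 * (S.K.card : ℝ) ≤ 50 * ((2 / S.wm + 32 / (160000 * S.c)) * S.Γ) := by
    linarith
  have h8 : 32 / (160000 * S.c) ≤ 32 / 1000 / S.wm := by
    have h9 := S.hwm1
    rw [div_le_div_iff₀ (by positivity) hwm0]
    linarith
  have h9 : (2 / S.wm + 32 / (160000 * S.c)) * S.Γ ≤ (2032 / 1000 / S.wm) * S.Γ := by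
    apply mul_le_mul_of_nonneg_right _ hΓ0
    have : 2032 / 1000 / S.wm = 2 / S.wm + 32 / 1000 / S.wm := by ring
    linarith
  have h10 : S.wm * (24 / 25 * (S.K.card : ℝ)) ≤ S.wm * (50 * ((2032 / 1000 / S.wm) * S.Γ)) :=
    mul_le_mul_of_nonneg_left (by linarith) hwm0.le
  have h11 : S.wm * (50 * ((2032 / 1000 / S.wm) * S.Γ)) = 1016 / 10 * S.Γ := by
    field_simp
    ring
  linarith

end Stuck

end H167KN
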