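import Pool.Agent.H167R2.KNLast
import Pool.Agent.H167R2.KMFinal

/-!
# Gluing, iteration and the matrix form
-/

namespace H167KN

open Finset Real H167BJ H167BK

variable {I J : Type*} [Fintype I] [Fintype J]

/-- All hypotheses of the iteration. -/
structure Par (a : I → J → ℝ) (d : ℝ) (Δ ρ0 : ℕ) (wm A : ℝ) : Prop where
  H : Hyp a d Δ
  hwm0 : 0 < wm
  hwm1 : wm ≤ 160 * c1 Δ ρ0 / d
  hwm2 : (∃ i v, a i v ≠ 0 ∧ |a i v| < 1) → wm ≤ 1
  hρ : 212 * c1 Δ ρ0 ≤ 25 ^ ρ0 * wm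
  hA : 1 ≤ A
  hwA : 177 ≤ wm * A

/-- One stage on all components. -/
theorem stage_glued {a : I → J → ℝ} {d : ℝ} {Δ ρ0 : ℕ} {wm A : ℝ} (H : Par a d Δ ρ0 wm A)
    (x0 : J → ℝ) (hx0 : ∀ j, |x0 j| ≤ 1) (m : ℝ) (hm : 1 ≤ m) (hsm : Small a 0 m x0) :
    ∃ y, Ext x0 y ∧ RowOK a (cst d (c1 Δ ρ0)) 0 x0 y ∧ Small a 0 (H167KM.fz A m) y := by
  classical
  have hlog : 0 ≤ log (2 * m) := Real.log_nonneg (by linarith)
  have hA0 : 0 ≤ A := by linarith [H.hA]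
  set k : ℕ := ⌊A * log (2 * m)⌋₊ + 1 with hk
  have hk2 : A * log (2 * m) < k := by rw [hk]; push_cast; exact Nat.lt_floor_add_one _
  have hk3 : 177 * log (2 * m) < wm * k := by
    have h1 : 177 * log (2 * m) ≤ wm * A * log (2 * m) := mul_le_mul_of_nonneg_right H.hwA hlog
    have h2 : wm * (A * log (2 * m)) < wm * k := mul_lt_mul_of_pos_left hk2 H.hwm0
    linarith
  have hex : ∀ K : Finset J, ∃ y : J → ℝ, (K ⊆ H167FK.Sys.alive x0 ∧ (K.card : ℝ) ≤ m) →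
      Ext (restr x0 K) y ∧ RowOK a (cst d (c1 Δ ρ0)) 0 (restr x0 K) y ∧
      ∀ v ∈ H167FK.Sys.alive y, (comp a 0 (H167FK.Sys.alive y) v).card < k := by
    intro K
    by_cases hK : K ⊆ H167FK.Sys.alive x0 ∧ (K.card : ℝ) ≤ m
    · obtain ⟨y, h1, h2, h3, h4⟩ := stage a d Δ ρ0 H.H wm H.hwm0 H.hwm1 H.hwm2 H.hρ
        (restr x0 K) (restr_box K hx0) m hm (by rw [alive_restr hK.1]; exact hK.2) k hk3
      refine ⟨y, fun _ => ⟨⟨h1, h2⟩, fun i => ?_, h4⟩⟩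
      rcases h3 i with h | h
      · exact Or.inl h
      · refine Or.inr fun z hz => ?_
        rw [add_zero]
        exact h z hz.1 hz.2
    · exact ⟨fun _ => 0, fun h => absurd h hK⟩
  choose Y hY using hex
  have hcK : ∀ v ∈ H167FK.Sys.alive x0, comp a 0 (H167FK.Sys.alive x0) v ⊆ H167FK.Sys.alive x0 ∧
      ((comp a 0 (H167FK.Sys.alive x0) v).card : ℝ) ≤ m := fun v hv =>
    ⟨comp_sub _ _ _ _, hsm v hv⟩
  have hYe := fun v hv => (hY _ (hcK v hv)).1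
  have hcst := cst_nonneg (c := c1 Δ ρ0) H.H.hd
  refine ⟨glued a 0 x0 Y, glued_ext a 0 x0 Y hYe hx0,
    glued_row a 0 x0 Y hYe hx0 le_rfl _ _ (by linarith) (fun v hv => (hY _ (hcK v hv)).2.1),
    fun v hv => ?_⟩
  obtain ⟨h1, h2, h3⟩ := glued_comps a 0 x0 Y hYe hx0 hv
  have h4 := (hY _ (hcK v h1)).2.2 v h2
  have h5 := Finset.card_le_card h3
  have h6 : (comp a 0 (H167FK.Sys.alive (glued a 0 x0 Y)) v).card ≤ ⌊A * log (2 * m)⌋₊ := by
    omega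
  have h7 : ((comp a 0 (H167FK.Sys.alive (glued a 0 x0 Y)) v).card : ℝ)
      ≤ (⌊A * log (2 * m)⌋₊ : ℝ) := by exact_mod_cast h6
  have h8 : (⌊A * log (2 * m)⌋₊ : ℝ) ≤ A * log (2 * m) := Nat.floor_le (by positivity)
  unfold H167KM.fz
  linarith

/-- Several stages. -/
theorem stages {a : I → J → ℝ} {d : ℝ} {Δ ρ0 : ℕ} {wm A : ℝ} (H : Par a d Δ ρ0 wm A) (r : ℕ) :
    ∀ (x0 : J → ℝ), (∀ j, |x0 j| ≤ 1) → ∀ (m : ℝ), 1 ≤ m → Small a 0 m x0 →
    ∃ y, Ext x0 y ∧ RowOK a (r * cst d (c1 Δ ρ0)) 0 x0 y ∧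
      Small a 0 ((H167KM.fz A)^[r] m) y := by
  induction r with
  | zero =>
    intro x0 hx0 m hm hsm
    refine ⟨x0, ⟨hx0, fun _ _ => rfl⟩, fun i => Or.inl ?_, hsm⟩
    simp
  | succ r ih =>
    intro x0 hx0 m hm hsm
    obtain ⟨y, h1, h2, h3⟩ := stage_glued H x0 hx0 m hm hsm
    obtain ⟨w, h4, h5, h6⟩ := ih y h1.1 (H167KM.fz A m) (H167KM.fz_one H.hA hm) h3
    refine ⟨w, h1.trans h4, ?_, ?_⟩
    · have hcst := cst_nonneg (c := c1 Δ ρ0) H.H.hd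
      have h7 := RowOK.trans (by positivity) h2 h5 h4
      have h8 : cst d (c1 Δ ρ0) + (r : ℝ) * cst d (c1 Δ ρ0)
          = ((r + 1 : ℕ) : ℝ) * cst d (c1 Δ ρ0) := by push_cast; ring
      rw [h8] at h7
      exact h7
    · rw [Function.iterate_succ_apply]
      exact h6

/-- The last stage on all components. -/
theorem last_glued {a : I → J → ℝ} {d : ℝ} {Δ : ℕ} (H : Hyp a d Δ) (x0 : J → ℝ)
    (hx0 : ∀ j, |x0 j| ≤ 1) (m : ℝ) (hm : 1 ≤ m) (hsm : Small a 0 m x0) (c : ℝ)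
    (hc : 5 ≤ c) (hc2 : 2 * log (2 * m) ≤ c) :
    ∃ y, Ext x0 y ∧ (∀ j, |y j| = 1) ∧ RowOK a (cst d c) 0 x0 y := by
  classical
  have hex : ∀ K : Finset J, ∃ y : J → ℝ, (K ⊆ H167FK.Sys.alive x0 ∧ (K.card : ℝ) ≤ m) →
      Ext (restr x0 K) y ∧ (∀ j, |y j| = 1) ∧ RowOK a (cst d c) 0 (restr x0 K) y := by
    intro K
    by_cases hK : K ⊆ H167FK.Sys.alive x0 ∧ (K.card : ℝ) ≤ m
    · obtain ⟨y, h1, h2, h3, h4⟩ := last a d H.hd H.a1 H.col
        (restr x0 K) (restr_box K hx0) m hm (by rw [alive_restr hK.1]; exact hK.2) c hc hc2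
      refine ⟨y, fun _ => ⟨⟨h1, h2⟩, fun j => ?_, fun i => ?_⟩⟩
      · by_contra hcon
        have hj : j ∈ H167FK.Sys.alive y := mem_alive.mpr (lt_of_le_of_ne (h1 j) hcon)
        have h5 := h4 j hj
        have h6 := Finset.card_pos.mpr ⟨j, self_mem_comp (a := a) (c0 := 0) hj⟩
        omega
      · rcases h3 i with h | h
        · exact Or.inl h
        · refine Or.inr fun z hz => ?_
          rw [add_zero]
          exact h z hz.1 hz.2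
    · exact ⟨fun _ => 0, fun h => absurd h hK⟩
  choose Y hY using hex
  have hcK : ∀ v ∈ H167FK.Sys.alive x0, comp a 0 (H167FK.Sys.alive x0) v ⊆ H167FK.Sys.alive x0 ∧
      ((comp a 0 (H167FK.Sys.alive x0) v).card : ℝ) ≤ m := fun v hv =>
    ⟨comp_sub _ _ _ _, hsm v hv⟩
  have hYe := fun v hv => (hY _ (hcK v hv)).1
  have hge := glued_ext a 0 x0 Y hYe hx0
  have hcst := cst_nonneg (c := c) H.hd
  refine ⟨glued a 0 x0 Y, hge, fun j => ?_,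
    glued_row a 0 x0 Y hYe hx0 le_rfl _ _ (by linarith) (fun v hv => (hY _ (hcK v hv)).2.2)⟩
  by_cases hj : j ∈ H167FK.Sys.alive x0
  · rw [glued_comp a 0 x0 Y (self_mem_comp hj)]
    exact (hY _ (hcK j hj)).2.1 j
  · have h1 := H167FK.Sys.abs_eq_one hx0 hj
    rw [hge.2 j h1]; exact h1

/-- Matrix form. -/
theorem matrix_form (a : I → J → ℝ) (d : ℝ) (Δ ρ0 : ℕ) (wm A : ℝ) (H : Par a d Δ ρ0 wm A)
    (r : ℕ) (c : ℝ) (hc : 5 ≤ c)
    (hc2 : 2 * log (20 * A ^ 2 * (1 + slog^[r] (Fintype.card J))) ≤ c) :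
    ∃ y : J → ℝ, (∀ j, |y j| = 1) ∧ ∀ i, |∑ v, a i v * y v| ≤
      (r : ℝ) * cst d (c1 Δ ρ0) + cst d c := by
  classical
  set n : ℝ := (Fintype.card J : ℝ) with hn
  have hn0 : 0 ≤ n := Nat.cast_nonneg _
  have hd := H.H.hd
  have hA := H.hA
  set m : ℝ := 1 + n with hm
  have hsm : Small a 0 m (fun _ => 0) := by
    intro v _
    have h1 : (comp a 0 (H167FK.Sys.alive (fun _ : J => (0 : ℝ))) v).card ≤ Fintype.card J :=
      Finset.card_le_univ _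
    have h2 : ((comp a 0 (H167FK.Sys.alive (fun _ : J => (0 : ℝ))) v).card : ℝ) ≤ n := by
      rw [hn]; exact_mod_cast h1
    linarith
  obtain ⟨x, hx1, hx2, hx3⟩ := stages H r (fun _ => 0) (fun _ => by simp) m (by linarith) hsm
  have hl0 : 0 ≤ slog^[r] n := slog_iter_nonneg r hn0
  have hd2 : 1 ≤ A ^ 2 := one_le_pow₀ hA
  have hfs : (H167KM.fz A)^[r] m ≤ 10 * A ^ 2 * (1 + slog^[r] n) :=
    H167KM.fz_iter hA r (by linarith) hn0 (by
      rw [hm]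
      have : 1 * (1 + n) ≤ 10 * A ^ 2 * (1 + n) :=
        mul_le_mul_of_nonneg_right (by linarith) (by linarith)
      linarith)
  have hone : 1 ≤ 10 * A ^ 2 * (1 + slog^[r] n) := by
    have : 1 * (1 + slog^[r] n) ≤ 10 * A ^ 2 * (1 + slog^[r] n) :=
        mul_le_mul_of_nonneg_right (by linarith) (by linarith)
    linarith
  obtain ⟨y, hy1, hy2, hy3⟩ := last_glued H.H x hx1.1 (10 * A ^ 2 * (1 + slog^[r] n)) hone
    (fun v hv => (hx3 v hv).trans hfs) c hc (by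
      have h1 : 2 * (10 * A ^ 2 * (1 + slog^[r] n)) = 20 * A ^ 2 * (1 + slog^[r] n) := by ring
      rw [h1]; exact hc2)
  have hcst := cst_nonneg (c := c) hd
  have h := RowOK.trans hcst hx2 hy3 hy1
  refine ⟨y, hy2, fun i => ?_⟩
  have hsum0 : ∑ v, a i v * y v = ∑ v, a i v * (y v - (fun _ : J => (0 : ℝ)) v) := by simp
  rw [hsum0]
  rcases h i with h | h
  · exact h
  · have := h y ⟨hy1.1, fun _ _ => rfl⟩
    linarith

end H167KN
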