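import Pool.Agent.H167R2.KNPar
import Pool.Agent.H167R2.KNComb
import Pool.Agent.H167R2.BKGood

/-!
# The stage: only small components survive, real entries
-/

namespace H167KN

open Finset Real H167BJ H167BK H167KL H167KM

variable {I J : Type*} [Fintype I] [Fintype J]

theorem exists_top (a : I → J → ℝ) {t h : ℝ} (ht : 1 ≤ t) (hh : 30 ≤ h) :
    ∃ L : ℕ, (∀ i v, a i v ≠ 0 → θk t h L < |a i v|) ∧
      ∀ l < L, ∃ i v, a i v ≠ 0 ∧ |a i v| ≤ θk t h l := by
  classical
  have hex : ∃ L : ℕ, ∀ i v, a i v ≠ 0 → θk t h L < |a i v| := by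
    have h1 : ∀ i v, ∃ k : ℕ, a i v ≠ 0 → θk t h k < |a i v| := by
      intro i v
      by_cases hiv : a i v = 0
      · exact ⟨0, fun h => absurd hiv h⟩
      · obtain ⟨k, hk⟩ := θk_tendsto ht hh |a i v| (abs_pos.mpr hiv)
        exact ⟨k, fun _ => hk⟩
    choose f hf using h1
    refine ⟨∑ i, ∑ v, f i v, fun i v hiv => ?_⟩
    refine lt_of_le_of_lt (θk_anti ht hh ?_) (hf i v hiv)
    have h2 := Finset.single_le_sum (f := fun v => f i v) (fun v _ => Nat.zero_le _)
      (Finset.mem_univ v)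
    have h3 := Finset.single_le_sum (f := fun i => ∑ v, f i v) (fun i _ => Nat.zero_le _)
      (Finset.mem_univ i)
    exact h2.trans h3
  refine ⟨Nat.find hex, Nat.find_spec hex, fun l hl => ?_⟩
  have h1 := Nat.find_min hex hl
  push Not at h1
  exact h1

/-- Swapping a list sum and a row sum. -/
theorem list_row_sum' (q : I → J → ℝ) (D : ℝ) (col : ∀ j, ∑ i, q i j ≤ D) (l : ℕ)
    (τ : List (J × Finset ℕ)) :
    ∑ i, (τ.map (fun p => if l ∈ p.2 then q i p.1 else 0)).sum
      ≤ D * (τ.map (fun p => if l ∈ p.2 then (1 : ℝ) else 0)).sum := by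
  induction τ with
  | nil => simp
  | cons p τ ih =>
    simp only [List.map_cons, List.sum_cons, Finset.sum_add_distrib, mul_add]
    refine add_le_add ?_ ih
    by_cases h : l ∈ p.2
    · simp only [h, if_true, mul_one]; exact col p.1
    · simp [h]

theorem offN {t h d c x : ℝ} (ht : 1 ≤ t) (hh : 30 ≤ h) (hd : 0 < d) (htd : t = 100 * d)
    (hc : 1 ≤ c) (hh2 : h ^ 2 = 160000 * c) (hx : 0 ≤ x) (B : ℕ → ℝ)
    (hB : ∀ l, B l ≤ d / θk t h l ^ 2 * x) (L : ℕ) :
    ∑ l ∈ range L, wn t h l * exp (-Gk l) * B l ≤ 1 / 50 * c * x := by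
  calc ∑ l ∈ range L, wn t h l * exp (-Gk l) * B l
      ≤ ∑ l ∈ range L, 1 / 50 * c * x * (1 / 2) ^ (l + 1) := by
        refine Finset.sum_le_sum fun l _ => ?_
        have h5 : 0 < wn t h l * exp (-Gk l) := mul_pos (wn_pos ht hh l) (exp_pos _)
        calc wn t h l * exp (-Gk l) * B l
            ≤ wn t h l * exp (-Gk l) * (d / θk t h l ^ 2 * x) :=
              mul_le_mul_of_nonneg_left (hB l) h5.le
          _ = (wn t h l * exp (-Gk l) * (d / θk t h l ^ 2)) * x := by ring
          _ ≤ (1 / 50 * c * (1 / 2) ^ (l + 1)) * x :=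
              mul_le_mul_of_nonneg_right (wn_off ht hh hd htd hc hh2 l) hx
          _ = 1 / 50 * c * x * (1 / 2) ^ (l + 1) := by ring
    _ = 1 / 50 * c * x * ∑ l ∈ range L, ((1 : ℝ) / 2) ^ (l + 1) := by
        rw [Finset.mul_sum]
    _ ≤ 1 / 50 * c * x * 1 :=
        mul_le_mul_of_nonneg_left (geom_half_sum L) (by positivity)
    _ = _ := mul_one _

theorem numeric {c Kκ x nd Γ len z Th lN : ℝ} (hc0 : 0 < c) (hK0 : 0 < Kκ) (hK : 8 * Kκ ≤ c)
    (hx : 0 ≤ x) (hnd : 0 ≤ nd) (hz : z ≤ nd) (hlen : len ≤ 2 * x + 2 * z)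
    (hTh : Γ - 1 / 50 * c * x ≤ Th) (hpot : Th - len * Kκ ≤ lN) (hgain : c * x ≤ Γ)
    (hΓn : 2 * c * nd ≤ Γ) : 3 / 5 * Γ ≤ lN := by
  have hlenK : len * Kκ ≤ (2 * x + 2 * nd) * (c / 8) := by
    have h1 : len ≤ 2 * x + 2 * nd := by linarith
    exact mul_le_mul h1 (by linarith) hK0.le (by positivity)
  have hcSC : 0 ≤ c * x := by positivity
  have hcn : 0 ≤ c * nd := by positivity
  nlinarith

theorem numeric2 {wm n k Γ lN : ℝ} (hwm : 0 < wm) (hkn : k ≤ n) (hlN : 0 ≤ lN)
    (hmain : 3 / 5 * Γ ≤ lN) (hΓn : wm * n ≤ 106 * Γ) (hk : 177 * lN < wm * k) : False := by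
  have h1 : wm * k ≤ wm * n := mul_le_mul_of_nonneg_left hkn hwm.le
  linarith

/-- Hypotheses of a stage. -/
structure Hyp (a : I → J → ℝ) (d : ℝ) (Δ : ℕ) : Prop where
  a1 : ∀ i v, |a i v| ≤ 1
  hd : 1 ≤ d
  col : ∀ v, ∑ i, a i v ^ 2 ≤ d
  hΔ1 : 1 ≤ Δ
  hΔ : ∀ v, (nb a v).card ≤ Δ

/-- The cost parameter. -/
noncomputable def c1 (Δ ρ0 : ℕ) : ℝ := 8 * log (4 * (Δ : ℝ) ^ (2 * (ρ0 + 1) + 1))

/-- **Stage.** -/
theorem stage (a : I → J → ℝ) (d : ℝ) (Δ ρ0 : ℕ) (H : Hyp a d Δ) (wm : ℝ)
    (hwm0 : 0 < wm) (hwm1 : wm ≤ 160 * c1 Δ ρ0 / d)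
    (hwm2 : (∃ i v, a i v ≠ 0 ∧ |a i v| < 1) → wm ≤ 1) (hρ : 212 * c1 Δ ρ0 ≤ 25 ^ ρ0 * wm)
    (x0 : J → ℝ) (hx0 : ∀ j, |x0 j| ≤ 1) (N : ℝ) (hN1 : 1 ≤ N)
    (hN : ((H167FK.Sys.alive x0).card : ℝ) ≤ N) (k : ℕ)
    (hk : 177 * log (2 * N) < wm * k) :
    ∃ y : J → ℝ, (∀ j, |y j| ≤ 1) ∧ (∀ j, |x0 j| = 1 → y j = x0 j) ∧
      (∀ i, |∑ v, a i v * (y v - x0 v)| ≤ cst d (c1 Δ ρ0) ∨
        ∀ z : J → ℝ, (∀ j, |z j| ≤ 1) → (∀ j, |y j| = 1 → z j = y j) →
          |∑ v, a i v * (z v - x0 v)| ≤ cst d (c1 Δ ρ0)) ∧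
      ∀ v ∈ H167FK.Sys.alive y, (comp a 0 (H167FK.Sys.alive y) v).card < k := by
  classical
  set c : ℝ := c1 Δ ρ0 with hcdef
  have hd := H.hd
  have hd0 : 0 < d := by linarith
  set t : ℝ := 100 * d with htd
  have ht : 1 ≤ t := by linarith
  have hΔR : (1 : ℝ) ≤ Δ := by exact_mod_cast H.hΔ1
  set nn : ℕ := 2 * (ρ0 + 1) + 1 with hnn
  have hΔn : (1 : ℝ) ≤ (Δ : ℝ) ^ nn := one_le_pow₀ hΔR
  -- weights of the walks
  set X : ℝ := (Δ : ℝ) ^ nn * 2 with hX
  have hX1 : 1 ≤ X := by rw [hX]; linarith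
  have hXL : (2 : ℝ) ≤ X := by rw [hX]; linarith
  set Kκ : ℝ := log (2 * X) with hKκ
  have hKκ0 : 0 < Kκ := Real.log_pos (by linarith)
  have hKκc : 8 * Kκ ≤ c := by
    have h0 : 2 * X = 4 * (Δ : ℝ) ^ nn := by rw [hX]; ring
    rw [hKκ, h0]
    exact le_rfl
  have hX4 : 2 * X = 4 * (Δ : ℝ) ^ nn := by rw [hX]; ring
  have hKκ2 : 1 ≤ Kκ := by
    rw [hKκ, Real.le_log_iff_exp_le (by linarith)]
    have := Real.exp_one_lt_d9
    linarith
  have hc8 : 8 ≤ c := by linarith
  have hc0 : 0 < c := by linarith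
  have hc11 : 1 ≤ c := by linarith
  set h : ℝ := Real.sqrt (160000 * c) with hh
  have hh2 : h ^ 2 = 160000 * c := Real.sq_sqrt (by positivity)
  have hh30 : 30 ≤ h := by
    apply Real.le_sqrt_of_sq_le
    nlinarith
  obtain ⟨L, hL1, hL2⟩ := exists_top a ht hh30
  set κ : ℝ := 1 / (2 * X) with hκ
  have hκ0 : 0 < κ := by positivity
  have hlogκ : log κ = -Kκ := by rw [hκ, one_div, Real.log_inv]
  set F0 : Finset J := H167FK.Sys.alive x0 with hF0
  set Lb : Finset (Finset ℕ) := (range 1).powerset with hLb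
  have hLbc : Lb.card = 2 := by rw [hLb, Finset.card_powerset, Finset.card_range]; norm_num
  let M : ℕ := 2 * Fintype.card J + 1
  have hwalkc : ∀ m, ((walks a nn Lb F0 m).card : ℝ) * κ ^ (m + 1) ≤ N * (1 / 2) ^ (m + 1) := by
    intro m
    have h1 : ((walks a nn Lb F0 m).card : ℝ) ≤ F0.card * 2 * X ^ m := by
      have h2 := card_walks a nn Lb F0 Δ H.hΔ m
      rw [hLbc] at h2
      have h3 : ((walks a nn Lb F0 m).card : ℝ)
          ≤ ((F0.card * 2 * (Δ ^ nn * 2) ^ m : ℕ) : ℝ) := by
        exact_mod_cast h2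
      refine h3.trans (le_of_eq ?_)
      push_cast
      rw [hX]
    have h4 : (F0.card : ℝ) * 2 * X ^ m ≤ N * X ^ (m + 1) := by
      rw [pow_succ]
      have h5 : (F0.card : ℝ) * 2 ≤ N * X := mul_le_mul hN hXL (by positivity) (by linarith)
      calc (F0.card : ℝ) * 2 * X ^ m ≤ N * X * X ^ m :=
            mul_le_mul_of_nonneg_right h5 (by positivity)
        _ = N * (X ^ m * X) := by ring
    calc ((walks a nn Lb F0 m).card : ℝ) * κ ^ (m + 1) ≤ N * X ^ (m + 1) * κ ^ (m + 1) :=
          mul_le_mul_of_nonneg_right (h1.trans h4) (by positivity)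
      _ = N * (X * κ) ^ (m + 1) := by rw [mul_pow X κ (m + 1), mul_assoc]
      _ = N * (1 / 2) ^ (m + 1) := by
          congr 2
          rw [hκ]; field_simp
  -- normalized kept entries
  let ql : ℕ → I → J → ℝ := fun l i v =>
    (if |a i v| ≤ θk t h l then a i v else 0) ^ 2 / θk t h l ^ 2
  have hql0 : ∀ l i v, 0 ≤ ql l i v := fun l i v => by
    simp only [ql]; positivity
  have hql1 : ∀ l i v, ql l i v ≤ 1 := fun l i v => by
    have h1 := θk_pos ht hh30 l
    simp only [ql]
    rw [div_le_one (by positivity)]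
    split_ifs with h2
    · rw [← sq_abs]; exact pow_le_pow_left₀ (abs_nonneg _) h2 2
    · rw [zero_pow two_ne_zero]; positivity
  have hqla : ∀ l i v, ql l i v ≠ 0 → a i v ≠ 0 := by
    intro l i v h1 h2
    apply h1
    simp only [ql, h2]
    simp
  have hqlcol : ∀ l v, ∑ i, ql l i v ≤ d / θk t h l ^ 2 := by
    intro l v
    have h1 := θk_pos ht hh30 l
    simp only [ql]
    rw [← Finset.sum_div]
    apply div_le_div_of_nonneg_right _ (by positivity)
    refine (Finset.sum_le_sum fun i _ => ?_).trans (H.col v)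
    split_ifs
    · exact le_rfl
    · rw [zero_pow two_ne_zero]; exact sq_nonneg _
  let P : H167KL.Sys I J ((_ : ℕ) × List (J × Finset ℕ)) :=
    { a := a
      I0 := ∅
      I1 := Finset.univ
      t := t
      g0 := 0
      ht := ht
      hg0 := le_rfl
      a1 := H.a1
      col := fun v => by
        have h1 := H.col v
        linarith
      x0 := x0
      hx0 := hx0
      θ := θk t h
      D := dk t h
      hθ0 := θk_pos ht hh30
      hθa := θk_anti ht hh30
      Yl := yk t h
      hYl := yk_ge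
      lam := lk t h
      hlam := lk_pos ht
      Rb := rk t h
      hRb := fun k => by unfold rk; positivity
      g := fun l => exp (-Gk l)
      hg := fun l => by rw [gap ht l]
      hθl := lam_small ht hh30
      hD0 := dk_nonneg ht hh30
      hθD := dk_spec ht hh30
      l0 := fun _ => 0
      hl0 := fun _ _ => Or.inl rfl
      L := L
      hl0L := fun _ _ => Nat.zero_le _
      hL := hL1
      S := (range M).sigma (fun m => walks a nn Lb F0 m)
      wt := fun τ => κ ^ (τ.1 + 1)
      hwt := fun _ _ => pow_pos hκ0 _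
      b := fun τ i l => min 1 ((τ.2.map (fun p => if 0 ∈ p.2 then ql l i p.1 else 0)).sum)
      hb0 := fun τ _ i l => le_min zero_le_one (List.sum_nonneg (by
        intro x hx
        rw [List.mem_map] at hx
        obtain ⟨p, -, rfl⟩ := hx
        split_ifs
        · exact hql0 _ _ _
        · exact le_rfl))
      hb1 := fun τ _ i l => min_le_left _ _
      w := wn t h
      hw := wn_pos ht hh30
      N := N
      hN := hN
      hwtN := by
        rw [Finset.sum_sigma]
        calc ∑ m ∈ range M, ∑ τ ∈ walks a nn Lb F0 m, κ ^ (m + 1)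
            = ∑ m ∈ range M, ((walks a nn Lb F0 m).card : ℝ) * κ ^ (m + 1) := by
              refine Finset.sum_congr rfl fun m _ => ?_
              rw [Finset.sum_const, nsmul_eq_mul]
          _ ≤ ∑ m ∈ range M, N * (1 / 2) ^ (m + 1) := Finset.sum_le_sum fun m _ => hwalkc m
          _ = N * ∑ m ∈ range M, ((1 : ℝ) / 2) ^ (m + 1) := by rw [Finset.mul_sum]
          _ ≤ N * 1 := mul_le_mul_of_nonneg_left (geom_half_sum M) (by linarith)
          _ = N := mul_one N }
  have hwY : ∀ l < P.L, P.w l ≤ P.Yl l := fun l _ => wn_le l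
  have hqam : ∀ F i v, ql (P.lev F i) i v = P.am F i v ^ 2 / θk t h (P.lev F i) ^ 2 :=
    fun F i v => rfl
  have hqne : ∀ F i v, ql (P.lev F i) i v ≠ 0 ↔ P.am F i v ≠ 0 := by
    intro F i v
    have h1 := θk_pos ht hh30 (P.lev F i)
    rw [hqam]
    constructor
    · intro h2 h3
      rw [h3] at h2
      simp at h2
    · intro h2
      positivity
  -- every medium row is seen
  have hseen : P.Seen := by
    intro F F' hF i hi
    have h1 : i ∈ P.med F := (Finset.mem_filter.mp hi).1
    have hlev : P.lev F i < L := (P.mem_med.mp h1).2.2.2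
    have h2 := P.lt_Es hlev
    have h2' : 0 < P.Es (P.lev F i) F i := (P.e_pos _).trans h2
    obtain ⟨v, hv, hv2⟩ := Finset.exists_ne_zero_of_sum_ne_zero h2'.ne'
    have hv3 : P.am F i v ≠ 0 := fun h => hv2 (by
      have : P.sm (P.lev F i) i v = 0 := h
      rw [this]; simp)
    refine ⟨⟨0, [(v, {0})]⟩, ?_, ?_⟩
    · refine Finset.mem_sigma.mpr ⟨Finset.mem_range.mpr (Nat.succ_pos _), ?_⟩
      have := mem_walks a nn Lb F0 [(v, {0})] (by simp) (by simp) (by
        intro p hp
        rw [List.mem_singleton] at hp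
        rw [hp]
        refine ⟨hF hv, ?_⟩
        rw [hLb, Finset.mem_powerset]
        simp)
      simpa using this
    · show 0 < min 1 _
      apply lt_min one_pos
      simp only [List.map_cons, List.map_nil, List.sum_cons, List.sum_nil, Finset.mem_singleton,
        if_true, add_zero]
      exact lt_of_le_of_ne (hql0 _ _ _) (Ne.symm ((hqne F i v).mpr hv3))
  have hgood : ∀ (F : Finset J) (v : J) (y : J → ℝ), F ⊆ H167FK.Sys.alive P.x0 → v ∈ F →
      k ≤ (comp P.a 0 F v).card → (∀ j, |y j| ≤ 1) → P.f F y ≤ 2 * P.N →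
      ∃ A' ⊆ comp P.a 0 F v, A'.Nonempty ∧ P.Mov F A' y := by
    intro F v y hF hv hkK hy hf
    by_contra hno
    push Not at hno
    set K : Finset J := comp a 0 F v with hK
    have hKF : K ⊆ F := comp_sub _ _ _ _
    have hvK : v ∈ K := mem_comp.mpr ⟨hv, Relation.ReflTransGen.refl⟩
    have hKne : K.Nonempty := ⟨v, hvK⟩
    have hek : ∀ l, P.e l = ek t l := fun l => rfl
    let S : Stuck I J :=
      { a := a
        q := fun i v => ql (P.lev F i) i v
        q0 := fun i v => hql0 _ _ _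
        q1 := fun i v => hql1 _ _ _
        qa := fun i v => hqla _ _ _
        p := fun i v => a i v ^ 2
        p0 := fun i v => sq_nonneg _
        pa := fun i v h2 h3 => h2 (by rw [h3]; simp)
        d := d
        hd := hd
        col := H.col
        K := K
        M := P.R F K
        Bg := (P.big F).filter (fun i => ∃ u ∈ K, a i u ≠ 0)
        φ := fun i => P.φ (P.lev F i) F i y
        hφ := fun i => (P.φ_pos _ _ _ _).le
        e := fun i => en t h (P.lev F i)
        he := fun i => en_pos ht hh30 _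
        w := fun i => wn t h (P.lev F i)
        hw := fun i => wn_pos ht hh30 _
        c := c
        hc := hc0
        hwe := fun i _ => by
          have := wn_en ht hh30 (P.lev F i)
          rw [hh2] at this
          exact this
        wm := wm
        hwm0 := hwm0
        hwm1 := by
          refine hwm1.trans ?_
          rw [div_le_iff₀ hd0]
          have : 160 * c * 1 ≤ 160 * c * d := mul_le_mul_of_nonneg_left hd (by positivity)
          linarith
        hwm := by
          intro i hi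
          have h1 : P.lev F i < L := (P.mem_med.mp (Finset.mem_filter.mp hi).1).2.2.2
          refine wn_ge ht hh30 hd0 htd hc0 hh2 hwm1 _ fun h2 => ?_
          obtain ⟨i', v', h3, h4⟩ := hL2 _ h1
          exact hwm2 ⟨i', v', h3, h4.trans_lt h2⟩
        lowM := by
          intro i hi
          have h1 := e_le_comp P hi
          have h2 := θk_pos ht hh30 (P.lev F i)
          rw [hek] at h1
          show ek t (P.lev F i) / θk t h (P.lev F i) ^ 2
            ≤ 16 * ∑ u ∈ K, P.am F i u ^ 2 / θk t h (P.lev F i) ^ 2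
          rw [← Finset.sum_div, ← mul_div_assoc]
          exact div_le_div_of_nonneg_right h1 (by positivity)
        lowB := by
          intro i hi
          obtain ⟨h1, h4⟩ := Finset.mem_filter.mp hi
          have h2 := (P.mem_big.mp h1).2.2
          rw [hek, En_comp P h4] at h2
          have h5 : ek t 0 = 1000 * d := by unfold ek; rw [htd]; simp; ring
          rw [h5] at h2
          exact h2.le
        stuck := by
          intro A' hA' hne M' Bg' hM' hBg'
          have h1 := hno A' hA' hne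
          have e1 : M' = P.R F A' := by
            ext i
            rw [hM']
            constructor
            · rintro ⟨h2, u, hu, hu2⟩
              have h3 := (Finset.mem_filter.mp h2).1
              exact Finset.mem_filter.mpr ⟨h3, u, hu, (hqne F i u).mp hu2⟩
            · intro h2
              obtain ⟨h3, u, hu, hu2⟩ := Finset.mem_filter.mp h2
              exact ⟨Finset.mem_filter.mpr ⟨h3, u, hA' hu, hu2⟩, u, hu, (hqne F i u).mpr hu2⟩
          have e2 : Bg'.card ≥ ((P.big F).filter (fun i => ∃ u ∈ A', a i u ≠ 0)).card := by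
            apply Finset.card_le_card
            intro i hi
            obtain ⟨h3, u, hu, hu2⟩ := Finset.mem_filter.mp hi
            exact (hBg' i).mpr ⟨Finset.mem_filter.mpr ⟨h3, u, hA' hu, hu2⟩, u, hu,
              pow_ne_zero 2 hu2⟩
          have e2' : (((P.big F).filter (fun i => ∃ u ∈ A', a i u ≠ 0)).card : ℝ) ≤ Bg'.card := by
            exact_mod_cast e2
          by_contra hcon
          push Not at hcon
          rw [e1] at hcon
          have h5 : 0 ≤ ∑ i ∈ P.R F A', P.φ (P.lev F i) F i y :=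
            Finset.sum_nonneg fun i _ => (P.φ_pos _ _ _ _).le
          have h6 : (0 : ℝ) ≤ Bg'.card := Nat.cast_nonneg _
          apply h1
          refine ⟨by linarith, ?_⟩
          refine le_trans (le_of_eq ?_) (show 10 * (((P.big F).filter
            (fun i => ∃ u ∈ A', a i u ≠ 0)).card : ℝ) ≤ A'.card by linarith)
          congr! }
    have hKS : S.K = K := rfl
    set Q : Finset J := S.X ∪ S.Z ρ0 with hQ
    have hXK : S.X ⊆ K := S.X_sub
    have hQK : Q ⊆ K := Finset.union_subset hXK (S.Z_subK ρ0)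
    have hcov : ∀ u ∈ comp a 0 F v, ∃ q ∈ Q, hop a (ρ0 + 1) q u := by
      intro u hu
      by_cases huZ : u ∈ S.Z ρ0
      · exact ⟨u, Finset.mem_union_right _ huZ, hop_refl a _ u⟩
      · obtain ⟨x, hx, hxu⟩ := S.cover ρ0 u hu huZ
        exact ⟨x, Finset.mem_union_left _ hx, hxu⟩
    have hQne : Q.Nonempty := by
      obtain ⟨q, hq, -⟩ := hcov v hvK
      exact ⟨q, hq⟩
    let Λ : J → Finset ℕ := fun u => if u ∈ S.X then {0} else ∅
    obtain ⟨τ, hτ1, hτ2, hτ3, hτ4, hτ5⟩ := H167BK.cover (hop a nn) (fun _ _ h => hop_symm h) Q hQne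
        (net_cut a 0 F v Q (ρ0 + 1) hcov hQK) Λ
    -- size of the walk
    set x : ℝ := (S.X.card : ℝ) with hx
    have hx00 : 0 ≤ x := Nat.cast_nonneg _
    have hQc : (Q.card : ℝ) ≤ x + ((S.Z ρ0).card : ℝ) := by
      have h1 : Q.card ≤ S.X.card + (S.Z ρ0).card := Finset.card_union_le _ _
      rw [hx]; exact_mod_cast h1
    have hlen : (τ.length : ℝ) ≤ 2 * x + 2 * ((S.Z ρ0).card : ℝ) := by
      have h1 : ((τ.length + 1 : ℕ) : ℝ) ≤ ((2 * Q.card : ℕ) : ℝ) := by exact_mod_cast hτ3
      push_cast at h1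
      linarith
    have hlen1 : 1 ≤ τ.length := List.length_pos_iff.mpr hτ1
    -- the test
    let T0 : (_ : ℕ) × List (J × Finset ℕ) := ⟨τ.length - 1, τ⟩
    have hT0S : T0 ∈ P.S := by
      refine Finset.mem_sigma.mpr ⟨Finset.mem_range.mpr ?_, ?_⟩
      · show τ.length - 1 < M
        have h1 : Q.card ≤ Fintype.card J := Finset.card_le_univ Q
        simp only [M]
        omega
      · refine mem_walks a nn Lb F0 τ hτ1 hτ2 fun p hp => ?_
        obtain ⟨h1, h2⟩ := hτ4 p hp
        refine ⟨hF (hKF (hQK h1)), ?_⟩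
        rw [hLb, Finset.mem_powerset]
        rcases h2 with h2 | h2
        · rw [h2]; exact Finset.empty_subset _
        · rw [h2]
          simp only [Λ]
          split_ifs
          · simp
          · exact Finset.empty_subset _
    -- sums over the walk
    have hsumX : ∀ g : J → ℝ,
        (τ.map (fun p => if 0 ∈ p.2 then g p.1 else 0)).sum = ∑ u ∈ S.X, g u := by
      intro g
      have h1 := hτ5 (fun u s => if 0 ∈ s then g u else 0) (fun u => by simp)
      rw [h1]
      have h2 : ∀ u, (0 ∈ Λ u) ↔ u ∈ S.X := by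
        intro u
        simp only [Λ]
        split_ifs with h3 <;> simp [h3]
      simp only [h2]
      rw [Finset.sum_ite_mem, Finset.inter_eq_right.mpr Finset.subset_union_left]
    have hbT : ∀ i l, P.b T0 i l = min 1 (∑ u ∈ S.X, ql l i u) := by
      intro i l
      show min 1 ((τ.map (fun p => if 0 ∈ p.2 then ql l i p.1 else 0)).sum) = _
      rw [hsumX (fun u => ql l i u)]
    have hbsum : ∀ l, ∑ i, P.b T0 i l ≤ d / θk t h l ^ 2 * x := by
      intro l
      calc ∑ i, P.b T0 i l ≤ ∑ i, ∑ u ∈ S.X, ql l i u := by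
            refine Finset.sum_le_sum fun i _ => ?_
            rw [hbT]
            exact min_le_right _ _
        _ = ∑ u ∈ S.X, ∑ i, ql l i u := Finset.sum_comm
        _ ≤ ∑ u ∈ S.X, d / θk t h l ^ 2 := Finset.sum_le_sum fun u _ => hqlcol l u
        _ = d / θk t h l ^ 2 * x := by
            rw [Finset.sum_const, nsmul_eq_mul, hx]; ring
    -- the exponent
    have hTh : S.Γ - 1 / 50 * c * x ≤ P.Th F T0 y := by
      rw [P.Th_eq]
      have h1 : S.Γ ≤ ∑ i ∈ P.med F, P.b T0 i (P.lev F i) *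
          (P.w (P.lev F i) * P.φ (P.lev F i) F i y) := by
        have h2 : S.Γ = ∑ i ∈ P.R F K, P.b T0 i (P.lev F i) *
            (P.w (P.lev F i) * P.φ (P.lev F i) F i y) := by
          show ∑ i ∈ P.R F K, wn t h (P.lev F i) * P.φ (P.lev F i) F i y
            * min 1 (∑ v ∈ S.X, ql (P.lev F i) i v) = _
          refine Finset.sum_congr rfl fun i _ => ?_
          rw [hbT]
          show _ = _ * (wn t h (P.lev F i) * P.φ (P.lev F i) F i y)
          ring
        rw [h2]
        apply Finset.sum_le_sum_of_subset_of_nonneg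
        · intro i hi
          exact (Finset.mem_filter.mp hi).1
        · intro i _ _
          exact mul_nonneg (P.hb0 T0 hT0S i _) (mul_pos (P.hw _) (P.φ_pos _ _ _ _)).le
      have h3 := P.off_le F hT0S
      have h4 : ∑ l ∈ range P.L, P.w l * P.g l * ∑ i, P.b T0 i l ≤ 1 / 50 * c * x :=
        offN ht hh30 hd0 htd hc11 hh2 hx00 (fun l => ∑ i, P.b T0 i l) hbsum P.L
      linarith
    -- the potential bounds the exponent
    have hpot : P.Th F T0 y - (τ.length : ℝ) * Kκ ≤ log (2 * N) := by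
      have h1 : P.wt T0 * exp (P.Th F T0 y) ≤ 2 * N := by
        have h2 := Finset.single_le_sum (f := fun τ => P.wt τ * exp (P.Th F τ y))
          (fun τ hτ => mul_nonneg (P.hwt τ hτ).le (exp_pos _).le) hT0S
        have h3 : 0 ≤ ∑ j, (1 - y j ^ 2) := by
          refine Finset.sum_nonneg fun j _ => ?_
          have := hy j
          have h4 : y j ^ 2 ≤ 1 := by
            rw [← sq_abs]; nlinarith [abs_nonneg (y j)]
          linarith
        have h4 : P.f F y = ∑ τ ∈ P.S, P.wt τ * exp (P.Th F τ y) + ∑ j, (1 - y j ^ 2) := rfl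
        have h5 : P.N = N := rfl
        rw [h5] at hf
        linarith
      have h2 : P.wt T0 = κ ^ τ.length := by
        show κ ^ (τ.length - 1 + 1) = _
        congr 1
        omega
      rw [h2] at h1
      have h3 := Real.log_le_log (mul_pos (pow_pos hκ0 _) (exp_pos _)) h1
      rw [Real.log_mul (pow_pos hκ0 _).ne' (exp_pos _).ne', Real.log_exp, Real.log_pow,
        hlogκ] at h3
      linarith
    -- gains
    have hgain : c * x ≤ S.Γ := S.X_gain
    set n : ℝ := (K.card : ℝ) with hn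
    have hn1 : 1 ≤ n := by
      have : 1 ≤ K.card := Finset.card_pos.mpr hKne
      rw [hn]; exact_mod_cast this
    have hΓw : wm * n ≤ 106 * S.Γ := S.gain_ge hKne
    have h25 : (0 : ℝ) < 25 ^ ρ0 := by positivity
    have hnd : 0 ≤ n / 25 ^ ρ0 := by positivity
    have hΓn : 2 * c * (n / 25 ^ ρ0) ≤ S.Γ := by
      have h1 : 212 * c * (n / 25 ^ ρ0) ≤ 25 ^ ρ0 * wm * (n / 25 ^ ρ0) :=
        mul_le_mul_of_nonneg_right hρ hnd
      have h2 : 25 ^ ρ0 * wm * (n / 25 ^ ρ0) = wm * n := by field_simp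
      linarith
    -- the remainder is small
    have hZ : ((S.Z ρ0).card : ℝ) ≤ n / 25 ^ ρ0 := by
      have h1 := S.Z_card ρ0
      rw [le_div_iff₀ h25]
      have h2 : (25 : ℝ) ^ ρ0 * ((S.Z ρ0).card : ℝ) ≤ n := h1
      linarith
    have hmain : 3 / 5 * S.Γ ≤ log (2 * N) :=
      numeric hc0 hKκ0 hKκc hx00 hnd hZ hlen hTh hpot hgain hΓn
    have hkn : (k : ℝ) ≤ n := by rw [hn]; exact_mod_cast hkK
    exact numeric2 hwm0 hkn (Real.log_nonneg (by linarith)) hmain hΓw hk
  obtain ⟨y, hy1, hy2⟩ := P.stage' hwY rfl k hgood hseen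
  have hBd : ∀ i, P.Bd P.L i ≤ cst d c := by
    intro i
    have h1 := total_cst d c hd hc0.le hh30 (L + 1)
    have h2 : P.Bd P.L i = ∑ k ∈ range (L + 1), (4 * dk t h k + rk t h k) := by
      show P.Tp (L + 1) - P.Tp 0 = _
      unfold H167KL.Sys.Tp
      rw [Finset.range_zero, Finset.sum_empty, sub_zero]
    rw [h2]
    exact h1
  refine ⟨y, hy1.box, hy1.froz, fun i => ?_, hy2⟩
  rcases hy1.rows (Finset.mem_univ i) with h | h
  · exact Or.inl (h.trans (hBd i))
  · right
    intro z hz hzy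
    have h1 := h z hz hzy
    have h2 := hBd i
    have h3 : P.g0 = 0 := rfl
    rw [h3] at h1
    exact h1.trans (by linarith)

end H167KN
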