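import Pool.Agent.H167R2.KNGood

/-!
# The last stage: everything is coloured
-/

namespace H167KN

open Finset Real H167BJ H167BK H167KL H167KM

variable {I J : Type*} [Fintype I] [Fintype J]

/-- **Last stage.** -/
theorem last (a : I → J → ℝ) (d : ℝ) (hd : 1 ≤ d) (a1 : ∀ i v, |a i v| ≤ 1)
    (col : ∀ v, ∑ i, a i v ^ 2 ≤ d) (x0 : J → ℝ) (hx0 : ∀ j, |x0 j| ≤ 1) (N : ℝ) (hN1 : 1 ≤ N)
    (hN : ((H167FK.Sys.alive x0).card : ℝ) ≤ N) (c : ℝ) (hc5 : 5 ≤ c)
    (hc : 2 * log (2 * N) ≤ c) :
    ∃ y : J → ℝ, (∀ j, |y j| ≤ 1) ∧ (∀ j, |x0 j| = 1 → y j = x0 j) ∧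
      (∀ i, |∑ v, a i v * (y v - x0 v)| ≤ cst d c ∨
        ∀ z : J → ℝ, (∀ j, |z j| ≤ 1) → (∀ j, |y j| = 1 → z j = y j) →
          |∑ v, a i v * (z v - x0 v)| ≤ cst d c) ∧
      ∀ v ∈ H167FK.Sys.alive y, (comp a 0 (H167FK.Sys.alive y) v).card < 1 := by
  classical
  have hd0 : 0 < d := by linarith
  set t : ℝ := 100 * d with htd
  have ht : 1 ≤ t := by linarith
  have hc0 : 0 < c := by linarith
  set h : ℝ := Real.sqrt (160000 * c) with hh
  have hh2 : h ^ 2 = 160000 * c := Real.sq_sqrt (by positivity)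
  have hh30 : 30 ≤ h := by
    apply Real.le_sqrt_of_sq_le
    nlinarith
  obtain ⟨L, hL1, hL2⟩ := exists_top a ht hh30
  -- normalized kept entries
  let ql : ℕ → I → J → ℝ := fun l i v =>
    (if |a i v| ≤ θk t h l then a i v else 0) ^ 2 / θk t h l ^ 2
  have hql0 : ∀ l i v, 0 ≤ ql l i v := fun l i v => by
    simp only [ql]; positivity
  have hql1 : ∀ l i v, ql l i v ≤ 1 := fun l i v => by
    have h1 := θk_pos ht hh30 l
    simp only [ql]
    rw [div_le_one (by positivity)]
    split_ifs with h2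
    · rw [← sq_abs]; exact pow_le_pow_left₀ (abs_nonneg _) h2 2
    · rw [zero_pow two_ne_zero]; positivity
  have hqlcol : ∀ l v, ∑ i, ql l i v ≤ d / θk t h l ^ 2 := by
    intro l v
    have h1 := θk_pos ht hh30 l
    simp only [ql]
    rw [← Finset.sum_div]
    apply div_le_div_of_nonneg_right _ (by positivity)
    refine (Finset.sum_le_sum fun i _ => ?_).trans (col v)
    split_ifs
    · exact le_rfl
    · rw [zero_pow two_ne_zero]; exact sq_nonneg _
  let P : H167KL.Sys I J J :=
    { a := a
      I0 := ∅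
      I1 := Finset.univ
      t := t
      g0 := 0
      ht := ht
      hg0 := le_rfl
      a1 := a1
      col := fun v => by
        have h1 := col v
        linarith
      x0 := x0
      hx0 := hx0
      θ := θk t h
      D := dk t h
      hθ0 := θk_pos ht hh30
      hθa := θk_anti ht hh30
      Yl := yk t h
      hYl := yk_ge
      lam := lk t h
      hlam := lk_pos ht
      Rb := rk t h
      hRb := fun k => by unfold rk; positivity
      g := fun l => exp (-Gk l)
      hg := fun l => by rw [gap ht l]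
      hθl := lam_small ht hh30
      hD0 := dk_nonneg ht hh30
      hθD := dk_spec ht hh30
      l0 := fun _ => 0
      hl0 := fun _ _ => Or.inl rfl
      L := L
      hl0L := fun _ _ => Nat.zero_le _
      hL := hL1
      S := H167FK.Sys.alive x0
      wt := fun _ => 1
      hwt := fun _ _ => one_pos
      b := fun τ i l => ql l i τ
      hb0 := fun τ _ i l => hql0 _ _ _
      hb1 := fun τ _ i l => hql1 _ _ _
      w := wn t h
      hw := wn_pos ht hh30
      N := N
      hN := hN
      hwtN := by simpa using hN }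
  have hwY : ∀ l < P.L, P.w l ≤ P.Yl l := fun l _ => wn_le l
  have hqam : ∀ F i v, ql (P.lev F i) i v = P.am F i v ^ 2 / θk t h (P.lev F i) ^ 2 :=
    fun F i v => rfl
  have hqne : ∀ F i v, ql (P.lev F i) i v ≠ 0 ↔ P.am F i v ≠ 0 := by
    intro F i v
    have h1 := θk_pos ht hh30 (P.lev F i)
    rw [hqam]
    constructor
    · intro h2 h3
      rw [h3] at h2
      simp at h2
    · intro h2
      positivity
  -- every medium row is seen
  have hseen : P.Seen := by
    intro F F' hF i hi
    have h1 : i ∈ P.med F := (Finset.mem_filter.mp hi).1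
    have hlev : P.lev F i < L := (P.mem_med.mp h1).2.2.2
    have h2 := P.lt_Es hlev
    have h2' : 0 < P.Es (P.lev F i) F i := (P.e_pos _).trans h2
    obtain ⟨v, hv, hv2⟩ := Finset.exists_ne_zero_of_sum_ne_zero h2'.ne'
    have hv3 : P.am F i v ≠ 0 := fun h => hv2 (by
      have : P.sm (P.lev F i) i v = 0 := h
      rw [this]; simp)
    exact ⟨v, hF hv, lt_of_le_of_ne (hql0 _ _ _) (Ne.symm ((hqne F i v).mpr hv3))⟩
  have hgood : ∀ (F : Finset J) (v : J) (y : J → ℝ), F ⊆ H167FK.Sys.alive P.x0 → v ∈ F →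
      1 ≤ (comp P.a 0 F v).card → (∀ j, |y j| ≤ 1) → P.f F y ≤ 2 * P.N →
      ∃ A' ⊆ comp P.a 0 F v, A'.Nonempty ∧ P.Mov F A' y := by
    intro F v y hF hv _ hy hf
    set K : Finset J := comp a 0 F v with hK
    have hKF : K ⊆ F := comp_sub _ _ _ _
    have hvK : v ∈ K := mem_comp.mpr ⟨hv, Relation.ReflTransGen.refl⟩
    have hKne : K.Nonempty := ⟨v, hvK⟩
    have hek : ∀ l, P.e l = ek t l := fun l => rfl
    refine ⟨K, Finset.Subset.refl _, hKne, ?_, ?_⟩
    · -- pointwise bound
      have hpt : ∀ j ∈ K, ∑ i ∈ P.med F, ql (P.lev F i) i j *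
          (wn t h (P.lev F i) * P.φ (P.lev F i) F i y) ≤ 13 / 25 * c := by
        intro j hj
        have hjS : j ∈ P.S := hF (hKF hj)
        have h1 : exp (P.Th F j y) ≤ 2 * N := by
          have h2 : (1 : ℝ) * exp (P.Th F j y) ≤ ∑ τ ∈ P.S, P.wt τ * exp (P.Th F τ y) :=
            Finset.single_le_sum (f := fun τ => P.wt τ * exp (P.Th F τ y))
              (fun τ _ => mul_nonneg zero_le_one (exp_pos _).le) hjS
          have h3 : 0 ≤ ∑ j, (1 - y j ^ 2) := by
            refine Finset.sum_nonneg fun j _ => ?_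
            have := hy j
            have h4 : y j ^ 2 ≤ 1 := by
              rw [← sq_abs]; nlinarith [abs_nonneg (y j)]
            linarith
          have h4 : P.f F y = ∑ τ ∈ P.S, P.wt τ * exp (P.Th F τ y) + ∑ j, (1 - y j ^ 2) := rfl
          have h5 : P.N = N := rfl
          rw [h5] at hf
          linarith
        have h2 : P.Th F j y ≤ log (2 * N) := by
          rw [Real.le_log_iff_exp_le (by linarith)]; exact h1
        rw [P.Th_eq] at h2
        have h3 := P.off_le F hjS
        have h4 : ∑ l ∈ range P.L, P.w l * P.g l * ∑ i, P.b j i l ≤ 1 / 50 * c := by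
          calc ∑ l ∈ range P.L, P.w l * P.g l * ∑ i, P.b j i l
              ≤ ∑ l ∈ range P.L, 1 / 50 * c * (1 / 2) ^ (l + 1) := by
                refine Finset.sum_le_sum fun l _ => ?_
                have h5 : 0 < P.w l * P.g l := mul_pos (P.hw l) (P.g_pos l)
                calc P.w l * P.g l * ∑ i, P.b j i l
                    ≤ P.w l * P.g l * (d / θk t h l ^ 2) :=
                      mul_le_mul_of_nonneg_left (hqlcol l j) h5.le
                  _ ≤ _ := wn_off ht hh30 hd0 htd (by linarith) hh2 l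
            _ = 1 / 50 * c * ∑ l ∈ range P.L, ((1 : ℝ) / 2) ^ (l + 1) := by
                rw [Finset.mul_sum]
            _ ≤ 1 / 50 * c * 1 :=
                mul_le_mul_of_nonneg_left (geom_half_sum P.L) (by positivity)
            _ = _ := mul_one _
        have h5 : ∑ i ∈ P.med F, P.b j i (P.lev F i) * (P.w (P.lev F i) * P.φ (P.lev F i) F i y)
            = ∑ i ∈ P.med F, ql (P.lev F i) i j *
              (wn t h (P.lev F i) * P.φ (P.lev F i) F i y) := rfl
        rw [h5] at h2
        linarith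
      -- sum over the component
      have hw0 : ∀ i, 0 ≤ wn t h (P.lev F i) * P.φ (P.lev F i) F i y := fun i =>
        mul_nonneg (wn_pos ht hh30 _).le (P.φ_pos _ _ _ _).le
      have hsum : ∑ i ∈ P.R F K, (wn t h (P.lev F i) * P.φ (P.lev F i) F i y)
          * ∑ j ∈ K, ql (P.lev F i) i j ≤ 13 / 25 * c * (K.card : ℝ) := by
        calc ∑ i ∈ P.R F K, (wn t h (P.lev F i) * P.φ (P.lev F i) F i y)
              * ∑ j ∈ K, ql (P.lev F i) i j
            ≤ ∑ i ∈ P.med F, (wn t h (P.lev F i) * P.φ (P.lev F i) F i y)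
              * ∑ j ∈ K, ql (P.lev F i) i j := by
              apply Finset.sum_le_sum_of_subset_of_nonneg (Finset.filter_subset _ _)
              intro i _ _
              exact mul_nonneg (hw0 i) (Finset.sum_nonneg fun _ _ => hql0 _ _ _)
          _ = ∑ j ∈ K, ∑ i ∈ P.med F, ql (P.lev F i) i j *
              (wn t h (P.lev F i) * P.φ (P.lev F i) F i y) := by
              simp only [Finset.mul_sum]
              rw [Finset.sum_comm]
              exact Finset.sum_congr rfl fun j _ => Finset.sum_congr rfl fun i _ => by ring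
          _ ≤ ∑ j ∈ K, 13 / 25 * c := Finset.sum_le_sum hpt
          _ = 13 / 25 * c * (K.card : ℝ) := by
              rw [Finset.sum_const, nsmul_eq_mul]; ring
      have hlow : ∀ i ∈ P.R F K, 10000 * c * P.φ (P.lev F i) F i y
          ≤ (wn t h (P.lev F i) * P.φ (P.lev F i) F i y) * ∑ j ∈ K, ql (P.lev F i) i j := by
        intro i hi
        have h1 := e_le_comp P hi
        have h2 := θk_pos ht hh30 (P.lev F i)
        rw [hek] at h1
        have h3 : en t h (P.lev F i) ≤ 16 * ∑ j ∈ K, ql (P.lev F i) i j := by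
          show ek t (P.lev F i) / θk t h (P.lev F i) ^ 2
            ≤ 16 * ∑ u ∈ K, P.am F i u ^ 2 / θk t h (P.lev F i) ^ 2
          rw [← Finset.sum_div, ← mul_div_assoc]
          exact div_le_div_of_nonneg_right h1 (by positivity)
        have h4 := wn_en ht hh30 (P.lev F i)
        rw [hh2] at h4
        have h5 := wn_pos ht hh30 (P.lev F i)
        have h6 : 160000 * c ≤ wn t h (P.lev F i) * (16 * ∑ j ∈ K, ql (P.lev F i) i j) :=
          h4.trans (mul_le_mul_of_nonneg_left h3 h5.le)
        have h7 : 10000 * c ≤ wn t h (P.lev F i) * ∑ j ∈ K, ql (P.lev F i) i j := by linarith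
        have h8 := mul_le_mul_of_nonneg_right h7 (P.φ_pos (P.lev F i) F i y).le
        linarith
      have h1 := (Finset.sum_le_sum hlow).trans hsum
      rw [← Finset.mul_sum] at h1
      have hφ0 : 0 ≤ ∑ i ∈ P.R F K, P.φ (P.lev F i) F i y :=
        Finset.sum_nonneg fun i _ => (P.φ_pos _ _ _ _).le
      have h2 : c * (50 * ∑ i ∈ P.R F K, P.φ (P.lev F i) F i y) ≤ c * (K.card : ℝ) := by
        have h3 : 0 ≤ c * (K.card : ℝ) := by positivity
        nlinarith
      exact le_of_mul_le_mul_left h2 hc0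
    · exact P.big_card F K (fun i hi hiK u hu hne =>
        row_comp P hiK u hu hne) hKF
  obtain ⟨y, hy1, hy2⟩ := P.stage' hwY rfl 1 hgood hseen
  have hBd : ∀ i, P.Bd P.L i ≤ cst d c := by
    intro i
    have h1 := total_cst d c hd hc0.le hh30 (L + 1)
    have h2 : P.Bd P.L i = ∑ k ∈ range (L + 1), (4 * dk t h k + rk t h k) := by
      show P.Tp (L + 1) - P.Tp 0 = _
      unfold H167KL.Sys.Tp
      rw [Finset.range_zero, Finset.sum_empty, sub_zero]
    rw [h2]
    exact h1
  refine ⟨y, hy1.box, hy1.froz, fun i => ?_, hy2⟩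
  rcases hy1.rows (Finset.mem_univ i) with h | h
  · exact Or.inl (h.trans (hBd i))
  · right
    intro z hz hzy
    have h1 := h z hz hzy
    have h2 := hBd i
    have h3 : P.g0 = 0 := rfl
    rw [h3] at h1
    exact h1.trans (by linarith)

end H167KN
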