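import Pool.Agent.H167R2.KNNumB
import Pool.Agent.H167R2.BFLin

/-!
# Arbitrary starting points, and the smaller of the two dimensions
-/

namespace H167KN

open Finset Real H167BJ H167BK

variable {I J : Type*} [Fintype I] [Fintype J]

/-- Moving to a point with few fractional coordinates without changing the row sums. -/
theorem reduce (a : I → J → ℝ) : ∀ (n : ℕ) (x : J → ℝ), (∀ j, |x j| ≤ 1) →
    (H167FK.Sys.alive x).card ≤ n →
    ∃ y : J → ℝ, Ext x y ∧ (∀ i, ∑ v, a i v * (y v - x v) = 0) ∧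
      (H167FK.Sys.alive y).card ≤ Fintype.card I := by
  classical
  intro n
  induction n with
  | zero =>
    intro x hx hn
    exact ⟨x, ⟨hx, fun _ _ => rfl⟩, fun i => by simp, hn.trans (Nat.zero_le _)⟩
  | succ n ih =>
    intro x hx hn
    by_cases hc : (H167FK.Sys.alive x).card ≤ Fintype.card I
    · exact ⟨x, ⟨hx, fun _ _ => rfl⟩, fun i => by simp, hc⟩
    · push Not at hc
      obtain ⟨u, huF, ⟨v0, hv0, huv0⟩, hu⟩ := H167BF.exists_direction (H167FK.Sys.alive x)
        (Finset.univ : Finset I) (fun i => H167FK.Sys.lin (a i)) (by simpa using hc)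
      have hu' : ∀ i, ∑ v, a i v * u v = 0 := by
        intro i
        have := hu i (Finset.mem_univ i)
        rwa [H167FK.Sys.lin_apply] at this
      obtain ⟨s, hs0, hs1, k, hk, hkw, hkt⟩ := H167BF.ray_lemma
        (Finset.univ : Finset (J × Bool))
        (fun q => if q.2 then x q.1 else - x q.1) (fun q => if q.2 then u q.1 else - u q.1)
        (fun _ => 1)
        (by
          rintro ⟨v, b⟩ -
          have := abs_le.mp (hx v)
          cases b <;> simp <;> linarith)
        (by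
          rcases lt_or_gt_of_ne huv0 with h | h
          · exact ⟨(v0, false), by simp, by simpa using h⟩
          · exact ⟨(v0, true), by simp, by simpa using h⟩)
      set x' : J → ℝ := fun v => x v + s * u v with hx'
      have hbox : ∀ j, |x' j| ≤ 1 := by
        intro j
        have h1 := hs1 (j, true) (Finset.mem_univ _)
        have h2 := hs1 (j, false) (Finset.mem_univ _)
        simp only [if_true, Bool.false_eq_true, if_false] at h1 h2
        rw [abs_le]
        constructor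
        · simp only [hx']; linarith
        · simp only [hx']; linarith
      have hfroz : ∀ j, |x j| = 1 → x' j = x j := by
        intro j hj
        have h1 : j ∉ H167FK.Sys.alive x := by
          rw [mem_alive]; rw [hj]; exact lt_irrefl _
        simp only [hx', huF j h1, mul_zero, add_zero]
      have hk1 : k.1 ∈ H167FK.Sys.alive x := by
        by_contra hcon
        have h1 := huF k.1 hcon
        rcases hb : k.2 with _ | _
        · rw [hb] at hkw; simp [h1] at hkw
        · rw [hb] at hkw; simp [h1] at hkw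
      have hk2 : k.1 ∉ H167FK.Sys.alive x' := by
        rw [mem_alive]
        intro hlt
        have h3 := abs_lt.mp hlt
        rcases hb : k.2 with _ | _
        · rw [hb] at hkt
          simp only [Bool.false_eq_true, if_false] at hkt
          simp only [hx'] at h3
          linarith [h3.1]
        · rw [hb] at hkt
          simp only [if_true] at hkt
          simp only [hx'] at h3
          linarith [h3.2]
      have hsub : H167FK.Sys.alive x' ⊆ H167FK.Sys.alive x := by
        intro j hj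
        by_contra hcon
        have h1 : x' j = x j := by simp only [hx', huF j hcon, mul_zero, add_zero]
        rw [mem_alive] at hj hcon
        rw [h1] at hj
        exact hcon hj
      have hlt : (H167FK.Sys.alive x').card < (H167FK.Sys.alive x).card := by
        apply Finset.card_lt_card
        exact ⟨hsub, fun hcon => hk2 (hcon hk1)⟩
      obtain ⟨y, hy1, hy2, hy3⟩ := ih x' hbox (by omega)
      refine ⟨y, Ext.trans ⟨hbox, hfroz⟩ hy1, fun i => ?_, hy3⟩
      have h1 := hy2 i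
      have h2 : ∑ v, a i v * (y v - x v) = ∑ v, a i v * (y v - x' v) + s * ∑ v, a i v * u v := by
        rw [Finset.mul_sum, ← Finset.sum_add_distrib]
        exact Finset.sum_congr rfl fun v _ => by simp only [hx']; ring
      rw [h2, h1, hu' i]; ring

/-- Matrix form, arbitrary starting point. -/
theorem matrix_form' (a : I → J → ℝ) (d : ℝ) (Δ ρ0 : ℕ) (wm A : ℝ) (H : Par a d Δ ρ0 wm A)
    (r : ℕ) (c : ℝ) (hc : 5 ≤ c)
    (hc2 : 2 * log (20 * A ^ 2
      * (1 + slog^[r] ((min (Fintype.card I) (Fintype.card J) : ℕ) : ℝ))) ≤ c)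
    (x0 : J → ℝ) (hx0 : ∀ j, |x0 j| ≤ 1) :
    ∃ y : J → ℝ, (∀ j, |y j| = 1) ∧ ∀ i, |∑ v, a i v * (y v - x0 v)| ≤
      (r : ℝ) * cst d (c1 Δ ρ0) + cst d c := by
  classical
  set n : ℝ := ((min (Fintype.card I) (Fintype.card J) : ℕ) : ℝ) with hn
  have hn0 : 0 ≤ n := Nat.cast_nonneg _
  have hd := H.H.hd
  have hA := H.hA
  set m : ℝ := 1 + n with hm
  obtain ⟨x1, hx1a, hx1b, hx1c⟩ := reduce a _ x0 hx0 le_rfl
  have hsm : Small a 0 m x1 := by
    intro v _
    have h1 : (comp a 0 (H167FK.Sys.alive x1) v).card ≤ (H167FK.Sys.alive x1).card :=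
      Finset.card_le_card (comp_sub _ _ _ _)
    have h2 : (H167FK.Sys.alive x1).card ≤ min (Fintype.card I) (Fintype.card J) :=
      le_min hx1c (Finset.card_le_univ _)
    have h3 : ((comp a 0 (H167FK.Sys.alive x1) v).card : ℝ) ≤ n := by
      rw [hn]; exact_mod_cast h1.trans h2
    linarith
  obtain ⟨x, hx1, hx2, hx3⟩ := stages H r x1 hx1a.1 m (by linarith) hsm
  have hl0 : 0 ≤ slog^[r] n := slog_iter_nonneg r hn0
  have hd2 : 1 ≤ A ^ 2 := one_le_pow₀ hA
  have hfs : (H167KM.fz A)^[r] m ≤ 10 * A ^ 2 * (1 + slog^[r] n) :=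
    H167KM.fz_iter hA r (by linarith) hn0 (by
      rw [hm]
      have : 1 * (1 + n) ≤ 10 * A ^ 2 * (1 + n) :=
        mul_le_mul_of_nonneg_right (by linarith) (by linarith)
      linarith)
  have hone : 1 ≤ 10 * A ^ 2 * (1 + slog^[r] n) := by
    have : 1 * (1 + slog^[r] n) ≤ 10 * A ^ 2 * (1 + slog^[r] n) :=
        mul_le_mul_of_nonneg_right (by linarith) (by linarith)
    linarith
  obtain ⟨y, hy1, hy2, hy3⟩ := last_glued H.H x hx1.1 (10 * A ^ 2 * (1 + slog^[r] n)) hone
    (fun v hv => (hx3 v hv).trans hfs) c hc (by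
      have h1 : 2 * (10 * A ^ 2 * (1 + slog^[r] n)) = 20 * A ^ 2 * (1 + slog^[r] n) := by ring
      rw [h1]; exact hc2)
  have hcst := cst_nonneg (c := c) hd
  have h := RowOK.trans hcst hx2 hy3 hy1
  refine ⟨y, hy2, fun i => ?_⟩
  have hsum0 : ∑ v, a i v * (y v - x0 v) = ∑ v, a i v * (y v - x1 v) := by
    have h1 := hx1b i
    have h2 : ∑ v, a i v * (y v - x0 v)
        = ∑ v, a i v * (y v - x1 v) + ∑ v, a i v * (x1 v - x0 v) := by
      rw [← Finset.sum_add_distrib]
      exact Finset.sum_congr rfl fun v _ => by ring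
    rw [h2, h1, add_zero]
  rw [hsum0]
  rcases h i with h | h
  · exact h
  · have := h y ⟨hy1.1, fun _ _ => rfl⟩
    linarith

/-- **Komlós setting.** -/
theorem komlos_form2 {I J : Type*} [Fintype I] [Fintype J] (a : I → J → ℝ) (δ : ℝ) (hδ0 : 0 < δ)
    (hδ1 : δ ≤ 1) (aδ : ∀ i v, |a i v| ≤ δ) (col : ∀ v, ∑ i, a i v ^ 2 ≤ 1) (Δ : ℕ) (hΔ1 : 1 ≤ Δ)
    (hΔ : ∀ v, (nb a v).card ≤ Δ) (r : ℕ) (x0 : J → ℝ) (hx0 : ∀ j, |x0 j| ≤ 1) :
    ∃ y : J → ℝ, (∀ j, |y j| = 1) ∧ ∀ i, |∑ v, a i v * (y v - x0 v)| ≤ 70000000 * ((r : ℝ) *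
        min (((1 + log (Δ : ℝ)) * (1 + log (1 / δ) + log (1 + log (Δ : ℝ)))) ^ (1 / 4 : ℝ))
          (1 + δ * Real.sqrt ((1 + log (Δ : ℝ)) * (1 + log (1 / δ) + log (1 + log (Δ : ℝ))))
            * (1 + log (1 / δ)) ^ (3 / 2 : ℝ))
      + min ((1 + log (1 / δ) + slog^[r + 1] ((min (Fintype.card I) (Fintype.card J) : ℕ) : ℝ)) ^ (1 / 4 : ℝ))
          (1 + δ * Real.sqrt (1 + log (1 / δ) + slog^[r + 1] ((min (Fintype.card I) (Fintype.card J) : ℕ) : ℝ))
            * (1 + log (1 / δ)) ^ (3 / 2 : ℝ))) := by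
  classical
  have hd : 1 ≤ 1 / δ ^ 2 := by
    rw [le_div_iff₀ (by positivity)]; nlinarith
  have hd0 : 0 < 1 / δ ^ 2 := by positivity
  have hlogd : log (1 / δ ^ 2) = 2 * log (1 / δ) := by
    rw [show (1 : ℝ) / δ ^ 2 = (1 / δ) ^ 2 by rw [div_pow, one_pow], Real.log_pow]
    norm_num
  have hld : 0 ≤ log (1 / δ) := Real.log_nonneg (by rw [le_div_iff₀ hδ0]; linarith)
  have hΔR : (1 : ℝ) ≤ Δ := by exact_mod_cast hΔ1
  have hlΔ : 0 ≤ log (Δ : ℝ) := Real.log_nonneg hΔR
  have hllΔ : 0 ≤ log (1 + log (Δ : ℝ)) := Real.log_nonneg (by linarith)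
  set n : ℝ := ((min (Fintype.card I) (Fintype.card J) : ℕ) : ℝ) with hn
  have hn0 : 0 ≤ n := Nat.cast_nonneg _
  set z : ℝ := slog^[r + 1] n with hz
  have hz0 : 0 ≤ z := slog_iter_nonneg _ hn0
  have hl0 : 0 ≤ slog^[r] n := slog_iter_nonneg _ hn0
  have hz' : log (1 + slog^[r] n) = z := by
    rw [hz, Function.iterate_succ_apply']; rfl
  have H : Hyp (fun i v => a i v / δ) (1 / δ ^ 2) Δ := by
    refine ⟨fun i v => ?_, hd, fun v => ?_, hΔ1, fun v => ?_⟩
    · rw [abs_div, abs_of_pos hδ0, div_le_one hδ0]; exact aδ i v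
    · simp only [div_pow]
      rw [← Finset.sum_div]
      exact div_le_div_of_nonneg_right (col v) (by positivity)
    · have h1 : nb (fun i v => a i v / δ) v = nb a v := by
        ext w
        unfold nb near
        simp [hδ0.ne']
      rw [h1]; exact hΔ v
  have hP := par_real _ _ Δ H
  set cl : ℝ := 32 * (1 + log (1 / δ)) + 2 * z with hcl
  have hlast : 2 * log (20 * (177 * (1 / δ ^ 2)) ^ 2 * (1 + slog^[r] n)) ≤ cl := by
    have h1 : log (20 * (177 * (1 / δ ^ 2)) ^ 2 * (1 + slog^[r] n))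
        = log 20 + 2 * (log 177 + 2 * log (1 / δ)) + z := by
      rw [Real.log_mul (by positivity) (by linarith), Real.log_mul (by norm_num) (by positivity),
        Real.log_pow, Real.log_mul (by norm_num) hd0.ne', hlogd, hz']
      push_cast
      ring
    rw [h1]
    have h2 := H167KM.log_20
    have h3 := log_177
    linarith
  obtain ⟨y, hy1, hy2⟩ := matrix_form' _ _ Δ _ _ _ hP r cl (by linarith) (by rw [← hn]; exact hlast) x0 hx0
  refine ⟨y, hy1, fun i => ?_⟩
  have h1 := hy2 i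
  have h2 : ∑ v, a i v / δ * (y v - x0 v) = (∑ v, a i v * (y v - x0 v)) / δ := by
    rw [Finset.sum_div]
    exact Finset.sum_congr rfl fun j _ => by ring
  rw [h2, abs_div, abs_of_pos hδ0, div_le_iff₀ hδ0] at h1
  refine h1.trans ?_
  have hc1 := c1_real (1 / δ ^ 2) hd Δ hΔ1
  rw [hlogd] at hc1
  have hA := cst_real δ hδ0 hδ1 (c1 Δ (⌈log (1 / δ ^ 2 * (1 + log (Δ : ℝ)))⌉₊ + 3))
    ((1 + log (Δ : ℝ)) * (1 + log (1 / δ) + log (1 + log (Δ : ℝ)))) (by positivity) (by
      refine hc1.trans ?_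
      have h3 : (1 + log (Δ : ℝ)) * (1 + 2 * log (1 / δ) + log (1 + log (Δ : ℝ)))
          ≤ (1 + log (Δ : ℝ)) * (2 * (1 + log (1 / δ) + log (1 + log (Δ : ℝ)))) := by
        apply mul_le_mul_of_nonneg_left _ (by linarith)
        linarith
      linarith)
  have hB := cst_real δ hδ0 hδ1 cl (1 + log (1 / δ) + z) (by linarith) (by linarith)
  have h4 := mul_le_mul_of_nonneg_left hA (Nat.cast_nonneg r : (0 : ℝ) ≤ (r : ℝ))
  linarith

end H167KN
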