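import Pool.Agent.H167R2.KNFinal
import Pool.Agent.H167R2.KMNum

/-!
# Numerical form
-/

namespace H167KN

open Finset Real H167BJ H167BK

theorem log_4 : log 4 ≤ 7 / 5 := by
  have h1 : log 4 = 2 * log 2 := by
    rw [show (4 : ℝ) = 2 ^ 2 by norm_num, Real.log_pow]; push_cast; ring
  have h2 := Real.log_two_lt_d9
  rw [h1]; linarith

theorem log_4_ge : 1 ≤ log 4 := by
  have h1 : log 4 = 2 * log 2 := by
    rw [show (4 : ℝ) = 2 ^ 2 by norm_num, Real.log_pow]; push_cast; ring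
  have h2 := Real.log_two_gt_d9
  rw [h1]; linarith

theorem log_177 : log 177 ≤ 21 / 4 := by
  have h1 : Real.exp 1 ≥ 2.7182818283 := Real.exp_one_gt_d9.le
  have h2 : (177 : ℝ) ^ 4 ≤ Real.exp 21 := by
    have h3 : Real.exp 21 = Real.exp 1 ^ 21 := by rw [← Real.exp_nat_mul]; norm_num
    rw [h3]
    have h4 : (2.7182818283 : ℝ) ^ 21 ≤ Real.exp 1 ^ 21 := pow_le_pow_left₀ (by norm_num) h1 21
    have h5 : (177 : ℝ) ^ 4 ≤ (2.7182818283 : ℝ) ^ 21 := by norm_num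
    linarith
  have h3 : log ((177 : ℝ) ^ 4) ≤ 21 := by
    calc log ((177 : ℝ) ^ 4) ≤ log (Real.exp 21) := Real.log_le_log (by norm_num) h2
      _ = 21 := Real.log_exp 21
  rw [Real.log_pow] at h3
  push_cast at h3
  linarith

/-- The cost constant in terms of logarithms. -/
theorem c1_eq (Δ ρ0 : ℕ) (hΔ : 1 ≤ Δ) :
    c1 Δ ρ0 = 8 * (log 4 + (2 * ρ0 + 3) * log (Δ : ℝ)) := by
  have hΔR : (1 : ℝ) ≤ Δ := by exact_mod_cast hΔ
  unfold c1
  rw [Real.log_mul (by norm_num) (by positivity), Real.log_pow]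
  push_cast
  ring

theorem c1_le (Δ ρ0 : ℕ) (hΔ : 1 ≤ Δ) :
    c1 Δ ρ0 ≤ 8 * (2 * ρ0 + 3) * (1 + log (Δ : ℝ)) := by
  rw [c1_eq Δ ρ0 hΔ]
  have h1 := log_4
  have h2 : (0 : ℝ) ≤ ρ0 := Nat.cast_nonneg _
  linarith

theorem c1_ge (Δ ρ0 : ℕ) (hΔ : 1 ≤ Δ) : 8 ≤ c1 Δ ρ0 := by
  rw [c1_eq Δ ρ0 hΔ]
  have hΔR : (1 : ℝ) ≤ Δ := by exact_mod_cast hΔ
  have h1 := log_4_ge
  have h2 : (0 : ℝ) ≤ ρ0 := Nat.cast_nonneg _
  have h3 : 0 ≤ log (Δ : ℝ) := Real.log_nonneg hΔR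
  have h4 : 0 ≤ (2 * (ρ0 : ℝ) + 3) * log (Δ : ℝ) := by positivity
  linarith

/-- The number of layers. -/
theorem layers {x : ℝ} (hx : 1 ≤ x) :
    x * (1 + 8 * (⌈log x⌉₊ : ℝ)) ≤ 25 ^ ⌈log x⌉₊ := by
  have hx0 : 0 < x := by linarith
  set j : ℕ := ⌈log x⌉₊ with hj
  have h1 : log x ≤ j := Nat.le_ceil _
  have h2 : x ≤ (exp 1) ^ j := by
    rw [← Real.exp_nat_mul, mul_one]
    calc x = exp (log x) := (Real.exp_log hx0).symm
      _ ≤ exp j := Real.exp_le_exp.mpr h1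
  have h3 : 1 + 8 * (j : ℝ) ≤ 9 ^ j := by
    have := one_add_mul_le_pow (a := (8 : ℝ)) (by norm_num) j
    calc 1 + 8 * (j : ℝ) = 1 + j * 8 := by ring
      _ ≤ (1 + 8) ^ j := this
      _ = 9 ^ j := by norm_num
  calc x * (1 + 8 * (j : ℝ)) ≤ (exp 1) ^ j * 9 ^ j :=
        mul_le_mul h2 h3 (by positivity) (by positivity)
    _ = (exp 1 * 9) ^ j := (mul_pow _ _ _).symm
    _ ≤ 25 ^ j := by
        apply pow_le_pow_left₀ (by positivity)
        have := Real.exp_one_lt_d9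
        linarith

/-- Parameters, real entries. -/
theorem par_real {I J : Type*} [Fintype I] [Fintype J] (a : I → J → ℝ) (d : ℝ) (Δ : ℕ)
    (H : Hyp a d Δ) :
    Par a d Δ (⌈log (d * (1 + log (Δ : ℝ)))⌉₊ + 3)
      (min 1 (160 * c1 Δ (⌈log (d * (1 + log (Δ : ℝ)))⌉₊ + 3) / d)) (177 * d) := by
  have hd := H.hd
  have hd0 : 0 < d := by linarith
  have hΔR : (1 : ℝ) ≤ Δ := by exact_mod_cast H.hΔ1
  have hlog : 0 ≤ log (Δ : ℝ) := Real.log_nonneg hΔR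
  set ℓ : ℝ := 1 + log (Δ : ℝ) with hℓ
  have hℓ1 : 1 ≤ ℓ := by linarith
  have hdℓ : 1 ≤ d * ℓ := by nlinarith
  set j : ℕ := ⌈log (d * ℓ)⌉₊ with hj
  have hlay := layers hdℓ
  rw [← hj] at hlay
  have hc1 := c1_le Δ (j + 3) H.hΔ1
  have hc8 := c1_ge Δ (j + 3) H.hΔ1
  rw [← hℓ] at hc1
  push_cast at hc1
  set c := c1 Δ (j + 3) with hc
  have hc0 : 0 < c := by linarith
  have hj0 : (0 : ℝ) ≤ j := Nat.cast_nonneg _
  have h25 : (25 : ℝ) ^ (j + 3) = 15625 * 25 ^ j := by rw [pow_add]; norm_num; ring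
  have hq : 0 < 160 * c / d := by positivity
  have k1 : ℓ ≤ d * ℓ := by nlinarith
  have k2 : d ≤ d * ℓ := by nlinarith
  have hA : 212 * c ≤ 25 ^ (j + 3) := by
    rw [h25]
    have h1 : ℓ * (1 + 8 * (j : ℝ)) ≤ 25 ^ j :=
      (mul_le_mul_of_nonneg_right k1 (by positivity)).trans hlay
    have h2 : 0 ≤ ℓ * j := by positivity
    nlinarith
  have hB : 2 * d ≤ 25 ^ (j + 3) := by
    rw [h25]
    have h1 : d * (1 + 8 * (j : ℝ)) ≤ 25 ^ j :=
      (mul_le_mul_of_nonneg_right k2 (by positivity)).trans hlay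
    have h2 : 0 ≤ d * j := by positivity
    nlinarith
  refine ⟨H, lt_min one_pos hq, min_le_right _ _, fun _ => min_le_left _ _, ?_, by linarith, ?_⟩
  · rcases min_choice 1 (160 * c / d) with h | h
    · rw [h, mul_one]; exact hA
    · rw [h]
      calc 212 * c = (212 / 160) * d * (160 * c / d) := by field_simp
        _ ≤ 25 ^ (j + 3) * (160 * c / d) := by
            apply mul_le_mul_of_nonneg_right _ hq.le
            linarith
  · rcases min_choice 1 (160 * c / d) with h | h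
    · rw [h]; linarith
    · rw [h]
      have : 160 * c / d * (177 * d) = 28320 * c := by field_simp; ring
      rw [this]; linarith

/-- The cost constant, real entries. -/
theorem c1_real (d : ℝ) (hd : 1 ≤ d) (Δ : ℕ) (hΔ : 1 ≤ Δ) :
    c1 Δ (⌈log (d * (1 + log (Δ : ℝ)))⌉₊ + 3)
      ≤ 88 * ((1 + log (Δ : ℝ)) * (1 + log d + log (1 + log (Δ : ℝ)))) := by
  have hd0 : 0 < d := by linarith
  have hΔR : (1 : ℝ) ≤ Δ := by exact_mod_cast hΔ
  have hlog : 0 ≤ log (Δ : ℝ) := Real.log_nonneg hΔR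
  refine (c1_le Δ _ hΔ).trans ?_
  set ℓ : ℝ := 1 + log (Δ : ℝ) with hℓ
  have hℓ1 : 1 ≤ ℓ := by linarith
  have hdℓ : 1 ≤ d * ℓ := by nlinarith
  have h0 : 0 ≤ log (d * ℓ) := Real.log_nonneg hdℓ
  have h1 := (Nat.ceil_lt_add_one h0).le
  push_cast
  have h2 : log (d * ℓ) = log d + log ℓ := Real.log_mul hd0.ne' (by linarith)
  rw [h2] at h1
  have h3 : 0 ≤ log d := Real.log_nonneg hd
  have h4 : 0 ≤ log ℓ := Real.log_nonneg hℓ1
  rw [h2]
  have h5 : 8 * (2 * ((⌈log d + log ℓ⌉₊ : ℝ) + 3) + 3) ≤ 88 * (1 + log d + log ℓ) := by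
    linarith
  calc 8 * (2 * ((⌈log d + log ℓ⌉₊ : ℝ) + 3) + 3) * ℓ ≤ 88 * (1 + log d + log ℓ) * ℓ :=
        mul_le_mul_of_nonneg_right h5 (by linarith)
    _ = _ := by ring

/-- The cost for entries at most `δ`. -/
theorem cst_real (δ : ℝ) (hδ0 : 0 < δ) (hδ1 : δ ≤ 1) (c x : ℝ) (hx : 0 ≤ x)
    (hc : c ≤ 176 * x) :
    δ * cst (1 / δ ^ 2) c ≤ 70000000 * min (x ^ (1 / 4 : ℝ))
      (1 + δ * Real.sqrt x * (1 + log (1 / δ)) ^ (3 / 2 : ℝ)) := by
  have hd1 : 1 ≤ 1 / δ := by rw [le_div_iff₀ hδ0]; linarith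
  have hlog : 0 ≤ log (1 / δ) := Real.log_nonneg hd1
  have hsq : Real.sqrt (1 / δ ^ 2) = 1 / δ := by
    rw [show (1 : ℝ) / δ ^ 2 = (1 / δ) ^ 2 by rw [div_pow, one_pow]]
    exact Real.sqrt_sq (by positivity)
  have hl100 : 1 + log (100 * (1 / δ ^ 2)) ≤ 6 * (1 + log (1 / δ)) := by
    rw [Real.log_mul (by norm_num) (by positivity),
      show (1 : ℝ) / δ ^ 2 = (1 / δ) ^ 2 by rw [div_pow, one_pow], Real.log_pow]
    have := H167KM.log_100
    push_cast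
    linarith
  have hl0 : 0 ≤ 1 + log (100 * (1 / δ ^ 2)) := by
    have : 0 ≤ log (100 * (1 / δ ^ 2)) := by
      apply Real.log_nonneg
      have : 1 ≤ 1 / δ ^ 2 := by
        rw [le_div_iff₀ (by positivity)]; nlinarith
      linarith
    linarith
  have hsqc : Real.sqrt c ≤ 27 / 2 * Real.sqrt x := by
    have h1 : c ≤ (27 / 2) ^ 2 * x := by
      have : (176 : ℝ) * x ≤ (27 / 2) ^ 2 * x := mul_le_mul_of_nonneg_right (by norm_num) hx
      linarith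
    have h2 := Real.sqrt_le_sqrt h1
    rwa [Real.sqrt_mul (by positivity), Real.sqrt_sq (by norm_num)] at h2
  have hqq : Real.sqrt (Real.sqrt c) ≤ 4 * x ^ (1 / 4 : ℝ) := by
    have h1 : Real.sqrt c ≤ 4 ^ 2 * Real.sqrt x := by
      have := Real.sqrt_nonneg x
      linarith
    have h2 := Real.sqrt_le_sqrt h1
    rw [Real.sqrt_mul (by positivity), Real.sqrt_sq (by norm_num)] at h2
    have h3 : Real.sqrt (Real.sqrt x) = x ^ (1 / 4 : ℝ) := by
      rw [Real.sqrt_eq_rpow, Real.sqrt_eq_rpow, ← Real.rpow_mul hx]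
      norm_num
    rwa [h3] at h2
  have h32 : (6 : ℝ) ^ (3 / 2 : ℝ) ≤ 15 := by
    have h1 : (6 : ℝ) ^ (3 / 2 : ℝ) = 6 * Real.sqrt 6 := by
      rw [Real.sqrt_eq_rpow, ← Real.rpow_one_add' (by norm_num) (by norm_num)]
      norm_num
    rw [h1]
    have h2 : Real.sqrt 6 ≤ 5 / 2 := by
      rw [show (5 : ℝ) / 2 = Real.sqrt ((5 / 2) ^ 2) by rw [Real.sqrt_sq (by norm_num)]]
      apply Real.sqrt_le_sqrt
      norm_num
    linarith
  have hpow : (1 + log (100 * (1 / δ ^ 2))) ^ (3 / 2 : ℝ)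
      ≤ 15 * (1 + log (1 / δ)) ^ (3 / 2 : ℝ) := by
    have h1 := Real.rpow_le_rpow hl0 hl100 (by norm_num : (0 : ℝ) ≤ 3 / 2)
    rw [Real.mul_rpow (by norm_num) (by linarith)] at h1
    have h2 : 0 ≤ (1 + log (1 / δ)) ^ (3 / 2 : ℝ) := by positivity
    exact h1.trans (mul_le_mul_of_nonneg_right h32 h2)
  unfold cst
  rw [hsq, mul_min_of_nonneg _ _ hδ0.le, mul_min_of_nonneg _ _ (by norm_num : (0 : ℝ) ≤ 70000000)]
  apply min_le_min
  · have h1 : δ * (52000 * Real.sqrt (Real.sqrt c) * (1 / δ)) = 52000 * Real.sqrt (Real.sqrt c) := by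
      field_simp
    rw [h1]
    have : 0 ≤ x ^ (1 / 4 : ℝ) := by positivity
    linarith
  · have h2 : δ * (800 * (1 / δ) + 301200 * Real.sqrt c *
        (1 + log (100 * (1 / δ ^ 2))) ^ (3 / 2 : ℝ))
        = 800 + 301200 * (δ * (Real.sqrt c * (1 + log (100 * (1 / δ ^ 2))) ^ (3 / 2 : ℝ))) := by
      field_simp
    rw [h2]
    have h3 : Real.sqrt c * (1 + log (100 * (1 / δ ^ 2))) ^ (3 / 2 : ℝ)
        ≤ (27 / 2 * Real.sqrt x) * (15 * (1 + log (1 / δ)) ^ (3 / 2 : ℝ)) :=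
      mul_le_mul hsqc hpow (by positivity) (by positivity)
    have h4 := mul_le_mul_of_nonneg_left h3 hδ0.le
    have h5 : 0 ≤ δ * Real.sqrt x * (1 + log (1 / δ)) ^ (3 / 2 : ℝ) := by positivity
    have h6 : δ * ((27 / 2 * Real.sqrt x) * (15 * (1 + log (1 / δ)) ^ (3 / 2 : ℝ)))
        = 405 / 2 * (δ * Real.sqrt x * (1 + log (1 / δ)) ^ (3 / 2 : ℝ)) := by ring
    rw [h6] at h4
    linarith

/-- **Komlós setting.** -/
theorem komlos_form {I J : Type*} [Fintype I] [Fintype J] (a : I → J → ℝ) (δ : ℝ) (hδ0 : 0 < δ)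
    (hδ1 : δ ≤ 1) (aδ : ∀ i v, |a i v| ≤ δ) (col : ∀ v, ∑ i, a i v ^ 2 ≤ 1) (Δ : ℕ) (hΔ1 : 1 ≤ Δ)
    (hΔ : ∀ v, (nb a v).card ≤ Δ) (r : ℕ) :
    ∃ y : J → ℝ, (∀ j, |y j| = 1) ∧ ∀ i, |∑ v, a i v * y v| ≤ 70000000 * ((r : ℝ) *
        min (((1 + log (Δ : ℝ)) * (1 + log (1 / δ) + log (1 + log (Δ : ℝ)))) ^ (1 / 4 : ℝ))
          (1 + δ * Real.sqrt ((1 + log (Δ : ℝ)) * (1 + log (1 / δ) + log (1 + log (Δ : ℝ))))
            * (1 + log (1 / δ)) ^ (3 / 2 : ℝ))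
      + min ((1 + log (1 / δ) + slog^[r + 1] (Fintype.card J)) ^ (1 / 4 : ℝ))
          (1 + δ * Real.sqrt (1 + log (1 / δ) + slog^[r + 1] (Fintype.card J))
            * (1 + log (1 / δ)) ^ (3 / 2 : ℝ))) := by
  classical
  have hd : 1 ≤ 1 / δ ^ 2 := by
    rw [le_div_iff₀ (by positivity)]; nlinarith
  have hd0 : 0 < 1 / δ ^ 2 := by positivity
  have hlogd : log (1 / δ ^ 2) = 2 * log (1 / δ) := by
    rw [show (1 : ℝ) / δ ^ 2 = (1 / δ) ^ 2 by rw [div_pow, one_pow], Real.log_pow]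
    norm_num
  have hld : 0 ≤ log (1 / δ) := Real.log_nonneg (by rw [le_div_iff₀ hδ0]; linarith)
  have hΔR : (1 : ℝ) ≤ Δ := by exact_mod_cast hΔ1
  have hlΔ : 0 ≤ log (Δ : ℝ) := Real.log_nonneg hΔR
  have hllΔ : 0 ≤ log (1 + log (Δ : ℝ)) := Real.log_nonneg (by linarith)
  set n : ℝ := (Fintype.card J : ℝ) with hn
  have hn0 : 0 ≤ n := Nat.cast_nonneg _
  set z : ℝ := slog^[r + 1] n with hz
  have hz0 : 0 ≤ z := slog_iter_nonneg _ hn0
  have hl0 : 0 ≤ slog^[r] n := slog_iter_nonneg _ hn0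
  have hz' : log (1 + slog^[r] n) = z := by
    rw [hz, Function.iterate_succ_apply']; rfl
  have H : Hyp (fun i v => a i v / δ) (1 / δ ^ 2) Δ := by
    refine ⟨fun i v => ?_, hd, fun v => ?_, hΔ1, fun v => ?_⟩
    · rw [abs_div, abs_of_pos hδ0, div_le_one hδ0]; exact aδ i v
    · simp only [div_pow]
      rw [← Finset.sum_div]
      exact div_le_div_of_nonneg_right (col v) (by positivity)
    · have h1 : nb (fun i v => a i v / δ) v = nb a v := by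
        ext w
        unfold nb near
        simp [hδ0.ne']
      rw [h1]; exact hΔ v
  have hP := par_real _ _ Δ H
  set cl : ℝ := 32 * (1 + log (1 / δ)) + 2 * z with hcl
  have hlast : 2 * log (20 * (177 * (1 / δ ^ 2)) ^ 2 * (1 + slog^[r] n)) ≤ cl := by
    have h1 : log (20 * (177 * (1 / δ ^ 2)) ^ 2 * (1 + slog^[r] n))
        = log 20 + 2 * (log 177 + 2 * log (1 / δ)) + z := by
      rw [Real.log_mul (by positivity) (by linarith), Real.log_mul (by norm_num) (by positivity),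
        Real.log_pow, Real.log_mul (by norm_num) hd0.ne', hlogd, hz']
      push_cast
      ring
    rw [h1]
    have h2 := H167KM.log_20
    have h3 := log_177
    linarith
  obtain ⟨y, hy1, hy2⟩ := matrix_form _ _ Δ _ _ _ hP r cl (by linarith) (by rw [← hn]; exact hlast)
  refine ⟨y, hy1, fun i => ?_⟩
  have h1 := hy2 i
  have h2 : ∑ v, a i v / δ * y v = (∑ v, a i v * y v) / δ := by
    rw [Finset.sum_div]
    exact Finset.sum_congr rfl fun j _ => by ring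
  rw [h2, abs_div, abs_of_pos hδ0, div_le_iff₀ hδ0] at h1
  refine h1.trans ?_
  have hc1 := c1_real (1 / δ ^ 2) hd Δ hΔ1
  rw [hlogd] at hc1
  have hA := cst_real δ hδ0 hδ1 (c1 Δ (⌈log (1 / δ ^ 2 * (1 + log (Δ : ℝ)))⌉₊ + 3))
    ((1 + log (Δ : ℝ)) * (1 + log (1 / δ) + log (1 + log (Δ : ℝ)))) (by positivity) (by
      refine hc1.trans ?_
      have h3 : (1 + log (Δ : ℝ)) * (1 + 2 * log (1 / δ) + log (1 + log (Δ : ℝ)))
          ≤ (1 + log (Δ : ℝ)) * (2 * (1 + log (1 / δ) + log (1 + log (Δ : ℝ)))) := by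
        apply mul_le_mul_of_nonneg_left _ (by linarith)
        linarith
      linarith)
  have hB := cst_real δ hδ0 hδ1 cl (1 + log (1 / δ) + z) (by linarith) (by linarith)
  have h4 := mul_le_mul_of_nonneg_left hA (Nat.cast_nonneg r : (0 : ℝ) ≤ (r : ℝ))
  linarith

end H167KN
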