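import Pool.Agent.H167R2.KNNum

/-!
# Numerical form for set systems
-/

namespace H167KN

open Finset Real H167BJ H167BK

/-- Parameters, set systems. -/
theorem par_set {I J : Type*} [Fintype I] [Fintype J] (a : I → J → ℝ) (d : ℝ) (Δ : ℕ)
    (H : Hyp a d Δ) (a01 : ∀ i v, a i v = 0 ∨ a i v = 1) :
    Par a d Δ (⌈log d⌉₊ + 1) (160 * c1 Δ (⌈log d⌉₊ + 1) / d) d := by
  have hd := H.hd
  have hd0 : 0 < d := by linarith
  set j : ℕ := ⌈log d⌉₊ with hj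
  have hlay := layers hd
  rw [← hj] at hlay
  have hc8 := c1_ge Δ (j + 1) H.hΔ1
  set c := c1 Δ (j + 1) with hc
  have hc0 : 0 < c := by linarith
  have hj0 : (0 : ℝ) ≤ j := Nat.cast_nonneg _
  have hq : 0 < 160 * c / d := by positivity
  have hB : 2 * d ≤ 25 ^ (j + 1) := by
    rw [pow_succ]
    have h2 : 0 ≤ d * j := by positivity
    nlinarith
  refine ⟨H, hq, le_rfl, fun h => ?_, ?_, hd, ?_⟩
  · obtain ⟨i, v, h1, h2⟩ := h
    rcases a01 i v with h3 | h3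
    · exact absurd h3 h1
    · rw [h3, abs_one] at h2
      exact absurd h2 (lt_irrefl _)
  · calc 212 * c = (212 / 160) * d * (160 * c / d) := by field_simp
      _ ≤ 25 ^ (j + 1) * (160 * c / d) := by
          apply mul_le_mul_of_nonneg_right _ hq.le
          linarith
  · have : 160 * c / d * d = 160 * c := by field_simp
    rw [this]; linarith

/-- The cost constant, set systems. -/
theorem c1_set (t s : ℕ) (ht : 1 ≤ t) (hs : 1 ≤ s) :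
    c1 (t * s) (⌈log (t : ℝ)⌉₊ + 1)
      ≤ 56 * (1 + log (t : ℝ)) ^ 2 + 56 * (1 + log (t : ℝ)) * log s := by
  have htR : (1 : ℝ) ≤ t := by exact_mod_cast ht
  have hsR : (1 : ℝ) ≤ s := by exact_mod_cast hs
  have ht0 : (0 : ℝ) < t := by linarith
  have hs0 : (0 : ℝ) < s := by linarith
  have hlt : 0 ≤ log (t : ℝ) := Real.log_nonneg htR
  have hls : 0 ≤ log (s : ℝ) := Real.log_nonneg hsR
  have h1 := c1_le (t * s) (⌈log (t : ℝ)⌉₊ + 1) (Nat.one_le_iff_ne_zero.mpr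
    (Nat.mul_ne_zero (by omega) (by omega)))
  refine h1.trans ?_
  push_cast
  rw [Real.log_mul ht0.ne' hs0.ne']
  have h2 := (Nat.ceil_lt_add_one hlt).le
  set ℓ : ℝ := 1 + log (t : ℝ) with hℓ
  have h3 : 8 * (2 * ((⌈log (t : ℝ)⌉₊ : ℝ) + 1) + 3) ≤ 56 * ℓ := by linarith
  have h4 : 8 * (2 * ((⌈log (t : ℝ)⌉₊ : ℝ) + 1) + 3) * (1 + (log (t : ℝ) + log (s : ℝ)))
      ≤ 56 * ℓ * (1 + (log (t : ℝ) + log (s : ℝ))) :=
    mul_le_mul_of_nonneg_right h3 (by linarith)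
  refine h4.trans (le_of_eq ?_)
  rw [hℓ]; ring

/-- The cost, set systems. -/
theorem cst_set (t : ℝ) (ht : 1 ≤ t) (c y z : ℝ) (hy : 0 ≤ y) (hz : 0 ≤ z)
    (hc : c ≤ 64 * ((1 + log t) ^ 2 + (1 + log t) * y + z)) :
    cst t c ≤ 10000000000 * (Real.sqrt t + (1 + log t) ^ 2 * Real.sqrt y
      + (1 + log t) ^ (3 / 2 : ℝ) * Real.sqrt z) := by
  have ht0 : 0 < t := by linarith
  have hlog : 0 ≤ log t := Real.log_nonneg ht
  have hcube := H167KM.cube_le t ht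
  have h100 : 1 + log (100 * t) ≤ 6 * (1 + log t) := by
    rw [Real.log_mul (by norm_num) ht0.ne']
    have := H167KM.log_100
    linarith
  have h100' : 0 ≤ 1 + log (100 * t) := by
    have : 0 ≤ log (100 * t) := Real.log_nonneg (by linarith)
    linarith
  set ℓ : ℝ := 1 + log t with hℓ
  have hℓ1 : 1 ≤ ℓ := by linarith
  have hℓ0 : 0 ≤ ℓ := by linarith
  have h32 : (6 : ℝ) ^ (3 / 2 : ℝ) ≤ 15 := by
    have h1 : (6 : ℝ) ^ (3 / 2 : ℝ) = 6 * Real.sqrt 6 := by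
      rw [Real.sqrt_eq_rpow, ← Real.rpow_one_add' (by norm_num) (by norm_num)]
      norm_num
    rw [h1]
    have h2 : Real.sqrt 6 ≤ 5 / 2 := by
      rw [show (5 : ℝ) / 2 = Real.sqrt ((5 / 2) ^ 2) by rw [Real.sqrt_sq (by norm_num)]]
      apply Real.sqrt_le_sqrt
      norm_num
    linarith
  have hpow : ℓ ^ (3 / 2 : ℝ) = ℓ * Real.sqrt ℓ := by
    rw [Real.sqrt_eq_rpow, ← Real.rpow_one_add' (by linarith) (by norm_num)]
    norm_num
  have hpow2 : (1 + log (100 * t)) ^ (3 / 2 : ℝ) ≤ 15 * (ℓ * Real.sqrt ℓ) := by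
    have h1 := Real.rpow_le_rpow h100' h100 (by norm_num : (0 : ℝ) ≤ 3 / 2)
    rw [Real.mul_rpow (by norm_num) hℓ0, hpow] at h1
    exact h1.trans (mul_le_mul_of_nonneg_right h32 (by positivity))
  have hsc : Real.sqrt c ≤ 8 * (ℓ + Real.sqrt ℓ * Real.sqrt y + Real.sqrt z) := by
    have h1 : c ≤ (8 * (ℓ + Real.sqrt ℓ * Real.sqrt y + Real.sqrt z)) ^ 2 := by
      have e1 : Real.sqrt ℓ ^ 2 = ℓ := Real.sq_sqrt hℓ0
      have e2 : Real.sqrt y ^ 2 = y := Real.sq_sqrt hy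
      have e3 : Real.sqrt z ^ 2 = z := Real.sq_sqrt hz
      have p1 : 0 ≤ Real.sqrt ℓ * Real.sqrt y := by positivity
      have p2 : 0 ≤ Real.sqrt z := Real.sqrt_nonneg z
      have e4 : (Real.sqrt ℓ * Real.sqrt y) ^ 2 = ℓ * y := by rw [mul_pow, e1, e2]
      have h2 : (8 * (ℓ + Real.sqrt ℓ * Real.sqrt y + Real.sqrt z)) ^ 2
          = 64 * (ℓ ^ 2 + (Real.sqrt ℓ * Real.sqrt y) ^ 2 + Real.sqrt z ^ 2
            + 2 * (ℓ * (Real.sqrt ℓ * Real.sqrt y)) + 2 * (ℓ * Real.sqrt z)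
            + 2 * ((Real.sqrt ℓ * Real.sqrt y) * Real.sqrt z)) := by ring
      rw [h2, e4, e3]
      have q1 : 0 ≤ ℓ * (Real.sqrt ℓ * Real.sqrt y) := by positivity
      have q2 : 0 ≤ ℓ * Real.sqrt z := by positivity
      have q3 : 0 ≤ (Real.sqrt ℓ * Real.sqrt y) * Real.sqrt z := by positivity
      linarith
    have h2 := Real.sqrt_le_sqrt h1
    rwa [Real.sqrt_sq (by positivity)] at h2
  have hsl : Real.sqrt ℓ ≤ ℓ := by
    have h1 : Real.sqrt ℓ ≤ Real.sqrt (ℓ ^ 2) := Real.sqrt_le_sqrt (by nlinarith)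
    rwa [Real.sqrt_sq hℓ0] at h1
  refine (min_le_right _ _).trans ?_
  rw [hpow]
  have hB : 301200 * Real.sqrt c * (1 + log (100 * t)) ^ (3 / 2 : ℝ)
      ≤ 301200 * (8 * (ℓ + Real.sqrt ℓ * Real.sqrt y + Real.sqrt z)) * (15 * (ℓ * Real.sqrt ℓ)) := by
    apply mul_le_mul _ hpow2 (by positivity) (by positivity)
    apply mul_le_mul_of_nonneg_left hsc (by norm_num)
  have e1 : Real.sqrt ℓ * Real.sqrt ℓ = ℓ := Real.mul_self_sqrt hℓ0
  have hE : 301200 * (8 * (ℓ + Real.sqrt ℓ * Real.sqrt y + Real.sqrt z)) * (15 * (ℓ * Real.sqrt ℓ))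
      = 36144000 * (ℓ ^ 2 * Real.sqrt ℓ) + 36144000 * (ℓ * (Real.sqrt ℓ * Real.sqrt ℓ) * Real.sqrt y)
        + 36144000 * (ℓ * Real.sqrt ℓ * Real.sqrt z) := by ring
  rw [hE, e1] at hB
  have hp0 : ℓ ^ 2 * Real.sqrt ℓ ≤ ℓ ^ 3 := by
    calc ℓ ^ 2 * Real.sqrt ℓ ≤ ℓ ^ 2 * ℓ := mul_le_mul_of_nonneg_left hsl (by positivity)
      _ = ℓ ^ 3 := by ring
  have hp1 : 0 ≤ ℓ ^ 2 * Real.sqrt y := by positivity
  have hp2 : 0 ≤ ℓ * Real.sqrt ℓ * Real.sqrt z := by positivity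
  have hp3 : 0 ≤ Real.sqrt t := Real.sqrt_nonneg t
  have hp4 : ℓ * ℓ * Real.sqrt y = ℓ ^ 2 * Real.sqrt y := by ring
  rw [hp4] at hB
  linarith

end H167KN
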