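import Pool.Agent.H167R2.KMStep
import Pool.Agent.H167R2.KLBlock
import Pool.Agent.H167R2.BKLast

/-!
# Parameters of the stages, real entries
-/

namespace H167KN

open Finset Real H167BJ H167BK H167KL

theorem gap_sum2 (k : ℕ) : (16 : ℝ) ^ k * exp (-Gk k) * Gk k ≤ 1 / 1000 * (1 / 2) ^ (k + 1) := by
  have h10 : exp (-10) ≤ 1 / 20000 := by
    rw [exp_neg, one_div]
    apply inv_anti₀ (by norm_num)
    have h1 : exp 10 = exp 1 ^ 10 := by rw [← exp_nat_mul]; norm_num
    rw [h1]
    have h2 := Real.exp_one_gt_d9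
    have h3 : (2.7 : ℝ) ^ 10 ≤ exp 1 ^ 10 := by
      apply pow_le_pow_left₀ (by norm_num); linarith
    refine le_trans ?_ h3
    norm_num
  have h4 : exp (-4) ≤ 1 / 48 := by
    rw [exp_neg, one_div]
    apply inv_anti₀ (by norm_num)
    have h1 : exp 4 = exp 1 ^ 4 := by rw [← exp_nat_mul]; norm_num
    rw [h1]
    have h2 := Real.exp_one_gt_d9
    have h3 : (2.7 : ℝ) ^ 4 ≤ exp 1 ^ 4 := by
      apply pow_le_pow_left₀ (by norm_num); linarith
    refine le_trans ?_ h3
    norm_num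
  have hG : Gk k ≤ 10 * (3 / 2) ^ k := by
    induction k with
    | zero => unfold Gk; simp
    | succ k ih =>
      rw [Gk_succ, pow_succ]
      have : (1 : ℝ) ≤ (3 / 2) ^ k := one_le_pow₀ (by norm_num)
      linarith
  have hG0 := Gk_ge k
  have h1 : exp (-Gk k) = exp (-10) * exp (-4) ^ k := by
    rw [← exp_nat_mul, ← exp_add]
    congr 1
    unfold Gk
    ring
  rw [h1]
  have h2 : exp (-10) * exp (-4) ^ k ≤ 1 / 20000 * (1 / 48) ^ k := by
    apply mul_le_mul h10 _ (by positivity) (by norm_num)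
    exact pow_le_pow_left₀ (exp_pos _).le h4 k
  calc (16 : ℝ) ^ k * (exp (-10) * exp (-4) ^ k) * Gk k
      ≤ 16 ^ k * (1 / 20000 * (1 / 48) ^ k) * (10 * (3 / 2) ^ k) := by
        apply mul_le_mul _ hG (by linarith) (by positivity)
        exact mul_le_mul_of_nonneg_left h2 (by positivity)
    _ = 1 / 2000 * (16 * (1 / 48) * (3 / 2)) ^ k := by rw [mul_pow, mul_pow]; ring
    _ = 1 / 1000 * (1 / 2) ^ (k + 1) := by
        rw [pow_succ]; norm_num; ring

/-- Weights. -/
noncomputable def wn (t h : ℝ) (l : ℕ) : ℝ := if 1 ≤ θk t h l then wk t h l else yk t h l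

/-- Normalized energy scales. -/
noncomputable def en (t h : ℝ) (l : ℕ) : ℝ := ek t l / θk t h l ^ 2

section

variable {t h : ℝ} (ht : 1 ≤ t) (hh : 30 ≤ h)

include ht hh

theorem wn_ge_wk (l : ℕ) : wk t h l ≤ wn t h l := by
  unfold wn
  split_ifs
  · exact le_rfl
  · exact wk_le_yk l

theorem wn_pos (l : ℕ) : 0 < wn t h l := (wk_pos ht hh l).trans_le (wn_ge_wk ht hh l)

omit ht hh in
theorem wn_le (l : ℕ) : wn t h l ≤ yk t h l := by
  unfold wn
  split_ifs
  · exact wk_le_yk l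
  · exact le_rfl

theorem en_pos (l : ℕ) : 0 < en t h l := by
  have h1 := ek_pos ht l
  have h2 := θk_pos ht hh l
  unfold en; positivity

theorem wn_en (l : ℕ) : h ^ 2 ≤ wn t h l * en t h l := by
  have h1 := ek_pos ht l
  have h2 := θk_pos ht hh l
  have h3 := wn_ge_wk ht hh l
  have h4 := en_pos ht hh l
  have h5 : wk t h l * en t h l = h ^ 2 := by
    unfold wk en; field_simp
  rw [← h5]
  exact mul_le_mul_of_nonneg_right h3 h4.le

theorem wn_ge {d c wm : ℝ} (hd : 0 < d) (htd : t = 100 * d) (hc : 0 < c)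
    (hhc : h ^ 2 = 160000 * c) (hwm : wm ≤ 160 * c / d) (l : ℕ) (hl : θk t h l < 1 → wm ≤ 1) :
    wm ≤ wn t h l := by
  unfold wn
  split_ifs with h1
  · have h2 : θk t h l = 1 := le_antisymm (θk_le_one l) h1
    have h3 := ek_pos ht l
    have h4 : ek t l ≤ 1000 * d := by
      have := ek_anti ht (Nat.zero_le l)
      have h5 : ek t 0 = 1000 * d := by unfold ek; rw [htd]; simp; ring
      linarith
    refine hwm.trans ?_
    unfold wk
    rw [h2, hhc, one_pow, mul_one, div_le_div_iff₀ hd h3]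
    calc 160 * c * ek t l ≤ 160 * c * (1000 * d) := mul_le_mul_of_nonneg_left h4 (by positivity)
      _ = _ := by ring
  · push Not at h1
    exact (hl h1).trans (yk_ge l)

theorem wn_off {d c : ℝ} (hd : 0 < d) (htd : t = 100 * d) (hc : 1 ≤ c)
    (hhc : h ^ 2 = 160000 * c) (l : ℕ) :
    wn t h l * exp (-Gk l) * (d / θk t h l ^ 2) ≤ 1 / 50 * c * (1 / 2) ^ (l + 1) := by
  have he := ek_pos ht l
  have hθ := θk_pos ht hh l
  have hG := Gk_ge l
  have hh0 : 0 < h := by linarith
  have hexp : 0 < exp (-Gk l) := exp_pos _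
  have h1 : wn t h l / θk t h l ^ 2 ≤ (h ^ 2 + 8 * h * Gk l) / ek t l := by
    unfold wn
    split_ifs with h1
    · have h2 : wk t h l / θk t h l ^ 2 = h ^ 2 / ek t l := by
        unfold wk; field_simp
      rw [h2]
      apply div_le_div_of_nonneg_right _ he.le
      have : 0 ≤ 8 * h * Gk l := by positivity
      linarith
    · push Not at h1
      have h2 := θk_sq_eq ht hh h1
      have h3 : yk t h l ≤ 1 + wk t h l := by
        unfold yk
        have := wk_pos ht hh l
        apply max_le <;> linarith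
      have h4 : yk t h l / θk t h l ^ 2 ≤ (1 + wk t h l) / θk t h l ^ 2 :=
        div_le_div_of_nonneg_right h3 (by positivity)
      refine h4.trans (le_of_eq ?_)
      rw [add_div]
      have h5 : wk t h l / θk t h l ^ 2 = h ^ 2 / ek t l := by
        unfold wk; field_simp
      rw [h5, h2]
      unfold qk
      field_simp
      ring
  have h2 : d / ek t l = 16 ^ l / 1000 := by
    unfold ek
    rw [htd]
    field_simp
    ring
  have h3 := gap_sum l
  have h4 := gap_sum2 l
  have hsc : h ≤ 400 * c := by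
    have h5 : h ^ 2 ≤ (400 * c) ^ 2 := by
      rw [hhc, mul_pow]
      nlinarith
    exact le_of_sq_le_sq'' h5 (by linarith)
  calc wn t h l * exp (-Gk l) * (d / θk t h l ^ 2)
      = (wn t h l / θk t h l ^ 2) * (exp (-Gk l) * d) := by ring
    _ ≤ ((h ^ 2 + 8 * h * Gk l) / ek t l) * (exp (-Gk l) * d) :=
        mul_le_mul_of_nonneg_right h1 (by positivity)
    _ = (h ^ 2 + 8 * h * Gk l) * exp (-Gk l) * (d / ek t l) := by ring
    _ = 1 / 1000 * (h ^ 2 * ((16 : ℝ) ^ l * exp (-Gk l))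
          + 8 * h * ((16 : ℝ) ^ l * exp (-Gk l) * Gk l)) := by rw [h2]; ring
    _ ≤ 1 / 1000 * (h ^ 2 * (1 / 10000 * (1 / 2) ^ (l + 1))
          + 8 * h * (1 / 1000 * (1 / 2) ^ (l + 1))) := by
        apply mul_le_mul_of_nonneg_left _ (by norm_num)
        apply add_le_add
        · exact mul_le_mul_of_nonneg_left h3 (by positivity)
        · exact mul_le_mul_of_nonneg_left h4 (by positivity)
    _ = (h ^ 2 / 10000000 + 8 * h / 1000000) * (1 / 2) ^ (l + 1) := by ring
    _ ≤ (1 / 50 * c) * (1 / 2) ^ (l + 1) := by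
        apply mul_le_mul_of_nonneg_right _ (by positivity)
        rw [hhc]
        linarith
where
  le_of_sq_le_sq'' {x y : ℝ} (h : x ^ 2 ≤ y ^ 2) (hy : 0 ≤ y) : x ≤ y := by
    nlinarith [abs_le_of_sq_le_sq h hy, le_abs_self x]

end

/-- Cost of a stage. -/
noncomputable def cst (d c : ℝ) : ℝ :=
  min (52000 * Real.sqrt (Real.sqrt c) * Real.sqrt d)
    (800 * Real.sqrt d + 301200 * Real.sqrt c * (1 + log (100 * d)) ^ (3 / 2 : ℝ))

theorem cst_nonneg {d c : ℝ} (hd : 1 ≤ d) : 0 ≤ cst d c := by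
  have : 0 ≤ log (100 * d) := Real.log_nonneg (by linarith)
  unfold cst
  apply le_min <;> positivity

theorem total_cst (d c : ℝ) (hd : 1 ≤ d) (hc : 0 ≤ c)
    (hh : 30 ≤ Real.sqrt (160000 * c)) (K : ℕ) :
    ∑ k ∈ range K, (4 * dk (100 * d) (Real.sqrt (160000 * c)) k
      + rk (100 * d) (Real.sqrt (160000 * c)) k) ≤ cst d c := by
  have h2 : Real.sqrt (100 * d) = 10 * Real.sqrt d := by
    rw [Real.sqrt_mul (by norm_num), show (100 : ℝ) = 10 ^ 2 by norm_num,
      Real.sqrt_sq (by norm_num)]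
  have h3 : Real.sqrt (160000 * c) = 400 * Real.sqrt c := by
    rw [Real.sqrt_mul (by norm_num), show (160000 : ℝ) = 400 ^ 2 by norm_num,
      Real.sqrt_sq (by norm_num)]
  unfold cst
  apply le_min
  · have h1 := tail_cost (t := 100 * d) (by linarith) hh 0 K (Nat.zero_le _)
    rw [← Finset.range_eq_Ico, pow_zero, mul_one] at h1
    refine h1.trans (le_of_eq ?_)
    have h4 : Real.sqrt (400 * Real.sqrt c) = 20 * Real.sqrt (Real.sqrt c) := by
      rw [Real.sqrt_mul (by norm_num), show (400 : ℝ) = 20 ^ 2 by norm_num,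
        Real.sqrt_sq (by norm_num)]
    rw [h2, h3, h4]
    ring
  · have h1 := total (t := 100 * d) (by linarith) hh K
    refine h1.trans (le_of_eq ?_)
    rw [h2, h3]
    ring

section rows

variable {I J T : Type*} [Fintype I] [Fintype J] (P : H167KL.Sys I J T)

theorem row_comp {F : Finset J} {v : J} {i : I} (hi : ∃ u ∈ comp P.a 0 F v, P.a i u ≠ 0) :
    ∀ u ∈ F, P.a i u ≠ 0 → u ∈ comp P.a 0 F v := by
  refine comp_rows ?_ hi
  obtain ⟨u', hu', hne'⟩ := hi
  exact Finset.sum_pos' (fun _ _ => abs_nonneg _)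
    ⟨u', comp_sub _ _ _ _ hu', abs_pos.mpr hne'⟩

theorem am_ne {F : Finset J} {i : I} {u : J} (h : P.am F i u ≠ 0) : P.a i u ≠ 0 := by
  intro h2
  apply h
  show P.sm (P.lev F i) i u = 0
  unfold H167KL.Sys.sm
  rw [h2]; simp

theorem e_le_comp {F : Finset J} {v : J} {i : I} (hi : i ∈ P.R F (comp P.a 0 F v)) :
    P.e (P.lev F i) ≤ 16 * ∑ u ∈ comp P.a 0 F v, P.am F i u ^ 2 := by
  classical
  obtain ⟨h1, u0, hu0, hne0⟩ := Finset.mem_filter.mp hi
  have h2 := P.lt_Es (P.mem_med.mp h1).2.2.2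
  have h3 : P.Es (P.lev F i) F i = ∑ u ∈ comp P.a 0 F v, P.am F i u ^ 2 := by
    unfold H167KL.Sys.Es
    symm
    refine Finset.sum_subset (comp_sub _ _ _ _) fun u hu hu2 => ?_
    by_contra hne
    apply hu2
    refine row_comp P ⟨u0, hu0, am_ne P hne0⟩ u hu (am_ne P (F := F) fun h => hne ?_)
    have : P.sm (P.lev F i) i u = 0 := h
    rw [show P.am F i u = 0 from h]; simp
  have h4 : P.e (P.lev F i) = 16 * P.e (P.lev F i + 1) := by
    unfold H167KL.Sys.e
    rw [pow_succ]
    field_simp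
  rw [h4, ← h3]
  linarith

theorem En_comp {F : Finset J} {v : J} {i : I} (hi : ∃ u ∈ comp P.a 0 F v, P.a i u ≠ 0) :
    P.En F i = ∑ u ∈ comp P.a 0 F v, P.a i u ^ 2 := by
  classical
  unfold H167KL.Sys.En
  symm
  refine Finset.sum_subset (comp_sub _ _ _ _) fun u hu hu2 => ?_
  by_contra hne
  exact hu2 (row_comp P hi u hu (fun h => hne (by rw [h]; simp)))

end rows

end H167KN
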