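import Pool.Agent.H167R2.KPFinal
import Pool.Agent.H167R2.KNLin
import Pool.Agent.H167R2.FKMinimax

/-!
# Numerical form of the weighted theorem, distributions
-/

namespace H167KN

open Finset Real H167BJ H167BK

theorem Par.mono {I J : Type*} [Fintype I] [Fintype J] {a : I → J → ℝ} {d : ℝ} {Δ ρ0 : ℕ}
    {wm A A' : ℝ} (H : Par a d Δ ρ0 wm A) (h : A ≤ A') : Par a d Δ ρ0 wm A' :=
  ⟨H.H, H.hwm0, H.hwm1, H.hwm2, H.hρ, H.hA.trans h,
    H.hwA.trans (mul_le_mul_of_nonneg_left h H.hwm0.le)⟩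

theorem slog_mono {x y : ℝ} (hx : 0 ≤ x) (h : x ≤ y) : slog x ≤ slog y :=
  Real.log_le_log (by linarith) (by linarith)

theorem slog_two {x : ℝ} (hx : 0 ≤ x) : slog (2 * x) ≤ 2 * slog x := by
  unfold slog
  have h1 : 2 * log (1 + x) = log ((1 + x) ^ 2) := by rw [Real.log_pow]; norm_num
  rw [h1]
  apply Real.log_le_log (by linarith)
  nlinarith [sq_nonneg x]

theorem slog_iter_mono (r : ℕ) : ∀ {x y : ℝ}, 0 ≤ x → x ≤ y → slog^[r] x ≤ slog^[r] y := by
  induction r with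
  | zero => intro x y _ h; exact h
  | succ r ih =>
    intro x y hx h
    rw [Function.iterate_succ_apply, Function.iterate_succ_apply]
    exact ih (slog_nonneg hx) (slog_mono hx h)

theorem slog_iter_two (r : ℕ) : ∀ {x : ℝ}, 0 ≤ x → slog^[r] (2 * x) ≤ 2 * slog^[r] x := by
  induction r with
  | zero => intro x _; exact le_rfl
  | succ r ih =>
    intro x hx
    rw [Function.iterate_succ_apply, Function.iterate_succ_apply]
    exact (slog_iter_mono r (slog_nonneg (by linarith)) (slog_two hx)).trans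
      (ih (slog_nonneg hx))

theorem log_700 : log 700 ≤ 133 / 20 := by
  have h1 : log 700 ≤ log (177 * 4) := Real.log_le_log (by norm_num) (by norm_num)
  rw [Real.log_mul (by norm_num) (by norm_num)] at h1
  have h2 := log_177
  have h3 := log_4
  linarith

/-- The constant of the last step. -/
theorem last_const {d ε : ℝ} (hd : 1 ≤ d) (hε0 : 0 < ε) (hε : ε ≤ 1 / 2) (r : ℕ) :
    2 * log (20 * (700 * d) ^ 2 * (1 + slog^[r] (log (1 / (ε / 2)))))
      ≤ 33 + 4 * log d + 4 * slog^[r + 1] (log (1 / ε)) := by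
  have hd0 : 0 < d := by linarith
  have hL0 : log 2 ≤ log (1 / ε) := by
    apply Real.log_le_log (by norm_num)
    rw [le_div_iff₀ hε0]; linarith
  have hl2 : 0 ≤ log 2 := Real.log_nonneg (by norm_num)
  set L : ℝ := log (1 / ε) with hL
  have hL1 : 0 ≤ L := hl2.trans hL0
  have h1 : log (1 / (ε / 2)) = log 2 + L := by
    have : 1 / (ε / 2) = 2 * (1 / ε) := by field_simp
    rw [this, Real.log_mul (by norm_num) (by positivity)]
  have h2 : slog^[r] (log (1 / (ε / 2))) ≤ 2 * slog^[r] L := by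
    rw [h1]
    exact (slog_iter_mono r (by linarith) (by linarith : log 2 + L ≤ 2 * L)).trans
      (slog_iter_two r hL1)
  have hs0 : 0 ≤ slog^[r] L := slog_iter_nonneg r hL1
  have hs1 : 0 ≤ slog^[r] (log (1 / (ε / 2))) := slog_iter_nonneg r (by rw [h1]; linarith)
  have h3 : log (20 * (700 * d) ^ 2 * (1 + slog^[r] (log (1 / (ε / 2)))))
      = log 20 + 2 * (log 700 + log d) + log (1 + slog^[r] (log (1 / (ε / 2)))) := by
    rw [Real.log_mul (by positivity) (by linarith), Real.log_mul (by norm_num) (by positivity),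
      Real.log_pow, Real.log_mul (by norm_num) hd0.ne']
    push_cast
    ring
  have h4 : log (1 + slog^[r] (log (1 / (ε / 2)))) ≤ 2 * slog^[r + 1] L := by
    have h5 : log (1 + slog^[r] (log (1 / (ε / 2)))) ≤ slog (2 * slog^[r] L) :=
      slog_mono hs1 h2
    rw [Function.iterate_succ_apply']
    exact h5.trans (slog_two hs0)
  have h6 := H167KM.log_20
  have h7 := log_700
  rw [h3]
  linarith

/-- A weighted statement with a uniform bound gives a distribution. -/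
theorem distribution (m n : ℕ) (a : Fin m → Fin n → ℝ) (x0 : Fin n → ℝ) (ε c : ℝ)
    (hw : ∀ p : Fin n → ℝ, (∀ j, 0 ≤ p j) →
      ∃ x : Fin n → ℝ, (∀ j, |x j| ≤ 1) ∧ (∀ i, |∑ j, a i j * (x j - x0 j)| ≤ c) ∧
        ∑ j, (if |x j| < 1 then p j else 0) ≤ ε * ∑ j, p j) :
    ∃ (K : ℕ) (w : Fin K → ℝ) (y : Fin K → Fin n → ℝ),
      (∀ k, 0 ≤ w k) ∧ ∑ k, w k = 1 ∧
      (∀ k j, -1 ≤ y k j ∧ y k j ≤ 1) ∧
      (∀ k i, |∑ j, a i j * (y k j - x0 j)| ≤ c) ∧
      ∀ j, ∑ k ∈ Finset.univ.filter (fun k => ¬ (y k j = 1 ∨ y k j = -1)), w k ≤ ε := by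
  classical
  -- choose, for every pattern of uncoloured coordinates that occurs, a representative
  let good : (Fin n → ℝ) → Prop := fun x => (∀ j, |x j| ≤ 1) ∧
    ∀ i, |∑ j, a i j * (x j - x0 j)| ≤ c
  let pat : (Fin n → ℝ) → (Fin n → ℝ) := fun x j => if |x j| < 1 then 1 else 0
  have hfin : (Set.range (fun U : Finset (Fin n) => fun j : Fin n =>
      if j ∈ U then (1 : ℝ) else 0)).Finite := Set.finite_range _
  have hpatfin : (pat '' {x | good x}).Finite := by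
    refine hfin.subset ?_
    rintro z ⟨x, -, rfl⟩
    refine ⟨Finset.univ.filter (fun j => |x j| < 1), ?_⟩
    funext j
    simp [pat]
  set Z : Finset (Fin n → ℝ) := hpatfin.toFinset with hZ
  have hZmem : ∀ z ∈ Z, ∃ x, good x ∧ pat x = z := by
    intro z hz
    rw [hZ, Set.Finite.mem_toFinset] at hz
    exact hz
  obtain ⟨w, hw0, hw1, hw2⟩ := H167FK.minimax Z ε (by
    intro p hp
    obtain ⟨x, hx1, hx2, hx3⟩ := hw p hp
    refine ⟨pat x, ?_, ?_⟩
    · rw [hZ, Set.Finite.mem_toFinset]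
      exact ⟨x, ⟨hx1, hx2⟩, rfl⟩
    · refine le_trans (le_of_eq ?_) hx3
      refine Finset.sum_congr rfl fun j _ => ?_
      simp only [pat]
      split_ifs <;> simp)
  choose! x hx hxp using hZmem
  let e : Fin Z.card ≃ Z := Z.equivFin.symm
  refine ⟨Z.card, fun k => w (e k), fun k => x (e k), fun k => hw0 _ (e k).2, ?_, ?_, ?_, ?_⟩
  · rw [Equiv.sum_comp e (fun z : Z => w z), Finset.sum_coe_sort Z w]
    exact hw1
  · intro k j
    exact abs_le.mp ((hx _ (e k).2).1 j)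
  · intro k i
    exact (hx _ (e k).2).2 i
  · intro j
    refine le_trans (le_of_eq ?_) (hw2 j)
    rw [Finset.sum_filter, ← Finset.sum_coe_sort Z (fun z => w z * z j),
      ← Equiv.sum_comp e (fun z : Z => w z * (z : Fin n → ℝ) j)]
    refine Finset.sum_congr rfl fun k _ => ?_
    have h2 := hxp _ (e k).2
    have h3 : ((e k : Z) : Fin n → ℝ) j = if |x (e k) j| < 1 then 1 else 0 := by
      conv_lhs => rw [← h2]
    have h4 := (hx _ (e k).2).1 j
    have h5 : (¬ (x (e k) j = 1 ∨ x (e k) j = -1)) ↔ |x (e k) j| < 1 := by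
      constructor
      · intro h
        refine lt_of_le_of_ne h4 fun h6 => h ?_
        exact eq_or_eq_neg_of_abs_eq h6
      · intro h h6
        rcases h6 with h6 | h6 <;> rw [h6] at h <;> norm_num at h
    rw [h3]
    by_cases h6 : |x (e k) j| < 1
    · rw [if_pos (h5.mpr h6), if_pos h6, mul_one]
    · rw [if_neg (fun h => h6 (h5.mp h)), if_neg h6, mul_zero]

/-- **Komlós setting, distributions.** -/
theorem komlos_dist (m n : ℕ) (a : Fin m → Fin n → ℝ) (δ : ℝ) (hδ0 : 0 < δ)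
    (hδ1 : δ ≤ 1) (aδ : ∀ i v, |a i v| ≤ δ) (col : ∀ v, ∑ i, a i v ^ 2 ≤ 1) (Δ : ℕ) (hΔ1 : 1 ≤ Δ)
    (hΔ : ∀ v, (nb a v).card ≤ Δ) (r : ℕ) (x0 : Fin n → ℝ) (hx0 : ∀ j, |x0 j| ≤ 1)
    (ε : ℝ) (hε0 : 0 < ε) (hε : ε ≤ 1 / 2) :
    ∃ (K : ℕ) (w : Fin K → ℝ) (y : Fin K → Fin n → ℝ),
      (∀ k, 0 ≤ w k) ∧ ∑ k, w k = 1 ∧
      (∀ k j, -1 ≤ y k j ∧ y k j ≤ 1) ∧
      (∀ k i, |∑ j, a i j * (y k j - x0 j)| ≤ 70000000 * (((r : ℝ) + 1) *
        min (((1 + log (Δ : ℝ)) * (1 + log (1 / δ) + log (1 + log (Δ : ℝ)))) ^ (1 / 4 : ℝ))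
          (1 + δ * Real.sqrt ((1 + log (Δ : ℝ)) * (1 + log (1 / δ) + log (1 + log (Δ : ℝ))))
            * (1 + log (1 / δ)) ^ (3 / 2 : ℝ))
      + min ((1 + log (1 / δ) + slog^[r + 1] (log (1 / ε))) ^ (1 / 4 : ℝ))
          (1 + δ * Real.sqrt (1 + log (1 / δ) + slog^[r + 1] (log (1 / ε)))
            * (1 + log (1 / δ)) ^ (3 / 2 : ℝ)))) ∧
      ∀ j, ∑ k ∈ Finset.univ.filter (fun k => ¬ (y k j = 1 ∨ y k j = -1)), w k ≤ ε := by
  classical
  apply distribution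
  intro p hp
  have hd : 1 ≤ 1 / δ ^ 2 := by
    rw [le_div_iff₀ (by positivity)]; nlinarith
  have hd0 : 0 < 1 / δ ^ 2 := by positivity
  have hlogd : log (1 / δ ^ 2) = 2 * log (1 / δ) := by
    rw [show (1 : ℝ) / δ ^ 2 = (1 / δ) ^ 2 by rw [div_pow, one_pow], Real.log_pow]
    norm_num
  have hld : 0 ≤ log (1 / δ) := Real.log_nonneg (by rw [le_div_iff₀ hδ0]; linarith)
  have hΔR : (1 : ℝ) ≤ Δ := by exact_mod_cast hΔ1
  have hlΔ : 0 ≤ log (Δ : ℝ) := Real.log_nonneg hΔR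
  have hllΔ : 0 ≤ log (1 + log (Δ : ℝ)) := Real.log_nonneg (by linarith)
  have hL0 : 0 ≤ log (1 / ε) := Real.log_nonneg (by rw [le_div_iff₀ hε0]; linarith)
  set z : ℝ := slog^[r + 1] (log (1 / ε)) with hz
  have hz0 : 0 ≤ z := slog_iter_nonneg _ hL0
  have H : Hyp (fun i v => a i v / δ) (1 / δ ^ 2) Δ := by
    refine ⟨fun i v => ?_, hd, fun v => ?_, hΔ1, fun v => ?_⟩
    · rw [abs_div, abs_of_pos hδ0, div_le_one hδ0]; exact aδ i v
    · simp only [div_pow]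
      rw [← Finset.sum_div]
      exact div_le_div_of_nonneg_right (col v) (by positivity)
    · have h1 : nb (fun i v => a i v / δ) v = nb a v := by
        ext w
        unfold nb near
        simp [hδ0.ne']
      rw [h1]; exact hΔ v
  have hP := (par_real _ _ Δ H).mono (show 177 * (1 / δ ^ 2) ≤ 700 * (1 / δ ^ 2) by linarith)
  have hc8 := c1_ge Δ (⌈log (1 / δ ^ 2 * (1 + log (Δ : ℝ)))⌉₊ + 3) hΔ1
  have hwm : 1 / (1 / δ ^ 2)
      ≤ min 1 (160 * c1 Δ (⌈log (1 / δ ^ 2 * (1 + log (Δ : ℝ)))⌉₊ + 3) / (1 / δ ^ 2)) := by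
    apply le_min
    · rw [div_le_one hd0]; exact hd
    · exact div_le_div_of_nonneg_right (by linarith) hd0.le
  obtain ⟨y, hy1, hy2, hy3⟩ := weighted_all _ _ Δ _ _ hP hwm r ε hε0 (by linarith)
    (33 + 8 * log (1 / δ) + 4 * z) (by linarith) (by
      have h1 := last_const hd hε0 hε r
      rw [hlogd] at h1
      linarith) x0 hx0 p hp
  refine ⟨y, hy1, fun i => ?_, hy3⟩
  have h1 := hy2 i
  have h2 : ∑ v, a i v / δ * (y v - x0 v) = (∑ v, a i v * (y v - x0 v)) / δ := by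
    rw [Finset.sum_div]
    exact Finset.sum_congr rfl fun j _ => by ring
  rw [h2, abs_div, abs_of_pos hδ0, div_le_iff₀ hδ0] at h1
  refine h1.trans ?_
  have hc1 := c1_real (1 / δ ^ 2) hd Δ hΔ1
  rw [hlogd] at hc1
  have hA := cst_real δ hδ0 hδ1 (c1 Δ (⌈log (1 / δ ^ 2 * (1 + log (Δ : ℝ)))⌉₊ + 3))
    ((1 + log (Δ : ℝ)) * (1 + log (1 / δ) + log (1 + log (Δ : ℝ)))) (by positivity) (by
      refine hc1.trans ?_
      have h3 : (1 + log (Δ : ℝ)) * (1 + 2 * log (1 / δ) + log (1 + log (Δ : ℝ)))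
          ≤ (1 + log (Δ : ℝ)) * (2 * (1 + log (1 / δ) + log (1 + log (Δ : ℝ)))) := by
        apply mul_le_mul_of_nonneg_left _ (by linarith)
        linarith
      linarith)
  have hB := cst_real δ hδ0 hδ1 (33 + 8 * log (1 / δ) + 4 * z) (1 + log (1 / δ) + z)
    (by linarith) (by linarith)
  have h4 := mul_le_mul_of_nonneg_left hA (by positivity : (0 : ℝ) ≤ (r : ℝ) + 1)
  linarith

/-- **Set systems, distributions.** -/
theorem set_dist (m n : ℕ) (a : Fin m → Fin n → ℝ) (t s : ℕ) (ht : 1 ≤ t) (hs : 1 ≤ s)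
    (H : Hyp a (t : ℝ) (t * s)) (a01 : ∀ i v, a i v = 0 ∨ a i v = 1) (r : ℕ)
    (x0 : Fin n → ℝ) (hx0 : ∀ j, |x0 j| ≤ 1) (ε : ℝ) (hε0 : 0 < ε) (hε : ε ≤ 1 / 2) :
    ∃ (K : ℕ) (w : Fin K → ℝ) (y : Fin K → Fin n → ℝ),
      (∀ k, 0 ≤ w k) ∧ ∑ k, w k = 1 ∧
      (∀ k j, -1 ≤ y k j ∧ y k j ≤ 1) ∧
      (∀ k i, |∑ j, a i j * (y k j - x0 j)| ≤ 10000000000 * ((r : ℝ) + 1) *
          (Real.sqrt t + (1 + log (t : ℝ)) ^ 2 * Real.sqrt (log s))
        + 10000000000 * (Real.sqrt t + (1 + log (t : ℝ)) ^ (3 / 2 : ℝ)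
          * Real.sqrt (slog^[r + 1] (log (1 / ε))))) ∧
      ∀ j, ∑ k ∈ Finset.univ.filter (fun k => ¬ (y k j = 1 ∨ y k j = -1)), w k ≤ ε := by
  classical
  apply distribution
  intro p hp
  have htR : (1 : ℝ) ≤ t := by exact_mod_cast ht
  have hsR : (1 : ℝ) ≤ s := by exact_mod_cast hs
  have ht0 : (0 : ℝ) < t := by linarith
  have hlt : 0 ≤ log (t : ℝ) := Real.log_nonneg htR
  have hls : 0 ≤ log (s : ℝ) := Real.log_nonneg hsR
  have hL0 : 0 ≤ log (1 / ε) := Real.log_nonneg (by rw [le_div_iff₀ hε0]; linarith)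
  set z : ℝ := slog^[r + 1] (log (1 / ε)) with hz
  have hz0 : 0 ≤ z := slog_iter_nonneg _ hL0
  have hP := (par_set a (t : ℝ) (t * s) H a01).mono (show (t : ℝ) ≤ 700 * t by linarith)
  have hc1 := c1_set t s ht hs
  have hc8 := c1_ge (t * s) (⌈log (t : ℝ)⌉₊ + 1) H.hΔ1
  set ℓ : ℝ := 1 + log (t : ℝ) with hℓ
  have hℓ1 : 1 ≤ ℓ := by linarith
  have hℓ2 : ℓ ≤ ℓ ^ 2 := by nlinarith
  have hwm : 1 / (t : ℝ) ≤ 160 * c1 (t * s) (⌈log (t : ℝ)⌉₊ + 1) / t :=
    div_le_div_of_nonneg_right (by linarith) ht0.le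
  obtain ⟨y, hy1, hy2, hy3⟩ := weighted_all a (t : ℝ) (t * s) _ _ hP hwm r ε hε0 (by linarith)
    (33 * ℓ + 4 * z) (by linarith) (by
      have h1 := last_const htR hε0 hε r
      linarith) x0 hx0 p hp
  have hA := cst_set (t : ℝ) htR _ (log s) 0 hls le_rfl (by
    refine hc1.trans ?_
    rw [← hℓ]
    have h1 : 0 ≤ ℓ ^ 2 := by positivity
    have h2 : 0 ≤ ℓ * log s := by positivity
    linarith)
  have hB := cst_set (t : ℝ) htR (33 * ℓ + 4 * z) 0 z le_rfl hz0 (by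
    rw [← hℓ]
    linarith)
  rw [← hℓ, Real.sqrt_zero, mul_zero, add_zero] at hA
  rw [← hℓ, Real.sqrt_zero, mul_zero, add_zero] at hB
  refine ⟨y, hy1, fun i => ?_, hy3⟩
  have h1 := hy2 i
  have h4 := mul_le_mul_of_nonneg_left hA (by positivity : (0 : ℝ) ≤ (r : ℝ) + 1)
  linarith

end H167KN
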