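import Pool.Agent.H167R2.KPGood
import Pool.Agent.H167R2.KNFinal

/-!
# The weighted theorem
-/

namespace H167KN

open Finset Real H167BJ H167BK H167KL H167KM

variable {I J : Type*} [Fintype I] [Fintype J]

theorem hk_num {d L m : ℝ} (hd : 1 ≤ d) (hL : 0 ≤ L) (hm : (2000 * d) ^ 2 * (1 + L) ≤ m) :
    320 * (log 4 + log m + L) < 1 / d * m := by
  have hd0 : 0 < d := by linarith
  have h0 : 0 < (2000 * d) ^ 2 * (1 + L) := by positivity
  have hm0 : 0 < m := h0.trans_le hm
  set u : ℝ := Real.sqrt m with hu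
  have hu2 : u ^ 2 = m := Real.sq_sqrt hm0.le
  have hu0 : 0 < u := Real.sqrt_pos.mpr hm0
  have hum : 2000 * d ≤ u := by
    apply Real.le_sqrt_of_sq_le
    refine le_trans ?_ hm
    have : (2000 * d) ^ 2 * 1 ≤ (2000 * d) ^ 2 * (1 + L) :=
      mul_le_mul_of_nonneg_left (by linarith) (by positivity)
    linarith
  have hlog : log m ≤ 2 * u := by
    have h1 : log m = 2 * log u := by
      rw [← hu2, Real.log_pow]; push_cast; ring
    have h2 := Real.log_le_sub_one_of_pos hu0
    rw [h1]; linarith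
  have h4 := log_4
  have h5 : 2000 * u ≤ 1 / d * m := by
    rw [← hu2, one_div, inv_mul_eq_div, le_div_iff₀ hd0]
    nlinarith
  have h6 : 4000000 * (1 + L) ≤ 1 / d * m := by
    rw [one_div, inv_mul_eq_div, le_div_iff₀ hd0]
    refine le_trans ?_ hm
    have h7 : 4000000 * (1 + L) * d ≤ 4000000 * (1 + L) * d ^ 2 := by
      apply mul_le_mul_of_nonneg_left _ (by positivity)
      nlinarith
    nlinarith
  linarith

/-- **Weighted theorem**, positive weights. -/
theorem weighted_pos (a : I → J → ℝ) (d : ℝ) (Δ ρ0 : ℕ) (wm : ℝ)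
    (H : Par a d Δ ρ0 wm (700 * d)) (hwm : 1 / d ≤ wm) (r : ℕ) (ε : ℝ) (hε0 : 0 < ε) (hε1 : ε ≤ 1)
    (c : ℝ) (hc : 5 ≤ c)
    (hc2 : 2 * log (20 * (700 * d) ^ 2 * (1 + slog^[r] (log (1 / ε)))) ≤ c)
    (x0 : J → ℝ) (hx0 : ∀ j, |x0 j| ≤ 1) (p : J → ℝ) (hp : ∀ j, 0 < p j) (hp1 : ∑ j, p j ≤ 1) :
    ∃ y : J → ℝ, (∀ j, |y j| ≤ 1) ∧ (∀ i, |∑ v, a i v * (y v - x0 v)| ≤
      ((r : ℝ) + 1) * cst d (c1 Δ ρ0) + cst d c) ∧
      ∑ j, (if |y j| < 1 then p j else 0) ≤ ε := by
  classical
  have hd := H.H.hd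
  have hd0 : 0 < d := by linarith
  have hA := H.hA
  set L : ℝ := log (1 / ε) with hL
  have hL0 : 0 ≤ L := Real.log_nonneg (by rw [le_div_iff₀ hε0]; linarith)
  set m0 : ℝ := (2000 * d) ^ 2 * (1 + L) with hm0
  have hm01 : 1 ≤ m0 := by
    have h1 : 1 ≤ (2000 * d) ^ 2 := one_le_pow₀ (by linarith)
    nlinarith
  set k : ℕ := ⌈m0⌉₊ with hk
  have hkm : m0 ≤ k := Nat.le_ceil _
  obtain ⟨x1, hx1a, hx1b, hx1c, hx1d⟩ := stageW a d Δ ρ0 H.H wm H.hwm0 H.hwm1 H.hwm2 H.hρ
    x0 hx0 p hp hp1 ε hε0 hε1 k (by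
      intro m hm1 hm2
      have h1 := hk_num hd hL0 (hkm.trans hm1)
      have h2 : log (4 * m / ε) = log 4 + log m + L := by
        rw [Real.log_div (by linarith) hε0.ne', Real.log_mul (by norm_num) (by linarith), hL,
          Real.log_div one_ne_zero hε0.ne', Real.log_one]
        ring
      rw [h2]
      exact h1.trans_le (mul_le_mul_of_nonneg_right hwm (by linarith)))
  set A1 := H167FK.Sys.alive x1 with hA1
  set Bd : Finset J := A1.filter (fun v => k ≤ (comp a 0 A1 v).card) with hBd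
  set K : Finset J := A1 \ Bd with hK
  have hKA : K ⊆ A1 := Finset.sdiff_subset
  set xt : J → ℝ := restr x1 K with hxt
  have hxtbox : ∀ j, |xt j| ≤ 1 := restr_box K hx1a
  have hal : H167FK.Sys.alive xt = K := alive_restr hKA
  have hsm : Small a 0 m0 xt := by
    intro v hv
    rw [hal] at hv ⊢
    have hv1 : v ∈ A1 := hKA hv
    have h1 : (comp a 0 K v).card ≤ (comp a 0 A1 v).card :=
      Finset.card_le_card (H167KL.comp_mono hKA v)
    have h2 : (comp a 0 A1 v).card < k := by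
      by_contra hcon
      push Not at hcon
      have := (Finset.mem_sdiff.mp hv).2
      exact this (Finset.mem_filter.mpr ⟨hv1, hcon⟩)
    have h3 : (comp a 0 K v).card < k := lt_of_le_of_lt h1 h2
    have h4 : (((comp a 0 K v).card : ℕ) : ℝ) < m0 := by
      by_contra hcon
      push Not at hcon
      have : k ≤ (comp a 0 K v).card := Nat.ceil_le.mpr hcon
      omega
    exact h4.le
  obtain ⟨x2, hx2a, hx2b, hx2c⟩ := stages H r xt hxtbox m0 hm01 hsm
  have hl0 : 0 ≤ slog^[r] L := slog_iter_nonneg r hL0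
  have hfs : (H167KM.fz (700 * d))^[r] m0 ≤ 10 * (700 * d) ^ 2 * (1 + slog^[r] L) :=
    H167KM.fz_iter hA r hm01 hL0 (by
      rw [hm0]
      apply mul_le_mul_of_nonneg_right _ (by linarith)
      nlinarith)
  have hone : 1 ≤ 10 * (700 * d) ^ 2 * (1 + slog^[r] L) := by
    have h1 : 1 ≤ (700 * d) ^ 2 := one_le_pow₀ hA
    have : 1 * (1 + slog^[r] L) ≤ 10 * (700 * d) ^ 2 * (1 + slog^[r] L) :=
        mul_le_mul_of_nonneg_right (by linarith) (by linarith)
    linarith
  obtain ⟨yt, hyt1, hyt2, hyt3⟩ := last_glued H.H x2 hx2a.1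
    (10 * (700 * d) ^ 2 * (1 + slog^[r] L)) hone
    (fun v hv => (hx2c v hv).trans hfs) c hc (by
      have h1 : 2 * (10 * (700 * d) ^ 2 * (1 + slog^[r] L))
          = 20 * (700 * d) ^ 2 * (1 + slog^[r] L) := by ring
      rw [h1]; exact hc2)
  have hcst := cst_nonneg (c := c) hd
  have hcst1 := cst_nonneg (c := c1 Δ ρ0) hd
  have hrow2 := RowOK.trans hcst hx2b hyt3 hyt1
  have hext : Ext xt yt := hx2a.trans hyt1
  have hT2 : ∀ i, |∑ v, a i v * (yt v - xt v)| ≤ (r : ℝ) * cst d (c1 Δ ρ0) + cst d c := by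
    intro i
    rcases hrow2 i with h | h
    · exact h
    · have := h yt ⟨hyt1.1, fun _ _ => rfl⟩
      linarith
  set y : J → ℝ := fun j => if j ∈ K then yt j else x1 j with hy
  have hybox : ∀ j, |y j| ≤ 1 := by
    intro j
    simp only [hy]
    split_ifs
    · exact hyt1.1 j
    · exact hx1a j
  have hyx1 : ∀ j, |x1 j| = 1 → y j = x1 j := by
    intro j hj
    have h1 : j ∉ K := fun h => by
      have := mem_alive.mp (hKA h)
      rw [hj] at this
      exact lt_irrefl _ this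
    simp only [hy, if_neg h1]
  have hdiff : ∀ i, ∑ v, a i v * (y v - x1 v) = ∑ v, a i v * (yt v - xt v) := by
    intro i
    refine Finset.sum_congr rfl fun v _ => ?_
    by_cases hv : v ∈ K
    · simp only [hy, if_pos hv, hxt, restr_in hv]
    · have h1 : xt v = 1 := restr_out hv
      have h2 : yt v = 1 := by rw [hext.2 v (by rw [h1, abs_one]), h1]
      simp only [hy, if_neg hv, h1, h2]
      ring
  refine ⟨y, hybox, fun i => ?_, ?_⟩
  · rcases hx1c i with h | h
    · have h1 : ∑ v, a i v * (y v - x0 v)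
          = ∑ v, a i v * (x1 v - x0 v) + ∑ v, a i v * (y v - x1 v) := by
        rw [← Finset.sum_add_distrib]
        exact Finset.sum_congr rfl fun v _ => by ring
      rw [h1, hdiff i]
      have h2 := abs_add_le (∑ v, a i v * (x1 v - x0 v)) (∑ v, a i v * (yt v - xt v))
      have h3 := hT2 i
      linarith
    · have h1 := h y hybox hyx1
      have h2 : 0 ≤ (r : ℝ) * cst d (c1 Δ ρ0) := by positivity
      linarith
  · refine le_trans ?_ hx1d
    have h1 : ∑ j, (if |y j| < 1 then p j else 0)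
        = ∑ j ∈ Finset.univ.filter (fun j => |y j| < 1), p j := by
      rw [Finset.sum_filter]
    rw [h1]
    apply Finset.sum_le_sum_of_subset_of_nonneg
    · intro j hj
      have h2 := (Finset.mem_filter.mp hj).2
      have h3 : j ∉ K := fun h => by
        simp only [hy, if_pos h] at h2
        rw [hyt2 j] at h2
        exact lt_irrefl _ h2
      simp only [hy, if_neg h3] at h2
      have h4 : j ∈ A1 := mem_alive.mpr h2
      by_contra hcon
      exact h3 (Finset.mem_sdiff.mpr ⟨h4, hcon⟩)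
    · intro j _ _; exact (hp j).le

/-- **Weighted theorem**, nonnegative weights. -/
theorem weighted_all (a : I → J → ℝ) (d : ℝ) (Δ ρ0 : ℕ) (wm : ℝ)
    (H : Par a d Δ ρ0 wm (700 * d)) (hwm : 1 / d ≤ wm) (r : ℕ) (ε : ℝ) (hε0 : 0 < ε) (hε1 : ε ≤ 1)
    (c : ℝ) (hc : 5 ≤ c)
    (hc2 : 2 * log (20 * (700 * d) ^ 2 * (1 + slog^[r] (log (1 / (ε / 2))))) ≤ c)
    (x0 : J → ℝ) (hx0 : ∀ j, |x0 j| ≤ 1) (p : J → ℝ) (hp : ∀ j, 0 ≤ p j) :
    ∃ y : J → ℝ, (∀ j, |y j| ≤ 1) ∧ (∀ i, |∑ v, a i v * (y v - x0 v)| ≤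
      ((r : ℝ) + 1) * cst d (c1 Δ ρ0) + cst d c) ∧
      ∑ j, (if |y j| < 1 then p j else 0) ≤ ε * ∑ j, p j := by
  classical
  set P : ℝ := ∑ j, p j with hP
  have hP0 : 0 ≤ P := Finset.sum_nonneg fun j _ => hp j
  set n : ℝ := (Fintype.card J : ℝ) with hn
  have hn0 : 0 ≤ n := Nat.cast_nonneg _
  by_cases hPz : P = 0
  · have hz : ∀ j, p j = 0 := by
      intro j
      have := (Finset.sum_eq_zero_iff_of_nonneg (fun j _ => hp j)).mp hPz j (Finset.mem_univ j)
      exact this
    obtain ⟨y, h1, h2, -⟩ := weighted_pos a d Δ ρ0 wm H hwm r (ε / 2) (by positivity)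
      (by linarith) c hc hc2 x0 hx0 (fun _ => 1 / (n + 1)) (fun _ => by positivity) (by
        rw [Finset.sum_const, nsmul_eq_mul, Finset.card_univ, ← hn]
        rw [mul_one_div, div_le_one (by positivity)]
        linarith)
    refine ⟨y, h1, h2, ?_⟩
    rw [hPz, mul_zero]
    refine le_of_eq (Finset.sum_eq_zero fun j _ => ?_)
    rw [hz j]; simp
  · have hPp : 0 < P := lt_of_le_of_ne hP0 (Ne.symm hPz)
    have hJ : (Finset.univ : Finset J).Nonempty := by
      rw [Finset.nonempty_iff_ne_empty]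
      intro h
      apply hPz
      rw [hP, h, Finset.sum_empty]
    have hn1 : 0 < n := by
      rw [hn]
      have := Finset.card_pos.mpr hJ
      rw [Finset.card_univ] at this
      exact_mod_cast this
    obtain ⟨y, h1, h2, h3⟩ := weighted_pos a d Δ ρ0 wm H hwm r (ε / 2) (by positivity)
      (by linarith) c hc hc2 x0 hx0 (fun j => (p j / P + 1 / n) / 2)
      (fun j => by have := hp j; positivity) (by
        rw [← Finset.sum_div, Finset.sum_add_distrib, ← Finset.sum_div, ← hP, Finset.sum_const,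
          nsmul_eq_mul, Finset.card_univ, ← hn]
        rw [div_self hPz, mul_one_div, div_self hn1.ne']
        norm_num)
    refine ⟨y, h1, h2, ?_⟩
    have h4 : ∑ j, (if |y j| < 1 then p j else 0)
        ≤ 2 * P * ∑ j, (if |y j| < 1 then (p j / P + 1 / n) / 2 else 0) := by
      rw [Finset.mul_sum]
      refine Finset.sum_le_sum fun j _ => ?_
      split_ifs
      · have h5 : 2 * P * ((p j / P + 1 / n) / 2) = p j + P * (1 / n) := by
          field_simp
        rw [h5]
        have : 0 ≤ P * (1 / n) := by positivity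
        linarith
      · simp
    have h5 : 2 * P * ∑ j, (if |y j| < 1 then (p j / P + 1 / n) / 2 else 0)
        ≤ 2 * P * (ε / 2) := mul_le_mul_of_nonneg_left h3 (by positivity)
    linarith

end H167KN
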