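import Pool.Agent.H167R2.KMWalk

/-!
# Walks weighted by their starting point
-/

namespace H167KP

open Finset H167BK H167KM

variable {I J : Type*} [Fintype I] [Fintype J]

/-- Weight of the last vertex of a list. -/
def lp (p : J → ℝ) : List (J × Finset ℕ) → ℝ
  | [] => 1
  | [x] => p x.1
  | _ :: y :: l => lp p (y :: l)

omit [Fintype J] in
theorem lp_cons (p : J → ℝ) (x : J × Finset ℕ) {l : List (J × Finset ℕ)} (h : l ≠ []) :
    lp p (x :: l) = lp p l := by
  cases l with
  | nil => exact absurd rfl h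
  | cons y l => rfl

omit [Fintype J] in
theorem lp_append (p : J → ℝ) (l1 l2 : List (J × Finset ℕ)) (h : l2 ≠ []) :
    lp p (l1 ++ l2) = lp p l2 := by
  induction l1 with
  | nil => rfl
  | cons x l1 ih =>
    rw [List.cons_append, lp_cons p x (by simp [h]), ih]

omit [Fintype J] in
theorem lp_nonneg {p : J → ℝ} (hp : ∀ j, 0 ≤ p j) (l : List (J × Finset ℕ)) : 0 ≤ lp p l := by
  induction l with
  | nil => exact zero_le_one
  | cons x l ih =>
    cases l with
    | nil => exact hp x.1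
    | cons y l => exact ih

omit [Fintype J] in
theorem lp_pos {p : J → ℝ} (hp : ∀ j, 0 < p j) (l : List (J × Finset ℕ)) : 0 < lp p l := by
  induction l with
  | nil => exact one_pos
  | cons x l ih =>
    cases l with
    | nil => exact hp x.1
    | cons y l => exact ih

omit [Fintype J] in
theorem lp_congr {p q : J → ℝ} (l : List (J × Finset ℕ)) (h : ∀ x ∈ l, p x.1 = q x.1) :
    lp p l = lp q l := by
  induction l with
  | nil => rfl
  | cons x l ih =>
    cases l with
    | nil => exact h x (by simp)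
    | cons y l => exact ih fun z hz => h z (List.mem_cons_of_mem _ hz)

theorem sum_ext (a : I → J → ℝ) (n : ℕ) (Lb : Finset (Finset ℕ)) (Δ : ℕ)
    (h : ∀ v, (nb a v).card ≤ Δ) {p : J → ℝ} (hp : ∀ j, 0 ≤ p j)
    (l : List (J × Finset ℕ)) :
    ∑ τ ∈ H167KM.ext a n Lb l, lp p τ ≤ ((Δ : ℝ) ^ n * Lb.card) * lp p l := by
  classical
  have h1 : ∀ τ ∈ H167KM.ext a n Lb l, lp p τ = lp p l := by
    intro τ hτ
    cases l with
    | nil => simp [H167KM.ext] at hτ
    | cons x l =>
      unfold H167KM.ext at hτ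
      obtain ⟨y, -, rfl⟩ := Finset.mem_image.mp hτ
      rfl
  rw [Finset.sum_congr rfl h1, Finset.sum_const, nsmul_eq_mul]
  apply mul_le_mul_of_nonneg_right _ (lp_nonneg hp l)
  exact_mod_cast H167KM.card_ext a n Lb Δ h l

theorem sum_biUnion_le' {α β : Type*} [DecidableEq β] (s : Finset α) (t : α → Finset β)
    (f : β → ℝ) (hf : ∀ b, 0 ≤ f b) : ∑ b ∈ s.biUnion t, f b ≤ ∑ a ∈ s, ∑ b ∈ t a, f b := by
  classical
  induction s using Finset.induction_on with
  | empty => simp
  | insert a s ha ih =>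
    rw [Finset.biUnion_insert, Finset.sum_insert ha]
    have h1 : ∑ b ∈ t a ∪ s.biUnion t, f b ≤ ∑ b ∈ t a, f b + ∑ b ∈ s.biUnion t, f b := by
      rw [← Finset.sum_union_inter]
      have : 0 ≤ ∑ b ∈ t a ∩ s.biUnion t, f b := Finset.sum_nonneg fun b _ => hf b
      linarith
    linarith

/-- Weighted number of walks. -/
theorem sum_walks (a : I → J → ℝ) (n : ℕ) (Lb : Finset (Finset ℕ)) (F0 : Finset J) (Δ : ℕ)
    (h : ∀ v, (nb a v).card ≤ Δ) {p : J → ℝ} (hp : ∀ j, 0 ≤ p j) (m : ℕ) :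
    ∑ τ ∈ H167KM.walks a n Lb F0 m, lp p τ
      ≤ (∑ v ∈ F0, p v) * Lb.card * ((Δ : ℝ) ^ n * Lb.card) ^ m := by
  classical
  induction m with
  | zero =>
    unfold H167KM.walks
    rw [Finset.sum_image (by intro x _ y _ hxy; simpa using hxy), Finset.sum_product]
    rw [pow_zero, mul_one, Finset.sum_mul]
    refine Finset.sum_le_sum fun v _ => ?_
    show ∑ y ∈ Lb, p v ≤ _
    rw [Finset.sum_const, nsmul_eq_mul, mul_comm]
  | succ m ih =>
    unfold H167KM.walks
    refine (sum_biUnion_le' _ _ _ (lp_nonneg hp)).trans ?_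
    refine (Finset.sum_le_sum fun l _ => sum_ext a n Lb Δ h hp l).trans ?_
    rw [← Finset.mul_sum]
    calc _ ≤ ((Δ : ℝ) ^ n * Lb.card)
          * ((∑ v ∈ F0, p v) * Lb.card * ((Δ : ℝ) ^ n * Lb.card) ^ m) :=
          mul_le_mul_of_nonneg_left ih (by positivity)
      _ = _ := by rw [pow_succ]; ring

omit [Fintype J] in
/-- A covering labelled walk ending at a prescribed vertex. -/
theorem cover (Rl : J → J → Prop) (hsymm : ∀ v w, Rl v w → Rl w v) (Q : Finset J)
    (q0 : J) (hq0 : q0 ∈ Q)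
    (hcut : ∀ Y ⊆ Q, Y.Nonempty → Y ≠ Q → ∃ y ∈ Y, ∃ z ∈ Q, z ∉ Y ∧ Rl y z)
    (Λ : J → Finset ℕ) :
    ∃ τ : List (J × Finset ℕ), τ ≠ [] ∧ τ.IsChain (fun p p' => Rl p.1 p'.1) ∧
      τ.length + 1 ≤ 2 * Q.card ∧ (∀ p ∈ τ, p.1 ∈ Q ∧ (p.2 = ∅ ∨ p.2 = Λ p.1)) ∧
      (∀ p : J → ℝ, lp p τ = p q0) ∧
      ∀ g : J → Finset ℕ → ℝ, (∀ v, g v ∅ = 0) →
        (τ.map (fun p => g p.1 p.2)).sum = ∑ v ∈ Q, g v (Λ v) := by
  classical
  have key : ∀ k : ℕ, 1 ≤ k → k ≤ Q.card → ∃ Y ⊆ Q, Y.card = k ∧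
      ∃ τ : List (J × Finset ℕ), τ ≠ [] ∧ τ.IsChain (fun p p' => Rl p.1 p'.1) ∧
      τ.length + 1 ≤ 2 * Y.card ∧ (∀ p ∈ τ, p.1 ∈ Y ∧ (p.2 = ∅ ∨ p.2 = Λ p.1)) ∧
      (∀ v ∈ Y, ∃ p ∈ τ, p.1 = v) ∧ (∀ p : J → ℝ, lp p τ = p q0) ∧
      ∀ g : J → Finset ℕ → ℝ, (∀ v, g v ∅ = 0) →
        (τ.map (fun p => g p.1 p.2)).sum = ∑ v ∈ Y, g v (Λ v) := by
    intro k hk
    induction k, hk using Nat.le_induction with
    | base =>
      intro _
      refine ⟨{q0}, by simpa using hq0, by simp, [(q0, Λ q0)], by simp, by simp, by simp, ?_, ?_,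
        fun p => rfl, ?_⟩
      · intro p hp
        rw [List.mem_singleton] at hp
        rw [hp]; simp
      · intro v hv
        rw [Finset.mem_singleton] at hv
        exact ⟨(q0, Λ q0), by simp, hv.symm⟩
      · intro g _; simp
    | succ k hk ih =>
      intro hk2
      obtain ⟨Y, hYQ, hYk, τ, h1, h2, h3, h4, h5, hlp, h6⟩ := ih (by omega)
      have hYne : Y.Nonempty := Finset.card_pos.mp (by omega)
      have hYQ' : Y ≠ Q := by
        intro h; rw [h] at hYk; omega
      obtain ⟨y, hy, z, hz, hzY, hR⟩ := hcut Y hYQ hYne hYQ'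
      obtain ⟨p, hp, hpy⟩ := h5 y hy
      obtain ⟨l1, l2, hl⟩ := List.append_of_mem hp
      refine ⟨insert z Y, Finset.insert_subset hz hYQ, by rw [Finset.card_insert_of_notMem hzY, hYk],
        l1 ++ p :: (z, Λ z) :: (p.1, ∅) :: l2, by simp, ?_, ?_, ?_, ?_, ?_, ?_⟩
      · rw [hl] at h2
        rw [List.isChain_append] at h2 ⊢
        obtain ⟨c1, c2, c3⟩ := h2
        refine ⟨c1, ?_, ?_⟩
        · rw [List.isChain_cons_cons, List.isChain_cons_cons]
          refine ⟨by simpa [hpy] using hR, by simpa [hpy] using hsymm _ _ hR, ?_⟩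
          rw [List.isChain_cons] at c2 ⊢
          exact ⟨fun b hb => c2.1 b hb, c2.2⟩
        · intro b hb c hc
          apply c3 b hb c
          simpa using hc
      · rw [Finset.card_insert_of_notMem hzY]
        rw [hl] at h3
        simp only [List.length_append, List.length_cons] at h3 ⊢
        omega
      · intro q hq
        have hq' : q ∈ τ ∨ q = (z, Λ z) ∨ q = (p.1, ∅) := by
          rw [hl]
          simp only [List.mem_append, List.mem_cons] at hq ⊢
          tauto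
        rcases hq' with h | h | h
        · obtain ⟨h7, h8⟩ := h4 q h
          exact ⟨Finset.mem_insert_of_mem h7, h8⟩
        · rw [h]; exact ⟨Finset.mem_insert_self _ _, Or.inr rfl⟩
        · rw [h]
          exact ⟨Finset.mem_insert_of_mem (h4 p hp).1, Or.inl rfl⟩
      · intro v hv
        rcases Finset.mem_insert.mp hv with h | h
        · exact ⟨(z, Λ z), by simp, h.symm⟩
        · obtain ⟨q, hq, hqv⟩ := h5 v h
          refine ⟨q, ?_, hqv⟩
          rw [hl] at hq
          simp only [List.mem_append, List.mem_cons] at hq ⊢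
          tauto
      · intro f
        have h7 := hlp f
        rw [hl, lp_append f _ _ (by simp)] at h7
        rw [lp_append f _ _ (by simp), lp_cons f _ (by simp), lp_cons f _ (by simp), ← h7]
        cases l2 with
        | nil => rfl
        | cons x l2 => rfl
      · intro g hg
        have h7 := h6 g hg
        rw [Finset.sum_insert hzY, ← h7, hl]
        simp only [List.map_append, List.map_cons, List.sum_append, List.sum_cons, hg]
        ring
  have hQ1 : 1 ≤ Q.card := Finset.card_pos.mpr ⟨q0, hq0⟩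
  obtain ⟨Y, hYQ, hYk, τ, h1, h2, h3, h4, -, h5, h6⟩ := key Q.card hQ1 le_rfl
  have hY : Y = Q := Finset.eq_of_subset_of_card_le hYQ (by omega)
  rw [hY] at h3 h4 h6
  exact ⟨τ, h1, h2, h3, h4, h5, h6⟩

end H167KP
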