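import Pool.Agent.H167R2.KPProc
import Pool.Agent.H167R2.KPWalk

/-!
# The weighted stage
-/

namespace H167KN

open Finset Real H167BJ H167BK H167KL H167KM

variable {I J : Type*} [Fintype I] [Fintype J]

theorem walks_ne {a : I → J → ℝ} {n : ℕ} {Lb : Finset (Finset ℕ)} {F0 : Finset J} {m : ℕ}
    {τ : List (J × Finset ℕ)} (h : τ ∈ H167KM.walks a n Lb F0 m) : τ ≠ [] := by
  classical
  cases m with
  | zero =>
    unfold H167KM.walks at h
    obtain ⟨q, -, rfl⟩ := Finset.mem_image.mp h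
    simp
  | succ m =>
    unfold H167KM.walks at h
    obtain ⟨l, -, hl⟩ := Finset.mem_biUnion.mp h
    cases l with
    | nil => simp [H167KM.ext] at hl
    | cons x l =>
      unfold H167KM.ext at hl
      obtain ⟨y, -, rfl⟩ := Finset.mem_image.mp hl
      simp

theorem numericW {c Kκ x nd Γ len z Th lN : ℝ} (hc0 : 0 < c) (hK0 : 0 < Kκ) (hK : 8 * Kκ ≤ c)
    (hx : 1 ≤ x) (hnd : 0 ≤ nd) (hz : z ≤ nd) (hlen : len ≤ 2 * x + 2 * z + 1)
    (hTh : Γ - 1 / 50 * c * x ≤ Th) (hpot : Th - len * Kκ ≤ lN) (hgain : c * x ≤ Γ)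
    (hΓn : 2 * c * nd ≤ Γ) : 1 / 3 * Γ ≤ lN := by
  have hlenK : len * Kκ ≤ (3 * x + 2 * nd) * (c / 8) := by
    have h1 : len ≤ 3 * x + 2 * nd := by linarith
    exact mul_le_mul h1 (by linarith) hK0.le (by positivity)
  have hcSC : 0 ≤ c * x := by positivity
  have hcn : 0 ≤ c * nd := by positivity
  nlinarith

theorem offW {t h d c x : ℝ} (ht : 1 ≤ t) (hh : 30 ≤ h) (hd : 0 < d) (htd : t = 100 * d)
    (hc : 1 ≤ c) (hh2 : h ^ 2 = 160000 * c) (hx : 0 ≤ x) (B : ℕ → ℝ)
    (hB : ∀ l, B l ≤ d / θk t h l ^ 2 * x) (L : ℕ) :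
    ∑ l ∈ range L, wn t h l * exp (-Gk l) * B l ≤ 1 / 50 * c * x := by
  calc ∑ l ∈ range L, wn t h l * exp (-Gk l) * B l
      ≤ ∑ l ∈ range L, 1 / 50 * c * x * (1 / 2) ^ (l + 1) := by
        refine Finset.sum_le_sum fun l _ => ?_
        have h5 : 0 < wn t h l * exp (-Gk l) := mul_pos (wn_pos ht hh l) (exp_pos _)
        calc wn t h l * exp (-Gk l) * B l
            ≤ wn t h l * exp (-Gk l) * (d / θk t h l ^ 2 * x) :=
              mul_le_mul_of_nonneg_left (hB l) h5.le
          _ = (wn t h l * exp (-Gk l) * (d / θk t h l ^ 2)) * x := by ring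
          _ ≤ (1 / 50 * c * (1 / 2) ^ (l + 1)) * x :=
              mul_le_mul_of_nonneg_right (wn_off ht hh hd htd hc hh2 l) hx
          _ = 1 / 50 * c * x * (1 / 2) ^ (l + 1) := by ring
    _ = 1 / 50 * c * x * ∑ l ∈ range L, ((1 : ℝ) / 2) ^ (l + 1) := by
        rw [Finset.mul_sum]
    _ ≤ 1 / 50 * c * x * 1 :=
        mul_le_mul_of_nonneg_left (geom_half_sum L) (by positivity)
    _ = _ := mul_one _

theorem finishW {c Kκ Γ z Th wm κ ε N pv sK n : ℝ} {ρ0 len xc : ℕ} (hc0 : 0 < c)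
    (hK0 : 0 < Kκ) (hK : 8 * Kκ ≤ c) (hxΓ : xc = 0 → Γ = 0) (hn1 : 1 ≤ n)
    (hz : 25 ^ ρ0 * z ≤ n) (hlen : (len : ℝ) ≤ 2 * (xc : ℝ) + 2 * z + 1)
    (hTh : Γ - 1 / 50 * c * (xc : ℝ) ≤ Th) (hgain : c * (xc : ℝ) ≤ Γ) (hΓw : wm * n ≤ 106 * Γ)
    (hρ : 212 * c ≤ 25 ^ ρ0 * wm) (hwm0 : 0 < wm) (hκ0 : 0 < κ) (hlogκ : log κ = -Kκ)
    (hN0 : 0 < N) (hpv : 0 < pv) (hε0 : 0 < ε)
    (hpot : N * pv * κ ^ len * exp Th ≤ 4 * N / ε * sK) (hsK : sK ≤ n * pv)
    (hk : 320 * log (4 * n / ε) < wm * n) : False := by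
  have hΓ0 : 0 < Γ := by
    have h1 : 0 < wm * n := by positivity
    linarith
  have hx1 : (1 : ℝ) ≤ xc := by
    have h1 : xc ≠ 0 := fun h => by
      have := hxΓ h
      linarith
    exact_mod_cast Nat.one_le_iff_ne_zero.mpr h1
  have h25 : (0 : ℝ) < 25 ^ ρ0 := by positivity
  have hnd : 0 ≤ n / 25 ^ ρ0 := by positivity
  have hΓn : 2 * c * (n / 25 ^ ρ0) ≤ Γ := by
    have h1 : 212 * c * (n / 25 ^ ρ0) ≤ 25 ^ ρ0 * wm * (n / 25 ^ ρ0) :=
      mul_le_mul_of_nonneg_right hρ hnd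
    have h2 : 25 ^ ρ0 * wm * (n / 25 ^ ρ0) = wm * n := by field_simp
    linarith
  have hZ : z ≤ n / 25 ^ ρ0 := by
    rw [le_div_iff₀ h25]
    linarith
  have hpot2 : Th - (len : ℝ) * Kκ ≤ log (4 * n / ε) := by
    have h4 : N * pv * κ ^ len * exp Th ≤ 4 * N / ε * (n * pv) :=
      hpot.trans (mul_le_mul_of_nonneg_left hsK (by positivity))
    have h5 : 0 < N * pv := mul_pos hN0 hpv
    have h6 : κ ^ len * exp Th ≤ 4 * n / ε := by
      have h7 : N * pv * (κ ^ len * exp Th) ≤ N * pv * (4 * n / ε) := by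
        calc N * pv * (κ ^ len * exp Th) = N * pv * κ ^ len * exp Th := by ring
          _ ≤ 4 * N / ε * (n * pv) := h4
          _ = N * pv * (4 * n / ε) := by ring
      exact le_of_mul_le_mul_left h7 h5
    have h7 := Real.log_le_log (mul_pos (pow_pos hκ0 _) (exp_pos _)) h6
    rw [Real.log_mul (pow_pos hκ0 _).ne' (exp_pos _).ne', Real.log_exp, Real.log_pow,
      hlogκ] at h7
    linarith
  have hmain : 1 / 3 * Γ ≤ log (4 * n / ε) :=
    numericW hc0 hK0 hK hx1 hnd hZ hlen hTh hpot2 hgain hΓn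
  linarith

/-- **Weighted stage.** -/
theorem stageW (a : I → J → ℝ) (d : ℝ) (Δ ρ0 : ℕ) (H : Hyp a d Δ) (wm : ℝ)
    (hwm0 : 0 < wm) (hwm1 : wm ≤ 160 * c1 Δ ρ0 / d)
    (hwm2 : (∃ i v, a i v ≠ 0 ∧ |a i v| < 1) → wm ≤ 1) (hρ : 212 * c1 Δ ρ0 ≤ 25 ^ ρ0 * wm)
    (x0 : J → ℝ) (hx0 : ∀ j, |x0 j| ≤ 1) (p : J → ℝ) (hp : ∀ j, 0 < p j) (hp1 : ∑ j, p j ≤ 1)
    (ε : ℝ) (hε0 : 0 < ε) (hε1 : ε ≤ 1) (k : ℕ)
    (hk : ∀ m : ℝ, (k : ℝ) ≤ m → 1 ≤ m → 320 * log (4 * m / ε) < wm * m) :
    ∃ y : J → ℝ, (∀ j, |y j| ≤ 1) ∧ (∀ j, |x0 j| = 1 → y j = x0 j) ∧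
      (∀ i, |∑ v, a i v * (y v - x0 v)| ≤ cst d (c1 Δ ρ0) ∨
        ∀ z : J → ℝ, (∀ j, |z j| ≤ 1) → (∀ j, |y j| = 1 → z j = y j) →
          |∑ v, a i v * (z v - x0 v)| ≤ cst d (c1 Δ ρ0)) ∧
      ∑ v ∈ (H167FK.Sys.alive y).filter
        (fun v => k ≤ (comp a 0 (H167FK.Sys.alive y) v).card), p v ≤ ε := by
  classical
  set c : ℝ := c1 Δ ρ0 with hcdef
  have hd := H.hd
  have hd0 : 0 < d := by linarith
  set t : ℝ := 100 * d with htd
  have ht : 1 ≤ t := by linarith
  have hΔR : (1 : ℝ) ≤ Δ := by exact_mod_cast H.hΔ1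
  set nn : ℕ := 2 * (ρ0 + 1) + 1 with hnn
  have hΔn : (1 : ℝ) ≤ (Δ : ℝ) ^ nn := one_le_pow₀ hΔR
  -- weights of the walks
  set X : ℝ := (Δ : ℝ) ^ nn * 2 with hX
  have hX1 : 1 ≤ X := by rw [hX]; linarith
  have hXL : (2 : ℝ) ≤ X := by rw [hX]; linarith
  set Kκ : ℝ := log (2 * X) with hKκ
  have hKκ0 : 0 < Kκ := Real.log_pos (by linarith)
  have hKκc : 8 * Kκ ≤ c := by
    have h0 : 2 * X = 4 * (Δ : ℝ) ^ nn := by rw [hX]; ring
    rw [hKκ, h0]
    exact le_rfl
  have hX4 : 2 * X = 4 * (Δ : ℝ) ^ nn := by rw [hX]; ring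
  have hKκ2 : 1 ≤ Kκ := by
    rw [hKκ, Real.le_log_iff_exp_le (by linarith)]
    have := Real.exp_one_lt_d9
    linarith
  have hc8 : 8 ≤ c := by linarith
  have hc0 : 0 < c := by linarith
  have hc11 : 1 ≤ c := by linarith
  set h : ℝ := Real.sqrt (160000 * c) with hh
  have hh2 : h ^ 2 = 160000 * c := Real.sq_sqrt (by positivity)
  have hh30 : 30 ≤ h := by
    apply Real.le_sqrt_of_sq_le
    nlinarith
  obtain ⟨L, hL1, hL2⟩ := exists_top a ht hh30
  set κ : ℝ := 1 / (2 * X) with hκ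
  have hκ0 : 0 < κ := by positivity
  have hlogκ : log κ = -Kκ := by rw [hκ, one_div, Real.log_inv]
  set F0 : Finset J := H167FK.Sys.alive x0 with hF0
  set Lb : Finset (Finset ℕ) := (range 1).powerset with hLb
  have hLbc : Lb.card = 2 := by rw [hLb, Finset.card_powerset, Finset.card_range]; norm_num
  let M : ℕ := 2 * Fintype.card J + 1
  have hp0 : ∀ j, 0 ≤ p j := fun j => (hp j).le
  set N : ℝ := ((Fintype.card J : ℝ) + 1) * (1 + ∑ j, 1 / p j) with hNdef
  have hcJ : (0 : ℝ) ≤ Fintype.card J := Nat.cast_nonneg _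
  have hinv0 : ∀ j, 0 ≤ 1 / p j := fun j => by have := hp j; positivity
  have hsinv : 0 ≤ ∑ j, 1 / p j := Finset.sum_nonneg fun j _ => hinv0 j
  have hN0 : 0 < N := by positivity
  have hNJ : ((H167FK.Sys.alive x0).card : ℝ) ≤ N := by
    have h1 : ((H167FK.Sys.alive x0).card : ℝ) ≤ Fintype.card J := by
      exact_mod_cast Finset.card_le_univ _
    rw [hNdef]
    nlinarith
  have hNp : ∀ j, ((H167FK.Sys.alive x0).card : ℝ) ≤ N * p j := by
    intro j
    have h1 : ((H167FK.Sys.alive x0).card : ℝ) ≤ Fintype.card J := by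
      exact_mod_cast Finset.card_le_univ _
    have h2 : 1 / p j ≤ ∑ j, 1 / p j :=
      Finset.single_le_sum (f := fun j => 1 / p j) (fun j _ => hinv0 j) (Finset.mem_univ j)
    have h3 := hp j
    have h4 : ((Fintype.card J : ℝ) + 1) * (1 / p j) * p j ≤ N * p j := by
      apply mul_le_mul_of_nonneg_right _ h3.le
      rw [hNdef]
      apply mul_le_mul_of_nonneg_left _ (by positivity)
      linarith
    have h5 : ((Fintype.card J : ℝ) + 1) * (1 / p j) * p j = (Fintype.card J : ℝ) + 1 := by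
      field_simp
    linarith
  have hwalkc : ∀ q : J → ℝ, (∀ j, 0 ≤ q j) → ∀ m,
      (∑ τ ∈ walks a nn Lb F0 m, H167KP.lp q τ) * κ ^ (m + 1)
        ≤ (∑ j, q j) * (1 / 2) ^ (m + 1) := by
    intro q hq m
    have h1 := H167KP.sum_walks a nn Lb F0 Δ H.hΔ hq m
    rw [hLbc] at h1
    push_cast at h1
    have h2 : ∑ v ∈ F0, q v ≤ ∑ j, q j :=
      Finset.sum_le_sum_of_subset_of_nonneg (Finset.subset_univ _) (fun j _ _ => hq j)
    have hq0 : 0 ≤ ∑ j, q j := Finset.sum_nonneg fun j _ => hq j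
    have hq1 : 0 ≤ ∑ v ∈ F0, q v := Finset.sum_nonneg fun j _ => hq j
    have h3 : ∑ τ ∈ walks a nn Lb F0 m, H167KP.lp q τ ≤ (∑ j, q j) * X ^ (m + 1) := by
      refine h1.trans ?_
      rw [pow_succ]
      have h4 : (∑ v ∈ F0, q v) * 2 ≤ (∑ j, q j) * X := mul_le_mul h2 hXL (by norm_num) hq0
      calc (∑ v ∈ F0, q v) * 2 * X ^ m ≤ (∑ j, q j) * X * X ^ m :=
            mul_le_mul_of_nonneg_right h4 (by positivity)
        _ = (∑ j, q j) * (X ^ m * X) := by ring
    calc (∑ τ ∈ walks a nn Lb F0 m, H167KP.lp q τ) * κ ^ (m + 1)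
        ≤ (∑ j, q j) * X ^ (m + 1) * κ ^ (m + 1) :=
          mul_le_mul_of_nonneg_right h3 (by positivity)
      _ = (∑ j, q j) * (X * κ) ^ (m + 1) := by rw [mul_pow X κ (m + 1), mul_assoc]
      _ = (∑ j, q j) * (1 / 2) ^ (m + 1) := by
          congr 2
          rw [hκ]; field_simp
  have hsumq : ∀ q : J → ℝ, (∀ j, 0 ≤ q j) →
      ∑ τ ∈ (range M).sigma (fun m => walks a nn Lb F0 m),
        N * H167KP.lp q τ.2 * κ ^ (τ.1 + 1) ≤ N * ∑ j, q j := by
    intro q hq
    have hq0 : 0 ≤ ∑ j, q j := Finset.sum_nonneg fun j _ => hq j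
    rw [Finset.sum_sigma]
    calc ∑ m ∈ range M, ∑ τ ∈ walks a nn Lb F0 m, N * H167KP.lp q τ * κ ^ (m + 1)
        = ∑ m ∈ range M, N * ((∑ τ ∈ walks a nn Lb F0 m, H167KP.lp q τ) * κ ^ (m + 1)) := by
          refine Finset.sum_congr rfl fun m _ => ?_
          rw [Finset.sum_mul, Finset.mul_sum]
          exact Finset.sum_congr rfl fun τ _ => by ring
      _ ≤ ∑ m ∈ range M, N * ((∑ j, q j) * (1 / 2) ^ (m + 1)) :=
          Finset.sum_le_sum fun m _ => mul_le_mul_of_nonneg_left (hwalkc q hq m) hN0.le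
      _ = N * (∑ j, q j) * ∑ m ∈ range M, ((1 : ℝ) / 2) ^ (m + 1) := by
          rw [Finset.mul_sum]
          exact Finset.sum_congr rfl fun m _ => by ring
      _ ≤ N * (∑ j, q j) * 1 :=
          mul_le_mul_of_nonneg_left (geom_half_sum M) (by positivity)
      _ = N * ∑ j, q j := mul_one _
  -- normalized kept entries
  let ql : ℕ → I → J → ℝ := fun l i v =>
    (if |a i v| ≤ θk t h l then a i v else 0) ^ 2 / θk t h l ^ 2
  have hql0 : ∀ l i v, 0 ≤ ql l i v := fun l i v => by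
    simp only [ql]; positivity
  have hql1 : ∀ l i v, ql l i v ≤ 1 := fun l i v => by
    have h1 := θk_pos ht hh30 l
    simp only [ql]
    rw [div_le_one (by positivity)]
    split_ifs with h2
    · rw [← sq_abs]; exact pow_le_pow_left₀ (abs_nonneg _) h2 2
    · rw [zero_pow two_ne_zero]; positivity
  have hqla : ∀ l i v, ql l i v ≠ 0 → a i v ≠ 0 := by
    intro l i v h1 h2
    apply h1
    simp only [ql, h2]
    simp
  have hqlcol : ∀ l v, ∑ i, ql l i v ≤ d / θk t h l ^ 2 := by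
    intro l v
    have h1 := θk_pos ht hh30 l
    simp only [ql]
    rw [← Finset.sum_div]
    apply div_le_div_of_nonneg_right _ (by positivity)
    refine (Finset.sum_le_sum fun i _ => ?_).trans (H.col v)
    split_ifs
    · exact le_rfl
    · rw [zero_pow two_ne_zero]; exact sq_nonneg _
  let P : H167KL.Sys I J ((_ : ℕ) × List (J × Finset ℕ)) :=
    { a := a
      I0 := ∅
      I1 := Finset.univ
      t := t
      g0 := 0
      ht := ht
      hg0 := le_rfl
      a1 := H.a1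
      col := fun v => by
        have h1 := H.col v
        linarith
      x0 := x0
      hx0 := hx0
      θ := θk t h
      D := dk t h
      hθ0 := θk_pos ht hh30
      hθa := θk_anti ht hh30
      Yl := yk t h
      hYl := yk_ge
      lam := lk t h
      hlam := lk_pos ht
      Rb := rk t h
      hRb := fun k => by unfold rk; positivity
      g := fun l => exp (-Gk l)
      hg := fun l => by rw [gap ht l]
      hθl := lam_small ht hh30
      hD0 := dk_nonneg ht hh30
      hθD := dk_spec ht hh30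
      l0 := fun _ => 0
      hl0 := fun _ _ => Or.inl rfl
      L := L
      hl0L := fun _ _ => Nat.zero_le _
      hL := hL1
      S := (range M).sigma (fun m => walks a nn Lb F0 m)
      wt := fun τ => N * H167KP.lp p τ.2 * κ ^ (τ.1 + 1)
      hwt := fun τ _ => mul_pos (mul_pos hN0 (H167KP.lp_pos hp _)) (pow_pos hκ0 _)
      b := fun τ i l => min 1 ((τ.2.map (fun p => if 0 ∈ p.2 then ql l i p.1 else 0)).sum)
      hb0 := fun τ _ i l => le_min zero_le_one (List.sum_nonneg (by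
        intro x hx
        rw [List.mem_map] at hx
        obtain ⟨p, -, rfl⟩ := hx
        split_ifs
        · exact hql0 _ _ _
        · exact le_rfl))
      hb1 := fun τ _ i l => min_le_left _ _
      w := wn t h
      hw := wn_pos ht hh30
      N := N
      hN := hNJ
      hwtN := by
        have h1 := hsumq p hp0
        have h2 : N * ∑ j, p j ≤ N * 1 := mul_le_mul_of_nonneg_left hp1 hN0.le
        linarith }
  have hwY : ∀ l < P.L, P.w l ≤ P.Yl l := fun l _ => wn_le l
  have hqam : ∀ F i v, ql (P.lev F i) i v = P.am F i v ^ 2 / θk t h (P.lev F i) ^ 2 :=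
    fun F i v => rfl
  have hqne : ∀ F i v, ql (P.lev F i) i v ≠ 0 ↔ P.am F i v ≠ 0 := by
    intro F i v
    have h1 := θk_pos ht hh30 (P.lev F i)
    rw [hqam]
    constructor
    · intro h2 h3
      rw [h3] at h2
      simp at h2
    · intro h2
      positivity
  let vs : ((_ : ℕ) × List (J × Finset ℕ)) → Finset J := fun τ => (τ.2.map Prod.fst).toFinset
  have hvsmem : ∀ (τ : (_ : ℕ) × List (J × Finset ℕ)) (u : J), u ∈ vs τ ↔ ∃ q ∈ τ.2, q.1 = u := by
    intro τ u
    simp only [vs, List.mem_toFinset, List.mem_map]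
  -- every medium row is seen
  have hseen : ∀ (F K A' : Finset J), F ⊆ H167FK.Sys.alive P.x0 → K ⊆ F → A' ⊆ K →
      ∀ i ∈ P.R F A', ∃ τ ∈ P.inn vs K, 0 < P.b τ i (P.lev F i) := by
    intro F K A' hF hK hA' i hi
    obtain ⟨h1, v, hv, hv3⟩ := Finset.mem_filter.mp hi
    refine ⟨⟨0, [(v, {0})]⟩, Finset.mem_filter.mpr ⟨?_, ?_⟩, ?_⟩
    · refine Finset.mem_sigma.mpr ⟨Finset.mem_range.mpr (Nat.succ_pos _), ?_⟩
      have := mem_walks a nn Lb F0 [(v, {0})] (by simp) (by simp) (by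
        intro p hp
        rw [List.mem_singleton] at hp
        rw [hp]
        refine ⟨hF (hK (hA' hv)), ?_⟩
        rw [hLb, Finset.mem_powerset]
        simp)
      simpa using this
    · intro u hu
      obtain ⟨q, hq, rfl⟩ := (hvsmem _ _).mp hu
      rw [List.mem_singleton] at hq
      rw [hq]; exact hA' hv
    · show 0 < min 1 _
      apply lt_min one_pos
      simp only [List.map_cons, List.map_nil, List.sum_cons, List.sum_nil, Finset.mem_singleton,
        if_true, add_zero]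
      exact lt_of_le_of_ne (hql0 _ _ _) (Ne.symm ((hqne F i v).mpr hv3))
  have hvs : ∀ τ ∈ P.S, ∀ i l, P.b τ i l ≠ 0 → ∃ u ∈ vs τ, P.a i u ≠ 0 := by
    intro τ _ i l hb
    by_contra hcon
    push Not at hcon
    apply hb
    show min 1 ((τ.2.map (fun p => if 0 ∈ p.2 then ql l i p.1 else 0)).sum) = 0
    have h1 : (τ.2.map (fun p => if 0 ∈ p.2 then ql l i p.1 else 0)).sum = 0 := by
      apply List.sum_eq_zero
      intro z hz
      obtain ⟨q, hq, rfl⟩ := List.mem_map.mp hz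
      have h2 : a i q.1 = 0 := hcon q.1 ((hvsmem _ _).mpr ⟨q, hq, rfl⟩)
      have h3 : ql l i q.1 = 0 := by
        by_contra h4
        exact hqla l i q.1 h4 h2
      rw [h3]; simp
    rw [h1]; simp
  have hne : ∀ τ ∈ P.S, (vs τ).Nonempty := by
    intro τ hτ
    obtain ⟨h1, h2⟩ := Finset.mem_sigma.mp hτ
    have h3 : τ.2 ≠ [] := walks_ne h2
    obtain ⟨q, hq⟩ := List.exists_mem_of_ne_nil _ h3
    exact ⟨q.1, (hvsmem _ _).mpr ⟨q, hq, rfl⟩⟩
  have hwK : ∀ K : Finset J, ∑ τ ∈ P.inn vs K, P.wt τ ≤ N * ∑ u ∈ K, p u := by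
    intro K
    set q : J → ℝ := fun j => if j ∈ K then p j else 0 with hq
    have hq0 : ∀ j, 0 ≤ q j := fun j => by
      simp only [hq]; split_ifs
      · exact hp0 j
      · exact le_rfl
    have h1 : ∑ τ ∈ P.inn vs K, P.wt τ
        = ∑ τ ∈ P.inn vs K, N * H167KP.lp q τ.2 * κ ^ (τ.1 + 1) := by
      refine Finset.sum_congr rfl fun τ hτ => ?_
      obtain ⟨-, h2⟩ := Finset.mem_filter.mp hτ
      show N * H167KP.lp p τ.2 * κ ^ (τ.1 + 1) = _
      rw [H167KP.lp_congr (q := q) τ.2 (fun z hz => by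
        have h3 : z.1 ∈ K := h2 ((hvsmem _ _).mpr ⟨z, hz, rfl⟩)
        simp only [hq, if_pos h3])]
    rw [h1]
    have h2 : ∑ τ ∈ P.inn vs K, N * H167KP.lp q τ.2 * κ ^ (τ.1 + 1)
        ≤ ∑ τ ∈ P.S, N * H167KP.lp q τ.2 * κ ^ (τ.1 + 1) :=
      Finset.sum_le_sum_of_subset_of_nonneg (P.inn_sub vs K) (fun τ _ _ =>
        mul_nonneg (mul_nonneg hN0.le (H167KP.lp_nonneg hq0 _)) (pow_pos hκ0 _).le)
    have h3 : ∑ j, q j = ∑ u ∈ K, p u := by
      simp only [hq]
      rw [Finset.sum_ite_mem, Finset.univ_inter]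
    rw [← h3]
    exact h2.trans (hsumq q hq0)
  have hgood : ∀ (F : Finset J) (v : J) (y : J → ℝ), F ⊆ H167FK.Sys.alive P.x0 → v ∈ F →
      k ≤ (comp P.a 0 F v).card → (∀ j, |y j| ≤ 1) →
      P.pK vs F (comp P.a 0 F v) y ≤ 4 * N / ε * ∑ u ∈ comp P.a 0 F v, p u →
      ∃ A' ⊆ comp P.a 0 F v, A'.Nonempty ∧ P.Mov F A' y := by
    intro F v y hF hv hkK hy hf
    by_contra hno
    push Not at hno
    set K : Finset J := comp a 0 F v with hK
    have hKF : K ⊆ F := comp_sub _ _ _ _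
    have hvK : v ∈ K := mem_comp.mpr ⟨hv, Relation.ReflTransGen.refl⟩
    have hKne : K.Nonempty := ⟨v, hvK⟩
    have hek : ∀ l, P.e l = ek t l := fun l => rfl
    let S : Stuck I J :=
      { a := a
        q := fun i v => ql (P.lev F i) i v
        q0 := fun i v => hql0 _ _ _
        q1 := fun i v => hql1 _ _ _
        qa := fun i v => hqla _ _ _
        p := fun i v => a i v ^ 2
        p0 := fun i v => sq_nonneg _
        pa := fun i v h2 h3 => h2 (by rw [h3]; simp)
        d := d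
        hd := hd
        col := H.col
        K := K
        M := P.R F K
        Bg := (P.big F).filter (fun i => ∃ u ∈ K, a i u ≠ 0)
        φ := fun i => P.φ (P.lev F i) F i y
        hφ := fun i => (P.φ_pos _ _ _ _).le
        e := fun i => en t h (P.lev F i)
        he := fun i => en_pos ht hh30 _
        w := fun i => wn t h (P.lev F i)
        hw := fun i => wn_pos ht hh30 _
        c := c
        hc := hc0
        hwe := fun i _ => by
          have := wn_en ht hh30 (P.lev F i)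
          rw [hh2] at this
          exact this
        wm := wm
        hwm0 := hwm0
        hwm1 := by
          refine hwm1.trans ?_
          rw [div_le_iff₀ hd0]
          have : 160 * c * 1 ≤ 160 * c * d := mul_le_mul_of_nonneg_left hd (by positivity)
          linarith
        hwm := by
          intro i hi
          have h1 : P.lev F i < L := (P.mem_med.mp (Finset.mem_filter.mp hi).1).2.2.2
          refine wn_ge ht hh30 hd0 htd hc0 hh2 hwm1 _ fun h2 => ?_
          obtain ⟨i', v', h3, h4⟩ := hL2 _ h1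
          exact hwm2 ⟨i', v', h3, h4.trans_lt h2⟩
        lowM := by
          intro i hi
          have h1 := e_le_comp P hi
          have h2 := θk_pos ht hh30 (P.lev F i)
          rw [hek] at h1
          show ek t (P.lev F i) / θk t h (P.lev F i) ^ 2
            ≤ 16 * ∑ u ∈ K, P.am F i u ^ 2 / θk t h (P.lev F i) ^ 2
          rw [← Finset.sum_div, ← mul_div_assoc]
          exact div_le_div_of_nonneg_right h1 (by positivity)
        lowB := by
          intro i hi
          obtain ⟨h1, h4⟩ := Finset.mem_filter.mp hi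
          have h2 := (P.mem_big.mp h1).2.2
          rw [hek, En_comp P h4] at h2
          have h5 : ek t 0 = 1000 * d := by unfold ek; rw [htd]; simp; ring
          rw [h5] at h2
          exact h2.le
        stuck := by
          intro A' hA' hne M' Bg' hM' hBg'
          have h1 := hno A' hA' hne
          have e1 : M' = P.R F A' := by
            ext i
            rw [hM']
            constructor
            · rintro ⟨h2, u, hu, hu2⟩
              have h3 := (Finset.mem_filter.mp h2).1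
              exact Finset.mem_filter.mpr ⟨h3, u, hu, (hqne F i u).mp hu2⟩
            · intro h2
              obtain ⟨h3, u, hu, hu2⟩ := Finset.mem_filter.mp h2
              exact ⟨Finset.mem_filter.mpr ⟨h3, u, hA' hu, hu2⟩, u, hu, (hqne F i u).mpr hu2⟩
          have e2 : Bg'.card ≥ ((P.big F).filter (fun i => ∃ u ∈ A', a i u ≠ 0)).card := by
            apply Finset.card_le_card
            intro i hi
            obtain ⟨h3, u, hu, hu2⟩ := Finset.mem_filter.mp hi
            exact (hBg' i).mpr ⟨Finset.mem_filter.mpr ⟨h3, u, hA' hu, hu2⟩, u, hu,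
              pow_ne_zero 2 hu2⟩
          have e2' : (((P.big F).filter (fun i => ∃ u ∈ A', a i u ≠ 0)).card : ℝ) ≤ Bg'.card := by
            exact_mod_cast e2
          by_contra hcon
          push Not at hcon
          rw [e1] at hcon
          have h5 : 0 ≤ ∑ i ∈ P.R F A', P.φ (P.lev F i) F i y :=
            Finset.sum_nonneg fun i _ => (P.φ_pos _ _ _ _).le
          have h6 : (0 : ℝ) ≤ Bg'.card := Nat.cast_nonneg _
          apply h1
          refine ⟨by linarith, ?_⟩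
          refine le_trans (le_of_eq ?_) (show 10 * (((P.big F).filter
            (fun i => ∃ u ∈ A', a i u ≠ 0)).card : ℝ) ≤ A'.card by linarith)
          congr! }
    have hKS : S.K = K := rfl
    obtain ⟨v0, hv0K, hv0max⟩ := Finset.exists_max_image K p hKne
    set Q : Finset J := insert v0 (S.X ∪ S.Z ρ0) with hQ
    have hXK : S.X ⊆ K := S.X_sub
    have hQK : Q ⊆ K := Finset.insert_subset hv0K (Finset.union_subset hXK (S.Z_subK ρ0))
    have hcov : ∀ u ∈ comp a 0 F v, ∃ q ∈ Q, hop a (ρ0 + 1) q u := by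
      intro u hu
      by_cases huZ : u ∈ S.Z ρ0
      · exact ⟨u, Finset.mem_insert_of_mem (Finset.mem_union_right _ huZ), hop_refl a _ u⟩
      · obtain ⟨x, hx, hxu⟩ := S.cover ρ0 u hu huZ
        exact ⟨x, Finset.mem_insert_of_mem (Finset.mem_union_left _ hx), hxu⟩
    let Λ : J → Finset ℕ := fun u => if u ∈ S.X then {0} else ∅
    obtain ⟨τ, hτ1, hτ2, hτ3, hτ4, hτ6, hτ5⟩ := H167KP.cover (hop a nn)
        (fun _ _ h => hop_symm h) Q v0 (Finset.mem_insert_self _ _)
        (H167KM.net_cut a 0 F v Q (ρ0 + 1) hcov hQK) Λ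
    -- size of the walk
    set x : ℝ := (S.X.card : ℝ) with hx
    have hx00 : 0 ≤ x := Nat.cast_nonneg _
    have hQc : (Q.card : ℝ) ≤ x + ((S.Z ρ0).card : ℝ) + 1 := by
      have h1 : Q.card ≤ S.X.card + (S.Z ρ0).card + 1 :=
        (Finset.card_insert_le _ _).trans (Nat.add_le_add_right (Finset.card_union_le _ _) 1)
      rw [hx]; exact_mod_cast h1
    have hlen : (τ.length : ℝ) ≤ 2 * x + 2 * ((S.Z ρ0).card : ℝ) + 1 := by
      have h1 : ((τ.length + 1 : ℕ) : ℝ) ≤ ((2 * Q.card : ℕ) : ℝ) := by exact_mod_cast hτ3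
      push_cast at h1
      linarith
    have hlen1 : 1 ≤ τ.length := List.length_pos_iff.mpr hτ1
    -- the test
    let T0 : (_ : ℕ) × List (J × Finset ℕ) := ⟨τ.length - 1, τ⟩
    have hT0S : T0 ∈ P.S := by
      refine Finset.mem_sigma.mpr ⟨Finset.mem_range.mpr ?_, ?_⟩
      · show τ.length - 1 < M
        have h1 : Q.card ≤ Fintype.card J := Finset.card_le_univ Q
        simp only [M]
        omega
      · refine mem_walks a nn Lb F0 τ hτ1 hτ2 fun p hp => ?_
        obtain ⟨h1, h2⟩ := hτ4 p hp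
        refine ⟨hF (hKF (hQK h1)), ?_⟩
        rw [hLb, Finset.mem_powerset]
        rcases h2 with h2 | h2
        · rw [h2]; exact Finset.empty_subset _
        · rw [h2]
          simp only [Λ]
          split_ifs
          · simp
          · exact Finset.empty_subset _
    -- sums over the walk
    have hsumX : ∀ g : J → ℝ,
        (τ.map (fun p => if 0 ∈ p.2 then g p.1 else 0)).sum = ∑ u ∈ S.X, g u := by
      intro g
      have h1 := hτ5 (fun u s => if 0 ∈ s then g u else 0) (fun u => by simp)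
      rw [h1]
      have h2 : ∀ u, (0 ∈ Λ u) ↔ u ∈ S.X := by
        intro u
        simp only [Λ]
        split_ifs with h3 <;> simp [h3]
      simp only [h2]
      rw [Finset.sum_ite_mem, Finset.inter_eq_right.mpr
        (Finset.Subset.trans Finset.subset_union_left (Finset.subset_insert _ _))]
    have hbT : ∀ i l, P.b T0 i l = min 1 (∑ u ∈ S.X, ql l i u) := by
      intro i l
      show min 1 ((τ.map (fun p => if 0 ∈ p.2 then ql l i p.1 else 0)).sum) = _
      rw [hsumX (fun u => ql l i u)]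
    have hbsum : ∀ l, ∑ i, P.b T0 i l ≤ d / θk t h l ^ 2 * x := by
      intro l
      calc ∑ i, P.b T0 i l ≤ ∑ i, ∑ u ∈ S.X, ql l i u := by
            refine Finset.sum_le_sum fun i _ => ?_
            rw [hbT]
            exact min_le_right _ _
        _ = ∑ u ∈ S.X, ∑ i, ql l i u := Finset.sum_comm
        _ ≤ ∑ u ∈ S.X, d / θk t h l ^ 2 := Finset.sum_le_sum fun u _ => hqlcol l u
        _ = d / θk t h l ^ 2 * x := by
            rw [Finset.sum_const, nsmul_eq_mul, hx]; ring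
    -- the exponent
    have hTh : S.Γ - 1 / 50 * c * x ≤ P.Th F T0 y := by
      rw [P.Th_eq]
      have h1 : S.Γ ≤ ∑ i ∈ P.med F, P.b T0 i (P.lev F i) *
          (P.w (P.lev F i) * P.φ (P.lev F i) F i y) := by
        have h2 : S.Γ = ∑ i ∈ P.R F K, P.b T0 i (P.lev F i) *
            (P.w (P.lev F i) * P.φ (P.lev F i) F i y) := by
          show ∑ i ∈ P.R F K, wn t h (P.lev F i) * P.φ (P.lev F i) F i y
            * min 1 (∑ v ∈ S.X, ql (P.lev F i) i v) = _
          refine Finset.sum_congr rfl fun i _ => ?_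
          rw [hbT]
          show _ = _ * (wn t h (P.lev F i) * P.φ (P.lev F i) F i y)
          ring
        rw [h2]
        apply Finset.sum_le_sum_of_subset_of_nonneg
        · intro i hi
          exact (Finset.mem_filter.mp hi).1
        · intro i _ _
          exact mul_nonneg (P.hb0 T0 hT0S i _) (mul_pos (P.hw _) (P.φ_pos _ _ _ _)).le
      have h3 := P.off_le F hT0S
      have h4 : ∑ l ∈ range P.L, P.w l * P.g l * ∑ i, P.b T0 i l ≤ 1 / 50 * c * x :=
        offW ht hh30 hd0 htd hc11 hh2 hx00 (fun l => ∑ i, P.b T0 i l) hbsum P.L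
      linarith
    have hn1 : (1 : ℝ) ≤ (K.card : ℝ) := by
      have : 1 ≤ K.card := Finset.card_pos.mpr hKne
      exact_mod_cast this
    -- the potential bounds the exponent
    have hTin : T0 ∈ P.inn vs K := by
      refine Finset.mem_filter.mpr ⟨hT0S, fun u hu => ?_⟩
      obtain ⟨q, hq, rfl⟩ := (hvsmem _ _).mp hu
      exact hQK (hτ4 q hq).1
    have h1 : P.wt T0 * exp (P.Th F T0 y) ≤ 4 * N / ε * ∑ u ∈ K, p u := by
      have h2 := Finset.single_le_sum (f := fun τ => P.wt τ * exp (P.Th F τ y))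
        (fun τ hτ => mul_nonneg (P.hwt τ (P.inn_sub vs K hτ)).le (exp_pos _).le) hTin
      exact h2.trans hf
    have h2 : P.wt T0 = N * p v0 * κ ^ τ.length := by
      show N * H167KP.lp p τ * κ ^ (τ.length - 1 + 1) = _
      rw [hτ6 p, Nat.sub_add_cancel hlen1]
    rw [h2] at h1
    have h3 : ∑ u ∈ K, p u ≤ (K.card : ℝ) * p v0 := by
      calc ∑ u ∈ K, p u ≤ ∑ u ∈ K, p v0 := Finset.sum_le_sum fun u hu => hv0max u hu
        _ = (K.card : ℝ) * p v0 := by rw [Finset.sum_const, nsmul_eq_mul]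
    have h4 : S.X.card = 0 → S.Γ = 0 := by
      intro h5
      have h6 : S.X = ∅ := Finset.card_eq_zero.mp h5
      show ∑ i ∈ S.M, S.w i * S.φ i * min 1 (∑ v ∈ S.X, S.q i v) = 0
      refine Finset.sum_eq_zero fun i _ => ?_
      rw [h6, Finset.sum_empty, min_eq_right zero_le_one, mul_zero]
    have hkn : (k : ℝ) ≤ (K.card : ℝ) := by exact_mod_cast hkK
    exact finishW hc0 hKκ0 hKκc h4 hn1 (S.Z_card ρ0) hlen hTh S.X_gain (S.gain_ge hKne) hρ hwm0
      hκ0 hlogκ hN0 (hp v0) hε0 h1 h3 (hk _ hkn hn1)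
  obtain ⟨y, hy1, hy2⟩ := P.wproc hwY rfl vs hne hvs p hp k N ε hN0 hε0 hε1 hNp hwK
    P.hwtN hNJ hgood hseen
  have hBd : ∀ i, P.Bd P.L i ≤ cst d c := by
    intro i
    have h1 := total_cst d c hd hc0.le hh30 (L + 1)
    have h2 : P.Bd P.L i = ∑ k ∈ range (L + 1), (4 * dk t h k + rk t h k) := by
      show P.Tp (L + 1) - P.Tp 0 = _
      unfold H167KL.Sys.Tp
      rw [Finset.range_zero, Finset.sum_empty, sub_zero]
    rw [h2]
    exact h1
  refine ⟨y, hy1.box, hy1.froz, fun i => ?_, hy2⟩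
  rcases hy1.rows (Finset.mem_univ i) with h | h
  · left
    have h1 : |∑ v, a i v * (y v - x0 v)| ≤ P.Bd P.L i := h
    exact h1.trans (hBd i)
  · right
    intro z hz hzy
    have h1 : |∑ v, a i v * (z v - x0 v)| ≤ P.Bd P.L i + 4 * 0 := h z hz hzy
    have h2 := hBd i
    exact h1.trans (by linarith)

end H167KN
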