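import Pool.Agent.H167R2.KPStep

/-!
# The weighted process
-/

namespace H167KL

open Finset Real H167BJ H167BK

variable {I J T : Type*} [Fintype I] [Fintype J]

omit [Fintype I] [Fintype J] in
theorem adj_mono {a : I → J → ℝ} {F F' : Finset J} (h : F' ⊆ F) {v w : J}
    (h2 : adj a 0 F' v w) : adj a 0 F v w := by
  obtain ⟨h3, h4, i, h5, h6, h7⟩ := h2
  exact ⟨h h3, h h4, i, h5.trans_le (Finset.sum_le_sum_of_subset_of_nonneg h
    (fun _ _ _ => abs_nonneg _)), h6, h7⟩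

omit [Fintype I] [Fintype J] in
theorem comp_mono {a : I → J → ℝ} {F F' : Finset J} (h : F' ⊆ F) (v : J) :
    comp a 0 F' v ⊆ comp a 0 F v := by
  intro w hw
  rw [mem_comp] at hw ⊢
  exact ⟨h hw.1, Relation.ReflTransGen.mono (fun _ _ h3 => adj_mono h h3) _ _ hw.2⟩

omit [Fintype I] [Fintype J] in
/-- Components are equal or disjoint. -/
theorem comp_disj {a : I → J → ℝ} {F : Finset J} {v v' : J}
    (h : ¬ Disjoint (comp a 0 F v) (comp a 0 F v')) : comp a 0 F v = comp a 0 F v' := by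
  classical
  rw [Finset.not_disjoint_iff] at h
  obtain ⟨u, h1, h2⟩ := h
  rw [← comp_eq h1, ← comp_eq h2]

namespace Sys

variable (P : Sys I J T)

open Classical in
/-- Tests inside `K`. -/
noncomputable def inn (vs : T → Finset J) (K : Finset J) : Finset T :=
  P.S.filter (fun τ => vs τ ⊆ K)

open Classical in
/-- Tests inside a component. -/
noncomputable def con (vs : T → Finset J) (F : Finset J) : Finset T :=
  P.S.filter (fun τ => ∃ v ∈ F, vs τ ⊆ comp P.a 0 F v)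

/-- The global potential. -/
noncomputable def Ph (vs : T → Finset J) (x : J → ℝ) : ℝ :=
  ∑ τ ∈ P.con vs (H167FK.Sys.alive x), P.wt τ * exp (P.Th (H167FK.Sys.alive x) τ x)
    + ∑ j, (1 - x j ^ 2)

/-- The potential of a set. -/
noncomputable def pK (vs : T → Finset J) (F K : Finset J) (x : J → ℝ) : ℝ :=
  ∑ τ ∈ P.inn vs K, P.wt τ * exp (P.Th F τ x)

theorem inn_sub (vs : T → Finset J) (K : Finset J) : P.inn vs K ⊆ P.S := by
  classical
  exact Finset.filter_subset _ _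

theorem inn_con (vs : T → Finset J) {F : Finset J} {v : J} (hv : v ∈ F) :
    P.inn vs (comp P.a 0 F v) ⊆ P.con vs F := by
  classical
  intro τ hτ
  obtain ⟨h1, h2⟩ := Finset.mem_filter.mp hτ
  exact Finset.mem_filter.mpr ⟨h1, v, hv, h2⟩

theorem con_mono (vs : T → Finset J) {F F' : Finset J} (h : F' ⊆ F) :
    P.con vs F' ⊆ P.con vs F := by
  classical
  intro τ hτ
  obtain ⟨h1, v, hv, h2⟩ := Finset.mem_filter.mp hτ
  exact Finset.mem_filter.mpr ⟨h1, v, h hv, h2.trans (comp_mono h v)⟩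

/-- The global potential does not increase in a step on a component. -/
theorem Ph_step (vs : T → Finset J) (hne : ∀ τ ∈ P.S, (vs τ).Nonempty)
    (hvs : ∀ τ ∈ P.S, ∀ i l, P.b τ i l ≠ 0 → ∃ u ∈ vs τ, P.a i u ≠ 0)
    {x y : J → ℝ} {v : J} (hv : v ∈ H167FK.Sys.alive x)
    (hoff : ∀ j ∉ comp P.a 0 (H167FK.Sys.alive x) v, y j = x j)
    (hsub : H167FK.Sys.alive y ⊆ H167FK.Sys.alive x)
    (hth : ∀ i l, P.th (H167FK.Sys.alive y) i l y ≤ P.th (H167FK.Sys.alive x) i l y)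
    (hf : P.pK vs (H167FK.Sys.alive x) (comp P.a 0 (H167FK.Sys.alive x) v) y
        + ∑ j, (1 - y j ^ 2)
      ≤ P.pK vs (H167FK.Sys.alive x) (comp P.a 0 (H167FK.Sys.alive x) v) x
        + ∑ j, (1 - x j ^ 2)) :
    P.Ph vs y ≤ P.Ph vs x := by
  classical
  set A := H167FK.Sys.alive x with hA
  set A' := H167FK.Sys.alive y with hA'
  set K := comp P.a 0 A v with hK
  have hwe : ∀ F τ z, τ ∈ P.S → 0 ≤ P.wt τ * exp (P.Th F τ z) := fun F τ z hτ =>
    mul_nonneg (P.hwt τ hτ).le (exp_pos _).le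
  have hS : ∀ F, P.con vs F ⊆ P.S := fun F => Finset.filter_subset _ _
  -- shrink the alive set
  have h1 : ∑ τ ∈ P.con vs A', P.wt τ * exp (P.Th A' τ y)
      ≤ ∑ τ ∈ P.con vs A, P.wt τ * exp (P.Th A τ y) := by
    refine le_trans (Finset.sum_le_sum fun τ hτ => ?_)
      (Finset.sum_le_sum_of_subset_of_nonneg (P.con_mono vs hsub)
        (fun τ hτ _ => hwe A τ y (hS A hτ)))
    apply mul_le_mul_of_nonneg_left _ (P.hwt τ (hS A' hτ)).le
    apply exp_le_exp.mpr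
    unfold Th
    refine Finset.sum_le_sum fun i _ => Finset.sum_le_sum fun l _ =>
      mul_le_mul_of_nonneg_left (hth i l) (P.hb0 τ (hS A' hτ) i l)
  -- split
  have hsplit : ∀ z : J → ℝ, ∑ τ ∈ P.con vs A, P.wt τ * exp (P.Th A τ z)
      = P.pK vs A K z + ∑ τ ∈ P.con vs A \ P.inn vs K, P.wt τ * exp (P.Th A τ z) := by
    intro z
    unfold pK
    rw [← Finset.sum_sdiff (P.inn_con vs hv)]
    ring
  have hrest : ∑ τ ∈ P.con vs A \ P.inn vs K, P.wt τ * exp (P.Th A τ y)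
      = ∑ τ ∈ P.con vs A \ P.inn vs K, P.wt τ * exp (P.Th A τ x) := by
    refine Finset.sum_congr rfl fun τ hτ => ?_
    obtain ⟨h2, h3⟩ := Finset.mem_sdiff.mp hτ
    obtain ⟨h4, v', hv', h5⟩ := Finset.mem_filter.mp h2
    have hdis : Disjoint K (comp P.a 0 A v') := by
      by_contra hcon
      apply h3
      rw [hK, comp_disj hcon]
      exact Finset.mem_filter.mpr ⟨h4, h5⟩
    congr 2
    unfold Th
    refine Finset.sum_congr rfl fun i _ => Finset.sum_congr rfl fun l _ => ?_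
    by_cases hb : P.b τ i l = 0
    · rw [hb]; ring
    · obtain ⟨u, hu, hu2⟩ := hvs τ h4 i l hb
      rw [P.th_congr A i l (x := y) (y := x) (fun w hw => hoff w fun hwK => ?_)]
      have hu3 := h5 hu
      have hu4 : u ∈ A := comp_sub _ _ _ _ hu3
      have hw4 : w ∈ A := comp_sub _ _ _ _ hwK
      have h6 : adj P.a 0 A u w := ⟨hu4, hw4, i,
        Finset.sum_pos' (fun _ _ => abs_nonneg _) ⟨u, hu4, abs_pos.mpr hu2⟩, hu2, hw⟩
      exact Finset.disjoint_left.mp hdis hwK (comp_closed hu3 h6)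
  unfold Ph
  rw [← hA, ← hA']
  have h2 := hsplit y
  have h3 := hsplit x
  linarith

/-- Pigeonhole: some large component has a small potential. -/
theorem pigeon (vs : T → Finset J) (hne : ∀ τ ∈ P.S, (vs τ).Nonempty) {x : J → ℝ}
    (hx : ∀ j, |x j| ≤ 1) (p : J → ℝ) (hp : ∀ j, 0 < p j) (k : ℕ) (M ε : ℝ) (hM : 0 < M)
    (hε : 0 < ε) (hPh : P.Ph vs x ≤ 2 * M)
    (hW : ε < ∑ v ∈ (H167FK.Sys.alive x).filter
      (fun v => k ≤ (comp P.a 0 (H167FK.Sys.alive x) v).card), p v) :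
    ∃ v ∈ H167FK.Sys.alive x, k ≤ (comp P.a 0 (H167FK.Sys.alive x) v).card ∧
      P.pK vs (H167FK.Sys.alive x) (comp P.a 0 (H167FK.Sys.alive x) v) x
        ≤ 2 * M / ε * ∑ u ∈ comp P.a 0 (H167FK.Sys.alive x) v, p u := by
  classical
  set A := H167FK.Sys.alive x with hA
  by_contra hcon
  push Not at hcon
  set Lg := A.filter (fun v => k ≤ (comp P.a 0 A v).card) with hLg
  set 𝒦 : Finset (Finset J) := Lg.image (comp P.a 0 A) with h𝒦
  have hmem : ∀ K ∈ 𝒦, ∃ v ∈ A, k ≤ (comp P.a 0 A v).card ∧ comp P.a 0 A v = K := by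
    intro K hK
    obtain ⟨v, hv, hvK⟩ := Finset.mem_image.mp hK
    obtain ⟨h1, h2⟩ := Finset.mem_filter.mp hv
    exact ⟨v, h1, h2, hvK⟩
  have hdis : ∀ K ∈ 𝒦, ∀ K' ∈ 𝒦, K ≠ K' → Disjoint K K' := by
    intro K hK K' hK' hne'
    obtain ⟨v, -, -, rfl⟩ := hmem K hK
    obtain ⟨v', -, -, rfl⟩ := hmem K' hK'
    by_contra h
    exact hne' (comp_disj h)
  have hinnd : ∀ K ∈ 𝒦, ∀ K' ∈ 𝒦, K ≠ K' → Disjoint (P.inn vs K) (P.inn vs K') := by
    intro K hK K' hK' hne'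
    rw [Finset.disjoint_left]
    intro τ h1 h2
    obtain ⟨h3, h4⟩ := Finset.mem_filter.mp h1
    obtain ⟨-, h5⟩ := Finset.mem_filter.mp h2
    obtain ⟨u, hu⟩ := hne τ h3
    exact Finset.disjoint_left.mp (hdis K hK K' hK' hne') (h4 hu) (h5 hu)
  have h1 : ∑ K ∈ 𝒦, P.pK vs A K x ≤ 2 * M := by
    unfold pK
    rw [← Finset.sum_biUnion hinnd]
    have h2 : 𝒦.biUnion (P.inn vs) ⊆ P.con vs A := by
      refine Finset.biUnion_subset.mpr fun K hK => ?_
      obtain ⟨v, hv, -, rfl⟩ := hmem K hK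
      exact P.inn_con vs hv
    have h3 : ∑ τ ∈ 𝒦.biUnion (P.inn vs), P.wt τ * exp (P.Th A τ x)
        ≤ ∑ τ ∈ P.con vs A, P.wt τ * exp (P.Th A τ x) :=
      Finset.sum_le_sum_of_subset_of_nonneg h2 fun τ hτ _ =>
        mul_nonneg (P.hwt τ (Finset.mem_filter.mp hτ).1).le (exp_pos _).le
    have h4 : 0 ≤ ∑ j, (1 - x j ^ 2) := by
      refine Finset.sum_nonneg fun j _ => ?_
      have := hx j
      have h4 : x j ^ 2 ≤ 1 := by
        rw [← sq_abs]; nlinarith [abs_nonneg (x j)]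
      linarith
    unfold Ph at hPh
    rw [← hA] at hPh
    linarith
  have h2 : ∑ v ∈ Lg, p v ≤ ∑ K ∈ 𝒦, ∑ u ∈ K, p u := by
    rw [← Finset.sum_biUnion (t := fun K => K) hdis]
    apply Finset.sum_le_sum_of_subset_of_nonneg
    · intro v hv
      rw [Finset.mem_biUnion]
      exact ⟨comp P.a 0 A v, Finset.mem_image_of_mem _ hv,
        self_mem_comp (Finset.mem_filter.mp hv).1⟩
    · intro j _ _; exact (hp j).le
  have h3 : ∑ K ∈ 𝒦, 2 * M / ε * ∑ u ∈ K, p u ≤ ∑ K ∈ 𝒦, P.pK vs A K x := by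
    refine Finset.sum_le_sum fun K hK => ?_
    obtain ⟨v, hv, hk, rfl⟩ := hmem K hK
    exact (hcon v hv hk).le
  rw [← Finset.mul_sum] at h3
  have h4 : 0 < 2 * M / ε := by positivity
  have h5 : 2 * M / ε * ∑ v ∈ Lg, p v ≤ 2 * M :=
    ((mul_le_mul_of_nonneg_left h2 h4.le).trans h3).trans h1
  have h6 : 2 * M / ε * ε = 2 * M := by field_simp
  have h7 : 2 * M / ε * ε < 2 * M / ε * ∑ v ∈ Lg, p v := mul_lt_mul_of_pos_left hW h4
  linarith

/-- **The weighted process.** -/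
theorem wproc (hwY : ∀ l < P.L, P.w l ≤ P.Yl l) (hI0 : P.I0 = ∅)
    (vs : T → Finset J) (hne : ∀ τ ∈ P.S, (vs τ).Nonempty)
    (hvs : ∀ τ ∈ P.S, ∀ i l, P.b τ i l ≠ 0 → ∃ u ∈ vs τ, P.a i u ≠ 0)
    (p : J → ℝ) (hp : ∀ j, 0 < p j) (k : ℕ) (M ε : ℝ) (hM : 0 < M) (hε : 0 < ε) (hε1 : ε ≤ 1)
    (hMp : ∀ j, ((H167FK.Sys.alive P.x0).card : ℝ) ≤ M * p j)
    (hwK : ∀ K : Finset J, ∑ τ ∈ P.inn vs K, P.wt τ ≤ M * ∑ u ∈ K, p u)
    (hbase : ∑ τ ∈ P.S, P.wt τ ≤ M) (hcard : ((H167FK.Sys.alive P.x0).card : ℝ) ≤ M)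
    (hgood : ∀ (F : Finset J) (v : J) (y : J → ℝ), F ⊆ H167FK.Sys.alive P.x0 → v ∈ F →
      k ≤ (comp P.a 0 F v).card → (∀ j, |y j| ≤ 1) →
      P.pK vs F (comp P.a 0 F v) y ≤ 4 * M / ε * ∑ u ∈ comp P.a 0 F v, p u →
      ∃ A' ⊆ comp P.a 0 F v, A'.Nonempty ∧ P.Mov F A' y)
    (hseen : ∀ (F K A' : Finset J), F ⊆ H167FK.Sys.alive P.x0 → K ⊆ F → A' ⊆ K →
      ∀ i ∈ P.R F A', ∃ τ ∈ P.inn vs K, 0 < P.b τ i (P.lev F i)) :
    ∃ y : J → ℝ, P.bare.Inv y ∧ ∑ v ∈ (H167FK.Sys.alive y).filter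
      (fun v => k ≤ (comp P.a 0 (H167FK.Sys.alive y) v).card), p v ≤ ε := by
  classical
  have key : ∀ n : ℕ, ∀ x : J → ℝ, P.bare.Inv x → P.Ph vs x ≤ 2 * M →
      (H167FK.Sys.alive x).card ≤ n →
      ∃ y : J → ℝ, P.bare.Inv y ∧ ∑ v ∈ (H167FK.Sys.alive y).filter
        (fun v => k ≤ (comp P.a 0 (H167FK.Sys.alive y) v).card), p v ≤ ε := by
    intro n
    induction n with
    | zero =>
      intro x hx _ hn
      refine ⟨x, hx, ?_⟩
      have h1 : H167FK.Sys.alive x = ∅ := Finset.card_eq_zero.mp (by omega)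
      rw [h1]; simpa using hε.le
    | succ n ih =>
      intro x hx hPh hn
      by_cases hW : ∑ v ∈ (H167FK.Sys.alive x).filter
          (fun v => k ≤ (comp P.a 0 (H167FK.Sys.alive x) v).card), p v ≤ ε
      · exact ⟨x, hx, hW⟩
      · push Not at hW
        obtain ⟨v, hv, hk, hpk⟩ := P.pigeon vs hne hx.box p hp k M ε hM hε hPh hW
        set A := H167FK.Sys.alive x with hA
        set K := comp P.a 0 A v with hK
        have hAx0 : A ⊆ H167FK.Sys.alive P.x0 := hx.alive_sub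
        have hvK : v ∈ K := self_mem_comp hv
        have hpK : p v ≤ ∑ u ∈ K, p u :=
          Finset.single_le_sum (f := p) (fun j _ => (hp j).le) hvK
        have hpK0 : 0 < ∑ u ∈ K, p u := (hp v).trans_le hpK
        set N' : ℝ := 2 * M / ε * ∑ u ∈ K, p u with hN'def
        have h2ε : M ≤ 2 * M / ε := by
          rw [le_div_iff₀ hε]; nlinarith
        have hMK : M * ∑ u ∈ K, p u ≤ N' := mul_le_mul_of_nonneg_right h2ε hpK0.le
        have hN' : ((H167FK.Sys.alive P.x0).card : ℝ) ≤ N' :=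
          ((hMp v).trans (mul_le_mul_of_nonneg_left hpK hM.le)).trans hMK
        have hwt' : ∑ τ ∈ P.inn vs K, P.wt τ ≤ N' := (hwK K).trans hMK
        set P' := P.sub (P.inn vs K) (P.inn_sub vs K) N' hN' hwt' with hP'
        have hfK : ∀ z : J → ℝ, P'.f A z = P.pK vs A K z + ∑ j, (1 - z j ^ 2) := fun z => rfl
        have hal := sum_alive hx.box
        have hal2 : ((H167FK.Sys.alive x).card : ℝ) ≤ ((H167FK.Sys.alive P.x0).card : ℝ) := by
          exact_mod_cast Finset.card_le_card hAx0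
        have hinv : P'.Inv x := Inv.of_bare hx (by
          rw [← hP', ← hA, hfK]
          linarith)
        have hnn : ∀ y : J → ℝ, (∀ j, |y j| ≤ 1) → 0 ≤ ∑ j, (1 - y j ^ 2) := by
          intro y hy
          refine Finset.sum_nonneg fun j _ => ?_
          have := hy j
          have h4 : y j ^ 2 ≤ 1 := by
            rw [← sq_abs]; nlinarith [abs_nonneg (y j)]
          linarith
        obtain ⟨y, hy1, hy2, hy3, hy4, hy5, hy6⟩ := P'.step2 hwY hI0 x hinv K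
          (comp_sub _ _ _ _)
          (fun y hy hf => by
            have h1 : P'.N = N' := rfl
            rw [h1, ← hA, hfK] at hf
            have h2 := hnn y hy
            have h3 : 2 * N' = 4 * M / ε * ∑ u ∈ K, p u := by rw [hN'def]; ring
            have h4 := hgood A v y hAx0 hv hk hy (by linarith)
            obtain ⟨A', hA'1, hA'2, hA'3⟩ := h4
            exact ⟨A', hA'1, hA'2, ⟨hA'3.pot, hA'3.big⟩⟩)
          (fun A' hA' i hi => hseen A K A' hAx0 (comp_sub _ _ _ _) hA' i hi)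
        have hbase' : P.bare.Inv y := Inv.to_bare hy1
        rw [← hA, hfK, hfK] at hy4
        rw [← hA] at hy2
        have hPh' : P.Ph vs y ≤ P.Ph vs x :=
          P.Ph_step vs hne hvs hv hy3 hy5 hy6 hy4
        exact ih y hbase' (hPh'.trans hPh) (by omega)
  refine key _ P.x0 P.bare.inv_base ?_ le_rfl
  unfold Ph
  have h1 : ∑ τ ∈ P.con vs (H167FK.Sys.alive P.x0),
      P.wt τ * exp (P.Th (H167FK.Sys.alive P.x0) τ P.x0) ≤ ∑ τ ∈ P.S, P.wt τ := by
    refine le_trans (Finset.sum_le_sum (g := P.wt) fun τ hτ => ?_)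
      (Finset.sum_le_sum_of_subset_of_nonneg (Finset.filter_subset _ _)
        (fun τ hτ _ => (P.hwt τ hτ).le))
    have hτS := (Finset.mem_filter.mp hτ).1
    have h2 : exp (P.Th (H167FK.Sys.alive P.x0) τ P.x0) ≤ 1 := by
      rw [Real.exp_le_one_iff]
      unfold Th
      refine Finset.sum_nonpos fun i _ => Finset.sum_nonpos fun l _ =>
        mul_nonpos_of_nonneg_of_nonpos (P.hb0 τ hτS i l)
          (P.th_base _ i l (fun j hj => H167FK.Sys.abs_eq_one P.hx0 hj))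
    have := mul_le_mul_of_nonneg_left h2 (P.hwt τ hτS).le
    linarith
  have h2 := sum_alive P.hx0
  linarith

end Sys

end H167KL
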