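import Pool.Agent.H167R2.KNLin

/-!
# Weighted stages: one step, change of the set of tests
-/

namespace H167KL

open Finset Real Filter Topology H167BJ H167BK

variable {I J T : Type*} [Fintype I] [Fintype J]

namespace Sys

variable (P : Sys I J T)

/-- One step of the process on a closed set `F'` of alive elements. -/
theorem step2 (hwY : ∀ l < P.L, P.w l ≤ P.Yl l) (hI0 : P.I0 = ∅) (x : J → ℝ) (hx : P.Inv x)
    (K : Finset J) (hF'A : K ⊆ H167FK.Sys.alive x)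
    (hgood : ∀ y : J → ℝ, (∀ j, |y j| ≤ 1) → P.f (H167FK.Sys.alive x) y ≤ 2 * P.N →
      ∃ A' ⊆ K, A'.Nonempty ∧ P.Mov (H167FK.Sys.alive x) A' y)
    (hW : ∀ A' ⊆ K, ∀ i ∈ P.R (H167FK.Sys.alive x) A',
      ∃ τ ∈ P.S, 0 < P.b τ i (P.lev (H167FK.Sys.alive x) i)) :
    ∃ y : J → ℝ, P.Inv y ∧ (H167FK.Sys.alive y).card < (H167FK.Sys.alive x).card ∧
      (∀ j ∉ K, y j = x j) ∧ P.f (H167FK.Sys.alive x) y ≤ P.f (H167FK.Sys.alive x) x ∧
      H167FK.Sys.alive y ⊆ H167FK.Sys.alive x ∧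
      ∀ i l, P.th (H167FK.Sys.alive y) i l y ≤ P.th (H167FK.Sys.alive x) i l y := by
  classical
  set A : Finset J := H167FK.Sys.alive x with hA
  have hxA : ∀ j, j ∉ A → |x j| = 1 := fun j hj => H167FK.Sys.abs_eq_one hx.box hj
  have hxF : x ∈ P.Fs A K x := ⟨fun j _ => rfl, hx.box, hx.zero, hx.bigz, hx.medb⟩
  obtain ⟨y, hyF, hymin⟩ := (P.isCompact_Fs A K x).exists_isMinOn ⟨x, hxF⟩
    (P.continuous_f A).continuousOn
  have hfy : P.f A y ≤ P.f A x := hymin hxF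
  have hfy2 : P.f A y ≤ 2 * P.N := hfy.trans hx.pot
  -- some coordinate gets frozen
  have hfrozen : ∃ j ∈ K, |y j| = 1 := by
    by_contra hcon
    push Not at hcon
    have hlt : ∀ j ∈ K, |y j| < 1 := fun j hj => lt_of_le_of_ne (hyF.2.1 j) (hcon j hj)
    obtain ⟨A', hA'K, hA'ne, hmov⟩ := hgood y hyF.2.1 hfy2
    obtain ⟨hg1, hg2⟩ := P.mov_spec hwY hyF.2.1 hmov
    have hyF' : y ∈ P.Fs A A' y := ⟨fun _ _ => rfl, hyF.2⟩
    refine P.no_min' A A' y y hyF' (fun j hj => hlt j (hA'K hj)) (Finset.card_pos.mpr hA'ne)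
      (hA'K.trans hF'A) (by convert hmov.big) (by rw [hI0]; simp) hg1
      (hg2 _ (fun i hi => Finset.mem_filter.mp hi)) (fun i hi => hW A' hA'K i hi)
      (fun z hz => hymin ⟨fun j hj => ?_, hz.2⟩)
    rw [hz.1 j (fun h => hj (hA'K h)), hyF.1 j hj]
  have hyA : ∀ j ∉ A, |y j| = 1 := fun j hj => by
    rw [hyF.1 j (fun h => hj (hF'A h))]; exact hxA j hj
  have hsub : H167FK.Sys.alive y ⊆ A := by
    intro j hj
    by_contra hjA
    unfold H167FK.Sys.alive at hj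
    rw [Finset.mem_filter] at hj
    have := hyA j hjA
    linarith [hj.2]
  have hy1 : ∀ j ∉ H167FK.Sys.alive y, |y j| = 1 := fun j hj => H167FK.Sys.abs_eq_one hyF.2.1 hj
  set A' : Finset J := H167FK.Sys.alive y with hA'
  have hxy : ∀ j ∉ A, y j = x j := fun j hj => hyF.1 j (fun h => hj (hF'A h))
  have hbig1 := hyF.2.2.2.1
  have hmed1 := hyF.2.2.2.2
  have hbigsub : ∀ i ∈ P.big A', i ∈ P.big A := by
    intro i hi
    obtain ⟨h1, h2, h3⟩ := P.mem_big.mp hi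
    exact P.mem_big.mpr ⟨h1, h2.trans_le (P.mass_mono hsub i), h3.trans_le (P.En_mono hsub i)⟩
  refine ⟨y, ⟨hyF.2.1, ?_, hyF.2.2.1, fun i hi => hbig1 i (hbigsub i hi), ?_, ?_, ?_⟩, ?_⟩
  · intro j hj
    have h1 := hx.froz j hj
    have h2 : j ∉ A := by
      rw [hA]
      unfold H167FK.Sys.alive
      rw [Finset.mem_filter, h1, hj]
      simp
    rw [hxy j h2, h1]
  · -- medium rows
    intro i hi
    rw [← hA'] at hi ⊢
    obtain ⟨hi1, hi2, hi3, hi4⟩ := P.mem_med.mp hi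
    by_cases hb : i ∈ P.big A
    · have h1 := P.reset_zero hyF.2.1 (hbig1 i hb) (P.En_le_l0 hi1 hi3) (P.lev A' i)
        (P.l0_le_lev hi1 hi3) le_rfl
      have h2 := P.half_nonneg (P.lev A' i)
      linarith
    · by_cases hm : i ∈ P.med A
      · have h1 := (P.V_shrink (P.lev A i) hsub i hyF.2.1).trans (hmed1 i hm)
        rcases (P.lev_mono hsub i).eq_or_lt with h | h
        · rw [← h]; exact h1
        · have h2 := P.reset_lt hyF.2.1 h1 (P.lev A' i) h le_rfl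
          have h3 := P.half_nonneg (P.lev A' i)
          linarith
      · exact absurd hi (P.sml_mono hsub hb hm).2
  · -- small rows
    intro i hi1 hib him
    rw [← hA'] at him hib ⊢
    by_cases hb : i ∈ P.big A
    · exact P.sml_of_zero hi1 hib him hyF.2.1 (hbig1 i hb)
    · by_cases hm : i ∈ P.med A
      · have h1 := (P.V_shrink (P.lev A i) hsub i hyF.2.1).trans (hmed1 i hm)
        exact P.sml_of_V hi1 hib him hyF.2.1 (P.mem_med.mp hm).2.2.2 h1
      · exact (P.Bq_change hsub i hyF.2.1 hxy).trans (hx.smlb i hi1 hb hm)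
  · -- potential
    refine le_trans ?_ hfy2
    unfold f
    rw [← hA']
    have h1 : ∑ τ ∈ P.S, P.wt τ * exp (P.Th A' τ y) ≤ ∑ τ ∈ P.S, P.wt τ * exp (P.Th A τ y) := by
      refine Finset.sum_le_sum fun τ hτ => mul_le_mul_of_nonneg_left ?_ (P.hwt τ hτ).le
      apply exp_le_exp.mpr
      unfold Th
      refine Finset.sum_le_sum fun i _ => Finset.sum_le_sum fun l _ =>
        mul_le_mul_of_nonneg_left ?_ (P.hb0 τ hτ i l)
      exact P.th_mono hsub i l hyF.2.1 hy1 (fun h => hbig1 i h) (fun h => hmed1 i h)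
    linarith
  · refine ⟨?_, hyF.1, hfy, hsub, fun i l =>
      P.th_mono hsub i l hyF.2.1 hy1 (fun h => hbig1 i h) (fun h => hmed1 i h)⟩
    obtain ⟨j, hjA, hj1⟩ := hfrozen
    apply Finset.card_lt_card
    refine ⟨hsub, fun hcon => ?_⟩
    have := hcon (hF'A hjA)
    unfold H167FK.Sys.alive at this
    rw [Finset.mem_filter] at this
    linarith [this.2]



/-- The same system with fewer tests. -/
def sub (S' : Finset T) (hS : S' ⊆ P.S) (N' : ℝ)
    (hN' : ((H167FK.Sys.alive P.x0).card : ℝ) ≤ N') (hwt' : ∑ τ ∈ S', P.wt τ ≤ N') :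
    Sys I J T :=
  { P with
    S := S'
    hwt := fun τ hτ => P.hwt τ (hS hτ)
    hb0 := fun τ hτ => P.hb0 τ (hS hτ)
    hb1 := fun τ hτ => P.hb1 τ (hS hτ)
    N := N'
    hN := hN'
    hwtN := hwt' }

theorem sum_alive {x : J → ℝ} (hx : ∀ j, |x j| ≤ 1) :
    ∑ j, (1 - x j ^ 2) ≤ ((H167FK.Sys.alive x).card : ℝ) := by
  classical
  have h3 : ∑ j, (1 - x j ^ 2) = ∑ j ∈ H167FK.Sys.alive x, (1 - x j ^ 2) := by
    symm
    refine Finset.sum_subset (Finset.subset_univ _) fun j _ hj => ?_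
    have h4 : x j ^ 2 = 1 := by
      rw [← sq_abs, H167FK.Sys.abs_eq_one hx hj]; norm_num
    rw [h4]; ring
  rw [h3]
  calc ∑ j ∈ H167FK.Sys.alive x, (1 - x j ^ 2)
      ≤ ∑ j ∈ H167FK.Sys.alive x, (1 : ℝ) :=
        Finset.sum_le_sum fun j _ => by linarith [sq_nonneg (x j)]
    _ = _ := by simp

/-- The system without tests. -/
noncomputable def bare : Sys I J T :=
  P.sub ∅ (Finset.empty_subset _) ((H167FK.Sys.alive P.x0).card : ℝ) le_rfl (by simp)

theorem Inv.to_bare {P : Sys I J T} {S' : Finset T} {hS : S' ⊆ P.S} {N' : ℝ}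
    {hN' : ((H167FK.Sys.alive P.x0).card : ℝ) ≤ N'} {hwt' : ∑ τ ∈ S', P.wt τ ≤ N'}
    {x : J → ℝ} (hx : (P.sub S' hS N' hN' hwt').Inv x) : P.bare.Inv x := by
  classical
  refine ⟨hx.box, hx.froz, hx.zero, hx.bigz, hx.medb, hx.smlb, ?_⟩
  have h1 := sum_alive hx.box
  have h2 : H167FK.Sys.alive x ⊆ H167FK.Sys.alive P.x0 := hx.alive_sub
  have h3 : ((H167FK.Sys.alive x).card : ℝ) ≤ ((H167FK.Sys.alive P.x0).card : ℝ) := by
    exact_mod_cast Finset.card_le_card h2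
  have h4 : P.bare.f (H167FK.Sys.alive x) x = ∑ j, (1 - x j ^ 2) := by
    unfold f bare sub
    simp
  have h5 : P.bare.N = ((H167FK.Sys.alive P.x0).card : ℝ) := rfl
  have h6 : (0 : ℝ) ≤ ((H167FK.Sys.alive P.x0).card : ℝ) := Nat.cast_nonneg _
  rw [h4, h5]
  linarith

theorem Inv.of_bare {P : Sys I J T} {S' : Finset T} {hS : S' ⊆ P.S} {N' : ℝ}
    {hN' : ((H167FK.Sys.alive P.x0).card : ℝ) ≤ N'} {hwt' : ∑ τ ∈ S', P.wt τ ≤ N'}
    {x : J → ℝ} (hx : P.bare.Inv x)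
    (hpot : (P.sub S' hS N' hN' hwt').f (H167FK.Sys.alive x) x ≤ 2 * N') :
    (P.sub S' hS N' hN' hwt').Inv x :=
  ⟨hx.box, hx.froz, hx.zero, hx.bigz, hx.medb, hx.smlb, hpot⟩

/-- The contribution of a row depends only on the values on the row. -/
theorem th_congr (F : Finset J) (i : I) (l : ℕ) {x y : J → ℝ}
    (h : ∀ v, P.a i v ≠ 0 → x v = y v) : P.th F i l x = P.th F i l y := by
  have hsm : ∀ v, P.a i v = 0 → P.sm l i v = 0 := by
    intro v hv
    unfold sm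
    rw [hv]; simp
  have hA : P.A i x = P.A i y := by
    unfold A
    refine Finset.sum_congr rfl fun v _ => ?_
    by_cases hv : P.a i v = 0
    · rw [hv]; ring
    · rw [h v hv]
  have hB : P.B l F i x = P.B l F i y := by
    unfold B
    rw [hA]
    congr 1
    refine Finset.sum_congr rfl fun v _ => ?_
    by_cases hv : P.a i v = 0
    · rw [hsm v hv, hv]; ring
    · rw [h v hv]
  have hE : ∑ v, P.sm l i v ^ 2 * (1 - x v ^ 2) = ∑ v, P.sm l i v ^ 2 * (1 - y v ^ 2) := by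
    refine Finset.sum_congr rfl fun v _ => ?_
    by_cases hv : P.a i v = 0
    · rw [hsm v hv]; ring
    · rw [h v hv]
  have hφ : P.φ l F i x = P.φ l F i y := by
    unfold φ
    rw [hB, hE]
  unfold th
  rw [hφ]

end Sys

end H167KL
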